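import Pool.Agent.MP_a3b3aa_an.HyTr
import Pool.Agent.MP_a3b3aa_an.TraceLemmas
import Pool.Agent.MP_a3b3aa_an.HyDefs
import Pool.Agent.MP_a3b3aa_an.UltraDefs

section

/-! Estimates in a C*-algebra with a trace: random sign sums of Kraus operators. -/

open Filter Topology
open scoped ComplexOrder

set_option linter.unusedSectionVars false

namespace Pool.Agent.MP_a3b3aa_an.Hy

variable {A : Type} [CStarAlgebra A] [PartialOrder A] [StarOrderedRing A]

/-- The trace as a `TrAlg`. -/
noncomputable def toTr (τ : TracialState A) : TrAlg A where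
  T := τ.toFun
  one := τ.map_one
  pos := τ.star_mul_self_nonneg
  tr := τ.tracial

lemma norm_le_one_of {x : A} (h : star x * x ≤ 1) : ‖x‖ ≤ 1 := by
  have h1 := (CStarAlgebra.norm_le_one_iff_of_nonneg (star x * x) (star_mul_self_nonneg x)).2 h
  rw [CStarRing.norm_star_mul_self] at h1
  nlinarith [norm_nonneg x]

lemma kad_norm {a c : A} (ha : ‖a‖ ≤ 1) (hc : ‖c‖ ≤ 1) {s : ℝ} (hs : |s| ≤ 1 / 3) :
    ‖a + (s : ℂ) • ((1 - a * star a) * c * (1 - star a * a))‖ ≤ 1 := by
  apply norm_le_one_of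
  have key : ∀ a : A, ‖a‖ ≤ 1 → 0 ≤ 1 - star a * a ∧ ‖1 - star a * a‖ ≤ 1 := by
    intro a ha
    have h1 : star a * a ≤ 1 := by
      rw [← CStarAlgebra.norm_le_one_iff_of_nonneg _ (star_mul_self_nonneg a),
        CStarRing.norm_star_mul_self]
      nlinarith [norm_nonneg a]
    have h2 : 0 ≤ 1 - star a * a := sub_nonneg.2 h1
    refine ⟨h2, (CStarAlgebra.norm_le_one_iff_of_nonneg _ h2).2 ?_⟩
    simp
  obtain ⟨hq0, hq1⟩ := key a ha
  obtain ⟨-, hp1⟩ := key (star a) (by rwa [norm_star])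
  rw [star_star] at hp1
  set p := 1 - a * star a with hp
  set r := 1 - star a * a with hr
  have hps : star p = p := by simp [hp]
  have hrs : star r = r := by simp [hr]
  set m := (s : ℂ) • (star a * c + star c * a) + ((s ^ 2 : ℝ) : ℂ) • (star (p * c) * (p * c))
    with hm
  have hms : IsSelfAdjoint m := by
    rw [IsSelfAdjoint, hm, star_add, TrAlg.star_rsmul, TrAlg.star_rsmul]
    simp only [star_add, star_mul, star_star, add_comm, mul_assoc]
  have hmn : ‖m‖ ≤ 1 := by
    have h1 : ‖star a * c + star c * a‖ ≤ 2 := by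
      refine (norm_add_le _ _).trans ?_
      have a1 := norm_mul_le (star a) c
      have a2 := norm_mul_le (star c) a
      rw [norm_star] at a1 a2
      nlinarith [norm_nonneg a, norm_nonneg c]
    have h2 : ‖star (p * c) * (p * c)‖ ≤ 1 := by
      rw [CStarRing.norm_star_mul_self]
      have a1 := norm_mul_le p c
      have a2 : ‖p * c‖ ≤ 1 := by nlinarith [norm_nonneg p, norm_nonneg c]
      nlinarith [norm_nonneg (p * c)]
    refine (norm_add_le _ _).trans ?_
    rw [norm_smul, norm_smul, Complex.norm_real, Complex.norm_real, Real.norm_eq_abs,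
      Real.norm_eq_abs, abs_pow]
    have h3 := abs_nonneg s
    nlinarith [norm_nonneg (star a * c + star c * a), norm_nonneg (star (p * c) * (p * c))]
  have e : star (a + (s : ℂ) • (p * c * r)) * (a + (s : ℂ) • (p * c * r)) =
      star a * a + star r * m * r := by
    have e1 : star a * p = r * star a := by rw [hp, hr]; noncomm_ring
    have e2 : p * a = a * r := by rw [hp, hr]; noncomm_ring
    rw [star_add, TrAlg.star_rsmul, hm, hrs]
    simp only [star_mul, hps, hrs, add_mul, mul_add, smul_mul_assoc, mul_smul_comm, smul_add,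
      smul_smul]
    have e3 : star a * (p * c * r) = r * (star a * c) * r := by
      rw [← mul_assoc, ← mul_assoc, e1]; simp only [mul_assoc]
    have e4 : r * (star c * p) * a = r * (star c * a) * r := by
      rw [mul_assoc, mul_assoc, e2]; simp only [mul_assoc]
    rw [e3, e4]
    push_cast
    simp only [mul_assoc, sq]
    abel
  rw [e]
  have h1 := CStarAlgebra.star_left_conjugate_le_norm_smul (a := r) (b := m) hms
  have h2 : ‖m‖ • (star r * r) ≤ (1 : ℝ) • (star r * r) :=
    smul_le_smul_of_nonneg_right hmn (star_mul_self_nonneg r)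
  have h3 : star r * r ≤ r := by
    rw [hrs, ← sub_nonneg]
    have e5 : r - r * r = r * (star a * a) := by rw [hr]; noncomm_ring
    rw [e5]
    refine Commute.mul_nonneg hq0 (star_mul_self_nonneg a) ?_
    rw [commute_iff_eq, hr]; noncomm_ring
  rw [one_smul] at h2
  have h4 : star a * a + r = 1 := by rw [hr]; abel
  rw [← h4]
  gcongr
  exact h1.trans (h2.trans h3)

lemma exists_res (x : A) {θ : ℝ} (hθ : 0 ≤ θ) :
    ∃ R : A, R * (1 + (θ : ℂ) • (star x * x)) = 1 ∧ (1 + (θ : ℂ) • (star x * x)) * R = 1 ∧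
      star R = R ∧ ‖R‖ ≤ 1 := by
  have h0 : 0 ≤ (θ : ℂ) • (star x * x) := by
    rw [Complex.coe_smul]; exact smul_nonneg hθ (star_mul_self_nonneg x)
  set y := (θ : ℂ) • (star x * x) with hy
  have hys : star y = y := (IsSelfAdjoint.of_nonneg h0)
  have h1 : (1 : A) ≤ 1 + y := le_add_of_nonneg_right h0
  obtain ⟨z, hz⟩ := CStarAlgebra.isUnit_of_le (1 : A) h1 isStrictlyPositive_one
  have h2 : (↑z⁻¹ : A) * (1 + y) = 1 := by rw [← hz]; exact z.inv_mul
  have h3 : (1 + y) * (↑z⁻¹ : A) = 1 := by rw [← hz]; exact z.mul_inv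
  set R := (↑z⁻¹ : A)
  have h4 : star R = R := by
    have h5 := congrArg star h3
    rw [star_mul, star_add, star_one, hys] at h5
    calc star R = star R * ((1 + y) * R) := by rw [h3, mul_one]
      _ = R := by rw [← mul_assoc, h5, one_mul]
  refine ⟨R, h2, h3, h4, norm_le_one_of ?_⟩
  have h5 : (1 : A) ≤ star (1 + y) * (1 + y) := by
    have e : star (1 + y) * (1 + y) = 1 + (y + y + star y * y) := by
      rw [star_add, star_one, hys]; noncomm_ring
    rw [e]
    exact le_add_of_nonneg_right (add_nonneg (add_nonneg h0 h0) (star_mul_self_nonneg y))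
  have h6 := star_left_conjugate_le_conjugate h5 R
  rw [mul_one, mul_assoc, mul_assoc, h3, mul_one, ← star_mul, h3, star_one] at h6
  exact h6

variable (τ : TracialState A)

lemma q_mul_le (a x : A) : (toTr τ).q (a * x) ≤ ‖a‖ ^ 2 * (toTr τ).q x := τ.q_mul_le a x

lemma q_mul_le' (x a : A) : (toTr τ).q (x * a) ≤ ‖a‖ ^ 2 * (toTr τ).q x := τ.q_mul_le' x a

lemma q_le (x : A) : (toTr τ).q x ≤ ‖x‖ ^ 2 := τ.q_le x

lemma q_conj_le (a x b : A) : (toTr τ).q (a * x * b) ≤ ‖a‖ ^ 2 * ‖b‖ ^ 2 * (toTr τ).q x := by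
  have h1 := q_mul_le' τ (a * x) b
  have h2 := q_mul_le τ a x
  calc _ ≤ ‖b‖ ^ 2 * (toTr τ).q (a * x) := h1
    _ ≤ ‖b‖ ^ 2 * (‖a‖ ^ 2 * (toTr τ).q x) := by gcongr
    _ = _ := by ring

lemma exists_trunc (X : A) {θ : ℝ} (hθ : 0 < θ) :
    ∃ b : A, θ * ‖b‖ ^ 2 ≤ 2 ∧ (toTr τ).q (X - b) ≤ 2 * θ * (toTr τ).q (star X * X) ∧
      ∀ u v : A, (toTr τ).q (u * b - b * v) ≤
        2 * (toTr τ).q (u * X - X * v) + 8 * (toTr τ).q (star u * X - X * star v) := by
  obtain ⟨R, h1, h2, h3, h4⟩ := exists_res X hθ.le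
  obtain ⟨R', h1', -, -, h4'⟩ := exists_res (star X) hθ.le
  rw [star_star] at h1'
  have hb : R' * X = X * R := by
    calc R' * X = R' * X * ((1 + (θ : ℂ) • (star X * X)) * R) := by rw [h2, mul_one]
      _ = R' * (1 + (θ : ℂ) • (X * star X)) * X * R := by
        simp only [mul_add, add_mul, mul_smul_comm, smul_mul_assoc, mul_assoc, mul_one, one_mul]
      _ = X * R := by rw [h1', one_mul]
  have hn : θ * ‖X * R‖ ^ 2 ≤ 2 := by
    have e : (θ : ℂ) • (star (X * R) * (X * R)) = R - R * R := by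
      have : R - R * R = R * (1 + (θ : ℂ) • (star X * X)) * R - R * R := by rw [h1, one_mul]
      rw [this, star_mul, h3]
      simp only [mul_add, add_mul, mul_smul_comm, smul_mul_assoc, mul_assoc, mul_one]
      abel
    have e2 := congrArg norm e
    rw [norm_smul, Complex.norm_real, Real.norm_eq_abs, abs_of_pos hθ,
      CStarRing.norm_star_mul_self, ← sq] at e2
    rw [e2]
    have a1 := norm_sub_le R (R * R)
    have a2 := norm_mul_le R R
    nlinarith [norm_nonneg R]
  refine ⟨X * R, hn, ?_, fun u v => ?_⟩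
  · have e : X - X * R = (θ : ℂ) • (X * R * (star X * X)) := by
      have : X - X * R = X * (R * (1 + (θ : ℂ) • (star X * X))) - X * R := by rw [h1, mul_one]
      rw [this]
      simp only [mul_add, mul_smul_comm, mul_assoc, mul_one]
      abel
    rw [e, TrAlg.q_smul]
    have a1 := q_mul_le τ (X * R) (star X * X)
    have a2 := (toTr τ).q_nonneg (star X * X)
    calc θ ^ 2 * (toTr τ).q (X * R * (star X * X))
        ≤ θ ^ 2 * (‖X * R‖ ^ 2 * (toTr τ).q (star X * X)) := by gcongr
      _ = θ * (θ * ‖X * R‖ ^ 2) * (toTr τ).q (star X * X) := by ring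
      _ ≤ θ * 2 * (toTr τ).q (star X * X) := by gcongr
      _ = _ := by ring
  · have e : u * (X * R) - X * R * v = R' * (u * X - X * v) * R +
        (θ : ℂ) • (X * R * star (star u * X - X * star v) * (X * R)) := by
      have e1 : u * (X * R) - X * R * v =
          R' * (1 + (θ : ℂ) • (X * star X)) * u * (X * R) -
            R' * X * v * ((1 + (θ : ℂ) • (star X * X)) * R) := by
        rw [h1', h2, one_mul, mul_one, hb]
      rw [e1]
      nth_rewrite 2 [← hb]
      simp only [star_sub, star_mul, star_star, mul_add, add_mul, mul_sub, sub_mul, mul_smul_comm,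
        smul_mul_assoc, mul_assoc, mul_one, one_mul, smul_sub]
      abel
    rw [e]
    refine ((toTr τ).q_add_le _ _).trans ?_
    have a1 := q_conj_le τ R' (u * X - X * v) R
    have a2 := q_conj_le τ (X * R) (star (star u * X - X * star v)) (X * R)
    rw [TrAlg.q_star] at a2
    rw [TrAlg.q_smul]
    have b1 := (toTr τ).q_nonneg (u * X - X * v)
    have b2 := (toTr τ).q_nonneg (star u * X - X * star v)
    have c1 : ‖R'‖ ^ 2 * ‖R‖ ^ 2 ≤ 1 := by
      have := norm_nonneg R
      have := norm_nonneg R'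
      exact mul_le_one₀ (by nlinarith) (by positivity) (by nlinarith)
    have c2 : θ ^ 2 * (‖X * R‖ ^ 2 * ‖X * R‖ ^ 2) ≤ 4 := by
      have : 0 ≤ θ * ‖X * R‖ ^ 2 := by positivity
      nlinarith
    have d1 : (toTr τ).q (R' * (u * X - X * v) * R) ≤ (toTr τ).q (u * X - X * v) := by nlinarith
    have d2 : θ ^ 2 * (toTr τ).q (X * R * star (star u * X - X * star v) * (X * R)) ≤
        4 * (toTr τ).q (star u * X - X * star v) := by
      calc _ ≤ θ ^ 2 * (‖X * R‖ ^ 2 * ‖X * R‖ ^ 2 * (toTr τ).q (star u * X - X * star v)) := by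
            gcongr
        _ = θ ^ 2 * (‖X * R‖ ^ 2 * ‖X * R‖ ^ 2) * (toTr τ).q (star u * X - X * star v) := by ring
        _ ≤ _ := by gcongr
    linarith

/-- Average of `F` over all signed sums of the list. -/
noncomputable def Ex : List A → (A → ℝ) → ℝ
  | [], F => F 0
  | a :: l, F => Ex l fun X => (F (X + a) + F (X - a)) / 2

lemma Ex_mono (l : List A) {F G : A → ℝ} (h : ∀ X, F X ≤ G X) : Ex l F ≤ Ex l G := by
  induction l generalizing F G with
  | nil => exact h 0
  | cons a l ih => exact ih fun X => by linarith [h (X + a), h (X - a)]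

lemma Ex_add (l : List A) (F G : A → ℝ) : Ex l (fun X => F X + G X) = Ex l F + Ex l G := by
  induction l generalizing F G with
  | nil => rfl
  | cons a l ih =>
    simp only [Ex]
    rw [← ih]
    congr 1
    ext X
    ring

lemma Ex_mul (l : List A) (c : ℝ) (F : A → ℝ) : Ex l (fun X => c * F X) = c * Ex l F := by
  induction l generalizing F with
  | nil => rfl
  | cons a l ih =>
    simp only [Ex]
    rw [← ih]
    congr 1
    ext X
    ring

lemma Ex_const (l : List A) (c : ℝ) : Ex l (fun _ => c) = c := by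
  induction l with
  | nil => rfl
  | cons a l ih => simpa [Ex] using ih

lemma Ex_quad (l : List A) (F : A → ℝ) (h0 : F 0 = 0)
    (hF : ∀ X a, F (X + a) + F (X - a) = 2 * F X + 2 * F a) : Ex l F = (l.map F).sum := by
  induction l with
  | nil => exact h0
  | cons a l ih =>
    simp only [Ex, List.map_cons, List.sum_cons]
    have : (fun X => (F (X + a) + F (X - a)) / 2) = fun X => F X + F a := by
      ext X; rw [hF]; ring
    rw [this, Ex_add, Ex_const, ih, add_comm]

lemma re_sum_mul (l : List A) (f : A → A) (y : A) :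
    (l.map fun a => (toTr τ).re (f a * y)).sum = (toTr τ).re ((l.map f).sum * y) := by
  induction l with
  | nil => simp [TrAlg.re_zero]
  | cons a l ih => simp only [List.map_cons, List.sum_cons, add_mul, TrAlg.re_add, ih]

lemma Ex_left (l : List A) (y : A) :
    Ex l (fun X => (toTr τ).re (star X * X * y)) =
      (toTr τ).re ((l.map fun a => star a * a).sum * y) := by
  rw [Ex_quad, re_sum_mul]
  · simp [TrAlg.re_zero]
  · intro X a
    rw [← TrAlg.re_add, two_mul, two_mul, ← TrAlg.re_add, ← TrAlg.re_add, ← TrAlg.re_add]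
    congr 1
    simp only [star_add, star_sub]
    noncomm_ring

lemma Ex_right (l : List A) (y : A) :
    Ex l (fun X => (toTr τ).re (X * star X * y)) =
      (toTr τ).re ((l.map fun a => a * star a).sum * y) := by
  rw [Ex_quad, re_sum_mul]
  · simp [TrAlg.re_zero]
  · intro X a
    rw [← TrAlg.re_add, two_mul, two_mul, ← TrAlg.re_add, ← TrAlg.re_add, ← TrAlg.re_add]
    congr 1
    simp only [star_add, star_sub]
    noncomm_ring

lemma Ex_four (l : List A) :
    Ex l (fun X => (toTr τ).q (star X * X)) ≤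
      (toTr τ).re ((l.map fun a => star a * a).sum * (l.map fun a => star a * a).sum) +
        2 * (toTr τ).re ((l.map fun a => a * star a).sum * (l.map fun a => a * star a).sum) := by
  set t := toTr τ with ht
  induction l with
  | nil => simp [Ex, TrAlg.q_zero, TrAlg.re_zero]
  | cons a l ih =>
    simp only [Ex, List.map_cons, List.sum_cons]
    have h1 : ∀ X : A, (t.q (star (X + a) * (X + a)) + t.q (star (X - a) * (X - a))) / 2 ≤
        t.q (star X * X) + (t.q (star a * a) + (2 * t.re (star X * X * (star a * a)) +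
          4 * t.re (X * star X * (a * star a)))) := by
      intro X
      have e1 : star (X + a) * (X + a) = (star X * X + star a * a) + (star X * a + star a * X) := by
        rw [star_add]; noncomm_ring
      have e2 : star (X - a) * (X - a) = (star X * X + star a * a) - (star X * a + star a * X) := by
        rw [star_sub]; noncomm_ring
      have a1 := t.q_add_le (star X * a) (star a * X)
      have a2 : t.q (star a * X) = t.q (star X * a) := by rw [← t.q_star, star_mul, star_star]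
      have a3 : t.q (star X * a) = t.re (X * star X * (a * star a)) := by
        rw [TrAlg.q, star_mul, star_star, mul_assoc, t.re_tr]
        congr 1
        simp only [mul_assoc]
      have a4 : t.ip (star X * X) (star a * a) = t.re (star X * X * (star a * a)) := by
        rw [TrAlg.ip, star_mul, star_star]
      rw [e1, e2, t.parallelogram, t.q_add (star X * X), a4]
      linarith
    refine (Ex_mono l h1).trans ?_
    rw [Ex_add, Ex_add, Ex_add, Ex_mul, Ex_mul, Ex_const, ht, Ex_left, Ex_right, ← ht]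
    set P := (l.map fun a => star a * a).sum
    set R := (l.map fun a => a * star a).sum
    have b1 : t.re ((star a * a + P) * (star a * a + P)) =
        t.q (star a * a) + 2 * t.re (P * (star a * a)) + t.re (P * P) := by
      rw [add_mul, mul_add, mul_add, t.re_add, t.re_add, t.re_add, t.re_tr (star a * a) P,
        TrAlg.q, star_mul, star_star]
      ring
    have b2 : t.re ((a * star a + R) * (a * star a + R)) =
        t.q (a * star a) + 2 * t.re (R * (a * star a)) + t.re (R * R) := by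
      rw [add_mul, mul_add, mul_add, t.re_add, t.re_add, t.re_add, t.re_tr (a * star a) R,
        TrAlg.q, star_mul, star_star]
      ring
    have b3 := t.q_nonneg (a * star a)
    rw [b1, b2]
    linarith

/-- The intertwining defect. -/
noncomputable def Df (k : ℕ) (u v : ℕ → A) (X : A) : ℝ :=
  ∑ j ∈ Finset.range (k + 1),
    ((toTr τ).q (u j * X - X * v j) + (toTr τ).q (star (u j) * X - X * star (v j)))

lemma Df_nonneg (k : ℕ) (u v : ℕ → A) (X : A) : 0 ≤ Df τ k u v X :=
  Finset.sum_nonneg fun _ _ => add_nonneg (TrAlg.q_nonneg _ _) (TrAlg.q_nonneg _ _)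

lemma Ex_Df (l : List A) (k : ℕ) (u v : ℕ → A) :
    Ex l (Df τ k u v) = (l.map (Df τ k u v)).sum := by
  refine Ex_quad l _ (by simp [Df, TrAlg.q_zero]) fun X a => ?_
  have h : ∀ u v : A, (toTr τ).q (u * (X + a) - (X + a) * v) +
      (toTr τ).q (u * (X - a) - (X - a) * v) =
      2 * (toTr τ).q (u * X - X * v) + 2 * (toTr τ).q (u * a - a * v) := by
    intro u v
    rw [← TrAlg.parallelogram]
    congr 2 <;> noncomm_ring
  simp only [Df, Finset.mul_sum, ← Finset.sum_add_distrib]
  refine Finset.sum_congr rfl fun j _ => ?_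
  linarith [h (u j) (v j), h (star (u j)) (star (v j))]

theorem fin_lemma {η H : ℝ} (hη : 0 < η) (hH : 0 < H) :
    ∃ Bd η₁ : ℝ, 0 < Bd ∧ 0 < η₁ ∧ ∀ ε > 0, ∃ δ > 0, ∀ (l : List A) (k : ℕ) (u v : ℕ → A)
      (h₁ h₂ : A), (l.map fun a => star a * a).sum = 1 → (l.map fun a => a * star a).sum = 1 →
      ‖h₁‖ ≤ H → ‖h₂‖ ≤ H → η ≤ (toTr τ).re h₁ - (toTr τ).re h₂ →
      (l.map (Df τ k u v)).sum ≤ δ →
      ∃ b : A, ‖b‖ ≤ Bd ∧ Df τ k u v b < ε ∧ η₁ < (toTr τ).q (h₁ * b - b * h₂) := by
  set t := toTr τ with ht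
  set K := 4 * H ^ 2 with hK
  have hK0 : 0 < K := by positivity
  set θ := η ^ 2 / (48 * K) with hθ
  have hθ0 : 0 < θ := by positivity
  refine ⟨1 + 2 / θ, η ^ 2 / 8, by positivity, by positivity, fun ε hε => ?_⟩
  set μ := 20 * K / (θ * ε) with hμ
  have hμ0 : 0 < μ := by positivity
  refine ⟨η ^ 2 / (16 * μ), by positivity, fun l k u v h₁ h₂ hl hr hn₁ hn₂ hre hD => ?_⟩
  by_contra hcon
  push Not at hcon
  have hW : ∀ Y : A, t.q (h₁ * Y - Y * h₂) ≤ K * t.q Y := by
    intro Y
    have a1 := t.q_sub_le (h₁ * Y) (Y * h₂)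
    have a2 := q_mul_le τ h₁ Y
    have a3 := q_mul_le' τ Y h₂
    have a4 := t.q_nonneg Y
    have a5 : ‖h₁‖ ^ 2 * t.q Y ≤ H ^ 2 * t.q Y := by gcongr
    have a6 : ‖h₂‖ ^ 2 * t.q Y ≤ H ^ 2 * t.q Y := by gcongr
    rw [← ht] at a2 a3
    rw [hK]
    linarith
  have hpt : ∀ X : A, η * (t.re (X * star X * h₁) + (-1) * t.re (star X * X * h₂)) ≤
      η ^ 2 / 4 * t.re (star X * X * 1) + (η ^ 2 / 4 + (2 * μ * Df τ k u v X +
        4 * K * θ * t.q (star X * X))) := by
    intro X
    obtain ⟨b, hb1, hb2, hb3⟩ := exists_trunc τ X hθ0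
    rw [← ht] at hb2 hb3
    have hbn : ‖b‖ ^ 2 ≤ 2 / θ := by rw [le_div_iff₀ hθ0]; linarith
    have hbn' : ‖b‖ ≤ 1 + 2 / θ := by nlinarith [norm_nonneg b]
    have c1 : t.q (h₁ * b - b * h₂) ≤ η ^ 2 / 8 + μ * Df τ k u v X := by
      have d0 := Df_nonneg τ k u v X
      by_cases hc : Df τ k u v b < ε
      · have := hcon b hbn' hc
        nlinarith
      · have d1 : Df τ k u v b ≤ 10 * Df τ k u v X := by
          simp only [Df, Finset.mul_sum]
          refine Finset.sum_le_sum fun j _ => ?_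
          have x1 := hb3 (u j) (v j)
          have x2 := hb3 (star (u j)) (star (v j))
          rw [star_star, star_star] at x2
          rw [← ht]
          linarith
        have d2 : t.q (h₁ * b - b * h₂) ≤ K * (2 / θ) := by
          refine (hW b).trans ?_
          have := q_le τ b
          rw [← ht] at this
          gcongr
          linarith
        have d3 : μ * (ε / 10) = K * (2 / θ) := by rw [hμ]; field_simp; ring
        have d4 : μ * (ε / 10) ≤ μ * Df τ k u v X := by gcongr; linarith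
        have : 0 < η ^ 2 / 8 := by positivity
        linarith
    have c2 : t.q (h₁ * X - X * h₂) ≤ 2 * t.q (h₁ * b - b * h₂) + 2 * (K * t.q (X - b)) := by
      have e : h₁ * X - X * h₂ = (h₁ * b - b * h₂) + (h₁ * (X - b) - (X - b) * h₂) := by
        noncomm_ring
      have := t.q_add_le (h₁ * b - b * h₂) (h₁ * (X - b) - (X - b) * h₂)
      have := hW (X - b)
      rw [e]
      linarith
    have c3 : K * t.q (X - b) ≤ K * (2 * θ * t.q (star X * X)) := by gcongr
    have c4 := t.two_ip_le (η / 2) (by positivity) X (h₁ * X - X * h₂)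
    have c5 : t.ip X (h₁ * X - X * h₂) =
        t.re (X * star X * h₁) + (-1) * t.re (star X * X * h₂) := by
      rw [TrAlg.ip, mul_sub, t.re_sub, ← mul_assoc, t.re_tr (star X * h₁), ← mul_assoc,
        ← mul_assoc]
      ring
    have c6 : t.re (star X * X * 1) = t.q X := by rw [mul_one]; rfl
    rw [← c5, c6]
    have c7 : t.q (h₁ * X - X * h₂) / (η / 2) = 2 * (t.q (h₁ * X - X * h₂) / η) := by
      field_simp
    have c8 : η * (t.q (h₁ * X - X * h₂) / η) = t.q (h₁ * X - X * h₂) := by field_simp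
    rw [c7] at c4
    have c9 := mul_le_mul_of_nonneg_left c4 hη.le
    nlinarith
  have h1 := Ex_mono l hpt
  have h4 := Ex_four τ l
  rw [Ex_mul, Ex_add, Ex_add, Ex_add, Ex_add, Ex_mul, Ex_mul, Ex_mul, Ex_mul, Ex_const, ht,
    Ex_left, Ex_left, Ex_right, Ex_Df, ← ht, hl, hr, one_mul, one_mul, one_mul, t.re_one] at h1
  rw [hl, hr, one_mul, ← ht, t.re_one] at h4
  have h5 : 4 * K * θ * Ex l (fun X => t.q (star X * X)) ≤ 4 * K * θ * 3 := by
    gcongr; linarith
  have h6 : 4 * K * θ * 3 = η ^ 2 / 4 := by rw [hθ]; field_simp; ring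
  have h7 : 2 * μ * (l.map (Df τ k u v)).sum ≤ 2 * μ * (η ^ 2 / (16 * μ)) := by gcongr
  have h8 : 2 * μ * (η ^ 2 / (16 * μ)) = η ^ 2 / 8 := by field_simp; ring
  have h9 : η * η ≤ η * (t.re h₁ + (-1) * t.re h₂) := by gcongr; linarith
  nlinarith

end Pool.Agent.MP_a3b3aa_an.Hy

end

section

/-! Kraus operators for the compression of a trace preserving ucp map to a matrix subalgebra. -/

open Filter Topology Matrix
open scoped ComplexOrder MatrixOrder

set_option linter.unusedSectionVars false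

namespace Pool.Agent.MP_a3b3aa_an.Hy

variable {A : Type} [CStarAlgebra A] [PartialOrder A] [StarOrderedRing A]

lemma exists_star_mul {B : Type} [NonUnitalCStarAlgebra B] [PartialOrder B] [StarOrderedRing B]
    {a : B} (h : 0 ≤ a) : ∃ b, a = star b * b :=
  CStarAlgebra.nonneg_iff_eq_star_mul_self.1 h

lemma cp_ineq (φ : CompletelyPositiveMap A A) {n : Type} [Fintype n] [DecidableEq n] (i₀ : n)
    (x y : n → A) : 0 ≤ ∑ i, ∑ k, star (y i) * φ (star (x i) * x k) * y k := by
  let Z : CStarMatrix n n A := CStarMatrix.ofMatrix (Matrix.of fun s k => if s = i₀ then x k else 0)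
  have hM : 0 ≤ star Z * Z := star_mul_self_nonneg Z
  have h1 := φ.map_cstarMatrix_nonneg _ hM
  obtain ⟨W, hW⟩ := exists_star_mul h1
  have h2 : ∀ i k, φ (star (x i) * x k) = ∑ s, star (W s i) * W s k := by
    intro i k
    have h3 := congrFun (congrFun hW i) k
    rw [CStarMatrix.map_apply, CStarMatrix.mul_apply, CStarMatrix.mul_apply] at h3
    simp only [CStarMatrix.star_apply] at h3
    rw [← h3]
    congr 1
    rw [Finset.sum_eq_single i₀]
    · simp [Z]
    · intro b _ hb
      simp [Z, hb]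
    · simp
  have h4 : ∑ i, ∑ k, star (y i) * φ (star (x i) * x k) * y k =
      ∑ s, star (∑ i, W s i * y i) * (∑ k, W s k * y k) := by
    simp only [h2, Finset.mul_sum, Finset.sum_mul, star_sum, star_mul]
    rw [Finset.sum_comm]
    conv_rhs => rw [Finset.sum_comm]
    refine Finset.sum_congr rfl fun k _ => ?_
    rw [Finset.sum_comm]
    refine Finset.sum_congr rfl fun s _ => Finset.sum_congr rfl fun i _ => ?_
    simp only [mul_assoc]
  rw [h4]
  exact Finset.sum_nonneg fun s _ => star_mul_self_nonneg _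

variable (τ : TracialState A)

lemma kadison_schwarz (φ : CompletelyPositiveMap A A) (h1 : φ 1 = 1)
    (hτ : ∀ x, τ.toFun (φ x) = τ.toFun x) (w : A) : (toTr τ).q (φ w) ≤ (toTr τ).q w := by
  have h := cp_ineq φ (0 : Fin 2) ![w, 1] ![1, -φ w]
  simp only [Fin.sum_univ_two, Matrix.cons_val_zero, Matrix.cons_val_one, star_one, one_mul,
    mul_one, h1, map_star, star_neg] at h
  have h2 := (Complex.le_def.1 (τ.nonneg _ h)).1
  simp only [map_add, mul_neg, neg_mul, neg_neg, map_neg, Complex.add_re, Complex.neg_re, hτ,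
    Complex.zero_re] at h2
  change (τ.toFun (star (φ w) * φ w)).re ≤ (τ.toFun (star w * w)).re
  linarith

section Matrices

variable {n : Type} [Fintype n] [DecidableEq n]

lemma expand (m : Matrix n n ℂ) : m = ∑ i, ∑ k, m i k • single i k (1 : ℂ) := by
  conv_lhs => rw [matrix_eq_sum_single m]
  simp [smul_single]

lemma trace_j (j : Matrix n n ℂ →⋆ₐ[ℂ] A) (i₀ : n) (m : Matrix n n ℂ) :
    (Fintype.card n : ℂ) * τ.toFun (j m) = m.trace := by
  have h1 : ∀ i k, τ.toFun (j (single i k 1)) =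
      if i = k then τ.toFun (j (single i₀ i₀ 1)) else 0 := by
    intro i k
    have e : (single i k (1 : ℂ) : Matrix n n ℂ) = single i i₀ 1 * single i₀ k 1 := by simp
    rw [e, map_mul, τ.tracial, ← map_mul]
    split_ifs with h
    · subst h; simp
    · rw [single_mul_single_of_ne _ _ _ _ (Ne.symm h)]; simp
  have h2 : ∀ m : Matrix n n ℂ, τ.toFun (j m) = m.trace * τ.toFun (j (single i₀ i₀ 1)) := by
    intro m
    conv_lhs => rw [expand m]
    generalize τ.toFun (j (single i₀ i₀ 1)) = c at h1 ⊢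
    simp only [map_sum, map_smul, h1, smul_eq_mul, mul_ite, mul_zero, Finset.sum_ite_eq,
      Finset.mem_univ, if_true, trace, diag, Finset.sum_mul]
  have h3 := h2 1
  rw [map_one, τ.map_one, trace_one] at h3
  rw [h2 m]
  linear_combination (-m.trace) * h3

lemma exists_kraus_matrix (j : Matrix n n ℂ →⋆ₐ[ℂ] A) (i₀ : n) (φ : CompletelyPositiveMap A A) :
    ∃ K : n × n → Matrix n n ℂ, ∀ m m' : Matrix n n ℂ,
      (m' * ∑ r, star (K r) * m * K r).trace =
        (Fintype.card n : ℂ) * τ.toFun (j m' * φ (j m)) := by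
  set d : ℂ := (Fintype.card n : ℂ) with hd
  let C : Matrix (n × n) (n × n) ℂ := Matrix.of fun p p' =>
    d * τ.toFun (j (single p'.2 p.2 1) * φ (j (single p.1 p'.1 1)))
  have hC : C.PosSemidef := by
    refine PosSemidef.of_dotProduct_mulVec_nonneg ?_ fun ξ => ?_
    · ext p p'
      simp only [C, conjTranspose_apply, of_apply, star_mul', hd, star_natCast]
      rw [← τ.map_star, star_mul, ← map_star, ← map_star, ← map_star, τ.tracial]
      simp [star_eq_conjTranspose, conjTranspose_single]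
    · have h := cp_ineq φ i₀ (fun i => j (single i₀ i 1))
        (fun i => ∑ l, ξ (i, l) • j (single l i₀ 1))
      have h2 := τ.nonneg _ h
      have h3 : star ξ ⬝ᵥ C *ᵥ ξ = d * τ.toFun (∑ i, ∑ k,
          star (∑ l, ξ (i, l) • j (single l i₀ 1)) *
            φ (star (j (single i₀ i 1)) * j (single i₀ k 1)) *
            ∑ l, ξ (k, l) • j (single l i₀ 1)) := by
        simp only [dotProduct, mulVec, C, of_apply, Fintype.sum_prod_type, map_sum, star_sum,
          Finset.mul_sum, Finset.sum_mul, star_smul, smul_mul_assoc, mul_smul_comm, map_smul,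
          smul_eq_mul, Pi.star_apply]
        refine Finset.sum_congr rfl fun i _ => ?_
        rw [Finset.sum_comm]
        refine Finset.sum_congr rfl fun k _ => ?_
        rw [Finset.sum_comm]
        refine Finset.sum_congr rfl fun l' _ => Finset.sum_congr rfl fun l _ => ?_
        have e1 : star (j (single i₀ i 1)) * j (single i₀ k 1) = j (single i k 1) := by
          rw [← map_star, ← map_mul]
          simp [star_eq_conjTranspose, conjTranspose_single]
        have e2 : j (single l' i₀ 1) * star (j (single l i₀ 1)) = j (single l' l 1) := by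
          rw [← map_star, ← map_mul]
          simp [star_eq_conjTranspose, conjTranspose_single]
        rw [e1, τ.tracial (_ * _) (j (single l' i₀ 1)), ← mul_assoc (j (single l' i₀ 1)), e2]
        ring
      rw [h3]
      exact mul_nonneg (by rw [hd]; exact Nat.cast_nonneg _) h2
  obtain ⟨G, hG⟩ := CStarAlgebra.nonneg_iff_eq_star_mul_self.1 hC.nonneg
  refine ⟨fun r => Matrix.of fun i k => G r (i, k), fun m m' => ?_⟩
  have h1 : ∀ i i' l k, (single l k (1 : ℂ) * ∑ r, star (Matrix.of fun i k => G r (i, k)) *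
      single i i' 1 * Matrix.of fun i k => G r (i, k)).trace =
      d * τ.toFun (j (single l k 1) * φ (j (single i i' 1))) := by
    intro i i' l k
    have h2 := congrFun (congrFun hG (i, k)) (i', l)
    simp only [C, of_apply] at h2
    rw [h2, trace_single_mul, one_smul, Matrix.sum_apply, mul_apply]
    refine Finset.sum_congr rfl fun r _ => ?_
    rw [mul_apply, Finset.sum_eq_single i']
    · simp [star_apply]
    · intro b _ hb
      simp [hb]
    · simp
  conv_lhs => rw [expand m, expand m']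
  conv_rhs => rw [expand m, expand m']
  simp only [map_sum, map_smul, Finset.mul_sum, Finset.sum_mul, smul_mul_assoc, mul_smul_comm,
    trace_sum, trace_smul, smul_eq_mul] at h1 ⊢
  rw [Finset.sum_comm]
  refine Finset.sum_congr rfl fun i _ => ?_
  rw [Finset.sum_comm]
  refine Finset.sum_congr rfl fun i' _ => ?_
  rw [Finset.sum_comm]
  refine Finset.sum_congr rfl fun l _ => ?_
  rw [Finset.sum_comm]
  refine Finset.sum_congr rfl fun k _ => ?_
  rw [← Finset.mul_sum, ← Finset.mul_sum, h1]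
  ring

lemma exists_kraus (j : Matrix n n ℂ →⋆ₐ[ℂ] A) (φ : CompletelyPositiveMap A A) (h1 : φ 1 = 1)
    (hτ : ∀ x, τ.toFun (φ x) = τ.toFun x) :
    ∃ l : List A, (l.map fun a => star a * a).sum = 1 ∧ (l.map fun a => a * star a).sum = 1 ∧
      ∀ m m' : Matrix n n ℂ, (l.map fun a => (toTr τ).re (j m' * (star a * j m * a))).sum =
        (toTr τ).re (j m' * φ (j m)) := by
  rcases isEmpty_or_nonempty n with hn | ⟨⟨i₀⟩⟩
  · exfalso
    have h := τ.map_one
    rw [← map_one j, Subsingleton.elim (1 : Matrix n n ℂ) 0, map_zero, map_zero] at h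
    exact zero_ne_one h
  obtain ⟨K, hK⟩ := exists_kraus_matrix τ j i₀ φ
  have hd : (Fintype.card n : ℂ) ≠ 0 := by
    have : 0 < Fintype.card n := Fintype.card_pos_iff.2 ⟨i₀⟩
    exact_mod_cast this.ne'
  have hs : ∀ {β : Type} [AddCommMonoid β] (f : A → β),
      ((Finset.univ.toList.map fun r => j (K r)).map f).sum = ∑ r, f (j (K r)) := by
    intro β _ f
    rw [List.map_map, Finset.sum_map_toList]
    rfl
  refine ⟨Finset.univ.toList.map fun r => j (K r), ?_, ?_, fun m m' => ?_⟩
  · have h2 : ∑ r, star (K r) * K r = 1 := by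
      rw [ext_iff_trace_mul_left]
      intro m'
      have := hK 1 m'
      rw [map_one, h1, mul_one, trace_j τ j i₀] at this
      simpa using this
    rw [hs, ← map_one j, ← h2, map_sum]
    simp only [map_mul, map_star]
  · have h2 : ∑ r, K r * star (K r) = 1 := by
      rw [ext_iff_trace_mul_left]
      intro m
      have := hK m 1
      rw [map_one, one_mul, one_mul, hτ, trace_j τ j i₀, trace_sum] at this
      rw [mul_one, ← this, Finset.mul_sum, trace_sum]
      refine Finset.sum_congr rfl fun r _ => ?_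
      rw [mul_assoc, trace_mul_comm (star (K r)), mul_assoc]
    rw [hs, ← map_one j, ← h2, map_sum]
    simp only [map_mul, map_star]
  · have h2 := hK m m'
    rw [← trace_j τ j i₀] at h2
    have h3 := mul_left_cancel₀ hd h2
    rw [hs]
    change ∑ r, (τ.toFun _).re = (τ.toFun _).re
    rw [← h3, ← Complex.re_sum, ← map_sum, map_mul, map_sum j, Finset.mul_sum]
    simp only [map_mul, map_star]

lemma kraus_estimate (j : Matrix n n ℂ →⋆ₐ[ℂ] A) (φ : CompletelyPositiveMap A A) (h1 : φ 1 = 1)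
    (hτ : ∀ x, τ.toFun (φ x) = τ.toFun x) {l : List A}
    (hl : (l.map fun a => star a * a).sum = 1) (hr : (l.map fun a => a * star a).sum = 1)
    (hK : ∀ m m' : Matrix n n ℂ, (l.map fun a => (toTr τ).re (j m' * (star a * j m * a))).sum =
        (toTr τ).re (j m' * φ (j m)))
    {u v : A} {m m' : Matrix n n ℂ} {δ H : ℝ} (hδ : δ ≤ 1) (hH : (toTr τ).nr u ≤ H)
    (a1 : (toTr τ).nr (u - j m) ≤ δ) (a2 : (toTr τ).nr (v - j m') ≤ δ)
    (a3 : (toTr τ).nr (φ u - v) ≤ δ) (a4 : (toTr τ).nr u ≤ (toTr τ).nr v + δ) :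
    (l.map fun a => (toTr τ).q (u * a - a * v)).sum ≤ (58 + 16 * H) * δ := by
  set t := toTr τ with ht
  have hL : ∀ x : A, (l.map fun a => t.q (x * a)).sum = t.q x := by
    intro x
    have : (fun a => t.q (x * a)) = fun a => t.re (a * star a * (star x * x)) := by
      ext a
      rw [TrAlg.q, star_mul, ← mul_assoc, t.re_tr]
      congr 1
      simp only [mul_assoc]
    rw [this, ht, re_sum_mul, hr, one_mul]
    rfl
  have hR : ∀ y : A, (l.map fun a => t.q (a * y)).sum = t.q y := by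
    intro y
    have : (fun a => t.q (a * y)) = fun a => t.re (star a * a * (y * star y)) := by
      ext a
      rw [TrAlg.q, star_mul, mul_assoc, t.re_tr]
      congr 1
      simp only [mul_assoc]
    rw [this, ht, re_sum_mul, hl, one_mul, ← ht, t.re_tr]
    rfl
  have hpt : ∀ a ∈ l, t.q (u * a - a * v) ≤ 4 * t.q ((u - j m) * a) + (4 * t.q (a * (v - j m')) +
      (2 * t.q (j m * a) + (2 * t.q (a * j m') +
        (-4) * t.re (j (star m') * (star a * j m * a))))) := by
    intro a _
    have e : u * a - a * v = ((u - j m) * a - a * (v - j m')) + (j m * a - a * j m') := by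
      noncomm_ring
    have b1 := t.q_add_le ((u - j m) * a - a * (v - j m')) (j m * a - a * j m')
    have b2 := t.q_sub_le ((u - j m) * a) (a * (v - j m'))
    have b3 := t.q_sub (j m * a) (a * j m')
    have b4 : t.ip (j m * a) (a * j m') = t.re (j (star m') * (star a * j m * a)) := by
      rw [t.ip_comm, TrAlg.ip, star_mul, map_star]
      congr 1
      simp only [mul_assoc]
    rw [e]
    linarith
  refine (List.sum_le_sum hpt).trans ?_
  simp only [List.sum_map_add, List.sum_map_mul_left]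
  rw [hL, hL, hR, hR, hK]
  have c1 : t.re (j (star m') * φ (j m)) = t.ip (j m') (φ (j m)) := by rw [map_star]; rfl
  have c2 := t.q_sub (j m') (φ (j m))
  have hδ0 : 0 ≤ δ := (t.nr_nonneg _).trans a1
  have c3 : t.nr (φ u - φ (j m)) ≤ δ := by
    rw [← map_sub]
    exact (t.nr_le_of_q_le (kadison_schwarz τ φ h1 hτ _)).trans a1
  have c4 : t.nr (j m' - φ (j m)) ≤ 3 * δ := by
    have e : j m' - φ (j m) = (j m' - v) + ((v - φ u) + (φ u - φ (j m))) := by abel
    have d1 := t.nr_add_le (j m' - v) ((v - φ u) + (φ u - φ (j m)))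
    have d2 := t.nr_add_le (v - φ u) (φ u - φ (j m))
    rw [t.nr_sub_comm] at a2 a3
    rw [e]
    linarith
  have c5 : t.nr (j m) ≤ t.nr u + δ := by
    have := t.nr_le_add_sub (j m) u
    rw [t.nr_sub_comm] at this
    linarith
  have c6 : t.nr u ≤ t.nr (φ (j m)) + 3 * δ := by
    have d1 := t.nr_le_add_sub v (φ u)
    have d2 := t.nr_le_add_sub (φ u) (φ (j m))
    rw [t.nr_sub_comm] at d1
    linarith
  have f1 : t.q (u - j m) ≤ δ ^ 2 := by
    rw [← t.nr_sq]; gcongr; exact t.nr_nonneg _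
  have f2 : t.q (v - j m') ≤ δ ^ 2 := by
    rw [← t.nr_sq]; gcongr; exact t.nr_nonneg _
  have f3 : t.q (j m' - φ (j m)) ≤ (3 * δ) ^ 2 := by
    rw [← t.nr_sq]; gcongr; exact t.nr_nonneg _
  have f4 : t.q (j m) - t.q (φ (j m)) ≤ 8 * H * δ + 16 * δ ^ 2 := by
    rw [← t.nr_sq, ← t.nr_sq]
    have g1 := t.nr_nonneg (j m)
    have g2 := t.nr_nonneg (φ (j m))
    have g3 := t.nr_nonneg u
    by_cases hc : 3 * δ ≤ t.nr u
    · have g4 : (t.nr u - 3 * δ) ^ 2 ≤ t.nr (φ (j m)) ^ 2 := by gcongr <;> linarith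
      have g5 : t.nr (j m) ^ 2 ≤ (t.nr u + δ) ^ 2 := by gcongr
      nlinarith
    · have g5 : t.nr (j m) ^ 2 ≤ (4 * δ) ^ 2 := by gcongr; linarith
      have g6 : 0 ≤ H * δ := mul_nonneg (g3.trans hH) hδ0
      nlinarith
  rw [c1]
  nlinarith

end Matrices

end Pool.Agent.MP_a3b3aa_an.Hy

end

section

/-! The tracial ultrapower of an approximately matricial algebra: ucp conjugacy by trace
preserving maps implies unitary conjugacy. -/

open Filter Topology
open scoped ComplexOrder InnerProductSpace BoundedContinuousFunction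

set_option linter.unusedSectionVars false

namespace Pool.Agent.MP_a3b3aa_an.Hy

variable {A : Type} [CStarAlgebra A] [PartialOrder A] [StarOrderedRing A]
variable (τ : TracialState A) (U : Ultrafilter ℕ)

/-- A copy of the ultrapower carrying the involution as an instance. -/
def UQ : Type := (nullCon τ U).Quotient

noncomputable instance : Ring (UQ τ U) := inferInstanceAs (Ring (nullCon τ U).Quotient)

noncomputable instance : Algebra ℂ (UQ τ U) :=
  inferInstanceAs (Algebra ℂ (nullCon τ U).Quotient)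

/-- The class of a bounded sequence. -/
noncomputable def mk (x : ℕ →ᵇ A) : UQ τ U := (nullCon τ U).toQuotient x

lemma mk_surj (z : UQ τ U) : ∃ x, mk τ U x = z := by
  obtain ⟨x⟩ := z
  exact ⟨x, rfl⟩

lemma mk_mul (x y : ℕ →ᵇ A) : mk τ U (x * y) = mk τ U x * mk τ U y := rfl
lemma mk_add (x y : ℕ →ᵇ A) : mk τ U (x + y) = mk τ U x + mk τ U y := rfl
lemma mk_sub (x y : ℕ →ᵇ A) : mk τ U (x - y) = mk τ U x - mk τ U y := rfl
lemma mk_smul (c : ℂ) (x : ℕ →ᵇ A) : mk τ U (c • x) = c • mk τ U x := rfl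
lemma mk_one : mk τ U 1 = 1 := rfl
lemma mk_zero : mk τ U 0 = 0 := rfl

noncomputable instance : StarRing (UQ τ U) where
  star := ultraStar τ U
  star_involutive z := by
    obtain ⟨x, rfl⟩ := mk_surj τ U z
    exact congrArg (mk τ U) (star_star x)
  star_mul z w := by
    obtain ⟨x, rfl⟩ := mk_surj τ U z
    obtain ⟨y, rfl⟩ := mk_surj τ U w
    exact congrArg (mk τ U) (star_mul x y)
  star_add z w := by
    obtain ⟨x, rfl⟩ := mk_surj τ U z
    obtain ⟨y, rfl⟩ := mk_surj τ U w
    exact congrArg (mk τ U) (star_add x y)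

lemma mk_star (x : ℕ →ᵇ A) : mk τ U (star x) = star (mk τ U x) := rfl

instance : StarModule ℂ (UQ τ U) where
  star_smul c z := by
    obtain ⟨x, rfl⟩ := mk_surj τ U z
    exact congrArg (mk τ U) (star_smul c x)

lemma tendsto_trace (x : ℕ →ᵇ A) :
    Tendsto (fun n => τ.toFun (x n)) U (𝓝 (ultraTrace τ U (mk τ U x))) := by
  obtain ⟨c, hc⟩ := τ.exists_tendsto U x
  have : ultraTrace τ U (mk τ U x) = c := hc.limUnder_eq
  rwa [this]

/-- The trace of the ultrapower. -/
noncomputable def uTr : TrAlg (UQ τ U) where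
  T :=
    { toFun := ultraTrace τ U
      map_add' := fun z w => by
        obtain ⟨x, rfl⟩ := mk_surj τ U z
        obtain ⟨y, rfl⟩ := mk_surj τ U w
        refine tendsto_nhds_unique (tendsto_trace τ U (x + y)) ?_
        simpa using (tendsto_trace τ U x).add (tendsto_trace τ U y)
      map_smul' := fun c z => by
        obtain ⟨x, rfl⟩ := mk_surj τ U z
        refine tendsto_nhds_unique (tendsto_trace τ U (c • x)) ?_
        simpa using (tendsto_trace τ U x).const_mul c }
  one := by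
    refine tendsto_nhds_unique (tendsto_trace τ U 1) ?_
    simp [τ.map_one]
  pos z := by
    obtain ⟨x, rfl⟩ := mk_surj τ U z
    exact ge_of_tendsto' (tendsto_trace τ U (star x * x)) fun n => τ.star_mul_self_nonneg (x n)
  tr z w := by
    obtain ⟨x, rfl⟩ := mk_surj τ U z
    obtain ⟨y, rfl⟩ := mk_surj τ U w
    refine tendsto_nhds_unique (tendsto_trace τ U (x * y)) ?_
    exact (tendsto_trace τ U (y * x)).congr fun n => τ.tracial _ _

lemma tendsto_re (x : ℕ →ᵇ A) :
    Tendsto (fun n => (toTr τ).re (x n)) U (𝓝 ((uTr τ U).re (mk τ U x))) :=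
  (Complex.continuous_re.tendsto _).comp (tendsto_trace τ U x)

lemma tendsto_q (x : ℕ →ᵇ A) :
    Tendsto (fun n => (toTr τ).q (x n)) U (𝓝 ((uTr τ U).q (mk τ U x))) :=
  tendsto_re τ U (star x * x)

lemma tendsto_nr (x : ℕ →ᵇ A) :
    Tendsto (fun n => (toTr τ).nr (x n)) U (𝓝 ((uTr τ U).nr (mk τ U x))) :=
  (tendsto_q τ U x).sqrt

lemma faithful (z : UQ τ U) (h : (uTr τ U).q z = 0) : z = 0 := by
  obtain ⟨x, rfl⟩ := mk_surj τ U z
  have h1 := tendsto_q τ U x
  rw [h] at h1
  refine (nullCon τ U).eq.2 ?_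
  refine (τ.tendsto_iff fun n => x n - (0 : ℕ →ᵇ A) n).2 ?_
  simpa using! h1

/-- Classes of sequences of contractions. -/
def ball : Set (UQ τ U) := {z | ∃ x, mk τ U x = z ∧ ∀ n, ‖x n‖ ≤ 1}

variable {U}

lemma diagonal (hU : (U : Filter ℕ) ≤ cofinite) {C : ℝ} (hC : 0 ≤ C) (P : ℕ → ℕ → A → Prop)
    (h : ∀ k, ∀ᶠ n in (U : Filter ℕ), ∃ b, ‖b‖ ≤ C ∧ P k n b) :
    ∃ x : ℕ →ᵇ A, (∀ n, ‖x n‖ ≤ C) ∧ ∀ j, ∀ᶠ n in (U : Filter ℕ), ∃ k, j ≤ k ∧ P k n (x n) := by
  classical
  have h1 : ∀ n, ∃ b : A, ‖b‖ ≤ C ∧ ∀ j ≤ n, (∃ b, ‖b‖ ≤ C ∧ P j n b) →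
      ∃ k, j ≤ k ∧ P k n b := by
    intro n
    by_cases hn : ∃ j ≤ n, ∃ b, ‖b‖ ≤ C ∧ P j n b
    · obtain ⟨j, hj, hb⟩ := hn
      obtain ⟨b, hb1, hb2⟩ :=
        Nat.findGreatest_spec (P := fun j => ∃ b, ‖b‖ ≤ C ∧ P j n b) hj hb
      exact ⟨b, hb1, fun i hi hib => ⟨_, Nat.le_findGreatest hi hib, hb2⟩⟩
    · exact ⟨0, by simpa using hC, fun j hj hb => absurd ⟨j, hj, hb⟩ hn⟩
  choose b hb1 hb2 using h1
  refine ⟨BoundedContinuousFunction.ofNormedAddCommGroupDiscrete b C hb1, hb1, fun j => ?_⟩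
  have h2 : ∀ᶠ n in (U : Filter ℕ), j ≤ n := by
    apply hU
    rw [Nat.cofinite_eq_atTop]
    exact eventually_ge_atTop j
  filter_upwards [h j, h2] with n hn hj
  exact hb2 n j hj hn

lemma one_div_le {j k : ℕ} (h : j ≤ k) : (1 : ℝ) / (k + 1) ≤ 1 / (j + 1) :=
  one_div_le_one_div_of_le (by positivity) (by exact_mod_cast Nat.succ_le_succ h)

lemma good (hU : (U : Filter ℕ) ≤ cofinite) : Good (uTr τ U) (ball τ U) where
  faithful := faithful τ U
  zero_mem := ⟨0, rfl, fun n => by simp⟩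
  scale c := by
    obtain ⟨x, rfl⟩ := mk_surj τ U c
    refine ⟨1 / (‖x‖ + 1), by positivity, _, mk_smul τ U _ x, fun n => ?_⟩
    have h := x.norm_coe_le_norm n
    have h0 : 0 < ‖x‖ + 1 := by positivity
    rw [BoundedContinuousFunction.smul_apply, norm_smul, Complex.norm_real, Real.norm_eq_abs,
      abs_of_pos (by positivity), one_div, inv_mul_le_iff₀ h0]
    linarith
  kad := by
    rintro _ ⟨a, rfl, ha⟩ _ ⟨c, rfl, hc⟩ s hs
    exact ⟨a + (s : ℂ) • ((1 - a * star a) * c * (1 - star a * a)), rfl,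
      fun n => kad_norm (ha n) (hc n) hs⟩
  mid := by
    rintro _ ⟨a, rfl, ha⟩ _ ⟨b, rfl, hb⟩
    refine ⟨((1 / 2 : ℝ) : ℂ) • (a + b), rfl, fun n => ?_⟩
    rw [BoundedContinuousFunction.smul_apply, norm_smul, Complex.norm_real, Real.norm_eq_abs,
      abs_of_pos (by positivity), BoundedContinuousFunction.add_apply]
    linarith [norm_add_le (a n) (b n), ha n, hb n]
  star_mem := by
    rintro _ ⟨a, rfl, ha⟩
    exact ⟨star a, rfl, fun n => by simpa using ha n⟩
  qle := by
    rintro _ ⟨a, rfl, ha⟩ z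
    obtain ⟨x, rfl⟩ := mk_surj τ U z
    refine le_of_tendsto_of_tendsto' (tendsto_q τ U (a * x)) (tendsto_q τ U x) fun n => ?_
    have h1 := q_mul_le τ (a n) (x n)
    have h2 := (toTr τ).q_nonneg (x n)
    have h3 : ‖a n‖ ^ 2 ≤ 1 := by nlinarith [ha n, norm_nonneg (a n)]
    change (toTr τ).q (a n * x n) ≤ _
    nlinarith
  complete y hy hc := by
    choose Y hY hn using hy
    obtain ⟨x, hx1, hx2⟩ := diagonal hU zero_le_one
      (fun k n b => ∀ j ∈ Finset.range (k + 1),
        (toTr τ).q (Y j n - b) < 2 / (j + 1) + 3 * (1 / (k + 1))) (by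
      intro k
      have : ∀ᶠ n in (U : Filter ℕ), ∀ j ∈ Finset.range (k + 1),
          (toTr τ).q (Y j n - Y k n) < 2 / (j + 1) + 3 * (1 / (k + 1)) := by
        refine (Finset.eventually_all _).2 fun j _ => ?_
        refine (tendsto_q τ U (Y j - Y k)).eventually (gt_mem_nhds ?_)
        rw [mk_sub, hY, hY]
        refine (hc j k).trans_lt ?_
        have : (0 : ℝ) < 1 / (k + 1) := by positivity
        have e : (2 : ℝ) / (k + 1) = 2 * (1 / (k + 1)) := by ring
        linarith
      filter_upwards [this] with n hn'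
      exact ⟨Y k n, hn k n, hn'⟩)
    refine ⟨mk τ U x, ⟨x, rfl, hx1⟩, fun j => ?_⟩
    rw [← hY, ← mk_sub]
    refine le_of_tendsto (tendsto_q τ U (Y j - x)) ?_
    filter_upwards [hx2 j] with n ⟨k, hk, h⟩
    have h1 := h j (Finset.mem_range.2 (by omega))
    have h2 := one_div_le hk
    have e1 : (2 : ℝ) / (j + 1) = 2 * (1 / (j + 1)) := by ring
    have e2 : (5 : ℝ) / (j + 1) = 5 * (1 / (j + 1)) := by ring
    change (toTr τ).q (Y j n - x n) ≤ _
    linarith

lemma itw_seq {u v x : ℕ →ᵇ A} (j : ℕ)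
    (h : ∀ m, j ≤ m → ∀ᶠ n in (U : Filter ℕ), (toTr τ).q (u n * x n - x n * v n) ≤ 1 / (m + 1)) :
    mk τ U u * mk τ U x = mk τ U x * mk τ U v := by
  rw [← sub_eq_zero]
  apply faithful
  refine le_antisymm (le_of_forall_div (C := 1) fun k => ?_) (TrAlg.q_nonneg _ _)
  have h1 := le_of_tendsto (tendsto_q τ U (u * x - x * v)) (h (j + k) (by omega))
  have h2 := one_div_le (show k ≤ j + k by omega)
  rw [zero_add]
  exact h1.trans h2

lemma sum_map_sum {ι : Type} (s : Finset ι) (l : List A) (f : ι → A → ℝ) :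
    (l.map fun a => ∑ j ∈ s, f j a).sum = ∑ j ∈ s, (l.map (f j)).sum := by
  induction l with
  | nil => simp
  | cons a l ih => simp only [List.map_cons, List.sum_cons, ih, Finset.sum_add_distrib]

lemma exists_max (hU : (U : Filter ℕ) ≤ cofinite) {ι : Type} (p₁ p₂ : ι → UQ τ U) (d : ℕ → ι)
    (hd : ∀ a, (∀ j, p₁ (d j) * a = a * p₂ (d j)) → Itw p₁ p₂ a) :
    ∃ a ∈ ball τ U, Itw p₁ p₂ a ∧
      ∀ b ∈ ball τ U, Itw p₁ p₂ b → (uTr τ U).q b ≤ (uTr τ U).q a := by
  choose u hu using fun j => mk_surj τ U (p₁ (d j))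
  choose v hv using fun j => mk_surj τ U (p₂ (d j))
  set K : Set ℝ := {r | ∃ b ∈ ball τ U, Itw p₁ p₂ b ∧ (uTr τ U).q b = r} with hK
  have hne : K.Nonempty := ⟨_, 0, (good τ hU).zero_mem, fun i => by simp, rfl⟩
  have hbd : BddAbove K := ⟨(uTr τ U).q 1, by
    rintro r ⟨b, hb, -, rfl⟩
    simpa using (good τ hU).qle b hb 1⟩
  obtain ⟨x, hx1, hx2⟩ := diagonal hU zero_le_one
    (fun k n b => (∀ j ∈ Finset.range (k + 1),
      (toTr τ).q (u j n * b - b * v j n) < 1 / (k + 1)) ∧ sSup K - 1 / (k + 1) < (toTr τ).q b) (by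
    intro k
    have hk : (0 : ℝ) < 1 / (k + 1) := by positivity
    obtain ⟨r, ⟨_, ⟨Y, rfl, hY⟩, hI, rfl⟩, hr⟩ := exists_lt_of_lt_csSup hne
      (show sSup K - 1 / ((k : ℝ) + 1) < sSup K by linarith)
    have h1 : ∀ᶠ n in (U : Filter ℕ), ∀ j ∈ Finset.range (k + 1),
        (toTr τ).q (u j n * Y n - Y n * v j n) < 1 / (k + 1) := by
      refine (Finset.eventually_all _).2 fun j _ => ?_
      refine (tendsto_q τ U (u j * Y - Y * v j)).eventually (gt_mem_nhds ?_)
      rw [mk_sub, mk_mul, mk_mul, hu, hv, hI (d j), sub_self, TrAlg.q_zero]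
      exact hk
    filter_upwards [h1, (tendsto_q τ U Y).eventually (lt_mem_nhds hr)] with n hn hn'
    exact ⟨Y n, hY n, hn, hn'⟩)
  refine ⟨mk τ U x, ⟨x, rfl, hx1⟩, hd _ fun j => ?_, fun b hb hI => ?_⟩
  · rw [← hu, ← hv]
    refine itw_seq τ j fun m hm => ?_
    filter_upwards [hx2 m] with n ⟨k, hk, h, _⟩
    exact (h j (Finset.mem_range.2 (by omega))).le.trans (one_div_le hk)
  · refine (le_csSup hbd ⟨b, hb, hI, rfl⟩).trans (le_of_forall_div (C := 1) fun m => ?_)
    rw [← sub_le_iff_le_add]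
    refine ge_of_tendsto (tendsto_q τ U x) ?_
    filter_upwards [hx2 m] with n ⟨k, hk, _, h⟩
    linarith [one_div_le hk]

lemma hall_aux (hU : (U : Filter ℕ) ≤ cofinite) (hN : IsApproxMatricial τ)
    (φ : ℕ → CompletelyPositiveMap A A) (h1 : ∀ n, φ n 1 = 1)
    (hτ : ∀ n x, τ.toFun (φ n x) = τ.toFun x) (u v : ℕ → ℕ →ᵇ A)
    (hφ : ∀ j, Tendsto (fun n => (toTr τ).nr (φ n (u j n) - v j n)) U (𝓝 0))
    (hnr : ∀ j, (uTr τ U).nr (mk τ U (u j)) = (uTr τ U).nr (mk τ U (v j)))
    (h₁ h₂ : UQ τ U) (hre : (uTr τ U).re h₂ < (uTr τ U).re h₁) :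
    ∃ c : UQ τ U, (∀ j, mk τ U (u j) * c = c * mk τ U (v j)) ∧ h₁ * c ≠ c * h₂ := by
  classical
  obtain ⟨H₁, rfl⟩ := mk_surj τ U h₁
  obtain ⟨H₂, rfl⟩ := mk_surj τ U h₂
  set η := ((uTr τ U).re (mk τ U H₁) - (uTr τ U).re (mk τ U H₂)) / 2 with hη
  have hη0 : 0 < η := by rw [hη]; linarith
  obtain ⟨Bd, η₁, hBd, hη₁, hF⟩ := fin_lemma τ hη0
    (show 0 < ‖H₁‖ + ‖H₂‖ + 1 by positivity)
  obtain ⟨x, -, hx2⟩ := diagonal hU hBd.le
    (fun k n b => Df τ k (fun j => u j n) (fun j => v j n) b < 1 / (k + 1) ∧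
      η₁ < (toTr τ).q (H₁ n * b - b * H₂ n)) (by
    intro k
    obtain ⟨δ', hδ', hF'⟩ := hF (1 / (k + 1)) (by positivity)
    set H := ∑ j ∈ Finset.range (k + 1), ‖u j‖ with hH
    have hH0 : 0 ≤ H := Finset.sum_nonneg fun _ _ => norm_nonneg _
    set δ := min 1 (δ' / (2 * (k + 1) * (58 + 16 * H))) with hδ
    have hδ0 : 0 < δ := lt_min one_pos (by positivity)
    have e1 : ∀ᶠ n in (U : Filter ℕ), ∀ j ∈ Finset.range (k + 1),
        (toTr τ).nr (φ n (u j n) - v j n) < δ :=
      (Finset.eventually_all _).2 fun j _ => (hφ j).eventually (gt_mem_nhds hδ0)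
    have e2 : ∀ᶠ n in (U : Filter ℕ), ∀ j ∈ Finset.range (k + 1),
        (toTr τ).nr (u j n) - (toTr τ).nr (v j n) < δ := by
      refine (Finset.eventually_all _).2 fun j _ => ?_
      refine ((tendsto_nr τ U (u j)).sub (tendsto_nr τ U (v j))).eventually (gt_mem_nhds ?_)
      rw [hnr, sub_self]
      exact hδ0
    have e3 : ∀ᶠ n in (U : Filter ℕ), η < (toTr τ).re (H₁ n) - (toTr τ).re (H₂ n) :=
      ((tendsto_re τ U H₁).sub (tendsto_re τ U H₂)).eventually (lt_mem_nhds (by linarith))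
    filter_upwards [e1, e2, e3] with n a3 a4 a5
    obtain ⟨d, jm, hj⟩ := hN ((Finset.range (k + 1)).image (fun j => u j n) ∪
      (Finset.range (k + 1)).image (fun j => v j n)) (δ ^ 2) (by positivity)
    obtain ⟨l, hl, hr, hK⟩ := exists_kraus τ jm (φ n) (h1 n) (hτ n)
    refine hF' l k _ _ _ _ hl hr ?_ ?_ a5.le ?_
    · linarith [H₁.norm_coe_le_norm n, norm_nonneg H₂]
    · linarith [H₂.norm_coe_le_norm n, norm_nonneg H₁]
    · have hs : ∀ j ∈ Finset.range (k + 1), (l.map fun a => (toTr τ).q (u j n * a - a * v j n) +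
          (toTr τ).q (star (u j n) * a - a * star (v j n))).sum ≤ 2 * ((58 + 16 * H) * δ) := by
        intro j hjk
        obtain ⟨m, hm⟩ := hj (u j n) (Finset.mem_union_left _ (Finset.mem_image_of_mem _ hjk))
        obtain ⟨m', hm'⟩ := hj (v j n) (Finset.mem_union_right _ (Finset.mem_image_of_mem _ hjk))
        have b1 : (toTr τ).nr (u j n - jm m) ≤ δ := Real.sqrt_le_iff.2 ⟨hδ0.le, hm.le⟩
        have b2 : (toTr τ).nr (v j n - jm m') ≤ δ := Real.sqrt_le_iff.2 ⟨hδ0.le, hm'.le⟩
        have b3 : (toTr τ).nr (u j n) ≤ H := by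
          refine le_trans ?_ (Finset.single_le_sum (f := fun j => ‖u j‖)
            (fun _ _ => norm_nonneg _) hjk)
          exact (Real.sqrt_le_iff.2 ⟨norm_nonneg _, q_le τ _⟩).trans ((u j).norm_coe_le_norm n)
        have c1 := kraus_estimate τ jm (φ n) (h1 n) (hτ n) hl hr hK (min_le_left _ _) b3 b1 b2
          (a3 j hjk).le (by linarith [a4 j hjk])
        have c2 := kraus_estimate τ jm (φ n) (h1 n) (hτ n) hl hr hK (u := star (u j n))
          (v := star (v j n)) (m := star m) (m' := star m') (H := H) (min_le_left _ _)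
          (by rwa [TrAlg.nr_star]) (by rwa [map_star, ← star_sub, TrAlg.nr_star])
          (by rwa [map_star, ← star_sub, TrAlg.nr_star])
          (by rw [map_star, ← star_sub, TrAlg.nr_star]; exact (a3 j hjk).le)
          (by rw [TrAlg.nr_star, TrAlg.nr_star]; linarith [a4 j hjk])
        rw [List.sum_map_add]
        linarith
      have h2 := Finset.sum_le_sum hs
      rw [← sum_map_sum, Finset.sum_const, Finset.card_range, nsmul_eq_mul] at h2
      refine le_trans h2 ?_
      have h3 : δ ≤ δ' / (2 * (k + 1) * (58 + 16 * H)) := min_le_right _ _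
      rw [le_div_iff₀ (by positivity)] at h3
      push_cast
      linarith)
  refine ⟨mk τ U x, fun j => ?_, fun h => ?_⟩
  · refine itw_seq τ j fun m hm => ?_
    filter_upwards [hx2 m] with n ⟨k, hk, h, _⟩
    refine le_trans ?_ (h.le.trans (one_div_le hk))
    refine le_trans ?_ (Finset.single_le_sum (f := fun j => (toTr τ).q (u j n * x n - x n * v j n) +
      (toTr τ).q (star (u j n) * x n - x n * star (v j n)))
      (fun _ _ => add_nonneg (TrAlg.q_nonneg _ _) (TrAlg.q_nonneg _ _))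
      (Finset.mem_range.2 (show j < k + 1 by omega)))
    exact le_add_of_nonneg_right (TrAlg.q_nonneg _ _)
  · have h2 : η₁ ≤ (uTr τ U).q (mk τ U (H₁ * x - x * H₂)) := by
      refine ge_of_tendsto (tendsto_q τ U _) ?_
      filter_upwards [hx2 0] with n ⟨k, _, _, h⟩
      exact h.le
    rw [mk_sub, mk_mul, mk_mul, h, sub_self, TrAlg.q_zero] at h2
    linarith

section Sep

variable {M : Type} [CStarAlgebra M] [PartialOrder M] [StarOrderedRing M]
variable {K : Type} [NormedAddCommGroup K] [InnerProductSpace ℂ K] [CompleteSpace K]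

lemma exists_dense {μ : M →⋆ₐ[ℂ] (K →L[ℂ] K)} {σ : TracialState M}
    (hs : TopologicalSpace.SeparableSpace K) (hn : IsNormal μ σ.toFun) :
    ∃ d : ℕ → M, ∀ x, ∀ ε > 0, ∃ j, (toTr σ).q (d j - x) < ε := by
  have : SecondCountableTopology K := UniformSpace.secondCountable_of_separable K
  let e : ℕ → K := TopologicalSpace.denseSeq K
  have he : DenseRange e := TopologicalSpace.denseRange_denseSeq K
  let T : M → ℝ × (ℕ → K) := fun x => (‖x‖, fun i => μ x (e i))
  obtain ⟨t, hts, htc, hcl⟩ := 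
    (TopologicalSpace.IsSeparable.of_separableSpace (Set.range T)).exists_countable_dense_subset
  have hne : t.Nonempty := by
    by_contra h
    rw [Set.not_nonempty_iff_eq_empty] at h
    have := hcl ⟨0, rfl⟩
    simp [h] at this
  obtain ⟨f, rfl⟩ := htc.exists_eq_range hne
  choose d hd using fun j => hts ⟨j, rfl⟩
  refine ⟨d, fun x ε hε => ?_⟩
  obtain ⟨y, hy, hlim⟩ := mem_closure_iff_seq_limit.1 (hcl ⟨x, rfl⟩)
  choose s hs using hy
  have hlim' : Tendsto (fun k => T (d (s k))) atTop (𝓝 (T x)) := by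
    simpa only [hd, hs] using hlim
  set w : ℕ → M := fun k => d (s k) - x with hw
  have hb : ∀ᶠ k in atTop, ‖w k‖ ≤ 2 * ‖x‖ + 1 := by
    have h1 : Tendsto (fun k => ‖d (s k)‖) atTop (𝓝 ‖x‖) := (continuous_fst.tendsto _).comp hlim'
    filter_upwards [h1.eventually (gt_mem_nhds (lt_add_one ‖x‖))] with k hk
    linarith [norm_sub_le (d (s k)) x]
  have hp : ∀ i, Tendsto (fun k => μ (w k) (e i)) atTop (𝓝 0) := by
    intro i
    have h1 : Tendsto (fun k => μ (d (s k)) (e i)) atTop (𝓝 (μ x (e i))) :=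
      (((continuous_apply i).comp continuous_snd).tendsto _).comp hlim'
    have h2 := h1.sub_const (μ x (e i))
    rw [sub_self] at h2
    simpa [hw] using h2
  have hall : ∀ ξ : K, Tendsto (fun k => μ (w k) ξ) atTop (𝓝 0) := by
    intro ξ
    rw [NormedAddGroup.tendsto_nhds_zero]
    intro ε' hε'
    have hc : 0 < 2 * ‖x‖ + 1 := by positivity
    obtain ⟨i, hi⟩ := he.exists_dist_lt ξ (show 0 < ε' / 2 / (2 * ‖x‖ + 1) by positivity)
    filter_upwards [hb, NormedAddGroup.tendsto_nhds_zero.1 (hp i) (ε' / 2) (by positivity)]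
      with k hk1 hk2
    have e1 : μ (w k) ξ = μ (w k) (ξ - e i) + μ (w k) (e i) := by simp
    have h1 : ‖μ (w k) (ξ - e i)‖ ≤ (2 * ‖x‖ + 1) * ‖ξ - e i‖ := by
      refine (ContinuousLinearMap.le_opNorm _ _).trans ?_
      gcongr
      exact (NonUnitalStarAlgHom.norm_apply_le μ (w k)).trans hk1
    rw [dist_eq_norm, lt_div_iff₀ hc] at hi
    rw [e1]
    linarith [norm_add_le (μ (w k) (ξ - e i)) (μ (w k) (e i))]
  have h3 := hn (Filter.map (fun k => star (w k) * w k) atTop) 0
    ⟨(2 * ‖x‖ + 1) * (2 * ‖x‖ + 1), by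
      rw [eventually_map]
      filter_upwards [hb] with k hk
      rw [CStarRing.norm_star_mul_self]
      gcongr⟩ (by
      intro ξ η
      rw [tendsto_map'_iff]
      have := (hall ξ).inner (𝕜 := ℂ) (hall η)
      simp only [inner_zero_left] at this
      simp only [map_zero, zero_apply, inner_zero_right]
      refine this.congr fun k => ?_
      simp only [Function.comp, map_mul, map_star, mul_apply_eq_comp,
        ContinuousLinearMap.star_eq_adjoint, ContinuousLinearMap.adjoint_inner_right])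
  rw [tendsto_map'_iff, map_zero] at h3
  have h4 := (Complex.continuous_re.tendsto _).comp h3
  obtain ⟨k, hk⟩ := (h4.eventually (gt_mem_nhds (show (0 : ℂ).re < ε from hε))).exists
  exact ⟨s k, hk⟩

theorem hyperfinite_yes (hU : (U : Filter ℕ) ≤ cofinite) (hN : IsApproxMatricial τ)
    {μ : M →⋆ₐ[ℂ] (K →L[ℂ] K)} {σ : TracialState M} (hM : IsSeparableIIOneFactor μ σ)
    {π₁ π₂ : M →ₐ[ℂ] (nullCon τ U).Quotient} (e₁ : IsEmbedding μ σ τ U π₁)
    (e₂ : IsEmbedding μ σ τ U π₂) (φ : ℕ → CompletelyPositiveMap A A) (h1 : ∀ n, φ n 1 = 1)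
    (hτ : ∀ n x, τ.toFun (φ n x) = τ.toFun x)
    {Φ : (nullCon τ U).Quotient → (nullCon τ U).Quotient}
    (hΦ : IsUltraproductMap τ U (fun n => φ n) Φ) (hc : ∀ x, Φ (π₁ x) = π₂ x) :
    ∃ u : (nullCon τ U).Quotient, ultraStar τ U u * u = 1 ∧ u * ultraStar τ U u = 1 ∧
      ∀ x, u * π₁ x * ultraStar τ U u = π₂ x := by
  obtain ⟨d, hd⟩ := exists_dense hM.separable hM.normal
  let p₁ : M → UQ τ U := π₁
  let p₂ : M → UQ τ U := π₂
  have G := good τ hU
  have hq : ∀ {π : M →ₐ[ℂ] (nullCon τ U).Quotient}, IsEmbedding μ σ τ U π → ∀ x,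
      (uTr τ U).q (π x) = (toTr σ).q x := by
    intro π e x
    have := e.trace_preserving (star x * x)
    rw [map_mul, e.map_star] at this
    exact congrArg Complex.re this
  have hdense : ∀ a, (∀ j, p₁ (d j) * a = a * p₂ (d j)) → Itw p₁ p₂ a := by
    intro a ha x
    rw [← sub_eq_zero]
    apply G.faithful
    obtain ⟨C, hC, h⟩ := G.bdd a
    obtain ⟨C', hC', h'⟩ := G.bdd' a
    refine le_antisymm (le_of_forall_div (C := 2 * C + 2 * C') fun k => ?_) (TrAlg.q_nonneg _ _)
    obtain ⟨j, hj⟩ := hd x (1 / (k + 1)) (by positivity)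
    have s1 : p₁ (d j - x) = p₁ (d j) - p₁ x := map_sub π₁ _ _
    have s2 : p₂ (d j - x) = p₂ (d j) - p₂ x := map_sub π₂ _ _
    have e : p₁ x * a - a * p₂ x = a * p₂ (d j - x) - p₁ (d j - x) * a := by
      rw [s1, s2, sub_mul, mul_sub, ha j]; abel
    have a1 := (uTr τ U).q_sub_le (a * p₂ (d j - x)) (p₁ (d j - x) * a)
    have a2 := h (p₂ (d j - x))
    have a3 := h' (p₁ (d j - x))
    have q1 : (uTr τ U).q (p₁ (d j - x)) = _ := hq e₁ _
    have q2 : (uTr τ U).q (p₂ (d j - x)) = _ := hq e₂ _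
    rw [q2] at a2
    rw [q1] at a3
    have a4 : C * (toTr σ).q (d j - x) ≤ C * (1 / (k + 1)) := by gcongr
    have a5 : C' * (toTr σ).q (d j - x) ≤ C' * (1 / (k + 1)) := by gcongr
    have e2 : (2 * C + 2 * C') / ((k : ℝ) + 1) =
        2 * (C * (1 / (k + 1))) + 2 * (C' * (1 / (k + 1))) := by ring
    rw [e, e2]
    linarith
  choose u hu using fun j => mk_surj τ U (p₁ (d j))
  choose v hv using fun j => mk_surj τ U (p₂ (d j))
  have hφ : ∀ j, Tendsto (fun n => (toTr τ).nr (φ n (u j n) - v j n)) U (𝓝 0) := by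
    intro j
    obtain ⟨y, hy1, hy2⟩ := hΦ (u j)
    have h2 : mk τ U y = mk τ U (v j) := by
      rw [hv]
      exact hy2.symm.trans ((congrArg Φ (hu j)).trans (hc _))
    have h3 := tendsto_nr τ U (y - v j)
    rw [mk_sub, h2, sub_self, TrAlg.nr, TrAlg.q_zero, Real.sqrt_zero] at h3
    refine h3.congr fun n => ?_
    rw [BoundedContinuousFunction.sub_apply, hy1]
  have hnr : ∀ j, (uTr τ U).nr (mk τ U (u j)) = (uTr τ U).nr (mk τ U (v j)) := by
    intro j
    rw [hu, hv]
    exact congrArg Real.sqrt ((hq e₁ _).trans (hq e₂ _).symm)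
  have key : ∀ h₁ h₂ : UQ τ U, (∀ c, Itw p₁ p₂ c → h₁ * c = c * h₂) →
      (uTr τ U).re h₁ ≤ (uTr τ U).re h₂ := by
    intro h₁ h₂ h
    by_contra hlt
    obtain ⟨c, hc1, hc2⟩ := hall_aux τ hU hN φ h1 hτ u v hφ hnr h₁ h₂ (not_le.1 hlt)
    exact hc2 (h c (hdense c fun j => by rw [← hu, ← hv]; exact hc1 j))
  obtain ⟨a, ha, ha1, ha2⟩ := exists_unitary G (u := p₁) (v := p₂) (σ := star)
    e₁.map_star e₂.map_star (exists_max τ hU p₁ p₂ d hdense) (fun h₁ h₂ h => by
      have k1 := key h₁ h₂ h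
      have k2 := key (-h₁) (-h₂) fun c hc => by rw [neg_mul, mul_neg, h c hc]
      rw [TrAlg.re_neg, TrAlg.re_neg] at k2
      linarith)
  refine ⟨(star a : UQ τ U), ?_, ?_, fun x => ?_⟩
  · exact (show star (star a) * star a = 1 by rwa [star_star])
  · exact (show star a * star (star a) = 1 by rwa [star_star])
  · exact (show star a * p₁ x * star (star a) = p₂ x by
      rw [star_star, mul_assoc, ha x, ← mul_assoc, ha1, one_mul])

end Sep

end Pool.Agent.MP_a3b3aa_an.Hy

end
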