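import Mathlib
import Pool.Agent.MP_890ef7_an.Defs

section

/-! Kolmogorov decomposition of positive semidefinite kernels and extension of Gram-bounded maps. -/

open scoped InnerProductSpace ComplexOrder ComplexConjugate

namespace Pool.Agent.MP_890ef7_an

universe u

theorem exists_kolm {X : Type u} (k : X → X → ℂ) (hk : (Matrix.of k).PosSemidef) :
    ∃ (E : Type u) (_ : NormedAddCommGroup E) (_ : InnerProductSpace ℂ E) (_ : CompleteSpace E)
      (v : X → E), (∀ x y, ⟪v x, v y⟫_ℂ = k x y) ∧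
        DenseRange (Finsupp.linearCombination ℂ v) := by
  have hsymm : ∀ x y, conj (k x y) = k y x := fun x y => by
    have := hk.1.apply y x
    simpa using this
  let c : PreInnerProductSpace.Core ℂ (X →₀ ℂ) :=
    { inner := fun f g => f.sum fun x z => g.sum fun y w => conj z * k x y * w
      conj_inner_symm := fun f g => by
        rw [Finsupp.sum_comm]
        simp only [map_finsuppSum, map_mul, RingHomCompTriple.comp_apply, RingHom.id_apply,
          hsymm]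
        congr! 6
        ring
      add_left := fun _ _ _ => by
        rw [Finsupp.sum_add_index'] <;> simp [← Finsupp.sum_add, add_mul]
      smul_left := fun _ _ _ => by
        rw [Finsupp.sum_smul_index] <;> simp [Finsupp.mul_sum, ← mul_assoc]
      re_inner_nonneg := fun f => by
        have := hk.2 f
        exact (RCLike.nonneg_iff.mp this).1 }
  let : SeminormedAddCommGroup (X →₀ ℂ) :=
    InnerProductSpace.Core.toSeminormedAddCommGroup (𝕜 := ℂ) (c := c)
  let : InnerProductSpace ℂ (X →₀ ℂ) := InnerProductSpace.ofCore c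
  have hin : ∀ f g : X →₀ ℂ, ⟪f, g⟫_ℂ = f.sum fun x z => g.sum fun y w => conj z * k x y * w :=
    fun _ _ => rfl
  refine ⟨UniformSpace.Completion (X →₀ ℂ), inferInstance, inferInstance, inferInstance,
    fun x => ((Finsupp.single x (1 : ℂ) : X →₀ ℂ) : UniformSpace.Completion (X →₀ ℂ)), ?_, ?_⟩
  · intro x y
    rw [UniformSpace.Completion.inner_coe, hin]
    simp
  · have : (Finsupp.linearCombination ℂ
        (fun x => ((Finsupp.single x (1 : ℂ) : X →₀ ℂ) : UniformSpace.Completion (X →₀ ℂ))) :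
          (X →₀ ℂ) → UniformSpace.Completion (X →₀ ℂ)) = (↑) := by
      funext f
      induction f using Finsupp.induction_linear with
      | zero => rw [map_zero, UniformSpace.Completion.coe_zero]
      | add f g hf hg => rw [map_add, hf, hg, UniformSpace.Completion.coe_add]
      | single x a =>
        rw [Finsupp.linearCombination_single, ← UniformSpace.Completion.coe_smul]
        simp
    rw [this]
    exact UniformSpace.Completion.denseRange_coe

section ext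

variable {X : Type*} {E F : Type*} [NormedAddCommGroup E] [InnerProductSpace ℂ E]
  [NormedAddCommGroup F] [InnerProductSpace ℂ F]

theorem inner_lc (v : X → E) (f g : X →₀ ℂ) :
    ⟪Finsupp.linearCombination ℂ v f, Finsupp.linearCombination ℂ v g⟫_ℂ =
      f.sum fun x z => g.sum fun y w => conj z * ⟪v x, v y⟫_ℂ * w := by
  simp only [Finsupp.linearCombination_apply, Finsupp.sum]
  rw [sum_inner]
  refine Finset.sum_congr rfl fun x _ => ?_
  rw [inner_sum]
  refine Finset.sum_congr rfl fun y _ => ?_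
  rw [inner_smul_left, inner_smul_right]
  ring

theorem psd_congr {A B : Matrix X X ℂ} (h : A.PosSemidef) (e : ∀ p q, B p q = A p q) :
    B.PosSemidef := by
  have : B = A := Matrix.ext e
  rwa [this]

theorem psd_gram (v : X → E) : (Matrix.of fun p q => ⟪v p, v q⟫_ℂ).PosSemidef := by
  refine ⟨?_, fun f => ?_⟩
  · ext p q; simp
  · have := inner_lc v f f
    simp only [Matrix.of_apply, RCLike.star_def]
    rw [← this, inner_self_eq_norm_sq_to_K]
    positivity

theorem psd_hadamard {A B : Matrix X X ℂ} (hA : A.PosSemidef) (hB : B.PosSemidef) :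
    (Matrix.of fun p q => A p q * B p q).PosSemidef := hA.hadamard hB

theorem norm_lc_eq_of_gram (v : X → E) (w : X → F) (h : ∀ x y, ⟪w x, w y⟫_ℂ = ⟪v x, v y⟫_ℂ)
    (f : X →₀ ℂ) :
    ‖Finsupp.linearCombination ℂ w f‖ = ‖Finsupp.linearCombination ℂ v f‖ := by
  rw [norm_eq_sqrt_re_inner (𝕜 := ℂ), norm_eq_sqrt_re_inner (𝕜 := ℂ), inner_lc, inner_lc]
  simp only [h]

theorem exists_clm_of_bound [CompleteSpace F] (v : X → E)
    (hv : DenseRange (Finsupp.linearCombination ℂ v)) (w : X → F) {C : ℝ} (hC : 0 ≤ C)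
    (h : ∀ f, ‖Finsupp.linearCombination ℂ w f‖ ≤ C * ‖Finsupp.linearCombination ℂ v f‖) :
    ∃ T : E →L[ℂ] F, ‖T‖ ≤ C ∧ ∀ x, T (v x) = w x := by
  refine ⟨(Finsupp.linearCombination ℂ w).extendOfNorm (Finsupp.linearCombination ℂ v),
    LinearMap.opNorm_extendOfNorm_le hv hC h, fun x => ?_⟩
  have := LinearMap.extendOfNorm_eq (f := Finsupp.linearCombination ℂ w) hv ⟨C, h⟩
    (Finsupp.single x 1)
  simpa using this

theorem clm_ext_of_dense (v : X → E) (hv : DenseRange (Finsupp.linearCombination ℂ v))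
    {T T' : E →L[ℂ] F} (h : ∀ x, T (v x) = T' (v x)) : T = T' := by
  ext y
  refine hv.induction_on (p := fun y => T y = T' y) y (isClosed_eq T.continuous T'.continuous) ?_
  intro f
  simp only [Finsupp.linearCombination_apply, Finsupp.sum, map_sum, map_smul, h]

theorem inner_ext_of_dense (v : X → E) (hv : DenseRange (Finsupp.linearCombination ℂ v))
    {a b : E} (h : ∀ x, ⟪v x, a⟫_ℂ = ⟪v x, b⟫_ℂ) : a = b := by
  refine ext_inner_left ℂ fun y => ?_
  refine hv.induction_on (p := fun y => ⟪y, a⟫_ℂ = ⟪y, b⟫_ℂ) y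
    (isClosed_eq (by fun_prop) (by fun_prop)) ?_
  intro f
  simp only [Finsupp.linearCombination_apply, Finsupp.sum, sum_inner, inner_smul_left, h]

/-- adjoint relation checked on a total family. -/
theorem adj_of_dense [CompleteSpace E] [CompleteSpace F] {Y : Type*} (v : X → E)
    (hv : DenseRange (Finsupp.linearCombination ℂ v)) (w : Y → F)
    (hw : DenseRange (Finsupp.linearCombination ℂ w))
    {T : E →L[ℂ] F} {T' : F →L[ℂ] E} (h : ∀ x y, ⟪w y, T (v x)⟫_ℂ = ⟪T' (w y), v x⟫_ℂ) :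
    T' = T.adjoint := by
  refine clm_ext_of_dense w hw fun y => inner_ext_of_dense v hv fun x => ?_
  rw [ContinuousLinearMap.adjoint_inner_right, ← inner_conj_symm, ← h, inner_conj_symm]

theorem posSemidef_of_tendsto {ι : Type*} {l : Filter ι} [l.NeBot] (k : ι → X → X → ℂ)
    (K : X → X → ℂ) (hk : ∀ᶠ i in l, (Matrix.of (k i)).PosSemidef)
    (hl : ∀ x y, Filter.Tendsto (fun i => k i x y) l (nhds (K x y))) :
    (Matrix.of K).PosSemidef := by
  refine ⟨?_, fun f => ?_⟩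
  · ext x y
    have h1 : Filter.Tendsto (fun i => star (k i y x)) l (nhds (star (K y x))) :=
      (continuous_star.tendsto _).comp (hl y x)
    have h2 : (fun i => star (k i y x)) =ᶠ[l] fun i => k i x y := by
      filter_upwards [hk] with i hi
      simpa using hi.1.apply x y
    simpa using tendsto_nhds_unique (h1.congr' h2) (hl x y)
  · have h1 : Filter.Tendsto
        (fun i => f.sum fun x z => f.sum fun y w => star z * (Matrix.of (k i)) x y * w) l
        (nhds (f.sum fun x z => f.sum fun y w => star z * (Matrix.of K) x y * w)) := by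
      simp only [Finsupp.sum]
      refine tendsto_finsetSum _ fun x _ => tendsto_finsetSum _ fun y _ => ?_
      exact ((hl x y).const_mul _).mul_const _
    refine ge_of_tendsto h1 ?_
    filter_upwards [hk] with i hi using hi.2 f

end ext

end Pool.Agent.MP_890ef7_an

end

section

/-! Words of bounded length in a monoid. -/

namespace Pool.Agent.MP_890ef7_an

/-- `g` is a product of at most `n` of the elements `s i`. -/
def IsW {G κ : Type*} [Monoid G] (s : κ → G) : ℕ → G → Prop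
  | 0, g => g = 1
  | n + 1, g => IsW s n g ∨ ∃ h i, IsW s n h ∧ g = h * s i

section
variable {G κ : Type*} [Monoid G] {s : κ → G}

theorem IsW.one (n : ℕ) : IsW s n 1 := by
  induction n with
  | zero => rfl
  | succ n ih => exact Or.inl ih

theorem IsW.mono {n m : ℕ} {g : G} (h : IsW s n g) (hnm : n ≤ m) : IsW s m g := by
  induction hnm with
  | refl => exact h
  | step _ ih => exact Or.inl ih

theorem IsW.gen (i : κ) : IsW s 1 (s i) := Or.inr ⟨1, i, rfl, (one_mul _).symm⟩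

theorem IsW.mul {n m : ℕ} {g h : G} (hg : IsW s n g) (hh : IsW s m h) : IsW s (n + m) (g * h) := by
  induction m generalizing h with
  | zero => obtain rfl : h = 1 := hh; simpa using hg
  | succ m ih =>
    rcases hh with hh | ⟨h', i, hh', rfl⟩
    · exact Or.inl (ih hh)
    · exact Or.inr ⟨g * h', i, ih hh', (mul_assoc _ _ _).symm⟩

theorem IsW.finite [Finite κ] (n : ℕ) : {g | IsW s n g}.Finite := by
  induction n with
  | zero => exact (Set.finite_singleton (1 : G)).subset fun g hg => hg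
  | succ n ih =>
    refine (ih.union (Set.Finite.image2 (fun h i => h * s i) ih (Set.finite_univ (α := κ)))).subset ?_
    rintro g (hg | ⟨h, i, hh, rfl⟩)
    · exact Or.inl hg
    · exact Or.inr ⟨h, hh, i, trivial, rfl⟩

end

theorem IsW.inv {G κ : Type*} [Group G] {s : κ → G} (σ : κ → κ) (hσ : ∀ i, s (σ i) = (s i)⁻¹)
    {n : ℕ} {g : G} (hg : IsW s n g) : IsW s n g⁻¹ := by
  induction n generalizing g with
  | zero => obtain rfl : g = 1 := hg; simpa using IsW.one (s := s) 0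
  | succ n ih =>
    rcases hg with hg | ⟨h, i, hh, rfl⟩
    · exact Or.inl (ih hg)
    · rw [mul_inv_rev, ← hσ, add_comm]
      exact (IsW.gen _).mul (ih hh)

end Pool.Agent.MP_890ef7_an

end

section

/-! Consequences of Kazhdan's property (T): positive definite functions, finite generation and
boundedness of equivariant maps to Hilbert space. -/

open scoped InnerProductSpace ComplexOrder ComplexConjugate
open Filter Topology

namespace Pool.Agent.MP_890ef7_an

universe u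

variable {Γ : Type u} [Group Γ]

/-- unbundled Kazhdan pair. -/
def KPair (S : Finset Γ) (κ : ℝ) : Prop :=
  ∀ (E : Type u) [NormedAddCommGroup E] [InnerProductSpace ℂ E] [CompleteSpace E]
    (T : Γ → E →L[ℂ] E), (∀ x, T 1 x = x) → (∀ g h x, T (g * h) x = T g (T h x)) →
    (∀ g x y, ⟪T g x, T g y⟫_ℂ = ⟪x, y⟫_ℂ) → ∀ ξ : E, ‖ξ‖ = 1 →
    (∀ s ∈ S, ‖T s ξ - ξ‖ < κ) → ∃ η : E, η ≠ 0 ∧ ∀ g, T g η = η

theorem KazhdanT.exists_pair (h : KazhdanT Γ) : ∃ (S : Finset Γ) (κ : ℝ), 0 < κ ∧ KPair S κ := by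
  obtain ⟨S, κ, hκ, h⟩ := h
  refine ⟨S, κ, hκ, fun E _ _ _ T h1 hm hi ξ hξ hs => ?_⟩
  have hadj : ∀ g, star (T g) = T g⁻¹ := fun g => by
    rw [ContinuousLinearMap.star_eq_adjoint, eq_comm, ContinuousLinearMap.eq_adjoint_iff]
    intro x y
    rw [← hi g, ← hm, mul_inv_cancel, h1]
  refine h E T (fun g => ?_) (fun g h => by ext x; simp [hm]) ξ hξ hs
  rw [Unitary.mem_iff, hadj]
  constructor <;> ext x <;> simp [← hm, h1]

theorem KPair.dist_le {S : Finset Γ} {κ : ℝ} (hκ : 0 < κ) (h : KPair S κ) {E : Type u}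
    [NormedAddCommGroup E] [InnerProductSpace ℂ E] [CompleteSpace E]
    (T : Γ → E →L[ℂ] E) (h1 : ∀ x, T 1 x = x) (hm : ∀ g h x, T (g * h) x = T g (T h x))
    (hi : ∀ g x y, ⟪T g x, T g y⟫_ℂ = ⟪x, y⟫_ℂ) (ξ : E) {c : ℝ} (hc : 0 < c)
    (hs : ∀ s ∈ S, ‖T s ξ - ξ‖ < κ * c) (g : Γ) : ‖T g ξ - ξ‖ ≤ 2 * c := by
  let V : Submodule ℂ E := ⨅ g, LinearMap.ker ((T g - 1 : E →L[ℂ] E) : E →ₗ[ℂ] E)
  have hV : ∀ x, x ∈ V ↔ ∀ g, T g x = x := fun x => by
    simp [V, Submodule.mem_iInf, sub_eq_zero]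
  have hVc : IsClosed (V : Set E) := by
    have : (V : Set E) = ⋂ g, {x | T g x = x} := by ext x; simp [hV]
    rw [this]
    exact isClosed_iInter fun g => isClosed_eq (T g).continuous continuous_id
  haveI : CompleteSpace V := hVc.completeSpace_coe
  have hn : ∀ g x, ‖T g x‖ = ‖x‖ := fun g x => by
    rw [norm_eq_sqrt_re_inner (𝕜 := ℂ), hi, ← norm_eq_sqrt_re_inner]
  have hW : ∀ g, ∀ x ∈ Vᗮ, T g x ∈ Vᗮ := fun g x hx => by
    rw [Submodule.mem_orthogonal] at hx ⊢
    intro y hy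
    rw [← (hV y).1 hy g, hi]
    exact hx y hy
  obtain ⟨a, ha, b, hb, hab⟩ := Submodule.exists_add_mem_mem_orthogonal (K := V) ξ
  have hTb : ∀ g, T g ξ - ξ = T g b - b := fun g => by
    rw [hab, map_add, (hV a).1 ha g]; abel
  have hbc : ‖b‖ ≤ c := by
    by_contra hlt
    push Not at hlt
    have hb0 : 0 < ‖b‖ := hc.trans hlt
    let T' : Γ → Vᗮ →L[ℂ] Vᗮ := fun g =>
      ((T g).comp Vᗮ.subtypeL).codRestrict Vᗮ fun x => hW g x x.2
    have hT' : ∀ g x, ((T' g x : Vᗮ) : E) = T g x := fun g x => rfl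
    obtain ⟨η, hη0, hη⟩ := h Vᗮ T' (fun x => Subtype.ext (by rw [hT', h1]))
      (fun g h x => Subtype.ext (by rw [hT', hT', hT', hm]))
      (fun g x y => by rw [Submodule.coe_inner, Submodule.coe_inner, hT', hT', hi])
      (((‖b‖⁻¹ : ℝ) : ℂ) • (⟨b, hb⟩ : Vᗮ))
      (by
        rw [norm_smul]
        simp [hb0.ne'])
      (fun s hs' => by
        rw [map_smul, ← smul_sub, norm_smul]
        have h2 : ‖T' s ⟨b, hb⟩ - ⟨b, hb⟩‖ = ‖T s b - b‖ := rfl
        rw [h2, ← hTb]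
        have h3 := hs s hs'
        simp only [Complex.ofReal_inv, norm_inv, Complex.norm_real, norm_norm]
        rw [inv_mul_lt_iff₀ hb0]
        nlinarith)
    apply hη0
    have hηV : (η : E) ∈ V := (hV _).2 fun g => by rw [← hT', hη g]
    have := (Submodule.mem_orthogonal V η).1 η.2 η hηV
    exact Subtype.ext (inner_self_eq_zero.1 this)
  rw [hTb]
  calc ‖T g b - b‖ ≤ ‖T g b‖ + ‖b‖ := norm_sub_le _ _
    _ ≤ 2 * c := by rw [hn]; linarith

theorem KPair.pd_lower {S : Finset Γ} {κ : ℝ} (hκ : 0 < κ) (h : KPair S κ) (φ : Γ → ℂ)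
    (hφ : (Matrix.of fun p q => φ (p⁻¹ * q)).PosSemidef) (h1 : φ 1 = 1)
    (hs : ∀ s ∈ S, 1 - κ ^ 2 / 32 < (φ s).re) (g : Γ) : 1 / 2 ≤ (φ g).re := by
  obtain ⟨E, _, _, _, v, hv, hd⟩ := exists_kolm _ hφ
  have hT : ∀ g : Γ, ∃ T : E →L[ℂ] E, ‖T‖ ≤ 1 ∧ ∀ p, T (v p) = v (g * p) := fun g =>
    exists_clm_of_bound v hd (fun p => v (g * p)) zero_le_one fun f => by
      rw [one_mul]
      refine (norm_lc_eq_of_gram v _ (fun x y => ?_) f).le
      rw [hv, hv]; congr 1; group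
  choose T _ hT using hT
  have hT1 : T 1 = 1 := clm_ext_of_dense v hd fun p => by simp [hT]
  have hTm : ∀ g h, T (g * h) = T g * T h := fun g h =>
    clm_ext_of_dense v hd fun p => by simp [hT, mul_assoc]
  have hadj : ∀ g, T g⁻¹ = (T g).adjoint := fun g =>
    adj_of_dense v hd v hd fun x y => by
      rw [hT, hT, hv, hv]; congr 1; group
  have hi : ∀ g x y, ⟪T g x, T g y⟫_ℂ = ⟪x, y⟫_ℂ := fun g x y => by
    rw [← ContinuousLinearMap.adjoint_inner_right, ← hadj]
    have : T g⁻¹ (T g y) = y := by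
      rw [← ContinuousLinearMap.mul_apply, ← hTm, inv_mul_cancel, hT1]; rfl
    rw [this]
  have hn : ∀ p, ‖v p‖ ^ 2 = 1 := fun p => by
    have := hv p p
    rw [inv_mul_cancel, h1, inner_self_eq_norm_sq_to_K] at this
    have h5 := congrArg Complex.re this
    simpa [← Complex.ofReal_pow] using h5
  have hd2 : ∀ g, ‖T g (v 1) - v 1‖ ^ 2 = 2 - 2 * (φ g).re := fun g => by
    rw [hT, mul_one, norm_sub_rev, @norm_sub_sq ℂ, hn, hn, hv]
    simp
    ring
  have := h.dist_le hκ T (fun x => by rw [hT1]; rfl) (fun g h x => by rw [hTm]; rfl) hi (v 1)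
    (c := 1 / 4) (by norm_num) (fun s hs' => by
      have h2 := hd2 s
      have h3 := hs s hs'
      refine lt_of_pow_lt_pow_left₀ 2 (by positivity) ?_
      rw [h2]; nlinarith) g
  have h2 := hd2 g
  have h3 : ‖T g (v 1) - v 1‖ ^ 2 ≤ 1 := by
    have := norm_nonneg (T g (v 1) - v 1)
    nlinarith
  linarith

theorem KPair.gen {S : Finset Γ} {κ : ℝ} (hκ : 0 < κ) (h : KPair S κ) {ι : Type*} (s : ι → Γ)
    (σ : ι → ι) (hσ : ∀ i, s (σ i) = (s i)⁻¹) (hS : ∀ a ∈ S, ∃ i, s i = a) (g : Γ) :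
    ∃ n, IsW s n g := by
  classical
  let Λ : Subgroup Γ :=
    { carrier := {g | ∃ n, IsW s n g}
      one_mem' := ⟨0, IsW.one 0⟩
      mul_mem' := fun ⟨n, hn⟩ ⟨m, hm⟩ => ⟨n + m, hn.mul hm⟩
      inv_mem' := fun ⟨n, hn⟩ => ⟨n, hn.inv σ hσ⟩ }
  have hpsd : (Matrix.of fun p q : Γ => if p⁻¹ * q ∈ Λ then (1 : ℂ) else 0).PosSemidef := by
    have := (Matrix.PosSemidef.one (n := Γ ⧸ Λ) (R := ℂ)).submatrix
      (fun p : Γ => (QuotientGroup.mk p : Γ ⧸ Λ))
    convert this using 1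
    ext p q
    simp [Matrix.one_apply, QuotientGroup.eq]
  have := h.pd_lower hκ (fun g => if g ∈ Λ then (1 : ℂ) else 0) hpsd (by simp [Λ.one_mem])
    (fun a ha => by
      obtain ⟨i, rfl⟩ := hS a ha
      have : s i ∈ Λ := ⟨1, IsW.gen i⟩
      simp only [this, if_true, Complex.one_re]
      have : 0 < κ ^ 2 / 32 := by positivity
      linarith) g
  by_contra hg
  have hg' : g ∉ Λ := hg
  simp only [hg', if_false, Complex.zero_re] at this
  linarith

theorem posSemidef_gauss {X E : Type*} [NormedAddCommGroup E] [InnerProductSpace ℂ E]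
    (β : X → E) {t : ℝ} (ht : 0 ≤ t) :
    (Matrix.of fun p q => ((Real.exp (-t * ‖β p - β q‖ ^ 2) : ℝ) : ℂ)).PosSemidef := by
  have hG := psd_gram β
  let A : Matrix X X ℂ := Matrix.of fun p q => (((2 * t * (⟪β p, β q⟫_ℂ).re : ℝ)) : ℂ)
  have hA : A.PosSemidef := by
    refine psd_congr ((hG.add hG.transpose).smul (a := (t : ℂ)) (by exact_mod_cast ht))
      fun p q => ?_
    simp only [A, Matrix.of_apply, Matrix.smul_apply, Matrix.add_apply,
      Matrix.transpose_apply, smul_eq_mul]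
    rw [← inner_conj_symm (β q) (β p), Complex.add_conj]
    push_cast; ring
  have hpow : ∀ n : ℕ, (Matrix.of fun p q => A p q ^ n).PosSemidef := by
    intro n
    induction n with
    | zero => exact psd_congr (psd_gram (fun _ : X => (1 : ℂ))) fun p q => by simp
    | succ n ih => exact psd_congr (psd_hadamard ih hA) fun p q => by simp [pow_succ]
  have hexp : (Matrix.of fun p q => Complex.exp (A p q)).PosSemidef := by
    refine posSemidef_of_tendsto (l := atTop)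
      (fun (N : ℕ) p q => ∑ n ∈ Finset.range N, A p q ^ n / n.factorial) _
      (Eventually.of_forall fun N => ?_) fun p q => ?_
    · refine psd_congr (Matrix.posSemidef_sum (Finset.range N)
        (x := fun n => ((((n.factorial : ℝ)⁻¹ : ℝ) : ℂ)) • (Matrix.of fun p q => A p q ^ n))
        fun n _ => (hpow n).smul (Complex.zero_le_real.2 (by positivity))) fun p q => ?_
      simp [Matrix.sum_apply, div_eq_inv_mul]
    · rw [Complex.exp_eq_exp_ℂ]
      exact (NormedSpace.expSeries_div_hasSum_exp (A p q)).tendsto_sum_nat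
  refine psd_congr (psd_hadamard hexp (psd_gram
    (fun p : X => ((Real.exp (-t * ‖β p‖ ^ 2) : ℝ) : ℂ)))) fun p q => ?_
  simp only [A, Matrix.of_apply, RCLike.inner_apply, Complex.conj_ofReal]
  rw [← Complex.ofReal_exp, ← Complex.ofReal_mul, ← Complex.ofReal_mul, ← Real.exp_add,
    ← Real.exp_add, @norm_sub_sq ℂ]
  congr 2
  simp only [RCLike.re_to_complex]
  ring

theorem KPair.bounded {S : Finset Γ} {κ : ℝ} (hκ : 0 < κ) (h : KPair S κ) {E : Type*}
    [NormedAddCommGroup E] [InnerProductSpace ℂ E] (β : Γ → E) (h1 : β 1 = 0)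
    (hinv : ∀ p q, ‖β (p * q) - β p‖ = ‖β q‖) : ∃ C, ∀ g, ‖β g‖ ^ 2 ≤ C := by
  obtain ⟨B, hB0, hB⟩ : ∃ B : ℝ, 0 < B ∧ ∀ s ∈ S, ‖β s‖ ^ 2 ≤ B :=
    ⟨1 + ∑ s ∈ S, ‖β s‖ ^ 2, by positivity, fun s hs => by
      have := Finset.single_le_sum (f := fun s => ‖β s‖ ^ 2) (fun _ _ => by positivity) hs
      linarith⟩
  set t : ℝ := κ ^ 2 / 64 / B with ht
  have ht0 : 0 < t := by positivity
  have hpsd := posSemidef_gauss β ht0.le
  have hlow := h.pd_lower hκ (fun g => ((Real.exp (-t * ‖β g‖ ^ 2) : ℝ) : ℂ))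
    (by
      convert hpsd using 5 with p q
      rw [← hinv p (p⁻¹ * q), mul_inv_cancel_left, norm_sub_rev])
    (by simp [h1])
    (fun s hs => by
      rw [Complex.ofReal_re]
      have h2 := Real.add_one_le_exp (-t * ‖β s‖ ^ 2)
      have h3 : t * ‖β s‖ ^ 2 ≤ κ ^ 2 / 64 := by
        calc t * ‖β s‖ ^ 2 ≤ t * B := by gcongr; exact hB s hs
          _ = κ ^ 2 / 64 := by rw [ht]; field_simp
      have : 0 < κ ^ 2 := by positivity
      linarith)
  refine ⟨1 / t, fun g => ?_⟩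
  have h2 := hlow g
  rw [Complex.ofReal_re] at h2
  rw [le_div_iff₀ ht0]
  by_contra hlt
  push Not at hlt
  have h3 : Real.exp (-t * ‖β g‖ ^ 2) < Real.exp (-1) := Real.exp_lt_exp.2 (by linarith)
  have h4 : Real.exp (-1) < 1 / 2 := by
    have := Real.exp_neg_one_lt_d9
    linarith
  linarith

end Pool.Agent.MP_890ef7_an

end

section

/-! A robust first-cohomology gap for Kazhdan groups. -/

open scoped InnerProductSpace ComplexOrder ComplexConjugate
open Filter Topology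

namespace Pool.Agent.MP_890ef7_an

universe u w

theorem exists_ulim {ι V : Type*} [NormedAddCommGroup V] [ProperSpace V] (U : Ultrafilter ι)
    (a : ι → V) {C : ℝ} (h : ∀ᶠ i in (U : Filter ι), ‖a i‖ ≤ C) :
    ∃ x, Tendsto a U (𝓝 x) := by
  obtain ⟨x, -, hx⟩ := (isCompact_closedBall (0 : V) C).ultrafilter_le_nhds (U.map a)
    (by
      rw [Ultrafilter.coe_map, le_principal_iff, mem_map]
      filter_upwards [h] with i hi
      simpa using hi)
  exact ⟨x, hx⟩

section defs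
variable {G : Type*} [Monoid G] {ι : Type*} [Fintype ι]

/-- lazy averaging step. -/
noncomputable def step (s : ι → G) {V : Type*} [AddCommGroup V] [Module ℂ V] (Φ : G → V) :
    G → V := fun g => (2⁻¹ : ℂ) • Φ g + (2 * (Fintype.card ι : ℂ))⁻¹ • ∑ i, Φ (g * s i)

/-- energy at the identity. -/
noncomputable def en (s : ι → G) {V : Type*} [NormedAddCommGroup V] (Φ : G → V) : ℝ :=
  (Fintype.card ι : ℝ)⁻¹ * ∑ i, ‖Φ (s i) - Φ 1‖ ^ 2

theorem en_nonneg (s : ι → G) {V : Type*} [NormedAddCommGroup V] (Φ : G → V) : 0 ≤ en s Φ := by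
  unfold en; positivity

theorem step_map (s : ι → G) {V W : Type*} [AddCommGroup V] [Module ℂ V] [AddCommGroup W]
    [Module ℂ W] (T : V →ₗ[ℂ] W) (Φ : G → V) (g : G) :
    step s (fun p => T (Φ p)) g = T (step s Φ g) := by
  simp [step]

theorem step_sub [Nonempty ι] (s : ι → G) {V : Type*} [AddCommGroup V] [Module ℂ V] (Φ : G → V)
    (g : G) : step s Φ g - Φ g = (2 * (Fintype.card ι : ℂ))⁻¹ • ∑ i, (Φ (g * s i) - Φ g) := by
  have hN : (Fintype.card ι : ℂ) ≠ 0 := by exact_mod_cast Fintype.card_ne_zero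
  rw [Finset.sum_sub_distrib, Finset.sum_const, Finset.card_univ, smul_sub,
    ← Nat.cast_smul_eq_nsmul ℂ, smul_smul, step]
  have : (2 * (Fintype.card ι : ℂ))⁻¹ * (Fintype.card ι : ℂ) = 2⁻¹ := by field_simp
  rw [this]
  module

end defs

variable {Γ : Type u} [Group Γ] {ι : Type*} [Fintype ι] [Nonempty ι]

theorem re_inner_sub_sub {E : Type*} [NormedAddCommGroup E] [InnerProductSpace ℂ E]
    (a b c d : E) : (⟪a - b, c - d⟫_ℂ).re =
      (‖a - d‖ ^ 2 + ‖b - c‖ ^ 2 - ‖a - c‖ ^ 2 - ‖b - d‖ ^ 2) / 2 := by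
  simp only [@norm_sub_sq ℂ, inner_sub_left, inner_sub_right, Complex.sub_re, RCLike.re_to_complex]
  ring

theorem exact_gap {S : Finset Γ} {κ : ℝ} (hκ : 0 < κ) (h : KPair S κ) (s : ι → Γ) (σ : ι ≃ ι)
    (hσ : ∀ i, s (σ i) = (s i)⁻¹) {E : Type*} [NormedAddCommGroup E] [InnerProductSpace ℂ E]
    (β : Γ → E) (h1 : β 1 = 0) (hinv : ∀ p q, ‖β (p * q) - β p‖ = ‖β q‖)
    (hle : en s β ≤ en s (step s β)) : en s (step s β) ≤ 0 := by
  have hN : (0 : ℝ) < Fintype.card ι := by exact_mod_cast Fintype.card_pos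
  set N : ℝ := (Fintype.card ι : ℝ) with hNdef
  have hd : ∀ g p q, ‖β (g * p) - β (g * q)‖ = ‖β p - β q‖ := fun g p q => by
    have e1 := hinv (g * q) (q⁻¹ * p)
    have e2 := hinv q (q⁻¹ * p)
    rw [show g * q * (q⁻¹ * p) = g * p by group] at e1
    rw [show q * (q⁻¹ * p) = p by group] at e2
    rw [e1, e2]
  have hre : ∀ g p q r t, (⟪β (g * p) - β (g * q), β (g * r) - β (g * t)⟫_ℂ).re =
      (⟪β p - β q, β r - β t⟫_ℂ).re := fun g p q r t => by
    simp only [re_inner_sub_sub, hd]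
  let c : ℝ := (2 * N)⁻¹
  have hc : (2 * (Fintype.card ι : ℂ))⁻¹ = (c : ℂ) := by simp [c, N]
  let m : Γ → E := fun g => (c : ℂ) • ∑ i, (β (g * s i) - β g)
  have hm : ∀ g, step s β g = β g + m g := fun g => by
    have := step_sub s β g
    rw [hc] at this
    simp only [m, ← this]; abel
  have hrem : ∀ (x : E) g, (⟪x, m g⟫_ℂ).re = c * ∑ i, (⟪x, β (g * s i) - β g⟫_ℂ).re :=
    fun x g => by
      simp only [m, inner_smul_right, inner_sum, Complex.re_ofReal_mul, Complex.re_sum]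
  have hsym : ∀ x y : E, (⟪x, y⟫_ℂ).re = (⟪y, x⟫_ℂ).re := fun x y => by
    rw [← inner_conj_symm, Complex.conj_re]
  have hshift : ∀ g p q, (⟪β (g * p) - β (g * q), m g⟫_ℂ).re = (⟪β p - β q, m 1⟫_ℂ).re :=
    fun g p q => by
      rw [hrem, hrem]
      congr 1
      refine Finset.sum_congr rfl fun i _ => ?_
      have := hre g p q (s i) 1
      simpa using this
  have hsq : ∀ x : E, ‖x‖ ^ 2 = (⟪x, x⟫_ℂ).re := fun x => by
    rw [← inner_self_eq_norm_sq (𝕜 := ℂ)]; rfl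
  have hmn : ∀ g, ‖m g‖ ^ 2 = ‖m 1‖ ^ 2 := fun g => by
    rw [hsq, hsq, hrem, hrem]
    congr 1
    refine Finset.sum_congr rfl fun i _ => ?_
    rw [hsym, hsym (m 1)]
    have := hshift g (s i) 1
    simpa using this
  have hsum : ∑ i, (⟪β (s i), m 1⟫_ℂ).re = 2 * N * ‖m 1‖ ^ 2 := by
    rw [hsq, hrem (m 1)]
    simp only [one_mul, h1, sub_zero]
    rw [← mul_assoc, show 2 * N * c = 1 by simp only [c]; field_simp, one_mul]
    exact Finset.sum_congr rfl fun i _ => hsym _ _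
  have hsum' : ∑ i, (⟪β (s i), m (s i)⟫_ℂ).re = -(2 * N * ‖m 1‖ ^ 2) := by
    rw [← hsum, ← Equiv.sum_comp σ (fun i => (⟪β (s i), m 1⟫_ℂ).re), ← Finset.sum_neg_distrib]
    refine Finset.sum_congr rfl fun i _ => ?_
    have := hshift (s i) 1 (s i)⁻¹
    simpa [h1, hσ] using this
  have hkey : en s (step s β) ≤ en s β - 4 * ‖m 1‖ ^ 2 := by
    have hi : ∀ i, ‖step s β (s i) - step s β 1‖ ^ 2 ≤ ‖β (s i) - β 1‖ ^ 2 +
        2 * (⟪β (s i), m (s i)⟫_ℂ).re - 2 * (⟪β (s i), m 1⟫_ℂ).re + 4 * ‖m 1‖ ^ 2 := fun i => by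
      rw [hm, hm, h1, show β (s i) + m (s i) - (0 + m 1) = β (s i) + (m (s i) - m 1) by abel,
        @norm_add_sq ℂ, sub_zero, inner_sub_right]
      have h2 : ‖m (s i) - m 1‖ ≤ ‖m (s i)‖ + ‖m 1‖ := norm_sub_le _ _
      have h3 : ‖m (s i)‖ = ‖m 1‖ := by
        have := hmn (s i)
        exact (pow_left_inj₀ (norm_nonneg _) (norm_nonneg _) two_ne_zero).1 this
      have h4 : ‖m (s i) - m 1‖ ^ 2 ≤ (2 * ‖m 1‖) ^ 2 := by
        gcongr; linarith
      simp only [map_sub, RCLike.re_to_complex]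
      nlinarith
    have hs := Finset.sum_le_sum fun i (_ : i ∈ Finset.univ) => hi i
    simp only [Finset.sum_add_distrib, Finset.sum_sub_distrib, ← Finset.mul_sum, hsum, hsum',
      Finset.sum_const, Finset.card_univ, nsmul_eq_mul] at hs
    unfold en
    rw [← hNdef] at hs ⊢
    calc N⁻¹ * ∑ i, ‖step s β (s i) - step s β 1‖ ^ 2
        ≤ N⁻¹ * (∑ i, ‖β (s i) - β 1‖ ^ 2 + 2 * -(2 * N * ‖m 1‖ ^ 2) - 2 * (2 * N * ‖m 1‖ ^ 2) +
          4 * (N * ‖m 1‖ ^ 2)) := by gcongr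
      _ = _ := by field_simp; ring
  have hm0 : m 1 = 0 := by
    have : ‖m 1‖ ^ 2 ≤ 0 := by linarith
    exact norm_eq_zero.1 (pow_eq_zero_iff two_ne_zero |>.1 (le_antisymm this (by positivity)))
  have hharm : ∀ g, ∑ i, ‖β (g * s i)‖ ^ 2 = N * ‖β g‖ ^ 2 + ∑ i, ‖β (s i)‖ ^ 2 := fun g => by
    have e : ∀ i, ‖β (g * s i)‖ ^ 2 =
        ‖β g‖ ^ 2 + ‖β (s i)‖ ^ 2 - 2 * (⟪β g⁻¹, β (s i)⟫_ℂ).re := fun i => by
      have e1 := hd g⁻¹ (g * s i) 1
      have e2 := hd g 1 g⁻¹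
      simp only [inv_mul_cancel_left, mul_one, h1, sub_zero, mul_inv_cancel, zero_sub,
        norm_neg] at e1 e2
      rw [← e1, e2, norm_sub_rev, @norm_sub_sq ℂ]
      simp only [RCLike.re_to_complex]
      ring
    have e3 := hrem (β g⁻¹) 1
    simp only [hm0, inner_zero_right, Complex.zero_re, one_mul, h1, sub_zero] at e3
    have hc0 : c ≠ 0 := by simp only [c]; positivity
    have e4 : ∑ i, (⟪β g⁻¹, β (s i)⟫_ℂ).re = 0 := by
      rcases mul_eq_zero.1 e3.symm with h | h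
      · exact absurd h hc0
      · exact h
    simp only [e, Finset.sum_sub_distrib, Finset.sum_add_distrib, ← Finset.mul_sum, e4,
      Finset.sum_const, Finset.card_univ, nsmul_eq_mul]
    ring
  obtain ⟨C, hC⟩ := h.bounded hκ β h1 hinv
  have hbdd : BddAbove (Set.range fun g => ‖β g‖ ^ 2) := ⟨C, by rintro _ ⟨g, rfl⟩; exact hC g⟩
  set Z := ⨆ g, ‖β g‖ ^ 2 with hZ
  have hZle : Z ≤ Z - N⁻¹ * ∑ i, ‖β (s i)‖ ^ 2 := by
    refine ciSup_le fun g => ?_
    have e1 : ∑ i, ‖β (g * s i)‖ ^ 2 ≤ N * Z := by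
      calc ∑ i, ‖β (g * s i)‖ ^ 2 ≤ ∑ _i : ι, Z :=
            Finset.sum_le_sum fun i _ => le_ciSup hbdd (g * s i)
        _ = N * Z := by simp [N]
    rw [hharm] at e1
    have e2 : N⁻¹ * (N * ‖β g‖ ^ 2 + ∑ i, ‖β (s i)‖ ^ 2) ≤ N⁻¹ * (N * Z) := by gcongr
    rw [mul_add, ← mul_assoc, ← mul_assoc, inv_mul_cancel₀ hN.ne', one_mul, one_mul] at e2
    linarith
  have : en s β ≤ 0 := by
    unfold en
    simp only [h1, sub_zero]
    linarith
  have := sq_nonneg ‖m 1‖
  linarith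

theorem robust_gap {S : Finset Γ} {κ : ℝ} (hκ : 0 < κ) (h : KPair S κ) (s : ι → Γ) (σ : ι ≃ ι)
    (hσ : ∀ i, s (σ i) = (s i)⁻¹) (hgen : ∀ g, ∃ n, IsW s n g) :
    ∃ (n : ℕ) (θ ρ C : ℝ), 0 < θ ∧ 0 ≤ ρ ∧ ρ < 1 ∧ 0 ≤ C ∧
      ∀ (E : Type w) [NormedAddCommGroup E] [InnerProductSpace ℂ E] (Φ : Γ → E) (ε : ℝ), 0 ≤ ε →
        (∀ p q, IsW s n p → IsW s n q →
          |‖Φ (p * q) - Φ p‖ - ‖Φ q - Φ 1‖| ≤ ε + θ * ‖Φ q - Φ 1‖) →
        en s (step s Φ) ≤ ρ * en s Φ + C * ε ^ 2 := by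
  by_contra hcon
  have hcon' : ∀ n : ℕ, ∃ (E : Type w) (_ : NormedAddCommGroup E) (_ : InnerProductSpace ℂ E)
      (Φ : Γ → E) (ε : ℝ), 0 ≤ ε ∧
      (∀ p q, IsW s n p → IsW s n q →
          |‖Φ (p * q) - Φ p‖ - ‖Φ q - Φ 1‖| ≤ ε + (1 / ((n : ℝ) + 1)) * ‖Φ q - Φ 1‖) ∧
      (1 - 1 / ((n : ℝ) + 2)) * en s Φ + ((n : ℝ) + 1) ^ 2 * ε ^ 2 < en s (step s Φ) := by
    intro n
    by_contra hn
    apply hcon
    refine ⟨n, 1 / ((n : ℝ) + 1), 1 - 1 / ((n : ℝ) + 2), ((n : ℝ) + 1) ^ 2, by positivity, ?_, ?_,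
      by positivity, fun E _ _ Φ ε hε hΦ => ?_⟩
    · rw [sub_nonneg, div_le_one (by positivity)]
      have : (0 : ℝ) ≤ n := n.cast_nonneg
      linarith
    · have : 0 < 1 / ((n : ℝ) + 2) := by positivity
      linarith
    · by_contra hlt
      exact hn ⟨E, _, _, Φ, ε, hε, hΦ, not_le.1 hlt⟩
  have hN : (0 : ℝ) < Fintype.card ι := by exact_mod_cast Fintype.card_pos
  -- normalise
  have hcon2 : ∀ n : ℕ, ∃ (E : Type w) (_ : NormedAddCommGroup E) (_ : InnerProductSpace ℂ E)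
      (β : Γ → E), β 1 = 0 ∧
      (∀ p q, IsW s n p → IsW s n q →
          |‖β (p * q) - β p‖ - ‖β q‖| ≤ (1 / ((n : ℝ) + 1)) * (1 + ‖β q‖)) ∧
      (1 - 1 / ((n : ℝ) + 2)) * en s β ≤ 1 ∧ en s (step s β) = 1 := by
    intro n
    obtain ⟨E, _, _, Φ, ε, hε, hΦ, hlt⟩ := hcon' n
    have hρ : 0 ≤ 1 - 1 / ((n : ℝ) + 2) := by
      rw [sub_nonneg, div_le_one (by positivity)]
      have : (0 : ℝ) ≤ n := n.cast_nonneg
      linarith
    have he := en_nonneg s Φ
    set Q := en s (step s Φ) with hQ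
    have hQ0 : 0 < Q := lt_of_le_of_lt (by positivity) hlt
    set r : ℝ := (√Q)⁻¹ with hr
    have hr0 : 0 < r := by positivity
    have hr2 : r ^ 2 * Q = 1 := by
      rw [hr, inv_pow, Real.sq_sqrt hQ0.le, inv_mul_cancel₀ hQ0.ne']
    have hsc : ∀ x : E, ‖(r : ℂ) • x‖ = r * ‖x‖ := fun x => by
      rw [norm_smul, Complex.norm_real, Real.norm_of_nonneg hr0.le]
    have hdiff : ∀ p q, (r : ℂ) • (Φ p - Φ 1) - (r : ℂ) • (Φ q - Φ 1) = (r : ℂ) • (Φ p - Φ q) :=
      fun p q => by rw [← smul_sub]; congr 1; abel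
    refine ⟨E, inferInstance, inferInstance, fun p => (r : ℂ) • (Φ p - Φ 1), by simp, fun p q hp hq => ?_, ?_, ?_⟩
    · rw [hdiff, hsc, hsc, ← mul_sub, abs_mul, abs_of_pos hr0]
      have h2 : r * ε ≤ 1 / ((n : ℝ) + 1) := by
        rw [le_div_iff₀ (by positivity)]
        refine le_of_sq_le_sq ?_ zero_le_one |>.trans_eq rfl
        calc (r * ε * ((n : ℝ) + 1)) ^ 2 = r ^ 2 * (((n : ℝ) + 1) ^ 2 * ε ^ 2) := by ring
          _ ≤ r ^ 2 * Q := by
            gcongr
            have := mul_nonneg hρ he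
            linarith
          _ = 1 ^ 2 := by rw [hr2]; ring
      calc r * |‖Φ (p * q) - Φ p‖ - ‖Φ q - Φ 1‖|
          ≤ r * (ε + (1 / ((n : ℝ) + 1)) * ‖Φ q - Φ 1‖) := by gcongr; exact hΦ p q hp hq
        _ ≤ _ := by rw [mul_add, mul_add, mul_one]; nlinarith
    · have : en s (fun p => (r : ℂ) • (Φ p - Φ 1)) = r ^ 2 * en s Φ := by
        simp only [en, hdiff, hsc, mul_pow, ← Finset.mul_sum]; ring
      rw [this]
      have h3 : (1 - 1 / ((n : ℝ) + 2)) * en s Φ ≤ Q := by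
        have : 0 ≤ ((n : ℝ) + 1) ^ 2 * ε ^ 2 := by positivity
        linarith
      calc _ = r ^ 2 * ((1 - 1 / ((n : ℝ) + 2)) * en s Φ) := by ring
        _ ≤ r ^ 2 * Q := by gcongr
        _ = 1 := hr2
    · have hst : ∀ g, step s (fun p => (r : ℂ) • (Φ p - Φ 1)) g = (r : ℂ) • (step s Φ g - Φ 1) :=
        fun g => by
          have e1 := step_sub s (fun p => (r : ℂ) • (Φ p - Φ 1)) g
          have e2 := step_sub s Φ g
          simp only [hdiff, ← Finset.smul_sum] at e1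
          rw [smul_comm, ← e2, sub_eq_iff_eq_add, ← smul_add] at e1
          rw [e1]; congr 1; abel
      have : ∀ p, (r : ℂ) • (step s Φ p - Φ 1) - (r : ℂ) • (step s Φ 1 - Φ 1) =
          (r : ℂ) • (step s Φ p - step s Φ 1) := fun p => by rw [← smul_sub]; congr 1; abel
      simp only [en, hst, this, hsc, mul_pow, ← Finset.mul_sum]
      rw [← hr2, hQ, en]; ring
  choose E i1 i2 β hβ1 hβ hen hst using hcon2
  have hone : ∀ n : ℕ, 1 / ((n : ℝ) + 1) ≤ 1 := fun n => by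
    rw [div_le_one (by positivity)]
    have : (0 : ℝ) ≤ n := n.cast_nonneg
    linarith
  have hen2 : ∀ n, en s (β n) ≤ 2 := fun n => by
    have h2 : 1 / ((n : ℝ) + 2) ≤ 1 / 2 := by
      gcongr
      have : (0 : ℝ) ≤ n := n.cast_nonneg
      linarith
    have := hen n
    have h3 := en_nonneg s (β n)
    nlinarith
  have hgenb : ∀ n i, ‖β n (s i)‖ ≤ 1 + 2 * Fintype.card ι := fun n i => by
    have h2 : ‖β n (s i) - β n 1‖ ^ 2 ≤ ∑ j, ‖β n (s j) - β n 1‖ ^ 2 :=
      Finset.single_le_sum (f := fun j => ‖β n (s j) - β n 1‖ ^ 2) (fun _ _ => by positivity)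
        (Finset.mem_univ i)
    have h3 := hen2 n
    rw [en, inv_mul_le_iff₀ hN] at h3
    have h4 := h2.trans h3
    rw [hβ1, sub_zero] at h4
    nlinarith [norm_nonneg (β n (s i)), sq_nonneg (‖β n (s i)‖ - 1)]
  have hbd : ∀ k : ℕ, ∃ B : ℝ, ∀ n, k + 1 ≤ n → ∀ p, IsW s k p → ‖β n p‖ ≤ B := by
    intro k
    induction k with
    | zero => exact ⟨0, fun n _ p hp => by obtain rfl : p = 1 := hp; simp [hβ1]⟩
    | succ k ih =>
      obtain ⟨B, hB⟩ := ih
      refine ⟨B + 3 + 4 * Fintype.card ι, fun n hn p hp => ?_⟩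
      rcases hp with hp | ⟨p', i, hp', rfl⟩
      · have := hB n (by omega) p hp
        linarith
      · have h2 := hB n (by omega) p' hp'
        have h3 := hβ n p' (s i) (hp'.mono (by omega)) ((IsW.gen i).mono (by omega))
        have h4 := hgenb n i
        have h5 : 1 / ((n : ℝ) + 1) * (1 + ‖β n (s i)‖) ≤ 1 * (1 + ‖β n (s i)‖) := by
          gcongr; exact hone n
        have h6 := (abs_le.1 h3).2
        have h7 : ‖β n (p' * s i)‖ ≤ ‖β n (p' * s i) - β n p'‖ + ‖β n p'‖ := norm_le_norm_sub_add _ _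
        linarith
  let U := hyperfilter ℕ
  have hU : (U : Filter ℕ) ≤ atTop := Nat.hyperfilter_le_atTop
  have hbd' : ∀ p, ∃ B : ℝ, ∀ᶠ n in (U : Filter ℕ), ‖β n p‖ ≤ B := fun p => by
    obtain ⟨k, hk⟩ := hgen p
    obtain ⟨B, hB⟩ := hbd k
    exact ⟨B, hU ((eventually_ge_atTop (k + 1)).mono fun n hn => hB n hn p hk)⟩
  have hlim : ∀ p q, ∃ z, Tendsto (fun n => ⟪β n p, β n q⟫_ℂ) U (𝓝 z) := fun p q => by
    obtain ⟨B, hB⟩ := hbd' p
    obtain ⟨B', hB'⟩ := hbd' q
    refine exists_ulim U _ (C := B * B') ?_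
    filter_upwards [hB, hB'] with n h1 h2
    exact (norm_inner_le_norm _ _).trans (mul_le_mul h1 h2 (norm_nonneg _) ((norm_nonneg _).trans h1))
  choose k hk using hlim
  obtain ⟨F, _, _, _, v, hv, -⟩ := exists_kolm k
    (posSemidef_of_tendsto (l := U) _ k (Eventually.of_forall fun n => psd_gram (β n)) hk)
  have hlc : ∀ f : Γ →₀ ℂ, Tendsto (fun n => ‖Finsupp.linearCombination ℂ (β n) f‖) U
      (𝓝 ‖Finsupp.linearCombination ℂ v f‖) := fun f => by
    simp only [norm_eq_sqrt_re_inner (𝕜 := ℂ), inner_lc, hv]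
    refine (Real.continuous_sqrt.tendsto _).comp ((RCLike.continuous_re.tendsto _).comp ?_)
    simp only [Finsupp.sum]
    refine tendsto_finsetSum _ fun x _ => tendsto_finsetSum _ fun y _ => ?_
    exact ((hk x y).const_mul _).mul_const _
  have hl1 : ∀ p, Tendsto (fun n => ‖β n p‖) U (𝓝 ‖v p‖) := fun p => by
    simpa using hlc (Finsupp.single p 1)
  have hl2 : ∀ p q, Tendsto (fun n => ‖β n p - β n q‖) U (𝓝 ‖v p - v q‖) := fun p q => by
    simpa only [map_sub, Finsupp.linearCombination_single, one_smul] using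
      hlc (Finsupp.single p (1 : ℂ) - Finsupp.single q (1 : ℂ))
  have hl3 : ∀ p q, Tendsto (fun n => ‖step s (β n) p - step s (β n) q‖) U
      (𝓝 ‖step s v p - step s v q‖) := fun p q => by
    have := hlc (step s (fun g => Finsupp.single g (1 : ℂ)) p -
      step s (fun g => Finsupp.single g (1 : ℂ)) q)
    simpa only [map_sub, ← step_map, Finsupp.linearCombination_single, one_smul] using this
  have hz : Tendsto (fun n : ℕ => 1 / ((n : ℝ) + 1)) U (𝓝 0) :=
    tendsto_one_div_add_atTop_nhds_zero_nat.mono_left hU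
  have hv1 : v 1 = 0 := by
    have := hl1 1
    simp only [hβ1, norm_zero] at this
    exact norm_eq_zero.1 (tendsto_nhds_unique this tendsto_const_nhds)
  have hvinv : ∀ p q, ‖v (p * q) - v p‖ = ‖v q‖ := fun p q => by
    obtain ⟨a, ha⟩ := hgen p
    obtain ⟨b, hb⟩ := hgen q
    have h1 : Tendsto (fun n => |‖β n (p * q) - β n p‖ - ‖β n q‖|) U
        (𝓝 |‖v (p * q) - v p‖ - ‖v q‖|) := ((hl2 _ _).sub (hl1 q)).abs
    have h2 : Tendsto (fun n : ℕ => 1 / ((n : ℝ) + 1) * (1 + ‖β n q‖)) U (𝓝 (0 * (1 + ‖v q‖))) :=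
      hz.mul ((hl1 q).const_add 1)
    have h3 := le_of_tendsto_of_tendsto h1 h2
      (hU ((eventually_ge_atTop (a + b)).mono fun n hn =>
        hβ n p q (ha.mono (by omega)) (hb.mono (by omega))))
    rw [zero_mul] at h3
    exact sub_eq_zero.1 (abs_nonpos_iff.1 h3)
  have he1 : Tendsto (fun n => en s (β n)) U (𝓝 (en s v)) := by
    unfold en
    exact (tendsto_finsetSum _ fun i _ => (hl2 _ _).pow 2).const_mul _
  have he2 : Tendsto (fun n => en s (step s (β n))) U (𝓝 (en s (step s v))) := by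
    unfold en
    exact (tendsto_finsetSum _ fun i _ => (hl3 _ _).pow 2).const_mul _
  have he3 : en s (step s v) = 1 := by
    simp only [hst] at he2
    exact tendsto_nhds_unique he2 tendsto_const_nhds
  have hz2 : Tendsto (fun n : ℕ => 1 / ((n : ℝ) + 2)) U (𝓝 0) := by
    refine squeeze_zero (fun n => by positivity) (fun n => ?_) hz
    gcongr; norm_num
  have he4 : en s v ≤ 1 := by
    have h1 := (hz2.const_sub 1).mul he1
    rw [sub_zero, one_mul] at h1
    exact le_of_tendsto h1 (Eventually.of_forall hen)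
  have := exact_gap hκ h s σ hσ v hv1 hvinv (by rw [he3]; exact he4)
  linarith

end Pool.Agent.MP_890ef7_an

end

section

/-! The bicommutant theorem, a form of the Kaplansky density theorem, and weak limits. -/

open scoped InnerProductSpace
open Filter Topology

namespace Pool.Agent.MP_890ef7_an

variable {H : Type*} [NormedAddCommGroup H] [InnerProductSpace ℂ H] [CompleteSpace H]

section dia
variable {ι : Type*} [Fintype ι]

/-- diagonal amplification. -/
noncomputable def dia (ι : Type*) [Fintype ι] (a : H →L[ℂ] H) :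
    PiLp 2 (fun _ : ι => H) →L[ℂ] PiLp 2 (fun _ : ι => H) :=
  (PiLp.continuousLinearEquiv 2 ℂ (fun _ : ι => H)).symm.toContinuousLinearMap ∘L
    ContinuousLinearMap.pi fun i => a ∘L PiLp.proj 2 (fun _ : ι => H) i

@[simp] theorem dia_apply (a : H →L[ℂ] H) (ξ : PiLp 2 (fun _ : ι => H)) (i : ι) :
    dia ι a ξ i = a (ξ i) := by simp [dia]

theorem dia_adj (a : H →L[ℂ] H) (ξ η : PiLp 2 (fun _ : ι => H)) :
    ⟪dia ι a ξ, η⟫_ℂ = ⟪ξ, dia ι (star a) η⟫_ℂ := by
  simp [PiLp.inner_apply, ContinuousLinearMap.star_eq_adjoint,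
    ContinuousLinearMap.adjoint_inner_right]

/-- the map `a ↦ a ξ`. -/
noncomputable def orb (ξ : PiLp 2 (fun _ : ι => H)) : (H →L[ℂ] H) →ₗ[ℂ] PiLp 2 (fun _ : ι => H) where
  toFun a := dia ι a ξ
  map_add' a b := by ext i; simp
  map_smul' c a := by ext i; simp

theorem bicommutant (A : StarSubalgebra ℂ (H →L[ℂ] H)) {x : H →L[ℂ] H}
    (hx : x ∈ Set.centralizer (Set.centralizer (A : Set (H →L[ℂ] H))))
    (ξ : PiLp 2 (fun _ : ι => H)) {ε : ℝ} (hε : 0 < ε) :
    ∃ a ∈ A, ‖dia ι a ξ - dia ι x ξ‖ < ε := by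
  classical
  let W0 := (Subalgebra.toSubmodule A.toSubalgebra).map (orb ξ)
  let W := W0.topologicalClosure
  have hinv : ∀ a ∈ A, ∀ w ∈ W, dia ι a w ∈ W := fun a ha w hw => by
    have : Set.MapsTo (dia ι a) W0 W0 := by
      rintro _ ⟨b, hb, rfl⟩
      exact ⟨a * b, A.mul_mem ha hb, by ext i; simp [orb]⟩
    exact this.closure (dia ι a).continuous hw
  set P := W.starProjection with hP
  have hcomm : ∀ a ∈ A, ∀ η, P (dia ι a η) = dia ι a (P η) := fun a ha η => by
    refine Submodule.eq_starProjection_of_mem_of_inner_eq_zero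
      (hinv a ha _ (W.starProjection_apply_mem η)) fun w hw => ?_
    rw [← map_sub, dia_adj]
    exact Submodule.starProjection_inner_eq_zero η _ (hinv _ (star_mem ha) w hw)
  let sg : ι → H →L[ℂ] PiLp 2 (fun _ : ι => H) := fun j =>
    (PiLp.continuousLinearEquiv 2 ℂ (fun _ : ι => H)).symm.toContinuousLinearMap ∘L
      ContinuousLinearMap.single ℂ (fun _ : ι => H) j
  have hsg : ∀ a j v, dia ι a (sg j v) = sg j (a v) := fun a j v => by
    ext i
    by_cases h : i = j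
    · subst h; simp [sg]
    · simp [sg, h]
  have hsum : ∀ η : PiLp 2 (fun _ : ι => H), η = ∑ j, sg j (η j) := fun η => by
    ext i; simp [sg, Finset.sum_apply, Pi.single_apply]
  have hent : ∀ i j, x * (PiLp.proj 2 (fun _ : ι => H) i ∘L P ∘L sg j) =
      (PiLp.proj 2 (fun _ : ι => H) i ∘L P ∘L sg j) * x := fun i j => by
    refine (hx _ fun a ha => ?_).symm
    ext v
    have := congrArg (fun w : PiLp 2 (fun _ : ι => H) => w i) (hcomm a ha (sg j v))
    simp only [hsg, dia_apply] at this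
    simpa using this.symm
  have hxP : P (dia ι x ξ) = dia ι x (P ξ) := by
    conv_lhs => rw [hsum ξ]
    conv_rhs => rw [hsum ξ]
    simp only [map_sum, hsg]
    refine Finset.sum_congr rfl fun j _ => ?_
    ext i
    have := congrArg (fun T : H →L[ℂ] H => T (ξ j)) (hent i j)
    simpa using this.symm
  have hξ : ξ ∈ W := W0.le_topologicalClosure ⟨1, A.one_mem, by ext i; simp [orb]⟩
  have hmem : dia ι x ξ ∈ W := by
    rw [hP, Submodule.starProjection_eq_self_iff.2 hξ] at hxP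
    exact Submodule.starProjection_eq_self_iff.1 hxP
  obtain ⟨_, ⟨a, ha, rfl⟩, h⟩ := Metric.mem_closure_iff.1 hmem ε hε
  exact ⟨a, ha, by rwa [dist_comm, dist_eq_norm] at h⟩

theorem bicommutant_sa (A : StarSubalgebra ℂ (H →L[ℂ] H)) {x : H →L[ℂ] H}
    (hx : x ∈ Set.centralizer (Set.centralizer (A : Set (H →L[ℂ] H)))) (hsa : IsSelfAdjoint x)
    (ξ : PiLp 2 (fun _ : ι => H)) {ε : ℝ} (hε : 0 < ε) :
    ∃ a ∈ A, IsSelfAdjoint a ∧ ‖dia ι a ξ - dia ι x ξ‖ < ε := by
  let S : Submodule ℝ (PiLp 2 (fun _ : ι => H)) :=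
    { carrier := {w | ∃ a ∈ A, IsSelfAdjoint a ∧ w = dia ι a ξ}
      add_mem' := by
        rintro _ _ ⟨a, ha, ha', rfl⟩ ⟨b, hb, hb', rfl⟩
        exact ⟨a + b, A.add_mem ha hb, ha'.add hb', by ext i; simp⟩
      zero_mem' := ⟨0, A.zero_mem, .zero _, by ext i; simp⟩
      smul_mem' := by
        rintro c _ ⟨a, ha, ha', rfl⟩
        exact ⟨(c : ℂ) • a, A.smul_mem ha _, (IsSelfAdjoint.smul (by simp [IsSelfAdjoint]) ha'),
          by ext i; simp⟩ }
  have hmem : dia ι x ξ ∈ closure (S : Set (PiLp 2 (fun _ : ι => H))) := by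
    by_contra hn
    obtain ⟨f, u, hf, hu⟩ := RCLike.geometric_hahn_banach_closed_point (𝕜 := ℂ)
      S.convex.closure isClosed_closure hn
    have hu0 : 0 < u := by simpa using hf 0 (subset_closure S.zero_mem)
    have hf0 : ∀ w ∈ S, (f w).re = 0 := fun w hw => by
      by_contra hne
      have := hf ((u / (f w).re) • w) (subset_closure (S.smul_mem _ hw))
      rw [f.map_smul_of_tower] at this
      simp [div_mul_cancel₀ _ hne] at this
    set η := (InnerProductSpace.toDual ℂ _).symm f with hη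
    have hfη : ∀ w, f w = ⟪η, w⟫_ℂ := fun w => by rw [hη, InnerProductSpace.toDual_symm_apply]
    have hb : ∀ b ∈ A, (⟪η, dia ι b ξ⟫_ℂ).re + (⟪ξ, dia ι b η⟫_ℂ).re = 0 := fun b hb => by
      have h1 := hf0 _ ⟨b + star b, add_mem hb (star_mem hb), .add_star_self b, rfl⟩
      have h2 : dia ι (b + star b) ξ = dia ι b ξ + dia ι (star b) ξ := by ext i; simp
      rw [hfη, h2, inner_add_right, ← dia_adj, Complex.add_re, ← inner_conj_symm (dia ι b η),
        Complex.conj_re] at h1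
      exact h1
    have hx0 : (⟪η, dia ι x ξ⟫_ℂ).re + (⟪ξ, dia ι x η⟫_ℂ).re = 0 := by
      refine eq_of_forall_dist_le fun t ht => ?_
      let ζ : PiLp 2 (fun _ : ι ⊕ ι => H) := WithLp.toLp 2 (Sum.elim ξ η)
      obtain ⟨b, hbA, hbx⟩ := bicommutant A hx ζ
        (show 0 < t / (‖η‖ + ‖ξ‖ + 1) by positivity)
      have hsq : ‖dia _ b ζ - dia _ x ζ‖ ^ 2 =
          ‖dia ι b ξ - dia ι x ξ‖ ^ 2 + ‖dia ι b η - dia ι x η‖ ^ 2 := by
        simp [PiLp.norm_sq_eq_of_L2, ζ]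
      have h1 : ‖dia ι b ξ - dia ι x ξ‖ ≤ t / (‖η‖ + ‖ξ‖ + 1) :=
        (le_of_sq_le_sq (by rw [hsq]; nlinarith [sq_nonneg ‖dia ι b η - dia ι x η‖])
          (norm_nonneg _)).trans hbx.le
      have h2 : ‖dia ι b η - dia ι x η‖ ≤ t / (‖η‖ + ‖ξ‖ + 1) :=
        (le_of_sq_le_sq (by rw [hsq]; nlinarith [sq_nonneg ‖dia ι b ξ - dia ι x ξ‖])
          (norm_nonneg _)).trans hbx.le
      have h3 := (Complex.abs_re_le_norm _).trans
        (norm_inner_le_norm (𝕜 := ℂ) η (dia ι b ξ - dia ι x ξ))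
      have h4 := (Complex.abs_re_le_norm _).trans
        (norm_inner_le_norm (𝕜 := ℂ) ξ (dia ι b η - dia ι x η))
      rw [inner_sub_right, Complex.sub_re] at h3 h4
      have h5 := hb b hbA
      have h6 : ‖η‖ * (t / (‖η‖ + ‖ξ‖ + 1)) + ‖ξ‖ * (t / (‖η‖ + ‖ξ‖ + 1)) ≤ t := by
        rw [← add_mul, ← mul_div_assoc, div_le_iff₀ (by positivity)]
        nlinarith
      have h7 : ‖η‖ * ‖dia ι b ξ - dia ι x ξ‖ ≤ ‖η‖ * (t / (‖η‖ + ‖ξ‖ + 1)) := by gcongr
      have h8 : ‖ξ‖ * ‖dia ι b η - dia ι x η‖ ≤ ‖ξ‖ * (t / (‖η‖ + ‖ξ‖ + 1)) := by gcongr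
      rw [Real.dist_eq, sub_zero, abs_le] at *
      constructor <;> linarith
    have h2 : (⟪ξ, dia ι x η⟫_ℂ).re = (⟪η, dia ι x ξ⟫_ℂ).re := by
      rw [← inner_conj_symm, Complex.conj_re, dia_adj, hsa.star_eq]
    rw [hfη] at hu
    simp only [RCLike.re_to_complex] at hu
    linarith
  obtain ⟨_, ⟨a, ha, ha', rfl⟩, h⟩ := Metric.mem_closure_iff.1 hmem ε hε
  exact ⟨a, ha, ha', by rwa [dist_comm, dist_eq_norm] at h⟩

end dia

theorem res_facts {a : H →L[ℂ] H} (ha : IsSelfAdjoint a) :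
    (1 + a * a) * cfc (fun t : ℝ => (1 + t * t)⁻¹) a = 1 ∧
    cfc (fun t : ℝ => (1 + t * t)⁻¹) a * (1 + a * a) = 1 ∧
    ‖cfc (fun t : ℝ => (1 + t * t)⁻¹) a‖ ≤ 1 ∧
    cfc (fun t : ℝ => (1 + t * t)⁻¹ * t) a = cfc (fun t : ℝ => (1 + t * t)⁻¹) a * a ∧
    cfc (fun t : ℝ => (1 + t * t)⁻¹ * t) a = a * cfc (fun t : ℝ => (1 + t * t)⁻¹) a ∧
    ‖cfc (fun t : ℝ => (1 + t * t)⁻¹ * t) a‖ ≤ 1 / 2 := by
  have hpos : ∀ t : ℝ, 0 < 1 + t * t := fun t => by nlinarith [mul_self_nonneg t]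
  have hc : Continuous fun t : ℝ => (1 + t * t)⁻¹ :=
    Continuous.inv₀ (by fun_prop) fun t => (hpos t).ne'
  have h1 : cfc (fun t : ℝ => 1 + t * t) a = 1 + a * a := by
    rw [cfc_add .., cfc_mul .., cfc_id' ℝ a, cfc_const_one ℝ a]
  refine ⟨?_, ?_, ?_, ?_, ?_, ?_⟩
  · rw [← h1, ← cfc_mul _ _ a (by fun_prop) hc.continuousOn, ← cfc_const_one ℝ a]
    exact cfc_congr fun t _ => mul_inv_cancel₀ (hpos t).ne'
  · rw [← h1, ← cfc_mul _ _ a hc.continuousOn (by fun_prop), ← cfc_const_one ℝ a]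
    exact cfc_congr fun t _ => inv_mul_cancel₀ (hpos t).ne'
  · refine norm_cfc_le zero_le_one fun t _ => ?_
    rw [Real.norm_of_nonneg (inv_pos.2 (hpos t)).le]
    exact inv_le_one_of_one_le₀ (by nlinarith [mul_self_nonneg t])
  · rw [cfc_mul _ _ a hc.continuousOn (by fun_prop), cfc_id' ℝ a]
  · simp only [mul_comm (_ : ℝ)⁻¹]
    rw [cfc_mul _ _ a (by fun_prop) hc.continuousOn, cfc_id' ℝ a]
  · refine norm_cfc_le (by norm_num) fun t _ => ?_
    rw [Real.norm_eq_abs, abs_mul, abs_of_pos (inv_pos.2 (hpos t)), inv_mul_le_iff₀ (hpos t),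
      ← abs_mul_abs_self]
    nlinarith [sq_nonneg (|t| - 1)]

theorem kaplansky_sa (A : StarSubalgebra ℂ (H →L[ℂ] H)) {h : H →L[ℂ] H}
    (hx : h ∈ Set.centralizer (Set.centralizer (A : Set (H →L[ℂ] H)))) (hsa : IsSelfAdjoint h)
    (hn : ‖h‖ ≤ 1) (T : Finset H) {ε : ℝ} (hε : 0 < ε) :
    ∃ b ∈ A.topologicalClosure, ‖b‖ ≤ 1 ∧ ∀ v ∈ T, ‖b v - h v‖ < ε := by
  set g : ℝ → ℝ := fun t => t / (1 + √(1 - t ^ 2)) with hg
  have hgc : Continuous g := Continuous.div (by fun_prop) (by fun_prop) fun t => by positivity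
  set k := cfc g h with hk
  have hksa : IsSelfAdjoint k := cfc_predicate g h
  have hkm : k ∈ Set.centralizer (Set.centralizer (A : Set (H →L[ℂ] H))) := fun y hy =>
    (Commute.cfc_real (show Commute h y from (hx y hy).symm) g).symm
  obtain ⟨k1, k2, k3, k4, k5, k6⟩ := res_facts hksa
  set rk := cfc (fun t : ℝ => (1 + t * t)⁻¹) k with hrk
  have hh : h = (2 : ℂ) • (k * rk) := by
    have hc : Continuous fun t : ℝ => (1 + t * t)⁻¹ * t :=
      (Continuous.inv₀ (by fun_prop) fun t => by nlinarith [mul_self_nonneg t]).mul continuous_id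
    rw [← k5, hk, ← cfc_comp' (fun t : ℝ => (1 + t * t)⁻¹ * t) g h hc.continuousOn
      hgc.continuousOn, show (2 : ℂ) = ((2 : ℝ) : ℂ) by simp, Complex.coe_smul,
      ← cfc_const_mul 2 (fun t : ℝ => (1 + g t * g t)⁻¹ * g t) h (hc.comp hgc).continuousOn]
    conv_lhs => rw [← cfc_id' ℝ h]
    refine cfc_congr fun t ht => ?_
    have ht1 : |t| ≤ 1 := by
      have := spectrum.norm_le_norm_mul_of_mem ht
      have h1 : ‖(1 : H →L[ℂ] H)‖ ≤ 1 := ContinuousLinearMap.norm_id_le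
      calc |t| ≤ ‖h‖ * ‖(1 : H →L[ℂ] H)‖ := this
        _ ≤ 1 * 1 := by gcongr
        _ = 1 := by ring
    have ht2 : 0 ≤ 1 - t ^ 2 := by nlinarith [abs_le.1 ht1]
    have hs := Real.sq_sqrt ht2
    have hs0 := Real.sqrt_nonneg (1 - t ^ 2)
    simp only [hg]
    field_simp
    linear_combination t * hs
  let ζ : PiLp 2 (fun _ : T ⊕ T => H) :=
    WithLp.toLp 2 (Sum.elim (fun v => rk v) (fun v => k (rk v)))
  obtain ⟨a, haA, hasa, hak⟩ := bicommutant_sa A hkm hksa ζ (show 0 < ε / 3 by positivity)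
  obtain ⟨a1, a2, a3, a4, a5, a6⟩ := res_facts hasa
  have hmem : cfc (fun t : ℝ => (1 + t * t)⁻¹ * t) a ∈ A.topologicalClosure := by
    haveI : IsClosed (A.topologicalClosure : Set (H →L[ℂ] H)) := A.isClosed_topologicalClosure
    exact cfc_mem (𝕜' := ℂ) _ (A.le_topologicalClosure haA)
  set ra := cfc (fun t : ℝ => (1 + t * t)⁻¹) a with hra
  refine ⟨(2 : ℂ) • (ra * a), by rw [← a4]; exact A.topologicalClosure.smul_mem hmem _,
    by rw [norm_smul, ← a4]; simp only [Complex.norm_ofNat]; linarith, fun v hv => ?_⟩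
  have e1 : ra * a - k * rk = ra * (a - k) * rk - (ra * a) * (a - k) * (k * rk) := by
    calc ra * a - k * rk = ra * a * ((1 + k * k) * rk) - (ra * (1 + a * a)) * k * rk := by
          rw [k1, a2, mul_one, one_mul]
      _ = _ := by noncomm_ring
  have h1 := (PiLp.norm_apply_le (dia _ a ζ - dia _ k ζ) (.inl ⟨v, hv⟩)).trans_lt hak
  have h2 := (PiLp.norm_apply_le (dia _ a ζ - dia _ k ζ) (.inr ⟨v, hv⟩)).trans_lt hak
  simp only [PiLp.sub_apply, dia_apply, ζ, Sum.elim_inl, Sum.elim_inr] at h1 h2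
  have e2 : ((2 : ℂ) • (ra * a)) v - h v =
      (2 : ℂ) • (ra (a (rk v) - k (rk v)) - (ra * a) (a (k (rk v)) - k (k (rk v)))) := by
    rw [hh, ← ContinuousLinearMap.sub_apply, ← smul_sub, e1]
    simp
  rw [e2, norm_smul]
  have h3 := ra.le_opNorm (a (rk v) - k (rk v))
  have h4 := (ra * a).le_opNorm (a (k (rk v)) - k (k (rk v)))
  rw [a4] at a6
  have h5 := norm_sub_le (ra (a (rk v) - k (rk v))) ((ra * a) (a (k (rk v)) - k (k (rk v))))
  have h6 : ‖ra‖ * ‖a (rk v) - k (rk v)‖ ≤ 1 * ‖a (rk v) - k (rk v)‖ := by gcongr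
  have h7 : ‖ra * a‖ * ‖a (k (rk v)) - k (k (rk v))‖ ≤ 1 / 2 * ‖a (k (rk v)) - k (k (rk v))‖ := by
    gcongr
  simp only [Complex.norm_ofNat]
  linarith

theorem kaplansky (A : StarSubalgebra ℂ (H →L[ℂ] H)) {x : H →L[ℂ] H}
    (hx : x ∈ Set.centralizer (Set.centralizer (A : Set (H →L[ℂ] H)))) (hn : ‖x‖ ≤ 1)
    (T : Finset H) {ε : ℝ} (hε : 0 < ε) :
    ∃ b ∈ A.topologicalClosure, ‖b‖ ≤ 2 ∧ ∀ v ∈ T, ‖b v - x v‖ < ε := by
  let M := StarSubalgebra.centralizer ℂ (Set.centralizer (A : Set (H →L[ℂ] H)))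
  have hst : ∀ y ∈ Set.centralizer (A : Set (H →L[ℂ] H)),
      star y ∈ Set.centralizer (A : Set (H →L[ℂ] H)) := fun y hy a ha => by
    have := congrArg star (hy (star a) (star_mem ha))
    simpa using this.symm
  have hxs : star x ∈ Set.centralizer (Set.centralizer (A : Set (H →L[ℂ] H))) := fun y hy => by
    have := congrArg star (hx (star y) (hst y hy))
    simpa using this.symm
  have hlin : ∀ c d : ℂ, c • x + d • star x ∈
      Set.centralizer (Set.centralizer (A : Set (H →L[ℂ] H))) := fun c d y hy => by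
    simp only [mul_add, add_mul, mul_smul_comm, smul_mul_assoc, hx y hy, hxs y hy]
  have hnorm : ∀ c d : ℂ, ‖c‖ = 1 / 2 → ‖d‖ = 1 / 2 → ‖c • x + d • star x‖ ≤ 1 :=
    fun c d hc hd => by
      refine (norm_add_le _ _).trans ?_
      rw [norm_smul, norm_smul, norm_star, hc, hd]
      linarith
  obtain ⟨b₁, hb₁, n₁, h₁⟩ := kaplansky_sa A (hlin (1 / 2) (1 / 2))
    (by simp [IsSelfAdjoint, add_comm]) (hnorm _ _ (by simp) (by simp)) T (half_pos hε)
  obtain ⟨b₂, hb₂, n₂, h₂⟩ := kaplansky_sa A (hlin (-Complex.I / 2) (Complex.I / 2))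
    (by simp [IsSelfAdjoint, add_comm]) (hnorm _ _ (by simp) (by simp)) T (half_pos hε)
  refine ⟨b₁ + Complex.I • b₂, add_mem hb₁ (A.topologicalClosure.smul_mem hb₂ _), ?_,
    fun v hv => ?_⟩
  · refine (norm_add_le _ _).trans ?_
    rw [norm_smul, Complex.norm_I]
    linarith
  · have e : (b₁ + Complex.I • b₂) v - x v =
        (b₁ v - ((1 / 2 : ℂ) • x + (1 / 2 : ℂ) • star x) v) +
        Complex.I • (b₂ v - ((-Complex.I / 2) • x + (Complex.I / 2) • star x) v) := by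
      simp only [ContinuousLinearMap.add_apply, ContinuousLinearMap.smul_apply]
      have hI := Complex.I_mul_I
      match_scalars
      · ring
      · ring
      · linear_combination (-1 / 2 : ℂ) * hI
      · linear_combination (1 / 2 : ℂ) * hI
    rw [e]
    refine (norm_add_le _ _).trans_lt ?_
    rw [norm_smul, Complex.norm_I]
    have := h₁ v hv
    have := h₂ v hv
    linarith

theorem exists_wot_lim {I : Type*} (U : Ultrafilter I) (y : I → H →L[ℂ] H) {C : ℝ} (hC : 0 ≤ C)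
    (hy : ∀ i, ‖y i‖ ≤ C) :
    ∃ z : H →L[ℂ] H, ∀ a b, Tendsto (fun i => ⟪a, y i b⟫_ℂ) U (𝓝 ⟪a, z b⟫_ℂ) := by
  have hb : ∀ a b i, ‖⟪y i b, a⟫_ℂ‖ ≤ C * ‖b‖ * ‖a‖ := fun a b i =>
    (norm_inner_le_norm _ _).trans (by
      have := ((y i).le_opNorm b).trans (mul_le_mul_of_nonneg_right (hy i) (norm_nonneg b))
      gcongr)
  choose f hf using fun a b => exists_ulim U (fun i => ⟪y i b, a⟫_ℂ)
    (Eventually.of_forall (hb a b))
  have hfb : ∀ a b, ‖f a b‖ ≤ C * ‖b‖ * ‖a‖ := fun a b =>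
    le_of_tendsto' (hf a b).norm (hb a b)
  let φ : H → H →L[ℂ] ℂ := fun b => LinearMap.mkContinuous
    { toFun := fun a => f a b
      map_add' := fun a a' => tendsto_nhds_unique (hf _ b)
        (((hf a b).add (hf a' b)).congr fun i => (inner_add_right _ _ _).symm)
      map_smul' := fun c a => tendsto_nhds_unique (hf _ b)
        (((hf a b).const_mul c).congr fun i => (inner_smul_right _ _ _).symm) }
    (C * ‖b‖) fun a => hfb a b
  let w : H → H := fun b => (InnerProductSpace.toDual ℂ H).symm (φ b)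
  have hw : ∀ a b, Tendsto (fun i => ⟪a, y i b⟫_ℂ) U (𝓝 ⟪a, w b⟫_ℂ) := fun a b => by
    have e : ⟪w b, a⟫_ℂ = f a b := InnerProductSpace.toDual_symm_apply
    have := (Complex.continuous_conj.tendsto _).comp (hf a b)
    rw [← e, inner_conj_symm] at this
    exact this.congr fun i => inner_conj_symm _ _
  refine ⟨LinearMap.mkContinuous
    { toFun := w
      map_add' := fun b b' => ext_inner_left ℂ fun a => tendsto_nhds_unique (hw a _) ?_
      map_smul' := fun c b => ext_inner_left ℂ fun a => tendsto_nhds_unique (hw a _) ?_ }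
    C fun b => ?_, hw⟩
  · rw [inner_add_right]
    exact ((hw a b).add (hw a b')).congr fun i => by rw [map_add, inner_add_right]
  · rw [RingHom.id_apply, inner_smul_right]
    exact ((hw a b).const_mul c).congr fun i => by rw [map_smul, inner_smul_right]
  · change ‖(InnerProductSpace.toDual ℂ H).symm (φ b)‖ ≤ _
    rw [LinearIsometryEquiv.norm_map]
    exact LinearMap.mkContinuous_norm_le _ (by positivity) _

theorem norm_le_of_weak {I K : Type*} [NormedAddCommGroup K] [InnerProductSpace ℂ K] {l : Filter I}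
    [l.NeBot] {v : I → K} {w : K} {C : ℝ} (hC : 0 ≤ C) (hv : ∀ i, ‖v i‖ ≤ C)
    (h : Tendsto (fun i => ⟪w, v i⟫_ℂ) l (𝓝 ⟪w, w⟫_ℂ)) : ‖w‖ ≤ C := by
  have h1 : ‖⟪w, w⟫_ℂ‖ ≤ ‖w‖ * C :=
    le_of_tendsto' h.norm fun i => (norm_inner_le_norm _ _).trans (by gcongr; exact hv i)
  rw [inner_self_eq_norm_sq_to_K] at h1
  simp only [Complex.coe_algebraMap, norm_pow, Complex.norm_real, norm_norm] at h1
  rcases (norm_nonneg w).eq_or_lt with h0 | h0
  · rwa [← h0]
  · nlinarith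

end Pool.Agent.MP_890ef7_an

end
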