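import Mathlib
import Pool.Agent.Mg.F890ef7p.G7e54e1
import Pool.Agent.MP_890ef7_an.Amp

section

/-! A stationary mean for a finitely supported random walk on a monoid, and martingale variance
estimates. -/

open scoped InnerProductSpace
open Filter Topology

namespace Pool.Agent.MP_890ef7_an

variable {G : Type*} [Monoid G] {ι : Type*} [Fintype ι] [Nonempty ι]

/-- one step of the walk on real functions. -/
noncomputable def Pav (U : ι → G) (f : G → ℝ) : G → ℝ :=
  fun g => (Fintype.card ι : ℝ)⁻¹ * ∑ i, f (g * U i)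

/-- one step of the walk on vector functions. -/
noncomputable def PavV (U : ι → G) {V : Type*} [AddCommGroup V] [Module ℂ V] (f : G → V) : G → V :=
  fun g => (Fintype.card ι : ℂ)⁻¹ • ∑ i, f (g * U i)

/-- conditional variance of one step. -/
noncomputable def Var (U : ι → G) {V : Type*} [NormedAddCommGroup V] [Module ℂ V] (f : G → V) :
    G → ℝ := fun g => (Fintype.card ι : ℝ)⁻¹ * ∑ i, ‖f (g * U i) - PavV U f g‖ ^ 2

/-- bounded real functions. -/
def Bdd {X : Type*} (f : X → ℝ) : Prop := ∃ C, ∀ g, |f g| ≤ C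

section bdd
variable {X : Type*}

theorem Bdd.of_le {f : X → ℝ} (C : ℝ) (h0 : ∀ g, 0 ≤ f g) (h : ∀ g, f g ≤ C) : Bdd f :=
  ⟨C, fun g => by rw [abs_of_nonneg (h0 g)]; exact h g⟩

theorem Bdd.const (c : ℝ) : Bdd (fun _ : X => c) := ⟨|c|, fun _ => le_rfl⟩

theorem Bdd.add {f g : X → ℝ} (hf : Bdd f) (hg : Bdd g) : Bdd (fun x => f x + g x) := by
  obtain ⟨C, hC⟩ := hf
  obtain ⟨D, hD⟩ := hg
  exact ⟨C + D, fun x => (abs_add_le _ _).trans (add_le_add (hC x) (hD x))⟩

theorem Bdd.smul {f : X → ℝ} (c : ℝ) (hf : Bdd f) : Bdd (fun x => c * f x) := by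
  obtain ⟨C, hC⟩ := hf
  exact ⟨|c| * C, fun x => by rw [abs_mul]; gcongr; exact hC x⟩

theorem Bdd.sum {α : Type*} (s : Finset α) {f : α → X → ℝ} (hf : ∀ a ∈ s, Bdd (f a)) :
    Bdd (fun x => ∑ a ∈ s, f a x) := by
  classical
  induction s using Finset.induction_on with
  | empty => simpa using Bdd.const (X := X) 0
  | insert a s ha ih =>
    simp only [Finset.sum_insert ha]
    exact (hf a (Finset.mem_insert_self _ _)).add
      (ih fun b hb => hf b (Finset.mem_insert_of_mem hb))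

theorem Bdd.comp {Y : Type*} {f : X → ℝ} (hf : Bdd f) (φ : Y → X) : Bdd (fun y => f (φ y)) := by
  obtain ⟨C, hC⟩ := hf
  exact ⟨C, fun y => hC _⟩

theorem Bdd.normsq_sub {V : Type*} [NormedAddCommGroup V] {f g : X → V} {C D : ℝ}
    (hf : ∀ x, ‖f x‖ ≤ C) (hg : ∀ x, ‖g x‖ ≤ D) : Bdd (fun x => ‖f x - g x‖ ^ 2) :=
  Bdd.of_le ((C + D) ^ 2) (fun _ => by positivity) fun x => by
    have := (norm_sub_le (f x) (g x)).trans (add_le_add (hf x) (hg x))
    gcongr

theorem Bdd.normsq {V : Type*} [NormedAddCommGroup V] {f : X → V} {C : ℝ}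
    (hf : ∀ x, ‖f x‖ ≤ C) : Bdd (fun x => ‖f x‖ ^ 2) :=
  Bdd.of_le (C ^ 2) (fun _ => by positivity) fun x => by
    have := hf x
    gcongr

end bdd

theorem abs_Pav_le (U : ι → G) {f : G → ℝ} {C : ℝ} (h : ∀ g, |f g| ≤ C) (g : G) :
    |Pav U f g| ≤ C := by
  have hN : (0 : ℝ) < Fintype.card ι := by exact_mod_cast Fintype.card_pos
  unfold Pav
  rw [abs_mul, abs_of_pos (inv_pos.2 hN), inv_mul_le_iff₀ hN]
  calc |∑ i, f (g * U i)| ≤ ∑ i, |f (g * U i)| := Finset.abs_sum_le_sum_abs _ _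
    _ ≤ ∑ _i : ι, C := Finset.sum_le_sum fun i _ => h _
    _ = _ := by simp

theorem Bdd.pav (U : ι → G) {f : G → ℝ} (hf : Bdd f) : Bdd (Pav U f) := by
  obtain ⟨C, hC⟩ := hf
  exact ⟨C, abs_Pav_le U hC⟩

theorem norm_PavV_le (U : ι → G) {V : Type*} [NormedAddCommGroup V] [NormedSpace ℂ V] {f : G → V}
    {C : ℝ} (h : ∀ g, ‖f g‖ ≤ C) (g : G) : ‖PavV U f g‖ ≤ C := by
  have hN : (0 : ℝ) < Fintype.card ι := by exact_mod_cast Fintype.card_pos
  unfold PavV
  rw [norm_smul, norm_inv, Complex.norm_natCast, inv_mul_le_iff₀ hN]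
  calc ‖∑ i, f (g * U i)‖ ≤ ∑ i, ‖f (g * U i)‖ := norm_sum_le _ _
    _ ≤ ∑ _i : ι, C := Finset.sum_le_sum fun i _ => h _
    _ = _ := by simp

theorem Bdd.var (U : ι → G) {V : Type*} [NormedAddCommGroup V] [NormedSpace ℂ V] {f : G → V}
    {C : ℝ} (h : ∀ g, ‖f g‖ ≤ C) : Bdd (Var U f) :=
  (Bdd.sum _ fun i _ => Bdd.normsq_sub (fun g => h (g * U i)) (norm_PavV_le U h)).smul _

theorem var_nonneg (U : ι → G) {V : Type*} [NormedAddCommGroup V] [NormedSpace ℂ V] (f : G → V)
    (g : G) : 0 ≤ Var U f g := by unfold Var; positivity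

theorem var_add (U : ι → G) {V : Type*} [NormedAddCommGroup V] [InnerProductSpace ℂ V] (f : G → V)
    (g : G) (c : V) : (Fintype.card ι : ℝ)⁻¹ * ∑ i, ‖f (g * U i) - c‖ ^ 2 =
      Var U f g + ‖PavV U f g - c‖ ^ 2 := by
  have hN : (0 : ℝ) < Fintype.card ι := by exact_mod_cast Fintype.card_pos
  have hN' : (Fintype.card ι : ℂ) ≠ 0 := by exact_mod_cast Fintype.card_ne_zero
  set m := PavV U f g with hm
  have h0 : ∑ i, (f (g * U i) - m) = 0 := by
    rw [Finset.sum_sub_distrib, Finset.sum_const, Finset.card_univ, hm, PavV,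
      ← Nat.cast_smul_eq_nsmul ℂ, smul_smul, mul_inv_cancel₀ hN', one_smul, sub_self]
  have h1 : ∀ i, ‖f (g * U i) - c‖ ^ 2 = ‖f (g * U i) - m‖ ^ 2 +
      2 * RCLike.re ⟪f (g * U i) - m, m - c⟫_ℂ + ‖m - c‖ ^ 2 := fun i => by
    rw [← @norm_add_sq ℂ]; congr 2; abel
  simp only [h1, Finset.sum_add_distrib, ← Finset.mul_sum, ← map_sum, ← sum_inner, h0,
    inner_zero_left, map_zero, Finset.sum_const, Finset.card_univ, nsmul_eq_mul, Var, ← hm]
  field_simp
  ring

/-- a stationary mean. -/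
structure IsMean (U : ι → G) (E : (G → ℝ) → ℝ) : Prop where
  add : ∀ {f g : G → ℝ}, Bdd f → Bdd g → E (fun x => f x + g x) = E f + E g
  smul : ∀ (c : ℝ) {f : G → ℝ}, Bdd f → E (fun x => c * f x) = c * E f
  mono : ∀ {f g : G → ℝ}, Bdd f → Bdd g → (∀ x, f x ≤ g x) → E f ≤ E g
  const : ∀ c : ℝ, E (fun _ => c) = c
  inv : ∀ {f : G → ℝ}, Bdd f → E (Pav U f) = E f

theorem exists_mean (U : ι → G) : ∃ E, IsMean U E := by
  have hN : (0 : ℝ) < Fintype.card ι := by exact_mod_cast Fintype.card_pos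
  let a : (G → ℝ) → ℕ → ℝ := fun f M =>
    ((M : ℝ) + 1)⁻¹ * ∑ m ∈ Finset.range (M + 1), (Pav U)^[m] f 1
  have hit : ∀ {f : G → ℝ} {C : ℝ}, (∀ g, |f g| ≤ C) → ∀ m g, |(Pav U)^[m] f g| ≤ C := by
    intro f C h m
    induction m with
    | zero => exact h
    | succ m ih => rw [Function.iterate_succ_apply']; exact abs_Pav_le U ih
  have hab : ∀ {f : G → ℝ} {C : ℝ}, (∀ g, |f g| ≤ C) → ∀ M, ‖a f M‖ ≤ C := by
    intro f C h M
    have hM : (0 : ℝ) < (M : ℝ) + 1 := by positivity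
    simp only [a, Real.norm_eq_abs]
    rw [abs_mul, abs_of_pos (inv_pos.2 hM), inv_mul_le_iff₀ hM]
    calc |∑ m ∈ Finset.range (M + 1), (Pav U)^[m] f 1|
        ≤ ∑ m ∈ Finset.range (M + 1), |(Pav U)^[m] f 1| := Finset.abs_sum_le_sum_abs _ _
      _ ≤ ∑ _m ∈ Finset.range (M + 1), C := Finset.sum_le_sum fun m _ => hit h m 1
      _ = _ := by simp
  let W := hyperfilter ℕ
  have hW : (W : Filter ℕ) ≤ atTop := Nat.hyperfilter_le_atTop
  let E : (G → ℝ) → ℝ := fun f => limUnder (W : Filter ℕ) (a f)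
  have hE : ∀ {f : G → ℝ}, Bdd f → Tendsto (a f) W (𝓝 (E f)) := by
    rintro f ⟨C, hC⟩
    exact tendsto_nhds_limUnder (exists_ulim W _ (Eventually.of_forall (hab hC)))
  have hadd : ∀ (f g : G → ℝ) m, (Pav U)^[m] (fun x => f x + g x) =
      fun x => (Pav U)^[m] f x + (Pav U)^[m] g x := by
    intro f g m
    induction m with
    | zero => rfl
    | succ m ih =>
      simp only [Function.iterate_succ_apply', ih]
      funext x
      simp only [Pav, Finset.sum_add_distrib, mul_add]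
  have hsm : ∀ (c : ℝ) (f : G → ℝ) m, (Pav U)^[m] (fun x => c * f x) =
      fun x => c * (Pav U)^[m] f x := by
    intro c f m
    induction m with
    | zero => rfl
    | succ m ih =>
      simp only [Function.iterate_succ_apply', ih]
      funext x
      simp only [Pav, ← Finset.mul_sum]; ring
  have hmo : ∀ (f g : G → ℝ), (∀ x, f x ≤ g x) → ∀ m x, (Pav U)^[m] f x ≤ (Pav U)^[m] g x := by
    intro f g h m
    induction m with
    | zero => exact h
    | succ m ih =>
      intro x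
      simp only [Function.iterate_succ_apply', Pav]
      gcongr with i
      exact ih _
  have hco : ∀ (c : ℝ) m, (Pav U)^[m] (fun _ => c) = fun _ => c := by
    intro c m
    induction m with
    | zero => rfl
    | succ m ih =>
      rw [Function.iterate_succ_apply', ih]
      funext x
      simp only [Pav, Finset.sum_const, Finset.card_univ, nsmul_eq_mul]
      field_simp
  refine ⟨E, fun {f g} hf hg => ?_, fun c {f} hf => ?_, fun {f g} hf hg h => ?_, fun c => ?_,
    fun {f} hf => ?_⟩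
  · refine tendsto_nhds_unique (hE (hf.add hg)) (((hE hf).add (hE hg)).congr fun M => ?_)
    simp only [a, hadd, Finset.sum_add_distrib, mul_add]
  · refine tendsto_nhds_unique (hE (hf.smul c)) (((hE hf).const_mul c).congr fun M => ?_)
    simp only [a, hsm, ← Finset.mul_sum]; ring
  · refine le_of_tendsto_of_tendsto' (hE hf) (hE hg) fun M => ?_
    simp only [a]
    gcongr with m
    exact hmo f g h m 1
  · refine tendsto_nhds_unique (hE (Bdd.const c)) (tendsto_const_nhds.congr fun M => ?_)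
    simp only [a, hco, Finset.sum_const, Finset.card_range, nsmul_eq_mul]
    push_cast
    field_simp
  · obtain ⟨C, hC⟩ := id hf
    have h0 : Tendsto (fun M : ℕ => ((M : ℝ) + 1)⁻¹ * ((Pav U)^[M + 1] f 1 - f 1)) W (𝓝 0) := by
      refine squeeze_zero_norm (a := fun M : ℕ => 1 / ((M : ℝ) + 1) * (C + C)) (fun M => ?_) ?_
      · rw [norm_mul, one_div, Real.norm_of_nonneg (by positivity)]
        gcongr
        exact (norm_sub_le _ _).trans (add_le_add (hit hC _ _) (hC _))
      · simpa using (tendsto_one_div_add_atTop_nhds_zero_nat.mono_left hW).mul_const (C + C)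
    refine tendsto_nhds_unique (hE (hf.pav U)) ?_
    have := (hE hf).add h0
    rw [add_zero] at this
    refine this.congr fun M => ?_
    simp only [a, ← Function.iterate_succ_apply, ← mul_add]
    congr 1
    have e := Finset.sum_range_succ (fun m => (Pav U)^[m] f 1) (M + 1)
    rw [Finset.sum_range_succ' (fun m => (Pav U)^[m] f 1) (M + 1)] at e
    simp only [Function.iterate_zero, id] at e
    simp only [Nat.succ_eq_add_one]
    linarith

namespace IsMean
variable {U : ι → G} {E : (G → ℝ) → ℝ}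

theorem nonneg (hE : IsMean U E) {f : G → ℝ} (hf : Bdd f) (h : ∀ x, 0 ≤ f x) : 0 ≤ E f := by
  have := hE.mono (Bdd.const 0) hf h
  rwa [hE.const] at this

theorem le_const (hE : IsMean U E) {f : G → ℝ} (hf : Bdd f) {c : ℝ} (h : ∀ x, f x ≤ c) :
    E f ≤ c := by
  have := hE.mono hf (Bdd.const c) h
  rwa [hE.const] at this

theorem const_le (hE : IsMean U E) {f : G → ℝ} (hf : Bdd f) {c : ℝ} (h : ∀ x, c ≤ f x) :
    c ≤ E f := by
  have := hE.mono (Bdd.const c) hf h
  rwa [hE.const] at this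

theorem sum (hE : IsMean U E) {α : Type*} (s : Finset α) {f : α → G → ℝ}
    (hf : ∀ a ∈ s, Bdd (f a)) : E (fun x => ∑ a ∈ s, f a x) = ∑ a ∈ s, E (f a) := by
  classical
  induction s using Finset.induction_on with
  | empty => simpa using hE.const 0
  | insert a s ha ih =>
    simp only [Finset.sum_insert ha]
    rw [hE.add (hf a (Finset.mem_insert_self _ _))
      (Bdd.sum s fun b hb => hf b (Finset.mem_insert_of_mem hb)),
      ih fun b hb => hf b (Finset.mem_insert_of_mem hb)]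

theorem shift_le (hE : IsMean U E) {n : ℕ} {h : G} (hh : IsW U n h) {f : G → ℝ} (hf : Bdd f)
    (h0 : ∀ x, 0 ≤ f x) : E (fun x => f (x * h)) ≤ (Fintype.card ι : ℝ) ^ n * E f := by
  have hN : (1 : ℝ) ≤ Fintype.card ι := by exact_mod_cast Fintype.card_pos
  induction n generalizing h f with
  | zero => obtain rfl : h = 1 := hh; simp
  | succ n ih =>
    have hE0 := hE.nonneg hf h0
    rcases hh with hh | ⟨h', i, hh', rfl⟩
    · refine (ih hh hf h0).trans ?_
      gcongr
      omega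
    · have h1 := ih hh' (hf.pav U) (fun x => by
        unfold Pav
        exact mul_nonneg (by positivity) (Finset.sum_nonneg fun _ _ => h0 _))
      rw [hE.inv hf] at h1
      have h2 : E (fun x => f (x * (h' * U i))) ≤
          E (fun x => (Fintype.card ι : ℝ) * Pav U f (x * h')) := by
        refine hE.mono (hf.comp _) (((hf.pav U).comp _).smul _) fun x => ?_
        unfold Pav
        rw [mul_inv_cancel_left₀ (by positivity), ← mul_assoc]
        exact Finset.single_le_sum (f := fun j => f (x * h' * U j)) (fun _ _ => h0 _)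
          (Finset.mem_univ i)
      rw [hE.smul _ ((hf.pav U).comp _)] at h2
      calc _ ≤ _ := h2
        _ ≤ (Fintype.card ι : ℝ) * ((Fintype.card ι : ℝ) ^ n * E f) := by gcongr
        _ = _ := by ring

theorem var_eq (hE : IsMean U E) {V : Type*} [NormedAddCommGroup V] [InnerProductSpace ℂ V]
    {f : G → V} {C : ℝ} (h : ∀ g, ‖f g‖ ≤ C) :
    E (Var U f) = E (fun g => ‖f g‖ ^ 2) - E (fun g => ‖PavV U f g‖ ^ 2) := by
  rw [eq_sub_iff_add_eq, ← hE.add (Bdd.var U h) (Bdd.normsq (norm_PavV_le U h)),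
    ← hE.inv (Bdd.normsq h)]
  congr 1
  funext g
  have := var_add U f g 0
  simp only [sub_zero] at this
  rw [← this, Pav]

end IsMean

/-- constants for the chain estimate. -/
def Cw (N : ℝ) : ℕ → ℝ
  | 0 => 0
  | n + 1 => 2 * Cw N n + 8 * N ^ (n + 1)

theorem Cw_nonneg {N : ℝ} (hN : 0 ≤ N) (n : ℕ) : 0 ≤ Cw N n := by
  induction n with
  | zero => exact le_rfl
  | succ n ih => unfold Cw; positivity

theorem IsMean.chain {U : ι → G} {E : (G → ℝ) → ℝ} (hE : IsMean U E) (i₀ : ι) (hi₀ : U i₀ = 1)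
    {V : Type*} [NormedAddCommGroup V] [InnerProductSpace ℂ V] {f : G → V} {C : ℝ}
    (hf : ∀ g, ‖f g‖ ≤ C) {n : ℕ} {h : G} (hh : IsW U n h) :
    E (fun g => ‖f (g * h) - f g‖ ^ 2) ≤ Cw (Fintype.card ι) n * E (Var U f) := by
  have hN : (0 : ℝ) < Fintype.card ι := by exact_mod_cast Fintype.card_pos
  have hV0 := hE.nonneg (Bdd.var U hf) (var_nonneg U f)
  have hone : ∀ g i, ‖f (g * U i) - f g‖ ^ 2 ≤ 4 * Fintype.card ι * Var U f g := fun g i => by
    have hs : ∀ j, ‖f (g * U j) - PavV U f g‖ ^ 2 ≤ Fintype.card ι * Var U f g := fun j => by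
      unfold Var
      rw [← mul_assoc, mul_inv_cancel₀ hN.ne', one_mul]
      exact Finset.single_le_sum (f := fun j => ‖f (g * U j) - PavV U f g‖ ^ 2)
        (fun _ _ => by positivity) (Finset.mem_univ j)
    have h1 := hs i
    have h2 := hs i₀
    rw [hi₀, mul_one] at h2
    have h3 : ‖f (g * U i) - f g‖ ≤ ‖f (g * U i) - PavV U f g‖ + ‖f g - PavV U f g‖ := by
      rw [norm_sub_rev (f g)]; exact norm_sub_le_norm_sub_add_norm_sub _ _ _
    have h4 : ‖f (g * U i) - f g‖ ^ 2 ≤ (‖f (g * U i) - PavV U f g‖ + ‖f g - PavV U f g‖) ^ 2 := by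
      gcongr
    nlinarith [sq_nonneg (‖f (g * U i) - PavV U f g‖ - ‖f g - PavV U f g‖)]
  induction n generalizing h with
  | zero => obtain rfl : h = 1 := hh; simpa [Cw] using (hE.const 0).le
  | succ n ih =>
    have hc := Cw_nonneg hN.le n
    rcases hh with hh | ⟨h', i, hh', rfl⟩
    · refine (ih hh).trans ?_
      gcongr
      rw [Cw]
      have : 0 ≤ (Fintype.card ι : ℝ) ^ (n + 1) := by positivity
      linarith
    · have h1 := ih hh'
      have h2 := hE.shift_le hh' (Bdd.var U hf) (var_nonneg U f)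
      have hb1 : Bdd fun g => ‖f (g * h') - f g‖ ^ 2 := Bdd.normsq_sub (fun g => hf _) hf
      have hb2 : Bdd fun g => Var U f (g * h') := (Bdd.var U hf).comp _
      have h3 : E (fun g => ‖f (g * (h' * U i)) - f g‖ ^ 2) ≤
          E (fun g => 2 * ‖f (g * h') - f g‖ ^ 2 + (8 * Fintype.card ι) * Var U f (g * h')) := by
        refine hE.mono (Bdd.normsq_sub (fun g => hf _) hf) ((hb1.smul _).add (hb2.smul _))
          fun g => ?_
        have h4 := hone (g * h') i
        rw [← mul_assoc]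
        have h5 : ‖f (g * h' * U i) - f g‖ ≤ ‖f (g * h' * U i) - f (g * h')‖ +
          ‖f (g * h') - f g‖ := norm_sub_le_norm_sub_add_norm_sub _ _ _
        have h6 : ‖f (g * h' * U i) - f g‖ ^ 2 ≤ (‖f (g * h' * U i) - f (g * h')‖ +
          ‖f (g * h') - f g‖) ^ 2 := by gcongr
        nlinarith [sq_nonneg (‖f (g * h' * U i) - f (g * h')‖ - ‖f (g * h') - f g‖)]
      rw [hE.add (hb1.smul _) (hb2.smul _), hE.smul _ hb1, hE.smul _ hb2] at h3
      calc _ ≤ _ := h3
        _ ≤ 2 * (Cw (Fintype.card ι) n * E (Var U f)) +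
          (8 * Fintype.card ι) * ((Fintype.card ι : ℝ) ^ n * E (Var U f)) := by gcongr
        _ = _ := by simp only [Cw]; ring

end Pool.Agent.MP_890ef7_an

end

section

/-! A random walk on the unitary group of two by two matrices and extraction of commutators. -/

open scoped InnerProductSpace

namespace Pool.Agent.MP_890ef7_an

theorem IsW.map {G G' κ κ' : Type*} [Monoid G] [Monoid G'] {s : κ → G} {t : κ' → G'} (f : G →* G')
    (hf : ∀ i, ∃ j, f (s i) = t j) {n : ℕ} {g : G} (hg : IsW s n g) : IsW t n (f g) := by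
  induction n generalizing g with
  | zero => obtain rfl : g = 1 := hg; simpa using IsW.one (s := t) 0
  | succ n ih =>
    rcases hg with hg | ⟨h, i, hh, rfl⟩
    · exact Or.inl (ih hg)
    · obtain ⟨j, hj⟩ := hf i
      exact Or.inr ⟨f h, j, ih hh, by rw [map_mul, hj]⟩

theorem IsW.exists_finset {G κ : Type*} [Monoid G] [Fintype κ] (s : κ → G) (n : ℕ) :
    ∃ T : Finset G, (∀ h, IsW s n h ↔ h ∈ T) ∧
      (T.card : ℝ) ≤ ((Fintype.card κ : ℝ) + 1) ^ n := by
  classical
  induction n with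
  | zero => exact ⟨{1}, fun h => by simp [IsW], by simp⟩
  | succ n ih =>
    obtain ⟨T, hT, hc⟩ := ih
    refine ⟨T ∪ Finset.image₂ (fun h i => h * s i) T Finset.univ, fun h => ?_, ?_⟩
    · simp only [IsW, hT, Finset.mem_union, Finset.mem_image₂, Finset.mem_univ, true_and]
      constructor
      · rintro (h1 | ⟨h', i, h1, rfl⟩)
        · exact Or.inl h1
        · exact Or.inr ⟨h', h1, i, rfl⟩
      · rintro (h1 | ⟨h', h1, i, rfl⟩)
        · exact Or.inl h1
        · exact Or.inr ⟨h', i, h1, rfl⟩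
    · have h1 := Finset.card_union_le T (Finset.image₂ (fun h i => h * s i) T Finset.univ)
      have h2 := Finset.card_image₂_le (fun h i => h * s i) T (Finset.univ : Finset κ)
      rw [Finset.card_univ] at h2
      have h3 : ((T ∪ Finset.image₂ (fun h i => h * s i) T Finset.univ).card : ℝ) ≤
          T.card + T.card * Fintype.card κ := by exact_mod_cast h1.trans (by omega)
      calc _ ≤ _ := h3
        _ = T.card * ((Fintype.card κ : ℝ) + 1) := by ring
        _ ≤ ((Fintype.card κ : ℝ) + 1) ^ n * ((Fintype.card κ : ℝ) + 1) := by gcongr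
        _ = _ := by ring

/-- two by two matrices. -/
abbrev M2 (B : Type*) := Matrix (Fin 2) (Fin 2) B

section alg
variable {B : Type*} [Ring B] [StarRing B] [Algebra ℂ B] [StarModule ℂ B]
  {K : Type*} [NormedAddCommGroup K] [InnerProductSpace ℂ K]

/-- diagonal two by two matrices. -/
def dg (x y : B) : M2 B := !![x, 0; 0, y]

theorem dg_mul (x y x' y' : B) : dg x y * dg x' y' = dg (x * x') (y * y') := by
  ext i j; fin_cases i <;> fin_cases j <;> simp [dg, Matrix.mul_apply, Fin.sum_univ_two]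

theorem star_dg (x y : B) : star (dg x y) = dg (star x) (star y) := by
  ext i j; fin_cases i <;> fin_cases j <;> simp [dg, Matrix.star_apply]

theorem dg_one : dg (1 : B) 1 = 1 := by
  ext i j; fin_cases i <;> fin_cases j <;> simp [dg]

theorem hat_dg (a : Bil B K) (X Y : M2 B) (x y x' y' : B) (ik : Fin 2 × Fin 2) :
    hat a (X * dg x y) (dg x' y' * Y) ik =
      a (X ik.1 0 * x) (x' * Y 0 ik.2) + a (X ik.1 1 * y) (y' * Y 1 ik.2) := by
  simp only [hat_apply, Matrix.mul_apply, Fin.sum_univ_two]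
  simp [dg]

/-- the two corner embeddings of the unitary group. -/
def dU (b : Bool) : unitary B →* unitary (M2 B) where
  toFun x := ⟨dg (if b then (x : B) else 1) (if b then 1 else (x : B)), by
    rw [Unitary.mem_iff, star_dg, dg_mul, dg_mul]
    cases b <;> simp [dg_one]⟩
  map_one' := Subtype.ext (by cases b <;> simp [dg_one])
  map_mul' x y := Subtype.ext (by cases b <;> simp [dg_mul])

theorem dU_true (x : unitary B) : (dU true x : M2 B) = dg (x : B) 1 := rfl
theorem dU_false (x : unitary B) : (dU false x : M2 B) = dg 1 (x : B) := rfl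

/-- the fourth roots of unity. -/
def om : Fin 4 → ℂ := ![1, Complex.I, -1, -Complex.I]

/-- flip. -/
def Xc : M2 ℂ := !![0, 1; 1, 0]
/-- sign. -/
def Zc : M2 ℂ := !![1, 0; 0, -1]
/-- a rational reflection. -/
noncomputable def Hc : M2 ℂ := !![3 / 5, 4 / 5; 4 / 5, -(3 / 5)]
/-- a matrix unit. -/
def e12 : M2 ℂ := !![0, 1; 0, 0]
/-- a matrix unit. -/
def e21 : M2 ℂ := !![0, 0; 1, 0]

/-- the constant matrices of the walk. -/
noncomputable def cc : Fin 4 ⊕ Bool → M2 ℂ
  | .inl k => !![1, 0; 0, om k]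
  | .inr true => Xc
  | .inr false => Hc

theorem star_Xc : star Xc = Xc := by
  ext i j; fin_cases i <;> fin_cases j <;> simp [Xc, Matrix.star_apply]
theorem star_Zc : star Zc = Zc := by
  ext i j; fin_cases i <;> fin_cases j <;> simp [Zc, Matrix.star_apply]
theorem star_Hc : star Hc = Hc := by
  ext i j; fin_cases i <;> fin_cases j <;> simp [Hc, Matrix.star_apply]
theorem Xc_sq : Xc * Xc = 1 := by
  ext i j; fin_cases i <;> fin_cases j <;> simp [Xc, Matrix.mul_apply, Fin.sum_univ_two]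
theorem Zc_sq : Zc * Zc = 1 := by
  ext i j; fin_cases i <;> fin_cases j <;> simp [Zc, Matrix.mul_apply, Fin.sum_univ_two]
theorem Hc_sq : Hc * Hc = 1 := by
  ext i j; fin_cases i <;> fin_cases j <;> simp [Hc, Matrix.mul_apply, Fin.sum_univ_two] <;>
    norm_num

theorem Xc_mem : Xc ∈ unitary (M2 ℂ) := by rw [Unitary.mem_iff, star_Xc, Xc_sq]; exact ⟨rfl, rfl⟩
theorem Zc_mem : Zc ∈ unitary (M2 ℂ) := by rw [Unitary.mem_iff, star_Zc, Zc_sq]; exact ⟨rfl, rfl⟩
theorem Hc_mem : Hc ∈ unitary (M2 ℂ) := by rw [Unitary.mem_iff, star_Hc, Hc_sq]; exact ⟨rfl, rfl⟩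

theorem om_mul_conj (k : Fin 4) : om k * star (om k) = 1 := by
  fin_cases k <;> simp [om]

theorem norm_om (k : Fin 4) : ‖om k‖ = 1 := by
  fin_cases k <;> simp [om]

theorem cc_mem (c : Fin 4 ⊕ Bool) : cc c ∈ unitary (M2 ℂ) := by
  rcases c with k | _ | _
  · have h := om_mul_conj k
    have h' : star (om k) * om k = 1 := by rw [mul_comm, h]
    rw [Unitary.mem_iff]
    constructor <;> ext i j <;> fin_cases i <;> fin_cases j <;>
      simp [cc, Matrix.mul_apply, Fin.sum_univ_two, Matrix.star_apply] <;> assumption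
  · exact Hc_mem
  · exact Xc_mem

/-- constant unitaries. -/
noncomputable def cU (B : Type*) [Ring B] [StarRing B] [Algebra ℂ B] [StarModule ℂ B]
    (c : Fin 4 ⊕ Bool) : unitary (M2 B) := ⟨cst B (cc c), cst_mem_unitary (cc_mem c)⟩

theorem coe_cU (c : Fin 4 ⊕ Bool) : (cU B c : M2 B) = cst B (cc c) := rfl

theorem cU_zero : cU B (.inl 0) = 1 := by
  refine Subtype.ext ?_
  rw [coe_cU, show cc (.inl 0) = 1 by
    ext i j; fin_cases i <;> fin_cases j <;> simp [cc, om], map_one]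
  rfl

/-- the steps of the walk. -/
noncomputable def UW {κ : Type*} (u : κ → unitary B) : (Fin 4 ⊕ Bool) × Bool × κ → unitary (M2 B) :=
  fun w => cU B w.1 * dU w.2.1 (u w.2.2)

/-- evaluation of an amplified bilinear map at `(X, Y)`, as a linear map. -/
noncomputable def hatL (X Y : M2 B) : Bil B K →ₗ[ℂ] KM (Fin 2) K where
  toFun a := hat a X Y
  map_add' a b := hat_add a b X Y
  map_smul' c a := hat_smul c a X Y

/-- evaluation of an amplified bilinear map at `(g, g*)`. -/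
noncomputable def ph (a : Bil B K) (g : unitary (M2 B)) : KM (Fin 2) K :=
  hat a (g : M2 B) (star (g : M2 B))

theorem ph_eq (a : Bil B K) (g : unitary (M2 B)) :
    ph a g = hatL (g : M2 B) (star (g : M2 B)) a := rfl

/-- translation by a unitary, as a linear map. -/
noncomputable def tuL (x : unitary B) : Bil B K →ₗ[ℂ] Bil B K where
  toFun a := tr a x (star (x : B))
  map_add' a b := by ext; simp
  map_smul' c a := by ext; simp

/-- translation by a unitary. -/
noncomputable def tu (a : Bil B K) (x : unitary B) : Bil B K := tuL x a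

@[simp] theorem tu_apply (a : Bil B K) (x : unitary B) (p q : B) :
    tu a x p q = a (p * x) (star (x : B) * q) := rfl

theorem tu_one (a : Bil B K) : tu a 1 = a := by ext; simp

theorem tu_tu (a : Bil B K) (x y : unitary B) : tu (tu a x) y = tu a (y * x) := by
  ext; simp [mul_assoc]

/-- the averaging operator on bilinear maps. -/
noncomputable def Tm {κ : Type*} [Fintype κ] (u : κ → unitary B) (a : Bil B K) : Bil B K :=
  step u (tu a) 1

theorem tu_Tm {κ : Type*} [Fintype κ] (u : κ → unitary B) (a : Bil B K) :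
    tu (Tm u a) = step u (tu a) := by
  funext y
  rw [Tm, tu, ← step_map]
  change step u (fun p => tu (tu a p) y) 1 = _
  simp [step, tu_tu]

theorem Tm_apply {κ : Type*} [Fintype κ] (u : κ → unitary B) (a : Bil B K) (p q : B) :
    Tm u a p q = (2⁻¹ : ℂ) • a p q +
      (2 * (Fintype.card κ : ℂ))⁻¹ • ∑ i, a (p * u i) (star (u i : B) * q) := by
  simp [Tm, step, LinearMap.sum_apply]

theorem Tm_sub {κ : Type*} [Fintype κ] (u : κ → unitary B) (a b : Bil B K) :
    Tm u (a - b) = Tm u a - Tm u b := by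
  ext p q
  simp only [Tm_apply, LinearMap.sub_apply, Finset.sum_sub_distrib, smul_sub]
  abel

theorem ph_cU (a : Bil B K) (g : unitary (M2 B)) (c : Fin 4 ⊕ Bool) :
    ph a (g * cU B c) = ph a g := by
  simp only [ph, Submonoid.coe_mul, star_mul]
  rw [coe_cU, hat_cst, ← mul_assoc, ← coe_cU, (cU B c).2.2, one_mul]

theorem ph_dU (a : Bil B K) (g : unitary (M2 B)) (x : unitary B) :
    ph a (g * dU true x) + ph a (g * dU false x) = ph a g + ph (tu a x) g := by
  ext ik
  simp only [ph, Submonoid.coe_mul, star_mul, dU_true, dU_false, star_dg, PiLp.add_apply, hat_dg]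
  simp only [hat_apply, Fin.sum_univ_two, tu_apply, star_one, mul_one, one_mul]
  abel

theorem PavV_ph {κ : Type*} [Fintype κ] [Nonempty κ] (u : κ → unitary B) (a : Bil B K) :
    PavV (UW u) (ph a) = ph (Tm u a) := by
  funext g
  have hN : (Fintype.card κ : ℂ) ≠ 0 := by exact_mod_cast Fintype.card_ne_zero
  have h1 : ∀ c : Fin 4 ⊕ Bool, ∑ w : Bool × κ, ph a (g * UW u (c, w)) =
      (Fintype.card κ : ℂ) • ph a g + ∑ i, ph (tu a (u i)) g := fun c => by
    rw [Fintype.sum_prod_type, Finset.sum_comm]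
    simp only [UW, ← mul_assoc, Fintype.sum_bool, ph_dU, ph_cU, Finset.sum_add_distrib,
      Finset.sum_const, Finset.card_univ, Nat.cast_smul_eq_nsmul]
  have h2 : ph (Tm u a) g = (2⁻¹ : ℂ) • ph a g +
      (2 * (Fintype.card κ : ℂ))⁻¹ • ∑ i, ph (tu a (u i)) g := by
    simp only [ph_eq, Tm, step, map_add, map_smul, map_sum, tu_one, one_mul]
  rw [PavV, Fintype.sum_prod_type, h2]
  simp only [h1, Finset.sum_const, Finset.card_univ, Fintype.card_prod, Fintype.card_sum,
    Fintype.card_fin, Fintype.card_bool, ← Nat.cast_smul_eq_nsmul ℂ, smul_add, smul_smul]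
  push_cast
  congr 2 <;> field_simp

theorem norm_ph_dU_le {L : B →ₗ[ℂ] K →L[ℂ] K} (hL : IsRep L) {a : Bil B K}
    (ha : ∀ z x y, a (z * x) y = L z (a x y)) (g : unitary (M2 B)) (b : Bool) (x : unitary B) :
    ‖ph a (g * dU b x) - ph a g‖ ≤ ‖ph (tu a x) g - ph a g‖ := by
  have ha' : ∀ z p q, (tu a x - a) (z * p) q = L z ((tu a x - a) p q) := fun z p q => by
    simp [mul_assoc, ha]
  set e : M2 B := dg (if b then 1 else 0) (if b then 0 else 1) with he
  have hee : e * e = e := by rw [he, dg_mul]; cases b <;> simp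
  have hse : star e = e := by rw [he, star_dg]; cases b <;> simp
  have h1 : ph a (g * dU b x) - ph a g =
      Lm L ((g : M2 B) * e * star (g : M2 B)) (ph (tu a x) g - ph a g) := by
    rw [ph, ph, ph, ← hat_sub, ← hat_left ha', mul_assoc, g.2.1, mul_one]
    ext ik
    have h2 := hat_dg (tu a x - a) (g : M2 B) (star (g : M2 B)) (if b then 1 else 0)
      (if b then 0 else 1) 1 1 ik
    rw [dg_one, one_mul] at h2
    rw [h2]
    cases b
    · simp only [Submonoid.coe_mul, star_mul, dU_false, star_dg, PiLp.sub_apply, hat_dg]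
      simp [Fin.sum_univ_two]
    · simp only [Submonoid.coe_mul, star_mul, dU_true, star_dg, PiLp.sub_apply, hat_dg]
      simp [Fin.sum_univ_two]
  rw [h1]
  refine (isRep_Lm hL).norm_proj_le ?_ _
  rw [star_mul, star_mul, star_star, hse]
  calc (g : M2 B) * (e * star (g : M2 B)) * (g * e * star (g : M2 B))
      = g * (e * (star (g : M2 B) * g) * e) * star (g : M2 B) := by simp only [mul_assoc]
    _ = _ := by rw [g.2.1, mul_one, hee]

theorem var_ph_le {κ : Type*} [Fintype κ] [Nonempty κ] (u : κ → unitary B)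
    {L : B →ₗ[ℂ] K →L[ℂ] K} (hL : IsRep L) {a : Bil B K}
    (ha : ∀ z x y, a (z * x) y = L z (a x y)) (g : unitary (M2 B)) :
    Var (UW u) (ph a) g ≤ (Fintype.card κ : ℝ)⁻¹ * ∑ i, ‖ph (tu a (u i)) g - ph a g‖ ^ 2 := by
  have hN : (0 : ℝ) < Fintype.card κ := by exact_mod_cast Fintype.card_pos
  have h1 := var_add (UW u) (ph a) g (ph a g)
  have h2 : ∀ w : (Fin 4 ⊕ Bool) × Bool × κ, ‖ph a (g * UW u w) - ph a g‖ ^ 2 ≤
      ‖ph (tu a (u w.2.2)) g - ph a g‖ ^ 2 := fun w => by
    have := norm_ph_dU_le hL ha (g * cU B w.1) w.2.1 (u w.2.2)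
    rw [ph_cU, ph_cU, mul_assoc] at this
    rw [UW]
    gcongr
  have h3 : ∑ w : (Fin 4 ⊕ Bool) × Bool × κ, ‖ph a (g * UW u w) - ph a g‖ ^ 2 ≤
      12 * ∑ i, ‖ph (tu a (u i)) g - ph a g‖ ^ 2 := by
    refine (Finset.sum_le_sum fun w _ => h2 w).trans_eq ?_
    simp only [Fintype.sum_prod_type, Finset.sum_const, Finset.card_univ, Fintype.card_sum,
      Fintype.card_fin, Fintype.card_bool, nsmul_eq_mul]
    push_cast; ring
  have h4 : (Fintype.card ((Fin 4 ⊕ Bool) × Bool × κ) : ℝ) = 12 * Fintype.card κ := by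
    simp only [Fintype.card_prod, Fintype.card_sum, Fintype.card_fin, Fintype.card_bool]
    push_cast; ring
  rw [h4] at h1
  have h5 : (12 * (Fintype.card κ : ℝ))⁻¹ * ∑ w : (Fin 4 ⊕ Bool) × Bool × κ,
      ‖ph a (g * UW u w) - ph a g‖ ^ 2 ≤
      (12 * (Fintype.card κ : ℝ))⁻¹ * (12 * ∑ i, ‖ph (tu a (u i)) g - ph a g‖ ^ 2) := by gcongr
  have h6 : (12 * (Fintype.card κ : ℝ))⁻¹ * (12 * ∑ i, ‖ph (tu a (u i)) g - ph a g‖ ^ 2) =
      (Fintype.card κ : ℝ)⁻¹ * ∑ i, ‖ph (tu a (u i)) g - ph a g‖ ^ 2 := by field_simp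
  nlinarith [sq_nonneg ‖PavV (UW u) (ph a) g - ph a g‖]

/-- twisted differences. -/
noncomputable def tw (a : Bil B K) (x y : B) : Bil B K := tr a x y - tr a 1 (x * y)

@[simp] theorem tw_apply (a : Bil B K) (x y p q : B) :
    tw a x y p q = a (p * x) (y * q) - a p (x * y * q) := by simp [tw]

theorem tw_sub (a b : Bil B K) (x y : B) : tw (a - b) x y = tw a x y - tw b x y := by
  ext; simp; abel

theorem fourier (a : Bil B K) (g W : unitary (M2 B)) :
    ∑ k : Fin 4, om k • ph a (g * cU B (.inl k) * W) =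
      (4 : ℂ) • hat a ((g : M2 B) * dg 1 0 * (W : M2 B)) (star (W : M2 B) * dg 0 1 * star (g : M2 B)) := by
  have h1 : ∀ k : Fin 4, (cU B (.inl k) : M2 B) = dg 1 0 + om k • dg 0 1 := fun k => by
    rw [coe_cU]
    ext i j; fin_cases i <;> fin_cases j <;> simp [cst_apply, cc, dg]
  have h2 : star (dg (1 : B) 0) = dg 1 0 := by rw [star_dg]; simp
  have h3 : star (dg (0 : B) 1) = dg 0 1 := by rw [star_dg]; simp
  simp only [ph, Submonoid.coe_mul, star_mul, h1, star_add, star_smul, h2, h3, mul_add, add_mul,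
    mul_smul_comm, smul_mul_assoc, map_add, map_smul, LinearMap.add_apply, LinearMap.smul_apply,
    ← mul_assoc]
  generalize hat a ((g : M2 B) * dg 1 0 * (W : M2 B)) (star (W : M2 B) * dg 1 0 * star (g : M2 B)) = A1
  generalize hat a ((g : M2 B) * dg 1 0 * (W : M2 B)) (star (W : M2 B) * dg 0 1 * star (g : M2 B)) = A2
  generalize hat a ((g : M2 B) * dg 0 1 * (W : M2 B)) (star (W : M2 B) * dg 1 0 * star (g : M2 B)) = A3
  generalize hat a ((g : M2 B) * dg 0 1 * (W : M2 B)) (star (W : M2 B) * dg 0 1 * star (g : M2 B)) = A4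
  simp only [Fin.sum_univ_four, om, Matrix.cons_val_zero, Matrix.cons_val_one, Matrix.cons_val,
    star_one, star_neg, Complex.star_def, Complex.conj_I, smul_add, smul_smul]
  have hI := Complex.I_mul_I
  match_scalars <;> ring_nf <;> simp <;> norm_num

/-- the auxiliary unitary. -/
noncomputable def Wa (x y : unitary B) : unitary (M2 B) :=
  dU false y⁻¹ * dU true x * cU B (.inr false) * dU false x⁻¹

theorem coe_Wa (x y : unitary B) : (Wa x y : M2 B) =
    !![(3 / 5 : ℂ) • (x : B), (4 / 5 : ℂ) • (1 : B);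
      (4 / 5 : ℂ) • star (y : B), (-(3 / 5) : ℂ) • (star (y : B) * star (x : B))] := by
  simp only [Wa, Submonoid.coe_mul, dU_true, dU_false, coe_cU, ← Unitary.star_eq_inv,
    Unitary.coe_star]
  ext i j
  simp only [Matrix.mul_apply, Fin.sum_univ_two, cst_apply]
  fin_cases i <;> fin_cases j <;> simp [dg, cc, Hc]

theorem hat_Wa (a : Bil B K) (g : M2 B) (h : M2 B) (x y : unitary B) :
    hat a (g * dg 1 0 * (Wa x y : M2 B)) (star (Wa x y : M2 B) * dg 0 1 * h) =
      (12 / 25 : ℂ) • hat (tw a x y) (g * cst B e12) h := by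
  rw [coe_Wa]
  ext ik
  simp [dg, e12, cst_apply, Matrix.mul_apply, Fin.sum_univ_two, Matrix.star_apply, smul_sub,
    smul_smul, sub_eq_add_neg]
  norm_num

section extract
variable {κ : Type*} {u : κ → unitary B} {i₁ : κ} {σ : κ → κ}

theorem isW_dU (b : Bool) {n : ℕ} {x : unitary B} (hx : IsW u n x) : IsW (UW u) n (dU b x) :=
  hx.map (dU b) fun i => ⟨(.inl 0, b, i), by simp [UW, cU_zero]⟩

theorem isW_cU (h1 : u i₁ = 1) (c : Fin 4 ⊕ Bool) : IsW (UW u) 1 (cU B c) := by
  have := IsW.gen (s := UW u) (c, true, i₁)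
  simpa [UW, h1] using this

theorem isW_Wa (h1 : u i₁ = 1) (hσ : ∀ i, u (σ i) = (u i)⁻¹) {n : ℕ} {x y : unitary B}
    (hx : IsW u n x) (hy : IsW u n y) : IsW (UW u) (3 * n + 1) (Wa x y) :=
  ((((isW_dU false (hy.inv σ hσ)).mul (isW_dU true hx)).mul (isW_cU h1 _)).mul
    (isW_dU false (hx.inv σ hσ))).mono (by omega)

theorem extract_one (h1 : u i₁ = 1) (hσ : ∀ i, u (σ i) = (u i)⁻¹) {n : ℕ} {x y : unitary B}
    (hx : IsW u n x) (hy : IsW u n y) (a : Bil B K) (g : unitary (M2 B)) {e : ℝ}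
    (ho : ∀ h, IsW (UW u) (3 * n + 3) h → ‖ph a (g * h) - ph a g‖ ≤ e) (c : Fin 4 ⊕ Bool) :
    ‖hat (tw a x y) ((g : M2 B) * cst B (cc c * e12 * star (cc c))) (star (g : M2 B))‖ ≤
      25 / 12 * e := by
  have h2 := fourier a (g * cU B c) (Wa x y)
  rw [hat_Wa, smul_smul] at h2
  have h3 : hat (tw a x y) (((g * cU B c : unitary (M2 B)) : M2 B) * cst B e12)
      (star ((g * cU B c : unitary (M2 B)) : M2 B)) =
      hat (tw a x y) ((g : M2 B) * cst B (cc c * e12 * star (cc c))) (star (g : M2 B)) := by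
    rw [Submonoid.coe_mul, star_mul, coe_cU, star_cst, ← hat_cst, map_mul (cst B), map_mul (cst B)]
    simp only [mul_assoc]
  rw [h3] at h2
  have h4 : ∑ k : Fin 4, om k • ph a g = 0 := by
    rw [← Finset.sum_smul]; simp [Fin.sum_univ_four, om]
  have h5 : ‖∑ k : Fin 4, om k • (ph a (g * cU B c * cU B (.inl k) * Wa x y) - ph a g)‖ ≤
      4 * e := by
    refine (norm_sum_le _ _).trans ((Finset.sum_le_sum (g := fun _ => e) fun k _ => ?_).trans_eq
      (by simp))
    rw [norm_smul, norm_om, one_mul, mul_assoc, mul_assoc]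
    exact ho _ (((isW_cU h1 c).mul ((isW_cU h1 _).mul (isW_Wa h1 hσ hx hy))).mono (by omega))
  simp only [smul_sub, Finset.sum_sub_distrib, h4, sub_zero, h2, norm_smul] at h5
  have h6 : ‖(4 * (12 / 25) : ℂ)‖ = 48 / 25 := by simp; norm_num
  rw [h6] at h5
  linarith

theorem extract (h1 : u i₁ = 1) (hσ : ∀ i, u (σ i) = (u i)⁻¹) {n : ℕ} {x y : unitary B}
    (hx : IsW u n x) (hy : IsW u n y) (a : Bil B K) (g : unitary (M2 B)) {e : ℝ}
    (ho : ∀ h, IsW (UW u) (3 * n + 3) h → ‖ph a (g * h) - ph a g‖ ≤ e) :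
    ‖hat (tw a x y) ((g : M2 B) * cst B Xc) (star (g : M2 B))‖ ≤ 9 * e ∧
    ‖hat (tw a x y) ((g : M2 B) * cst B Zc) (star (g : M2 B))‖ ≤ 9 * e ∧
    ‖hat (tw a x y) ((g : M2 B) * cst B (Xc * Zc)) (star (g : M2 B))‖ ≤ 9 * e := by
  have he : 0 ≤ e := (norm_nonneg _).trans (ho 1 (IsW.one _))
  have e1 := extract_one h1 hσ hx hy a g ho (.inl 0)
  have e2 := extract_one h1 hσ hx hy a g ho (.inr true)
  have e3 := extract_one h1 hσ hx hy a g ho (.inr false)
  have f1 : cc (.inl 0) * e12 * star (cc (.inl 0)) = e12 := by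
    ext i j; fin_cases i <;> fin_cases j <;>
      simp [cc, om, e12, Matrix.mul_apply, Fin.sum_univ_two, Matrix.star_apply]
  have f2 : cc (.inr true) * e12 * star (cc (.inr true)) = e21 := by
    ext i j; fin_cases i <;> fin_cases j <;>
      simp [cc, Xc, e12, e21, Matrix.mul_apply, Fin.sum_univ_two, Matrix.star_apply]
  rw [f1] at e1
  rw [f2] at e2
  have gX : Xc = e12 + e21 := by ext i j; fin_cases i <;> fin_cases j <;> simp [Xc, e12, e21]
  have gXZ : Xc * Zc = e21 - e12 := by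
    ext i j; fin_cases i <;> fin_cases j <;>
      simp [Xc, Zc, e12, e21, Matrix.mul_apply, Fin.sum_univ_two]
  have gZ : Zc = (25 / 12 : ℂ) • (cc (.inr false) * e12 * star (cc (.inr false))) +
      (3 / 4 : ℂ) • e12 - (4 / 3 : ℂ) • e21 := by
    rw [cc, star_Hc]
    ext i j; fin_cases i <;> fin_cases j <;>
      simp [Hc, Zc, e12, e21, Matrix.mul_apply, Fin.sum_univ_two] <;> norm_num
  refine ⟨?_, ?_, ?_⟩
  · rw [gX, map_add, mul_add, map_add, LinearMap.add_apply]
    have := (norm_add_le _ _).trans (add_le_add e1 e2)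
    linarith
  · rw [gZ]
    simp only [map_add, map_sub, map_smul, mul_add, mul_sub, mul_smul_comm, LinearMap.add_apply,
      LinearMap.sub_apply, LinearMap.smul_apply]
    refine (norm_sub_le _ _).trans ((add_le_add_left (norm_add_le _ _) _).trans ?_)
    simp only [norm_smul]
    have n1 : ‖(25 / 12 : ℂ)‖ = 25 / 12 := by simp
    have n2 : ‖(3 / 4 : ℂ)‖ = 3 / 4 := by simp
    have n3 : ‖(4 / 3 : ℂ)‖ = 4 / 3 := by simp
    rw [n1, n2, n3]
    linarith
  · rw [gXZ, map_sub, mul_sub, map_sub, LinearMap.sub_apply]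
    have := (norm_sub_le _ _).trans (add_le_add e2 e1)
    linarith

end extract

end alg

end Pool.Agent.MP_890ef7_an

end

section

/-! Relative estimates for almost commuting actions. -/

open scoped InnerProductSpace

namespace Pool.Agent.MP_890ef7_an

variable {B : Type*} [NormedRing B] [StarRing B] [NormedAlgebra ℂ B] [StarModule ℂ B]
  {K : Type*} [NormedAddCommGroup K] [InnerProductSpace ℂ K]

/-- almost commuting contractive left and right actions. -/
structure Setup (L R : B →ₗ[ℂ] K →L[ℂ] K) (γ : ℝ) : Prop where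
  hB : ∀ a b : B, star a * a + star b * b = 1 → ‖a‖ ≤ 1
  rep : IsRep L
  anti : IsAnti R
  nL : ∀ x η, ‖L x η‖ ≤ ‖x‖ * ‖η‖
  nR : ∀ x η, ‖R x η‖ ≤ ‖x‖ * ‖η‖
  γ0 : 0 ≤ γ
  comm : ∀ x y η, ‖L x (R y η) - R y (L x η)‖ ≤ γ * ‖x‖ * ‖y‖ * ‖η‖

/-- left modular bilinear maps. -/
def LMod (L : B →ₗ[ℂ] K →L[ℂ] K) (a : Bil B K) : Prop := ∀ z x y, a (z * x) y = L z (a x y)

/-- right modular bilinear maps. -/
def RMod (R : B →ₗ[ℂ] K →L[ℂ] K) (a : Bil B K) : Prop := ∀ x y z, a x (y * z) = R z (a x y)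

variable {L R : B →ₗ[ℂ] K →L[ℂ] K} {γ : ℝ}

theorem LMod.tw {a : Bil B K} (h : LMod L a) (x y : B) : LMod L (tw a x y) := fun z p q => by
  simp [mul_assoc, h z]

theorem RMod.tw {a : Bil B K} (h : RMod R a) (x y : B) : RMod R (tw a x y) := fun p q z => by
  simp only [tw_apply, ← mul_assoc, h _ _ z, map_sub]

theorem LMod.Tm {κ : Type*} [Fintype κ] (u : κ → unitary B) {a : Bil B K} (h : LMod L a) :
    LMod L (Tm u a) := fun z p q => by
  simp only [Tm_apply, mul_assoc, h z, map_add, map_smul, map_sum]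

theorem RMod.Tm {κ : Type*} [Fintype κ] (u : κ → unitary B) {a : Bil B K} (h : RMod R a) :
    RMod R (Tm u a) := fun p q z => by
  simp only [Tm_apply, ← mul_assoc, h _ _ z, map_add, map_smul, map_sum]

theorem scal_mul_mem {v : B} (hv : v ∈ unitary B) {g : M2 B} (hg : g ∈ unitary (M2 B)) :
    scal v * g ∈ unitary (M2 B) := mul_mem (scal_mem_unitary hv) hg

theorem hat_tw_cst (a : Bil B K) (X Y : M2 B) (c : M2 ℂ) :
    hat a X (cst B c * Y) = hat a (X * cst B c) Y := (hat_cst a X Y c).symm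

theorem norm_tw_anti (hR : IsAnti R) {b : Bil B K} (hb : RMod R b) (x : B) {y : B}
    (hy : y ∈ unitary B) (g : unitary (M2 B)) :
    ‖hat (tw b x y) (g : M2 B) (star (g : M2 B))‖ = ‖hat (tw b x 1) (g : M2 B) 1‖ := by
  have h1 : hat (tw b x y) (g : M2 B) (star (g : M2 B)) =
      hat (tw b x 1) (g : M2 B) (1 * (scal y * star (g : M2 B))) := by
    ext ik; simp [scal, mul_assoc]
  have hu := scal_mul_mem hy (Unitary.star_mem g.2)
  rw [h1, hat_right (hb.tw x 1), (isAnti_Rm hR).norm_eq hu.2, ← hat_right (hb.tw x 1), one_mul]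

theorem norm_tw_rep (hL : IsRep L) {a : Bil B K} (ha : LMod L a) (v w : unitary B)
    (g : unitary (M2 B)) :
    ‖ph (tu a (v * w)) g - ph (tu a v) g‖ =
      ‖hat (tw a w ((w⁻¹ * v⁻¹ : unitary B) : B)) (g : M2 B) (star (g : M2 B))‖ := by
  have h1 : ph (tu a (v * w)) g - ph (tu a v) g =
      hat (tw a w ((w⁻¹ * v⁻¹ : unitary B) : B)) (((g : M2 B) * scal (v : B)) * 1)
        (star (g : M2 B)) := by
    ext ik
    simp [ph, scal, mul_assoc, ← Unitary.star_eq_inv, Finset.sum_sub_distrib,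
      Unitary.mul_star_self_of_mem w.2, ← mul_assoc (w : B) (star (w : B))]
  have hu : (g : M2 B) * scal (v : B) ∈ unitary (M2 B) := mul_mem g.2 (scal_mem_unitary v.2)
  rw [h1, hat_left (ha.tw _ _), (isRep_Lm hL).norm_eq hu.1, ← (isRep_Lm hL).norm_eq g.2.1,
    ← hat_left (ha.tw _ _), mul_one]

namespace Setup

theorem unit_le (hS : Setup L R γ) {v : B} (hv : v ∈ unitary B) : ‖v‖ ≤ 1 :=
  hS.hB v 0 (by simp [hv.1])

theorem one_le (hS : Setup L R γ) : ‖(1 : B)‖ ≤ 1 := hS.unit_le (one_mem _)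

theorem entry_le (hS : Setup L R γ) {g : M2 B} (hg : g ∈ unitary (M2 B)) (i j : Fin 2) :
    ‖g i j‖ ≤ 1 := by
  have h := congrFun (congrFun hg.1 j) j
  simp only [Matrix.mul_apply, Fin.sum_univ_two, Matrix.star_apply, Matrix.one_apply_eq] at h
  fin_cases i
  · exact hS.hB _ _ h
  · exact hS.hB _ _ (by rw [add_comm]; exact h)

theorem commM (hS : Setup L R γ) {X Y : M2 B} (hX : ∀ i j, ‖X i j‖ ≤ 1)
    (hY : ∀ i j, ‖Y i j‖ ≤ 1) (η : KM (Fin 2) K) :
    ‖Lm L X (Rm R Y η) - Rm R Y (Lm L X η)‖ ≤ 8 * γ * ‖η‖ := by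
  have := norm_comm_le hS.γ0 hS.comm hX hY η
  simp only [Fintype.card_fin] at this
  convert this using 3; norm_num

section
variable {κ : Type*} {u : κ → unitary B} {i₁ : κ} {σ : κ → κ}

theorem rel (hS : Setup L R γ) (h1 : u i₁ = 1) (hσ : ∀ i, u (σ i) = (u i)⁻¹) {n : ℕ}
    {x y : unitary B} (hx : IsW u n x) (hy : IsW u n y) {a b : Bil B K} (ha : LMod L a)
    (hb : RMod R b) (g : unitary (M2 B)) {e : ℝ}
    (ho : ∀ h, IsW (UW u) (3 * n + 3) h → ‖ph (a - b) (g * h) - ph (a - b) g‖ ≤ e) :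
    ‖hat (tw a x y) (g : M2 B) (star (g : M2 B)) - hat (tw b x y) (g : M2 B) (star (g : M2 B))‖ ≤
      27 * e + 24 * γ * ‖hat (tw b x y) (g : M2 B) (star (g : M2 B))‖ := by
  obtain ⟨e1, e2, e3⟩ := extract h1 hσ hx hy (a - b) g ho
  have hg1 : star (g : M2 B) * g = 1 := g.2.1
  have hg2 : (g : M2 B) * star (g : M2 B) = 1 := g.2.2
  have key : ∀ c : M2 ℂ, Lm L ((g : M2 B) * cst B c * star (g : M2 B))
      (hat (tw a x y) (g : M2 B) (star (g : M2 B))) -
      Rm R ((g : M2 B) * cst B c * star (g : M2 B))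
      (hat (tw b x y) (g : M2 B) (star (g : M2 B))) =
      hat (tw (a - b) x y) ((g : M2 B) * cst B c) (star (g : M2 B)) := fun c => by
    rw [← hat_left (ha.tw _ _), ← hat_right (hb.tw _ _), tw_sub, hat_sub, mul_assoc, hg1, mul_one,
      ← mul_assoc, ← mul_assoc, hg1, one_mul, hat_tw_cst]
  have hmem : ∀ c ∈ unitary (M2 ℂ), (g : M2 B) * cst B c * star (g : M2 B) ∈ unitary (M2 B) :=
    fun c hc => mul_mem (mul_mem g.2 (cst_mem_unitary hc)) (Unitary.star_mem g.2)
  have hmul : ∀ c d : M2 ℂ, (g : M2 B) * cst B c * star (g : M2 B) *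
      ((g : M2 B) * cst B d * star (g : M2 B)) = (g : M2 B) * cst B (c * d) * star (g : M2 B) :=
    fun c d => by
      calc _ = (g : M2 B) * (cst B c * (star (g : M2 B) * g) * cst B d) * star (g : M2 B) := by
            simp only [mul_assoc]
        _ = _ := by rw [hg1, mul_one, map_mul]
  have := chain_lemma (isRep_Lm hS.rep) (isAnti_Rm hS.anti) (c := 8 * γ) (e := 9 * e)
    (fun v hv w hw η => hS.commM (hS.entry_le hv) (hS.entry_le hw) η) (hmem _ Xc_mem)
    (hmem _ Zc_mem) (by rw [hmul, Xc_sq, map_one, mul_one, hg2])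
    (by rw [hmul, Zc_sq, map_one, mul_one, hg2])
    (α := hat (tw a x y) (g : M2 B) (star (g : M2 B)))
    (β := hat (tw b x y) (g : M2 B) (star (g : M2 B)))
    (by rw [← hat_left (ha.tw _ _), one_mul]) (by rw [← hat_right (hb.tw _ _), mul_one])
    (by rw [key]; exact e1) (by rw [key]; exact e2) (by rw [hmul, key]; exact e3)
  linarith

theorem approx_inv (hS : Setup L R γ) (hγ : γ ≤ 1 / 48) (h1 : u i₁ = 1)
    (hσ : ∀ i, u (σ i) = (u i)⁻¹) {n : ℕ} {v w : unitary B} (hv : IsW u n v) (hw : IsW u n w)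
    {a b : Bil B K} (ha : LMod L a) (hb : RMod R b) (g : unitary (M2 B)) {e : ℝ}
    (ho : ∀ h, IsW (UW u) (6 * n + 3) h → ‖ph (a - b) (g * h) - ph (a - b) g‖ ≤ e) :
    |‖ph (tu a (v * w)) g - ph (tu a v) g‖ - ‖ph (tu a w) g - ph a g‖| ≤
      108 * e + 96 * γ * ‖ph (tu a w) g - ph a g‖ := by
  have he : 0 ≤ e := (norm_nonneg _).trans (ho 1 (IsW.one _))
  have ho' : ∀ h, IsW (UW u) (3 * (n + n) + 3) h → ‖ph (a - b) (g * h) - ph (a - b) g‖ ≤ e :=
    fun h hh => ho h (hh.mono (by omega))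
  have r1 := hS.rel h1 hσ (hw.mono (Nat.le_add_right n n)) ((hw.inv σ hσ).mul (hv.inv σ hσ))
    ha hb g ho'
  have r2 := hS.rel h1 hσ (hw.mono (Nat.le_add_right n n)) ((hw.inv σ hσ).mul
    ((IsW.one (s := u) n).inv σ hσ)) ha hb g ho'
  have n1 := norm_tw_rep hS.rep ha v w g
  have n2 := norm_tw_rep hS.rep ha 1 w g
  rw [one_mul, tu_one] at n2
  have m1 := norm_tw_anti hS.anti hb (w : B) (w⁻¹ * v⁻¹ : unitary B).2 g
  have m2 := norm_tw_anti hS.anti hb (w : B) (w⁻¹ * (1 : unitary B)⁻¹ : unitary B).2 g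
  have a1 := (abs_norm_sub_norm_le _ _).trans r1
  have a2 := (abs_norm_sub_norm_le _ _).trans r2
  rw [← n1, m1] at a1
  rw [← n2, m2] at a2
  set N := ‖hat (tw b (w : B) 1) (g : M2 B) 1‖
  set A := ‖ph (tu a (v * w)) g - ph (tu a v) g‖
  set A' := ‖ph (tu a w) g - ph a g‖
  have hN : 0 ≤ N := norm_nonneg _
  have hγ0 := hS.γ0
  rw [abs_le] at a1 a2 ⊢
  have hN2 : N ≤ 2 * A' + 54 * e := by nlinarith
  have h3 : γ * N ≤ γ * (2 * A' + 54 * e) := by gcongr
  have h4 : γ * e ≤ 1 / 48 * e := by gcongr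
  constructor <;> nlinarith

end

end Setup

end Pool.Agent.MP_890ef7_an

end
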