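import Mathlib
import Pool.Agent.Mg.F890ef7p.G7e54e1
import Pool.Agent.MP_890ef7_an.Amp
import Pool.Agent.MP_890ef7_an.Defs
import Pool.Agent.Mg.F890ef7p.Gf1ad6b

section

/-! Extension of states, dilation of representations of a subalgebra, and gluing. -/

open scoped InnerProductSpace ComplexOrder ComplexConjugate

namespace Pool.Agent.MP_890ef7_an

universe v w

section state
variable {A : Type v} [CStarAlgebra A]

theorem norm_one_le_one : ‖(1 : A)‖ ≤ 1 := by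
  have h := CStarRing.norm_star_mul_self (x := (1 : A))
  rw [star_one, one_mul] at h
  nlinarith [norm_nonneg (1 : A)]

theorem im_eq_zero_of_state (φ : A →L[ℂ] ℂ) (hφ : ‖φ‖ ≤ 1) (h1 : φ 1 = 1) {h : A}
    (hh : IsSelfAdjoint h) : (φ h).im = 0 := by
  have key : ∀ t : ℝ, 2 * (φ h).im * t ≤ ‖h‖ ^ 2 := fun t => by
    set x := h + ((t : ℂ) * Complex.I) • (1 : A) with hx
    have e1 : star x * x = h * h + ((t ^ 2 : ℝ) : ℂ) • (1 : A) := by
      simp only [hx, star_add, star_smul, star_one, hh.star_eq, add_mul, mul_add, smul_mul_assoc,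
        mul_smul_comm, one_mul, mul_one, smul_add, smul_smul, star_mul', Complex.star_def,
        Complex.conj_ofReal, Complex.conj_I]
      have hI := Complex.I_mul_I
      match_scalars
      · ring
      · ring
      · linear_combination (-(t : ℂ) ^ 2) * hI
    have e2 : ‖x‖ ^ 2 ≤ ‖h‖ ^ 2 + t ^ 2 := by
      rw [sq, ← CStarRing.norm_star_mul_self, e1]
      refine (norm_add_le _ _).trans (add_le_add ((norm_mul_le _ _).trans_eq (sq _).symm) ?_)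
      rw [norm_smul, Complex.norm_real, Real.norm_of_nonneg (sq_nonneg _)]
      exact mul_le_of_le_one_right (sq_nonneg _) norm_one_le_one
    have e3 : ‖φ x‖ ≤ ‖x‖ := (φ.le_opNorm x).trans (mul_le_of_le_one_left (norm_nonneg _) hφ)
    have e4 : (φ x).im = (φ h).im + t := by simp [hx, h1]
    have e5 := Complex.abs_im_le_norm (φ x)
    have e6 : ((φ h).im + t) ^ 2 ≤ ‖x‖ ^ 2 := by
      rw [← e4, ← sq_abs]
      gcongr
      exact e5.trans e3
    nlinarith [sq_nonneg (φ h).im]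
  by_contra hne
  have := key ((‖h‖ ^ 2 + 1) / (2 * (φ h).im))
  rw [mul_div_cancel₀ _ (by simpa using hne)] at this
  linarith

theorem nonneg_of_state [PartialOrder A] [StarOrderedRing A] (φ : A →L[ℂ] ℂ) (hφ : ‖φ‖ ≤ 1)
    (h1 : φ 1 = 1) {p : A} (hp : 0 ≤ p) : 0 ≤ φ p := by
  have hsa : IsSelfAdjoint p := .of_nonneg hp
  refine Complex.nonneg_iff.2 ⟨?_, (im_eq_zero_of_state φ hφ h1 hsa).symm⟩
  have h2 : ‖algebraMap ℝ A ‖p‖ - p‖ ≤ ‖p‖ := by
    refine (CStarAlgebra.norm_le_norm_of_nonneg_of_le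
      (sub_nonneg.2 hsa.le_algebraMap_norm_self) (sub_le_self _ hp)).trans ?_
    rw [Algebra.algebraMap_eq_smul_one, norm_smul, norm_norm]
    exact mul_le_of_le_one_right (norm_nonneg _) norm_one_le_one
  have h3 := (Complex.re_le_norm _).trans ((φ.le_opNorm (algebraMap ℝ A ‖p‖ - p)).trans
    ((mul_le_of_le_one_left (norm_nonneg _) hφ).trans h2))
  rw [map_sub, Algebra.algebraMap_eq_smul_one, φ.map_smul_of_tower, h1] at h3
  simp at h3
  exact h3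

variable {N : Type*} [Ring N] [StarRing N] [Algebra ℂ N] {K : Type w} [NormedAddCommGroup K]
  [InnerProductSpace ℂ K] [CompleteSpace K]

theorem exists_state_ext [PartialOrder A] [StarOrderedRing A] (j : N →⋆ₐ[ℂ] A)
    (hj : Function.Injective j) (L : N →⋆ₐ[ℂ] (K →L[ℂ] K)) (hL : ∀ y, ‖L y‖ ≤ ‖j y‖) {ξ : K}
    (hξ : ‖ξ‖ = 1) : ∃ φ : A →ₚ[ℂ] ℂ, ∀ y, φ (j y) = ⟪ξ, L y ξ⟫_ℂ := by
  let jl : N →ₗ[ℂ] A := j.toAlgHom.toLinearMap
  let e := LinearEquiv.ofInjective jl hj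
  let f0 : N →ₗ[ℂ] ℂ :=
    { toFun := fun y => ⟪ξ, L y ξ⟫_ℂ
      map_add' := fun x y => by simp [inner_add_right]
      map_smul' := fun c x => by simp [inner_smul_right] }
  have hb : ∀ x : LinearMap.range jl, ‖(f0 ∘ₗ e.symm.toLinearMap) x‖ ≤ 1 * ‖x‖ := fun x => by
    obtain ⟨y, rfl⟩ := e.surjective x
    simp only [LinearMap.comp_apply, LinearEquiv.coe_coe, LinearEquiv.symm_apply_apply, one_mul]
    refine (norm_inner_le_norm ξ (L y ξ)).trans ?_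
    have := (L y).le_opNorm ξ
    rw [hξ, mul_one] at this
    rw [hξ, one_mul]
    exact this.trans (hL y)
  obtain ⟨g, hg, hn⟩ := exists_extension_norm_eq (LinearMap.range jl)
    ((f0 ∘ₗ e.symm.toLinearMap).mkContinuous 1 hb)
  have hgj : ∀ y, g (j y) = ⟪ξ, L y ξ⟫_ℂ := fun y => by
    have := hg (e y)
    simp only [LinearMap.mkContinuous_apply, LinearMap.comp_apply, LinearEquiv.coe_coe,
      LinearEquiv.symm_apply_apply] at this
    exact this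
  have hg1 : g 1 = 1 := by
    have := hgj 1
    rw [map_one j, map_one L] at this
    rw [this, ContinuousLinearMap.one_apply, inner_self_eq_norm_sq_to_K, hξ]; simp
  have hgn : ‖g‖ ≤ 1 := hn ▸ LinearMap.mkContinuous_norm_le _ zero_le_one hb
  exact ⟨PositiveLinearMap.mk₀ g.toLinearMap fun p hp => nonneg_of_state g hgn hg1 hp, hgj⟩

theorem exists_cyclic_family (L : N →⋆ₐ[ℂ] (K →L[ℂ] K)) :
    ∃ Z : Set K, (∀ z ∈ Z, ‖z‖ = 1) ∧ (∀ z ∈ Z, ∀ z' ∈ Z, z ≠ z' → ∀ y, ⟪z, L y z'⟫_ℂ = 0) ∧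
      DenseRange (Finsupp.linearCombination ℂ fun p : Z × N => L p.2 p.1) := by
  obtain ⟨Z, hZ⟩ := zorn_subset
    {Z : Set K | (∀ z ∈ Z, ‖z‖ = 1) ∧ ∀ z ∈ Z, ∀ z' ∈ Z, z ≠ z' → ∀ y, ⟪z, L y z'⟫_ℂ = 0}
    fun c hc hch => ⟨⋃₀ c, ⟨fun z ⟨s, hs, hz⟩ => (hc hs).1 z hz,
      fun z ⟨s, hs, hz⟩ z' ⟨s', hs', hz'⟩ hne y => by
        rcases hch.total hs hs' with h | h
        · exact (hc hs').2 z (h hz) z' hz' hne y
        · exact (hc hs).2 z hz z' (h hz') hne y⟩, fun s hs => Set.subset_sUnion_of_mem hs⟩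
  refine ⟨Z, hZ.prop.1, hZ.prop.2, ?_⟩
  set T := Finsupp.linearCombination ℂ fun p : Z × N => L p.2 p.1 with hT
  change Dense (LinearMap.range T : Set K)
  rw [Submodule.dense_iff_topologicalClosure_eq_top, Submodule.topologicalClosure_eq_top_iff,
    Submodule.eq_bot_iff]
  intro η hη
  by_contra hne
  have hn : ‖η‖ ≠ 0 := by simpa using hne
  have horth : ∀ z ∈ Z, ∀ y, ⟪L y z, η⟫_ℂ = 0 := fun z hz y =>
    hη _ ⟨Finsupp.single (⟨z, hz⟩, y) 1, by simp [hT]⟩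
  set η' := ((‖η‖⁻¹ : ℝ) : ℂ) • η with hη'
  have hn' : ‖η'‖ = 1 := by rw [hη', norm_smul]; simp [hn]
  have horth' : ∀ z ∈ Z, ∀ y, ⟪L y z, η'⟫_ℂ = 0 := fun z hz y => by
    rw [hη', inner_smul_right, horth z hz, mul_zero]
  have hmem : η' ∈ Z := by
    refine hZ.le_of_ge (y := insert η' Z) ⟨?_, ?_⟩ (Set.subset_insert _ _) (Set.mem_insert _ _)
    · rintro z (rfl | hz)
      · exact hn'
      · exact hZ.prop.1 z hz
    · rintro z (rfl | hz) z' (rfl | hz') hne y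
      · exact absurd rfl hne
      · rw [← inner_conj_symm, horth' z' hz', map_zero]
      · rw [← ContinuousLinearMap.adjoint_inner_left, ← ContinuousLinearMap.star_eq_adjoint,
          ← map_star, horth' z hz]
      · exact hZ.prop.2 z hz z' hz' hne y
  have := horth' η' hmem 1
  rw [map_one, ContinuousLinearMap.one_apply, inner_self_eq_zero] at this
  rw [this, norm_zero] at hn'
  exact zero_ne_one hn'

theorem norm_lc_le_of_gram {X E : Type*} [NormedAddCommGroup E] [InnerProductSpace ℂ E]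
    (v w w' : X → E) {c : ℝ} (hc : 0 ≤ c)
    (h : ∀ p q, ⟪w p, w q⟫_ℂ + ⟪w' p, w' q⟫_ℂ = ((c ^ 2 : ℝ) : ℂ) * ⟪v p, v q⟫_ℂ) (f : X →₀ ℂ) :
    ‖Finsupp.linearCombination ℂ w f‖ ≤ c * ‖Finsupp.linearCombination ℂ v f‖ := by
  have h1 : ⟪Finsupp.linearCombination ℂ w f, Finsupp.linearCombination ℂ w f⟫_ℂ +
      ⟪Finsupp.linearCombination ℂ w' f, Finsupp.linearCombination ℂ w' f⟫_ℂ =
      ((c ^ 2 : ℝ) : ℂ) *
        ⟪Finsupp.linearCombination ℂ v f, Finsupp.linearCombination ℂ v f⟫_ℂ := by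
    simp only [inner_lc, Finsupp.sum, Finset.mul_sum, ← Finset.sum_add_distrib]
    refine Finset.sum_congr rfl fun p _ => Finset.sum_congr rfl fun q _ => ?_
    linear_combination (conj (f p) * f q) * h p q
  have h2 : ‖Finsupp.linearCombination ℂ w f‖ ^ 2 + ‖Finsupp.linearCombination ℂ w' f‖ ^ 2 =
      c ^ 2 * ‖Finsupp.linearCombination ℂ v f‖ ^ 2 := by
    have := congrArg Complex.re h1
    simp only [Complex.add_re, Complex.re_ofReal_mul] at this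
    simpa only [← RCLike.re_to_complex, inner_self_eq_norm_sq] using this
  refine le_of_sq_le_sq ?_ (by positivity)
  nlinarith [sq_nonneg ‖Finsupp.linearCombination ℂ w' f‖]

theorem dilate_one (j : N →⋆ₐ[ℂ] A) (hj : Function.Injective j) (L : N →⋆ₐ[ℂ] (K →L[ℂ] K))
    (hL : ∀ y, ‖L y‖ ≤ ‖j y‖) :
    ∃ (E : Type (max v w)) (_ : NormedAddCommGroup E) (_ : InnerProductSpace ℂ E)
      (_ : CompleteSpace E) (V : K →L[ℂ] E) (lam : A →ₗ[ℂ] E →L[ℂ] E), IsRep lam ∧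
      (∀ x η, ‖lam x η‖ ≤ ‖x‖ * ‖η‖) ∧ (∀ a b, ⟪V a, V b⟫_ℂ = ⟪a, b⟫_ℂ) ∧
      ∀ y a, lam (j y) (V a) = V (L y a) := by
  classical
  letI := CStarAlgebra.spectralOrder A
  haveI := CStarAlgebra.spectralOrderedRing A
  obtain ⟨Z, hZ1, hZ2, hZ3⟩ := exists_cyclic_family L
  choose φ hφ using fun z : Z => exists_state_ext j hj L hL (hZ1 z z.2)
  let k : Z × A → Z × A → ℂ := fun p q => if p.1 = q.1 then φ p.1 (star p.2 * q.2) else 0
  have hk : (Matrix.of k).PosSemidef := by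
    refine psd_congr (psd_gram fun p : Z × A => (lp.single 2 p.1
      (((φ p.1).toPreGNS p.2 : (φ p.1).PreGNS) : (φ p.1).GNS) : lp (fun z => (φ z).GNS) 2))
      fun p q => ?_
    obtain ⟨z, a⟩ := p
    obtain ⟨z', b⟩ := q
    simp only [Matrix.of_apply, lp.inner_single_left, k]
    by_cases h : z = z'
    · subst h
      rw [if_pos rfl, lp.single_apply_self, UniformSpace.Completion.inner_coe]
      rfl
    · rw [if_neg h, lp.single_apply_ne _ _ _ h, inner_zero_right]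
  obtain ⟨E, _, _, _, v, hv, hd⟩ := exists_kolm k hk
  have hT : ∀ x : A, ∃ T : E →L[ℂ] E, ‖T‖ ≤ ‖x‖ ∧ ∀ p, T (v p) = v (p.1, x * p.2) := fun x => by
    have h0 : 0 ≤ algebraMap ℝ A (‖x‖ ^ 2) - star x * x := by
      rw [sub_nonneg, sq, ← CStarRing.norm_star_mul_self]
      exact (IsSelfAdjoint.star_mul_self x).le_algebraMap_norm_self
    set y := CFC.sqrt (algebraMap ℝ A (‖x‖ ^ 2) - star x * x) with hy
    have hy1 : star y * y = algebraMap ℝ A (‖x‖ ^ 2) - star x * x := by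
      rw [(IsSelfAdjoint.of_nonneg (CFC.sqrt_nonneg _)).star_eq]
      exact CFC.sqrt_mul_sqrt_self _ h0
    refine exists_clm_of_bound v hd _ (norm_nonneg x)
      (norm_lc_le_of_gram v _ (fun p => v (p.1, y * p.2)) (norm_nonneg x) fun p q => ?_)
    simp only [hv, k]
    split_ifs with h
    · rw [← map_add, ← smul_eq_mul (a := ((‖x‖ ^ 2 : ℝ) : ℂ)), ← map_smul]
      congr 1
      have e : star (x * p.2) * (x * q.2) + star (y * p.2) * (y * q.2) =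
          star p.2 * (star x * x + star y * y) * q.2 := by
        simp only [star_mul, mul_add, add_mul, mul_assoc]
      rw [e, hy1, add_sub_cancel, Algebra.algebraMap_eq_smul_one, Complex.coe_smul]
      simp
    · simp
  choose T hTn hTv using hT
  have hadd : ∀ z a b, v (z, a + b) = v (z, a) + v (z, b) := fun z a b =>
    inner_ext_of_dense v hd fun p => by
      simp only [inner_add_right, hv, k]; split_ifs <;> simp [mul_add]
  have hsm : ∀ z (c : ℂ) a, v (z, c • a) = c • v (z, a) := fun z c a =>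
    inner_ext_of_dense v hd fun p => by
      simp only [inner_smul_right, hv, k]; split_ifs <;> simp
  let lam : A →ₗ[ℂ] E →L[ℂ] E :=
    { toFun := T
      map_add' := fun x y => clm_ext_of_dense v hd fun p => by simp [hTv, add_mul, hadd]
      map_smul' := fun c x => clm_ext_of_dense v hd fun p => by simp [hTv, hsm] }
  have hgram : ∀ p q : Z × N, ⟪v (p.1, j p.2), v (q.1, j q.2)⟫_ℂ =
      ⟪L p.2 p.1, L q.2 q.1⟫_ℂ := fun p q => by
    have e : ⟪L p.2 p.1, L q.2 q.1⟫_ℂ = ⟪(p.1 : K), L (star p.2 * q.2) q.1⟫_ℂ := by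
      rw [map_mul, map_star, ContinuousLinearMap.mul_apply, ContinuousLinearMap.star_eq_adjoint,
        ContinuousLinearMap.adjoint_inner_right]
    rw [e, hv]
    simp only [k]
    split_ifs with h
    · rw [← map_star, ← map_mul, hφ, h]
    · exact (hZ2 _ p.1.2 _ q.1.2 (fun h' => h (Subtype.ext h')) _).symm
  obtain ⟨V, -, hV⟩ := exists_clm_of_bound _ hZ3 (fun p : Z × N => v (p.1, j p.2)) zero_le_one
    fun f => by rw [one_mul]; exact (norm_lc_eq_of_gram _ _ hgram f).le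
  refine ⟨E, inferInstance, inferInstance, inferInstance, V, lam, ⟨fun x y η => ?_,
    fun x η θ => ?_⟩, fun x η => ?_, fun a b => ?_, fun y a => ?_⟩
  · have : T (x * y) = T x ∘L T y := clm_ext_of_dense v hd fun p => by simp [hTv, mul_assoc]
    exact congrArg (fun S : E →L[ℂ] E => S η) this
  · have : T (star x) = (T x).adjoint := adj_of_dense v hd v hd fun p q => by
      simp only [hTv, hv, k, star_mul, star_star, mul_assoc]
    change ⟪T x η, θ⟫_ℂ = ⟪η, T (star x) θ⟫_ℂ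
    rw [this, ContinuousLinearMap.adjoint_inner_right]
  · exact ((T x).le_opNorm η).trans (by gcongr; exact hTn x)
  · have : V.adjoint ∘L V = ContinuousLinearMap.id ℂ K :=
      clm_ext_of_dense _ hZ3 fun q => inner_ext_of_dense _ hZ3 fun p => by
        rw [ContinuousLinearMap.comp_apply, ContinuousLinearMap.adjoint_inner_right, hV, hV, hgram]
        rfl
    rw [← ContinuousLinearMap.adjoint_inner_right, ← ContinuousLinearMap.comp_apply, this]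
    rfl
  · have : T (j y) ∘L V = V ∘L L y := clm_ext_of_dense _ hZ3 fun p => by
      have e := hV (p.1, y * p.2)
      simp only [map_mul, ContinuousLinearMap.mul_apply] at e
      simp only [ContinuousLinearMap.comp_apply, hV, hTv, e]
    exact congrArg (fun S : K →L[ℂ] E => S a) this

end state

theorem glue {K : Type*} {E₁ E₂ : Type v} [NormedAddCommGroup K] [InnerProductSpace ℂ K]
    [CompleteSpace K] [NormedAddCommGroup E₁] [InnerProductSpace ℂ E₁] [CompleteSpace E₁]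
    [NormedAddCommGroup E₂] [InnerProductSpace ℂ E₂] [CompleteSpace E₂]
    (V₁ : K →L[ℂ] E₁) (V₂ : K →L[ℂ] E₂) (h₁ : ∀ a b, ⟪V₁ a, V₁ b⟫_ℂ = ⟪a, b⟫_ℂ)
    (h₂ : ∀ a b, ⟪V₂ a, V₂ b⟫_ℂ = ⟪a, b⟫_ℂ) :
    ∃ (E : Type v) (_ : NormedAddCommGroup E) (_ : InnerProductSpace ℂ E) (_ : CompleteSpace E)
      (ι₁ : E₁ →L[ℂ] E) (ι₂ : E₂ →L[ℂ] E), (∀ a b, ⟪ι₁ a, ι₁ b⟫_ℂ = ⟪a, b⟫_ℂ) ∧
      (∀ a b, ⟪ι₂ a, ι₂ b⟫_ℂ = ⟪a, b⟫_ℂ) ∧ (∀ a, ι₁ (V₁ a) = ι₂ (V₂ a)) ∧
      ∀ a b, ⟪ι₁ a, ι₂ b⟫_ℂ = ⟪V₁.adjoint a, V₂.adjoint b⟫_ℂ := by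
  have a₂ : ∀ a, V₂.adjoint (V₂ a) = a := fun a => ext_inner_left ℂ fun b => by
    rw [ContinuousLinearMap.adjoint_inner_right, h₂]
  let e := (WithLp.prodContinuousLinearEquiv 2 ℂ E₁ E₂).symm.toContinuousLinearMap
  refine ⟨WithLp 2 (E₁ × E₂), inferInstance, inferInstance, inferInstance,
    e ∘L ContinuousLinearMap.inl ℂ E₁ E₂,
    e ∘L (V₁ ∘L V₂.adjoint).prod (ContinuousLinearMap.id ℂ E₂ - V₂ ∘L V₂.adjoint),
    fun a b => by simp [e], fun a b => ?_, fun a => by simp [e, a₂], fun a b => ?_⟩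
  · simp [e, h₁, h₂, inner_sub_left, inner_sub_right, ← ContinuousLinearMap.adjoint_inner_left V₂,
      a₂]
    rw [← ContinuousLinearMap.adjoint_inner_right V₂]
    simp
  · simp [e, ContinuousLinearMap.adjoint_inner_left]

theorem compress {A E₁ E : Type*} [NormedRing A] [StarRing A] [NormedAlgebra ℂ A]
    [NormedAddCommGroup E₁] [InnerProductSpace ℂ E₁] [CompleteSpace E₁]
    [NormedAddCommGroup E] [InnerProductSpace ℂ E] [CompleteSpace E] (ι : E₁ →L[ℂ] E)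
    (hι : ∀ a b, ⟪ι a, ι b⟫_ℂ = ⟪a, b⟫_ℂ) (lam : A →ₗ[ℂ] E₁ →L[ℂ] E₁) (h : IsRep lam)
    (hn : ∀ x η, ‖lam x η‖ ≤ ‖x‖ * ‖η‖) :
    ∃ L : A →ₗ[ℂ] E →L[ℂ] E, IsRep L ∧ (∀ x η, ‖L x η‖ ≤ ‖x‖ * ‖η‖) ∧
      ∀ x η, L x η = ι (lam x (ι.adjoint η)) := by
  have a₁ : ∀ a, ι.adjoint (ι a) = a := fun a => ext_inner_left ℂ fun b => by
    rw [ContinuousLinearMap.adjoint_inner_right, hι]
  have n₁ : ∀ a, ‖ι a‖ = ‖a‖ := fun a => by
    rw [norm_eq_sqrt_re_inner (𝕜 := ℂ), norm_eq_sqrt_re_inner (𝕜 := ℂ), hι]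
  have n₂ : ∀ η, ‖ι.adjoint η‖ ≤ ‖η‖ := fun η => by
    rw [← n₁]
    exact norm_le_of_proj (P := ι ∘L ι.adjoint) (fun η => by
      simp only [ContinuousLinearMap.comp_apply]
      rw [hι, ContinuousLinearMap.adjoint_inner_left]) η
  refine ⟨{ toFun := fun x => ι ∘L lam x ∘L ι.adjoint
            map_add' := fun x y => by ext; simp
            map_smul' := fun c x => by ext; simp }, ⟨fun x y η => ?_, fun x η θ => ?_⟩,
    fun x η => ?_, fun x η => rfl⟩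
  · simp [a₁, h.mul]
  · simp only [LinearMap.coe_mk, AddHom.coe_mk, ContinuousLinearMap.comp_apply]
    rw [← ContinuousLinearMap.adjoint_inner_right, h.adj, ContinuousLinearMap.adjoint_inner_left]
  · simp only [LinearMap.coe_mk, AddHom.coe_mk, ContinuousLinearMap.comp_apply]
    rw [n₁]
    exact (hn _ _).trans (by gcongr; exact n₂ η)

theorem dilate {A : Type v} [CStarAlgebra A] (N : StarSubalgebra ℂ A) {K : Type w}
    [NormedAddCommGroup K] [InnerProductSpace ℂ K] [CompleteSpace K]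
    (L : N →⋆ₐ[ℂ] (K →L[ℂ] K)) (R : Nᵐᵒᵖ →⋆ₐ[ℂ] (K →L[ℂ] K)) (hL : ∀ y, ‖L y‖ ≤ ‖(y : A)‖)
    (hR : ∀ y : N, ‖R (MulOpposite.op y)‖ ≤ ‖(y : A)‖)
    (hc : ∀ x y, L x * R (MulOpposite.op y) = R (MulOpposite.op y) * L x) :
    ∃ (E : Type (max v w)) (_ : NormedAddCommGroup E) (_ : InnerProductSpace ℂ E)
      (J : K →L[ℂ] E) (L' R' : A →ₗ[ℂ] E →L[ℂ] E), IsRep L' ∧ IsAnti R' ∧
      (∀ x η, ‖L' x η‖ ≤ ‖x‖ * ‖η‖) ∧ (∀ x η, ‖R' x η‖ ≤ ‖x‖ * ‖η‖) ∧ (∀ a, ‖J a‖ = ‖a‖) ∧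
      (∀ (y : N) a, L' y (J a) = J (L y a)) ∧
      (∀ (y : N) a, R' y (J a) = J (R (MulOpposite.op y) a)) ∧
      ∀ (x y : N) η, L' x (R' y η) = R' y (L' x η) := by
  let j₂ : Nᵐᵒᵖ →⋆ₐ[ℂ] Aᵐᵒᵖ :=
    { toFun := fun y => MulOpposite.op (y.unop : A)
      map_one' := rfl
      map_mul' := fun _ _ => rfl
      map_zero' := rfl
      map_add' := fun _ _ => rfl
      commutes' := fun _ => rfl
      map_star' := fun _ => rfl }
  obtain ⟨E₁, _, _, _, V₁, lam, hl1, hl2, hl3, hl4⟩ :=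
    dilate_one N.subtype Subtype.val_injective L hL
  obtain ⟨E₂, _, _, _, V₂, rho, hr1, hr2, hr3, hr4⟩ :=
    dilate_one j₂ (fun x y h => MulOpposite.unop_injective
      (Subtype.val_injective (MulOpposite.op_injective h))) R fun y => hR y.unop
  obtain ⟨E, _, _, _, ι₁, ι₂, hι₁, hι₂, hJ, hι⟩ := glue V₁ V₂ hl3 hr3
  obtain ⟨L', hL1, hL2, hL3⟩ := compress ι₁ hι₁ lam hl1 hl2
  obtain ⟨R', hR1, hR2, hR3⟩ := compress ι₂ hι₂ rho hr1 hr2
  have a₁ : ∀ a, ι₁.adjoint (ι₁ a) = a := fun a => ext_inner_left ℂ fun b => by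
    rw [ContinuousLinearMap.adjoint_inner_right, hι₁]
  have a₂ : ∀ a, ι₂.adjoint (ι₂ a) = a := fun a => ext_inner_left ℂ fun b => by
    rw [ContinuousLinearMap.adjoint_inner_right, hι₂]
  have b₁ : ∀ b, ι₁.adjoint (ι₂ b) = V₁ (V₂.adjoint b) := fun b => ext_inner_left ℂ fun a => by
    rw [ContinuousLinearMap.adjoint_inner_right, hι, ContinuousLinearMap.adjoint_inner_left]
  have b₂ : ∀ a, ι₂.adjoint (ι₁ a) = V₂ (V₁.adjoint a) := fun a => ext_inner_right ℂ fun b => by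
    rw [ContinuousLinearMap.adjoint_inner_left, hι, ContinuousLinearMap.adjoint_inner_right]
  have hl5 : ∀ (y : N) a, lam y (V₁ a) = V₁ (L y a) := hl4
  have hr5 : ∀ (y : N) a, rho (MulOpposite.op (y : A)) (V₂ a) = V₂ (R (MulOpposite.op y) a) :=
    fun y a => hr4 (MulOpposite.op y) a
  have c₁ : ∀ (y : N) e, V₁.adjoint (lam y e) = L y (V₁.adjoint e) := fun y e =>
    ext_inner_right ℂ fun a => by
      rw [ContinuousLinearMap.adjoint_inner_left, hl1.adj, ← StarMemClass.coe_star, hl5,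
        ← ContinuousLinearMap.adjoint_inner_left, map_star, ContinuousLinearMap.star_eq_adjoint,
        ContinuousLinearMap.adjoint_inner_right]
  have c₂ : ∀ (y : N) e, V₂.adjoint (rho (MulOpposite.op (y : A)) e) =
      R (MulOpposite.op y) (V₂.adjoint e) := fun y e =>
    ext_inner_right ℂ fun a => by
      rw [ContinuousLinearMap.adjoint_inner_left, hr1.adj, ← MulOpposite.op_star,
        ← StarMemClass.coe_star, hr5, ← ContinuousLinearMap.adjoint_inner_left,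
        MulOpposite.op_star, map_star, ContinuousLinearMap.star_eq_adjoint,
        ContinuousLinearMap.adjoint_inner_right]
  have d : ∀ η, V₁.adjoint (ι₁.adjoint η) = V₂.adjoint (ι₂.adjoint η) := fun η =>
    ext_inner_left ℂ fun a => by
      simp only [ContinuousLinearMap.adjoint_inner_right, hJ]
  refine ⟨E, inferInstance, inferInstance, ι₁ ∘L V₁, L',
    R' ∘ₗ (MulOpposite.opLinearEquiv ℂ).toLinearMap, hL1,
    ⟨fun x y η => hR1.mul (MulOpposite.op y) (MulOpposite.op x) η,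
      fun x η θ => hR1.adj (MulOpposite.op x) η θ⟩, hL2,
    fun x η => hR2 (MulOpposite.op x) η, fun a => ?_, fun y a => ?_, fun y a => ?_,
    fun x y η => ?_⟩
  · rw [norm_eq_sqrt_re_inner (𝕜 := ℂ), norm_eq_sqrt_re_inner (𝕜 := ℂ) a]
    simp only [ContinuousLinearMap.comp_apply, hι₁, hl3]
  · simp only [ContinuousLinearMap.comp_apply, hL3, a₁, hl5]
  · change R' (MulOpposite.op (y : A)) (ι₁ (V₁ a)) = ι₁ (V₁ _)
    rw [hJ, hJ, hR3, a₂, hr5]
  · change L' x (R' (MulOpposite.op (y : A)) η) = R' (MulOpposite.op (y : A)) (L' x η)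
    rw [hL3, hR3, hR3, hL3, b₁, b₂, hl5, hr5, c₁, c₂, hJ, d]
    exact congrArg (fun S : K →L[ℂ] K => ι₂ (V₂ (S _))) (hc x y)

end Pool.Agent.MP_890ef7_an

end

section

/-! Transfer of robust rigidity to close von Neumann algebras. -/

open scoped InnerProductSpace
open Filter Topology

namespace Pool.Agent.MP_890ef7_an

universe v w

theorem exists_fixed {G K : Type*} [Group G] [NormedAddCommGroup K] [InnerProductSpace ℂ K]
    [CompleteSpace K] (T : G → K →L[ℂ] K) (h1 : ∀ x, T 1 x = x)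
    (hm : ∀ g h x, T (g * h) x = T g (T h x)) (hn : ∀ g x, ‖T g x‖ = ‖x‖) (ξ : K) {c : ℝ}
    (hc : ∀ g, ‖T g ξ - ξ‖ ≤ c) : ∃ η, (∀ g, T g η = η) ∧ ‖η - ξ‖ ≤ c := by
  letI : InnerProductSpace ℝ K := InnerProductSpace.rclikeToReal ℂ K
  let C : Set K := ⋂ g, Metric.closedBall (T g ξ) c
  have hC : ∀ η, η ∈ C ↔ ∀ g, ‖η - T g ξ‖ ≤ c := fun η => by simp [C, dist_eq_norm]
  have hne : C.Nonempty := ⟨ξ, (hC ξ).2 fun g => by rw [norm_sub_rev]; exact hc g⟩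
  have hconv : Convex ℝ C := convex_iInter fun g => convex_closedBall _ _
  obtain ⟨η, hη, hmin⟩ := exists_norm_eq_iInf_of_complete_convex hne
    (isClosed_iInter fun g => Metric.isClosed_closedBall).isComplete hconv 0
  have hle : ∀ θ ∈ C, ‖η‖ ≤ ‖θ‖ := fun θ hθ => by
    have := ciInf_le (f := fun w : C => ‖(0 : K) - w‖) ⟨0, by rintro _ ⟨w, rfl⟩; positivity⟩ ⟨θ, hθ⟩
    rw [← hmin] at this
    simpa using this
  refine ⟨η, fun g => ?_, by simpa [h1] using (hC η).1 hη 1⟩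
  have hg : T g η ∈ C := (hC _).2 fun h => by
    have : T h ξ = T g (T (g⁻¹ * h) ξ) := by rw [← hm, mul_inv_cancel_left]
    rw [this, ← map_sub, hn]
    exact (hC η).1 hη _
  have hmid := hle _ (hconv hg hη (a := 1 / 2) (b := 1 / 2) (by norm_num) (by norm_num)
    (by norm_num))
  rw [← smul_add, norm_smul] at hmid
  have hpar := parallelogram_law_with_norm ℂ (T g η) η
  rw [hn] at hpar
  have h2 : 2 * ‖η‖ ≤ ‖T g η + η‖ := by
    rw [Real.norm_of_nonneg (by norm_num)] at hmid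
    linarith
  have h3 : (2 * ‖η‖) ^ 2 ≤ ‖T g η + η‖ ^ 2 := by gcongr
  have h4 : ‖T g η - η‖ ^ 2 ≤ 0 := by nlinarith
  exact sub_eq_zero.1 (norm_eq_zero.1 (pow_eq_zero_iff two_ne_zero |>.1
    (le_antisymm h4 (sq_nonneg _))))

variable {H : Type v} [NormedAddCommGroup H] [InnerProductSpace ℂ H] [CompleteSpace H]

instance isClosed_vN (N : VonNeumannAlgebra H) :
    IsClosed (N.toStarSubalgebra : Set (H →L[ℂ] H)) := by
  rw [VonNeumannAlgebra.coe_toStarSubalgebra, ← N.centralizer_centralizer]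
  exact Set.isClosed_centralizer _

/-- normality for maps defined on the subtype. -/
def IsNormalMap (N : VonNeumannAlgebra H) {K : Type w} [NormedAddCommGroup K]
    [InnerProductSpace ℂ K] (φ : N.toStarSubalgebra → (K →L[ℂ] K)) : Prop :=
  ∀ (l : Filter N.toStarSubalgebra) (y : N.toStarSubalgebra),
    (∀ᶠ z : N.toStarSubalgebra in l, ‖(z : H →L[ℂ] H)‖ ≤ 1) →
    (∀ a b : H, Tendsto (fun z : N.toStarSubalgebra => ⟪a, (z : H →L[ℂ] H) b⟫_ℂ) l
      (𝓝 ⟪a, (y : H →L[ℂ] H) b⟫_ℂ)) →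
    ∀ ξ η : K, Tendsto (fun z => ⟪η, φ z ξ⟫_ℂ) l (𝓝 ⟪η, φ y ξ⟫_ℂ)

theorem IsNormalOn.normalMap {N : VonNeumannAlgebra H} {K : Type w} [NormedAddCommGroup K]
    [InnerProductSpace ℂ K] {φ : (H →L[ℂ] H) → K →L[ℂ] K} (h : IsNormalOn N φ) :
    IsNormalMap N fun x => φ x := fun l y h1 h2 ξ η =>
  h (map Subtype.val l) y y.2 (eventually_map.2 (h1.mono fun z hz => ⟨z.2, hz⟩)) h2 ξ η

/-- bundled form of property (T). -/
def HasT' (N : VonNeumannAlgebra H) : Prop :=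
  ∀ ε : ℝ, 0 < ε → ∃ (F : Finset N.toStarSubalgebra) (δ : ℝ), 0 < δ ∧
    ∀ (K : Type w) [NormedAddCommGroup K] [InnerProductSpace ℂ K] [CompleteSpace K]
      (L : N.toStarSubalgebra →⋆ₐ[ℂ] (K →L[ℂ] K))
      (R : (N.toStarSubalgebra)ᵐᵒᵖ →⋆ₐ[ℂ] (K →L[ℂ] K)),
      (∀ x y, L x * R (MulOpposite.op y) = R (MulOpposite.op y) * L x) →
      IsNormalMap N (fun x => L x) → IsNormalMap N (fun x => R (MulOpposite.op x)) →
      ∀ ξ : K, ‖ξ‖ = 1 → (∀ x ∈ F, ‖L x ξ - R (MulOpposite.op x) ξ‖ < δ) →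
        ∃ η : K, (∀ x, L x η = R (MulOpposite.op x) η) ∧ ‖η - ξ‖ < ε

theorem HasT'.hasT {N : VonNeumannAlgebra H} (h : HasT'.{v, w} N) : HasT.{v, w} N := by
  classical
  intro ε hε
  obtain ⟨F, δ, hδ, h⟩ := h ε hε
  refine ⟨F.image Subtype.val, δ, fun x hx => ?_, hδ,
    fun K _ _ _ L R ⟨⟨l1, l2, l3, l4, l5⟩, ⟨r1, r2, r3, r4, r5⟩, hm⟩ ξ hξ hF => ?_⟩
  · obtain ⟨y, -, rfl⟩ := Finset.mem_image.1 hx
    exact y.2
  have l0 : L 0 = 0 := by simpa using l2 0 0 (zero_mem _)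
  have r0 : R 0 = 0 := by simpa using r2 0 0 (zero_mem _)
  let L' : N.toStarSubalgebra →⋆ₐ[ℂ] (K →L[ℂ] K) :=
    { toFun := fun x => L x
      map_one' := l3
      map_mul' := fun x y => (hm x x.2 y y.2).1
      map_zero' := l0
      map_add' := fun x y => l1 x x.2 y y.2
      commutes' := fun c => by
        have := l2 c 1 (one_mem _)
        rw [l3] at this
        rw [Algebra.algebraMap_eq_smul_one, Algebra.algebraMap_eq_smul_one]
        exact this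
      map_star' := fun x => l4 x x.2 }
  let R' : (N.toStarSubalgebra)ᵐᵒᵖ →⋆ₐ[ℂ] (K →L[ℂ] K) :=
    { toFun := fun x => R x.unop
      map_one' := r3
      map_mul' := fun x y => (hm y.unop y.unop.2 x.unop x.unop.2).2.1
      map_zero' := r0
      map_add' := fun x y => r1 x.unop x.unop.2 y.unop y.unop.2
      commutes' := fun c => by
        have := r2 c 1 (one_mem _)
        rw [r3] at this
        rw [Algebra.algebraMap_eq_smul_one, Algebra.algebraMap_eq_smul_one]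
        exact this
      map_star' := fun x => r4 x.unop x.unop.2 }
  obtain ⟨η, h1, h2⟩ := h K L' R' (fun x y => (hm x x.2 y y.2).2.2) l5.normalMap r5.normalMap ξ hξ
    fun x hx => hF x (Finset.mem_image_of_mem _ hx)
  exact ⟨η, fun x hx => h1 ⟨x, hx⟩, h2⟩

theorem hasT_of_uniform (N : VonNeumannAlgebra H) (F : Finset N.toStarSubalgebra) {δ c : ℝ}
    (hδ : 0 < δ) (hc : c < 1)
    (h : ∀ (K : Type w) [NormedAddCommGroup K] [InnerProductSpace ℂ K] [CompleteSpace K]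
      (L : N.toStarSubalgebra →⋆ₐ[ℂ] (K →L[ℂ] K))
      (R : (N.toStarSubalgebra)ᵐᵒᵖ →⋆ₐ[ℂ] (K →L[ℂ] K)),
      (∀ x y, L x * R (MulOpposite.op y) = R (MulOpposite.op y) * L x) →
      IsNormalMap N (fun x => L x) → IsNormalMap N (fun x => R (MulOpposite.op x)) →
      ∀ ξ : K, ‖ξ‖ = 1 → (∀ x ∈ F, ‖L x ξ - R (MulOpposite.op x) ξ‖ < δ) →
        ∀ z : N.toStarSubalgebra, ‖z‖ ≤ 1 → ‖L z ξ - R (MulOpposite.op z) ξ‖ ≤ c) :
    HasT.{v, w} N := by
  refine HasT'.hasT fun ε hε => ?_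
  refine ⟨F, δ * ε, by positivity, fun K _ _ _ L R hLR hL hR ξ hξ hF => ?_⟩
  have key : ∀ ξ : K, ‖ξ‖ = 1 → (∀ x ∈ F, ‖L x ξ - R (MulOpposite.op x) ξ‖ < δ) →
      ∃ η : K, (∀ x, L x η = R (MulOpposite.op x) η) ∧ ‖η - ξ‖ ≤ c := fun ξ hξ hF => by
    have hLi : ∀ (u : unitary N.toStarSubalgebra) x, ‖L u x‖ = ‖x‖ := fun u x =>
      ContinuousLinearMap.norm_map_of_mem_unitary (Unitary.map_mem L u.2) x
    have hRi : ∀ (u : unitary N.toStarSubalgebra) x,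
        ‖R (MulOpposite.op (star (u : N.toStarSubalgebra))) x‖ = ‖x‖ := fun u x =>
      ContinuousLinearMap.norm_map_of_mem_unitary (Unitary.map_mem R (by
        rw [Unitary.mem_iff, ← MulOpposite.op_star, star_star, ← MulOpposite.op_mul,
          ← MulOpposite.op_mul, u.2.1, u.2.2]
        exact ⟨rfl, rfl⟩)) x
    have hcm : ∀ x y θ, L x (R (MulOpposite.op y) θ) = R (MulOpposite.op y) (L x θ) :=
      fun x y θ => congrArg (fun S : K →L[ℂ] K => S θ) (hLR x y)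
    obtain ⟨η, hη, hηξ⟩ := exists_fixed
      (fun u : unitary N.toStarSubalgebra => L u ∘L R (MulOpposite.op (star (u : N.toStarSubalgebra))))
      (fun x => by simp)
      (fun g h x => by
        simp only [ContinuousLinearMap.comp_apply, Submonoid.coe_mul, star_mul, MulOpposite.op_mul,
          map_mul, ContinuousLinearMap.mul_apply, hcm])
      (fun g x => by rw [ContinuousLinearMap.comp_apply, hLi, hRi]) ξ (c := c) fun g => by
        have h1 := h K L R hLR hL hR ξ hξ hF (star (g : N.toStarSubalgebra))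
          (by
            have h2 := CStarRing.norm_star_mul_self (x := (g : N.toStarSubalgebra))
            have h3 := norm_one_le_one (A := N.toStarSubalgebra)
            rw [g.2.1] at h2
            rw [norm_star]
            nlinarith [norm_nonneg (g : N.toStarSubalgebra)])
        rw [norm_sub_rev, ← hLi g, map_sub, ← ContinuousLinearMap.mul_apply (L g) (L _),
          ← map_mul, g.2.2, map_one] at h1
        exact h1
    refine ⟨η, fun x => ?_, hηξ⟩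
    have hx : x ∈ Submodule.span ℂ (unitary N.toStarSubalgebra : Set N.toStarSubalgebra) := by
      rw [CStarAlgebra.span_unitary]; trivial
    induction hx using Submodule.span_induction with
    | mem u hu =>
      have h1 := congrArg (R (MulOpposite.op u)) (hη ⟨u, hu⟩)
      simp only [ContinuousLinearMap.comp_apply] at h1
      rw [← hcm, ← ContinuousLinearMap.mul_apply (R _) (R _), ← map_mul, ← MulOpposite.op_mul,
        hu.1, MulOpposite.op_one, map_one] at h1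
      exact h1
    | zero => simp
    | add x y _ _ hx hy => simp [hx, hy]
    | smul c x _ hx => simp [hx]
  let K₀ : Submodule ℂ K := ⨅ x, LinearMap.ker
    ((L x - R (MulOpposite.op x) : K →L[ℂ] K) : K →ₗ[ℂ] K)
  have hK₀ : ∀ η, η ∈ K₀ ↔ ∀ x, L x η = R (MulOpposite.op x) η := fun η => by
    simp [K₀, sub_eq_zero]
  haveI : CompleteSpace K₀ := by
    refine IsClosed.completeSpace_coe (hs := ?_)
    simp only [K₀, Submodule.coe_iInf]
    exact isClosed_iInter fun x => ContinuousLinearMap.isClosed_ker _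
  refine ⟨K₀.starProjection ξ, (hK₀ _).1 (K₀.starProjection_apply_mem ξ), ?_⟩
  by_contra hge
  rw [not_lt, norm_sub_rev] at hge
  set ξ₁ := ξ - K₀.starProjection ξ with hξ₁
  have hn : 0 < ‖ξ₁‖ := hε.trans_le hge
  obtain ⟨η, hη, hηξ⟩ := key (((‖ξ₁‖⁻¹ : ℝ) : ℂ) • ξ₁) (by rw [norm_smul]; simp [hn.ne'])
    fun x hx => by
      have h1 := hF x hx
      have h2 := (hK₀ _).1 (K₀.starProjection_apply_mem ξ) x
      rw [map_smul, map_smul, ← smul_sub, norm_smul, hξ₁, map_sub, map_sub, h2,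
        sub_sub_sub_cancel_right, ← hξ₁, Complex.norm_real, Real.norm_of_nonneg (by positivity),
        inv_mul_lt_iff₀ hn]
      calc _ < δ * ε := h1
        _ ≤ δ * ‖ξ₁‖ := by gcongr
        _ = _ := mul_comm _ _
  have horth : ⟪η, ((‖ξ₁‖⁻¹ : ℝ) : ℂ) • ξ₁⟫_ℂ = 0 := by
    rw [inner_smul_right, ← inner_conj_symm, hξ₁,
      Submodule.starProjection_inner_eq_zero ξ η ((hK₀ η).2 hη)]
    simp
  have h3 := norm_sub_sq (𝕜 := ℂ) η (((‖ξ₁‖⁻¹ : ℝ) : ℂ) • ξ₁)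
  have h4 : ‖((‖ξ₁‖⁻¹ : ℝ) : ℂ) • ξ₁‖ = 1 := by rw [norm_smul]; simp [hn.ne']
  rw [horth, h4] at h3
  simp only [map_zero, mul_zero, sub_zero, one_pow] at h3
  nlinarith [norm_nonneg (η - ((‖ξ₁‖⁻¹ : ℝ) : ℂ) • ξ₁), sq_nonneg ‖η‖]

theorem kk_approx {M N : VonNeumannAlgebra H} {γ : ℝ} (h : kkDist M N < γ) :
    (∀ x ∈ M, ‖x‖ ≤ 1 → ∃ y ∈ N, ‖y‖ ≤ 1 ∧ ‖x - y‖ ≤ γ) ∧
    (∀ y ∈ N, ‖y‖ ≤ 1 → ∃ x ∈ M, ‖x‖ ≤ 1 ∧ ‖y - x‖ ≤ γ) := by
  have hne : {γ : ℝ | 0 < γ ∧ (∀ x ∈ M, ‖x‖ ≤ 1 → ∃ y ∈ N, ‖y‖ ≤ 1 ∧ ‖x - y‖ < γ) ∧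
      (∀ y ∈ N, ‖y‖ ≤ 1 → ∃ x ∈ M, ‖x‖ ≤ 1 ∧ ‖y - x‖ < γ)}.Nonempty := ⟨2, two_pos,
    fun x _ hx => ⟨0, zero_mem _, by simp, by rw [sub_zero]; linarith⟩,
    fun x _ hx => ⟨0, zero_mem _, by simp, by rw [sub_zero]; linarith⟩⟩
  obtain ⟨γ', ⟨-, h1, h2⟩, hlt⟩ := exists_lt_of_csInf_lt hne h
  exact ⟨fun x hx hn => (h1 x hx hn).imp fun y hy => ⟨hy.1, hy.2.1, (hy.2.2.trans hlt).le⟩,
    fun x hx hn => (h2 x hx hn).imp fun y hy => ⟨hy.1, hy.2.1, (hy.2.2.trans hlt).le⟩⟩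

theorem approx_scale {M N : VonNeumannAlgebra H} {γ : ℝ}
    (h : ∀ x ∈ M, ‖x‖ ≤ 1 → ∃ y ∈ N, ‖y‖ ≤ 1 ∧ ‖x - y‖ ≤ γ) {x : H →L[ℂ] H} (hx : x ∈ M) :
    ∃ y ∈ N, ‖y‖ ≤ ‖x‖ ∧ ‖x - y‖ ≤ γ * ‖x‖ := by
  rcases (norm_nonneg x).eq_or_lt with h0 | h0
  · exact ⟨0, zero_mem _, by simp, by simp [← h0]⟩
  · obtain ⟨y, hy, h1, h2⟩ := h (((‖x‖⁻¹ : ℝ) : ℂ) • x) (M.toStarSubalgebra.smul_mem hx _)
      (by rw [norm_smul]; simp [h0.ne'])
    refine ⟨((‖x‖ : ℝ) : ℂ) • y, N.toStarSubalgebra.smul_mem hy _, ?_, ?_⟩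
    · rw [norm_smul, Complex.norm_real, norm_norm]
      exact mul_le_of_le_one_right h0.le h1
    · have : x - ((‖x‖ : ℝ) : ℂ) • y = ((‖x‖ : ℝ) : ℂ) • ((((‖x‖⁻¹ : ℝ) : ℂ)) • x - y) := by
        rw [smul_sub, smul_smul, ← Complex.ofReal_mul, mul_inv_cancel₀ h0.ne']; simp
      rw [this, norm_smul, Complex.norm_real, norm_norm, mul_comm]
      gcongr

theorem norm_le_one_of_sum {a b : H →L[ℂ] H} (h : star a * a + star b * b = 1) : ‖a‖ ≤ 1 := by
  refine a.opNorm_le_bound zero_le_one fun v => ?_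
  have h1 := congrArg (fun T : H →L[ℂ] H => (⟪v, T v⟫_ℂ).re) h
  simp only [ContinuousLinearMap.add_apply, ContinuousLinearMap.mul_apply, inner_add_right,
    ContinuousLinearMap.star_eq_adjoint, ContinuousLinearMap.adjoint_inner_right,
    ContinuousLinearMap.one_apply, Complex.add_re] at h1
  simp only [← RCLike.re_to_complex, inner_self_eq_norm_sq] at h1
  rw [one_mul]
  exact le_of_sq_le_sq (by nlinarith [sq_nonneg ‖b v‖]) (norm_nonneg _)

/-- robust rigidity of a star subalgebra `A` of `M` with data `F` and `t`. -/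
def Robust (M : VonNeumannAlgebra H) (A : Set (H →L[ℂ] H)) (F : Finset M.toStarSubalgebra)
    (t : ℝ) : Prop :=
  ∀ (K : Type (max v w)) [NormedAddCommGroup K] [InnerProductSpace ℂ K]
    (L R : M.toStarSubalgebra →ₗ[ℂ] K →L[ℂ] K), Setup L R t →
    ∀ ζ : K, ‖ζ‖ = 1 → L 1 ζ = ζ → R 1 ζ = ζ → (∀ a ∈ F, ‖L a ζ - R a ζ‖ ≤ t) →
    ∀ x : M.toStarSubalgebra, (x : H →L[ℂ] H) ∈ A → ‖L x ζ - R x ζ‖ ≤ 1 / 4 * ‖x‖

theorem comm_perturb {A E : Type*} [NormedRing A] [NormedAlgebra ℂ A] [NormedAddCommGroup E]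
    [NormedSpace ℂ E] (L' R' : A →ₗ[ℂ] E →L[ℂ] E) (hL2 : ∀ x η, ‖L' x η‖ ≤ ‖x‖ * ‖η‖)
    (hR2 : ∀ x η, ‖R' x η‖ ≤ ‖x‖ * ‖η‖) {x y x' y' : A} {γ : ℝ} (hγ : 0 ≤ γ) (η : E)
    (hc : L' x' (R' y' η) = R' y' (L' x' η)) (k1 : ‖x'‖ ≤ ‖x‖) (k2 : ‖x - x'‖ ≤ γ * ‖x‖)
    (k3 : ‖y - y'‖ ≤ γ * ‖y‖) : ‖L' x (R' y η) - R' y (L' x η)‖ ≤ 4 * γ * ‖x‖ * ‖y‖ * ‖η‖ := by
  have e : L' x (R' y η) - R' y (L' x η) = L' (x - x') (R' y η) +
      L' x' (R' (y - y') η) - R' (y - y') (L' x' η) - R' y (L' (x - x') η) := by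
    simp only [map_sub, ContinuousLinearMap.sub_apply, hc]
    abel
  have m1 : ‖L' (x - x') (R' y η)‖ ≤ γ * ‖x‖ * (‖y‖ * ‖η‖) :=
    (hL2 _ _).trans (by gcongr; exact hR2 _ _)
  have m2 : ‖L' x' (R' (y - y') η)‖ ≤ ‖x‖ * (γ * ‖y‖ * ‖η‖) :=
    (hL2 _ _).trans (by gcongr; exact (hR2 _ _).trans (by gcongr))
  have m3 : ‖R' (y - y') (L' x' η)‖ ≤ γ * ‖y‖ * (‖x‖ * ‖η‖) :=
    (hR2 _ _).trans (by gcongr; exact (hL2 _ _).trans (by gcongr))
  have m4 : ‖R' y (L' (x - x') η)‖ ≤ ‖y‖ * (γ * ‖x‖ * ‖η‖) :=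
    (hR2 _ _).trans (by gcongr; exact (hL2 _ _).trans (by gcongr))
  rw [e]
  calc _ ≤ _ := (norm_sub_le _ _).trans (add_le_add ((norm_sub_le _ _).trans
        (add_le_add ((norm_add_le _ _).trans (add_le_add m1 m2)) m3)) m4)
    _ = _ := by ring

theorem exists_net (M N : VonNeumannAlgebra H) (A : StarSubalgebra ℂ (H →L[ℂ] H))
    (hM : (M : Set (H →L[ℂ] H)) = Set.centralizer (Set.centralizer (A : Set (H →L[ℂ] H))))
    {γ : ℝ} (hγ0 : 0 ≤ γ) (hMN : ∀ x ∈ M, ‖x‖ ≤ 1 → ∃ y ∈ N, ‖y‖ ≤ 1 ∧ ‖x - y‖ ≤ γ)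
    {x : H →L[ℂ] H} (hxM : x ∈ M) (hx1 : ‖x‖ ≤ 1) :
    ∃ (U : Ultrafilter (Finset H × ℕ)) (y : Finset H × ℕ → N.toStarSubalgebra)
      (y₀ : N.toStarSubalgebra), (∀ p, ‖(y p : H →L[ℂ] H)‖ ≤ 1) ∧
      (∀ p, ∃ b ∈ A.topologicalClosure, ‖b‖ ≤ 1 ∧ ‖b - y p‖ ≤ γ) ∧
      (∀ a b, Tendsto (fun p => ⟪a, (y p : H →L[ℂ] H) b⟫_ℂ) U (𝓝 ⟪a, (y₀ : H →L[ℂ] H) b⟫_ℂ)) ∧
      ‖(y₀ : H →L[ℂ] H) - (2⁻¹ : ℂ) • x‖ ≤ γ := by
  classical
  have hAM : ∀ x ∈ A.topologicalClosure, x ∈ M := fun x hx =>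
    closure_minimal (fun x hx => by
      rw [VonNeumannAlgebra.coe_toStarSubalgebra, hM]
      exact Set.subset_centralizer_centralizer hx) (isClosed_vN M) hx
  have hxA : x ∈ Set.centralizer (Set.centralizer (A : Set (H →L[ℂ] H))) := hM ▸ hxM
  choose b hb1 hb2 hb3 using fun p : Finset H × ℕ =>
    kaplansky A hxA hx1 p.1 (Nat.one_div_pos_of_nat (α := ℝ) (n := p.2))
  have hb4 : ∀ p, ‖(2⁻¹ : ℂ) • b p‖ ≤ 1 := fun p => by
    rw [norm_smul]; have := hb2 p; simp only [norm_inv, Complex.norm_ofNat]; linarith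
  choose y hy1 hy2 hy3 using fun p => hMN ((2⁻¹ : ℂ) • b p)
    (M.toStarSubalgebra.smul_mem (hAM _ (hb1 p)) _) (hb4 p)
  let U := Ultrafilter.of (atTop : Filter (Finset H × ℕ))
  have hU : (U : Filter (Finset H × ℕ)) ≤ atTop := Ultrafilter.of_le _
  obtain ⟨y₀, hy₀⟩ := exists_wot_lim U y zero_le_one hy2
  have hy₀N : y₀ ∈ N := by
    rw [← SetLike.mem_coe, ← N.centralizer_centralizer]
    intro s hs
    ext v
    refine ext_inner_left ℂ fun a => ?_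
    have h1 := hy₀ (s.adjoint a) v
    simp only [ContinuousLinearMap.adjoint_inner_left] at h1
    refine tendsto_nhds_unique h1 ((hy₀ a (s v)).congr fun p => ?_)
    exact congrArg (fun T : H →L[ℂ] H => ⟪a, T v⟫_ℂ) (hs _ (hy1 p))
  have hbx : ∀ v, Tendsto (fun p => b p v) U (𝓝 (x v)) := fun v => by
    refine Tendsto.mono_left ?_ hU
    rw [tendsto_iff_norm_sub_tendsto_zero]
    refine squeeze_zero' (Eventually.of_forall fun p => norm_nonneg _)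
      (g := fun p => 1 / ((p.2 : ℝ) + 1)) ?_
      (tendsto_one_div_add_atTop_nhds_zero_nat.comp (by
        rw [← prod_atTop_atTop_eq]; exact tendsto_snd))
    filter_upwards [eventually_ge_atTop (({v}, 0) : Finset H × ℕ)] with p hp
    exact (hb3 p v (hp.1 (Finset.mem_singleton_self v))).le
  refine ⟨U, fun p => ⟨y p, hy1 p⟩, ⟨y₀, hy₀N⟩, hy2,
    fun p => ⟨_, A.topologicalClosure.smul_mem (hb1 p) _, hb4 p, hy3 p⟩, hy₀, ?_⟩
  refine ContinuousLinearMap.opNorm_le_bound _ hγ0 fun v => ?_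
  refine norm_le_of_weak (l := U) (v := fun p => (y p - (2⁻¹ : ℂ) • b p) v) (by positivity)
    (fun p => (ContinuousLinearMap.le_opNorm _ _).trans (by
      rw [norm_sub_rev]; gcongr; exact hy3 p)) ?_
  simp only [ContinuousLinearMap.sub_apply, ContinuousLinearMap.smul_apply, inner_sub_right]
  exact (hy₀ _ v).sub (Tendsto.inner tendsto_const_nhds ((hbx v).const_smul _))

/-- the inclusion as a linear map. -/
noncomputable def incl (M : VonNeumannAlgebra H) : M.toStarSubalgebra →ₗ[ℂ] (H →L[ℂ] H) where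
  toFun x := x
  map_add' _ _ := rfl
  map_smul' _ _ := rfl

theorem setup_restrict (M N : VonNeumannAlgebra H) {E : Type*} [NormedAddCommGroup E]
    [InnerProductSpace ℂ E] (L' R' : (H →L[ℂ] H) →ₗ[ℂ] E →L[ℂ] E) (hL1 : IsRep L')
    (hR1 : IsAnti R') (hL2 : ∀ x η, ‖L' x η‖ ≤ ‖x‖ * ‖η‖) (hR2 : ∀ x η, ‖R' x η‖ ≤ ‖x‖ * ‖η‖)
    (hc : ∀ (x y : N.toStarSubalgebra) η, L' x (R' y η) = R' y (L' x η)) {t γ : ℝ}
    (hγ0 : 0 ≤ γ) (hγ : 4 * γ ≤ t)
    (hMN : ∀ x ∈ M, ‖x‖ ≤ 1 → ∃ y ∈ N, ‖y‖ ≤ 1 ∧ ‖x - y‖ ≤ γ) :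
    Setup (L' ∘ₗ incl M) (R' ∘ₗ incl M) t where
  hB a b h := norm_le_one_of_sum (a := (a : H →L[ℂ] H)) (b := (b : H →L[ℂ] H))
    (congrArg Subtype.val h)
  rep := ⟨fun x y => hL1.mul x y, fun x => hL1.adj x⟩
  anti := ⟨fun x y => hR1.mul x y, fun x => hR1.adj x⟩
  nL x := hL2 x
  nR x := hR2 x
  γ0 := by linarith
  comm x y η := by
    obtain ⟨x', hx', k1, k2⟩ := approx_scale hMN x.2
    obtain ⟨y', hy', -, k3⟩ := approx_scale hMN y.2
    have := comm_perturb L' R' hL2 hR2 hγ0 η (hc ⟨x', hx'⟩ ⟨y', hy'⟩ η) k1 k2 k3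
    refine this.trans ?_
    change _ ≤ t * ‖(x : H →L[ℂ] H)‖ * ‖(y : H →L[ℂ] H)‖ * ‖η‖
    gcongr

theorem exists_defect (M N : VonNeumannAlgebra H) (A : Set (H →L[ℂ] H))
    (F : Finset M.toStarSubalgebra) {t γ : ℝ} (hγ0 : 0 ≤ γ)
    (hγ : 4 * γ ≤ t) (hrob : Robust.{v, w} M A F t)
    (hMN : ∀ x ∈ M, ‖x‖ ≤ 1 → ∃ y ∈ N, ‖y‖ ≤ 1 ∧ ‖x - y‖ ≤ γ)
    {K : Type w} [NormedAddCommGroup K] [InnerProductSpace ℂ K] [CompleteSpace K]
    (L : N.toStarSubalgebra →⋆ₐ[ℂ] (K →L[ℂ] K))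
    (R : (N.toStarSubalgebra)ᵐᵒᵖ →⋆ₐ[ℂ] (K →L[ℂ] K))
    (hLR : ∀ x y, L x * R (MulOpposite.op y) = R (MulOpposite.op y) * L x) {ξ : K} (hξ : ‖ξ‖ = 1) :
    ∃ (E : Type (max v w)) (_ : NormedAddCommGroup E) (_ : NormedSpace ℂ E)
      (D : (H →L[ℂ] H) →L[ℂ] E), (∀ x, ‖D x‖ ≤ 2 * ‖x‖) ∧
      (∀ y : N.toStarSubalgebra, ‖D y‖ = ‖L y ξ - R (MulOpposite.op y) ξ‖) ∧
      ((∀ a ∈ F, ‖D a‖ ≤ t) → ∀ x ∈ M, x ∈ A → ‖D x‖ ≤ 1 / 4 * ‖x‖) := by
  have hLn : ∀ y : N.toStarSubalgebra, ‖L y‖ ≤ ‖(y : H →L[ℂ] H)‖ := fun y =>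
    NonUnitalStarAlgHom.norm_apply_le L y
  have hRn : ∀ y : N.toStarSubalgebra, ‖R (MulOpposite.op y)‖ ≤ ‖(y : H →L[ℂ] H)‖ := fun y =>
    NonUnitalStarAlgHom.norm_apply_le R (MulOpposite.op y)
  obtain ⟨E, _, _, J, L', R', hL1, hR1, hL2, hR2, hJ, hL3, hR3, hc⟩ :=
    dilate N.toStarSubalgebra L R hLn hRn hLR
  let D : (H →L[ℂ] H) →L[ℂ] E := LinearMap.mkContinuous
    { toFun := fun x => L' x (J ξ) - R' x (J ξ)
      map_add' := fun x y => by simp only [map_add, ContinuousLinearMap.add_apply]; abel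
      map_smul' := fun c x => by
        simp only [map_smul, ContinuousLinearMap.smul_apply, smul_sub, RingHom.id_apply] }
      2 fun x => by
        have h1 := hL2 x (J ξ)
        have h2 := hR2 x (J ξ)
        rw [hJ, hξ] at h1 h2
        have := norm_sub_le (L' x (J ξ)) (R' x (J ξ))
        simp only [LinearMap.coe_mk, AddHom.coe_mk]
        linarith
  have hD : ∀ x, D x = L' x (J ξ) - R' x (J ξ) := fun x => rfl
  refine ⟨E, inferInstance, inferInstance, D, fun x =>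
    (D.le_opNorm x).trans (by gcongr; exact LinearMap.mkContinuous_norm_le _ zero_le_two _),
    fun y => by rw [hD, hL3, hR3, ← map_sub, hJ], fun hF x hxM hxA => ?_⟩
  have hS := setup_restrict M N L' R' hL1 hR1 hL2 hR2 hc hγ0 hγ hMN
  have e1 : L' 1 (J ξ) = J ξ := by
    have := hL3 1 ξ
    rw [map_one] at this
    exact this
  have e2 : R' 1 (J ξ) = J ξ := by
    have := hR3 1 ξ
    rw [MulOpposite.op_one, map_one] at this
    exact this
  exact hrob E _ _ hS (J ξ) (by rw [hJ, hξ]) e1 e2 hF ⟨x, hxM⟩ hxA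

theorem transfer (M N : VonNeumannAlgebra H) (A : StarSubalgebra ℂ (H →L[ℂ] H))
    (hM : (M : Set (H →L[ℂ] H)) = Set.centralizer (Set.centralizer (A : Set (H →L[ℂ] H))))
    (F : Finset M.toStarSubalgebra) (hF : ∀ a ∈ F, ‖(a : H →L[ℂ] H)‖ ≤ 1) {t γ : ℝ} (hγ0 : 0 < γ)
    (hγ : 4 * γ ≤ t) (hγ1 : γ ≤ 1 / 40) (hrob : Robust.{v, w} M A F t) (hkk : kkDist M N < γ) :
    HasT.{v, w} N := by
  classical
  obtain ⟨hMN, hNM⟩ := kk_approx hkk
  choose ap hap1 hap2 hap3 using fun x : M.toStarSubalgebra => approx_scale hMN x.2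
  refine hasT_of_uniform N (F.image fun a => ⟨ap a, hap1 a⟩) (δ := 2 * γ) (c := 3 / 4)
    (by positivity) (by norm_num) fun K _ _ _ L R hLR hL hR ξ hξ hξF z hz => ?_
  obtain ⟨E, _, _, D, hD2, hDN, hA⟩ := exists_defect M N A F hγ0.le hγ hrob hMN L R hLR hξ
  have hA0 := hA fun a ha => by
    have h1 := hξF _ (Finset.mem_image_of_mem _ ha)
    rw [← hDN] at h1
    have h2 := hD2 (a - ap a)
    have h3 := hap3 a
    have h4 : γ * ‖(a : H →L[ℂ] H)‖ ≤ γ * 1 := by gcongr; exact hF a ha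
    have h5 := norm_le_norm_add_norm_sub' (D a) (D (ap a))
    rw [map_sub] at h2
    simp only at h1
    linarith
  have hAM : ∀ x ∈ A, x ∈ M := fun x hx => by
    rw [← SetLike.mem_coe, hM]; exact Set.subset_centralizer_centralizer hx
  have hA1 : ∀ x ∈ A.topologicalClosure, ‖D x‖ ≤ 1 / 4 * ‖x‖ := fun x hx => by
    have hcl : IsClosed {x : H →L[ℂ] H | ‖D x‖ ≤ 1 / 4 * ‖x‖} :=
      isClosed_le (by fun_prop) (by fun_prop)
    exact closure_minimal (fun x hx => hA0 x (hAM x hx) hx) hcl hx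
  obtain ⟨x, hxM, hx1, hx2⟩ := hNM z z.2 hz
  obtain ⟨U, y, y₀, hy2, hy3, hy₀, hy₀x⟩ := exists_net M N A hM hγ0.le hMN hxM hx1
  have hnorm : ∀ φ : N.toStarSubalgebra → K →L[ℂ] K, IsNormalMap N φ → ∀ θ,
      Tendsto (fun p => ⟪θ, φ (y p) ξ⟫_ℂ) U (𝓝 ⟪θ, φ y₀ ξ⟫_ℂ) := fun φ hφ θ =>
    hφ (map y U) y₀ (eventually_map.2 (Eventually.of_forall hy2)) hy₀ ξ θ
  have hDy₀ : ‖D y₀‖ ≤ 1 / 4 + 2 * γ := by
    rw [hDN]
    refine norm_le_of_weak (l := U) (v := fun p => L (y p) ξ - R (MulOpposite.op (y p)) ξ)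
      (by positivity) (fun p => ?_) ?_
    · rw [← hDN]
      obtain ⟨b, hb, h4, h3⟩ := hy3 p
      have h1 := hA1 b hb
      have h2 := hD2 (b - y p)
      have h5 := norm_le_norm_add_norm_sub (D b) (D (y p))
      rw [map_sub] at h2
      linarith
    · simp only [inner_sub_right]
      exact (hnorm _ hL _).sub (hnorm _ hR _)
  rw [← hDN]
  have e : (z : H →L[ℂ] H) =
      (2 : ℂ) • (y₀ : H →L[ℂ] H) - (2 : ℂ) • ((y₀ : H →L[ℂ] H) - (2⁻¹ : ℂ) • x) + (z - x) := by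
    rw [smul_sub, smul_smul]; simp
  have h1 := hD2 ((2 : ℂ) • ((y₀ : H →L[ℂ] H) - (2⁻¹ : ℂ) • x))
  have h2 := hD2 (z - x)
  have h3 : ‖D z‖ ≤ ‖D ((2 : ℂ) • (y₀ : H →L[ℂ] H))‖ +
      ‖D ((2 : ℂ) • ((y₀ : H →L[ℂ] H) - (2⁻¹ : ℂ) • x))‖ + ‖D (z - x)‖ := by
    conv_lhs => rw [e, map_add, map_sub]
    exact (norm_add_le _ _).trans (add_le_add_left (norm_sub_le _ _) _)
  rw [map_smul, norm_smul] at h3
  rw [norm_smul] at h1
  simp only [Complex.norm_ofNat] at h1 h3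
  linarith

end Pool.Agent.MP_890ef7_an

end
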