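import Mathlib
import Pool.Agent.MP_a3b3aa_an.UltraDefs

section

open Filter Topology
open scoped ComplexOrder InnerProductSpace ComplexConjugate

namespace Pool.Agent.MP_a3b3aa_an

/-- The Hilbert space `ℓ²(G)`. -/
abbrev L2 (G : Type) : Type := lp (fun _ : G => ℂ) 2

variable {G : Type}

lemma memℓp_two_iff {f : G → ℂ} : Memℓp f 2 ↔ Summable fun g => ‖f g‖ ^ 2 := by
  rw [memℓp_gen_iff (by norm_num)]
  simp

lemma hasSum_sq (ξ : L2 G) : HasSum (fun g => ‖ξ g‖ ^ 2) (‖ξ‖ ^ 2) := by
  simpa using lp.hasSum_norm (p := 2) (by norm_num) ξ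

lemma memℓp_W (e : G ≃ G) (c : G → ℂ) (hc : ∀ g, ‖c g‖ ≤ 1) (ξ : L2 G) :
    Memℓp (fun g => c g * ξ (e g)) 2 := by
  rw [memℓp_two_iff]
  refine Summable.of_nonneg_of_le (fun _ => by positivity) (fun g => ?_)
    ((e.summable_iff (f := fun g => ‖ξ g‖ ^ 2)).2 (hasSum_sq ξ).summable)
  simp only [norm_mul, Function.comp]
  gcongr
  exact mul_le_of_le_one_left (norm_nonneg _) (hc g)

lemma norm_le_of_sq {ξ η : L2 G} (e : G ≃ G) (h : ∀ g, ‖η g‖ ≤ ‖ξ (e g)‖) : ‖η‖ ≤ ‖ξ‖ := by
  have h1 : HasSum (fun g => ‖ξ (e g)‖ ^ 2) (‖ξ‖ ^ 2) :=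
    (e.hasSum_iff (f := fun g => ‖ξ g‖ ^ 2)).2 (hasSum_sq ξ)
  have h2 := hasSum_le (fun g => by gcongr; exact h g) (hasSum_sq η) h1
  exact (pow_le_pow_iff_left₀ (norm_nonneg _) (norm_nonneg _) two_ne_zero).1 h2

/-- Weighted composition operators on `ℓ²(G)`. -/
noncomputable def W (e : G ≃ G) (c : G → ℂ) (hc : ∀ g, ‖c g‖ ≤ 1) : L2 G →L[ℂ] L2 G :=
  LinearMap.mkContinuous
    { toFun := fun ξ => ⟨fun g => c g * ξ (e g), memℓp_W e c hc ξ⟩
      map_add' := fun ξ η => lp.ext (funext fun g => by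
        change c g * (ξ + η) (e g) = c g * ξ (e g) + c g * η (e g)
        simp [mul_add])
      map_smul' := fun a ξ => lp.ext (funext fun g => by
        change c g * (a • ξ) (e g) = a * (c g * ξ (e g))
        simp [mul_left_comm]) } 1 (fun ξ => by
    rw [one_mul]
    refine norm_le_of_sq e fun g => ?_
    change ‖c g * ξ (e g)‖ ≤ _
    rw [norm_mul]
    exact mul_le_of_le_one_left (norm_nonneg _) (hc g))

@[simp] lemma W_apply (e : G ≃ G) (c : G → ℂ) (hc : ∀ g, ‖c g‖ ≤ 1) (ξ : L2 G) (g : G) :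
    W e c hc ξ g = c g * ξ (e g) := rfl

lemma norm_W_le (e : G ≃ G) (c : G → ℂ) (hc : ∀ g, ‖c g‖ ≤ 1) : ‖W e c hc‖ ≤ 1 :=
  LinearMap.mkContinuous_norm_le _ zero_le_one _

lemma op_ext {x y : L2 G →L[ℂ] L2 G} (h : ∀ ξ g, x ξ g = y ξ g) : x = y :=
  ContinuousLinearMap.ext fun ξ => lp.ext (funext fun g => h ξ g)

lemma star_W (e : G ≃ G) (c : G → ℂ) (hc : ∀ g, ‖c g‖ ≤ 1) :
    star (W e c hc) = W e.symm (fun g => conj (c (e.symm g))) (fun g => by simpa using hc _) := by
  symm
  rw [ContinuousLinearMap.star_eq_adjoint, ContinuousLinearMap.eq_adjoint_iff]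
  intro ξ η
  rw [lp.inner_eq_tsum, lp.inner_eq_tsum, ← e.tsum_eq]
  refine tsum_congr fun g => ?_
  simp only [W_apply, Equiv.symm_apply_apply, RCLike.inner_apply, map_mul, RCLike.conj_conj]
  ring

variable [DecidableEq G]

/-- The canonical basis vectors. -/
noncomputable def δ (g : G) : L2 G := lp.single 2 g 1

lemma δ_apply (g h : G) : δ g h = if h = g then 1 else 0 := by
  simp [δ, lp.single_apply, Pi.single_apply]

lemma inner_δ (g : G) (ξ : L2 G) : ⟪δ g, ξ⟫_ℂ = ξ g := by
  simp [δ, lp.inner_single_left]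

lemma norm_δ (g : G) : ‖δ g‖ = 1 := by
  simp [δ, lp.norm_single]

lemma hasSum_δ (ξ : L2 G) : HasSum (fun g => ξ g • δ g) ξ := by
  have := lp.hasSum_single (p := 2) (by simp) ξ
  convert this using 2 with g
  rw [δ, ← lp.single_smul]
  simp

lemma eq_zero_of_δ {x : L2 G →L[ℂ] L2 G} (h : ∀ g, x (δ g) = 0) : x = 0 := by
  ext1 ξ
  have h1 := (hasSum_δ ξ).mapL x
  simp only [map_smul, h, smul_zero] at h1
  exact h1.unique hasSum_zero

lemma separable_L2 [Countable G] : TopologicalSpace.SeparableSpace (L2 G) := by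
  have h1 : TopologicalSpace.IsSeparable
      (closure (Submodule.span ℂ (Set.range (δ : G → L2 G)) : Set (L2 G))) :=
    ((Set.countable_range _).isSeparable.span).closure
  rw [← TopologicalSpace.isSeparable_univ_iff]
  refine h1.mono fun ξ _ => ?_
  refine mem_closure_of_tendsto (hasSum_δ ξ) (Eventually.of_forall fun s => ?_)
  exact Submodule.sum_mem _ fun g _ =>
    Submodule.smul_mem _ _ (Submodule.subset_span (Set.mem_range_self g))

omit [DecidableEq G] in
open Classical in
/-- The projection onto `ℓ²(S)`. -/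
noncomputable def P (S : Set G) : L2 G →L[ℂ] L2 G :=
  W (Equiv.refl G) (fun g => if g ∈ S then 1 else 0) (fun g => by split_ifs <;> simp)

omit [DecidableEq G] in
open Classical in
lemma hasSum_P (S : Set G) (ξ : L2 G) :
    HasSum (fun g => if g ∈ S then ‖ξ g‖ ^ 2 else 0) (‖P S ξ‖ ^ 2) := by
  convert hasSum_sq (P S ξ) using 2 with g
  simp only [P, W_apply, Equiv.refl_apply]
  split_ifs <;> simp

omit [DecidableEq G] in
lemma norm_P_le (S : Set G) (ξ : L2 G) : ‖P S ξ‖ ≤ ‖ξ‖ := by
  simpa using (P S).le_of_opNorm_le (norm_W_le _ _ _) ξ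

omit [DecidableEq G] in
/-- Almost invariance of `ξ` under a weighted permutation gives almost invariance of masses. -/
lemma norm_P_image_sub (e : G ≃ G) (c : G → ℂ) (hc : ∀ g, ‖c g‖ ≤ 1) (hc' : ∀ g, ‖c g‖ = 1)
    (S : Set G) (ξ : L2 G) :
    |‖P S ξ‖ - ‖P (e '' S) ξ‖| ≤ ‖ξ - W e c hc ξ‖ := by
  classical
  have h1 : ‖P (e '' S) ξ‖ = ‖P S (W e c hc ξ)‖ := by
    apply le_antisymm
    · refine norm_le_of_sq e.symm fun g => ?_
      simp only [P, W_apply, Equiv.refl_apply, norm_mul, hc', Equiv.apply_symm_apply,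
        Set.mem_image_equiv, one_mul]
      convert le_rfl
    · refine norm_le_of_sq e fun g => ?_
      simp only [P, W_apply, Equiv.refl_apply, norm_mul, hc', Set.mem_image_equiv,
        Equiv.symm_apply_apply, one_mul]
      convert le_rfl
  rw [h1]
  refine (abs_norm_sub_norm_le _ _).trans ?_
  rw [← map_sub]
  exact norm_P_le _ _

end Pool.Agent.MP_a3b3aa_an

end

section

open Filter Topology
open scoped ComplexOrder InnerProductSpace ComplexConjugate BoundedContinuousFunction

namespace Pool.Agent.MP_a3b3aa_an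

variable {G : Type} [Group G]

/-- The left regular representation. -/
noncomputable def lam (g : G) : L2 G →L[ℂ] L2 G :=
  W (Equiv.mulLeft g⁻¹) (fun _ => 1) (fun _ => by simp)

/-- The right regular representation. -/
noncomputable def rho (g : G) : L2 G →L[ℂ] L2 G :=
  W (Equiv.mulRight g) (fun _ => 1) (fun _ => by simp)

@[simp] lemma lam_apply (g : G) (ξ : L2 G) (h : G) : lam g ξ h = ξ (g⁻¹ * h) := by simp [lam]

@[simp] lemma rho_apply (g : G) (ξ : L2 G) (h : G) : rho g ξ h = ξ (h * g) := by simp [rho]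

lemma star_rho (g : G) : star (rho g) = rho g⁻¹ := by
  rw [rho, star_W]
  exact op_ext fun ξ h => by simp

variable (G) in
/-- The group von Neumann algebra, as the commutant of the right regular representation. -/
noncomputable def LG : VonNeumannAlgebra (L2 G) where
  toStarSubalgebra := StarSubalgebra.centralizer ℂ (Set.range (rho : G → _))
  centralizer_centralizer' := by
    exact Set.centralizer_centralizer_centralizer
      (Set.range (rho : G → _) ∪ star (Set.range (rho : G → _)))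

lemma mem_LG {x : L2 G →L[ℂ] L2 G} :
    x ∈ (LG G).toStarSubalgebra ↔ ∀ g, rho g * x = x * rho g := by
  change x ∈ StarSubalgebra.centralizer ℂ (Set.range (rho : G → _)) ↔ _
  rw [StarSubalgebra.mem_centralizer_iff]
  constructor
  · intro h g
    exact (h _ (Set.mem_range_self g)).1
  · rintro h _ ⟨g, rfl⟩
    exact ⟨h g, by rw [star_rho]; exact h _⟩

variable (G) in
/-- The group von Neumann algebra as an abstract C*-algebra. -/
def AG : Type := ↥(LG G).toStarSubalgebra

instance : IsClosed ((LG G).toStarSubalgebra : Set (L2 G →L[ℂ] L2 G)) :=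
  Set.isClosed_centralizer (Set.range (rho : G → _) ∪ star (Set.range (rho : G → _)))

noncomputable instance : CStarAlgebra (AG G) :=
  inferInstanceAs (CStarAlgebra ↥(LG G).toStarSubalgebra)

noncomputable instance : PartialOrder (AG G) := CStarAlgebra.spectralOrder _

instance : StarOrderedRing (AG G) := CStarAlgebra.spectralOrderedRing _

variable (G) in
/-- The defining representation. -/
noncomputable def rep : AG G →⋆ₐ[ℂ] (L2 G →L[ℂ] L2 G) := (LG G).toStarSubalgebra.subtype

lemma rep_injective : Function.Injective (rep G) := Subtype.val_injective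

lemma rep_mem (x : AG G) : rep G x ∈ (LG G).toStarSubalgebra := x.2

lemma norm_rep (x : AG G) : ‖rep G x‖ = ‖x‖ := rfl

lemma range_rep : Set.range (rep G) = LG G := Subtype.range_coe

/-- The canonical unitaries of the group von Neumann algebra. -/
noncomputable def lamN (g : G) : AG G :=
  ⟨lam g, mem_LG.2 fun h => op_ext fun ξ k => by simp [mul_assoc]⟩

lemma rep_lamN (g : G) : rep G (lamN g) = lam g := rfl

variable [DecidableEq G]

lemma rho_δ (g : G) : rho g⁻¹ (δ 1) = δ g := by
  refine lp.ext (funext fun h => ?_)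
  simp [δ_apply, mul_inv_eq_one]

lemma lam_δ (g : G) : lam g (δ 1) = δ g := by
  refine lp.ext (funext fun h => ?_)
  simp [δ_apply, inv_mul_eq_one, eq_comm]

lemma apply_δ (x : AG G) (g : G) :
    rep G x (δ g) = rho g⁻¹ (rep G x (δ 1)) := by
  rw [← rho_δ g]
  exact (congrArg (fun T : L2 G →L[ℂ] L2 G => T (δ 1)) (mem_LG.1 (rep_mem x) g⁻¹)).symm

lemma eq_zero_of_apply_δ {x : AG G} (h : rep G x (δ 1) = 0) : x = 0 :=
  rep_injective (by rw [map_zero]; exact eq_zero_of_δ fun g => by rw [apply_δ, h, map_zero])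

lemma inner_star_mul (x y : AG G) :
    ⟪δ 1, rep G (star x * y) (δ 1)⟫_ℂ =
      ⟪rep G x (δ 1), rep G y (δ 1)⟫_ℂ := by
  change ⟪δ 1, (star (rep G x)) (rep G y (δ 1))⟫_ℂ = _
  rw [ContinuousLinearMap.star_eq_adjoint, ContinuousLinearMap.adjoint_inner_right]

lemma trace_mul_eq (x y : AG G) :
    ⟪δ 1, rep G (x * y) (δ 1)⟫_ℂ =
      ∑' g, rep G x (δ 1) g⁻¹ * rep G y (δ 1) g := by
  have := inner_star_mul (star x) y
  rw [star_star] at this
  rw [this, lp.inner_eq_tsum]
  refine tsum_congr fun g => ?_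
  have h : conj (rep G (star x) (δ 1) g) =
      rep G x (δ 1) g⁻¹ := by
    rw [← inner_δ g, inner_conj_symm]
    change ⟪(star (rep G x)) (δ 1), δ g⟫_ℂ = _
    rw [ContinuousLinearMap.star_eq_adjoint, ContinuousLinearMap.adjoint_inner_left, inner_δ,
      apply_δ]
    simp
  rw [RCLike.inner_apply, h, mul_comm]

variable (G) in
/-- The canonical trace of the group von Neumann algebra. -/
noncomputable def trG : TracialState (AG G) where
  toFun :=
    { toFun := fun x => ⟪δ 1, rep G x (δ 1)⟫_ℂ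
      map_add' := fun x y => by simp
      map_smul' := fun c x => by simp }
  map_one := by simp [inner_δ, δ_apply]
  nonneg x hx := by
    have h1 : 0 ≤ rep G x := map_nonneg (rep G) hx
    exact ((ContinuousLinearMap.nonneg_iff_isPositive _).1 h1).inner_nonneg_right (δ 1)
  faithful x hx := by
    have h := inner_star_mul x x
    simp only [LinearMap.coe_mk, AddHom.coe_mk] at hx
    rw [hx] at h
    exact eq_zero_of_apply_δ (inner_self_eq_zero.1 h.symm)
  tracial x y := by
    simp only [LinearMap.coe_mk, AddHom.coe_mk]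
    rw [trace_mul_eq, trace_mul_eq, ← (Equiv.inv G).tsum_eq]
    refine tsum_congr fun g => ?_
    simp [mul_comm]

lemma trG_apply (x : AG G) :
    (trG G).toFun x = ⟪δ 1, rep G x (δ 1)⟫_ℂ := rfl

lemma isNormal_trG : IsNormal (rep G) (trG G).toFun := fun _ _ _ h => h (δ 1) (δ 1)

lemma q_trG (x : AG G) : (trG G).q x = ‖rep G x (δ 1)‖ ^ 2 := by
  rw [TracialState.q, trG_apply, inner_star_mul, inner_self_eq_norm_sq_to_K]
  norm_cast

lemma not_finiteDimensional [Infinite G] : ¬ FiniteDimensional ℂ (AG G) := by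
  intro h
  let ev : AG G →ₗ[ℂ] L2 G :=
    { toFun := fun x => rep G x (δ 1)
      map_add' := fun x y => by simp
      map_smul' := fun c x => by simp }
  have h1 : Orthonormal ℂ (δ : G → L2 G) := by
    rw [orthonormal_iff_ite]
    intro g h
    rw [inner_δ, δ_apply]
  have h2 : LinearIndependent ℂ (lamN : G → AG G) := by
    refine LinearIndependent.of_comp ev ?_
    have : ev ∘ lamN = δ := funext lam_δ
    rw [this]
    exact h1.linearIndependent
  have := h2.finite
  exact not_finite G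

section Twist

variable (χ : G →* ℂ) (hχ : ∀ g, χ g = 1 ∨ χ g = -1)
include hχ

omit [DecidableEq G] in
lemma norm_chi (g : G) : ‖χ g‖ = 1 := by rcases hχ g with h | h <;> simp [h]

omit [DecidableEq G] in
lemma chi_mul_self (g : G) : χ g * χ g = 1 := by rcases hχ g with h | h <;> simp [h]

omit [DecidableEq G] in
lemma conj_chi (g : G) : conj (χ g) = χ g := by rcases hχ g with h | h <;> simp [h]

omit [DecidableEq G] in
lemma chi_inv (g : G) : χ g⁻¹ = χ g := by
  have h1 : χ g⁻¹ * χ g = 1 := by rw [← map_mul]; simp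
  calc χ g⁻¹ = χ g⁻¹ * (χ g * χ g) := by rw [chi_mul_self χ hχ, mul_one]
    _ = χ g := by rw [← mul_assoc, h1, one_mul]

/-- Multiplication by the character `χ`. -/
noncomputable def V : L2 G →L[ℂ] L2 G := W (Equiv.refl G) χ fun g => (norm_chi χ hχ g).le

omit [DecidableEq G] in
@[simp] lemma V_apply (ξ : L2 G) (g : G) : V χ hχ ξ g = χ g * ξ g := rfl

omit [DecidableEq G] in
lemma star_V : star (V χ hχ) = V χ hχ := by
  rw [V, star_W]
  exact op_ext fun ξ h => by simp [conj_chi χ hχ]

omit [DecidableEq G] in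
lemma V_mul_V : V χ hχ * V χ hχ = 1 :=
  op_ext fun ξ h => by simp [← mul_assoc, chi_mul_self χ hχ]

omit [DecidableEq G] in
lemma V_V (ξ : L2 G) : V χ hχ (V χ hχ ξ) = ξ :=
  congrArg (fun T : L2 G →L[ℂ] L2 G => T ξ) (V_mul_V χ hχ)

omit [DecidableEq G] in
lemma inner_V (ξ η : L2 G) : ⟪ξ, V χ hχ η⟫_ℂ = ⟪V χ hχ ξ, η⟫_ℂ := by
  conv_lhs => rw [← star_V, ContinuousLinearMap.star_eq_adjoint,
    ContinuousLinearMap.adjoint_inner_right]

lemma V_δ : V χ hχ (δ 1) = δ 1 := by
  refine lp.ext (funext fun h => ?_)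
  rw [V_apply, δ_apply]
  split_ifs with h1 <;> simp [*]

omit [DecidableEq G] in
lemma rho_mul_V (g : G) : rho g * V χ hχ = χ g • (V χ hχ * rho g) :=
  op_ext fun ξ h => by
    change rho g (V χ hχ ξ) h = χ g * V χ hχ (rho g ξ) h
    simp only [rho_apply, V_apply, map_mul]
    ring

omit [DecidableEq G] in
lemma V_mem (x : AG G) :
    V χ hχ * rep G x * V χ hχ ∈ (LG G).toStarSubalgebra := by
  refine mem_LG.2 fun g => ?_
  have h := mem_LG.1 (rep_mem x) g
  calc rho g * (V χ hχ * rep G x * V χ hχ) = (rho g * V χ hχ) * rep G x * V χ hχ := by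
        simp only [mul_assoc]
    _ = χ g • (V χ hχ * (rho g * rep G x) * V χ hχ) := by
        rw [rho_mul_V]; simp only [smul_mul_assoc, mul_assoc]
    _ = χ g • (V χ hχ * rep G x * (rho g * V χ hχ)) := by rw [h]; simp only [mul_assoc]
    _ = V χ hχ * rep G x * V χ hχ * rho g := by
        rw [rho_mul_V, mul_smul_comm, smul_smul, chi_mul_self χ hχ, one_smul]
        simp only [mul_assoc]

/-- The underlying map of the twist. -/
noncomputable def twistFun (x : AG G) : AG G := ⟨V χ hχ * rep G x * V χ hχ, V_mem χ hχ x⟩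

omit [DecidableEq G] in
lemma rep_twistFun (x : AG G) : rep G (twistFun χ hχ x) = V χ hχ * rep G x * V χ hχ := rfl

/-- The automorphism `λ(g) ↦ χ(g) λ(g)` of the group von Neumann algebra. -/
noncomputable def twist : AG G →⋆ₐ[ℂ] AG G where
  toFun := twistFun χ hχ
  map_one' := rep_injective (by simpa [rep_twistFun] using V_mul_V χ hχ)
  map_mul' x y := rep_injective (by
    simp only [rep_twistFun, map_mul]
    calc V χ hχ * (rep G x * rep G y) * V χ hχ =
          V χ hχ * rep G x * (V χ hχ * V χ hχ) * rep G y * V χ hχ := by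
          rw [V_mul_V]; simp only [mul_assoc, one_mul]
      _ = _ := by simp only [mul_assoc])
  map_zero' := rep_injective (by simp [rep_twistFun])
  map_add' x y := rep_injective (by simp [rep_twistFun, mul_add, add_mul])
  commutes' c := rep_injective (by
    simp [rep_twistFun, Algebra.algebraMap_eq_smul_one, V_mul_V])
  map_star' x := rep_injective (by
    simp only [rep_twistFun, map_star, star_mul, star_V, mul_assoc])

omit [DecidableEq G] in
lemma twist_apply (x : AG G) (ξ : L2 G) :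
    rep G (twist χ hχ x) ξ = V χ hχ (rep G x (V χ hχ ξ)) := rfl

omit [DecidableEq G] in
lemma twist_twist (x : AG G) : twist χ hχ (twist χ hχ x) = x := by
  refine rep_injective (ContinuousLinearMap.ext fun ξ => ?_)
  rw [twist_apply, twist_apply, V_V, V_V]

omit [DecidableEq G] in
lemma twist_lamN (g : G) : twist χ hχ (lamN g) = χ g • lamN g := by
  refine rep_injective (op_ext fun ξ h => ?_)
  rw [twist_apply]
  change _ = χ g * lam g ξ h
  change V χ hχ (lam g (V χ hχ ξ)) h = _
  simp only [V_apply, lam_apply, map_mul, chi_inv χ hχ]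
  linear_combination (χ g * ξ (g⁻¹ * h)) * chi_mul_self χ hχ h

omit [DecidableEq G] in
lemma norm_twist_le (x : AG G) : ‖twist χ hχ x‖ ≤ ‖x‖ := by
  change ‖V χ hχ * rep G x * V χ hχ‖ ≤ ‖rep G x‖
  have h : ‖V χ hχ‖ ≤ 1 := norm_W_le _ _ _
  calc _ ≤ ‖V χ hχ‖ * ‖rep G x‖ * ‖V χ hχ‖ := norm_mul₃_le
    _ ≤ 1 * ‖rep G x‖ * 1 := by gcongr
    _ = _ := by ring

lemma tr_twist (x : AG G) : (trG G).toFun (twist χ hχ x) = (trG G).toFun x := by
  rw [trG_apply, trG_apply, twist_apply, inner_V, V_δ]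

omit [DecidableEq G] in
lemma IsNormal.comp_twist {f : AG G → ℂ} (hf : IsNormal (rep G) f) :
    IsNormal (rep G) fun x => f (twist χ hχ x) := by
  rintro l a ⟨C, hC⟩ h
  refine hf (l.map (twist χ hχ)) (twist χ hχ a) ⟨C, ?_⟩ fun ξ η => ?_
  · rw [eventually_map]
    exact hC.mono fun x hx => (norm_twist_le χ hχ x).trans hx
  · rw [tendsto_map'_iff]
    simpa only [Function.comp_def, twist_apply, inner_V] using h (V χ hχ ξ) (V χ hχ η)

end Twist

end Pool.Agent.MP_a3b3aa_an

end
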