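import Mathlib
import Pool.Agent.MP_a3b3aa_an.UltraDefs
import Pool.Agent.Mg.F890ef7p.G6c7535
import Pool.Agent.Mg.F890ef7p.G62d00b
import Pool.Agent.Mg.F890ef7p.G7e54e1

section

/-! Matrix units, and the affine group used as a model. -/

namespace Pool.Agent.MP_a3b3aa_an.E

/-- A system of matrix units, not necessarily unital. -/
structure MU {N : Type} [Ring N] [StarRing N] {ι : Type} [DecidableEq ι] (e : ι → ι → N) :
    Prop where
  star_eq : ∀ i j, star (e i j) = e j i
  mul_eq : ∀ i j k l, e i j * e k l = if j = k then e i l else 0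

/-- The affine map `v ↦ g v + (x, y)` of the integer plane, `g = [[a, b], [c, d]]` of
determinant one with `b` even. -/
@[ext] structure Aff where
  a : ℤ
  b : ℤ
  c : ℤ
  d : ℤ
  x : ℤ
  y : ℤ
  det : a * d - b * c = 1
  ev : Even b
  deriving DecidableEq

namespace Aff

instance : One Aff := ⟨⟨1, 0, 0, 1, 0, 0, by norm_num, by simp⟩⟩

lemma odd_a (g : Aff) : Odd g.a := by
  have h := g.det
  obtain ⟨k, hk⟩ := g.ev
  have : Odd (g.a * g.d) := ⟨k * g.c, by rw [hk] at h; linarith⟩
  exact (Int.odd_mul.1 this).1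

instance : Mul Aff := ⟨fun g h =>
  ⟨g.a * h.a + g.b * h.c, g.a * h.b + g.b * h.d, g.c * h.a + g.d * h.c, g.c * h.b + g.d * h.d,
    g.x + (g.a * h.x + g.b * h.y), g.y + (g.c * h.x + g.d * h.y), by
      have h1 := g.det
      have h2 := h.det
      linear_combination (h.a * h.d - h.b * h.c) * h1 + h2,
    (h.ev.mul_left _).add (g.ev.mul_right _)⟩⟩

instance : Inv Aff := ⟨fun g =>
  ⟨g.d, -g.b, -g.c, g.a, -(g.d * g.x - g.b * g.y), -(-g.c * g.x + g.a * g.y), by
    have h1 := g.det
    linear_combination h1, g.ev.neg⟩⟩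

@[simp] lemma one_a : (1 : Aff).a = 1 := rfl
@[simp] lemma one_b : (1 : Aff).b = 0 := rfl
@[simp] lemma one_c : (1 : Aff).c = 0 := rfl
@[simp] lemma one_d : (1 : Aff).d = 1 := rfl
@[simp] lemma one_x : (1 : Aff).x = 0 := rfl
@[simp] lemma one_y : (1 : Aff).y = 0 := rfl
@[simp] lemma mul_a (g h : Aff) : (g * h).a = g.a * h.a + g.b * h.c := rfl
@[simp] lemma mul_b (g h : Aff) : (g * h).b = g.a * h.b + g.b * h.d := rfl
@[simp] lemma mul_c (g h : Aff) : (g * h).c = g.c * h.a + g.d * h.c := rfl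
@[simp] lemma mul_d (g h : Aff) : (g * h).d = g.c * h.b + g.d * h.d := rfl
@[simp] lemma mul_x (g h : Aff) : (g * h).x = g.x + (g.a * h.x + g.b * h.y) := rfl
@[simp] lemma mul_y (g h : Aff) : (g * h).y = g.y + (g.c * h.x + g.d * h.y) := rfl
@[simp] lemma inv_a (g : Aff) : g⁻¹.a = g.d := rfl
@[simp] lemma inv_b (g : Aff) : g⁻¹.b = -g.b := rfl
@[simp] lemma inv_c (g : Aff) : g⁻¹.c = -g.c := rfl
@[simp] lemma inv_d (g : Aff) : g⁻¹.d = g.a := rfl
@[simp] lemma inv_x (g : Aff) : g⁻¹.x = -(g.d * g.x - g.b * g.y) := rfl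
@[simp] lemma inv_y (g : Aff) : g⁻¹.y = -(-g.c * g.x + g.a * g.y) := rfl

instance : Group Aff := Group.ofLeftAxioms
  (fun g h k => by ext <;> simp <;> ring)
  (fun g => by ext <;> simp)
  (fun g => by
    have h := g.det
    ext <;> simp <;> linarith)

instance : Countable Aff :=
  Function.Injective.countable (f := fun g : Aff => (g.a, g.b, g.c, g.d, g.x, g.y))
    fun g h e => by
      simp only [Prod.mk.injEq] at e
      obtain ⟨h1, h2, h3, h4, h5, h6⟩ := e
      ext <;> assumption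

end Aff

end Pool.Agent.MP_a3b3aa_an.E

end

section

/-! Support projections, isometries between projections, and increasing limits of
projections in a factor. -/

open Filter Topology
open scoped InnerProductSpace ComplexOrder

set_option linter.unusedSectionVars false
set_option maxHeartbeats 400000

namespace Pool.Agent.MP_a3b3aa_an.E

/-- Projections. -/
def Pj {N : Type} [Mul N] [Star N] (p : N) : Prop := star p = p ∧ p * p = p

variable {N : Type} [CStarAlgebra N] [PartialOrder N] [StarOrderedRing N]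
variable {H : Type} [NormedAddCommGroup H] [InnerProductSpace ℂ H] [CompleteSpace H]
variable {ρ : N →⋆ₐ[ℂ] (H →L[ℂ] H)} {τ : TracialState N}

lemma Pj.one_sub {p : N} (h : Pj p) : Pj (1 - p) :=
  ⟨by rw [star_sub, star_one, h.1], by rw [sub_mul, one_mul, mul_sub, mul_one, h.2]; abel⟩

lemma Pj.norm_le {p : N} (h : Pj p) : ‖p‖ ≤ 1 := by
  have h1 : ‖p‖ * ‖p‖ = ‖p‖ := by rw [← CStarRing.norm_star_mul_self, h.1, h.2]
  by_contra hc
  push Not at hc
  nlinarith

lemma Pj.nonneg {p : N} (h : Pj p) : 0 ≤ p := by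
  have := star_mul_self_nonneg p
  rwa [h.1, h.2] at this

lemma Pj.q_eq (τ : TracialState N) {p : N} (h : Pj p) : τ.q p = (τ.toFun p).re := by
  rw [TracialState.q, h.1, h.2]

lemma Pj.tr_nonneg (τ : TracialState N) {p : N} (h : Pj p) : 0 ≤ (τ.toFun p).re := by
  rw [← h.q_eq τ]; exact τ.q_nonneg p

lemma Pj.tr_pos (τ : TracialState N) {p : N} (h : Pj p) (h0 : p ≠ 0) : 0 < (τ.toFun p).re := by
  refine (h.tr_nonneg τ).lt_of_ne fun e => h0 (τ.faithful p ?_)
  rw [← τ.coe_q, h.q_eq τ, ← e, Complex.ofReal_zero]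

lemma Pj.tr_le_one (τ : TracialState N) {p : N} (h : Pj p) : (τ.toFun p).re ≤ 1 := by
  have := h.one_sub.tr_nonneg τ
  rw [map_sub, τ.map_one, Complex.sub_re, Complex.one_re] at this
  linarith

lemma Pj.mul_comm_of {p q : N} (hp : Pj p) (hq : Pj q) (h : p * q = q) : q * p = q := by
  have := congrArg star h
  rwa [star_mul, hp.1, hq.1] at this

lemma mem_range (hN : IsSeparableIIOneFactor ρ τ) {z : H →L[ℂ] H}
    (hz : ∀ y : H →L[ℂ] H, (∀ x, ρ x * y = y * ρ x) → y * z = z * y) : ∃ x, ρ x = z := by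
  obtain ⟨M, hM⟩ := hN.vonNeumann
  have : z ∈ Set.centralizer (Set.centralizer (M : Set (H →L[ℂ] H))) := fun y hy =>
    hz y fun x => hy _ (hM ▸ Set.mem_range_self x)
  rw [M.centralizer_centralizer, ← hM] at this
  exact this

lemma baer (hN : IsSeparableIIOneFactor ρ τ) (S : Set N) :
    ∃ P : N, Pj P ∧ (∀ x ∈ S, P * x = x) ∧ ∀ a, (∀ x ∈ S, a * x = 0) → a * P = 0 := by
  let W0 : Submodule ℂ H := Submodule.span ℂ {v | ∃ x ∈ S, ∃ ξ, v = ρ x ξ}
  let W := W0.topologicalClosure
  have hinv : ∀ y : H →L[ℂ] H, (∀ x, ρ x * y = y * ρ x) → ∀ w ∈ W, y w ∈ W := by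
    intro y hy w hw
    have : Set.MapsTo y W0 W0 := by
      intro v hv
      refine Submodule.span_induction (p := fun v _ => y v ∈ W0) ?_ ?_ ?_ ?_ hv
      · rintro _ ⟨x, hx, ξ, rfl⟩
        refine Submodule.subset_span ⟨x, hx, y ξ, ?_⟩
        exact (congrArg (fun T : H →L[ℂ] H => T ξ) (hy x)).symm
      · simp
      · intro a b _ _ ha hb
        rw [map_add]; exact W0.add_mem ha hb
      · intro c a _ ha
        rw [map_smul]; exact W0.smul_mem c ha
    exact this.closure y.continuous hw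
  obtain ⟨P, hP⟩ := mem_range hN (z := W.starProjection) fun y hy => by
    have hy' : ∀ x, ρ x * star y = star y * ρ x := fun x => by
      have := congrArg star (hy (star x))
      simpa [map_star] using this.symm
    ext η
    symm
    refine Submodule.eq_starProjection_of_mem_of_inner_eq_zero
      (hinv y hy _ (W.starProjection_apply_mem η)) fun w hw => ?_
    change ⟪y η - y (W.starProjection η), w⟫_ℂ = 0
    rw [← map_sub, ← ContinuousLinearMap.adjoint_inner_right]
    exact Submodule.starProjection_inner_eq_zero η _ (hinv _ hy' w hw)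
  have hsp : IsStarProjection W.starProjection := isStarProjection_starProjection
  refine ⟨P, ⟨hN.injective ?_, hN.injective ?_⟩, fun x hx => hN.injective ?_,
    fun a ha => hN.injective ?_⟩
  · rw [map_star, hP]; exact hsp.isSelfAdjoint
  · rw [map_mul, hP]; exact hsp.isIdempotentElem
  · rw [map_mul, hP]
    ext ξ
    exact Submodule.starProjection_eq_self_iff.2
      (W0.le_topologicalClosure (Submodule.subset_span ⟨x, hx, ξ, rfl⟩))
  · rw [map_mul, hP, map_zero]
    ext ξ
    have h1 : W ≤ LinearMap.ker (ρ a).toLinearMap := by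
      refine Submodule.topologicalClosure_minimal _ ?_ (ρ a).isClosed_ker
      refine Submodule.span_le.2 ?_
      rintro _ ⟨x, hx, η, rfl⟩
      have := congrArg (fun T : N => ρ T η) (ha x hx)
      simpa using this
    exact h1 (W.starProjection_apply_mem ξ)

lemma exists_mul_ne (hN : IsSeparableIIOneFactor ρ τ) {p q : N} (hp : p ≠ 0) (hq : q ≠ 0) :
    ∃ x, p * x * q ≠ 0 := by
  by_contra h
  push Not at h
  obtain ⟨P, hP, h1, h2⟩ := baer hN (Set.range fun y => y * q)
  have h3 : ∀ y, (1 - P) * y * P = 0 := fun y => h2 _ (by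
    rintro _ ⟨w, rfl⟩
    have := h1 _ ⟨y * w, rfl⟩
    simp only at this ⊢
    rw [mul_assoc, ← mul_assoc y, sub_mul, one_mul, this, sub_self])
  obtain ⟨c, hc⟩ := hN.factor P fun y => by
    have a1 := h3 y
    have a2 := congrArg star (h3 (star y))
    simp only [star_mul, star_sub, star_one, hP.1, star_star, star_zero] at a2
    rw [sub_mul, sub_mul, one_mul, sub_eq_zero] at a1
    rw [mul_sub, mul_one, mul_sub, sub_eq_zero] at a2
    exact a2.trans (by rw [← mul_assoc]; exact a1.symm)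
  have h4 : P * q = q := by simpa using h1 _ ⟨1, rfl⟩
  have h5 : p * P = 0 := h2 p (by
    rintro _ ⟨w, rfl⟩
    simp only
    rw [← mul_assoc, h w])
  rw [hc, smul_mul_assoc, one_mul] at h4
  rw [hc, mul_smul_comm, mul_one, smul_eq_zero] at h5
  rcases h5 with h5 | h5
  · rw [h5, zero_smul] at h4; exact hq h4.symm
  · exact hp h5

lemma cm (h : N) {f g : ℝ → ℝ} (hf : Continuous f) (hg : Continuous g) :
    cfc f h * cfc g h = cfc (fun t => f t * g t) h :=
  (cfc_mul f g h hf.continuousOn hg.continuousOn).symm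

lemma exists_iso (hN : IsSeparableIIOneFactor ρ τ) {p q : N} (hp : Pj p) (hq : Pj q)
    (hp0 : p ≠ 0) (hq0 : q ≠ 0) :
    ∃ v e : N, Pj e ∧ e ≠ 0 ∧ star v * v = e ∧ p * v = v ∧ q * e = e := by
  obtain ⟨x, hx⟩ := exists_mul_ne hN hp0 hq0
  set y := p * x * q with hy
  set h := star y * y with hh
  have hsa : IsSelfAdjoint h := IsSelfAdjoint.star_mul_self y
  have hn : 0 < ‖h‖ := by
    rw [hh, CStarRing.norm_star_mul_self]
    have := norm_pos_iff.2 hx
    positivity
  set d := ‖h‖ / 2 with hd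
  have hd0 : 0 < d := by positivity
  let f : ℝ → ℝ := fun t => max (t - d) 0
  let g : ℝ → ℝ := fun t => (√(max t d))⁻¹
  let f1 : ℝ → ℝ := fun t => max (t - d) 0 / max t d
  have hm : ∀ t, 0 < max t d := fun t => hd0.trans_le (le_max_right _ _)
  have hf : Continuous f := by fun_prop
  have hg : Continuous g := Continuous.inv₀ (by fun_prop) fun t => (Real.sqrt_pos.2 (hm t)).ne'
  have hf1 : Continuous f1 := Continuous.div (by fun_prop) (by fun_prop) fun t => (hm t).ne'
  have hF : cfc f h ≠ 0 := by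
    intro h0
    have : Nontrivial N := ⟨⟨p, 0, hp0⟩⟩
    have h1 : ‖h‖ ∈ spectrum ℝ h :=
      CStarAlgebra.norm_mem_spectrum_of_nonneg (star_mul_self_nonneg y)
    have h2 := norm_apply_le_norm_cfc f h h1 hf.continuousOn hsa
    rw [h0, norm_zero] at h2
    have h3 : f ‖h‖ = 0 := by simpa using h2
    have h4 : ‖h‖ - d ≤ f ‖h‖ := le_max_left _ _
    linarith
  have hG : star (cfc g h) = cfc g h := (cfc_predicate g h : IsSelfAdjoint _)
  have e1 : (cfc g h * h * cfc g h - 1) * cfc f h = 0 := by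
    have : cfc g h * h * cfc g h * cfc f h = cfc f h := by
      have e0 : cfc g h * h * cfc g h * cfc f h =
          cfc g h * cfc (fun t : ℝ => t) h * cfc g h * cfc f h := by rw [cfc_id' ℝ h hsa]
      rw [e0, cm h hg continuous_id', cm h (f := fun t => g t * t) (hg.mul continuous_id') hg,
        cm h (f := fun t => g t * t * g t) ((hg.mul continuous_id').mul hg) hf]
      refine cfc_congr fun t _ => ?_
      simp only [f, g]
      rcases le_total t d with ht | ht
      · rw [max_eq_right (sub_nonpos.2 ht), mul_zero]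
      · rw [max_eq_left ht]
        have h1 : 0 < t := hd0.trans_le ht
        have h2 := Real.mul_self_sqrt h1.le
        have h3 := Real.sqrt_pos.2 h1
        field_simp
        rw [sq, h2]
    rw [sub_mul, this, one_mul, sub_self]
  have e2 : (1 - q) * cfc f h = 0 := by
    have : cfc f h = h * cfc f1 h := by
      have e0 : h * cfc f1 h = cfc (fun t : ℝ => t) h * cfc f1 h := by rw [cfc_id' ℝ h hsa]
      rw [e0, cm h continuous_id' hf1]
      refine cfc_congr fun t _ => ?_
      simp only [f, f1]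
      rcases le_total t d with ht | ht
      · rw [max_eq_right (sub_nonpos.2 ht), zero_div, mul_zero]
      · rw [max_eq_left ht]
        have h1 : 0 < t := hd0.trans_le ht
        field_simp
    have h2 : q * h = h := by
      rw [hh, hy, star_mul, hq.1, ← mul_assoc, ← mul_assoc, ← mul_assoc, ← mul_assoc, hq.2]
      simp only [mul_assoc]
    rw [this, ← mul_assoc, sub_mul, one_mul, h2, sub_self, zero_mul]
  obtain ⟨e, he, h1, h2⟩ := baer hN {cfc f h}
  have a1 := h2 _ (by rintro _ rfl; exact e1)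
  have a2 := h2 _ (by rintro _ rfl; exact e2)
  rw [sub_mul, one_mul, sub_eq_zero] at a1
  rw [sub_mul, one_mul, sub_eq_zero] at a2
  refine ⟨y * cfc g h * e, e, he, fun h0 => hF ?_, ?_, ?_, a2.symm⟩
  · rw [← h1 _ rfl, h0, zero_mul]
  · calc star (y * cfc g h * e) * (y * cfc g h * e)
        = e * (cfc g h * (star y * y) * cfc g h * e) := by
          simp only [star_mul, hG, he.1, mul_assoc]
      _ = e := by rw [← hh, a1, he.2]
  · rw [hy, ← mul_assoc, ← mul_assoc, ← mul_assoc, ← mul_assoc, hp.2]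

lemma exists_sup (hN : IsSeparableIIOneFactor ρ τ) (f : ℕ → N) (hf : ∀ n, Pj (f n))
    (hm : ∀ m n, m ≤ n → f n * f m = f m) :
    ∃ z : N, Pj z ∧ (∀ m, z * f m = f m) ∧
      Tendsto (fun n => τ.toFun (f n)) (hyperfilter ℕ) (𝓝 (τ.toFun z)) := by
  have hb : ∀ n, ‖ρ (f n)‖ ≤ 1 := fun n =>
    (NonUnitalStarAlgHom.norm_apply_le ρ (f n)).trans (hf n).norm_le
  obtain ⟨z, hz⟩ := Pool.Agent.MP_890ef7_an.exists_wot_lim (hyperfilter ℕ) (fun n => ρ (f n))
    zero_le_one hb
  have hadj : ∀ (T : H →L[ℂ] H) a b, ⟪a, T b⟫_ℂ = ⟪star T a, b⟫_ℂ := fun T a b => by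
    rw [ContinuousLinearMap.star_eq_adjoint, ContinuousLinearMap.adjoint_inner_left]
  have hext : ∀ S T : H →L[ℂ] H, (∀ a b, ⟪a, S b⟫_ℂ = ⟪a, T b⟫_ℂ) → S = T := fun S T h =>
    ContinuousLinearMap.ext fun b => ext_inner_left ℂ fun a => h a b
  obtain ⟨w, rfl⟩ := mem_range hN (z := z) fun y hy => hext _ _ fun a b => by
    change ⟪a, y (z b)⟫_ℂ = ⟪a, z (y b)⟫_ℂ
    rw [hadj y]
    refine tendsto_nhds_unique (hz _ _) ((hz a (y b)).congr fun n => ?_)
    rw [← hadj y]
    exact congrArg (fun T : H →L[ℂ] H => ⟪a, T b⟫_ℂ) (hy (f n))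
  have h1 : ∀ m, w * f m = f m := fun m => hN.injective (hext _ _ fun a b => by
    rw [map_mul]
    change ⟪a, ρ w (ρ (f m) b)⟫_ℂ = _
    refine tendsto_nhds_unique (hz _ _) (tendsto_const_nhds.congr' ?_)
    have : ∀ᶠ n in (hyperfilter ℕ : Filter ℕ), m ≤ n := by
      apply hyperfilter_le_cofinite
      rw [Nat.cofinite_eq_atTop]
      exact eventually_ge_atTop m
    filter_upwards [this] with n hn
    exact congrArg (fun T : H →L[ℂ] H => ⟪a, T b⟫_ℂ)
      ((congrArg ρ (hm m n hn)).symm.trans (map_mul ρ _ _)))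
  have h2 : star w = w := hN.injective (hext _ _ fun a b => by
    rw [map_star, hadj, star_star, ← inner_conj_symm]
    refine tendsto_nhds_unique ((Complex.continuous_conj.tendsto _).comp (hz b a))
      ((hz a b).congr fun n => ?_)
    simp only [Function.comp, inner_conj_symm]
    rw [hadj, ← map_star, (hf n).1])
  refine ⟨w, ⟨h2, hN.injective (hext _ _ fun a b => ?_)⟩, h1, ?_⟩
  · rw [map_mul]
    change ⟪a, ρ w (ρ w b)⟫_ℂ = _
    rw [hadj]
    refine tendsto_nhds_unique (hz _ _) ((hz a b).congr fun n => ?_)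
    rw [← hadj]
    exact congrArg (fun T : H →L[ℂ] H => ⟪a, T b⟫_ℂ)
      ((congrArg ρ (h1 n)).symm.trans (map_mul ρ _ _))
  · have := hN.normal (Filter.map f (hyperfilter ℕ)) w
      ⟨1, by rw [eventually_map]; exact Eventually.of_forall fun n => (hf n).norm_le⟩
      (fun a b => by rw [tendsto_map'_iff]; exact hz a b)
    rwa [tendsto_map'_iff] at this

end Pool.Agent.MP_a3b3aa_an.E

end

section

/-! A factor of type II₁ contains almost unital systems of matrix units of every size. -/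

open Filter Topology
open scoped InnerProductSpace ComplexOrder

set_option linter.unusedSectionVars false
set_option maxHeartbeats 400000

namespace Pool.Agent.MP_a3b3aa_an.E

variable {N : Type} [CStarAlgebra N] [PartialOrder N] [StarOrderedRing N]
variable {H : Type} [NormedAddCommGroup H] [InnerProductSpace ℂ H] [CompleteSpace H]
variable {ρ : N →⋆ₐ[ℂ] (H →L[ℂ] H)} {τ : TracialState N}

lemma eq_zero_of_nonneg (τ : TracialState N) {a : N} (ha : 0 ≤ a) (h : τ.toFun a = 0) : a = 0 := by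
  have h1 : star (CFC.sqrt a) * CFC.sqrt a = a := by
    rw [(IsSelfAdjoint.of_nonneg (CFC.sqrt_nonneg a)).star_eq, CFC.sqrt_mul_sqrt_self a ha]
  have h2 := τ.faithful (CFC.sqrt a) (by rw [h1, h])
  rw [← h1, h2, mul_zero]

lemma mul_eq_zero_of_sq {c b : N} (hb : star b = b) (h : c * b * b = 0) : c * b = 0 := by
  have : (c * b) * star (c * b) = 0 := by
    rw [star_mul, hb, ← mul_assoc, h, zero_mul]
  exact (CStarRing.mul_star_self_eq_zero_iff _).1 this

/-- Minimal projections. -/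
def IsMinP (r : N) : Prop := ∀ e, Pj e → r * e = e → e = 0 ∨ e = r

lemma min_sa (hN : IsSeparableIIOneFactor ρ τ) {r : N} (hr : Pj r) (hm : IsMinP r) {a : N}
    (ha : IsSelfAdjoint a) (h1 : r * a = a) (h2 : τ.toFun a = 0) : a = 0 := by
  have e0 := CFC.posPart_sub_negPart a ha
  have p0 := CFC.posPart_nonneg a
  have n0 := CFC.negPart_nonneg a
  have ps : star a⁺ = a⁺ := (IsSelfAdjoint.of_nonneg p0).star_eq
  have ns : star a⁻ = a⁻ := (IsSelfAdjoint.of_nonneg n0).star_eq
  have h3 : (1 - r) * a = 0 := by rw [sub_mul, one_mul, h1, sub_self]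
  have hp : (1 - r) * a⁺ = 0 := mul_eq_zero_of_sq ps (by
    have : a⁺ * a⁺ = a * a⁺ := by
      calc a⁺ * a⁺ = (a⁺ - a⁻) * a⁺ := by rw [sub_mul, CFC.negPart_mul_posPart, sub_zero]
        _ = a * a⁺ := by rw [e0]
    rw [mul_assoc, this, ← mul_assoc, h3, zero_mul])
  have hn : (1 - r) * a⁻ = 0 := by
    have : a⁻ = a⁺ - a := by rw [eq_sub_iff_add_eq, add_comm, ← eq_sub_iff_add_eq, e0]
    rw [this, mul_sub, hp, h3, sub_self]
  obtain ⟨e, he, b1, b2⟩ := baer hN {a⁺}
  have c1 := b2 _ (by rintro _ rfl; exact hp)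
  rw [sub_mul, one_mul, sub_eq_zero] at c1
  rcases hm e he c1.symm with h | h
  · have d1 : a⁺ = 0 := by rw [← b1 _ rfl, h, zero_mul]
    have d2 : a = -a⁻ := by rw [← zero_sub, ← d1, e0]
    have d3 : a⁻ = 0 := eq_zero_of_nonneg τ n0 (by
      have := congrArg τ.toFun d2
      rw [h2, map_neg] at this
      exact neg_eq_zero.1 this.symm)
    rw [d2, d3, neg_zero]
  · have d1 : a⁻ * r = 0 := h ▸ b2 _ (by rintro _ rfl; exact CFC.negPart_mul_posPart a)
    have d2 := congrArg star d1
    rw [star_mul, hr.1, ns, star_zero] at d2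
    rw [sub_mul, one_mul, d2, sub_zero] at hn
    rw [hn, sub_zero] at e0
    exact eq_zero_of_nonneg τ (e0 ▸ p0) h2

lemma min_scalar (hN : IsSeparableIIOneFactor ρ τ) {r : N} (hr : Pj r) (hr0 : r ≠ 0)
    (hm : IsMinP r) (x : N) : ∃ c : ℂ, r * x * r = c • r := by
  have ht : τ.toFun r ≠ 0 := fun h => by
    have := hr.tr_pos τ hr0
    rw [h] at this
    simp at this
  set c := τ.toFun (r * x * r) / τ.toFun r with hc
  set y := r * x * r - c • r with hy
  have y1 : r * y = y := by
    rw [hy, mul_sub, ← mul_assoc, ← mul_assoc, hr.2, mul_smul_comm, hr.2]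
  have y2 : y * r = y := by
    rw [hy, sub_mul, mul_assoc (r * x), hr.2, smul_mul_assoc, hr.2]
  have y3 : r * star y = star y := by
    have := congrArg star y2
    rwa [star_mul, hr.1] at this
  have y4 : τ.toFun y = 0 := by
    rw [hy, map_sub, map_smul, smul_eq_mul, hc, div_mul_cancel₀ _ ht, sub_self]
  have y5 : τ.toFun (star y) = 0 := by rw [τ.map_star, y4, star_zero]
  have a1 : y + star y = 0 := min_sa hN hr hm (IsSelfAdjoint.add_star_self y)
    (by rw [mul_add, y1, y3]) (by rw [map_add, y4, y5, add_zero])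
  have a2 : Complex.I • (y - star y) = 0 := min_sa hN hr hm
    (by
      rw [IsSelfAdjoint, star_smul, star_sub, star_star, Complex.star_def, Complex.conj_I,
        neg_smul, ← smul_neg, neg_sub])
    (by rw [mul_smul_comm, mul_sub, y1, y3])
    (by rw [map_smul, map_sub, y4, y5, sub_zero, smul_zero])
  rw [smul_eq_zero, or_iff_right Complex.I_ne_zero, sub_eq_zero] at a2
  rw [← a2, ← two_smul ℂ, smul_eq_zero, or_iff_right two_ne_zero] at a1
  exact ⟨c, sub_eq_zero.1 a1⟩

/-- A family of `k` isometries with common initial projection `e` and orthogonal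
ranges under `r`. -/
structure Fam (k : ℕ) (r e : N) (v : ℕ → N) : Prop where
  pj : Pj e
  ne : e ≠ 0
  orth : ∀ i < k, ∀ j < k, star (v i) * v j = if i = j then e else 0
  under : ∀ i < k, r * v i = v i

lemma iso_mul {v e : N} (he : Pj e) (h : star v * v = e) : v * e = v := by
  have : star (v * e - v) * (v * e - v) = 0 := by
    rw [star_sub, star_mul, he.1, sub_mul, mul_sub, mul_sub, mul_assoc e, ← mul_assoc (star v),
      h, he.2, he.2, mul_assoc e, h, he.2]
    simp
  exact sub_eq_zero.1 ((CStarRing.star_mul_self_eq_zero_iff _).1 this)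

lemma Fam.mul_e {k : ℕ} {r e : N} {v : ℕ → N} (F : Fam k r e v) {i : ℕ} (hi : i < k) :
    v i * e = v i := iso_mul F.pj (by simpa using F.orth i hi i hi)

lemma Fam.extend {k : ℕ} {r r' e e' w : N} {v : ℕ → N} (F : Fam k r e v) (he' : Pj e')
    (h0 : e' ≠ 0) (h1 : e * e' = e') (hw : star w * w = e') (h2 : ∀ i < k, star (v i) * w = 0)
    (h3 : r' * r = r) (h4 : r' * w = w) :
    Fam (k + 1) r' e' fun i => if i = k then w else v i * e' where
  pj := he'
  ne := h0
  orth i hi j hj := by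
    by_cases a : i = k
    · by_cases b : j = k
      · simp [a, b, hw]
      · have := congrArg star (h2 j (by omega))
        rw [star_mul, star_star, star_zero] at this
        simp only [a, b, if_true, if_false, Ne.symm b]
        rw [← mul_assoc, this, zero_mul]
    · by_cases b : j = k
      · simp only [a, b, if_true, if_false]
        rw [star_mul, mul_assoc, h2 i (by omega), mul_zero]
      · simp only [a, b, if_false]
        rw [star_mul, he'.1, mul_assoc, ← mul_assoc (star (v i)), F.orth i (by omega) j (by omega)]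
        split_ifs
        · rw [h1, he'.2]
        · simp
  under i hi := by
    by_cases a : i = k
    · simp [a, h4]
    · simp only [a, if_false]
      rw [← F.under i (by omega), ← mul_assoc, ← mul_assoc, h3]

lemma Fam.pj_sum {k : ℕ} {r e : N} {v : ℕ → N} (F : Fam k r e v) :
    Pj (∑ i ∈ Finset.range k, v i * star (v i)) ∧
      ∀ j < k, (∑ i ∈ Finset.range k, v i * star (v i)) * v j = v j := by
  have h : ∀ j < k, (∑ i ∈ Finset.range k, v i * star (v i)) * v j = v j := fun j hj => by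
    rw [Finset.sum_mul, Finset.sum_eq_single j]
    · rw [mul_assoc, F.orth j hj j hj, if_pos rfl, F.mul_e hj]
    · intro i hi hij
      rw [mul_assoc, F.orth i (Finset.mem_range.1 hi) j hj, if_neg hij, mul_zero]
    · intro h; exact absurd (Finset.mem_range.2 hj) h
  refine ⟨⟨by simp [star_sum], ?_⟩, h⟩
  rw [Finset.mul_sum]
  exact Finset.sum_congr rfl fun j hj => by rw [← mul_assoc, h j (Finset.mem_range.1 hj)]

lemma not_min (hN : IsSeparableIIOneFactor ρ τ) {r : N} (hr : Pj r) (hr0 : r ≠ 0) :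
    ¬ IsMinP r := by
  intro hm
  have key : ∀ k, ∃ v, Fam k 1 r v := by
    intro k
    induction k with
    | zero => exact ⟨fun _ => 0, hr, hr0, by simp, by simp⟩
    | succ k ih =>
      obtain ⟨v, F⟩ := ih
      obtain ⟨hf, hf'⟩ := F.pj_sum
      set f := ∑ i ∈ Finset.range k, v i * star (v i) with hfd
      have hf0 : 1 - f ≠ 0 := by
        intro h
        rw [sub_eq_zero] at h
        apply hN.infinite_dim
        let S : Finset N := by
          classical
          exact (Finset.range k ×ˢ Finset.range k).image fun p => v p.1 * star (v p.2)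
        have hS : Submodule.span ℂ (S : Set N) = ⊤ := by
          rw [eq_top_iff]
          intro x _
          have : x = f * x * f := by rw [← h, one_mul, mul_one]
          rw [this, hfd, Finset.sum_mul, Finset.sum_mul]
          refine Submodule.sum_mem _ fun i hi => ?_
          rw [Finset.mul_sum]
          refine Submodule.sum_mem _ fun j hj => ?_
          obtain ⟨c, hc⟩ := min_scalar hN hr hr0 hm (star (v i) * x * v j)
          have b1 := F.mul_e (Finset.mem_range.1 hi)
          have b2 := F.mul_e (Finset.mem_range.1 hj)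
          have b3 : r * star (v i) = star (v i) := by
            have := congrArg star b1
            rwa [star_mul, hr.1] at this
          have : v i * star (v i) * x * (v j * star (v j)) = c • (v i * star (v j)) := by
            calc v i * star (v i) * x * (v j * star (v j))
                = v i * (r * star (v i)) * x * (v j * r * star (v j)) := by rw [b2, b3]
              _ = v i * (r * (star (v i) * x * v j) * r) * star (v j) := by
                simp only [mul_assoc]
              _ = _ := by rw [hc, mul_smul_comm, b1, smul_mul_assoc]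
          rw [this]
          refine Submodule.smul_mem _ _ (Submodule.subset_span ?_)
          simp only [S, Finset.coe_image]
          exact ⟨(i, j), by simpa using ⟨Finset.mem_range.1 hi, Finset.mem_range.1 hj⟩, rfl⟩
        exact ⟨⟨S, hS⟩⟩
      obtain ⟨w, e, he, he0, hw, h1, h2⟩ := exists_iso hN hf.one_sub hr hf0 hr0
      have h3 : e = r := (hm e he h2).resolve_left he0
      subst h3
      refine ⟨_, F.extend he he0 he.2 hw (fun i hi => ?_) (one_mul _) (one_mul _)⟩
      have a := congrArg star (hf' i hi)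
      rw [star_mul, hf.1] at a
      rw [← h1, ← mul_assoc, mul_sub, mul_one, a, sub_self, zero_mul]
  have hp := hr.tr_pos τ hr0
  obtain ⟨k, hk⟩ := exists_nat_gt (1 / (τ.toFun r).re)
  obtain ⟨v, F⟩ := key k
  have h1 := F.pj_sum.1.tr_le_one τ
  have h2 : τ.toFun (∑ i ∈ Finset.range k, v i * star (v i)) = k * τ.toFun r := by
    rw [map_sum, Finset.sum_congr rfl (g := fun _ => τ.toFun r)]
    · simp
    · intro i hi
      rw [τ.tracial, F.orth i (Finset.mem_range.1 hi) i (Finset.mem_range.1 hi), if_pos rfl]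
  rw [h2] at h1
  simp only [Complex.mul_re, Complex.natCast_re, Complex.natCast_im, zero_mul, sub_zero] at h1
  rw [div_lt_iff₀ hp] at hk
  linarith

lemma exists_fam (hN : IsSeparableIIOneFactor ρ τ) (k : ℕ) :
    ∀ r : N, Pj r → r ≠ 0 → ∃ e v, Fam k r e v := by
  induction k with
  | zero => exact fun r hr hr0 => ⟨r, fun _ => 0, hr, hr0, by simp, by simp⟩
  | succ k ih =>
    intro r hr hr0
    have := not_min hN hr hr0
    simp only [IsMinP, not_forall, not_or] at this
    obtain ⟨s, hs, h1, hs0, hsr⟩ := this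
    have h2 := hr.mul_comm_of hs h1
    have ht : Pj (r - s) := ⟨by rw [star_sub, hr.1, hs.1], by
      rw [sub_mul, mul_sub, mul_sub, hr.2, h1, h2, hs.2]; abel⟩
    obtain ⟨e, v, F⟩ := ih s hs hs0
    obtain ⟨w, e', he', he0, hw, h3, h4⟩ :=
      exists_iso hN ht F.pj (sub_ne_zero.2 (Ne.symm hsr)) F.ne
    refine ⟨e', _, F.extend he' he0 h4 hw (fun i hi => ?_) h1 ?_⟩
    · have a := congrArg star (F.under i hi)
      rw [star_mul, hs.1] at a
      rw [← h3, ← a, mul_assoc, ← mul_assoc s, mul_sub, h2, hs.2, sub_self, zero_mul, mul_zero]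
    · rw [← h3, ← mul_assoc, mul_sub, hr.2, h1]

variable {ι : Type} [Fintype ι] [DecidableEq ι]

lemma MU.sum_mul {e : ι → ι → N} (h : MU e) (i j : ι) : (∑ k, e k k) * e i j = e i j := by
  simp [Finset.sum_mul, h.mul_eq]

lemma MU.mul_sum {e : ι → ι → N} (h : MU e) (i j : ι) : e i j * ∑ k, e k k = e i j := by
  simp [Finset.mul_sum, h.mul_eq]

lemma MU.pj {e : ι → ι → N} (h : MU e) : Pj (∑ k, e k k) :=
  ⟨by simp [star_sum, h.star_eq], by rw [Finset.mul_sum]; simp only [h.sum_mul]⟩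

lemma exists_mu_under (hN : IsSeparableIIOneFactor ρ τ) [Nonempty ι] {r : N} (hr : Pj r)
    (hr0 : r ≠ 0) : ∃ e : ι → ι → N, MU e ∧ (∀ i j, r * e i j = e i j) ∧ ∑ k, e k k ≠ 0 := by
  obtain ⟨e, v, F⟩ := exists_fam hN (Fintype.card ι) r hr hr0
  let n : ι → ℕ := fun i => Fintype.equivFin ι i
  have hn : ∀ i, n i < Fintype.card ι := fun i => (Fintype.equivFin ι i).2
  have hi : ∀ i j, n i = n j ↔ i = j := fun i j => by
    simp only [n, Fin.val_inj, EmbeddingLike.apply_eq_iff_eq]
  have hM : MU fun i j => v (n i) * star (v (n j)) := ⟨fun i j => by simp, fun i j k l => by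
    rw [mul_assoc, ← mul_assoc (star (v (n j))), F.orth _ (hn j) _ (hn k)]
    simp only [hi]
    split_ifs
    · rw [← mul_assoc, F.mul_e (hn i)]
    · simp⟩
  refine ⟨_, hM, fun i j => by rw [← mul_assoc, F.under _ (hn i)], fun h => F.ne ?_⟩
  obtain ⟨i⟩ := ‹Nonempty ι›
  have h1 := hM.sum_mul i i
  rw [h, zero_mul] at h1
  have h2 : v (n i) = 0 := (CStarRing.mul_star_self_eq_zero_iff _).1 h1.symm
  have h3 := F.orth _ (hn i) _ (hn i)
  rw [if_pos rfl, h2, mul_zero] at h3
  exact h3.symm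

lemma MU.add {e e' : ι → ι → N} (h : MU e) (h' : MU e')
    (ho : ∀ i j, (1 - ∑ k, e k k) * e' i j = e' i j) : MU fun i j => e i j + e' i j := by
  have a1 : ∀ i j k l, e i j * e' k l = 0 := fun i j k l => by
    rw [← ho, ← mul_assoc, mul_sub, mul_one, h.mul_sum, sub_self, zero_mul]
  have a2 : ∀ i j k l, e' i j * e k l = 0 := fun i j k l => by
    have := congrArg star (a1 l k j i)
    rwa [star_mul, h.star_eq, h'.star_eq, star_zero] at this
  refine ⟨fun i j => by rw [star_add, h.star_eq, h'.star_eq], fun i j k l => ?_⟩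
  rw [add_mul, mul_add, mul_add, a1, a2, h.mul_eq, h'.mul_eq]
  split_ifs <;> simp

theorem exists_mu (ρ : N →⋆ₐ[ℂ] (H →L[ℂ] H)) (τ : TracialState N)
    (hN : IsSeparableIIOneFactor ρ τ) (ι : Type) [Fintype ι] [DecidableEq ι] [Nonempty ι]
    {ε : ℝ} (hε : 0 < ε) :
    ∃ e : ι → ι → N, MU e ∧ (τ.toFun (1 - ∑ i, e i i)).re < ε := by
  by_contra hc
  push Not at hc
  let t : (ι → ι → N) → ℝ := fun e => (τ.toFun (∑ k, e k k)).re
  have step : ∀ e : ι → ι → N, ∃ e' : ι → ι → N, MU e' ∧
      (∀ i j, (1 - ∑ k, e k k) * e' i j = e' i j) ∧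
      ∀ e'' : ι → ι → N, MU e'' → (∀ i j, (1 - ∑ k, e k k) * e'' i j = e'' i j) →
        t e'' ≤ 2 * t e' := by
    intro e
    let S : Set ℝ := {s | ∃ e' : ι → ι → N, MU e' ∧
      (∀ i j, (1 - ∑ k, e k k) * e' i j = e' i j) ∧ t e' = s}
    have h0 : MU fun _ _ : ι => (0 : N) := ⟨by simp, by simp⟩
    have hb : BddAbove S := ⟨1, by
      rintro _ ⟨e', h, -, rfl⟩
      exact h.pj.tr_le_one τ⟩
    have hne : S.Nonempty := ⟨_, _, h0, by simp, rfl⟩
    by_cases hs : 0 < sSup S
    · obtain ⟨_, ⟨e', h1, h2, rfl⟩, h3⟩ := exists_lt_of_lt_csSup hne (half_lt_self hs)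
      refine ⟨e', h1, h2, fun e'' h4 h5 => ?_⟩
      have := le_csSup hb ⟨e'', h4, h5, rfl⟩
      linarith
    · refine ⟨_, h0, by simp, fun e'' h4 h5 => ?_⟩
      have := le_csSup hb ⟨e'', h4, h5, rfl⟩
      simp only [t, Finset.sum_const_zero, map_zero, Complex.zero_re, mul_zero] at this ⊢
      linarith
  choose s hs1 hs2 hs3 using step
  let E : ℕ → ι → ι → N := fun n =>
    Nat.rec (fun _ _ => 0) (fun _ e i j => e i j + s e i j) n
  have hE : ∀ n, E (n + 1) = fun i j => E n i j + s (E n) i j := fun n => rfl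
  have hM : ∀ n, MU (E n) := fun n => by
    induction n with
    | zero => exact ⟨by simp [E], by simp [E]⟩
    | succ n ih => rw [hE]; exact ih.add (hs1 _) (hs2 _)
  let f : ℕ → N := fun n => ∑ k, E n k k
  have hf : ∀ n, f (n + 1) = f n + ∑ k, s (E n) k k := fun n => by
    simp only [f, hE, Finset.sum_add_distrib]
  have hm : ∀ m n, m ≤ n → f n * f m = f m := by
    intro m n h
    induction n, h using Nat.le_induction with
    | base => exact (hM m).pj.2
    | succ n _ ih =>
      have a1 : (1 - f n) * ∑ k, s (E n) k k = ∑ k, s (E n) k k := by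
        rw [Finset.mul_sum]; exact Finset.sum_congr rfl fun k _ => hs2 _ k k
      have a2 := (hM n).pj.one_sub.mul_comm_of (hs1 (E n)).pj a1
      rw [hf, add_mul, ih, ← a2, mul_assoc, sub_mul, one_mul, ih, sub_self, mul_zero, add_zero]
  obtain ⟨z, hz, h1, h2⟩ := exists_sup hN f (fun n => (hM n).pj) hm
  have h3 : (τ.toFun z).re ≤ 1 - ε := by
    refine le_of_tendsto' ((Complex.continuous_re.tendsto _).comp h2) fun n => ?_
    have := hc _ (hM n)
    rw [map_sub, τ.map_one, Complex.sub_re, Complex.one_re] at this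
    change (τ.toFun (∑ k, E n k k)).re ≤ _
    linarith
  have h4 : 1 - z ≠ 0 := by
    intro h
    rw [sub_eq_zero] at h
    rw [← h, τ.map_one, Complex.one_re] at h3
    linarith
  obtain ⟨e, he, h5, h6⟩ := exists_mu_under (ι := ι) hN hz.one_sub h4
  have hp : 0 < t e := he.pj.tr_pos τ h6
  have h7 : ∀ n, t e ≤ 2 * t (s (E n)) := fun n => hs3 _ e he fun i j => by
    have a := hz.mul_comm_of (hM n).pj (h1 n)
    change (1 - f n) * _ = _
    rw [sub_mul, one_mul, ← h5, ← mul_assoc, mul_sub, mul_one, a, sub_self, zero_mul, sub_zero]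
  have h8 : ∀ n : ℕ, n * (t e / 2) ≤ (τ.toFun (f n)).re := fun n => by
    induction n with
    | zero => simp [f, E]
    | succ n ih =>
      have := h7 n
      rw [hf, map_add, Complex.add_re]
      simp only [t] at this ih ⊢
      push_cast
      linarith
  obtain ⟨n, hn⟩ := exists_nat_gt (1 / (t e / 2))
  rw [div_lt_iff₀ (half_pos hp)] at hn
  have := (hM n).pj.tr_le_one τ
  have := h8 n
  linarith

end Pool.Agent.MP_a3b3aa_an.E

end

section

/-! Monomial elements built from matrix units, masses of blocks, and Kraus maps. -/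

open scoped ComplexOrder ComplexConjugate

set_option linter.unusedSectionVars false
set_option maxHeartbeats 400000

namespace Pool.Agent.MP_a3b3aa_an.E

open Hy

variable {N : Type} [CStarAlgebra N] [PartialOrder N] [StarOrderedRing N]
variable {ι : Type} [Fintype ι] [DecidableEq ι] {e : ι → ι → N}

/-- A monomial element. -/
noncomputable def mono (e : ι → ι → N) (σ : ι → ι) (d : ι → ℂ) : N := ∑ i, d i • e (σ i) i

/-- A diagonal element with real entries. -/
noncomputable def dg (e : ι → ι → N) (a : ι → ℝ) : N := ∑ i, (a i : ℂ) • e i i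

lemma MU.mono_mul_e (h : MU e) (σ : ι → ι) (d : ι → ℂ) (j l : ι) :
    mono e σ d * e j l = d j • e (σ j) l := by
  simp [mono, Finset.sum_mul, h.mul_eq]

lemma MU.mono_mul (h : MU e) (σ σ' : ι → ι) (d d' : ι → ℂ) :
    mono e σ d * mono e σ' d' = mono e (σ ∘ σ') fun i => d (σ' i) * d' i := by
  rw [mono.eq_1 e σ', Finset.mul_sum, mono.eq_1 e (σ ∘ σ')]
  refine Finset.sum_congr rfl fun i _ => ?_
  rw [mul_smul_comm, h.mono_mul_e, smul_smul, mul_comm]
  rfl

lemma MU.e_mul_mono (h : MU e) {σ : ι → ι} (hσ : Function.Injective σ) (d : ι → ℂ) (k i : ι) :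
    e k (σ i) * mono e σ d = d i • e k i := by
  simp [mono, Finset.mul_sum, h.mul_eq, hσ.eq_iff]

lemma MU.mono_mul_star (h : MU e) (σ : ι → ι) (d : ι → ℂ) :
    mono e σ d * star (mono e σ d) = ∑ i, ((‖d i‖ ^ 2 : ℝ) : ℂ) • e (σ i) (σ i) := by
  rw [mono.eq_1 e σ d, star_sum, Finset.mul_sum]
  refine Finset.sum_congr rfl fun i _ => ?_
  rw [star_smul, h.star_eq, mul_smul_comm, ← mono, h.mono_mul_e, smul_smul, Complex.star_def,
    Complex.conj_mul', Complex.ofReal_pow]

lemma MU.star_mul_mono (h : MU e) {σ : ι → ι} {d : ι → ℂ}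
    (hσ : ∀ i j, d i ≠ 0 → d j ≠ 0 → σ i = σ j → i = j) :
    star (mono e σ d) * mono e σ d = dg e fun i => ‖d i‖ ^ 2 := by
  rw [mono, star_sum, Finset.sum_mul, dg]
  refine Finset.sum_congr rfl fun i _ => ?_
  rw [star_smul, h.star_eq, Finset.mul_sum, Finset.sum_eq_single i]
  · rw [smul_mul_assoc, mul_smul_comm, h.mul_eq, if_pos rfl, smul_smul, Complex.star_def,
      Complex.conj_mul', Complex.ofReal_pow]
  · intro j _ hj
    rw [smul_mul_assoc, mul_smul_comm, h.mul_eq, smul_smul]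
    split_ifs with a
    · by_cases b : d i = 0
      · simp [b]
      · by_cases c : d j = 0
        · simp [c]
        · exact absurd (hσ i j b c a).symm hj
    · simp
  · simp

lemma MU.pj_e (h : MU e) (i : ι) : Pj (e i i) := ⟨h.star_eq i i, by simp [h.mul_eq]⟩

lemma MU.dg_mono (h : MU e) {a b : ι → ℝ} (hab : ∀ i, a i ≤ b i) : dg e a ≤ dg e b := by
  refine Finset.sum_le_sum fun i _ => ?_
  rw [Complex.coe_smul, Complex.coe_smul]
  exact smul_le_smul_of_nonneg_right (hab i) (h.pj_e i).nonneg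

lemma MU.pj_sum (h : MU e) (I : Finset ι) : Pj (∑ i ∈ I, e i i) := by
  refine ⟨by simp [star_sum, h.star_eq], ?_⟩
  rw [Finset.sum_mul]
  refine Finset.sum_congr rfl fun i hi => ?_
  simp [Finset.mul_sum, h.mul_eq, hi]

variable (τ : TracialState N)

lemma MU.tr_e (h : MU e) (i₀ i j : ι) :
    τ.toFun (e i j) = if i = j then τ.toFun (e i₀ i₀) else 0 := by
  have : e i j = e i i₀ * e i₀ j := by simp [h.mul_eq]
  rw [this, τ.tracial, h.mul_eq]
  by_cases a : i = j
  · simp [a]
  · simp [a, Ne.symm a]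

lemma MU.tr_mono (h : MU e) (i₀ : ι) (σ : ι → ι) (d : ι → ℂ) :
    τ.toFun (mono e σ d) = (∑ i, if σ i = i then d i else 0) * τ.toFun (e i₀ i₀) := by
  rw [mono, map_sum, Finset.sum_mul]
  refine Finset.sum_congr rfl fun i _ => ?_
  rw [map_smul, h.tr_e τ i₀]
  split_ifs <;> simp

lemma MU.tr_sum (h : MU e) (i₀ : ι) (I : Finset ι) :
    (τ.toFun (∑ i ∈ I, e i i)).re = I.card * (τ.toFun (e i₀ i₀)).re := by
  rw [map_sum, Finset.sum_congr rfl (g := fun _ => τ.toFun (e i₀ i₀))
    fun i _ => by rw [h.tr_e τ i₀, if_pos rfl]]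
  simp

lemma MU.norm_tr_e (h : MU e) (i₀ : ι) :
    Fintype.card ι * ‖τ.toFun (e i₀ i₀)‖ ≤ 1 := by
  have h1 := h.pj.tr_le_one τ
  rw [h.tr_sum τ i₀, Finset.card_univ] at h1
  have h2 := τ.nonneg _ (h.pj_e i₀).nonneg
  rwa [Complex.re_eq_norm.2 h2] at h1

/-- The mass of a block. -/
noncomputable def ms (e : ι → ι → N) (T : N) (i j : ι) : ℝ :=
  (τ.toFun (star T * e i i * T * e j j)).re

lemma MU.q_block (h : MU e) (T : N) (k i j l : ι) :
    (toTr τ).q (e k i * T * e j l) = ms τ e T i j := by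
  change (τ.toFun (star (e k i * T * e j l) * (e k i * T * e j l))).re = _
  rw [star_mul, star_mul, h.star_eq, h.star_eq, mul_assoc (e l j), τ.tracial, ms]
  congr 2
  have a1 : e i k * e k i = e i i := by simp [h.mul_eq]
  have a2 : e j l * e l j = e j j := by simp [h.mul_eq]
  rw [← a1, ← a2]
  simp only [mul_assoc]

lemma MU.ms_nonneg (h : MU e) (T : N) (i j : ι) : 0 ≤ ms τ e T i j := by
  rw [← h.q_block τ T i i j j]; exact TrAlg.q_nonneg _ _

lemma MU.sum_ms (h : MU e) (T : N) (I J : Finset ι) :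
    ∑ i ∈ I, ∑ j ∈ J, ms τ e T i j =
      (toTr τ).q ((∑ i ∈ I, e i i) * T * ∑ j ∈ J, e j j) := by
  have hI := h.pj_sum I
  have hJ := h.pj_sum J
  set P := ∑ i ∈ I, e i i with hP
  set R := ∑ j ∈ J, e j j with hR
  have : (toTr τ).q (P * T * R) = (τ.toFun (star T * P * T * R)).re := by
    change (τ.toFun (star (P * T * R) * (P * T * R))).re = _
    rw [star_mul, star_mul, hI.1, hJ.1, mul_assoc R, τ.tracial]
    congr 2
    calc star T * P * (P * T * R) * R = star T * (P * P) * T * (R * R) := by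
          simp only [mul_assoc]
      _ = _ := by rw [hI.2, hJ.2]
  rw [this, hP, hR]
  simp only [ms, Finset.mul_sum, Finset.sum_mul, map_sum, Complex.re_sum]
  exact Finset.sum_comm

lemma MU.sum_ms_le (h : MU e) (T : N) : ∑ i, ∑ j, ms τ e T i j ≤ (toTr τ).q T := by
  rw [h.sum_ms]
  refine (q_conj_le τ _ _ _).trans ?_
  have h1 := h.pj.norm_le
  have h2 : ‖∑ k, e k k‖ ^ 2 ≤ 1 := by nlinarith [norm_nonneg (∑ k, e k k)]
  have h3 := (toTr τ).q_nonneg T
  have h4 : ‖∑ k, e k k‖ ^ 2 * ‖∑ k, e k k‖ ^ 2 ≤ 1 := by nlinarith [sq_nonneg ‖∑ k, e k k‖]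
  nlinarith

lemma MU.sum_pairs_le (h : MU e) (T : N) {Z : Type} [Fintype Z] (a : Z → ι × ι)
    (ha : Function.Injective a) : ∑ z, ms τ e T (a z).1 (a z).2 ≤ (toTr τ).q T := by
  refine le_trans ?_ (h.sum_ms_le τ T)
  rw [← Finset.sum_product', Finset.univ_product_univ]
  refine le_of_eq_of_le (Finset.sum_map Finset.univ ⟨a, ha⟩ fun x => ms τ e T x.1 x.2).symm ?_
  exact Finset.sum_le_sum_of_subset_of_nonneg (Finset.subset_univ _)
    fun x _ _ => h.ms_nonneg τ T _ _

variable {L : Type} [Fintype L]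

/-- The completely positive map with given Kraus operators. -/
noncomputable def kraus (v : L → N) : CompletelyPositiveMap N N where
  toFun x := ∑ l, v l * x * star (v l)
  map_add' x y := by simp [mul_add, add_mul, Finset.sum_add_distrib]
  map_smul' c x := by simp [Finset.smul_sum]
  map_cstarMatrix_nonneg' k M hM := by
    obtain ⟨W, rfl⟩ := exists_star_mul hM
    let Z : L → CStarMatrix (Fin k) (Fin k) N := fun l =>
      CStarMatrix.ofMatrix (Matrix.of fun s j => W s j * star (v l))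
    have h1 : 0 ≤ ∑ l, star (Z l) * Z l := Finset.sum_nonneg fun l _ => star_mul_self_nonneg _
    convert h1 using 1
    ext i j
    have h2 : (∑ l, star (Z l) * Z l) i j = ∑ l, (star (Z l) * Z l) i j := Matrix.sum_apply ..
    rw [h2, CStarMatrix.map_apply]
    simp only [CStarMatrix.mul_apply, CStarMatrix.star_apply, LinearMap.coe_mk, AddHom.coe_mk,
      Finset.mul_sum, Finset.sum_mul]
    refine Finset.sum_congr rfl fun l _ => Finset.sum_congr rfl fun s _ => ?_
    simp [Z, mul_assoc]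

lemma kraus_apply (v : L → N) (x : N) : kraus v x = ∑ l, v l * x * star (v l) := rfl

lemma kraus_tr (v : L → N) {C : ℝ} (hv : ∑ l, star (v l) * v l ≤ (C : ℂ) • 1) {x : N}
    (hx : 0 ≤ x) : (τ.toFun (kraus v x)).re ≤ C * (τ.toFun x).re := by
  obtain ⟨y, rfl⟩ := exists_star_mul hx
  have h1 := (Complex.le_def.1 (τ.mono (star_right_conjugate_le_conjugate hv y))).1
  have h2 : τ.toFun (kraus v (star y * y)) =
      τ.toFun (y * (∑ l, star (v l) * v l) * star y) := by
    rw [kraus_apply, Finset.mul_sum, Finset.sum_mul, map_sum, map_sum]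
    refine Finset.sum_congr rfl fun l _ => ?_
    rw [← mul_assoc (v l), mul_assoc (v l * star y), τ.tracial]
    simp only [mul_assoc]
  rw [h2]
  refine h1.trans (le_of_eq ?_)
  rw [mul_smul_comm, mul_one, smul_mul_assoc, map_smul, τ.tracial]
  simp

end Pool.Agent.MP_a3b3aa_an.E

end

section

/-! A unitary representation of a group in a tracial ultrapower with the regular character
extends to an embedding of the group von Neumann algebra. -/

open Filter Topology
open scoped InnerProductSpace ComplexOrder ComplexConjugate BoundedContinuousFunction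

set_option linter.unusedSectionVars false
set_option maxHeartbeats 400000

namespace Pool.Agent.MP_a3b3aa_an.E

open Hy

section Group

variable {G : Type} [Group G] [DecidableEq G]

lemma lamN_one : lamN (1 : G) = 1 := rep_injective (by
  rw [rep_lamN, map_one]; exact op_ext fun ξ h => by simp)

lemma lamN_mul (g h : G) : lamN (g * h) = lamN g * lamN h := rep_injective (by
  rw [map_mul, rep_lamN, rep_lamN, rep_lamN]; exact op_ext fun ξ k => by simp [mul_assoc])

lemma star_lam (g : G) : star (lam g) = lam g⁻¹ := by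
  rw [lam, star_W]
  exact op_ext fun ξ h => by simp

lemma star_lamN (g : G) : star (lamN g) = lamN g⁻¹ := rep_injective (by
  rw [map_star, rep_lamN, rep_lamN, star_lam])

lemma tr_lamN (g : G) : (trG G).toFun (lamN g) = if g = 1 then 1 else 0 := by
  rw [trG_apply, rep_lamN, lam_δ, inner_δ, δ_apply]
  simp only [eq_comm]

lemma apply_eq_tsum (T : L2 G →L[ℂ] L2 G) (ξ : L2 G) (h : G) :
    T ξ h = ∑' k, T (δ k) h * ξ k := by
  rw [← inner_δ h, ← ContinuousLinearMap.adjoint_inner_left, lp.inner_eq_tsum]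
  refine tsum_congr fun k => ?_
  have : conj (ContinuousLinearMap.adjoint T (δ h) k) = T (δ k) h := by
    rw [← inner_δ k, inner_conj_symm, ContinuousLinearMap.adjoint_inner_left, inner_δ]
  rw [RCLike.inner_apply, this, mul_comm]

lemma comm_of_lam (x : AG G) {y : L2 G →L[ℂ] L2 G} (hy : ∀ g, lam g * y = y * lam g) :
    y * rep G x = rep G x * y := by
  have h1 : ∀ g h, y (δ g) h = y (δ 1) (g⁻¹ * h) := fun g h => by
    rw [← lam_δ g, ← lam_apply]
    exact (congrArg (fun T : L2 G →L[ℂ] L2 G => T (δ 1) h) (hy g)).symm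
  have h2 : ∀ g h, rep G x (δ g) h = rep G x (δ 1) (h * g⁻¹) := fun g h => by
    rw [apply_δ, rho_apply]
  rw [← sub_eq_zero]
  refine eq_zero_of_δ fun g => ?_
  rw [ContinuousLinearMap.sub_apply, sub_eq_zero]
  refine lp.ext (funext fun h => ?_)
  change y (rep G x (δ g)) h = rep G x (y (δ g)) h
  rw [apply_eq_tsum y, apply_eq_tsum (rep G x) (y (δ g))]
  rw [← (((Equiv.inv G).trans (Equiv.mulLeft h)).trans (Equiv.mulRight g)).tsum_eq]
  refine tsum_congr fun k => ?_
  rw [h1, h2, h1 g, h2 k, mul_comm]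
  simp [mul_assoc]

lemma q_le_norm (x : AG G) : (toTr (trG G)).q x ≤ ‖x‖ ^ 2 := Hy.q_le _ x

/-- Kaplansky density for the span of the canonical unitaries. -/
lemma kap_span (x : AG G) (hx : ‖x‖ ≤ 1) {ε : ℝ} (hε : 0 < ε) :
    ∃ a ∈ Submodule.span ℂ (Set.range (lamN : G → AG G)), ‖a‖ ≤ 3 ∧
      (toTr (trG G)).q (x - a) < ε := by
  let S := Submodule.span ℂ (Set.range (lamN : G → AG G))
  have hmul : ∀ a ∈ S, ∀ b ∈ S, a * b ∈ S := by
    intro a ha b hb
    refine Submodule.span_induction₂ (p := fun a b _ _ => a * b ∈ S) ?_ ?_ ?_ ?_ ?_ ?_ ?_ ha hb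
    · rintro _ _ ⟨g, rfl⟩ ⟨h, rfl⟩
      exact Submodule.subset_span ⟨g * h, lamN_mul g h⟩
    · simp
    · simp
    · intro a b c _ _ _ h1 h2
      rw [add_mul]; exact S.add_mem h1 h2
    · intro a b c _ _ _ h1 h2
      rw [mul_add]; exact S.add_mem h1 h2
    · intro r a b _ _ h
      rw [smul_mul_assoc]; exact S.smul_mem r h
    · intro r a b _ _ h
      rw [mul_smul_comm]; exact S.smul_mem r h
  have hstar : ∀ a ∈ S, star a ∈ S := by
    intro a ha
    refine Submodule.span_induction (p := fun a _ => star a ∈ S) ?_ ?_ ?_ ?_ ha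
    · rintro _ ⟨g, rfl⟩
      exact Submodule.subset_span ⟨g⁻¹, (star_lamN g).symm⟩
    · simp
    · intro a b _ _ h1 h2
      rw [star_add]; exact S.add_mem h1 h2
    · intro r a _ h
      rw [star_smul]; exact S.smul_mem _ h
  have hone : (1 : AG G) ∈ S := Submodule.subset_span ⟨1, lamN_one⟩
  let A : StarSubalgebra ℂ (L2 G →L[ℂ] L2 G) :=
    { carrier := rep G '' S
      mul_mem' := by
        rintro _ _ ⟨a, ha, rfl⟩ ⟨b, hb, rfl⟩
        exact ⟨a * b, hmul a ha b hb, map_mul _ _ _⟩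
      add_mem' := by
        rintro _ _ ⟨a, ha, rfl⟩ ⟨b, hb, rfl⟩
        exact ⟨a + b, S.add_mem ha hb, map_add _ _ _⟩
      algebraMap_mem' := fun c => ⟨c • 1, S.smul_mem c hone, by
        rw [map_smul, map_one, Algebra.algebraMap_eq_smul_one]⟩
      star_mem' := by
        rintro _ ⟨a, ha, rfl⟩
        exact ⟨star a, hstar a ha, map_star _ _⟩ }
  have hx' : rep G x ∈ Set.centralizer (Set.centralizer (A : Set (L2 G →L[ℂ] L2 G))) :=
    fun y hy => comm_of_lam x fun g =>
      hy _ ⟨lamN g, Submodule.subset_span ⟨g, rfl⟩, rfl⟩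
  set η := min 1 (ε / 8) with hη
  have hη0 : 0 < η := by positivity
  obtain ⟨b, hb, n1, h1⟩ := Pool.Agent.MP_890ef7_an.kaplansky A hx' hx {δ 1} hη0
  obtain ⟨_, ⟨a, ha, rfl⟩, h2⟩ := Metric.mem_closure_iff.1 hb η hη0
  rw [dist_eq_norm] at h2
  have e1 : η ≤ 1 := min_le_left _ _
  have e2 : η ≤ ε / 8 := min_le_right _ _
  refine ⟨a, ha, ?_, ?_⟩
  · rw [← norm_rep]
    have := norm_sub_norm_le (rep G a) b
    rw [norm_sub_rev] at this
    linarith
  · change (trG G).q (x - a) < ε
    rw [q_trG, map_sub, ContinuousLinearMap.sub_apply]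
    have h3 := h1 (δ 1) (Finset.mem_singleton_self _)
    have h4 : ‖b (δ 1) - rep G a (δ 1)‖ ≤ η := by
      rw [← ContinuousLinearMap.sub_apply]
      refine (ContinuousLinearMap.le_opNorm _ _).trans ?_
      rw [norm_δ, mul_one]; exact h2.le
    have h5 : ‖rep G x (δ 1) - rep G a (δ 1)‖ ≤ 2 * η := by
      have := norm_sub_le_norm_sub_add_norm_sub (rep G x (δ 1)) (b (δ 1)) (rep G a (δ 1))
      rw [norm_sub_rev (rep G x (δ 1)) (b (δ 1))] at this
      linarith
    have h6 := norm_nonneg (rep G x (δ 1) - rep G a (δ 1))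
    nlinarith

theorem dense_span (x : AG G) {ε : ℝ} (hε : 0 < ε) :
    ∃ a ∈ Submodule.span ℂ (Set.range (lamN : G → AG G)), (toTr (trG G)).q (x - a) < ε := by
  set c : ℝ := ‖x‖ + 1 with hc
  have hc0 : 0 < c := by positivity
  obtain ⟨a, ha, -, h⟩ := kap_span (((c⁻¹ : ℝ) : ℂ) • x) (by
    rw [norm_smul, Complex.norm_real, Real.norm_eq_abs, abs_of_pos (by positivity),
      inv_mul_le_iff₀ hc0]
    linarith) (show 0 < ε / c ^ 2 by positivity)
  refine ⟨(c : ℂ) • a, Submodule.smul_mem _ _ ha, ?_⟩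
  have : x - (c : ℂ) • a = (c : ℂ) • ((((c⁻¹ : ℝ) : ℂ) • x) - a) := by
    rw [smul_sub, smul_smul, ← Complex.ofReal_mul, mul_inv_cancel₀ hc0.ne', Complex.ofReal_one,
      one_smul]
  rw [this, TrAlg.q_smul]
  rwa [lt_div_iff₀ (by positivity), mul_comm] at h

end Group

variable {A : Type} [CStarAlgebra A] [PartialOrder A] [StarOrderedRing A]

lemma exists_cut (τ : TracialState A) (y : A) :
    ∃ x : A, ‖x‖ ≤ 1 ∧ ∀ m : ℕ, (toTr τ).q (y - x) ≤ (toTr τ).re ((star y * y) ^ (m + 1)) := by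
  set h := star y * y with hh
  have hsa : IsSelfAdjoint h := IsSelfAdjoint.star_mul_self y
  have h0 : 0 ≤ h := star_mul_self_nonneg y
  let g : ℝ → ℝ := fun t => (max t 1)⁻¹
  have hm : ∀ t : ℝ, 0 < max t 1 := fun t => one_pos.trans_le (le_max_right _ _)
  have hg : Continuous g := Continuous.inv₀ (by fun_prop) fun t => (hm t).ne'
  have key : ∀ k : ℝ → ℝ, Continuous k →
      star (y * cfc k h) * (y * cfc k h) = cfc (fun t => k t * t * k t) h := by
    intro k hk
    have hK : star (cfc k h) = cfc k h := (cfc_predicate k h : IsSelfAdjoint _)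
    rw [← cm h (f := fun t => k t * t) (hk.mul continuous_id') hk, ← cm h hk continuous_id',
      cfc_id' ℝ h hsa, star_mul, hK, hh]
    simp only [mul_assoc]
  refine ⟨y * cfc g h, norm_le_one_of ?_, fun m => ?_⟩
  · rw [key g hg]
    refine cfc_le_one _ _ fun t ht => ?_
    have ht0 := spectrum_nonneg_of_nonneg h0 ht
    simp only [g]
    rcases le_total t 1 with a | a
    · rw [max_eq_right a]; simpa using a
    · rw [max_eq_left a, inv_mul_cancel₀ (by linarith), one_mul]
      exact inv_le_one_of_one_le₀ a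
  · have e1 : y - y * cfc g h = y * cfc (fun t => 1 - g t) h := by
      rw [cfc_sub (fun _ => (1 : ℝ)) g h continuousOn_const hg.continuousOn, cfc_const_one ℝ h hsa,
        mul_sub, mul_one]
    have e2 : h ^ (m + 1) = cfc (fun t : ℝ => t ^ (m + 1)) h := (cfc_pow_id h (m + 1) hsa).symm
    have hk : Continuous fun t => 1 - g t := continuous_const.sub hg
    rw [TrAlg.q, e1, key _ hk, e2]
    refine (Complex.le_def.1 (τ.mono (cfc_mono (fun t ht => ?_)
      ((hk.mul continuous_id').mul hk).continuousOn (continuous_pow _).continuousOn))).1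
    have ht0 := spectrum_nonneg_of_nonneg h0 ht
    change (1 - (max t 1)⁻¹) * t * (1 - (max t 1)⁻¹) ≤ t ^ (m + 1)
    rcases le_total t 1 with a | a
    · rw [max_eq_right a]; simp; positivity
    · rw [max_eq_left a]
      have b1 : 0 ≤ t⁻¹ := by positivity
      have b2 : t⁻¹ ≤ 1 := inv_le_one_of_one_le₀ a
      have b3 : t ≤ t ^ (m + 1) := le_self_pow₀ a (by omega)
      have b4 : (1 - t⁻¹) * (1 - t⁻¹) ≤ 1 := by nlinarith
      nlinarith

variable (τ : TracialState A) {U : Ultrafilter ℕ}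

lemma mk_pow (x : ℕ →ᵇ A) (m : ℕ) : mk τ U (x ^ m) = mk τ U x ^ m := by
  induction m with
  | zero => rw [pow_zero, pow_zero, mk_one]
  | succ m ih => rw [pow_succ, pow_succ, mk_mul, ih]

lemma mem_ball_of_moments (X : UQ τ U)
    (h : ∀ m : ℕ, (uTr τ U).re ((star X * X) ^ (m + 1)) ≤ (1 / 2) ^ (m + 1)) :
    X ∈ ball τ U := by
  obtain ⟨y, rfl⟩ := mk_surj τ U X
  choose x hx1 hx2 using fun n => exists_cut τ (y n)
  refine ⟨BoundedContinuousFunction.ofNormedAddCommGroupDiscrete x 1 hx1, ?_, hx1⟩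
  symm
  rw [← sub_eq_zero, ← mk_sub]
  apply Hy.faithful
  refine le_antisymm ?_ (TrAlg.q_nonneg _ _)
  have h1 : Tendsto (fun m : ℕ => (1 / 2 : ℝ) ^ (m + 1)) atTop (𝓝 0) :=
    (tendsto_pow_atTop_nhds_zero_of_lt_one (by norm_num) (by norm_num)).comp
      (tendsto_add_atTop_nat 1)
  refine ge_of_tendsto' h1 fun m => le_trans ?_ (h m)
  rw [← mk_star, ← mk_mul, ← mk_pow]
  exact le_of_tendsto_of_tendsto' (tendsto_q τ U _) (tendsto_re τ U _) fun n => hx2 n m

end Pool.Agent.MP_a3b3aa_an.E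

end

section

/-! The extension of a representation with the regular character. -/

open Filter Topology
open scoped InnerProductSpace ComplexOrder ComplexConjugate BoundedContinuousFunction

set_option linter.unusedSectionVars false
set_option maxHeartbeats 400000

namespace Pool.Agent.MP_a3b3aa_an.E

open Hy

section Tr

variable {Q : Type} [Ring Q] [StarRing Q] [Algebra ℂ Q] [StarModule ℂ Q] (t : TrAlg Q)

lemma q_csmul (c : ℂ) (x : Q) : t.q (c • x) = ‖c‖ ^ 2 * t.q x := by
  rw [TrAlg.q, star_smul, smul_mul_assoc, mul_smul_comm, smul_smul, Complex.star_def,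
    Complex.conj_mul', ← Complex.ofReal_pow, TrAlg.re_smul, TrAlg.q]

lemma nr_csmul (c : ℂ) (x : Q) : t.nr (c • x) = ‖c‖ * t.nr x := by
  rw [TrAlg.nr, q_csmul, Real.sqrt_mul (by positivity), Real.sqrt_sq (norm_nonneg _), TrAlg.nr]

lemma norm_T_le (x y : Q) : ‖t.T (star x * y)‖ ≤ t.nr x * t.nr y := by
  obtain ⟨c, hc, h⟩ := Complex.exists_norm_mul_eq_self (t.T (star x * y))
  have h1 : t.ip x ((conj c) • y) = ‖t.T (star x * y)‖ := by
    rw [TrAlg.ip, TrAlg.re, mul_smul_comm, map_smul, smul_eq_mul]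
    set z := t.T (star x * y)
    have : conj c * z = ‖z‖ := by
      rw [← h, ← mul_assoc, Complex.conj_mul', hc, h]; simp
    rw [this, Complex.ofReal_re]
  have h2 := t.ip_sq_le x ((conj c) • y)
  rw [h1, q_csmul, Complex.norm_conj, hc, one_pow, one_mul, ← t.nr_sq, ← t.nr_sq, ← mul_pow] at h2
  exact (pow_le_pow_iff_left₀ (norm_nonneg _) (mul_nonneg (t.nr_nonneg _) (t.nr_nonneg _))
    two_ne_zero).1 h2

lemma nr_one : t.nr 1 = 1 := by simp [TrAlg.nr, TrAlg.q, TrAlg.re_one]

lemma norm_T_le' (y : Q) : ‖t.T y‖ ≤ t.nr y := by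
  simpa [nr_one] using norm_T_le t 1 y

lemma nr_lt {x : Q} {ε : ℝ} (hε : 0 < ε) (h : t.q x < ε ^ 2) : t.nr x < ε :=
  (Real.sqrt_lt' hε).2 h

lemma nr_sub_le (x y z : Q) : t.nr (x - z) ≤ t.nr (x - y) + t.nr (y - z) := by
  have := t.nr_add_le (x - y) (y - z)
  rwa [sub_add_sub_cancel] at this

lemma nr_le_of_q {x y : Q} {C : ℝ} (hC : 0 ≤ C) (h : t.q x ≤ C * t.q y) :
    t.nr x ≤ √C * t.nr y := by
  rw [TrAlg.nr, TrAlg.nr, ← Real.sqrt_mul hC]
  exact Real.sqrt_le_sqrt h

end Tr

variable {A : Type} [CStarAlgebra A] [PartialOrder A] [StarOrderedRing A]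
variable {τ : TracialState A} {U : Ultrafilter ℕ}
variable {G : Type} [Group G] [DecidableEq G]

/-- A unitary representation with the regular character. -/
structure Reg (s : G → UQ τ U) : Prop where
  one : s 1 = 1
  mul : ∀ g h, s (g * h) = s g * s h
  star : ∀ g, star (s g) = s g⁻¹
  tr : ∀ g, g ≠ 1 → (uTr τ U).T (s g) = 0

/-- The graph of the representation on the group algebra. -/
noncomputable def PS (s : G → UQ τ U) : Submodule ℂ (AG G × UQ τ U) :=
  Submodule.span ℂ (Set.range fun g => (lamN g, s g))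

variable {s : G → UQ τ U}

lemma mem_PS (g : G) : (lamN g, s g) ∈ PS s := Submodule.subset_span ⟨g, rfl⟩

lemma Reg.mul_mem (R : Reg s) {a b : AG G × UQ τ U} (ha : a ∈ PS s) (hb : b ∈ PS s) :
    a * b ∈ PS s := by
  refine Submodule.span_induction₂ (p := fun a b _ _ => a * b ∈ PS s) ?_ ?_ ?_ ?_ ?_ ?_ ?_ ha hb
  · rintro _ _ ⟨g, rfl⟩ ⟨h, rfl⟩
    have := mem_PS (s := s) (g * h)
    rwa [lamN_mul, R.mul] at this
  · simp
  · simp
  · intro a b c _ _ _ h1 h2
    rw [add_mul]; exact (PS s).add_mem h1 h2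
  · intro a b c _ _ _ h1 h2
    rw [mul_add]; exact (PS s).add_mem h1 h2
  · intro r a b _ _ h
    rw [smul_mul_assoc]; exact (PS s).smul_mem r h
  · intro r a b _ _ h
    rw [mul_smul_comm]; exact (PS s).smul_mem r h

lemma Reg.star_mem (R : Reg s) {a : AG G × UQ τ U} (ha : a ∈ PS s) : Star.star a ∈ PS s := by
  refine Submodule.span_induction (p := fun a _ => Star.star a ∈ PS s) ?_ ?_ ?_ ?_ ha
  · rintro _ ⟨g, rfl⟩
    have := mem_PS (s := s) g⁻¹
    rwa [← star_lamN, ← R.star] at this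
  · simp
  · intro a b _ _ h1 h2
    rw [star_add]; exact (PS s).add_mem h1 h2
  · intro r a _ h
    rw [star_smul]; exact (PS s).smul_mem _ h

lemma Reg.tr_eq (R : Reg s) {a : AG G × UQ τ U} (ha : a ∈ PS s) :
    (uTr τ U).T a.2 = (trG G).toFun a.1 := by
  refine Submodule.span_induction
    (p := fun a _ => (uTr τ U).T a.2 = (trG G).toFun a.1) ?_ ?_ ?_ ?_ ha
  · rintro _ ⟨g, rfl⟩
    simp only [tr_lamN]
    split_ifs with h
    · rw [h, R.one, (uTr τ U).one]
    · exact R.tr g h
  · simp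
  · intro a b _ _ h1 h2
    simp [h1, h2]
  · intro r a _ h
    simp [h]

lemma Reg.nr_eq (R : Reg s) {a : AG G × UQ τ U} (ha : a ∈ PS s) :
    (uTr τ U).nr a.2 = (toTr (trG G)).nr a.1 :=
  congrArg (fun z : ℂ => √z.re) (R.tr_eq (R.mul_mem (R.star_mem ha) ha))

lemma Reg.ball (R : Reg s) {a : AG G × UQ τ U} (ha : a ∈ PS s) (hn : ‖a.1‖ ≤ 1 / 2) :
    a.2 ∈ ball τ U := by
  refine mem_ball_of_moments τ _ fun m => ?_
  have h1 : (Star.star a * a) ^ (m + 1) ∈ PS s := by
    induction m with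
    | zero => simpa using R.mul_mem (R.star_mem ha) ha
    | succ m ih => rw [pow_succ]; exact R.mul_mem ih (R.mul_mem (R.star_mem ha) ha)
  have h2 := R.tr_eq h1
  change (uTr τ U).T ((Star.star a.2 * a.2) ^ (m + 1)) =
    (trG G).toFun ((Star.star a.1 * a.1) ^ (m + 1)) at h2
  rw [TrAlg.re, h2]
  refine (Complex.re_le_norm _).trans (((trG G).norm_le _).trans
    ((norm_pow_le' _ (Nat.succ_pos m)).trans ?_))
  gcongr
  rw [CStarRing.norm_star_mul_self]
  nlinarith [norm_nonneg a.1]

lemma exists_pair {a : AG G} (ha : a ∈ Submodule.span ℂ (Set.range (lamN : G → AG G))) :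
    ∃ b, (a, b) ∈ PS s := by
  refine Submodule.span_induction (p := fun a _ => ∃ b, (a, b) ∈ PS s) ?_ ?_ ?_ ?_ ha
  · rintro _ ⟨g, rfl⟩
    exact ⟨_, mem_PS g⟩
  · exact ⟨0, (PS s).zero_mem⟩
  · rintro a b _ _ ⟨c, hc⟩ ⟨d, hd⟩
    exact ⟨c + d, (PS s).add_mem hc hd⟩
  · rintro r a _ ⟨c, hc⟩
    exact ⟨r • c, (PS s).smul_mem r hc⟩

/-- The closure of the graph. -/
def Rel (s : G → UQ τ U) (x : AG G) (y : UQ τ U) : Prop :=
  ∀ ε > 0, ∃ p ∈ PS s, (toTr (trG G)).nr (x - p.1) < ε ∧ (uTr τ U).nr (y - p.2) < ε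

lemma Rel.of_mem {x : AG G} {y : UQ τ U} (h : (x, y) ∈ PS s) : Rel s x y := fun ε hε =>
  ⟨_, h, by simpa [TrAlg.nr, TrAlg.q_zero] using hε, by simpa [TrAlg.nr, TrAlg.q_zero] using hε⟩

lemma Rel.add {x x' : AG G} {y y' : UQ τ U} (h : Rel s x y) (h' : Rel s x' y') :
    Rel s (x + x') (y + y') := fun ε hε => by
  obtain ⟨p, hp, a1, a2⟩ := h _ (half_pos hε)
  obtain ⟨p', hp', b1, b2⟩ := h' _ (half_pos hε)
  refine ⟨p + p', (PS s).add_mem hp hp', ?_, ?_⟩
  · rw [Prod.fst_add, add_sub_add_comm]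
    linarith [(toTr (trG G)).nr_add_le (x - p.1) (x' - p'.1)]
  · rw [Prod.snd_add, add_sub_add_comm]
    linarith [(uTr τ U).nr_add_le (y - p.2) (y' - p'.2)]

lemma Rel.smul {x : AG G} {y : UQ τ U} (h : Rel s x y) (c : ℂ) : Rel s (c • x) (c • y) :=
  fun ε hε => by
  have hc : 0 < ‖c‖ + 1 := by positivity
  obtain ⟨p, hp, a1, a2⟩ := h _ (div_pos hε hc)
  rw [lt_div_iff₀ hc] at a1 a2
  refine ⟨c • p, (PS s).smul_mem c hp, ?_, ?_⟩
  · rw [Prod.smul_fst, ← smul_sub, nr_csmul]
    nlinarith [(toTr (trG G)).nr_nonneg (x - p.1)]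
  · rw [Prod.smul_snd, ← smul_sub, nr_csmul]
    nlinarith [(uTr τ U).nr_nonneg (y - p.2)]

lemma Rel.star (R : Reg s) {x : AG G} {y : UQ τ U} (h : Rel s x y) :
    Rel s (star x) (star y) := fun ε hε => by
  obtain ⟨p, hp, a1, a2⟩ := h _ hε
  refine ⟨Star.star p, R.star_mem hp, ?_, ?_⟩
  · rwa [Prod.fst_star, ← star_sub, TrAlg.nr_star]
  · rwa [Prod.snd_star, ← star_sub, TrAlg.nr_star]

lemma Rel.tr (R : Reg s) {x : AG G} {y : UQ τ U} (h : Rel s x y) :
    (uTr τ U).T y = (trG G).toFun x := by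
  rw [← sub_eq_zero, ← norm_le_zero_iff]
  refine le_of_forall_pos_le_add fun ε hε => ?_
  obtain ⟨p, hp, a1, a2⟩ := h _ (half_pos hε)
  have b1 := norm_T_le' (toTr (trG G)) (x - p.1)
  have b2 := norm_T_le' (uTr τ U) (y - p.2)
  have e : (uTr τ U).T y - (trG G).toFun x =
      (uTr τ U).T (y - p.2) - (toTr (trG G)).T (x - p.1) := by
    rw [map_sub, map_sub, R.tr_eq hp]
    change _ = _ - ((trG G).toFun x - (trG G).toFun p.1)
    ring
  rw [e]
  linarith [norm_sub_le ((uTr τ U).T (y - p.2)) ((toTr (trG G)).T (x - p.1))]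

lemma Rel.unique (R : Reg s) {x : AG G} {y y' : UQ τ U} (h : Rel s x y) (h' : Rel s x y') :
    y = y' := by
  rw [← sub_eq_zero]
  apply Hy.faithful
  rw [← TrAlg.nr_sq, pow_eq_zero_iff two_ne_zero]
  refine le_antisymm (le_of_forall_pos_le_add fun ε hε => ?_) (TrAlg.nr_nonneg _ _)
  obtain ⟨p, hp, a1, a2⟩ := h (ε / 4) (by positivity)
  obtain ⟨p', hp', b1, b2⟩ := h' (ε / 4) (by positivity)
  have c1 := R.nr_eq ((PS s).sub_mem hp hp')
  rw [Prod.fst_sub, Prod.snd_sub] at c1
  have c2 := nr_sub_le (uTr τ U) y p.2 y'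
  have c3 := nr_sub_le (uTr τ U) p.2 p'.2 y'
  have c4 := nr_sub_le (toTr (trG G)) p.1 x p'.1
  rw [TrAlg.nr_sub_comm] at a1 b2
  linarith

lemma Rel.mul (hU : (U : Filter ℕ) ≤ cofinite) (R : Reg s) {x x' : AG G} {y y' : UQ τ U}
    (h : Rel s x y) (h' : Rel s x' y') : Rel s (x * x') (y * y') := fun ε hε => by
  obtain ⟨C, hC, c1⟩ := (good τ hU).bdd' y'
  set K := √C + √(‖x'‖ ^ 2) + 1 with hK
  have hK0 : 0 < K := by positivity
  obtain ⟨p, hp, a1, a2⟩ := h (ε / 2 / K) (by positivity)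
  obtain ⟨D, hD, d1⟩ := (good τ hU).bdd p.2
  set L := √D + √(‖p.1‖ ^ 2) + 1 with hL
  have hL0 : 0 < L := by positivity
  obtain ⟨p', hp', b1, b2⟩ := h' (ε / 2 / L) (by positivity)
  rw [lt_div_iff₀ hK0] at a1 a2
  rw [lt_div_iff₀ hL0] at b1 b2
  refine ⟨p * p', R.mul_mem hp hp', ?_, ?_⟩
  · have e : x * x' - (p * p').1 = (x - p.1) * x' + p.1 * (x' - p'.1) := by
      rw [Prod.fst_mul]; noncomm_ring
    have f1 := nr_le_of_q _ (sq_nonneg _) (Hy.q_mul_le' (trG G) (x - p.1) x')
    have f2 := nr_le_of_q _ (sq_nonneg _) (Hy.q_mul_le (trG G) p.1 (x' - p'.1))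
    have f3 := (toTr (trG G)).nr_add_le ((x - p.1) * x') (p.1 * (x' - p'.1))
    have g1 := (toTr (trG G)).nr_nonneg (x - p.1)
    have g2 := (toTr (trG G)).nr_nonneg (x' - p'.1)
    have g3 := mul_nonneg g1 (Real.sqrt_nonneg C)
    have g4 := mul_nonneg g2 (Real.sqrt_nonneg D)
    rw [e]
    nlinarith
  · have e : y * y' - (p * p').2 = (y - p.2) * y' + p.2 * (y' - p'.2) := by
      rw [Prod.snd_mul]; noncomm_ring
    have f1 := nr_le_of_q _ hC.le (c1 (y - p.2))
    have f2 := nr_le_of_q _ hD.le (d1 (y' - p'.2))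
    have f3 := (uTr τ U).nr_add_le ((y - p.2) * y') (p.2 * (y' - p'.2))
    have g1 := (uTr τ U).nr_nonneg (y - p.2)
    have g2 := (uTr τ U).nr_nonneg (y' - p'.2)
    have g3 := mul_nonneg g1 (Real.sqrt_nonneg (‖x'‖ ^ 2))
    have g4 := mul_nonneg g2 (Real.sqrt_nonneg (‖p.1‖ ^ 2))
    rw [e]
    nlinarith

lemma exists_rel (hU : (U : Filter ℕ) ≤ cofinite) (R : Reg s) (x : AG G) : ∃ y, Rel s x y := by
  have key : ∀ x : AG G, ‖x‖ ≤ 1 → ∃ y, Rel s (((1 / 6 : ℝ) : ℂ) • x) y := by
    intro x hx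
    choose a ha hn hq using fun k : ℕ =>
      kap_span x hx (show (0 : ℝ) < 1 / (k + 1) by positivity)
    choose b hb using fun k => exists_pair (s := s) (ha k)
    let c : ℂ := ((1 / 6 : ℝ) : ℂ)
    have hc : ‖c‖ = 1 / 6 := by simp [c]
    have hp : ∀ k, c • (a k, b k) ∈ PS s := fun k => (PS s).smul_mem c (hb k)
    have hq' : ∀ k : ℕ, (toTr (trG G)).q (c • x - c • a k) ≤ 1 / (k + 1) := fun k => by
      rw [← smul_sub, q_csmul, hc]
      nlinarith [hq k, (toTr (trG G)).q_nonneg (x - a k)]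
    obtain ⟨z, -, hz⟩ := (good τ hU).complete (fun k => c • b k)
      (fun k => R.ball (hp k) (by
        change ‖c • a k‖ ≤ _
        rw [norm_smul, hc]; linarith [hn k]))
      (fun k l => by
        have e1 := R.nr_eq ((PS s).sub_mem (hp k) (hp l))
        change (uTr τ U).nr (c • b k - c • b l) = (toTr (trG G)).nr (c • a k - c • a l) at e1
        rw [← TrAlg.nr_sq, e1, TrAlg.nr_sq]
        have e2 : c • a k - c • a l = (c • x - c • a l) - (c • x - c • a k) := by abel
        have e3 := (toTr (trG G)).q_sub_le (c • x - c • a l) (c • x - c • a k)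
        have e4 := hq' k
        have e5 := hq' l
        have e6 : (2 : ℝ) / (k + 1) = 2 * (1 / (k + 1)) := by ring
        have e7 : (2 : ℝ) / (l + 1) = 2 * (1 / (l + 1)) := by ring
        rw [e2]
        linarith)
    refine ⟨z, fun ε hε => ?_⟩
    obtain ⟨k, hk⟩ := exists_div_lt (C := 5) (show 0 < ε ^ 2 by positivity)
    refine ⟨_, hp k, nr_lt _ hε ?_, nr_lt _ hε ?_⟩
    · refine (hq' k).trans_lt (lt_of_le_of_lt ?_ hk)
      gcongr; norm_num
    · rw [TrAlg.q_sub_comm]
      exact (hz k).trans_lt hk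
  set r : ℝ := ‖x‖ + 1 with hr
  have hr0 : 0 < r := by positivity
  obtain ⟨y, hy⟩ := key (((r⁻¹ : ℝ) : ℂ) • x) (by
    rw [norm_smul, Complex.norm_real, Real.norm_eq_abs, abs_of_pos (by positivity),
      inv_mul_le_iff₀ hr0]
    linarith)
  have := hy.smul ((6 * r : ℝ) : ℂ)
  rw [smul_smul, smul_smul, ← Complex.ofReal_mul, ← Complex.ofReal_mul,
    show 6 * r * (1 / 6) * r⁻¹ = 1 by field_simp, Complex.ofReal_one, one_smul] at this
  exact ⟨_, this⟩

theorem exists_ext (hU : (U : Filter ℕ) ≤ cofinite) (R : Reg s) :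
    ∃ π : AG G →ₐ[ℂ] UQ τ U, IsEmbedding (rep G) (trG G) τ U π ∧ ∀ g, π (lamN g) = s g := by
  choose f hf using exists_rel hU R
  have h1 : Rel s 1 1 := by
    have := Rel.of_mem (mem_PS (s := s) 1)
    rwa [lamN_one, R.one] at this
  let π : AG G →ₐ[ℂ] UQ τ U := AlgHom.ofLinearMap
    { toFun := f
      map_add' := fun x y => (hf _).unique R ((hf x).add (hf y))
      map_smul' := fun c x => (hf _).unique R ((hf x).smul c) }
    ((hf _).unique R h1) fun x y => (hf _).unique R ((hf x).mul hU R (hf y))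
  have hst : ∀ x, π (star x) = star (π x) := fun x => (hf _).unique R ((hf x).star R)
  have htr : ∀ x, (uTr τ U).T (π x) = (trG G).toFun x := fun x => (hf x).tr R
  have hnr : ∀ x, (uTr τ U).nr (π x) = ‖rep G x (δ 1)‖ := fun x => by
    rw [TrAlg.nr, TrAlg.q, TrAlg.re, ← hst, ← map_mul, htr, ← TracialState.q, q_trG,
      Real.sqrt_sq (norm_nonneg _)]
  refine ⟨π, ⟨hst, ?_, htr, fun y l a _ h => ?_⟩,
    fun g => (hf _).unique R (Rel.of_mem (mem_PS g))⟩
  · change Function.Injective π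
    rw [injective_iff_map_eq_zero]
    intro x hx
    apply (trG G).faithful
    rw [← htr, map_mul, hx, mul_zero, map_zero]
  · let ev : AG G →ₗ[ℂ] L2 G :=
      { toFun := fun x => rep G x (δ 1)
        map_add' := fun x y => by simp
        map_smul' := fun c x => by simp }
    have hev : Function.Injective ev := by
      rw [injective_iff_map_eq_zero]
      exact fun x hx => eq_zero_of_apply_δ hx
    let y' : UQ τ U := y
    let F : AG G →ₗ[ℂ] ℂ := (uTr τ U).T ∘ₗ LinearMap.mulLeft ℂ y' ∘ₗ π.toLinearMap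
    let F1 : LinearMap.range ev →L[ℂ] ℂ := LinearMap.mkContinuous
      (F ∘ₗ (LinearEquiv.ofInjective ev hev).symm.toLinearMap) ((uTr τ U).nr (star y')) (by
        intro v
        obtain ⟨x, rfl⟩ := (LinearEquiv.ofInjective ev hev).surjective v
        have := norm_T_le (uTr τ U) (star y') (π x)
        rw [star_star, hnr] at this
        simpa [F, ev] using this)
    obtain ⟨g, hg, -⟩ := exists_extension_norm_eq (LinearMap.range ev) F1
    have key : ∀ x : AG G, (uTr τ U).T (y' * π x) =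
        ⟪(InnerProductSpace.toDual ℂ (L2 G)).symm g, rep G x (δ 1)⟫_ℂ := by
      intro x
      rw [InnerProductSpace.toDual_symm_apply]
      have := hg (LinearEquiv.ofInjective ev hev x)
      simp only [F1, LinearMap.mkContinuous_apply, LinearMap.comp_apply, LinearEquiv.coe_coe,
        LinearEquiv.symm_apply_apply] at this
      exact this.symm
    change Tendsto (fun x => (uTr τ U).T (y' * π x)) l (𝓝 ((uTr τ U).T (y' * π a)))
    simp only [key]
    exact h _ (δ 1)

end Pool.Agent.MP_a3b3aa_an.E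

end
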