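import Mathlib
import Pool.Agent.Mg.F890ef7p.Ga2ff33

section

/-! The ping-pong estimate on frequencies modulo an odd number. -/

set_option maxHeartbeats 400000

namespace Pool.Agent.MP_a3b3aa_an.E

open Finset

lemma two_images {Z : Type} [Fintype Z] [DecidableEq Z] (m : Z → ℝ) (hm : ∀ z, 0 ≤ m z)
    (S : Finset Z) (g h : Z → Z) (hg : Function.Injective g) (hh : Function.Injective h)
    (h1 : ∀ z ∈ S, g z ∉ S) (h2 : ∀ z ∈ S, h z ∉ S) (h3 : ∀ z ∈ S, ∀ w ∈ S, g z ≠ h w) :
    ∑ z ∈ S, m (g z) + ∑ z ∈ S, m (h z) + ∑ z ∈ S, m z ≤ ∑ z, m z := by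
  have e1 : ∑ z ∈ S, m (g z) = ∑ z ∈ S.image g, m z := (sum_image fun _ _ _ _ e => hg e).symm
  have e2 : ∑ z ∈ S, m (h z) = ∑ z ∈ S.image h, m z := (sum_image fun _ _ _ _ e => hh e).symm
  rw [e1, e2, ← sum_union, ← sum_union]
  · exact sum_le_sum_of_subset_of_nonneg (subset_univ _) fun z _ _ => hm z
  · rw [disjoint_left]
    intro z hz hS
    rcases mem_union.1 hz with a | a
    · obtain ⟨w, hw, rfl⟩ := mem_image.1 a
      exact h1 w hw hS
    · obtain ⟨w, hw, rfl⟩ := mem_image.1 a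
      exact h2 w hw hS
  · rw [disjoint_left]
    intro z a b
    obtain ⟨w, hw, rfl⟩ := mem_image.1 a
    obtain ⟨v, hv, e⟩ := mem_image.1 b
    exact h3 w hw v hv e.symm

lemma half_step {Z : Type} [Fintype Z] [DecidableEq Z] (m : Z → ℝ) (hm : ∀ z, 0 ≤ m z)
    (S : Finset Z) (g h : Z → Z) (hg : Function.Injective g) (hh : Function.Injective h)
    (h1 : ∀ z ∈ S, g z ∉ S) (h2 : ∀ z ∈ S, h z ∉ S) (h3 : ∀ z ∈ S, ∀ w ∈ S, g z ≠ h w)
    {η : ℝ} (a b : Z → ℝ) (ha0 : ∀ z, 0 ≤ a z) (hb0 : ∀ z, 0 ≤ b z) (ha : ∑ z, a z ≤ η)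
    (hb : ∑ z, b z ≤ η) (hga : ∀ z, m z ≤ 5 / 4 * m (g z) + 5 * a z)
    (hhb : ∀ z, m z ≤ 5 / 4 * m (h z) + 5 * b z) :
    13 / 4 * ∑ z ∈ S, m z ≤ 5 / 4 * ∑ z, m z + 10 * η := by
  have c1 := two_images m hm S g h hg hh h1 h2 h3
  have c2 := sum_le_sum fun z (_ : z ∈ S) => hga z
  have c3 := sum_le_sum fun z (_ : z ∈ S) => hhb z
  rw [sum_add_distrib, ← mul_sum, ← mul_sum] at c2 c3
  have c4 : ∑ z ∈ S, a z ≤ ∑ z, a z :=
    sum_le_sum_of_subset_of_nonneg (subset_univ _) fun z _ _ => ha0 z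
  have c5 : ∑ z ∈ S, b z ≤ ∑ z, b z :=
    sum_le_sum_of_subset_of_nonneg (subset_univ _) fun z _ _ => hb0 z
  linarith

/-- Ping-pong with integer coordinates `A`, `B` of different parity. -/
lemma pingpong {Z : Type} [Fintype Z] [DecidableEq Z] (m : Z → ℝ) (hm : ∀ z, 0 ≤ m z)
    (A B : Z → ℤ) (p : ℤ) (hAB : ∀ z, |A z| ≠ |B z|) (g h : Bool → Z → Z)
    (hg : ∀ s, Function.Injective (g s)) (hh : ∀ s, Function.Injective (h s))
    (gA : ∀ s z, A (g s z) = A z) (hB : ∀ s z, B (h s z) = B z)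
    (gB : ∀ s z, 3 * |A z| < p → 3 * |B z| < p →
      B (g s z) = B z + (if s then 2 else -2) * A z)
    (hA : ∀ s z, 3 * |A z| < p → 3 * |B z| < p →
      A (h s z) = A z + (if s then 2 else -2) * B z)
    {η : ℝ} (a b : Bool → Z → ℝ) (ha0 : ∀ s z, 0 ≤ a s z) (hb0 : ∀ s z, 0 ≤ b s z)
    (ha : ∀ s, ∑ z, a s z ≤ η) (hb : ∀ s, ∑ z, b s z ≤ η)
    (hga : ∀ s z, m z ≤ 5 / 4 * m (g s z) + 5 * a s z)
    (hhb : ∀ s z, m z ≤ 5 / 4 * m (h s z) + 5 * b s z)
    (c d : Z → ℝ) (hc0 : ∀ z, 0 ≤ c z) (hd0 : ∀ z, 0 ≤ d z) (hc : ∑ z, c z ≤ η)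
    (hd : ∑ z, d z ≤ η) (hcA : ∀ z, p ≤ 3 * |A z| → m z ≤ c z)
    (hdB : ∀ z, p ≤ 3 * |B z| → m z ≤ d z) : ∑ z, m z ≤ 40 * η := by
  let S₁ := univ.filter fun z => 3 * |A z| < p ∧ |B z| < |A z|
  let S₂ := univ.filter fun z => 3 * |B z| < p ∧ |A z| < |B z|
  have k1 := half_step m hm S₁ (g true) (g false) (hg _) (hg _) ?_ ?_ ?_ _ _ (ha0 _) (ha0 _)
    (ha _) (ha _) (hga _) (hga _)
  · have k2 := half_step m hm S₂ (h true) (h false) (hh _) (hh _) ?_ ?_ ?_ _ _ (hb0 _) (hb0 _)
      (hb _) (hb _) (hhb _) (hhb _)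
    · have k3 : ∑ z, m z ≤ ∑ z, ((if 3 * |A z| < p ∧ |B z| < |A z| then m z else 0) +
          (if 3 * |B z| < p ∧ |A z| < |B z| then m z else 0) + c z + d z) := by
        refine sum_le_sum fun z _ => ?_
        have := hm z
        have := hc0 z
        have := hd0 z
        have := hAB z
        by_cases x : p ≤ 3 * |A z|
        · have := hcA z x
          split_ifs <;> linarith
        · by_cases y : p ≤ 3 * |B z|
          · have := hdB z y
            split_ifs <;> linarith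
          · split_ifs <;> first | linarith | omega
      rw [sum_add_distrib, sum_add_distrib, sum_add_distrib, ← sum_filter, ← sum_filter] at k3
      have k4 : 0 ≤ η := (sum_nonneg fun z _ => hc0 z).trans hc
      change ∑ z, m z ≤ ∑ z ∈ S₁, m z + ∑ z ∈ S₂, m z + _ + _ at k3
      linarith
    · intro z hz hz'
      simp only [S₂, mem_filter, mem_univ, true_and] at hz hz'
      rw [hB, hA _ _ (by omega) hz.1] at hz'
      simp only [if_true, abs_lt] at hz hz'
      rcases abs_cases (B z) with x | x <;> omega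
    · intro z hz hz'
      simp only [S₂, mem_filter, mem_univ, true_and] at hz hz'
      rw [hB, hA _ _ (by omega) hz.1] at hz'
      simp only [Bool.false_eq_true, if_false, abs_lt] at hz hz'
      rcases abs_cases (B z) with x | x <;> omega
    · intro z hz w hw e
      simp only [S₂, mem_filter, mem_univ, true_and] at hz hw
      have e1 := congrArg A e
      have e2 := congrArg B e
      rw [hA _ _ (by omega) hz.1, hA _ _ (by omega) hw.1] at e1
      rw [hB, hB] at e2
      rw [← e2] at hw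
      simp only [Bool.false_eq_true, if_false, if_true, abs_lt] at hz hw e1
      rcases abs_cases (B z) with x | x <;> omega
  · intro z hz hz'
    simp only [S₁, mem_filter, mem_univ, true_and] at hz hz'
    rw [gA, gB _ _ hz.1 (by omega)] at hz'
    simp only [if_true, abs_lt] at hz hz'
    rcases abs_cases (A z) with x | x <;> omega
  · intro z hz hz'
    simp only [S₁, mem_filter, mem_univ, true_and] at hz hz'
    rw [gA, gB _ _ hz.1 (by omega)] at hz'
    simp only [Bool.false_eq_true, if_false, abs_lt] at hz hz'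
    rcases abs_cases (A z) with x | x <;> omega
  · intro z hz w hw e
    simp only [S₁, mem_filter, mem_univ, true_and] at hz hw
    have e1 := congrArg A e
    have e2 := congrArg B e
    rw [gB _ _ hz.1 (by omega), gB _ _ hw.1 (by omega)] at e2
    rw [gA, gA] at e1
    rw [← e1] at hw
    simp only [Bool.false_eq_true, if_false, if_true, abs_lt] at hz hw e2
    rcases abs_cases (A z) with x | x <;> omega

variable {p : ℕ} [NeZero p]

/-- The odd integer representing `-2 t`. -/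
def fA (t : ZMod p) : ℤ := p - 2 * (t.val : ℤ)

/-- The even integer representing `2 t`. -/
def fB (t : ZMod p) : ℤ := 2 * t.valMinAbs

lemma fA_cast (t : ZMod p) : ((fA t : ℤ) : ZMod p) = -2 * t := by
  simp [fA]

lemma fB_cast (t : ZMod p) : ((fB t : ℤ) : ZMod p) = 2 * t := by
  simp [fB]

lemma fA_abs (t : ZMod p) : |fA t| ≤ p := by
  have := t.val_lt
  rw [abs_le, fA]
  omega

lemma fB_abs (t : ZMod p) : |fB t| ≤ p := by
  have := t.natAbs_valMinAbs_le
  rw [abs_le, fB]
  omega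

lemma eq_of_cast (hp : Odd p) {x y : ℤ} (h : (x : ZMod p) = y) (he : Even (x - y))
    (hx : |x| ≤ p) (hy : |y| < p) : x = y := by
  have h1 : (p : ℤ) ∣ x - y := (ZMod.intCast_eq_intCast_iff_dvd_sub y x p).1 h.symm
  obtain ⟨k, hk⟩ := h1
  obtain ⟨r, hr⟩ := hp
  have h2 : Even k := by
    rw [hk, Int.even_mul] at he
    refine he.resolve_left ?_
    rw [Int.not_even_iff_odd]
    exact ⟨r, by exact_mod_cast hr⟩
  obtain ⟨j, rfl⟩ := h2
  rw [abs_le] at hx
  rw [abs_lt] at hy
  have hp0 : (0 : ℤ) < p := by omega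
  have : j = 0 := by
    by_contra hj
    rcases lt_or_gt_of_ne hj with a | a <;> nlinarith
  rw [this] at hk
  simpa [sub_eq_zero] using hk

lemma fA_odd (hp : Odd p) (t : ZMod p) : Odd (fA t) := by
  obtain ⟨r, hr⟩ := hp
  have : (p : ℤ) = 2 * r + 1 := by exact_mod_cast hr
  exact ⟨r - t.val, by rw [fA, this]; ring⟩

lemma fB_even (t : ZMod p) : Even (fB t) := even_two_mul _

lemma one_le_norm (t : ℤ) (h1 : (p : ℤ) ≤ 3 * |t|) (h2 : |t| ≤ p) :
    1 ≤ ‖1 - Complex.exp ((Real.pi * t / p : ℝ) * Complex.I)‖ ^ 2 := by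
  have hp : (0 : ℝ) < p := by exact_mod_cast NeZero.pos p
  have h3 : Real.cos (Real.pi * t / p) ≤ 1 / 2 := by
    rw [← Real.cos_abs, ← Real.cos_pi_div_three]
    have e : |Real.pi * t / p| = Real.pi * (|(t : ℝ)| / p) := by
      rw [abs_div, abs_mul, abs_of_pos Real.pi_pos, abs_of_pos hp, mul_div_assoc]
    have a1 : (p : ℝ) ≤ 3 * |(t : ℝ)| := by exact_mod_cast h1
    have a2 : |(t : ℝ)| ≤ p := by exact_mod_cast h2
    have b1 : 1 / 3 ≤ |(t : ℝ)| / p := by rw [le_div_iff₀ hp]; linarith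
    have b2 : |(t : ℝ)| / p ≤ 1 := by rw [div_le_one hp]; exact a2
    rw [e]
    refine Real.cos_le_cos_of_nonneg_of_le_pi (by positivity) ?_ ?_ <;>
      nlinarith [Real.pi_pos]
  rw [Complex.sq_norm, Complex.normSq_apply]
  simp only [Complex.sub_re, Complex.one_re, Complex.exp_ofReal_mul_I_re, Complex.sub_im,
    Complex.one_im, Complex.exp_ofReal_mul_I_im]
  nlinarith [Real.sin_sq_add_cos_sq (Real.pi * t / p)]

lemma far_B (t : ZMod p) (h : (p : ℤ) ≤ 3 * |fB t|) : 1 ≤ ‖1 - ZMod.stdAddChar t‖ ^ 2 := by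
  have hp : (p : ℂ) ≠ 0 := by exact_mod_cast NeZero.ne p
  convert one_le_norm _ h (fB_abs t) using 4
  conv_lhs => rw [← ZMod.coe_valMinAbs t, ZMod.stdAddChar_coe]
  congr 1
  simp only [fB]
  push_cast
  field_simp

lemma far_A (t : ZMod p) (h : (p : ℤ) ≤ 3 * |fA t|) : 1 ≤ ‖-1 - ZMod.stdAddChar (-t)‖ ^ 2 := by
  have hp : (p : ℂ) ≠ 0 := by exact_mod_cast NeZero.ne p
  have e : -t = ((-(t.val : ℤ) : ℤ) : ZMod p) := by simp
  have e2 : Complex.exp ((Real.pi * fA t / p : ℝ) * Complex.I) = -ZMod.stdAddChar (-t) := by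
    rw [e, ZMod.stdAddChar_coe, ← neg_one_mul, ← Complex.exp_pi_mul_I, ← Complex.exp_add]
    congr 1
    simp only [fA]
    push_cast
    field_simp
    ring
  have := one_le_norm _ h (fA_abs t)
  rw [e2] at this
  rwa [← norm_neg, neg_sub, sub_neg_eq_add, add_comm, ← sub_neg_eq_add]

lemma card_line {F : Type} [Field F] [Fintype F] [DecidableEq F] {α β : F} (h : α ≠ 0 ∨ β ≠ 0) :
    (univ.filter fun θ : F × F => α * θ.1 + β * θ.2 = 0).card ≤ Fintype.card F := by
  rw [← card_univ]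
  rcases h with h | h
  · refine card_le_card_of_injOn Prod.snd (fun _ _ => mem_univ _) fun x hx y hy e => ?_
    simp only [coe_filter, mem_univ, true_and, Set.mem_setOf_eq] at hx hy
    refine Prod.ext (mul_left_cancel₀ h ?_) e
    rw [e] at hx
    linear_combination hx - hy
  · refine card_le_card_of_injOn Prod.fst (fun _ _ => mem_univ _) fun x hx y hy e => ?_
    simp only [coe_filter, mem_univ, true_and, Set.mem_setOf_eq] at hx hy
    refine Prod.ext e (mul_left_cancel₀ h ?_)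
    rw [e] at hx
    linear_combination hx - hy

lemma sum_char {x y : ZMod p} (h : x ≠ 0 ∨ y ≠ 0) :
    ∑ θ : ZMod p × ZMod p, ZMod.stdAddChar (θ.1 * y - θ.2 * x) = 0 := by
  have e : ∑ θ : ZMod p × ZMod p, ZMod.stdAddChar (θ.1 * y - θ.2 * x) =
      (∑ a : ZMod p, ZMod.stdAddChar (a * y)) * ∑ b : ZMod p, ZMod.stdAddChar (b * -x) := by
    rw [sum_mul_sum, Fintype.sum_prod_type]
    refine sum_congr rfl fun a _ => sum_congr rfl fun b _ => ?_
    rw [← AddChar.map_add_eq_mul]
    congr 1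
    ring
  rw [e, AddChar.sum_mulShift _ (ZMod.isPrimitive_stdAddChar p),
    AddChar.sum_mulShift _ (ZMod.isPrimitive_stdAddChar p)]
  rcases h with h | h <;> simp [h]

end Pool.Agent.MP_a3b3aa_an.E

end

section

/-! The affine group has infinite conjugacy classes, so its von Neumann algebra is a factor. -/

open Filter Topology

namespace Pool.Agent.MP_a3b3aa_an.E

lemma factor_of_icc {G : Type} [Group G] [DecidableEq G]
    (h : ∀ g : G, g ≠ 1 → ∃ k : ℕ → G, Function.Injective fun n => (k n)⁻¹ * g * k n)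
    (z : AG G) (hz : ∀ x, z * x = x * z) : ∃ c : ℂ, z = c • 1 := by
  set ξ := rep G z (δ 1) with hξ
  have hc : ∀ g k : G, ξ (k⁻¹ * g * k) = ξ g := by
    intro g k
    have h1 := congrArg (fun w => rep G w (δ 1) (g * k)) (hz (lamN k))
    simp only [map_mul, rep_lamN, ContinuousLinearMap.mul_apply, lam_δ, lam_apply] at h1
    rw [apply_δ z k] at h1
    simp only [rho_apply, mul_inv_cancel_right] at h1
    rw [mul_assoc]
    exact h1.symm
  have h0 : ∀ g : G, g ≠ 1 → ξ g = 0 := by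
    intro g hg
    obtain ⟨k, hk⟩ := h g hg
    have h1 := ((hasSum_sq ξ).summable.comp_injective hk).tendsto_atTop_zero
    have h2 : Tendsto (fun _ : ℕ => ‖ξ g‖ ^ 2) atTop (𝓝 0) :=
      h1.congr fun n => by simp only [Function.comp, hc]
    have h3 := tendsto_nhds_unique tendsto_const_nhds h2
    simpa using h3
  refine ⟨ξ 1, ?_⟩
  rw [← sub_eq_zero]
  apply eq_zero_of_apply_δ
  refine lp.ext (funext fun g => ?_)
  change ξ g - ξ 1 * δ 1 g = 0
  by_cases hg : g = 1
  · simp [δ_apply, hg]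
  · simp [δ_apply, hg, h0 g hg]

namespace Aff

/-- Translations. -/
def tr (x y : ℤ) : Aff := ⟨1, 0, 0, 1, x, y, by norm_num, by simp⟩

/-- Upper triangular elements. -/
def up (n : ℤ) : Aff := ⟨1, 2 * n, 0, 1, 0, 0, by norm_num, by simp⟩

/-- Lower triangular elements. -/
def lo (n : ℤ) : Aff := ⟨1, 0, n, 1, 0, 0, by norm_num, by simp⟩

lemma icc (g : Aff) (hg : g ≠ 1) :
    ∃ k : ℕ → Aff, Function.Injective fun n => (k n)⁻¹ * g * k n := by
  by_cases ha : g.a = 1
  · by_cases hc : g.c = 0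
    · by_cases hb : g.b = 0
      · by_cases hd : g.d = 1
        · by_cases hx : g.x = 0
          · have hy : g.y ≠ 0 := fun hy => hg (by ext <;> simp [*])
            refine ⟨fun n => up n, fun m n e => ?_⟩
            have := congrArg Aff.x e
            simp [up, ha, hb, hc, hd, hx, hy] at this
            exact this
          · refine ⟨fun n => lo n, fun m n e => ?_⟩
            have := congrArg Aff.y e
            simp [lo, ha, hb, hc, hd, hx] at this
            exact this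
        · refine ⟨fun n => tr 0 n, fun m n e => ?_⟩
          have := congrArg Aff.y e
          simp only [tr, mul_y, inv_y, inv_c, inv_d, mul_c, mul_d] at this
          have h2 : (g.d - 1) * ((m : ℤ) - n) = 0 := by linarith
          rcases mul_eq_zero.1 h2 with h | h
          · exact absurd (by linarith) hd
          · exact_mod_cast sub_eq_zero.1 h
      · refine ⟨fun n => tr 0 n, fun m n e => ?_⟩
        have := congrArg Aff.x e
        simp only [tr, mul_x, inv_x, inv_a, inv_b, mul_a, mul_b] at this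
        have h2 : g.b * ((m : ℤ) - n) = 0 := by linarith
        rcases mul_eq_zero.1 h2 with h | h
        · exact absurd h hb
        · exact_mod_cast sub_eq_zero.1 h
    · refine ⟨fun n => tr n 0, fun m n e => ?_⟩
      have := congrArg Aff.y e
      simp only [tr, mul_y, inv_y, inv_c, inv_d, mul_c, mul_d] at this
      have h2 : g.c * ((m : ℤ) - n) = 0 := by linarith
      rcases mul_eq_zero.1 h2 with h | h
      · exact absurd h hc
      · exact_mod_cast sub_eq_zero.1 h
  · refine ⟨fun n => tr n 0, fun m n e => ?_⟩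
    have := congrArg Aff.x e
    simp only [tr, mul_x, inv_x, inv_a, inv_b, mul_a, mul_b] at this
    have h2 : (g.a - 1) * ((m : ℤ) - n) = 0 := by linarith
    rcases mul_eq_zero.1 h2 with h | h
    · exact absurd (by linarith) ha
    · exact_mod_cast sub_eq_zero.1 h

instance : Infinite Aff :=
  Infinite.of_injective (fun n : ℤ => tr n 0) fun _ _ e => congrArg Aff.x e

end Aff

theorem isFactor_Aff : IsSeparableIIOneFactor (rep Aff) (trG Aff) where
  injective := rep_injective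
  vonNeumann := ⟨LG Aff, range_rep⟩
  separable := separable_L2
  normal := isNormal_trG
  infinite_dim := not_finiteDimensional
  factor := factor_of_icc Aff.icc

end Pool.Agent.MP_a3b3aa_an.E

end

section

/-! The finite level: two representations of the affine group in matrix units. -/

open scoped ComplexOrder ComplexConjugate

set_option linter.unusedSectionVars false
set_option maxHeartbeats 400000

namespace Pool.Agent.MP_a3b3aa_an.E

open Hy

variable {N : Type} [CStarAlgebra N] [PartialOrder N] [StarOrderedRing N]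

section Gen

variable {ι : Type} [Fintype ι] [DecidableEq ι] {e : ι → ι → N} (τ : TracialState N)

lemma MU.block_eq (h : MU e) {σ : ι → ι} (hσ : Function.Injective σ) (d d' : ι → ℂ) (T : N)
    (i j : ι) : e i (σ i) * (T * mono e σ d - mono e σ d' * T) * e j j =
      d j • (e i (σ i) * T * e (σ j) j) - d' i • (e i i * T * e j j) := by
  have a1 : e i (σ i) * (T * mono e σ d) * e j j = d j • (e i (σ i) * T * e (σ j) j) := by
    rw [mul_assoc, mul_assoc, h.mono_mul_e, mul_smul_comm, mul_smul_comm, mul_assoc]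
  have a2 : e i (σ i) * (mono e σ d' * T) * e j j = d' i • (e i i * T * e j j) := by
    rw [← mul_assoc, h.e_mul_mono hσ, smul_mul_assoc, smul_mul_assoc]
  rw [mul_sub, sub_mul, a1, a2]

lemma MU.move (h : MU e) {σ : ι → ι} (hσ : Function.Injective σ) {d d' : ι → ℂ} (T : N)
    {i j : ι} (h1 : d j = 1) (h2 : d' i = 1) :
    ms τ e T i j ≤ 5 / 4 * ms τ e T (σ i) (σ j) +
      5 * ms τ e (T * mono e σ d - mono e σ d' * T) (σ i) j := by
  have a := h.block_eq hσ d d' T i j
  rw [h1, h2, one_smul, one_smul] at a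
  rw [← h.q_block τ T i i j j, ← h.q_block τ T i (σ i) (σ j) j, ← h.q_block τ _ i (σ i) j j,
    eq_sub_of_add_eq' (eq_sub_iff_add_eq.1 a)]
  set x := e i (σ i) * T * e (σ j) j
  set y := e i (σ i) * (T * mono e σ d - mono e σ d' * T) * e j j
  have b := (toTr τ).two_ip_le (1 / 4) (by norm_num) x (-y)
  rw [TrAlg.ip_neg, TrAlg.q_neg] at b
  rw [TrAlg.q_sub]
  linarith

lemma MU.far (h : MU e) {σ : ι → ι} (hσ : ∀ i, σ i = i) {d d' : ι → ℂ} (T : N)
    {i j : ι} (h1 : 1 ≤ ‖d j - d' i‖ ^ 2) :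
    ms τ e T i j ≤ ms τ e (T * mono e σ d - mono e σ d' * T) i j := by
  have a := h.block_eq (σ := σ) (fun x y c => by rwa [hσ, hσ] at c) d d' T i j
  rw [hσ, hσ, ← sub_smul] at a
  rw [← h.q_block τ _ i i j j, ← h.q_block τ _ i i j j, a, q_csmul]
  exact le_mul_of_one_le_left (TrAlg.q_nonneg _ _) h1

lemma dg_sum {L : Type} [Fintype L] (a : L → ι → ℝ) :
    ∑ l, dg e (a l) = dg e fun i => ∑ l, a l i := by
  simp only [dg, Complex.ofReal_sum, Finset.sum_smul]
  exact Finset.sum_comm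

lemma dg_const (c : ℝ) : (dg e fun _ => c) = (c : ℂ) • ∑ i, e i i := by
  rw [dg, Finset.smul_sum]

end Gen

/-- The two families of blocks. -/
abbrev Bl (k : ℕ) : Type := Fin k ⊕ Fin (k + 1)

/-- The index set of the matrix units. -/
abbrev Ix (k p : ℕ) : Type := Bl k × (ZMod p × ZMod p)

variable {k p : ℕ} [Fact p.Prime]

/-- The linear action modulo `p`. -/
def act (g : Aff) (θ : ZMod p × ZMod p) : ZMod p × ZMod p :=
  ((g.a : ZMod p) * θ.1 + g.b * θ.2, (g.c : ZMod p) * θ.1 + g.d * θ.2)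

lemma act_mul (g h : Aff) (θ : ZMod p × ZMod p) : act (g * h) θ = act g (act h θ) := by
  ext <;> simp [act] <;> ring

lemma act_one (θ : ZMod p × ZMod p) : act 1 θ = θ := by simp [act]

/-- The permutation of the indices. -/
def sg (g : Aff) (i : Ix k p) : Ix k p := (i.1, act g i.2)

lemma sg_inj (g : Aff) : Function.Injective (sg (k := k) (p := p) g) :=
  Function.LeftInverse.injective (g := sg g⁻¹) fun i => by
    simp [sg, ← act_mul, act_one]

/-- The sign on one family of blocks. -/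
noncomputable def sn (t : Bool) (b : Bl k) (g : Aff) : ℂ :=
  if b.isRight = t then (-1) ^ g.x else 1

/-- The phase. -/
noncomputable def ph (g : Aff) (θ : ZMod p × ZMod p) : ℂ :=
  ZMod.stdAddChar ((act g θ).1 * (g.y : ZMod p) - (act g θ).2 * (g.x : ZMod p))

lemma sn_mul (t : Bool) (b : Bl k) (g h : Aff) : sn t b (g * h) = sn t b g * sn t b h := by
  unfold sn
  split_ifs
  · rw [Aff.mul_x, zpow_add₀ (by norm_num), zpow_add₀ (by norm_num), zpow_mul, zpow_mul,
      g.odd_a.neg_one_zpow, g.ev.neg_one_zpow, one_zpow, mul_one]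
  · simp

lemma ph_mul (g h : Aff) (θ : ZMod p × ZMod p) : ph (g * h) θ = ph g (act h θ) * ph h θ := by
  rw [ph, ph, ph, ← AddChar.map_add_eq_mul, act_mul]
  congr 1
  have hd : (g.a : ZMod p) * g.d - g.b * g.c = 1 := by
    simpa using congrArg (Int.cast : ℤ → ZMod p) g.det
  generalize act h θ = φ
  simp only [act, Aff.mul_x, Aff.mul_y]
  push_cast
  linear_combination (φ.1 * h.y - φ.2 * h.x) * hd

lemma norm_sn (t : Bool) (b : Bl k) (g : Aff) : ‖sn t b g‖ = 1 := by
  unfold sn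
  split_ifs <;> simp

lemma norm_ph (g : Aff) (θ : ZMod p × ZMod p) : ‖ph g θ‖ = 1 := by
  rw [ph, ZMod.stdAddChar_apply, Circle.norm_coe]

/-- The two representations. -/
noncomputable def WW (e : Ix k p → Ix k p → N) (t : Bool) (g : Aff) : N :=
  mono e (sg g) fun i => sn t i.1 g * ph g i.2

variable {e : Ix k p → Ix k p → N}

lemma MU.WW_mul (h : MU e) (t : Bool) (g g' : Aff) :
    WW e t (g * g') = WW e t g * WW e t g' := by
  rw [WW, WW, WW, h.mono_mul]
  congr 1
  · funext i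
    simp [sg, act_mul]
  · funext i
    simp only [sg, sn_mul, ph_mul]
    ring

lemma WW_one (t : Bool) : WW e t 1 = ∑ i, e i i := by
  simp [WW, mono, sg, act_one, sn, ph]

lemma MU.WW_star (h : MU e) (t : Bool) (g : Aff) : star (WW e t g) * WW e t g = ∑ i, e i i := by
  rw [WW, h.star_mul_mono fun i j _ _ c => sg_inj g c]
  simp [dg, norm_sn, norm_ph]

lemma MU.WW_tr (h : MU e) (τ : TracialState N) (t : Bool) {g : Aff} (hg : g ≠ 1)
    (hp : |g.a - 1| + |g.b| + |g.c| + |g.d - 1| + |g.x| + |g.y| < p) :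
    ‖τ.toFun (WW e t g)‖ ≤ 1 / p := by
  have hp0 : (0 : ℝ) < p := by exact_mod_cast (Fact.out : p.Prime).pos
  have z : ∀ x : ℤ, |x| < p → (x : ZMod p) = 0 → x = 0 := fun x a b =>
    Int.eq_zero_of_abs_lt_dvd ((ZMod.intCast_zmod_eq_zero_iff_dvd x p).1 b) a
  have n1 := abs_nonneg (g.a - 1)
  have n2 := abs_nonneg g.b
  have n3 := abs_nonneg g.c
  have n4 := abs_nonneg (g.d - 1)
  have n5 := abs_nonneg g.x
  have n6 := abs_nonneg g.y
  let i₀ : Ix k p := (Sum.inr 0, 0)
  rw [WW, h.tr_mono τ i₀]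
  have key : ∀ α β : ZMod p, α ≠ 0 ∨ β ≠ 0 → (∀ θ, act g θ = θ → α * θ.1 + β * θ.2 = 0) →
      ‖(∑ i : Ix k p, if sg g i = i then sn t i.1 g * ph g i.2 else 0) * τ.toFun (e i₀ i₀)‖ ≤
        1 / p := by
    intro α β h1 h2
    have c1 := h.norm_tr_e τ i₀
    have c2 : ‖∑ i : Ix k p, if sg g i = i then sn t i.1 g * ph g i.2 else 0‖ ≤
        Fintype.card (Bl k) * p := by
      refine (norm_sum_le _ _).trans ?_
      rw [Fintype.sum_prod_type]
      refine (Finset.sum_le_card_nsmul _ _ (p : ℝ) fun b _ => ?_).trans (by simp)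
      have c3 := card_line h1
      rw [ZMod.card] at c3
      refine le_trans (Finset.sum_le_sum fun θ _ => ?_ :
        _ ≤ ∑ θ : ZMod p × ZMod p, if α * θ.1 + β * θ.2 = 0 then (1 : ℝ) else 0) ?_
      · split_ifs with a b
        · simp [norm_sn, norm_ph]
        · exact absurd (h2 θ (congrArg Prod.snd a)) b
        · simp
        · simp
      · rw [Finset.sum_boole]
        exact_mod_cast c3
    rw [Fintype.card_prod, Fintype.card_prod, ZMod.card] at c1
    push_cast at c1
    rw [norm_mul, le_div_iff₀ hp0]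
    have c4 := mul_le_mul_of_nonneg_right c2 (norm_nonneg (τ.toFun (e i₀ i₀)))
    nlinarith
  by_cases a1 : ((g.a - 1 : ℤ) : ZMod p) ≠ 0 ∨ (g.b : ZMod p) ≠ 0
  · refine key _ _ a1 fun θ c => ?_
    have := congrArg Prod.fst c
    simp only [act] at this
    push_cast
    linear_combination this
  by_cases a2 : (g.c : ZMod p) ≠ 0 ∨ ((g.d - 1 : ℤ) : ZMod p) ≠ 0
  · refine key _ _ a2 fun θ c => ?_
    have := congrArg Prod.snd c
    simp only [act] at this
    push_cast
    linear_combination this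
  push Not at a1 a2
  have b1 : g.a = 1 := sub_eq_zero.1 (z _ (by linarith) a1.1)
  have b2 := z _ (by linarith) a1.2
  have b3 := z _ (by linarith) a2.1
  have b4 : g.d = 1 := sub_eq_zero.1 (z _ (by linarith) a2.2)
  have b5 : (g.x : ZMod p) ≠ 0 ∨ (g.y : ZMod p) ≠ 0 := by
    by_contra c
    push Not at c
    exact hg (Aff.ext b1 b2 b3 b4 (z _ (by linarith) c.1) (z _ (by linarith) c.2))
  have b6 : ∀ θ : ZMod p × ZMod p, act g θ = θ := fun θ => by simp [act, b1, b2, b3, b4]
  have b7 : (∑ i : Ix k p, if sg g i = i then sn t i.1 g * ph g i.2 else 0) = 0 := by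
    simp only [sg, ph, b6, if_true]
    rw [Fintype.sum_prod_type]
    refine Finset.sum_eq_zero fun b _ => ?_
    simp only [← Finset.mul_sum]
    rw [sum_char b5, mul_zero]
  rw [b7, zero_mul, norm_zero]
  positivity

/-- The weights. -/
noncomputable def wt : Bl k → Bl k → ℝ
  | Sum.inl _, Sum.inr _ => 1 / (k + 1)
  | Sum.inr _, Sum.inl _ => 1 / k
  | _, _ => 0

lemma wt_nonneg (b b' : Bl k) : 0 ≤ wt b b' := by
  rcases b with b | b <;> rcases b' with b' | b' <;> simp only [wt] <;> positivity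

lemma wt_row (hk : 0 < k) (b : Bl k) : ∑ b', wt b b' = 1 := by
  have : (k : ℝ) ≠ 0 := by exact_mod_cast hk.ne'
  rcases b with b | b <;> simp [wt, Fintype.sum_sum_type] <;> field_simp

lemma wt_col (hk : 0 < k) (b' : Bl k) : ∑ b, wt b b' ≤ 1 + 1 / k := by
  have h : (0 : ℝ) < k := by exact_mod_cast hk
  rcases b' with b' | b'
  · simp only [wt, Fintype.sum_sum_type, Finset.sum_const, Finset.card_univ, Fintype.card_fin,
      smul_zero, zero_add, nsmul_eq_mul]
    refine le_of_eq ?_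
    push_cast
    field_simp
  · simp only [wt, Fintype.sum_sum_type, Finset.sum_const, Finset.card_univ, Fintype.card_fin,
      smul_zero, add_zero, nsmul_eq_mul]
    have a : (k : ℝ) * (1 / (k + 1)) ≤ 1 := by
      rw [mul_one_div, div_le_one (by positivity)]
      linarith
    have b : (0 : ℝ) ≤ 1 / k := by positivity
    linarith

/-- The Kraus operators moving blocks. -/
noncomputable def VV (e : Ix k p → Ix k p → N) (l : Bl k × Bl k) : N :=
  mono e (fun i => (l.1, i.2)) fun i => if i.1 = l.2 then (√(wt l.1 l.2) : ℝ) else 0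

lemma norm_cf (l : Bl k × Bl k) (b : Bl k) :
    ‖(if b = l.2 then ((√(wt l.1 l.2) : ℝ) : ℂ) else 0)‖ ^ 2 =
      if b = l.2 then wt l.1 l.2 else 0 := by
  split_ifs
  · rw [Complex.norm_real, Real.norm_eq_abs, sq_abs, Real.sq_sqrt (wt_nonneg _ _)]
  · simp

lemma MU.VV_sum (h : MU e) (hk : 0 < k) : ∑ l, VV e l * star (VV e l) = ∑ i, e i i := by
  have a : ∀ l, VV e l * star (VV e l) = ∑ θ, (wt l.1 l.2 : ℂ) • e (l.1, θ) (l.1, θ) := by
    intro l
    rw [VV, h.mono_mul_star, Fintype.sum_prod_type, Finset.sum_eq_single l.2]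
    · refine Finset.sum_congr rfl fun θ _ => ?_
      rw [norm_cf, if_pos rfl]
    · intro b _ hb
      simp [hb]
    · simp
  simp only [a]
  rw [Fintype.sum_prod_type, Fintype.sum_prod_type]
  refine Finset.sum_congr rfl fun b _ => ?_
  rw [Finset.sum_comm]
  refine Finset.sum_congr rfl fun θ _ => ?_
  simp only [← Finset.sum_smul, ← Complex.ofReal_sum, wt_row hk]
  simp

lemma MU.VV_sum' (h : MU e) (hk : 0 < k) :
    ∑ l, star (VV e l) * VV e l ≤ ((1 + 1 / k : ℝ) : ℂ) • ∑ i, e i i := by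
  have a : ∀ l, star (VV e l) * VV e l = dg e fun i => if i.1 = l.2 then wt l.1 l.2 else 0 := by
    intro l
    rw [VV, h.star_mul_mono]
    · simp only [norm_cf]
    · intro i j a b c
      refine Prod.ext ?_ (Prod.ext_iff.1 c).2
      rw [(ite_ne_right_iff.1 a).1, (ite_ne_right_iff.1 b).1]
  simp only [a]
  rw [dg_sum, ← dg_const]
  refine h.dg_mono fun i => ?_
  rw [Fintype.sum_prod_type]
  simpa using wt_col hk i.1

lemma MU.VV_WW (h : MU e) (l : Bl k × Bl k) (t : Bool) (g : Aff) :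
    VV e l * WW e t g = WW e (!t) g * VV e l := by
  rw [VV, WW, WW, h.mono_mul, h.mono_mul]
  congr 1
  funext i
  obtain ⟨b, b'⟩ := l
  simp only [sg]
  split_ifs with a
  · rw [a]
    rcases b with b | b <;> rcases b' with b' | b' <;> cases t <;> simp [wt, sn, mul_comm]
  · simp

/-- Indices in the larger family. -/
def rt (a : Fin (k + 1) × (ZMod p × ZMod p)) : Ix k p := (Sum.inr a.1, a.2)

/-- Indices in the smaller family. -/
def lf (a : Fin k × (ZMod p × ZMod p)) : Ix k p := (Sum.inl a.1, a.2)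

lemma rt_inj : Function.Injective (rt (k := k) (p := p)) := fun _ _ h =>
  Prod.ext (Sum.inr_injective (Prod.ext_iff.1 h).1) (Prod.ext_iff.1 h).2

lemma lf_inj : Function.Injective (lf (k := k) (p := p)) := fun _ _ h =>
  Prod.ext (Sum.inl_injective (Prod.ext_iff.1 h).1) (Prod.ext_iff.1 h).2

/-- The projection on the larger family. -/
noncomputable def PR (e : Ix k p → Ix k p → N) : N := ∑ i ∈ Finset.univ.map ⟨rt, rt_inj⟩, e i i

/-- The projection on the smaller family. -/
noncomputable def PL (e : Ix k p → Ix k p → N) : N := ∑ i ∈ Finset.univ.map ⟨lf, lf_inj⟩, e i i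

lemma PR_add : PR e + PL e = ∑ i, e i i := by
  rw [PR, PL, Finset.sum_map, Finset.sum_map, Fintype.sum_prod_type, Fintype.sum_prod_type,
    Fintype.sum_prod_type (f := fun i => e i i), Fintype.sum_sum_type, add_comm]
  rfl

lemma MU.PR_tr (h : MU e) (τ : TracialState N) :
    k * (τ.toFun (PR e)).re = (k + 1) * (τ.toFun (PL e)).re := by
  rw [PR, PL, h.tr_sum τ (Sum.inr 0, 0), h.tr_sum τ (Sum.inr 0, 0)]
  simp only [Finset.card_map, Finset.card_univ, Fintype.card_prod, Fintype.card_fin]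
  push_cast
  ring

/-- The defect of an almost intertwiner. -/
noncomputable def DD (e : Ix k p → Ix k p → N) (T : N) (g : Aff) : N :=
  T * WW e true g - WW e false g * T

/-- The generators used in the estimate. -/
def gens : Finset Aff := {Aff.tr 1 0, Aff.tr 0 1, Aff.up 1, Aff.up (-1), Aff.lo 2, Aff.lo (-2)}

/-- Indices of the larger family. -/
abbrev Iy (k p : ℕ) : Type := Fin (k + 1) × (ZMod p × ZMod p)

/-- The permutation of the larger family. -/
def sy (g : Aff) (a : Iy k p) : Iy k p := (a.1, act g a.2)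

lemma rt_sy (g : Aff) (a : Iy k p) : rt (sy g a) = sg g (rt a) := rfl

lemma sy_inj (g : Aff) : Function.Injective (sy (k := k) (p := p) g) := fun a b c =>
  rt_inj (sg_inj g (by rw [← rt_sy, ← rt_sy, c]))

/-- Masses of the defect. -/
noncomputable def dl (τ : TracialState N) (e : Ix k p → Ix k p → N) (T : N) (g g' : Aff)
    (z : Iy k p × Iy k p) : ℝ := ms τ e (DD e T g) (rt (sy g' z.1)) (rt z.2)

lemma MU.dl_sum (h : MU e) (τ : TracialState N) (T : N) (g g' : Aff) :
    ∑ z, dl τ e T g g' z ≤ (toTr τ).q (DD e T g) :=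
  h.sum_pairs_le τ (DD e T g) (fun z : Iy k p × Iy k p => (rt (sy g' z.1), rt z.2))
    ((rt_inj.comp (sy_inj g')).prodMap rt_inj)

lemma MU.dl_move (h : MU e) (τ : TracialState N) (T : N) {g : Aff} (hx : g.x = 0) (hy : g.y = 0)
    (z : Iy k p × Iy k p) : ms τ e T (rt z.1) (rt z.2) ≤
      5 / 4 * ms τ e T (rt (sy g z.1)) (rt (sy g z.2)) + 5 * dl τ e T g g z := by
  rw [dl, rt_sy, rt_sy, DD, WW, WW]
  exact h.move τ (sg_inj g) T (by simp [sn, ph, hx, hy]) (by simp [sn, ph, hx, hy])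

lemma MU.dl_far (h : MU e) (τ : TracialState N) (T : N) (x y : ℤ) (z : Iy k p × Iy k p)
    (c : 1 ≤ ‖(-1 : ℂ) ^ x - ZMod.stdAddChar ((z.1.2.1 - z.2.2.1) * (y : ZMod p) -
      (z.1.2.2 - z.2.2.2) * (x : ZMod p))‖ ^ 2) :
    ms τ e T (rt z.1) (rt z.2) ≤ dl τ e T (Aff.tr x y) 1 z := by
  obtain ⟨a, b⟩ := z
  have hs1 : sy 1 a = a := by simp [sy, act_one]
  rw [dl, hs1, DD, WW, WW]
  refine h.far τ (fun i => by simp [sg, act, Aff.tr]) T (c.trans_eq ?_)
  have c1 : ph (Aff.tr x y) a.2 = ZMod.stdAddChar ((a.2.1 - b.2.1) * (y : ZMod p) -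
      (a.2.2 - b.2.2) * (x : ZMod p)) * ph (Aff.tr x y) b.2 := by
    rw [ph, ph, ← AddChar.map_add_eq_mul]
    congr 1
    simp only [act, Aff.tr]
    push_cast
    ring
  have c2 : sn true (rt b).1 (Aff.tr x y) = (-1) ^ x := by simp [sn, rt, Aff.tr]
  have c3 : sn false (rt a).1 (Aff.tr x y) = 1 := by simp [sn, rt]
  rw [c2, c3, one_mul]
  change _ = ‖_ * ph _ b.2 - ph _ a.2‖ ^ 2
  rw [c1, ← sub_mul, norm_mul, norm_ph, mul_one]

lemma MU.q_PR (h : MU e) (τ : TracialState N) (T : N) : (toTr τ).q (PR e * T * PR e) =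
    ∑ z : Iy k p × Iy k p, ms τ e T (rt z.1) (rt z.2) := by
  rw [PR, ← h.sum_ms, Finset.sum_map,
    Fintype.sum_prod_type' fun a b : Iy k p => ms τ e T (rt a) (rt b)]
  exact Finset.sum_congr rfl fun a _ => Finset.sum_map _ _ _

/-- The upper triangular generators. -/
def uu (t : Bool) : Aff := Aff.up (if t then -1 else 1)

/-- The lower triangular generators. -/
def vv (t : Bool) : Aff := Aff.lo (if t then -2 else 2)

lemma step_up (hp : Odd p) (t : Bool) (a b : Iy k p) (c1 : 3 * |fA (a.2.2 - b.2.2)| < p)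
    (c2 : 3 * |fB (a.2.1 - b.2.1)| < p) :
    fB ((sy (uu t) a).2.1 - (sy (uu t) b).2.1) =
      fB (a.2.1 - b.2.1) + (if t then 2 else -2) * fA (a.2.2 - b.2.2) := by
  refine eq_of_cast hp ?_ ?_ (fB_abs _) ?_
  · rw [Int.cast_add, Int.cast_mul, fB_cast, fB_cast, fA_cast]
    cases t <;> simp [sy, uu, act, Aff.up] <;> ring
  · refine (fB_even _).sub ((fB_even _).add ?_)
    cases t <;> simp
  · refine (abs_add_le _ _).trans_lt ?_
    rw [abs_mul]
    cases t <;> simp <;> linarith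

lemma step_lo (hp : Odd p) (t : Bool) (a b : Iy k p) (c1 : 3 * |fA (a.2.2 - b.2.2)| < p)
    (c2 : 3 * |fB (a.2.1 - b.2.1)| < p) :
    fA ((sy (vv t) a).2.2 - (sy (vv t) b).2.2) =
      fA (a.2.2 - b.2.2) + (if t then 2 else -2) * fB (a.2.1 - b.2.1) := by
  refine eq_of_cast hp ?_ ?_ (fA_abs _) ?_
  · rw [Int.cast_add, Int.cast_mul, fA_cast, fB_cast, fA_cast]
    cases t <;> simp [sy, vv, act, Aff.lo] <;> ring
  · refine (fA_odd hp _).sub_odd ((fA_odd hp _).add_even ?_)
    cases t <;> simp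
  · refine (abs_add_le _ _).trans_lt ?_
    rw [abs_mul]
    cases t <;> simp <;> linarith

lemma MU.gap (h : MU e) (hp : Odd p) (τ : TracialState N) (T : N) {η : ℝ}
    (hT : ∀ g ∈ gens, (toTr τ).q (DD e T g) ≤ η) : (toTr τ).q (PR e * T * PR e) ≤ 40 * η := by
  rw [h.q_PR]
  have hu : ∀ t, uu t ∈ gens := fun t => by cases t <;> simp [gens, uu]
  have hv : ∀ t, vv t ∈ gens := fun t => by cases t <;> simp [gens, vv]
  have hδ : ∀ g g' z, 0 ≤ dl τ e T g g' z := fun g g' z => h.ms_nonneg τ _ _ _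
  have hsum := fun g hg g' => (h.dl_sum τ T g g').trans (hT g hg)
  refine pingpong (fun z : Iy k p × Iy k p => ms τ e T (rt z.1) (rt z.2))
    (fun z => h.ms_nonneg τ T _ _)
    (fun z => fA (z.1.2.2 - z.2.2.2)) (fun z => fB (z.1.2.1 - z.2.2.1)) p (fun z c => ?_)
    (fun t z => (sy (uu t) z.1, sy (uu t) z.2)) (fun t z => (sy (vv t) z.1, sy (vv t) z.2))
    (fun t => (sy_inj _).prodMap (sy_inj _)) (fun t => (sy_inj _).prodMap (sy_inj _))
    (fun t z => ?_) (fun t z => ?_) (fun t z => step_up hp t z.1 z.2)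
    (fun t z => step_lo hp t z.1 z.2)
    (fun t => dl τ e T (uu t) (uu t)) (fun t => dl τ e T (vv t) (vv t)) (fun t => hδ _ _)
    (fun t => hδ _ _) (fun t => hsum _ (hu t) _) (fun t => hsum _ (hv t) _)
    (fun t => h.dl_move τ T rfl rfl) (fun t => h.dl_move τ T rfl rfl)
    (dl τ e T (Aff.tr 1 0) 1) (dl τ e T (Aff.tr 0 1) 1) (hδ _ _) (hδ _ _)
    (hsum _ (by simp [gens]) 1) (hsum _ (by simp [gens]) 1)
    (fun z c => h.dl_far τ T 1 0 z ?_) (fun z c => h.dl_far τ T 0 1 z ?_)
  · have c1 := fA_odd hp (z.1.2.2 - z.2.2.2)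
    have c2 := fB_even (z.1.2.1 - z.2.2.1)
    rw [← odd_abs, c] at c1
    rw [← even_abs] at c2
    exact Int.not_even_iff_odd.2 c1 c2
  · simp [sy, uu, act, Aff.up]
  · simp [sy, vv, act, Aff.lo]
  · simpa using far_A _ c
  · simpa using far_B _ c

end Pool.Agent.MP_a3b3aa_an.E

end

section

/-! Passage to the ultrapower. -/

open Filter Topology
open scoped ComplexOrder BoundedContinuousFunction

set_option linter.unusedSectionVars false
set_option maxHeartbeats 400000

namespace Pool.Agent.MP_a3b3aa_an.E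

open Hy

variable {N : Type} [CStarAlgebra N] [PartialOrder N] [StarOrderedRing N]
variable {H : Type} [NormedAddCommGroup H] [InnerProductSpace ℂ H] [CompleteSpace H]

/-- The data at one level. -/
structure Lev (τ : TracialState N) (k p : ℕ) (W : Bool → Aff → N)
    (V : Option (Bl k × Bl k) → N) (P P' : N) : Prop where
  pj : Pj P
  pj' : Pj P'
  pjf : Pj (P + P')
  mul : ∀ t g h, W t (g * h) = W t g * W t h
  one : ∀ t, W t 1 = P + P'
  st : ∀ t g, star (W t g) * W t g = P + P'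
  tr : ∀ t (g : Aff), g ≠ 1 → |g.a - 1| + |g.b| + |g.c| + |g.d - 1| + |g.x| + |g.y| < (p : ℤ) →
    ‖τ.toFun (W t g)‖ ≤ 1 / p
  sum : ∑ l, V l * star (V l) = 1
  sum' : ∑ l, star (V l) * V l ≤ ((1 + 1 / k : ℝ) : ℂ) • 1
  itw : ∀ l t g, V l * W t g = W (!t) g * V l
  ratio : k * (τ.toFun P).re = (k + 1) * (τ.toFun P').re
  defect : (τ.toFun (1 - (P + P'))).re < 1 / p
  gap : ∀ (T : N) (η : ℝ), (∀ g ∈ gens, (toTr τ).q (T * W true g - W false g * T) ≤ η) →
    (toTr τ).q (P * T * P) ≤ 40 * η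

lemma exists_lev (ρ : N →⋆ₐ[ℂ] (H →L[ℂ] H)) (τ : TracialState N)
    (hN : IsSeparableIIOneFactor ρ τ) {k p : ℕ} (hk : 0 < k) (hp : p.Prime) (ho : Odd p) :
    ∃ W V P P', Lev τ k p W V P P' := by
  haveI := Fact.mk hp
  have hp0 : (0 : ℝ) < p := by exact_mod_cast hp.pos
  obtain ⟨e, h, hd⟩ := exists_mu ρ τ hN (Ix k p) (one_div_pos.2 hp0)
  have hf := h.pj.one_sub
  refine ⟨WW e, fun l => l.elim (1 - ∑ i, e i i) (VV e), PR e, PL e, h.pj_sum _, h.pj_sum _,
    by rw [PR_add]; exact h.pj, h.WW_mul, fun t => by rw [PR_add, WW_one],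
    fun t g => by rw [PR_add, h.WW_star], fun t g => h.WW_tr τ t, ?_, ?_, ?_, h.PR_tr τ,
    by rwa [PR_add], fun T η => h.gap ho τ T⟩
  · rw [Fintype.sum_option]
    simp only [Option.elim]
    rw [h.VV_sum hk, hf.1, hf.2, sub_add_cancel]
  · rw [Fintype.sum_option]
    simp only [Option.elim]
    rw [hf.1, hf.2, ← sub_add_cancel (1 : N) (∑ i, e i i), smul_add, add_sub_cancel_right]
    refine add_le_add ?_ (h.VV_sum' hk)
    rw [Complex.coe_smul]
    refine le_smul_of_one_le_left hf.nonneg ?_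
    have : (0 : ℝ) ≤ 1 / k := by positivity
    linarith
  · rintro (_ | l) t g
    · simp only [Option.elim]
      rw [sub_mul, mul_sub, one_mul, mul_one]
      conv_lhs => rw [← WW_one t, ← h.WW_mul, one_mul, sub_self]
      rw [← WW_one (!t), ← h.WW_mul, mul_one, sub_self]
    · exact h.VV_WW l t g

variable {τ : TracialState N} {U : Ultrafilter ℕ}

lemma itw_ext (hU : (U : Filter ℕ) ≤ cofinite) {G : Type} [Group G] [DecidableEq G]
    {π₁ π₂ : AG G →ₐ[ℂ] UQ τ U} (e₁ : IsEmbedding (rep G) (trG G) τ U π₁)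
    (e₂ : IsEmbedding (rep G) (trG G) τ U π₂) (a : UQ τ U)
    (h : ∀ g, a * π₁ (lamN g) = π₂ (lamN g) * a) (x : AG G) : a * π₁ x = π₂ x * a := by
  have Gd := good τ hU
  have hq : ∀ {π : AG G →ₐ[ℂ] UQ τ U}, IsEmbedding (rep G) (trG G) τ U π → ∀ x,
      (uTr τ U).q (π x) = (toTr (trG G)).q x := by
    intro π e x
    have h1 : (uTr τ U).T (π (star x * x)) = _ := e.trace_preserving (star x * x)
    have h2 : π (star x) = star (π x) := e.map_star x
    rw [map_mul, h2] at h1
    exact congrArg Complex.re h1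
  have hs : ∀ y ∈ Submodule.span ℂ (Set.range (lamN : G → AG G)), a * π₁ y = π₂ y * a := by
    intro y hy
    refine Submodule.span_induction (p := fun y _ => a * π₁ y = π₂ y * a) ?_ ?_ ?_ ?_ hy
    · rintro _ ⟨g, rfl⟩
      exact h g
    · simp
    · intro y z _ _ b c
      rw [map_add, map_add, mul_add, add_mul, b, c]
    · intro c y _ b
      rw [map_smul, map_smul, mul_smul_comm, smul_mul_assoc, b]
  rw [← sub_eq_zero]
  apply Gd.faithful
  obtain ⟨C, hC, b⟩ := Gd.bdd a
  obtain ⟨C', hC', b'⟩ := Gd.bdd' a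
  refine le_antisymm (le_of_forall_div (C := 2 * C + 2 * C') fun k => ?_) (TrAlg.q_nonneg _ _)
  obtain ⟨y, hy, hj⟩ := dense_span x (ε := 1 / (k + 1)) (by positivity)
  have e : a * π₁ x - π₂ x * a = a * π₁ (x - y) - π₂ (x - y) * a := by
    rw [map_sub, map_sub, sub_mul, mul_sub, hs y hy]; abel
  have a1 := (uTr τ U).q_sub_le (a * π₁ (x - y)) (π₂ (x - y) * a)
  have a2 := b (π₁ (x - y))
  have a3 := b' (π₂ (x - y))
  rw [hq e₁] at a2
  rw [hq e₂] at a3
  have a4 : C * (toTr (trG G)).q (x - y) ≤ C * (1 / (k + 1)) := by gcongr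
  have a5 : C' * (toTr (trG G)).q (x - y) ≤ C' * (1 / (k + 1)) := by gcongr
  have e2 : (2 * C + 2 * C') / ((k : ℝ) + 1) =
      2 * (C * (1 / (k + 1))) + 2 * (C' * (1 / (k + 1))) := by ring
  rw [e, e2]
  linarith

lemma re_le_of {Q : Type} [Ring Q] [StarRing Q] [Algebra ℂ Q] [StarModule ℂ Q] {t : TrAlg Q}
    {S : Set Q} (G : Good t S) {a a' u : Q} (ha : a ∈ S) (h : Pj a) (h' : Pj a')
    (h1 : a + a' = 1) (h2 : star u * u = 1) (h3 : u * star u = 1) (h4 : a * u * a = 0) :
    t.re a ≤ t.re a' := by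
  have b1 : t.q (a * u) = t.re a := by
    rw [TrAlg.q, TrAlg.re_tr, star_mul, h.1, mul_assoc, ← mul_assoc u, h3, one_mul, h.2]
  have b2 : t.q (u * a') = t.re a' := by
    rw [TrAlg.q, star_mul, h'.1, mul_assoc, ← mul_assoc (star u), h2, one_mul, h'.2]
  have b3 : a * u = a * (u * a') := by
    rw [← mul_one (a * u), ← h1, mul_add, h4, zero_add, mul_assoc]
  rw [← b1, ← b2, b3]
  exact G.qle a ha _

/-- A sequence of contractions. -/
noncomputable def sq (x : ℕ → N) (h : ∀ n, ‖x n‖ ≤ 1) : ℕ →ᵇ N :=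
  BoundedContinuousFunction.ofNormedAddCommGroupDiscrete x 1 h

lemma mk_sum {L : Type} [Fintype L] (x : L → ℕ →ᵇ N) :
    mk τ U (∑ l, x l) = ∑ l, mk τ U (x l) := map_sum (nullCon τ U).mk' _ _

lemma mk_congr {x y : ℕ →ᵇ N} (h : ∀ n, x n = y n) : mk τ U x = mk τ U y :=
  congrArg (mk τ U) (BoundedContinuousFunction.ext h)

theorem main (hU : (U : Filter ℕ) ≤ cofinite) (ρ : N →⋆ₐ[ℂ] (H →L[ℂ] H)) (τ : TracialState N)
    (hN : IsSeparableIIOneFactor ρ τ) {ε : ℝ} (hε : 0 < ε) :
    ∃ π₁ π₂ : AG Aff →ₐ[ℂ] UQ τ U, IsEmbedding (rep Aff) (trG Aff) τ U π₁ ∧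
      IsEmbedding (rep Aff) (trG Aff) τ U π₂ ∧
      ∃ φ : ℕ → CompletelyPositiveMap N N, (∀ n, φ n 1 = 1) ∧
        (∀ n x, 0 ≤ x → (τ.toFun (φ n x)).re ≤ (1 + ε) * (τ.toFun x).re) ∧
        ∃ Φ : UQ τ U → UQ τ U, IsUltraproductMap τ U (fun n => φ n) Φ ∧
          (∀ x, Φ (π₁ x) = π₂ x) ∧ (∀ x, Φ (π₂ x) = π₁ x) ∧
          ¬ ∃ u : UQ τ U, star u * u = 1 ∧ u * star u = 1 ∧ ∀ x, u * π₁ x * star u = π₂ x := by
  obtain ⟨j, hj⟩ := exists_nat_one_div_lt hε
  choose p hp1 hp2 using fun n => Nat.exists_infinite_primes (n + 3)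
  choose W V P P' L using fun n => exists_lev ρ τ hN (Nat.succ_pos j) (hp2 n)
    ((hp2 n).odd_of_ne_two (by have := hp1 n; omega))
  have hU' : (U : Filter ℕ) ≤ atTop := Nat.cofinite_eq_atTop ▸ hU
  have hp3 : Tendsto p U atTop :=
    (tendsto_atTop_mono (fun n => (Nat.le_add_right n 3).trans (hp1 n)) tendsto_id).mono_left hU'
  have hp4 : Tendsto (fun n => 1 / (p n : ℝ)) U (𝓝 0) :=
    tendsto_one_div_atTop_nhds_zero_nat.comp hp3
  have nW : ∀ t g n, ‖W n t g‖ ≤ 1 := fun t g n =>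
    norm_le_one_of (((L n).st t g).trans_le (sub_nonneg.1 (L n).pjf.one_sub.nonneg))
  have nV : ∀ l n, ‖V n l‖ ≤ 1 := fun l n => by
    rw [← norm_star]
    refine norm_le_one_of ?_
    rw [star_star, ← (L n).sum]
    exact Finset.single_le_sum (f := fun l => V n l * star (V n l))
      (fun i _ => mul_star_self_nonneg _) (Finset.mem_univ l)
  let w := fun t g => sq _ (nW t g)
  let v := fun l => sq _ (nV l)
  let r := sq P fun n => (L n).pj.norm_le
  let r' := sq P' fun n => (L n).pj'.norm_le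
  have hf : mk τ U r + mk τ U r' = 1 := by
    symm
    rw [← sub_eq_zero]
    apply Hy.faithful
    refine le_antisymm ?_ (TrAlg.q_nonneg _ _)
    exact le_of_tendsto_of_tendsto' (tendsto_q τ U (1 - (r + r'))) hp4 fun n =>
      ((L n).pjf.one_sub.q_eq τ).trans_le (L n).defect.le
  have R : ∀ t, Reg fun g => mk τ U (w t g) := by
    intro t
    have a1 : mk τ U (w t 1) = 1 := (mk_congr (y := r + r') fun n => (L n).one t).trans hf
    have a2 : ∀ g h, mk τ U (w t (g * h)) = mk τ U (w t g) * mk τ U (w t h) := fun g h =>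
      mk_congr (y := w t g * w t h) fun n => (L n).mul t g h
    refine ⟨a1, a2, fun g => ?_, fun g hg => ?_⟩
    · have a3 : star (mk τ U (w t g)) * mk τ U (w t g) = 1 :=
        (mk_congr (x := star (w t g) * w t g) (y := r + r') fun n => (L n).st t g).trans hf
      exact left_inv_eq_right_inv a3 (by rw [← a2, mul_inv_cancel, a1])
    · refine tendsto_nhds_unique (tendsto_trace τ U (w t g)) (squeeze_zero_norm' ?_ hp4)
      have : Tendsto (fun n => (p n : ℤ)) U atTop := tendsto_natCast_atTop_atTop.comp hp3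
      filter_upwards [this.eventually_gt_atTop _] with n hn using (L n).tr t g hg hn
  choose π hπ hπ' using fun t => exists_ext hU (R t)
  have hv : ∑ l, mk τ U (v l) * star (mk τ U (v l)) = 1 :=
    (mk_sum fun l => v l * star (v l)).symm.trans (mk_congr (y := 1) fun n => by
      rw [BoundedContinuousFunction.sum_apply]
      exact (L n).sum)
  have hi : ∀ t x, ∑ l, mk τ U (v l) * π t x * star (mk τ U (v l)) = π (!t) x := by
    intro t x
    have : ∀ l, mk τ U (v l) * π t x = π (!t) x * mk τ U (v l) := fun l =>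
      itw_ext hU (hπ t) (hπ (!t)) _ (fun g => by
        rw [hπ', hπ']
        exact mk_congr (x := v l * w t g) (y := w (!t) g * v l) fun n => (L n).itw l t g) x
    simp only [this, mul_assoc]
    rw [← Finset.mul_sum, hv, mul_one]
  refine ⟨π true, π false, hπ _, hπ _, fun n => kraus (V n), fun n => ?_, fun n x hx => ?_,
    fun X => ∑ l, mk τ U (v l) * X * star (mk τ U (v l)), fun x => ?_, hi true, hi false, ?_⟩
  · simpa [kraus_apply] using (L n).sum
  · refine (kraus_tr τ _ (L n).sum' hx).trans (mul_le_mul_of_nonneg_right ?_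
      (Complex.le_def.1 (τ.nonneg x hx)).1)
    push_cast
    linarith
  · refine ⟨∑ l, v l * x * star (v l), fun n => ?_, (mk_sum fun l => v l * x * star (v l)).symm⟩
    rw [BoundedContinuousFunction.sum_apply]
    rfl
  · rintro ⟨u, h1, h2, h3⟩
    obtain ⟨T, rfl⟩ := mk_surj τ U u
    have b1 : ∀ g, Tendsto (fun n => (toTr τ).q (T n * W n true g - W n false g * T n)) U
        (𝓝 0) := by
      intro g
      have c1 := tendsto_q τ U (T * w true g - w false g * T)
      rw [mk_sub, mk_mul, mk_mul, ← hπ', ← hπ', ← h3, mul_assoc _ (star _), h1, mul_one,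
        sub_self, TrAlg.q_zero] at c1
      exact c1
    have b2 := (tendsto_finset_sum gens fun g _ => b1 g).const_mul 40
    rw [Finset.sum_const_zero, mul_zero] at b2
    have b3 : mk τ U r * mk τ U T * mk τ U r = 0 := by
      apply Hy.faithful
      refine le_antisymm ?_ (TrAlg.q_nonneg _ _)
      exact le_of_tendsto_of_tendsto' (tendsto_q τ U (r * T * r)) b2 fun n =>
        (L n).gap (T n) _ fun g hg => Finset.single_le_sum
          (f := fun g => (toTr τ).q (T n * W n true g - W n false g * T n))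
          (fun i _ => TrAlg.q_nonneg _ _) hg
    have b4 := re_le_of (good τ hU) ⟨r, rfl, fun n => (L n).pj.norm_le⟩
      ⟨mk_congr (x := star r) fun n => (L n).pj.1, mk_congr (x := r * r) fun n => (L n).pj.2⟩
      ⟨mk_congr (x := star r') (y := r') fun n => (L n).pj'.1,
        mk_congr (x := r' * r') (y := r') fun n => (L n).pj'.2⟩
      hf h1 h2 b3
    have b5 := tendsto_nhds_unique ((tendsto_re τ U r).const_mul ((j + 1 : ℕ) : ℝ))
      (((tendsto_re τ U r').const_mul (((j + 1 : ℕ) : ℝ) + 1)).congr fun n => (L n).ratio.symm)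
    have b6 := congrArg (uTr τ U).re hf
    rw [TrAlg.re_add, TrAlg.re_one] at b6
    have b7 : (0 : ℝ) ≤ (j + 1 : ℕ) := Nat.cast_nonneg _
    nlinarith

end Pool.Agent.MP_a3b3aa_an.E

end
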