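import Mathlib
import Pool.Agent.Mg.F890ef7p.Gf1ad6b

section

/-! Iterated averaging. -/

open scoped InnerProductSpace

namespace Pool.Agent.MP_890ef7_an

section sym
variable {G : Type*} [Group G] {ι : Type*} [Fintype ι]

/-- one step of the lazy walk, acting on the left. -/
noncomputable def stepL (s : ι → G) {V : Type*} [AddCommGroup V] [Module ℂ V] (Φ : G → V) :
    G → V := fun g => (2⁻¹ : ℂ) • Φ g + (2 * (Fintype.card ι : ℂ))⁻¹ • ∑ i, Φ (s i * g)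

variable (s : ι → G) {V : Type*}

theorem step_stepL [AddCommGroup V] [Module ℂ V] (Φ : G → V) :
    step s (stepL s Φ) = stepL s (step s Φ) := by
  funext g
  simp only [step, stepL, Finset.sum_add_distrib, ← Finset.smul_sum, smul_add, smul_smul,
    mul_assoc]
  rw [Finset.sum_comm, mul_comm (2⁻¹ : ℂ) (2 * (Fintype.card ι : ℂ))⁻¹]
  abel

theorem iter_step_one [AddCommGroup V] [Module ℂ V] (n : ℕ) (Φ : G → V) :
    (step s)^[n] Φ 1 = (stepL s)^[n] Φ 1 := by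
  induction n generalizing Φ with
  | zero => rfl
  | succ n ih =>
    have hc : Function.Commute (step s (V := V)) (stepL s) := step_stepL s
    rw [Function.iterate_succ_apply, ih, ← (hc.iterate_right n).eq,
      Function.iterate_succ_apply']
    simp [step, stepL]

theorem iter_step_inv [AddCommGroup V] [Module ℂ V] (σ : ι ≃ ι) (hσ : ∀ i, s (σ i) = (s i)⁻¹)
    (n : ℕ) (Φ : G → V) :
    (step s)^[n] (fun w => Φ w⁻¹) = fun w => (stepL s)^[n] Φ w⁻¹ := by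
  induction n with
  | zero => rfl
  | succ n ih =>
    rw [Function.iterate_succ_apply', ih, Function.iterate_succ_apply']
    funext g
    simp only [step, stepL, mul_inv_rev, ← hσ]
    rw [Equiv.sum_comp σ (fun i => (stepL s)^[n] Φ (s i * g⁻¹))]

theorem iter_step_left [AddCommGroup V] [Module ℂ V] (n : ℕ) (Φ : G → V) (x : G) :
    (step s)^[n] (fun w => Φ (x * w)) = fun w => (step s)^[n] Φ (x * w) := by
  induction n with
  | zero => rfl
  | succ n ih =>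
    rw [Function.iterate_succ_apply', ih, Function.iterate_succ_apply']
    funext g
    simp only [step, mul_assoc]

theorem iter_step_map [AddCommGroup V] [Module ℂ V] {W : Type*} [AddCommGroup W] [Module ℂ W]
    (T : V →ₗ[ℂ] W) (n : ℕ) (Φ : G → V) :
    (step s)^[n] (fun w => T (Φ w)) = fun w => T ((step s)^[n] Φ w) := by
  induction n with
  | zero => rfl
  | succ n ih =>
    rw [Function.iterate_succ_apply', ih, Function.iterate_succ_apply']
    funext g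
    exact step_map s T _ g

theorem iter_step_conj (n : ℕ) (Φ : G → ℂ) :
    (step s)^[n] (fun w => (starRingEnd ℂ) (Φ w)) =
      fun w => (starRingEnd ℂ) ((step s)^[n] Φ w) := by
  induction n with
  | zero => rfl
  | succ n ih =>
    rw [Function.iterate_succ_apply', ih, Function.iterate_succ_apply']
    funext g
    simp [step, map_ofNat]

theorem norm_step_le [Nonempty ι] [NormedAddCommGroup V] [NormedSpace ℂ V] (a : V) (b : ι → V)
    {c : ℝ} (ha : ‖a‖ ≤ c) (hb : ∀ i, ‖b i‖ ≤ c) :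
    ‖(2⁻¹ : ℂ) • a + (2 * (Fintype.card ι : ℂ))⁻¹ • ∑ i, b i‖ ≤ c := by
  have hN : (0 : ℝ) < Fintype.card ι := by exact_mod_cast Fintype.card_pos
  have h1 : ‖∑ i, b i‖ ≤ Fintype.card ι * c :=
    (norm_sum_le _ _).trans ((Finset.sum_le_sum fun i _ => hb i).trans_eq (by simp))
  refine (norm_add_le _ _).trans ?_
  rw [norm_smul, norm_smul]
  simp only [norm_inv, norm_mul, Complex.norm_ofNat, Complex.norm_natCast]
  calc 2⁻¹ * ‖a‖ + (2 * (Fintype.card ι : ℝ))⁻¹ * ‖∑ i, b i‖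
      ≤ 2⁻¹ * c + (2 * (Fintype.card ι : ℝ))⁻¹ * (Fintype.card ι * c) := by gcongr
    _ = c := by field_simp; ring

theorem norm_iter_step_sub_le [Nonempty ι] [NormedAddCommGroup V] [NormedSpace ℂ V] (n : ℕ)
    {Φ Ψ : G → V} {c : ℝ} (h : ∀ w, ‖Φ w - Ψ w‖ ≤ c) (g : G) :
    ‖(step s)^[n] Φ g - (step s)^[n] Ψ g‖ ≤ c := by
  induction n generalizing g with
  | zero => exact h g
  | succ n ih =>
    rw [Function.iterate_succ_apply', Function.iterate_succ_apply']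
    have := norm_step_le _ (fun i => (step s)^[n] Φ (g * s i) - (step s)^[n] Ψ (g * s i))
      (ih g) (fun i => ih _)
    convert this using 2
    simp only [step, Finset.sum_sub_distrib, smul_sub]
    abel

theorem norm_sq_iter_le [Nonempty ι] [NormedAddCommGroup V] [InnerProductSpace ℂ V]
    (σ : ι ≃ ι) (hσ : ∀ i, s (σ i) = (s i)⁻¹) (F : G → V) (ζ : V) {c : ℝ}
    (hF : ∀ w w', ‖⟪F w, F w'⟫_ℂ - ⟪ζ, F (w⁻¹ * w')⟫_ℂ‖ ≤ c) (n : ℕ) :
    ‖(step s)^[n] F 1‖ ^ 2 ≤ (⟪ζ, (step s)^[n + n] F 1⟫_ℂ).re + c := by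
  set z := (step s)^[n] F 1 with hz
  have hin : ∀ (v : V) (m : ℕ) (g : G), ⟪v, (step s)^[m] F g⟫_ℂ =
      (step s)^[m] (fun w => ⟪v, F w⟫_ℂ) g := fun v m g =>
    (congrFun (iter_step_map s (innerₛₗ ℂ v) m F) g).symm
  set h := (step s)^[n] (fun w => ⟪ζ, F w⟫_ℂ) with hh
  have h1 : ∀ w, ‖⟪z, F w⟫_ℂ - (starRingEnd ℂ) (h w⁻¹)‖ ≤ c := fun w => by
    rw [← inner_conj_symm, ← map_sub, RCLike.norm_conj, hz, hin]
    have := norm_iter_step_sub_le s n (fun w' => hF w w') 1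
    rw [iter_step_left s n (fun w => ⟪ζ, F w⟫_ℂ) w⁻¹] at this
    simpa only [mul_one] using this
  have h2 := norm_iter_step_sub_le s n h1 1
  rw [← hin, iter_step_conj s n (fun w => h w⁻¹), iter_step_inv s σ hσ] at h2
  simp only [inv_one] at h2
  rw [← iter_step_one, hh, ← Function.iterate_add_apply, ← hin, ← hz] at h2
  have h3 := (Complex.re_le_norm _).trans h2
  rw [Complex.sub_re, Complex.conj_re] at h3
  have h4 : (⟪z, z⟫_ℂ).re = ‖z‖ ^ 2 := inner_self_eq_norm_sq (𝕜 := ℂ) z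
  linarith

end sym

variable {B : Type*} [NormedRing B] [StarRing B] [NormedAlgebra ℂ B] [StarModule ℂ B]
  {K : Type*} [NormedAddCommGroup K] [InnerProductSpace ℂ K]
  {L R : B →ₗ[ℂ] K →L[ℂ] K} {γ : ℝ} {κ : Type*} [Fintype κ] [Nonempty κ] (u : κ → unitary B)

/-- bounded bilinear maps. -/
def Bd (a : Bil B K) (c : ℝ) : Prop := ∀ x y, ‖a x y‖ ≤ c * ‖x‖ * ‖y‖

theorem tu_iter (a : Bil B K) (n : ℕ) : tu ((Tm u)^[n] a) = (step u)^[n] (tu a) := by
  induction n with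
  | zero => rfl
  | succ n ih => rw [Function.iterate_succ_apply', tu_Tm, ih, Function.iterate_succ_apply']

theorem iter_Tm_one (a : Bil B K) (n : ℕ) :
    (Tm u)^[n] a 1 1 = (step u)^[n] (fun w : unitary B => a w (star (w : B))) 1 := by
  have h := congrFun (iter_step_map u ((LinearMap.applyₗ (1 : B)) ∘ₗ
    (LinearMap.applyₗ (R := ℂ) (M₂ := B →ₗ[ℂ] K) (1 : B))) n (tu a)) 1
  rw [← tu_iter, tu_one] at h
  simpa using h.symm

theorem iter_Tm_sub (a b : Bil B K) (n : ℕ) :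
    (Tm u)^[n] (a - b) = (Tm u)^[n] a - (Tm u)^[n] b := by
  induction n with
  | zero => rfl
  | succ n ih => simp only [Function.iterate_succ_apply', ih, Tm_sub]

theorem LMod.iter {a : Bil B K} (h : LMod L a) (n : ℕ) : LMod L ((MP_890ef7_an.Tm u)^[n] a) := by
  induction n with
  | zero => exact h
  | succ n ih => rw [Function.iterate_succ_apply']; exact ih.Tm u

theorem RMod.iter {a : Bil B K} (h : RMod R a) (n : ℕ) : RMod R ((MP_890ef7_an.Tm u)^[n] a) := by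
  induction n with
  | zero => exact h
  | succ n ih => rw [Function.iterate_succ_apply']; exact ih.Tm u

theorem Bd.sub {a b : Bil B K} {c d : ℝ} (ha : Bd a c) (hb : Bd b d) : Bd (a - b) (c + d) :=
  fun x y => (norm_sub_le _ _).trans ((add_le_add (ha x y) (hb x y)).trans_eq (by ring))

namespace Setup

theorem bd_tu (hS : Setup L R γ) {a : Bil B K} {c : ℝ} (hc : 0 ≤ c) (h : Bd a c)
    (v : unitary B) : Bd (tu a v) c := fun x y => by
  refine (h (x * v) (star (v : B) * y)).trans ?_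
  have h1 : ‖x * v‖ ≤ ‖x‖ :=
    (norm_mul_le _ _).trans (mul_le_of_le_one_right (norm_nonneg _) (hS.unit_le v.2))
  have h2 : ‖star (v : B) * y‖ ≤ ‖y‖ := (norm_mul_le _ _).trans
    (mul_le_of_le_one_left (norm_nonneg _) (hS.unit_le (Unitary.star_mem v.2)))
  gcongr

theorem bd_Tm (hS : Setup L R γ) {a : Bil B K} {c : ℝ} (hc : 0 ≤ c) (h : Bd a c) :
    Bd (Tm u a) c := fun x y => by
  rw [Tm_apply]
  exact norm_step_le _ _ (h x y) fun i => hS.bd_tu hc h (u i) x y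

theorem bd_iter (hS : Setup L R γ) {a : Bil B K} {c : ℝ} (hc : 0 ≤ c) (h : Bd a c) (n : ℕ) :
    Bd ((Tm u)^[n] a) c := by
  induction n with
  | zero => exact h
  | succ n ih => rw [Function.iterate_succ_apply']; exact hS.bd_Tm u hc ih

theorem norm_hat (hS : Setup L R γ) {a : Bil B K} {c : ℝ} (hc : 0 ≤ c) (h : Bd a c)
    {X Y : M2 B} (hX : X ∈ unitary (M2 B)) (hY : Y ∈ unitary (M2 B)) : ‖hat a X Y‖ ≤ 4 * c := by
  have := norm_hat_le a hc h (hS.entry_le hX) (hS.entry_le hY)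
  simp only [Fintype.card_fin] at this
  push_cast at this
  linarith

theorem norm_ph (hS : Setup L R γ) {a : Bil B K} {c : ℝ} (hc : 0 ≤ c) (h : Bd a c)
    (g : unitary (M2 B)) : ‖ph a g‖ ≤ 4 * c := hS.norm_hat hc h g.2 (Unitary.star_mem g.2)

theorem lmod_lr (hS : Setup L R γ) (η : K) : LMod L (lr L R η) := fun z x y => hS.rep.mul _ _ _

theorem rmod_rl (hS : Setup L R γ) (η : K) : RMod R (rl L R η) := fun x y z => hS.anti.mul _ _ _

theorem bd_lr (hS : Setup L R γ) (η : K) : Bd (lr L R η) ‖η‖ := fun x y => by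
  refine (hS.nL _ _).trans ?_
  have := hS.nR y η
  calc ‖x‖ * ‖R y η‖ ≤ ‖x‖ * (‖y‖ * ‖η‖) := by gcongr
    _ = _ := by ring

theorem bd_lr_rl (hS : Setup L R γ) {η : K} (hη : ‖η‖ = 1) : Bd (lr L R η - rl L R η) γ :=
  fun x y => by simpa [hη] using hS.comm x y η

theorem bd_approx (hS : Setup L R γ) {a b : Bil B K} (ha : LMod L a) (hb : RMod R b)
    (hab : Bd (a - b) γ) : Bd (a - lr L R (a 1 1)) (2 * γ) := fun x y => by
  have h1 : (a - lr L R (a 1 1)) x y = L x ((a - b) 1 y) - L x (R y ((a - b) 1 1)) := by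
    have e1 := ha x 1 y
    have e2 := hb 1 1 y
    rw [mul_one] at e1
    rw [one_mul] at e2
    simp only [LinearMap.sub_apply, lr_apply, map_sub, e1, e2]
    abel
  have h0 := hS.one_le
  have hγ := hS.γ0
  have h2 : ‖(a - b) 1 y‖ ≤ γ * ‖y‖ := (hab 1 y).trans (by
    calc γ * ‖(1 : B)‖ * ‖y‖ ≤ γ * 1 * ‖y‖ := by gcongr
      _ = _ := by ring)
  have h3 : ‖(a - b) 1 1‖ ≤ γ := (hab 1 1).trans (by
    calc γ * ‖(1 : B)‖ * ‖(1 : B)‖ ≤ γ * 1 * 1 := by gcongr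
      _ = _ := by ring)
  have h4 := hS.nL x ((a - b) 1 y)
  have h5 := hS.nL x (R y ((a - b) 1 1))
  have h6 := hS.nR y ((a - b) 1 1)
  rw [h1]
  calc _ ≤ ‖x‖ * ‖(a - b) 1 y‖ + ‖x‖ * ‖R y ((a - b) 1 1)‖ :=
        (norm_sub_le _ _).trans (add_le_add h4 h5)
    _ ≤ ‖x‖ * (γ * ‖y‖) + ‖x‖ * (‖y‖ * γ) := by
        gcongr
        exact h6.trans (by gcongr)
    _ = _ := by ring

theorem lower_hat (hS : Setup L R γ) (η : K) {X Y : M2 B} (hX : X ∈ unitary (M2 B))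
    (hY : Y ∈ unitary (M2 B)) :
    ‖dv (Fin 2) (R 1 (L 1 η))‖ ≤ ‖hat (lr L R η) X Y‖ + 8 * γ * ‖dv (Fin 2) η‖ := by
  rw [hat_lr, (isRep_Lm hS.rep).norm_eq hX.1, ← Rm_scal_dv, ← Lm_scal_dv, scal_one,
    ← (isAnti_Rm hS.anti).norm_eq hY.2]
  have := hS.commM (hS.entry_le (one_mem _)) (hS.entry_le hY) (dv (Fin 2) η)
  have h2 := norm_sub_norm_le (Rm R Y (Lm L 1 (dv (Fin 2) η))) (Lm L 1 (Rm R Y (dv (Fin 2) η)))
  rw [norm_sub_rev] at h2
  linarith

theorem upper_hat (hS : Setup L R γ) (η : K) {X Y : M2 B} (hX : X ∈ unitary (M2 B))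
    (hY : Y ∈ unitary (M2 B)) : ‖hat (lr L R η) X Y‖ ≤ ‖dv (Fin 2) η‖ := by
  rw [hat_lr]
  exact ((isRep_Lm hS.rep).norm_le hX.1 _).trans ((isAnti_Rm hS.anti).norm_le hY.2 _)

theorem inner_approx (hS : Setup L R γ) {ζ : K} (hζ : ‖ζ‖ = 1) (w w' : unitary B) :
    ‖⟪lr L R ζ w (star (w : B)), lr L R ζ w' (star (w' : B))⟫_ℂ -
      ⟪ζ, lr L R ζ (w⁻¹ * w' : unitary B) (star ((w⁻¹ * w' : unitary B) : B))⟫_ℂ‖ ≤ γ := by
  simp only [lr_apply]
  rw [hS.rep.adj, hS.anti.adj, ← hS.rep.mul, ← inner_sub_right, star_star]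
  have e1 : ((w⁻¹ * w' : unitary B) : B) = star (w : B) * w' := by
    rw [← Unitary.star_eq_inv]; rfl
  rw [e1, star_mul, star_star, hS.anti.mul]
  refine (norm_inner_le_norm _ _).trans ?_
  rw [hζ, one_mul, norm_sub_rev]
  refine (hS.comm _ _ _).trans ?_
  have h1 := hS.unit_le (mul_mem (Unitary.star_mem w.2) w'.2)
  have h2 := hS.unit_le w.2
  have h3 := hS.anti.norm_le (u := star (w' : B)) (by rw [star_star]; exact w'.2.1) ζ
  rw [hζ] at h3
  have hγ := hS.γ0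
  calc _ ≤ γ * 1 * 1 * 1 := by gcongr
    _ = γ := by ring

theorem unwind (hS : Setup L R γ) {ζ : K} (hζ : ‖ζ‖ = 1) (hL1 : L 1 ζ = ζ) (hR1 : R 1 ζ = ζ)
    {a : Bil B K} {c : ℝ} (hc : 0 ≤ c) (ha : Bd (a - lr L R ζ) c) (x : B) {X Y : M2 B}
    (hX : X ∈ unitary (M2 B)) (hY : Y ∈ unitary (M2 B)) :
    ‖L x ζ - R x ζ‖ ≤ ‖hat (tw a x 1) X Y‖ + (38 * γ + 8 * c) * ‖x‖ := by
  set ω := L x ζ - R x ζ with hω
  have hγ := hS.γ0
  have h0 := hS.one_le
  have hx := norm_nonneg x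
  have b1 : Bd (lr L R ω - tw a x 1) ((γ + 2 * c) * ‖x‖) := fun p q => by
    have e : (lr L R ω - tw a x 1) p q = - L p (L x (R q ζ) - R q (L x ζ)) -
        (a - lr L R ζ) (p * x) q + (a - lr L R ζ) p (x * q) := by
      simp only [hω, LinearMap.sub_apply, lr_apply, tw_apply, map_sub, one_mul, mul_one,
        hS.rep.mul, hS.anti.mul]
      abel
    rw [e]
    have h1 := hS.nL p (L x (R q ζ) - R q (L x ζ))
    have h2 := hS.comm x q ζ
    have h3 := ha (p * x) q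
    have h4 := ha p (x * q)
    have h5 := norm_mul_le p x
    have h6 := norm_mul_le x q
    rw [hζ] at h2
    calc _ ≤ ‖p‖ * ‖L x (R q ζ) - R q (L x ζ)‖ + c * ‖p * x‖ * ‖q‖ + c * ‖p‖ * ‖x * q‖ :=
          (norm_add_le _ _).trans (add_le_add ((norm_sub_le _ _).trans
            (add_le_add (by rwa [norm_neg]) h3)) h4)
      _ ≤ ‖p‖ * (γ * ‖x‖ * ‖q‖ * 1) + c * (‖p‖ * ‖x‖) * ‖q‖ + c * ‖p‖ * (‖x‖ * ‖q‖) := by gcongr
      _ = _ := by ring
  have h1 := hS.norm_hat (by positivity) b1 hX hY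
  rw [hat_sub] at h1
  have h2 := norm_sub_norm_le (hat (lr L R ω) X Y) (hat (tw a x 1) X Y)
  have h3 := hS.lower_hat ω hX hY
  have d1 : ∀ η : K, ‖η‖ ≤ ‖dv (Fin 2) η‖ := fun η => by
    have := norm_dv_sq (n := Fin 2) η
    simp only [Fintype.card_fin, Nat.cast_ofNat] at this
    exact le_of_sq_le_sq (by nlinarith [sq_nonneg ‖η‖]) (norm_nonneg _)
  have d2 : ∀ η : K, ‖dv (Fin 2) η‖ ≤ 2 * ‖η‖ := fun η => by
    have := norm_dv_sq (n := Fin 2) η
    simp only [Fintype.card_fin, Nat.cast_ofNat] at this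
    exact le_of_sq_le_sq (by nlinarith [sq_nonneg ‖η‖]) (by positivity)
  have hωn : ‖ω‖ ≤ 2 * ‖x‖ := by
    have := (norm_sub_le _ _).trans (add_le_add (hS.nL x ζ) (hS.nR x ζ))
    rw [hζ] at this
    linarith
  have h4 : ‖ω - R 1 (L 1 ω)‖ ≤ 2 * (γ * ‖x‖) := by
    have e : ω - R 1 (L 1 ω) = (L x (R 1 ζ) - R 1 (L x ζ)) + R 1 (L 1 (R x ζ) - R x (L 1 ζ)) := by
      simp only [hω, map_sub, hL1, hR1, ← hS.rep.mul, ← hS.anti.mul, one_mul, mul_one]
      abel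
    rw [e]
    have k1 := hS.comm x 1 ζ
    have k2 := hS.comm 1 x ζ
    have k3 := hS.anti.norm_le (u := 1) (by simp) (L 1 (R x ζ) - R x (L 1 ζ))
    rw [hζ] at k1 k2
    have k4 : γ * ‖x‖ * ‖(1 : B)‖ * 1 ≤ γ * ‖x‖ * 1 * 1 := by gcongr
    have k5 : γ * ‖(1 : B)‖ * ‖x‖ * 1 ≤ γ * 1 * ‖x‖ * 1 := by gcongr
    have := norm_add_le (L x (R 1 ζ) - R 1 (L x ζ)) (R 1 (L 1 (R x ζ) - R x (L 1 ζ)))
    linarith
  have h5 := norm_sub_norm_le ω (R 1 (L 1 ω))
  have h6 := d1 (R 1 (L 1 ω))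
  have h7 : 8 * γ * ‖dv (Fin 2) ω‖ ≤ 8 * γ * (2 * (2 * ‖x‖)) := by
    gcongr
    exact (d2 ω).trans (by gcongr)
  nlinarith

end Setup

end Pool.Agent.MP_890ef7_an

end

section

/-! The energy estimate along the random walk. -/

open scoped InnerProductSpace
open Filter Topology

namespace Pool.Agent.MP_890ef7_an

theorem IsMean.osc {G ι : Type*} [Monoid G] [Fintype ι] [Nonempty ι] {U : ι → G}
    {E : (G → ℝ) → ℝ} (hE : IsMean U E) (i₀ : ι) (hi₀ : U i₀ = 1) {V : Type*}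
    [NormedAddCommGroup V] [InnerProductSpace ℂ V] {f : G → V} {C : ℝ} (hf : ∀ g, ‖f g‖ ≤ C)
    (m : ℕ) : ∃ ε : G → ℝ, (∀ g, 0 ≤ ε g) ∧ (∀ g h, IsW U m h → ‖f (g * h) - f g‖ ≤ ε g) ∧
      Bdd (fun g => ε g ^ 2) ∧ E (fun g => ε g ^ 2) ≤
        ((Fintype.card ι : ℝ) + 1) ^ m * Cw (Fintype.card ι) m * E (Var U f) := by
  obtain ⟨T, hT, hc⟩ := IsW.exists_finset U m
  have hsq : (fun g => Real.sqrt (∑ h ∈ T, ‖f (g * h) - f g‖ ^ 2) ^ 2) =
      fun g => ∑ h ∈ T, ‖f (g * h) - f g‖ ^ 2 := by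
    funext g; exact Real.sq_sqrt (by positivity)
  have hb : ∀ h ∈ T, Bdd fun g => ‖f (g * h) - f g‖ ^ 2 := fun h _ =>
    Bdd.normsq_sub (fun g => hf _) hf
  refine ⟨fun g => Real.sqrt (∑ h ∈ T, ‖f (g * h) - f g‖ ^ 2), fun g => Real.sqrt_nonneg _,
    fun g h hh => ?_, ?_, ?_⟩
  · exact Real.le_sqrt_of_sq_le (Finset.single_le_sum (f := fun h => ‖f (g * h) - f g‖ ^ 2)
      (fun _ _ => by positivity) ((hT h).1 hh))
  · rw [hsq]; exact Bdd.sum T hb
  · rw [hsq, hE.sum T hb]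
    have h0 : 0 ≤ Cw (Fintype.card ι) m * E (Var U f) :=
      mul_nonneg (Cw_nonneg (by positivity) m) (hE.nonneg (Bdd.var U hf) (var_nonneg U f))
    calc _ ≤ ∑ _h ∈ T, Cw (Fintype.card ι) m * E (Var U f) :=
          Finset.sum_le_sum fun h hh => hE.chain i₀ hi₀ hf ((hT h).2 hh)
      _ = T.card * (Cw (Fintype.card ι) m * E (Var U f)) := by simp
      _ ≤ ((Fintype.card ι : ℝ) + 1) ^ m * (Cw (Fintype.card ι) m * E (Var U f)) := by gcongr
      _ = _ := by ring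

theorem sum_le_of_rec {e D : ℕ → ℝ} {ρ C e0 T : ℝ} (hρ : ρ < 1) (hC : 0 ≤ C)
    (he : ∀ j, 0 ≤ e j) (h0 : e 0 ≤ e0) (hrec : ∀ j, e (j + 1) ≤ ρ * e j + C * D j)
    (hD : ∀ J, ∑ j ∈ Finset.range J, D j ≤ T) (J : ℕ) :
    ∑ j ∈ Finset.range J, e j ≤ (e0 + C * T) / (1 - ρ) := by
  rw [le_div_iff₀ (by linarith)]
  have h1 : ∑ j ∈ Finset.range J, e (j + 1) ≤
      ρ * ∑ j ∈ Finset.range J, e j + C * ∑ j ∈ Finset.range J, D j := by
    rw [Finset.mul_sum, Finset.mul_sum, ← Finset.sum_add_distrib]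
    exact Finset.sum_le_sum fun j _ => hrec j
  have h2 := Finset.sum_range_succ e J
  rw [Finset.sum_range_succ'] at h2
  have h3 : C * ∑ j ∈ Finset.range J, D j ≤ C * T := by gcongr; exact hD J
  have h4 := he J
  nlinarith

variable {B : Type*} [NormedRing B] [StarRing B] [NormedAlgebra ℂ B] [StarModule ℂ B]
  {K : Type*} [NormedAddCommGroup K] [InnerProductSpace ℂ K]
  {L R : B →ₗ[ℂ] K →L[ℂ] K} {γ : ℝ} {κ : Type*} [Fintype κ] [Nonempty κ] {u : κ → unitary B}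

/-- the energy at a point of the walk. -/
noncomputable def EN (u : κ → unitary B) (a : Bil B K) (g : unitary (M2 B)) : ℝ :=
  (Fintype.card κ : ℝ)⁻¹ * ∑ i, ‖ph (tu a (u i)) g - ph a g‖ ^ 2

theorem EN_nonneg (a : Bil B K) (g : unitary (M2 B)) : 0 ≤ EN u a g := by unfold EN; positivity

theorem span_tw {i₁ : κ} (h1 : u i₁ = 1) {σ : κ → κ} (hσ : ∀ i, u (σ i) = (u i)⁻¹) {x : B}
    (hx : x ∈ Submodule.span ℂ {v : B | ∃ (w : unitary B) (n : ℕ), IsW u n w ∧ v = w}) :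
    ∃ (m : ℕ) (Cx : ℝ), 0 ≤ Cx ∧ ∀ (a : Bil B K) (g : unitary (M2 B)) (e : ℝ),
      (∀ h, IsW (UW u) m h → ‖ph a (g * h) - ph a g‖ ≤ e) →
      ‖hat (tw a x 1) ((g : M2 B) * cst B Xc) (star (g : M2 B))‖ ≤ Cx * e := by
  induction hx using Submodule.span_induction with
  | mem v hv =>
    obtain ⟨w, n, hw, rfl⟩ := hv
    exact ⟨3 * n + 3, 9, by norm_num, fun a g e ho =>
      (extract h1 hσ hw (IsW.one n) a g ho).1⟩
  | zero =>
    refine ⟨0, 0, le_rfl, fun a g e _ => ?_⟩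
    have : hat (tw a 0 1) ((g : M2 B) * cst B Xc) (star (g : M2 B)) = 0 := by ext ik; simp
    simp [this]
  | add x y _ _ hx hy =>
    obtain ⟨m, Cx, h0, hx⟩ := hx
    obtain ⟨m', Cy, h0', hy⟩ := hy
    refine ⟨m + m', Cx + Cy, by positivity, fun a g e ho => ?_⟩
    have : tw a (x + y) 1 = tw a x 1 + tw a y 1 := by
      ext p q; simp [mul_add, add_mul]; abel
    rw [this, hat_add, add_mul]
    exact (norm_add_le _ _).trans (add_le_add
      (hx a g e fun h hh => ho h (hh.mono (by omega)))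
      (hy a g e fun h hh => ho h (hh.mono (by omega))))
  | smul c x _ hx =>
    obtain ⟨m, Cx, h0, hx⟩ := hx
    refine ⟨m, ‖c‖ * Cx, by positivity, fun a g e ho => ?_⟩
    have : tw a (c • x) 1 = c • tw a x 1 := by
      ext p q; simp [smul_sub]
    rw [this, hat_smul, norm_smul, mul_assoc]
    gcongr
    exact hx a g e ho

namespace Setup

theorem bdd_EN (hS : Setup L R γ) {a : Bil B K} {c : ℝ} (hc : 0 ≤ c) (h : Bd a c) :
    Bdd (EN u a) :=
  (Bdd.sum _ fun i _ => Bdd.normsq_sub (hS.norm_ph hc (hS.bd_tu hc h (u i)))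
    (hS.norm_ph hc h)).smul _

theorem EN_zero_le (hS : Setup L R γ) {ζ : K} (hζ : ‖ζ‖ = 1) {δ : ℝ}
    (hδ : ∀ i, ‖L (u i) (R (star (u i : B)) ζ) - ζ‖ ≤ δ) (g : unitary (M2 B)) :
    EN u (lr L R ζ) g ≤ 16 * (γ + δ) ^ 2 := by
  have hN : (0 : ℝ) < Fintype.card κ := by exact_mod_cast Fintype.card_pos
  have hγ := hS.γ0
  have h1 : ∀ i, ‖ph (tu (lr L R ζ) (u i)) g - ph (lr L R ζ) g‖ ^ 2 ≤ 16 * (γ + δ) ^ 2 := by
    intro i
    have hδ0 : 0 ≤ δ := (norm_nonneg _).trans (hδ i)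
    have hb : Bd (tu (lr L R ζ) (u i) - lr L R ζ) (γ + δ) := fun p q => by
      set η := R (star (u i : B)) ζ with hη
      have e : (tu (lr L R ζ) (u i) - lr L R ζ) p q =
          L p (L (u i) (R q η) - R q (L (u i) η)) + L p (R q (L (u i) η - ζ)) := by
        simp only [hη, LinearMap.sub_apply, tu_apply, lr_apply, map_sub, hS.rep.mul, hS.anti.mul]
        abel
      rw [e]
      have k1 := hS.nL p (L (u i) (R q η) - R q (L (u i) η))
      have k2 := hS.comm (u i) q η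
      have k3 := hS.nL p (R q (L (u i) η - ζ))
      have k4 := hS.nR q (L (u i) η - ζ)
      have k5 := hδ i
      have k6 := hS.unit_le (u i).2
      have k7 : ‖η‖ ≤ 1 := by
        rw [← hζ]; exact hS.anti.norm_le (by rw [star_star]; exact (u i).2.1) ζ
      calc _ ≤ ‖p‖ * ‖L (u i) (R q η) - R q (L (u i) η)‖ + ‖p‖ * ‖R q (L (u i) η - ζ)‖ :=
            (norm_add_le _ _).trans (add_le_add k1 k3)
        _ ≤ ‖p‖ * (γ * 1 * ‖q‖ * 1) + ‖p‖ * (‖q‖ * δ) := by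
            gcongr
            · exact k2.trans (by gcongr)
            · exact k4.trans (by gcongr)
        _ = _ := by ring
    have := hS.norm_ph (by positivity) hb g
    rw [ph, hat_sub] at this
    calc _ ≤ (4 * (γ + δ)) ^ 2 := by gcongr; exact this
      _ = _ := by ring
  unfold EN
  rw [inv_mul_le_iff₀ hN]
  exact (Finset.sum_le_sum fun i _ => h1 i).trans_eq (by simp)

theorem main_est (hS : Setup L R γ) (hγ : γ ≤ 1 / 48) {i₁ : κ} (h1 : u i₁ = 1) (σ : κ ≃ κ)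
    (hσ : ∀ i, u (σ i) = (u i)⁻¹) {m : ℕ} {ρ C : ℝ} (hρ : ρ < 1) (hC : 0 ≤ C)
    (hgap : ∀ (a b : Bil B K) (g : unitary (M2 B)) (e : ℝ), LMod L a → RMod R b → 0 ≤ e →
      (∀ h, IsW (UW u) m h → ‖ph (a - b) (g * h) - ph (a - b) g‖ ≤ e) →
      EN u (Tm u a) g ≤ ρ * EN u a g + C * e ^ 2)
    {ζ : K} (hζ : ‖ζ‖ = 1) (hL1 : L 1 ζ = ζ) (hR1 : R 1 ζ = ζ) {δ : ℝ}
    (hδ : ∀ i, ‖L (u i) (R (star (u i : B)) ζ) - ζ‖ ≤ δ) {μ : ℝ} (hμ0 : 0 ≤ μ)
    (hμ : 74 * γ + (16 * (γ + δ) ^ 2 + C * ((12 * (Fintype.card κ : ℝ) + 1) ^ m *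
      Cw (12 * Fintype.card κ) m) * (16 * γ ^ 2)) / (1 - ρ) ≤ μ ^ 2) {x : B}
    (hx : x ∈ Submodule.span ℂ {v : B | ∃ (w : unitary B) (n : ℕ), IsW u n w ∧ v = w}) :
    ‖L x ζ - R x ζ‖ ≤ (54 * γ + 8 * μ) * ‖x‖ := by
  have hγ0 := hS.γ0
  obtain ⟨E, hE⟩ := exists_mean (UW u)
  have hcard : (Fintype.card ((Fin 4 ⊕ Bool) × Bool × κ) : ℝ) = 12 * Fintype.card κ := by
    simp only [Fintype.card_prod, Fintype.card_sum, Fintype.card_fin, Fintype.card_bool]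
    push_cast; ring
  have hi₀ : UW u (.inl 0, true, i₁) = 1 := by simp [UW, cU_zero, h1]
  set α : ℕ → Bil B K := fun j => (Tm u)^[j] (lr L R ζ) with hα
  set β : ℕ → Bil B K := fun j => (Tm u)^[j] (rl L R ζ) with hβ
  have hαs : ∀ j, α (j + 1) = Tm u (α j) := fun j => Function.iterate_succ_apply' _ _ _
  have hβs : ∀ j, β (j + 1) = Tm u (β j) := fun j => Function.iterate_succ_apply' _ _ _
  have hαL : ∀ j, LMod L (α j) := fun j => (hS.lmod_lr ζ).iter u j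
  have hβR : ∀ j, RMod R (β j) := fun j => (hS.rmod_rl ζ).iter u j
  have hαb : ∀ j, Bd (α j) 1 := fun j => hS.bd_iter u zero_le_one (hζ ▸ hS.bd_lr ζ) j
  have hδb : ∀ j, Bd (α j - β j) γ := fun j => by
    rw [hα, hβ, ← iter_Tm_sub]; exact hS.bd_iter u hγ0 (hS.bd_lr_rl hζ) j
  have hφ : ∀ j g, ‖ph (α j) g‖ ≤ 4 * 1 := fun j => hS.norm_ph zero_le_one (hαb j)
  have hψ : ∀ j g, ‖ph (α j - β j) g‖ ≤ 4 * γ := fun j => hS.norm_ph hγ0 (hδb j)
  set K₁ : ℝ := (12 * (Fintype.card κ : ℝ) + 1) ^ m * Cw (12 * Fintype.card κ) m with hK₁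
  have hK₁0 : 0 ≤ K₁ := mul_nonneg (by positivity) (Cw_nonneg (by positivity) m)
  set e : ℕ → ℝ := fun j => E (EN u (α j)) with he
  have hEb : ∀ j, Bdd (EN u (α j)) := fun j => hS.bdd_EN zero_le_one (hαb j)
  have he0 : ∀ j, 0 ≤ e j := fun j => hE.nonneg (hEb j) (EN_nonneg _)
  have hrec : ∀ j, e (j + 1) ≤ ρ * e j + C * K₁ * E (Var (UW u) (ph (α j - β j))) := fun j => by
    obtain ⟨ε, hε0, hε, hεb, hεE⟩ := hE.osc _ hi₀ (hψ j) m
    rw [hcard] at hεE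
    have h2 : e (j + 1) ≤ E (fun g => ρ * EN u (α j) g + C * ε g ^ 2) := by
      refine hE.mono (hEb _) (((hEb j).smul ρ).add (hεb.smul C)) fun g => ?_
      rw [hαs]
      exact hgap _ _ g _ (hαL j) (hβR j) (hε0 g) (hε g)
    rw [hE.add ((hEb j).smul ρ) (hεb.smul C), hE.smul _ (hEb j), hE.smul _ hεb] at h2
    have h3 : C * E (fun g => ε g ^ 2) ≤ C * (K₁ * E (Var (UW u) (ph (α j - β j)))) := by gcongr
    linarith
  have hD : ∀ J, ∑ j ∈ Finset.range J, E (Var (UW u) (ph (α j - β j))) ≤ 16 * γ ^ 2 := fun J => by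
    have h2 : ∀ j, E (Var (UW u) (ph (α j - β j))) = E (fun g => ‖ph (α j - β j) g‖ ^ 2) -
        E (fun g => ‖ph (α (j + 1) - β (j + 1)) g‖ ^ 2) := fun j => by
      rw [hE.var_eq (hψ j), PavV_ph, Tm_sub, hαs, hβs]
    simp only [h2]
    rw [Finset.sum_range_sub' (fun j => E (fun g => ‖ph (α j - β j) g‖ ^ 2))]
    have h3 := hE.nonneg (Bdd.normsq (hψ J)) (fun g => by positivity)
    have h4 := hE.le_const (Bdd.normsq (hψ 0)) (c := 16 * γ ^ 2) fun g => by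
      have := hψ 0 g
      calc _ ≤ (4 * γ) ^ 2 := by gcongr
        _ = _ := by ring
    linarith
  have hsum := sum_le_of_rec hρ (mul_nonneg hC hK₁0) he0
    (hE.le_const (hEb 0) (hS.EN_zero_le hζ hδ)) hrec hD
  set Sg := (16 * (γ + δ) ^ 2 + C * K₁ * (16 * γ ^ 2)) / (1 - ρ) with hSg
  have hvar : ∀ j, E (Var (UW u) (ph (α j))) ≤ e j := fun j =>
    hE.mono (Bdd.var _ (hφ j)) (hEb j) fun g => var_ph_le u hS.rep (hαL j) g
  have hz1 : ∀ j, ‖α j 1 1‖ ≤ 1 := fun j => (hαb j 1 1).trans (by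
    have := hS.one_le
    calc 1 * ‖(1 : B)‖ * ‖(1 : B)‖ ≤ 1 * 1 * 1 := by gcongr
      _ = 1 := by ring)
  have hap : ∀ j, Bd (α j - lr L R (α j 1 1)) (2 * γ) := fun j =>
    hS.bd_approx (hαL j) (hβR j) (hδb j)
  have hmass : ∀ n, 2 - 72 * γ - Sg ≤ 2 * ‖α n 1 1‖ ^ 2 := fun n => by
    have h2 : ∀ j, E (fun g => ‖ph (α j) g‖ ^ 2) - E (fun g => ‖ph (α (j + 1)) g‖ ^ 2) ≤ e j :=
      fun j => by
        have := hvar j
        rwa [hE.var_eq (hφ j), PavV_ph, ← hαs] at this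
    have h3 := Finset.sum_le_sum fun j (_ : j ∈ Finset.range n) => h2 j
    rw [Finset.sum_range_sub' (fun j => E (fun g => ‖ph (α j) g‖ ^ 2))] at h3
    have h4 := hE.const_le (Bdd.normsq (hφ 0)) (c := 2 - 32 * γ) fun g => by
      have k1 := hS.lower_hat ζ g.2 (Unitary.star_mem g.2)
      have k2 := norm_dv_sq (n := Fin 2) ζ
      simp only [Fintype.card_fin, Nat.cast_ofNat, hζ] at k2
      rw [hL1, hR1] at k1
      have k3 : (1 - 8 * γ) * ‖dv (Fin 2) ζ‖ ≤ ‖ph (α 0) g‖ := by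
        change _ ≤ ‖hat (lr L R ζ) (g : M2 B) (star (g : M2 B))‖
        linarith
      have k4 : ((1 - 8 * γ) * ‖dv (Fin 2) ζ‖) ^ 2 ≤ ‖ph (α 0) g‖ ^ 2 := by
        gcongr
        exact mul_nonneg (by linarith) (norm_nonneg _)
      rw [mul_pow, k2] at k4
      nlinarith
    have h5 := hE.le_const (Bdd.normsq (hφ n)) (c := 2 * ‖α n 1 1‖ ^ 2 + 40 * γ) fun g => by
      have k1 := hS.norm_ph (by positivity) (hap n) g
      rw [ph, hat_sub] at k1
      have k2 := hS.upper_hat (α n 1 1) g.2 (Unitary.star_mem g.2)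
      have k3 := norm_dv_sq (n := Fin 2) (α n 1 1)
      simp only [Fintype.card_fin, Nat.cast_ofNat] at k3
      have k4 := norm_sub_norm_le (hat (α n) (g : M2 B) (star (g : M2 B)))
        (hat (lr L R (α n 1 1)) (g : M2 B) (star (g : M2 B)))
      have k5 : ‖ph (α n) g‖ ≤ ‖dv (Fin 2) (α n 1 1)‖ + 8 * γ := by rw [ph]; linarith
      have k6 := hz1 n
      have k7 : ‖dv (Fin 2) (α n 1 1)‖ ≤ 2 := by
        refine le_of_sq_le_sq ?_ (by norm_num)
        nlinarith [norm_nonneg (α n 1 1)]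
      have k8 : ‖ph (α n) g‖ ^ 2 ≤ (‖dv (Fin 2) (α n 1 1)‖ + 8 * γ) ^ 2 := by gcongr
      nlinarith
    have h6 := hsum n
    linarith
  have hclose : ∀ n, ‖α (n + n) 1 1 - ζ‖ ≤ μ := fun n => by
    have h2 := norm_sq_iter_le u σ hσ (fun w : unitary B => lr L R ζ w (star (w : B))) ζ
      (hS.inner_approx hζ) n
    rw [← iter_Tm_one, ← iter_Tm_one] at h2
    have h3 := hmass n
    have h4 := hz1 (n + n)
    refine le_of_sq_le_sq ?_ hμ0
    rw [norm_sub_rev, @norm_sub_sq ℂ, hζ]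
    have h5 : ‖α (n + n) 1 1‖ ^ 2 ≤ 1 := by nlinarith [norm_nonneg (α (n + n) 1 1)]
    change ‖α n 1 1‖ ^ 2 ≤ (⟪ζ, α (n + n) 1 1⟫_ℂ).re + γ at h2
    simp only [RCLike.re_to_complex]
    linarith
  have hbd : ∀ n, Bd (α (n + n) - lr L R ζ) (2 * γ + μ) := fun n p q => by
    have e1 : (α (n + n) - lr L R ζ) p q = (α (n + n) - lr L R (α (n + n) 1 1)) p q +
        lr L R (α (n + n) 1 1 - ζ) p q := by simp
    rw [e1]
    have k1 := hap (n + n) p q
    have k2 := hS.bd_lr (α (n + n) 1 1 - ζ) p q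
    have k3 := hclose n
    calc _ ≤ 2 * γ * ‖p‖ * ‖q‖ + μ * ‖p‖ * ‖q‖ :=
          (norm_add_le _ _).trans (add_le_add k1 (k2.trans (by gcongr)))
      _ = _ := by ring
  obtain ⟨m', Cx, hCx, hx'⟩ := span_tw (K := K) h1 hσ hx
  have hlim : Tendsto e atTop (𝓝 0) :=
    (summable_of_sum_range_le he0 hsum).tendsto_atTop_zero
  refine le_of_forall_pos_le_add fun t ht => ?_
  set K₂ : ℝ := ((Fintype.card ((Fin 4 ⊕ Bool) × Bool × κ) : ℝ) + 1) ^ m' *
    Cw (Fintype.card ((Fin 4 ⊕ Bool) × Bool × κ)) m' with hK₂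
  have hK₂0 : 0 ≤ K₂ := mul_nonneg (by positivity) (Cw_nonneg (by positivity) m')
  have hlim2 : Tendsto (fun n => K₂ * e (n + n)) atTop (𝓝 0) := by
    simpa using (hlim.comp (tendsto_atTop_mono (f := id) (fun n : ℕ => Nat.le_add_right n n)
      tendsto_id)).const_mul K₂
  obtain ⟨n, hn⟩ := (hlim2.eventually (gt_mem_nhds (show 0 < (t / (Cx + 1)) ^ 2 by
    positivity))).exists
  obtain ⟨ε, hε0, hε, hεb, hεE⟩ := hE.osc _ hi₀ (hφ (n + n)) m'
  obtain ⟨g, hg⟩ : ∃ g, ε g ^ 2 < (t / (Cx + 1)) ^ 2 := by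
    by_contra hcon
    push Not at hcon
    have k1 := hE.const_le hεb hcon
    have k2 : K₂ * E (Var (UW u) (ph (α (n + n)))) ≤ K₂ * e (n + n) := by gcongr; exact hvar _
    linarith
  have k1 : ε g ≤ t / (Cx + 1) := le_of_sq_le_sq hg.le (by positivity)
  have k2 := hx' _ g _ (hε g)
  have k3 := hS.unwind hζ hL1 hR1 (by positivity) (hbd n) x
    (mul_mem g.2 (cst_mem_unitary Xc_mem)) (Unitary.star_mem g.2)
  have k4 : Cx * ε g ≤ t := by
    calc Cx * ε g ≤ (Cx + 1) * (t / (Cx + 1)) :=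
          mul_le_mul (by linarith) k1 (hε0 g) (by positivity)
      _ = t := by field_simp
  nlinarith

end Setup

end Pool.Agent.MP_890ef7_an

end
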