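import Mathlib
import Pool.Agent.Mg.F890ef7p.Gb4b1e0
import Pool.Agent.Mg.F890ef7p.G7e54e1
import Pool.Agent.Mg.F890ef7p.G00306b

section

/-! The core estimate: for almost commuting actions of an algebra containing a projective
representation of a Kazhdan group, almost central vectors are uniformly almost central. -/

open scoped InnerProductSpace
open Filter Topology

namespace Pool.Agent.MP_890ef7_an

universe u v w

section PE
variable {B : Type*} [Ring B] [StarRing B] [Algebra ℂ B] [StarModule ℂ B]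

/-- equality up to a unimodular scalar. -/
def PE (x y : unitary B) : Prop := ∃ c : ℂ, ‖c‖ = 1 ∧ (x : B) = c • (y : B)

theorem PE.refl (x : unitary B) : PE x x := ⟨1, norm_one, (one_smul _ _).symm⟩

theorem PE.symm {x y : unitary B} (h : PE x y) : PE y x := by
  obtain ⟨c, hc, h⟩ := h
  have : c ≠ 0 := by rintro rfl; simp at hc
  exact ⟨c⁻¹, by simp [hc], by rw [h, smul_smul, inv_mul_cancel₀ this, one_smul]⟩

theorem PE.trans {x y z : unitary B} (h : PE x y) (h' : PE y z) : PE x z := by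
  obtain ⟨c, hc, h⟩ := h
  obtain ⟨d, hd, h'⟩ := h'
  exact ⟨c * d, by simp [hc, hd], by rw [h, h', smul_smul]⟩

theorem PE.mul {x y x' y' : unitary B} (h : PE x y) (h' : PE x' y') : PE (x * x') (y * y') := by
  obtain ⟨c, hc, h⟩ := h
  obtain ⟨d, hd, h'⟩ := h'
  exact ⟨c * d, by simp [hc, hd], by
    rw [Submonoid.coe_mul, Submonoid.coe_mul, h, h', smul_mul_smul_comm]⟩

theorem PE.tu_eq {K : Type*} [NormedAddCommGroup K] [InnerProductSpace ℂ K] {x y : unitary B}
    (h : PE x y) (a : Bil B K) : tu a x = tu a y := by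
  obtain ⟨c, hc, h⟩ := h
  have h1 : star c * c = 1 := by
    rw [Complex.star_def, Complex.conj_mul', hc]; simp
  ext p q
  simp only [tu_apply, h, star_smul, mul_smul_comm, smul_mul_assoc, map_smul,
    LinearMap.smul_apply, smul_smul, h1, one_smul]

variable {Γ : Type*} [Group Γ] {π : Γ → unitary B}

theorem PE_one (hπ : ∀ g h, PE (π (g * h)) (π g * π h)) : PE (π 1) 1 := by
  have h := (hπ 1 1).mul (PE.refl (π 1)⁻¹)
  rw [one_mul, mul_inv_cancel, mul_inv_cancel_right] at h
  exact h.symm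

theorem PE_inv (hπ : ∀ g h, PE (π (g * h)) (π g * π h)) (g : Γ) : PE (π g⁻¹) (π g)⁻¹ := by
  have h := (hπ g⁻¹ g).mul (PE.refl (π g)⁻¹)
  rw [inv_mul_cancel, mul_inv_cancel_right] at h
  have h2 := (PE_one hπ).mul (PE.refl (π g)⁻¹)
  rw [one_mul] at h2
  exact h.symm.trans h2

theorem PE_word (hπ : ∀ g h, PE (π (g * h)) (π g * π h)) {κ : Type*} {s : κ → Γ}
    {u : κ → unitary B} (hu : ∀ i, PE (π (s i)) (u i)) {n : ℕ} {p : Γ} (hp : IsW s n p) :
    ∃ v, IsW u n v ∧ PE (π p) v := by
  induction n generalizing p with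
  | zero => obtain rfl : p = 1 := hp; exact ⟨1, rfl, PE_one hπ⟩
  | succ n ih =>
    rcases hp with hp | ⟨h, i, hh, rfl⟩
    · obtain ⟨v, hv, h⟩ := ih hp
      exact ⟨v, Or.inl hv, h⟩
    · obtain ⟨v, hv, h'⟩ := ih hh
      exact ⟨v * u i, Or.inr ⟨v, i, hv, rfl⟩, (hπ _ _).trans (h'.mul (hu i))⟩

end PE

theorem core {Γ : Type u} [Group Γ] (hΓ : KazhdanT Γ) {η : ℝ} (hη : 0 < η) :
    ∃ (S : Finset Γ) (t : ℝ), 0 < t ∧
      ∀ (B : Type v) [NormedRing B] [StarRing B] [NormedAlgebra ℂ B] [StarModule ℂ B]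
        (K : Type w) [NormedAddCommGroup K] [InnerProductSpace ℂ K]
        (L R : B →ₗ[ℂ] K →L[ℂ] K), Setup L R t →
        ∀ π : Γ → unitary B, (∀ g h, PE (π (g * h)) (π g * π h)) →
        ∀ ζ : K, ‖ζ‖ = 1 → L 1 ζ = ζ → R 1 ζ = ζ →
        (∀ a ∈ S, ‖L (π a) ζ - R (π a) ζ‖ ≤ t) →
        ∀ x ∈ Submodule.span ℂ (Set.range fun g => (π g : B)), ‖L x ζ - R x ζ‖ ≤ η * ‖x‖ := by
  classical
  obtain ⟨S, κ₀, hκ₀, hS⟩ := hΓ.exists_pair
  let s : Option (S ⊕ S) → Γ := fun i => match i with
    | none => 1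
    | some (.inl a) => a
    | some (.inr a) => (a : Γ)⁻¹
  let σ : Option (S ⊕ S) ≃ Option (S ⊕ S) := Equiv.optionCongr (Equiv.sumComm S S)
  have hσ : ∀ i, s (σ i) = (s i)⁻¹ := by rintro (_ | a | a) <;> simp [s, σ]
  have hgen : ∀ g, ∃ n, IsW s n g :=
    hS.gen hκ₀ s σ hσ fun a ha => ⟨some (.inl ⟨a, ha⟩), rfl⟩
  obtain ⟨n, θ, ρ, C, hθ, hρ0, hρ, hC, hgap⟩ := robust_gap.{u, w} hκ₀ hS s σ hσ hgen
  set N : ℝ := (Fintype.card (Option (S ⊕ S)) : ℝ) with hN
  set K₁ : ℝ := (12 * N + 1) ^ (6 * n + 3) * Cw (12 * N) (6 * n + 3) with hK₁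
  let f : ℝ → ℝ := fun t => 74 * t + (16 * (t + 2 * t) ^ 2 + C * 108 ^ 2 * K₁ * (16 * t ^ 2)) /
    (1 - ρ)
  have hf : Tendsto f (𝓝[>] 0) (𝓝 0) := by
    have : Continuous f := by fun_prop
    have h := this.tendsto 0
    simp only [f] at h
    norm_num at h
    exact (h.congr fun t => by simp only [f]; norm_num).mono_left nhdsWithin_le_nhds
  have hid : Tendsto (fun t : ℝ => t) (𝓝[>] 0) (𝓝 0) := tendsto_id.mono_left nhdsWithin_le_nhds
  obtain ⟨t, ht1, ht2, ht3, ht4, ht0⟩ : ∃ t : ℝ, f t < (η / 16) ^ 2 ∧ t < 1 / 48 ∧ t < θ / 96 ∧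
      t < η / 108 ∧ 0 < t :=
    ((hf.eventually (gt_mem_nhds (by positivity))).and
      ((hid.eventually (gt_mem_nhds (by positivity))).and
      ((hid.eventually (gt_mem_nhds (by positivity))).and
      ((hid.eventually (gt_mem_nhds (by positivity))).and self_mem_nhdsWithin)))).exists
  refine ⟨S, t, ht0, fun B _ _ _ _ K _ _ L R hSt π hπ ζ hζ hL1 hR1 hδ x hx => ?_⟩
  let u : Option (S ⊕ S) → unitary B := fun i => match i with
    | none => 1
    | some (.inl a) => π a
    | some (.inr a) => (π a)⁻¹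
  have hσu : ∀ i, u (σ i) = (u i)⁻¹ := by rintro (_ | a | a) <;> simp [u, σ]
  have hu : ∀ i, PE (π (s i)) (u i) := by
    rintro (_ | a | a)
    · exact PE_one hπ
    · exact PE.refl _
    · exact PE_inv hπ _
  have hen : ∀ (a : Bil B K) (g : unitary (M2 B)),
      en s (fun p => ph (tu a (π p)) g) = EN u a g := fun a g => by
    simp only [en, EN, (hu _).tu_eq, (PE_one hπ).tu_eq, tu_one]
  have hstep : ∀ (a : Bil B K) (g : unitary (M2 B)),
      step s (fun p => ph (tu a (π p)) g) = fun p => ph (tu (Tm u a) (π p)) g := fun a g => by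
    funext p
    rw [tu_Tm]
    simp only [ph_eq]
    rw [← step_map]
    simp only [step, fun i => ((hπ p (s i)).trans ((PE.refl _).mul (hu i))).tu_eq a]
  have hmain := hSt.main_est (u := u) ht2.le (i₁ := none) rfl σ hσu (m := 6 * n + 3) hρ
    (C := C * 108 ^ 2) (by positivity) (fun a b g e ha hb he ho => by
      have := hgap _ (fun p => ph (tu a (π p)) g) (108 * e) (by positivity) fun p q hp hq => by
        obtain ⟨v, hv, hv'⟩ := PE_word hπ hu hp
        obtain ⟨w, hw, hw'⟩ := PE_word hπ hu hq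
        rw [((hπ p q).trans (hv'.mul hw')).tu_eq, hv'.tu_eq, hw'.tu_eq, (PE_one hπ).tu_eq, tu_one]
        refine (hSt.approx_inv ht2.le (i₁ := none) rfl hσu hv hw ha hb g ho).trans ?_
        gcongr
        linarith
      rw [hstep, hen, hen] at this
      linarith) hζ hL1 hR1 (δ := 2 * t) (fun i => ?_) (μ := η / 16) (by positivity) ht1.le
    (x := x) (Submodule.span_le.2 ?_ hx)
  · refine hmain.trans ?_
    gcongr
    linarith
  · rcases i with _ | a | a
    · simp [u, hL1, hR1, ht0.le]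
    · have e : L (π a) (R (star (π a : B)) ζ) - ζ =
          (L (π a) (R (star (π a : B)) ζ) - R (star (π a : B)) (L (π a) ζ)) +
            R (star (π a : B)) (L (π a) ζ - R (π a) ζ) := by
        rw [map_sub, ← hSt.anti.mul, (π a).2.2, hR1]; abel
      change ‖L (π a) (R (star (π a : B)) ζ) - ζ‖ ≤ _
      rw [e]
      have k1 := hSt.comm (π a) (star (π a : B)) ζ
      have k2 := hSt.anti.norm_le (u := star (π a : B)) (by rw [star_star]; exact (π a).2.1)
        (L (π a) ζ - R (π a) ζ)
      have k3 := hδ a a.2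
      have k4 := hSt.unit_le (π a).2
      have k5 := hSt.unit_le (Unitary.star_mem (π a).2)
      have k6 : t * ‖(π a : B)‖ * ‖star (π a : B)‖ * ‖ζ‖ ≤ t * 1 * 1 * 1 := by
        rw [hζ]; gcongr
      have := norm_add_le (L (π a) (R (star (π a : B)) ζ) - R (star (π a : B)) (L (π a) ζ))
        (R (star (π a : B)) (L (π a) ζ - R (π a) ζ))
      linarith
    · have e : L (star (π a : B)) (R (π a) ζ) - ζ =
          - L (star (π a : B)) (L (π a) ζ - R (π a) ζ) := by
        rw [map_sub, ← hSt.rep.mul, (π a).2.1, hL1]; abel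
      change ‖L (star (π a : B)) (R (star (star (π a : B))) ζ) - ζ‖ ≤ _
      rw [star_star, e, norm_neg]
      have k2 := hSt.rep.norm_le (u := star (π a : B)) (by rw [star_star]; exact (π a).2.2)
        (L (π a) ζ - R (π a) ζ)
      have k3 := hδ a a.2
      linarith
  · rintro _ ⟨g, rfl⟩
    obtain ⟨m, hm⟩ := hgen g
    obtain ⟨v, hv, c, -, hc⟩ := PE_word hπ hu hm
    change (π g : B) ∈ _
    rw [hc]
    exact Submodule.smul_mem _ _ (Submodule.subset_span ⟨v, m, hv, rfl⟩)

end Pool.Agent.MP_890ef7_an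

end

section

/-! Property (T) for algebras close to an algebra generated by a projective representation of a
Kazhdan group. -/

open scoped InnerProductSpace

namespace Pool.Agent.MP_890ef7_an

universe u v w

theorem exists_unimod {A : Type*} [CStarAlgebra A] {x y : A} (hx : x ∈ unitary A)
    (hy : y ∈ unitary A) {c : ℂ} (h : x = c • y) : ∃ c : ℂ, ‖c‖ = 1 ∧ x = c • y := by
  rcases subsingleton_or_nontrivial A with hA | hA
  · exact ⟨1, norm_one, Subsingleton.elim _ _⟩
  · refine ⟨c, ?_, h⟩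
    have h1 := CStarRing.norm_of_mem_unitary hx
    rwa [h, norm_smul, CStarRing.norm_of_mem_unitary hy, mul_one] at h1

theorem main {Γ : Type u} [Group Γ] (hΓ : KazhdanT Γ) :
    ∃ ε : ℝ, 0 < ε ∧ ∀ (H : Type v) [NormedAddCommGroup H] [InnerProductSpace ℂ H]
      [CompleteSpace H] (M N : VonNeumannAlgebra H) (π : Γ → H →L[ℂ] H),
      (∀ g, π g ∈ unitary (H →L[ℂ] H)) → (∀ g h, ∃ c : ℂ, π (g * h) = c • (π g * π h)) →
      (M : Set (H →L[ℂ] H)) = Set.centralizer (Set.centralizer (Set.range π)) →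
      kkDist M N < ε → HasT.{v, w} N := by
  classical
  obtain ⟨S, t, ht, hcore⟩ := core.{u, v, max v w} hΓ (η := 1 / 4) (by norm_num)
  refine ⟨min (t / 4) (1 / 40), by positivity, fun H _ _ _ M N π hπ hproj hM hkk => ?_⟩
  have hπM : ∀ g, π g ∈ M := fun g => by
    rw [← SetLike.mem_coe, hM]; exact Set.subset_centralizer_centralizer ⟨g, rfl⟩
  let π' : Γ → unitary M.toStarSubalgebra := fun g => ⟨⟨π g, hπM g⟩,
    Subtype.ext (hπ g).1, Subtype.ext (hπ g).2⟩
  have hπ' : ∀ g h, PE (π' (g * h)) (π' g * π' h) := fun g h => by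
    obtain ⟨c, hc⟩ := hproj g h
    obtain ⟨c, hc1, hc⟩ := exists_unimod (hπ _) (mul_mem (hπ g) (hπ h)) hc
    exact ⟨c, hc1, Subtype.ext hc⟩
  have hin : ∀ (g : Γ) (x : unitary M.toStarSubalgebra), PE (π' g) x →
      ((x : M.toStarSubalgebra) : H →L[ℂ] H) ∈ Submodule.span ℂ (Set.range π) := fun g x h => by
    obtain ⟨c, -, hc⟩ := h.symm
    rw [hc]
    exact Submodule.smul_mem _ c (Submodule.subset_span ⟨g, rfl⟩)
  let A : StarSubalgebra ℂ (H →L[ℂ] H) :=
    { (Submodule.span ℂ (Set.range π)).toSubalgebra (hin 1 1 (PE_one hπ')) (fun x y hx hy => by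
        induction hx, hy using Submodule.span_induction₂ with
        | mem_mem x y hx hy =>
          obtain ⟨g, rfl⟩ := hx
          obtain ⟨h, rfl⟩ := hy
          exact hin _ _ (hπ' g h)
        | zero_left => simp
        | zero_right => simp
        | add_left x y z _ _ _ h1 h2 => rw [add_mul]; exact add_mem h1 h2
        | add_right x y z _ _ _ h1 h2 => rw [mul_add]; exact add_mem h1 h2
        | smul_left r x y _ _ h => rw [smul_mul_assoc]; exact Submodule.smul_mem _ _ h
        | smul_right r x y _ _ h => rw [mul_smul_comm]; exact Submodule.smul_mem _ _ h) with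
      star_mem' := fun {x} hx => by
        change x ∈ Submodule.span ℂ (Set.range π) at hx
        change star x ∈ Submodule.span ℂ (Set.range π)
        induction hx using Submodule.span_induction with
        | mem x hx =>
          obtain ⟨g, rfl⟩ := hx
          exact hin _ _ (PE_inv hπ' g)
        | zero => simp
        | add x y _ _ h1 h2 => rw [star_add]; exact add_mem h1 h2
        | smul r x _ h => rw [star_smul]; exact Submodule.smul_mem _ _ h }
  have hA : Set.centralizer (A : Set (H →L[ℂ] H)) = Set.centralizer (Set.range π) := by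
    refine Set.Subset.antisymm (Set.centralizer_subset Submodule.subset_span) fun y hy x hx => ?_
    change x ∈ Submodule.span ℂ (Set.range π) at hx
    induction hx using Submodule.span_induction with
    | mem x hx => exact hy x hx
    | zero => simp
    | add x z _ _ h1 h2 => rw [add_mul, mul_add, h1, h2]
    | smul r x _ h => rw [smul_mul_assoc, mul_smul_comm, h]
  refine transfer M N A (by rw [hA, hM]) (S.image fun g => (π' g : M.toStarSubalgebra))
    (fun a ha => ?_) (t := t) (by positivity) (by linarith [min_le_left (t / 4) (1 / 40)])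
    (min_le_right _ _) (fun K _ _ L R hS ζ hζ h1 h2 hF x hx => ?_) hkk
  · obtain ⟨g, -, rfl⟩ := Finset.mem_image.1 ha
    exact norm_le_one_of_sum (b := 0) (by simpa using (hπ g).1)
  · refine hcore _ K L R hS π' hπ' ζ hζ h1 h2
      (fun a ha => hF _ (Finset.mem_image_of_mem _ ha)) x ?_
    obtain ⟨x, hxM⟩ := x
    change x ∈ Submodule.span ℂ (Set.range π) at hx
    induction hx using Submodule.span_induction with
    | mem x hx =>
      obtain ⟨g, rfl⟩ := hx
      exact Submodule.subset_span ⟨g, rfl⟩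
    | zero => exact zero_mem _
    | add x y hx hy h1 h2 =>
      have hAM : ∀ z ∈ Submodule.span ℂ (Set.range π), z ∈ M := fun z hz => by
        rw [← SetLike.mem_coe, hM, ← hA]; exact Set.subset_centralizer_centralizer hz
      exact add_mem (h1 (hAM x hx)) (h2 (hAM y hy))
    | smul r x hx h =>
      have hAM : ∀ z ∈ Submodule.span ℂ (Set.range π), z ∈ M := fun z hz => by
        rw [← SetLike.mem_coe, hM, ← hA]; exact Set.subset_centralizer_centralizer hz
      exact Submodule.smul_mem _ r (h (hAM x hx))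

end Pool.Agent.MP_890ef7_an

end
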