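import Mathlib
import Pool.Agent.Mg.F890ef7p.G7e54e1
import Pool.Agent.MP_890ef7_an.KK.Stmt

section

/-! Standard forms of tracial von Neumann algebras, towers of finite groups, averages. -/

open scoped InnerProductSpace
open Filter Topology

namespace Pool.Agent.MP_890ef7_an.KK

universe v

set_option linter.unusedSectionVars false

/-- A tracial standard form: commuting left and right actions with a cyclic trace vector. -/
structure Std (A K : Type v) [CStarAlgebra A] [NormedAddCommGroup K] [InnerProductSpace ℂ K]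
    [CompleteSpace K] where
  L : A →⋆ₐ[ℂ] (K →L[ℂ] K)
  R : A →ₗ[ℂ] (K →L[ℂ] K)
  ξ : K
  R_one : R 1 = 1
  R_mul : ∀ a b, R (a * b) = R b * R a
  R_star : ∀ a, R (star a) = star (R a)
  comm : ∀ a b, L a * R b = R b * L a
  LR : ∀ a, L a ξ = R a ξ
  norm_ξ : ‖ξ‖ = 1
  dense : DenseRange fun a => L a ξ
  norm_L : ∀ a, ‖L a‖ = ‖a‖
  norm_R : ∀ a, ‖R a‖ ≤ ‖a‖
  closed : ∀ (z : K) (c : ℝ), (∀ ε : ℝ, 0 < ε → ∃ n : A, ‖n‖ ≤ c ∧ ‖z - L n ξ‖ ≤ ε) →
    ∃ a, L a ξ = z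

namespace Std

variable {A K : Type v} [CStarAlgebra A] [NormedAddCommGroup K] [InnerProductSpace ℂ K]
  [CompleteSpace K] (S : Std A K)

/-- the vector of an element. -/
noncomputable def hat : A →ₗ[ℂ] K where
  toFun a := S.L a S.ξ
  map_add' a b := by simp
  map_smul' c a := by simp

/-- the trace. -/
noncomputable def τ : A →ₗ[ℂ] ℂ where
  toFun a := ⟪S.ξ, S.hat a⟫_ℂ
  map_add' a b := by simp
  map_smul' c a := by simp

theorem hat_def (a : A) : S.hat a = S.L a S.ξ := rfl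

theorem τ_def (a : A) : S.τ a = ⟪S.ξ, S.hat a⟫_ℂ := rfl

theorem L_ξ (a : A) : S.L a S.ξ = S.hat a := rfl

theorem R_ξ (a : A) : S.R a S.ξ = S.hat a := (S.LR a).symm

theorem hat_one : S.hat 1 = S.ξ := by simp [hat_def]

theorem dense_hat : DenseRange S.hat := S.dense

theorem comm_apply (a b : A) (z : K) : S.L a (S.R b z) = S.R b (S.L a z) :=
  congrArg (fun T : K →L[ℂ] K => T z) (S.comm a b)

theorem L_mul_apply (a b : A) (z : K) : S.L (a * b) z = S.L a (S.L b z) := by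
  rw [map_mul]; rfl

theorem R_mul_apply (a b : A) (z : K) : S.R (a * b) z = S.R b (S.R a z) := by
  rw [S.R_mul]; rfl

theorem L_hat (a b : A) : S.L a (S.hat b) = S.hat (a * b) := (S.L_mul_apply a b _).symm

theorem R_hat (a b : A) : S.R b (S.hat a) = S.hat (a * b) := by
  rw [← S.R_ξ, ← S.R_ξ, S.R_mul_apply]

theorem norm_L_apply (a : A) (z : K) : ‖S.L a z‖ ≤ ‖a‖ * ‖z‖ :=
  ((S.L a).le_opNorm z).trans_eq (by rw [S.norm_L])

theorem norm_R_apply (a : A) (z : K) : ‖S.R a z‖ ≤ ‖a‖ * ‖z‖ :=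
  ((S.R a).le_opNorm z).trans (mul_le_mul_of_nonneg_right (S.norm_R a) (norm_nonneg z))

theorem norm_hat_le (a : A) : ‖S.hat a‖ ≤ ‖a‖ := by
  simpa [S.norm_ξ, hat_def] using S.norm_L_apply a S.ξ

theorem norm_hat_mul_left (a b : A) : ‖S.hat (a * b)‖ ≤ ‖a‖ * ‖S.hat b‖ := by
  rw [← S.L_hat]; exact S.norm_L_apply _ _

theorem norm_hat_mul_right (a b : A) : ‖S.hat (a * b)‖ ≤ ‖b‖ * ‖S.hat a‖ := by
  rw [← S.R_hat]; exact S.norm_R_apply _ _

theorem inner_L (a : A) (z w : K) : ⟪S.L a z, w⟫_ℂ = ⟪z, S.L (star a) w⟫_ℂ := by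
  rw [map_star, ContinuousLinearMap.star_eq_adjoint, ContinuousLinearMap.adjoint_inner_right]

theorem inner_R (a : A) (z w : K) : ⟪S.R a z, w⟫_ℂ = ⟪z, S.R (star a) w⟫_ℂ := by
  rw [S.R_star, ContinuousLinearMap.star_eq_adjoint, ContinuousLinearMap.adjoint_inner_right]

theorem inner_hat (a b : A) : ⟪S.hat a, S.hat b⟫_ℂ = S.τ (star a * b) := by
  rw [τ_def, ← S.L_hat, ← S.inner_L]; rfl

theorem τ_comm (a b : A) : S.τ (a * b) = S.τ (b * a) := by
  have h1 : S.τ (a * b) = ⟪S.hat (star b), S.hat a⟫_ℂ := by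
    rw [τ_def, ← S.R_hat, ← S.R_ξ (star b), S.inner_R, star_star]
  rw [h1, S.inner_hat, star_star]

theorem τ_one : S.τ 1 = 1 := by
  rw [τ_def, S.hat_one, inner_self_eq_norm_sq_to_K, S.norm_ξ]; simp

theorem τ_star (a : A) : S.τ (star a) = (starRingEnd ℂ) (S.τ a) := by
  rw [S.τ_def a, inner_conj_symm, ← S.hat_one, S.inner_hat, mul_one]

theorem τ_star_mul_self (a : A) : S.τ (star a * a) = ((‖S.hat a‖ ^ 2 : ℝ) : ℂ) := by
  rw [← S.inner_hat, inner_self_eq_norm_sq_to_K]; simp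

theorem norm_hat_sq (a : A) : ‖S.hat a‖ ^ 2 = (S.τ (star a * a)).re := by
  rw [S.τ_star_mul_self, Complex.ofReal_re]

theorem norm_hat_star (a : A) : ‖S.hat (star a)‖ = ‖S.hat a‖ := by
  have : ‖S.hat (star a)‖ ^ 2 = ‖S.hat a‖ ^ 2 := by
    rw [S.norm_hat_sq, S.norm_hat_sq, star_star, S.τ_comm]
  exact (pow_left_inj₀ (norm_nonneg _) (norm_nonneg _) two_ne_zero).1 this

theorem inner_hat_star (a b : A) : ⟪S.hat (star a), S.hat (star b)⟫_ℂ = ⟪S.hat b, S.hat a⟫_ℂ := by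
  rw [S.inner_hat, S.inner_hat, star_star, S.τ_comm]

theorem norm_τ_le (a : A) : ‖S.τ a‖ ≤ ‖S.hat a‖ := by
  simpa [S.norm_ξ, τ_def] using norm_inner_le_norm (𝕜 := ℂ) S.ξ (S.hat a)

theorem L_injective : Function.Injective S.L := fun a b h => by
  rw [← sub_eq_zero, ← norm_eq_zero, ← S.norm_L, map_sub, h, sub_self, norm_zero]

include S in
theorem norm_one : ‖(1 : A)‖ = 1 := by
  have h := S.norm_hat_le 1
  rw [S.hat_one, S.norm_ξ] at h
  have : Nontrivial A := by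
    by_contra h'
    rw [not_nontrivial_iff_subsingleton] at h'
    rw [Subsingleton.elim (1 : A) 0, norm_zero] at h
    linarith
  exact CStarRing.norm_one

include S in
theorem nontrivial : Nontrivial A :=
  ⟨1, 0, fun h => by have := S.norm_one; rw [h, norm_zero] at this; linarith⟩

section ext
variable {K' : Type*} [NormedAddCommGroup K'] [NormedSpace ℂ K']

theorem clm_ext {T T' : K →L[ℂ] K'} (h : ∀ a, T (S.hat a) = T' (S.hat a)) : T = T' := by
  ext z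
  exact S.dense_hat.induction_on (p := fun z => T z = T' z) z
    (isClosed_eq T.continuous T'.continuous) h

theorem opNorm_le (T : K →L[ℂ] K') {c : ℝ} (hc : 0 ≤ c)
    (h : ∀ a, ‖T (S.hat a)‖ ≤ c * ‖S.hat a‖) : ‖T‖ ≤ c :=
  T.opNorm_le_bound hc fun z => S.dense_hat.induction_on (p := fun z => ‖T z‖ ≤ c * ‖z‖) z
    (isClosed_le (by fun_prop) (by fun_prop)) h

end ext

theorem vec_ext {z w : K} (h : ∀ a, ⟪S.hat a, z⟫_ℂ = ⟪S.hat a, w⟫_ℂ) : z = w :=
  ext_inner_left ℂ fun y => S.dense_hat.induction_on (p := fun y => ⟪y, z⟫_ℂ = ⟪y, w⟫_ℂ) y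
    (isClosed_eq (by fun_prop) (by fun_prop)) h

theorem norm_le_of_inner {z : K} {c : ℝ} (hc : 0 ≤ c)
    (h : ∀ a, ‖⟪S.hat a, z⟫_ℂ‖ ≤ c * ‖S.hat a‖) : ‖z‖ ≤ c := by
  have h1 : ‖⟪z, z⟫_ℂ‖ ≤ c * ‖z‖ :=
    S.dense_hat.induction_on (p := fun y => ‖⟪y, z⟫_ℂ‖ ≤ c * ‖y‖) z
      (isClosed_le (by fun_prop) (by fun_prop)) h
  rw [inner_self_eq_norm_sq_to_K] at h1
  simp only [Complex.coe_algebraMap, norm_pow, Complex.norm_real, norm_norm] at h1
  rcases (norm_nonneg z).eq_or_lt with h0 | h0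
  · rwa [← h0]
  · nlinarith

theorem hat_injective : Function.Injective S.hat := fun a b h =>
  S.L_injective (S.clm_ext fun c => by rw [S.L_hat, S.L_hat, ← S.R_hat, ← S.R_hat, h])

theorem hat_eq_zero {a : A} (h : S.hat a = 0) : a = 0 :=
  S.hat_injective (by rw [h, map_zero])

/-- an `L²` limit of a bounded family obeys the bound. -/
theorem norm_le_of_tendsto {I : Type*} {l : Filter I} [l.NeBot] {a : I → A} {b : A} {c : ℝ}
    (hc : ∀ᶠ i in l, ‖a i‖ ≤ c) (h : Tendsto (fun i => S.hat (a i)) l (𝓝 (S.hat b))) :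
    ‖b‖ ≤ c := by
  have h0 : 0 ≤ c := by
    obtain ⟨i, hi⟩ := hc.exists
    exact (norm_nonneg _).trans hi
  rw [← S.norm_L]
  refine S.opNorm_le _ h0 fun d => ?_
  rw [S.L_hat, ← S.R_hat]
  refine le_of_tendsto (((S.R d).continuous.tendsto _).comp h).norm (hc.mono fun i hi => ?_)
  simp only [Function.comp]
  rw [S.R_hat]
  exact (S.norm_hat_mul_left _ _).trans (mul_le_mul_of_nonneg_right hi (norm_nonneg _))

/-- an `L²` limit of a bounded family comes from an element. -/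
theorem exists_of_tendsto {I : Type*} {l : Filter I} [l.NeBot] {a : I → A} {z : K} {c : ℝ}
    (hc : ∀ᶠ i in l, ‖a i‖ ≤ c) (h : Tendsto (fun i => S.hat (a i)) l (𝓝 z)) :
    ∃ b, S.hat b = z ∧ ‖b‖ ≤ c := by
  obtain ⟨b, hb⟩ := S.closed z c fun ε hε => by
    obtain ⟨i, h1, h2⟩ := (hc.and ((Metric.tendsto_nhds.1 h) ε hε)).exists
    exact ⟨a i, h1, by rw [norm_sub_rev, ← dist_eq_norm]; exact h2.le⟩
  exact ⟨b, hb, S.norm_le_of_tendsto hc (by rwa [hat_def, hb])⟩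

theorem tendsto_hat_star {I : Type*} {l : Filter I} {a : I → A} {b : A}
    (h : Tendsto (fun i => S.hat (a i)) l (𝓝 (S.hat b))) :
    Tendsto (fun i => S.hat (star (a i))) l (𝓝 (S.hat (star b))) := by
  rw [tendsto_iff_norm_sub_tendsto_zero] at h ⊢
  refine h.congr fun i => ?_
  rw [← map_sub, ← map_sub, ← star_sub, S.norm_hat_star]

theorem tendsto_hat_mul {I : Type*} {l : Filter I} {a b : I → A} {a₀ b₀ : A} {c : ℝ}
    (hc : ∀ᶠ i in l, ‖a i‖ ≤ c) (ha : Tendsto (fun i => S.hat (a i)) l (𝓝 (S.hat a₀)))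
    (hb : Tendsto (fun i => S.hat (b i)) l (𝓝 (S.hat b₀))) :
    Tendsto (fun i => S.hat (a i * b i)) l (𝓝 (S.hat (a₀ * b₀))) := by
  rw [tendsto_iff_norm_sub_tendsto_zero] at ha hb ⊢
  have h := (hb.const_mul c).add (ha.const_mul ‖b₀‖)
  rw [mul_zero, mul_zero, add_zero] at h
  refine squeeze_zero' (Eventually.of_forall fun _ => norm_nonneg _) (hc.mono fun i hi => ?_) h
  rw [← map_sub, ← map_sub, ← map_sub,
    show a i * b i - a₀ * b₀ = a i * (b i - b₀) + (a i - a₀) * b₀ by noncomm_ring, map_add]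
  exact (norm_add_le _ _).trans (add_le_add ((S.norm_hat_mul_left _ _).trans
    (mul_le_mul_of_nonneg_right hi (norm_nonneg _))) (S.norm_hat_mul_right _ _))

end Std

/-- The average of `f` over a finite set. -/
noncomputable def avg {Γ V : Type*} [AddCommGroup V] [Module ℂ V] (s : Finset Γ) (f : Γ → V) : V :=
  (s.card : ℂ)⁻¹ • ∑ g ∈ s, f g

section avg
variable {Γ V W : Type*}

theorem map_avg [AddCommGroup V] [Module ℂ V] [AddCommGroup W] [Module ℂ W] {F : Type*}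
    [FunLike F V W] [LinearMapClass F ℂ V W] (φ : F) (s : Finset Γ) (f : Γ → V) :
    φ (avg s f) = avg s fun g => φ (f g) := by
  simp [avg, map_sum]

theorem avg_apply [NormedAddCommGroup V] [NormedSpace ℂ V] [NormedAddCommGroup W]
    [NormedSpace ℂ W] (s : Finset Γ) (f : Γ → V →L[ℂ] W) (z : V) :
    avg s f z = avg s fun g => f g z := by
  simp [avg]

variable [AddCommGroup V] [Module ℂ V]

theorem avg_const {s : Finset Γ} (hs : s.Nonempty) (z : V) : avg s (fun _ => z) = z := by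
  have : (s.card : ℂ) ≠ 0 := by exact_mod_cast hs.card_pos.ne'
  rw [avg, Finset.sum_const, ← Nat.cast_smul_eq_nsmul ℂ, smul_smul, inv_mul_cancel₀ this, one_smul]

theorem avg_congr {s : Finset Γ} {f f' : Γ → V} (h : ∀ g ∈ s, f g = f' g) : avg s f = avg s f' := by
  rw [avg, avg, Finset.sum_congr rfl h]

theorem avg_add (s : Finset Γ) (f f' : Γ → V) :
    avg s (fun g => f g + f' g) = avg s f + avg s f' := by
  simp [avg, Finset.sum_add_distrib]

theorem avg_sub (s : Finset Γ) (f f' : Γ → V) :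
    avg s (fun g => f g - f' g) = avg s f - avg s f' := by
  simp [avg, Finset.sum_sub_distrib, smul_sub]

theorem avg_smul (s : Finset Γ) (c : ℂ) (f : Γ → V) : avg s (fun g => c • f g) = c • avg s f := by
  rw [avg, avg, ← Finset.smul_sum, smul_comm]

theorem avg_comm {Γ' : Type*} (s : Finset Γ) (t : Finset Γ') (f : Γ → Γ' → V) :
    avg s (fun g => avg t fun h => f g h) = avg t fun h => avg s fun g => f g h := by
  simp only [avg, ← Finset.smul_sum]
  rw [smul_comm, Finset.sum_comm]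

end avg

theorem norm_avg_le {Γ V : Type*} [SeminormedAddCommGroup V] [NormedSpace ℂ V] {s : Finset Γ}
    {f : Γ → V} {c : ℝ} (hc : 0 ≤ c) (h : ∀ g ∈ s, ‖f g‖ ≤ c) : ‖avg s f‖ ≤ c := by
  rcases s.eq_empty_or_nonempty with rfl | hs
  · simpa [avg]
  have h0 : (0 : ℝ) < s.card := by exact_mod_cast hs.card_pos
  rw [avg, norm_smul, norm_inv, Complex.norm_natCast, inv_mul_le_iff₀ h0]
  refine (norm_sum_le _ _).trans ((Finset.sum_le_card_nsmul _ _ _ h).trans_eq ?_)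
  simp

theorem avg_mul_left' {Γ A : Type*} [Ring A] [Algebra ℂ A] (s : Finset Γ) (a : A) (f : Γ → A) :
    a * avg s f = avg s fun g => a * f g := by
  simp [avg, Finset.mul_sum]

theorem avg_mul_right' {Γ A : Type*} [Ring A] [Algebra ℂ A] (s : Finset Γ) (a : A) (f : Γ → A) :
    avg s f * a = avg s fun g => f g * a := by
  simp [avg, Finset.sum_mul]

theorem star_avg {Γ A : Type*} [AddCommGroup A] [Module ℂ A] [StarAddMonoid A] [StarModule ℂ A]
    (s : Finset Γ) (f : Γ → A) : star (avg s f) = avg s fun g => star (f g) := by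
  simp [avg, star_sum]

/-- A finite set that is a subgroup. -/
structure IsGrp {Γ : Type*} [Group Γ] (s : Finset Γ) : Prop where
  one_mem : 1 ∈ s
  mul_mem : ∀ g ∈ s, ∀ h ∈ s, g * h ∈ s
  inv_mem : ∀ g ∈ s, g⁻¹ ∈ s

namespace IsGrp
variable {Γ V : Type*} [Group Γ] [AddCommGroup V] [Module ℂ V] {s : Finset Γ} (hs : IsGrp s)
include hs

theorem nonempty : s.Nonempty := ⟨1, hs.one_mem⟩

theorem avg_left {g₀ : Γ} (h : g₀ ∈ s) (f : Γ → V) : avg s (fun g => f (g₀ * g)) = avg s f := by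
  unfold avg
  congr 1
  exact Finset.sum_nbij' (fun g => g₀ * g) (fun g => g₀⁻¹ * g) (fun g hg => hs.mul_mem _ h _ hg)
    (fun g hg => hs.mul_mem _ (hs.inv_mem _ h) _ hg) (by simp) (by simp) fun _ _ => rfl

theorem avg_right {g₀ : Γ} (h : g₀ ∈ s) (f : Γ → V) : avg s (fun g => f (g * g₀)) = avg s f := by
  unfold avg
  congr 1
  exact Finset.sum_nbij' (fun g => g * g₀) (fun g => g * g₀⁻¹) (fun g hg => hs.mul_mem _ hg _ h)
    (fun g hg => hs.mul_mem _ hg _ (hs.inv_mem _ h)) (by simp) (by simp) fun _ _ => rfl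

theorem avg_inv (f : Γ → V) : avg s (fun g => f g⁻¹) = avg s f := by
  unfold avg
  congr 1
  exact Finset.sum_nbij' (fun g => g⁻¹) (fun g => g⁻¹) hs.inv_mem hs.inv_mem (by simp) (by simp)
    fun _ _ => rfl

end IsGrp

/-- An increasing exhaustion of a group by finite subgroups. -/
structure Tower (Γ : Type v) [Group Γ] where
  G : ℕ → Finset Γ
  grp : ∀ n, IsGrp (G n)
  mono : Monotone G
  exhaust : ∀ g, ∃ n, g ∈ G n

/-- the fixed free ultrafilter. -/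
noncomputable abbrev ω : Ultrafilter ℕ := hyperfilter ℕ

theorem ω_le : (ω : Filter ℕ) ≤ atTop := Nat.cofinite_eq_atTop ▸ hyperfilter_le_cofinite

theorem Tower.ev {Γ : Type v} [Group Γ] (T : Tower Γ) (g : Γ) : ∀ᶠ n in (ω : Filter ℕ), g ∈ T.G n := by
  obtain ⟨m, hm⟩ := T.exhaust g
  exact ω_le ((eventually_ge_atTop m).mono fun n hn => T.mono hn hm)

/-- bootstrap for a bounded map on a subspace. -/
theorem boot {B V : Type*} [NormedAddCommGroup B] [NormedSpace ℂ B] [SeminormedAddCommGroup V]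
    [NormedSpace ℂ V] (P : Submodule ℂ B) (f : B →ₗ[ℂ] V) {c δ : ℝ}
    (hc : ∀ y ∈ P, ‖f y‖ ≤ c * ‖y‖)
    (h : ∀ y ∈ P, ‖y‖ ≤ 1 → ∃ y₀ ∈ P, ‖y - y₀‖ ≤ 1 / 2 ∧ ‖f y₀‖ ≤ δ) :
    ∀ y ∈ P, ‖f y‖ ≤ 2 * δ * ‖y‖ := by
  let g : P →L[ℂ] V := (f ∘ₗ P.subtype).mkContinuous c fun y => hc y y.2
  have hδ : 0 ≤ δ := by
    obtain ⟨y₀, -, -, h2⟩ := h 0 P.zero_mem (by simp)
    exact (norm_nonneg _).trans h2
  have h1 : ‖g‖ ≤ δ + ‖g‖ * (1 / 2) := by
    refine ContinuousLinearMap.opNorm_le_of_unit_norm (by positivity) fun y hy => ?_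
    obtain ⟨y₀, hy₀, h1, h2⟩ := h y y.2 hy.le
    have e : g y = f y₀ + g (y - ⟨y₀, hy₀⟩) := by
      rw [map_sub]; change f y = f y₀ + (f y - f y₀); abel
    rw [e]
    exact (norm_add_le _ _).trans (add_le_add h2 ((g.le_opNorm _).trans
      (mul_le_mul_of_nonneg_left h1 (norm_nonneg _))))
  intro y hy
  exact (g.le_opNorm ⟨y, hy⟩).trans (mul_le_mul_of_nonneg_right (by linarith) (norm_nonneg _))

/-- norm bound for a weak limit, along any filter. -/
theorem norm_le_of_weak' {I K : Type*} [NormedAddCommGroup K] [InnerProductSpace ℂ K] {l : Filter I}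
    [l.NeBot] {v : I → K} {w : K} {C : ℝ} (hv : ∀ᶠ i in l, ‖v i‖ ≤ C)
    (h : Tendsto (fun i => ⟪w, v i⟫_ℂ) l (𝓝 ⟪w, w⟫_ℂ)) : ‖w‖ ≤ C := by
  have hC : 0 ≤ C := by
    obtain ⟨i, hi⟩ := hv.exists
    exact (norm_nonneg _).trans hi
  have h1 : ‖⟪w, w⟫_ℂ‖ ≤ ‖w‖ * C :=
    le_of_tendsto h.norm (hv.mono fun i hi => (norm_inner_le_norm _ _).trans (by gcongr))
  rw [inner_self_eq_norm_sq_to_K] at h1
  simp only [Complex.coe_algebraMap, norm_pow, Complex.norm_real, norm_norm] at h1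
  rcases (norm_nonneg w).eq_or_lt with h0 | h0
  · rwa [← h0]
  · nlinarith

end Pool.Agent.MP_890ef7_an.KK

end

section

/-! The common space of two close algebras, good partners. -/

open scoped InnerProductSpace
open Filter Topology

namespace Pool.Agent.MP_890ef7_an.KK

universe v

set_option linter.unusedSectionVars false

section
variable {A B K H : Type v} [CStarAlgebra A] [CStarAlgebra B] [NormedAddCommGroup K]
  [InnerProductSpace ℂ K] [CompleteSpace K] [NormedAddCommGroup H] [InnerProductSpace ℂ H]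
  [CompleteSpace H] {Γ : Type v} [Group Γ]

/-- trivial centre. -/
def IsFactor (A : Type v) [CStarAlgebra A] : Prop :=
  ∀ z : A, (∀ x, z * x = x * z) → ∃ c : ℂ, z = c • (1 : A)

/-- no minimal projections. -/
def IsDiffuse (A : Type v) [CStarAlgebra A] : Prop :=
  ∀ p : A, IsStarProjection p → p ≠ 0 → ∃ q, IsStarProjection q ∧ p * q = q ∧ q ≠ 0 ∧ q ≠ p

/-- comparison and subprojections of every trace, inside `Q`. -/
def Nice (S : Std A K) (Q : Set A) : Prop :=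
  (∀ p ∈ Q, ∀ q ∈ Q, IsStarProjection p → IsStarProjection q → S.τ p = S.τ q →
    ∃ w ∈ Q, star w * w = p ∧ w * star w = q) ∧
  ∀ p ∈ Q, IsStarProjection p → ∀ t : ℝ, 0 ≤ t → t ≤ (S.τ p).re →
    ∃ q ∈ Q, IsStarProjection q ∧ p * q = q ∧ S.τ q = t

/-- two anticommuting symmetries. -/
def IsPauli (a b : A) : Prop :=
  star a = a ∧ star b = b ∧ a * a = 1 ∧ b * b = 1 ∧ a * b = -(b * a)

/-- averages over the tower converge to the trace. -/
def Erg (S : Std A K) (T : Tower Γ) (j : Γ →* unitary A) : Prop :=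
  ∀ x : A, Tendsto (fun n => S.hat (avg (T.G n) fun g => (j g : A) * x * star (j g : A)))
    (ω : Filter ℕ) (𝓝 (S.τ x • S.ξ))

/-- closeness of two represented algebras. -/
def Close (ι : A →⋆ₐ[ℂ] (H →L[ℂ] H)) (ι' : B →⋆ₐ[ℂ] (H →L[ℂ] H)) (γ : ℝ) : Prop :=
  (∀ x, ∃ y, ‖y‖ ≤ ‖x‖ ∧ ‖ι x - ι' y‖ ≤ γ * ‖x‖) ∧ ∀ y, ∃ x, ‖x‖ ≤ ‖y‖ ∧ ‖ι x - ι' y‖ ≤ γ * ‖y‖

/-- bounded `L²`-null sequences are weakly null in the representation. -/
def WCont (S : Std A K) (ι : A →⋆ₐ[ℂ] (H →L[ℂ] H)) : Prop :=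
  ∀ (a : ℕ → A) (c : ℝ), (∀ n, ‖a n‖ ≤ c) → Tendsto (fun n => S.hat (a n)) (ω : Filter ℕ) (𝓝 0) →
    ∀ z w : H, Tendsto (fun n => ⟪z, ι (a n) w⟫_ℂ) (ω : Filter ℕ) (𝓝 0)

/-- on the unit ball the weak operator topologies of the two representations agree. -/
def Linked (S : Std A K) (ι : A →⋆ₐ[ℂ] (H →L[ℂ] H)) : Prop :=
  ∀ (l : Filter A) (y : A), (∀ᶠ x in l, ‖x‖ ≤ 1) →
    ((∀ z w : H, Tendsto (fun x => ⟪z, ι x w⟫_ℂ) l (𝓝 ⟪z, ι y w⟫_ℂ)) ↔
      ∀ z w : K, Tendsto (fun x => ⟪z, S.L x w⟫_ℂ) l (𝓝 ⟪z, S.L y w⟫_ℂ))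

end

/-- Commuting left and right actions of `A` on the standard space of `B`, close to those of `B`. -/
structure Pre (A : Type v) {B K : Type v} [CStarAlgebra A] [CStarAlgebra B] [NormedAddCommGroup K]
    [InnerProductSpace ℂ K] [CompleteSpace K] (S : Std B K) (ν γ : ℝ) where
  π : A →ₐ[ℂ] (K →L[ℂ] K)
  π' : A →ₗ[ℂ] (K →L[ℂ] K)
  π'_one : π' 1 = 1
  π'_mul : ∀ a b, π' (a * b) = π' b * π' a
  comm : ∀ a b, π a * π' b = π' b * π a
  ξeq : ∀ a, π a S.ξ = π' a S.ξ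
  norm_π : ∀ a, ‖π a‖ ≤ ν * ‖a‖
  norm_π' : ∀ a, ‖π' a‖ ≤ ν * ‖a‖
  partA : ∀ x, ∃ y, ‖y‖ ≤ ‖x‖ ∧ ‖π x - S.L y‖ ≤ γ * ‖x‖ ∧ ‖π' x - S.R y‖ ≤ γ * ‖x‖
  partB : ∀ y, ∃ x, ‖x‖ ≤ ‖y‖ ∧ ‖π x - S.L y‖ ≤ γ * ‖y‖ ∧ ‖π' x - S.R y‖ ≤ γ * ‖y‖

variable {A B K : Type v} [CStarAlgebra A] [CStarAlgebra B] [NormedAddCommGroup K]
  [InnerProductSpace ℂ K] [CompleteSpace K] {S : Std B K}

namespace Pre
variable {ν γ : ℝ} (D : Pre A S ν γ)

/-- the commutator applied to the trace vector. -/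
noncomputable def Φ (x : A) (y : B) : K := D.π x (S.hat y) - S.R y (D.π x S.ξ)

/-- the double commutator `[[π x, k], R y]` applied to the trace vector. -/
noncomputable def Ψ (k : K →L[ℂ] K) (x : A) (y : B) : K :=
  D.π x (k (S.hat y)) - k (D.π x (S.hat y)) - S.R y (D.π x (k S.ξ)) + S.R y (k (D.π x S.ξ))

/-- common elements. -/
def Com (x : A) (y : B) : Prop := D.π x = S.L y ∧ D.π' x = S.R y

theorem π_mul_apply (a b : A) (z : K) : D.π (a * b) z = D.π a (D.π b z) := by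
  rw [map_mul]; rfl

theorem π'_mul_apply (a b : A) (z : K) : D.π' (a * b) z = D.π' b (D.π' a z) := by
  rw [D.π'_mul]; rfl

theorem comm_apply (a b : A) (z : K) : D.π a (D.π' b z) = D.π' b (D.π a z) :=
  congrArg (fun T : K →L[ℂ] K => T z) (D.comm a b)

variable {D}

theorem Com.one : D.Com 1 1 := ⟨by simp, by rw [D.π'_one, S.R_one]⟩

theorem Com.mul {x x' : A} {y y' : B} (h : D.Com x y) (h' : D.Com x' y') :
    D.Com (x * x') (y * y') :=
  ⟨by rw [map_mul, map_mul, h.1, h'.1], by rw [D.π'_mul, S.R_mul, h.2, h'.2]⟩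

theorem Com.add {x x' : A} {y y' : B} (h : D.Com x y) (h' : D.Com x' y') :
    D.Com (x + x') (y + y') :=
  ⟨by rw [map_add, map_add, h.1, h'.1], by rw [map_add, map_add, h.2, h'.2]⟩

theorem Com.sub {x x' : A} {y y' : B} (h : D.Com x y) (h' : D.Com x' y') :
    D.Com (x - x') (y - y') :=
  ⟨by rw [map_sub, map_sub, h.1, h'.1], by rw [map_sub, map_sub, h.2, h'.2]⟩

theorem Com.smul {x : A} {y : B} (h : D.Com x y) (c : ℂ) : D.Com (c • x) (c • y) :=
  ⟨by rw [map_smul, map_smul, h.1], by rw [map_smul, map_smul, h.2]⟩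

theorem Com.unique {x : A} {y y' : B} (h : D.Com x y) (h' : D.Com x y') : y = y' :=
  S.L_injective (h.1.symm.trans h'.1)

/-- `π x` commutes with `R y` for a common `y`. -/
theorem Com.π_R {x : A} {y : B} (h : D.Com x y) (a : A) (z : K) :
    D.π a (S.R y z) = S.R y (D.π a z) := by rw [← h.2, D.comm_apply]

/-- `π x` commutes with `R b` for a common `x`. -/
theorem Com.R_π {x : A} {y : B} (h : D.Com x y) (b : B) (z : K) :
    D.π x (S.R b z) = S.R b (D.π x z) := by rw [h.1, S.comm_apply]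

theorem Com.Φ_left {x : A} {y : B} (h : D.Com x y) (b : B) : D.Φ x b = 0 := by
  rw [Φ, ← S.R_ξ, h.R_π, sub_self]

theorem Com.Φ_right {x : A} {y : B} (h : D.Com x y) (a : A) : D.Φ a y = 0 := by
  rw [Φ, ← S.R_ξ, h.π_R, sub_self]

variable (D)

theorem Φ_add_left (x x' : A) (y : B) : D.Φ (x + x') y = D.Φ x y + D.Φ x' y := by
  simp only [Φ, map_add, add_apply]; abel

theorem Φ_add_right (x : A) (y y' : B) : D.Φ x (y + y') = D.Φ x y + D.Φ x y' := by
  simp only [Φ, map_add, add_apply]; abel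

theorem Φ_smul_left (c : ℂ) (x : A) (y : B) : D.Φ (c • x) y = c • D.Φ x y := by
  simp only [Φ, map_smul, smul_apply, smul_sub]

theorem Φ_smul_right (c : ℂ) (x : A) (y : B) : D.Φ x (c • y) = c • D.Φ x y := by
  simp only [Φ, map_smul, smul_apply, smul_sub]

/-- `Φ` as a bilinear map. -/
noncomputable def Φₗ : A →ₗ[ℂ] B →ₗ[ℂ] K :=
  LinearMap.mk₂ ℂ D.Φ D.Φ_add_left D.Φ_smul_left D.Φ_add_right D.Φ_smul_right

theorem Φₗ_apply (x : A) (y : B) : D.Φₗ x y = D.Φ x y := rfl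

theorem Φ_sub_right (x : A) (y y' : B) : D.Φ x (y - y') = D.Φ x y - D.Φ x y' :=
  map_sub (D.Φₗ x) y y'

/-- `Ψ k` as a bilinear map. -/
noncomputable def Ψₗ (k : K →L[ℂ] K) : A →ₗ[ℂ] B →ₗ[ℂ] K :=
  LinearMap.mk₂ ℂ (D.Ψ k) (fun _ _ _ => by simp only [Ψ, map_add, add_apply]; abel)
    (fun _ _ _ => by simp only [Ψ, map_smul, smul_apply, smul_sub, smul_add])
    (fun _ _ _ => by simp only [Ψ, map_add, add_apply]; abel)
    (fun _ _ _ => by simp only [Ψ, map_smul, smul_apply, smul_sub, smul_add])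

theorem Ψₗ_apply (k : K →L[ℂ] K) (x : A) (y : B) : D.Ψₗ k x y = D.Ψ k x y := rfl

/-- the operator norm of the commutator. -/
theorem norm_comm_le (x : A) (y : B) (z : K) :
    ‖D.π x (S.R y z) - S.R y (D.π x z)‖ ≤ 2 * γ * ‖x‖ * ‖y‖ * ‖z‖ := by
  obtain ⟨x', -, h, -⟩ := D.partA x
  have e : D.π x (S.R y z) - S.R y (D.π x z) =
      (D.π x - S.L x') (S.R y z) - S.R y ((D.π x - S.L x') z) := by
    simp only [sub_apply, map_sub, S.comm_apply]; abel
  have h1 := ((D.π x - S.L x').le_opNorm (S.R y z)).trans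
    (mul_le_mul h (S.norm_R_apply y z) (norm_nonneg _) ((norm_nonneg _).trans h))
  have h2 := (S.norm_R_apply y ((D.π x - S.L x') z)).trans (mul_le_mul_of_nonneg_left
    (((D.π x - S.L x').le_opNorm z).trans (mul_le_mul_of_nonneg_right h (norm_nonneg _)))
    (norm_nonneg _))
  rw [e]
  refine (norm_sub_le _ _).trans ?_
  nlinarith

end Pre

/-- The setting of the Newton step. -/
structure Core (A : Type v) {B K : Type v} [CStarAlgebra A] [CStarAlgebra B] [NormedAddCommGroup K]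
    [InnerProductSpace ℂ K] [CompleteSpace K] (S : Std B K) (γ η : ℝ) extends Pre A S 2 γ where
  γ_pos : 0 < γ
  γ_le : γ ≤ 1 / 100
  η_pos : 0 < η
  Φ_le : ∀ x y, ‖toPre.Φ x y‖ ≤ η * ‖x‖ * ‖y‖

namespace Core
variable {γ η : ℝ} (C : Core A S γ η)

/-- good partners. -/
structure Good (c : ℝ) (x : A) (y : B) : Prop where
  nx : ‖x‖ ≤ c
  ny : ‖y‖ ≤ c
  l : ‖C.π x - S.L y‖ ≤ c * γ
  r : ‖C.π' x - S.R y‖ ≤ c * γ
  v : ‖C.π x S.ξ - S.hat y‖ ≤ c * η

theorem norm_π_apply (a : A) (z : K) : ‖C.π a z‖ ≤ 2 * ‖a‖ * ‖z‖ :=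
  ((C.π a).le_opNorm z).trans (mul_le_mul_of_nonneg_right (C.norm_π a) (norm_nonneg z))

theorem norm_π'_apply (a : A) (z : K) : ‖C.π' a z‖ ≤ 2 * ‖a‖ * ‖z‖ :=
  ((C.π' a).le_opNorm z).trans (mul_le_mul_of_nonneg_right (C.norm_π' a) (norm_nonneg z))

variable {C}

theorem Good.nonneg {c : ℝ} {x : A} {y : B} (h : C.Good c x y) : 0 ≤ c :=
  (norm_nonneg _).trans h.nx

theorem Good.mono {c d : ℝ} {x : A} {y : B} (h : C.Good c x y) (hcd : c ≤ d) : C.Good d x y :=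
  ⟨h.nx.trans hcd, h.ny.trans hcd, h.l.trans (mul_le_mul_of_nonneg_right hcd C.γ_pos.le),
    h.r.trans (mul_le_mul_of_nonneg_right hcd C.γ_pos.le),
    h.v.trans (mul_le_mul_of_nonneg_right hcd C.η_pos.le)⟩

theorem good_of_com {c : ℝ} {x : A} {y : B} (h : C.Com x y) (hx : ‖x‖ ≤ c) (hy : ‖y‖ ≤ c) :
    C.Good c x y := by
  have hc : 0 ≤ c := (norm_nonneg _).trans hx
  have := C.γ_pos
  have := C.η_pos
  refine ⟨hx, hy, ?_, ?_, ?_⟩
  · rw [h.1, sub_self, norm_zero]; positivity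
  · rw [h.2, sub_self, norm_zero]; positivity
  · rw [h.1, S.L_ξ, sub_self, norm_zero]; positivity

theorem Good.add {c d : ℝ} {x x' : A} {y y' : B} (h : C.Good c x y) (h' : C.Good d x' y') :
    C.Good (c + d) (x + x') (y + y') := by
  refine ⟨(norm_add_le _ _).trans (add_le_add h.nx h'.nx),
    (norm_add_le _ _).trans (add_le_add h.ny h'.ny), ?_, ?_, ?_⟩
  · rw [map_add, map_add, add_sub_add_comm, add_mul]
    exact (norm_add_le _ _).trans (add_le_add h.l h'.l)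
  · rw [map_add, map_add, add_sub_add_comm, add_mul]
    exact (norm_add_le _ _).trans (add_le_add h.r h'.r)
  · rw [map_add, map_add, add_apply, add_sub_add_comm, add_mul]
    exact (norm_add_le _ _).trans (add_le_add h.v h'.v)

theorem Good.smul {c : ℝ} {x : A} {y : B} (h : C.Good c x y) (t : ℂ) :
    C.Good (‖t‖ * c) (t • x) (t • y) := by
  refine ⟨?_, ?_, ?_, ?_, ?_⟩
  · rw [norm_smul]; exact mul_le_mul_of_nonneg_left h.nx (norm_nonneg _)
  · rw [norm_smul]; exact mul_le_mul_of_nonneg_left h.ny (norm_nonneg _)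
  · rw [map_smul, map_smul, ← smul_sub, norm_smul, mul_assoc]
    exact mul_le_mul_of_nonneg_left h.l (norm_nonneg _)
  · rw [map_smul, map_smul, ← smul_sub, norm_smul, mul_assoc]
    exact mul_le_mul_of_nonneg_left h.r (norm_nonneg _)
  · rw [map_smul, map_smul, smul_apply, ← smul_sub, norm_smul, mul_assoc]
    exact mul_le_mul_of_nonneg_left h.v (norm_nonneg _)

theorem Good.mul {c d : ℝ} {x x' : A} {y y' : B} (h : C.Good c x y) (h' : C.Good d x' y') :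
    C.Good (4 * c * d) (x * x') (y * y') := by
  have hc := h.nonneg
  have hd := h'.nonneg
  have hγ := C.γ_pos
  have hη := C.η_pos
  have hcd : 0 ≤ c * d := mul_nonneg hc hd
  have n1 : ‖C.π x‖ ≤ 2 * c := (C.norm_π x).trans (by linarith [h.nx])
  have n2 : ‖C.π' x'‖ ≤ 2 * d := (C.norm_π' x').trans (by linarith [h'.nx])
  refine ⟨(norm_mul_le_of_le h.nx h'.nx).trans (by linarith),
    (norm_mul_le_of_le h.ny h'.ny).trans (by linarith), ?_, ?_, ?_⟩
  · rw [map_mul, map_mul, show C.π x * C.π x' - S.L y * S.L y' =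
      C.π x * (C.π x' - S.L y') + (C.π x - S.L y) * S.L y' by noncomm_ring]
    have := norm_mul_le_of_le n1 h'.l
    have := norm_mul_le_of_le h.l ((S.norm_L y').trans_le h'.ny)
    refine (norm_add_le _ _).trans ?_
    nlinarith [mul_nonneg hcd hγ.le]
  · rw [C.π'_mul, S.R_mul, show C.π' x' * C.π' x - S.R y' * S.R y =
      C.π' x' * (C.π' x - S.R y) + (C.π' x' - S.R y') * S.R y by noncomm_ring]
    have := norm_mul_le_of_le n2 h.r
    have := norm_mul_le_of_le h'.r ((S.norm_R y).trans h.ny)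
    refine (norm_add_le _ _).trans ?_
    nlinarith [mul_nonneg hcd hγ.le]
  · have e : C.π (x * x') S.ξ - S.hat (y * y') = C.π x (C.π x' S.ξ - S.hat y') + C.Φ x y' +
        S.R y' (C.π x S.ξ - S.hat y) := by
      rw [C.π_mul_apply, Pre.Φ, map_sub, map_sub, S.R_hat]; abel
    have h1 := ((C.π x).le_opNorm (C.π x' S.ξ - S.hat y')).trans
      (mul_le_mul n1 h'.v (norm_nonneg _) (by positivity))
    have h2 := (C.Φ_le x y').trans (mul_le_mul (mul_le_mul_of_nonneg_left h.nx hη.le) h'.ny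
      (norm_nonneg _) (by positivity))
    have h3 := (S.norm_R_apply y' (C.π x S.ξ - S.hat y)).trans
      (mul_le_mul h'.ny h.v (norm_nonneg _) hd)
    rw [e]
    refine (norm_add₃_le).trans ?_
    nlinarith

/-- two partners of one element are close. -/
theorem norm_sub_le_of_partner {x : A} {y y' : B} {s t : ℝ} (h : ‖C.π x - S.L y‖ ≤ s)
    (h' : ‖C.π x - S.L y'‖ ≤ t) : ‖y - y'‖ ≤ s + t := by
  rw [← S.norm_L, map_sub, show S.L y - S.L y' = (C.π x - S.L y') - (C.π x - S.L y) by abel]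
  exact (norm_sub_le _ _).trans (by linarith)

end Core

/-- A symmetry `a` flipping a projection `e`, both common. -/
structure Flip {ν γ : ℝ} (D : Pre A S ν γ) (a e : A) (a' e' : B) : Prop where
  star_a : star a = a
  a_sq : a * a = 1
  proj : IsStarProjection e
  flip : a * e * a = 1 - e
  com_a : D.Com a a'
  com_e : D.Com e e'
  norm_a' : ‖a'‖ ≤ 1
  norm_e' : ‖e'‖ ≤ 1
  norm_f' : ‖1 - e'‖ ≤ 1

namespace Flip
variable {ν γ : ℝ} {D : Pre A S ν γ} {a e : A} {a' e' : B} (F : Flip D a e a' e')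
include F

theorem a'_sq : a' * a' = 1 := (F.com_a.mul F.com_a).unique (F.a_sq ▸ Pre.Com.one)

theorem e_sq : e * e = e := F.proj.isIdempotentElem

theorem star_e : star e = e := F.proj.isSelfAdjoint

theorem e'_sq : e' * e' = e' := (F.com_e.mul F.com_e).unique (F.e_sq.symm ▸ F.com_e)

theorem com_f : D.Com (1 - e) (1 - e') := Pre.Com.one.sub F.com_e

theorem flip' : a' * e' * a' = 1 - e' :=
  ((F.com_a.mul F.com_e).mul F.com_a).unique (F.flip.symm ▸ F.com_f)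

theorem a_e : a * e = (1 - e) * a := by rw [← F.flip, mul_assoc, F.a_sq, mul_one]

theorem e_a : e * a = a * (1 - e) := by
  rw [← F.flip, ← mul_assoc, ← mul_assoc, F.a_sq, one_mul]

theorem a'_e' : a' * e' = (1 - e') * a' := by rw [← F.flip', mul_assoc, F.a'_sq, mul_one]

theorem e'_a' : e' * a' = a' * (1 - e') := by
  rw [← F.flip', ← mul_assoc, ← mul_assoc, F.a'_sq, one_mul]

end Flip

/-- the corner form of the double commutator. -/
noncomputable def Pre.Ψ₀ {ν γ : ℝ} (D : Pre A S ν γ) (e : A) (a' e' : B) (k : K →L[ℂ] K) (x : A)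
    (y : B) : K :=
  D.π x (k (S.hat y)) - D.π e (k (D.π x (S.hat y))) - S.R (a' * y) (D.π x (k (S.hat (e' * a')))) +
    S.R (a' * y) (D.π e (k (D.π x (S.hat (e' * a')))))

/-- `u` is a unitary of the corner and `v` an isometry between the two corners. -/
def Valid (e u v : A) : Prop :=
  star u * u = e ∧ u * star u = e ∧ star v * v = 1 - e ∧ v * star v = e

end Pool.Agent.MP_890ef7_an.KK

end

section

/-! The statements of the steps of the proof. -/

open scoped InnerProductSpace ComplexOrder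
open Filter Topology

namespace Pool.Agent.MP_890ef7_an.KK

universe v w

/-- the unitary `(u + l f) (c + s (m v - conj m v*))`, expanded. -/
noncomputable def wun {A : Type*} [Ring A] [StarRing A] [Module ℂ A] (e u v : A) (l m : ℂ) : A :=
  (3 / 5 : ℂ) • u + (4 / 5 * m) • (u * v) + (3 / 5 * l) • (1 - e) -
    (4 / 5 * l * (starRingEnd ℂ) m) • star v

/-- the shape of the adjoint of `wun`. -/
noncomputable def wad {B : Type*} [AddCommGroup B] [Module ℂ B] (f p q v : B) (l m : ℂ) : B :=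
  (3 / 5 : ℂ) • p + (4 / 5 * (starRingEnd ℂ) m) • q + (3 / 5 * (starRingEnd ℂ) l) • f -
    (4 / 5 * (starRingEnd ℂ) l * m) • v

/-- admissible states of the iteration. -/
def Adm {A B K Γ : Type v} [CStarAlgebra A] [CStarAlgebra B] [NormedAddCommGroup K]
    [InnerProductSpace ℂ K] [CompleteSpace K] [Group Γ] {S : Std B K} {ν γ : ℝ} (D : Pre A S ν γ)
    (ρ : Γ →* unitary B) (P : (K →L[ℂ] K)ˣ) (η : ℝ) : Prop :=
  (P : K →L[ℂ] K) S.ξ = S.ξ ∧ (∀ g, P * S.L (ρ g) = S.L (ρ g) * P) ∧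
    (∀ g, P * S.R (ρ g) = S.R (ρ g) * P) ∧
    ∀ x y, ‖(P * D.π x * ↑P⁻¹ : K →L[ℂ] K) (S.hat y) -
      S.R y ((P * D.π x * ↑P⁻¹ : K →L[ℂ] K) S.ξ)‖ ≤ η * ‖x‖ * ‖y‖

/-- weak operator continuity on the unit ball. -/
def Nrm {A K : Type v} {E : Type w} [CStarAlgebra A] [NormedAddCommGroup K] [InnerProductSpace ℂ K]
    [CompleteSpace K] [NormedAddCommGroup E] [InnerProductSpace ℂ E] (S : Std A K)
    (l : A → E →L[ℂ] E) : Prop :=
  ∀ (f : Filter A) (y : A), (∀ᶠ x in f, ‖x‖ ≤ 1) →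
    (∀ z w : K, Tendsto (fun x => ⟪z, S.L x w⟫_ℂ) f (𝓝 ⟪z, S.L y w⟫_ℂ)) →
    ∀ z w : E, Tendsto (fun x => ⟪z, l x w⟫_ℂ) f (𝓝 ⟪z, l y w⟫_ℂ)

/-- square root near one. -/
def PSqrt : Prop :=
  ∀ {A : Type v} [CStarAlgebra A] (a : A) (δ : ℝ), star a = a → ‖a - 1‖ ≤ δ → δ ≤ 1 / 2 →
    ∃ q q' : A, star q = q ∧ star q' = q' ∧ q * q = a ∧ q * q' = 1 ∧ q' * q = 1 ∧ ‖q - 1‖ ≤ δ ∧
      ‖q' - 1‖ ≤ 2 * δ

/-- polar part near an almost unitary. -/
def PPolar : Prop :=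
  ∀ {A : Type v} [CStarAlgebra A] (x : A) (δ : ℝ), ‖star x * x - 1‖ ≤ δ → ‖x * star x - 1‖ ≤ δ →
    δ ≤ 1 / 2 → ∃ u : unitary A, ‖(u : A) - x‖ ≤ δ

/-- truncation. -/
def PTrunc : Prop :=
  ∀ {A K : Type v} [CStarAlgebra A] [NormedAddCommGroup K] [InnerProductSpace ℂ K] [CompleteSpace K]
    (S : Std A K) (Q : StarSubalgebra ℂ A), IsClosed (Q : Set A) → ∀ a ∈ Q, ∀ t : ℝ, 0 < t →
    ∃ y ∈ Q, ‖y‖ ≤ 1 ∧ ‖a - a * y‖ ≤ t ∧ t * ‖S.hat y‖ ≤ ‖S.hat (a * y)‖ ∧
      t * ‖S.hat (a * y)‖ ≤ ‖S.hat (star a * a)‖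

/-- almost bounded vectors are near bounded vectors. -/
def PGP : Prop :=
  ∀ {A K : Type v} [CStarAlgebra A] [NormedAddCommGroup K] [InnerProductSpace ℂ K] [CompleteSpace K]
    (S : Std A K) (Q : StarSubalgebra ℂ A), IsClosed (Q : Set A) →
    ∀ z ∈ closure (S.hat '' (Q : Set A)), ∀ γ η ε : ℝ, 0 < γ → 0 ≤ η → 0 < ε →
    (∀ y ∈ Q, ‖S.R y z‖ ≤ γ * ‖S.hat y‖ + η * ‖y‖) →
    ∃ b ∈ Q, ‖b‖ ≤ 2 * γ ∧ ‖z - S.hat b‖ ≤ 2 * η + ε

/-- commutation theorem. -/
def PWstar : Prop :=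
  ∀ {A K : Type v} [CStarAlgebra A] [NormedAddCommGroup K] [InnerProductSpace ℂ K] [CompleteSpace K]
    (S : Std A K) (X : K →L[ℂ] K), (∀ b, X * S.R b = S.R b * X) → ∃ a, S.L a = X

/-- weak limits of bounded sequences. -/
def PWlim : Prop :=
  ∀ {A K : Type v} [CStarAlgebra A] [NormedAddCommGroup K] [InnerProductSpace ℂ K] [CompleteSpace K]
    (S : Std A K) (a : ℕ → A) (c : ℝ), (∀ n, ‖a n‖ ≤ c) → ∃ b : A, ‖b‖ ≤ c ∧
    ∀ z w : K, Tendsto (fun n => ⟪z, S.L (a n) w⟫_ℂ) (ω : Filter ℕ) (𝓝 ⟪z, S.L b w⟫_ℂ)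

/-- range projections. -/
def PRange : Prop :=
  ∀ {A K : Type v} [CStarAlgebra A] [NormedAddCommGroup K] [InnerProductSpace ℂ K] [CompleteSpace K]
    (_S : Std A K) (x : A), ∃ p : A, IsStarProjection p ∧ p * x = x ∧
    (∀ y, y * x = 0 → y * p = 0) ∧ ∀ b, b * x = x * b → star b * x = x * star b → b * p = p * b

/-- ordering principle. -/
def PBB : Prop :=
  ∀ {X : Type v} (r : X → X → Prop) (φ : X → ℝ) (c : ℝ) (x₀ : X), (∀ x, r x x) →
    (∀ x y z, r x y → r y z → r x z) → (∀ x y, r x y → φ x ≤ φ y) → (∀ x, φ x ≤ c) →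
    (∀ s : ℕ → X, (∀ n, r (s n) (s (n + 1))) → ∃ y, ∀ n, r (s n) y) →
    ∃ x, r x₀ x ∧ ∀ y, r x y → φ y ≤ φ x

/-- limits of increasing sequences of isometries on subspaces. -/
def PPlim : Prop :=
  ∀ {A K : Type v} [CStarAlgebra A] [NormedAddCommGroup K] [InnerProductSpace ℂ K] [CompleteSpace K]
    (S : Std A K) (s : ℕ → A), (∀ n, s n * star (s n) * s n = s n) →
    (∀ n, s (n + 1) * (star (s n) * s n) = s n) → ∃ w : A, w * star w * w = w ∧
    (∀ n, w * (star (s n) * s n) = s n) ∧ Tendsto (fun n => S.hat (s n)) atTop (𝓝 (S.hat w))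

/-- two nonzero projections of a factor have equivalent nonzero subprojections. -/
def PLink : Prop :=
  ∀ {A K : Type v} [CStarAlgebra A] [NormedAddCommGroup K] [InnerProductSpace ℂ K] [CompleteSpace K]
    (_S : Std A K), IsFactor A → ∀ p q : A, IsStarProjection p → IsStarProjection q →
    p ≠ 0 → q ≠ 0 → ∃ w : A, w ≠ 0 ∧ w * star w * w = w ∧ w * p = w ∧ q * w = w

/-- comparison. -/
def PComp : Prop :=
  ∀ {A K : Type v} [CStarAlgebra A] [NormedAddCommGroup K] [InnerProductSpace ℂ K] [CompleteSpace K]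
    (S : Std A K), IsFactor A → ∀ p q : A, IsStarProjection p → IsStarProjection q →
    S.τ p = S.τ q → ∃ w : A, star w * w = p ∧ w * star w = q

/-- subprojections of every trace. -/
def PSub : Prop :=
  ∀ {A K : Type v} [CStarAlgebra A] [NormedAddCommGroup K] [InnerProductSpace ℂ K] [CompleteSpace K]
    (S : Std A K), IsDiffuse A → ∀ p : A, IsStarProjection p → ∀ t : ℝ, 0 ≤ t →
    t ≤ (S.τ p).re → ∃ q : A, IsStarProjection q ∧ p * q = q ∧ S.τ q = t

/-- a Pauli pair adapted to a self-adjoint element. -/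
def PMedian : Prop :=
  ∀ {A K : Type v} [CStarAlgebra A] [NormedAddCommGroup K] [InnerProductSpace ℂ K] [CompleteSpace K]
    (S : Std A K) (G : Set A), (∀ g ∈ G, star g ∈ G) → Nice S (Set.centralizer G) →
    ∀ y ∈ Set.centralizer G, star y = y → S.τ y = 0 → ∀ ε : ℝ, 0 < ε →
    ∃ a ∈ Set.centralizer G, ∃ b ∈ Set.centralizer G, IsPauli a b ∧
      ‖S.hat (y + a * y * a)‖ ^ 2 ≤ 2 * ‖S.hat y‖ ^ 2 + ε

/-- comparison passes to the commutant of a Pauli pair. -/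
def PNiceStep : Prop :=
  ∀ {A K : Type v} [CStarAlgebra A] [NormedAddCommGroup K] [InnerProductSpace ℂ K] [CompleteSpace K]
    (S : Std A K) (G : Set A), (∀ g ∈ G, star g ∈ G) → Nice S (Set.centralizer G) →
    ∀ a ∈ Set.centralizer G, ∀ b ∈ Set.centralizer G, IsPauli a b →
    Nice S (Set.centralizer (G ∪ {a, b}))

/-- one step of the tower. -/
def PExt : Prop :=
  ∀ {A K : Type v} [CStarAlgebra A] [NormedAddCommGroup K] [InnerProductSpace ℂ K] [CompleteSpace K]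
    (S : Std A K) (G : Finset (unitary A)), IsGrp G → -1 ∈ G →
    Nice S (Set.centralizer (Subtype.val '' (G : Set (unitary A)))) → ∀ y : A, star y = y →
    ∀ ε : ℝ, 0 < ε → ∃ G' : Finset (unitary A), IsGrp G' ∧ G ⊆ G' ∧
      Nice S (Set.centralizer (Subtype.val '' (G' : Set (unitary A)))) ∧
      (∃ a ∈ G', ∃ b ∈ G', IsPauli (a : A) (b : A)) ∧
      ‖S.hat (avg G' fun g => (g : A) * y * star (g : A)) - S.τ y • S.ξ‖ ^ 2 ≤
        ‖S.hat (avg G fun g => (g : A) * y * star (g : A)) - S.τ y • S.ξ‖ ^ 2 / 2 + ε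

/-- an ergodic tower of finite groups. -/
def PPopa : Prop :=
  ∀ {A K : Type v} [CStarAlgebra A] [NormedAddCommGroup K] [InnerProductSpace ℂ K] [CompleteSpace K]
    (S : Std A K), Nice S Set.univ → TopologicalSpace.SeparableSpace K →
    ∃ (Γ : Subgroup (unitary A)) (T : Tower Γ), Erg S T Γ.subtype ∧
      ∃ a b : Γ, IsPauli ((a : unitary A) : A) ((b : unitary A) : A)

/-- one step of the stability iteration. -/
def PKazStep : Prop :=
  ∀ {A K Γ : Type v} [CStarAlgebra A] [NormedAddCommGroup K] [InnerProductSpace ℂ K] [CompleteSpace K]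
    [Group Γ] (_S : Std A K) (_T : Tower Γ) (r : Γ → unitary A) (δ : ℝ), δ ≤ 1 / 16 →
    (∀ g h, ‖(r (g * h) : A) - r g * r h‖ ≤ δ) → ∃ r' : Γ → unitary A,
      (∀ g h, ‖(r' (g * h) : A) - r' g * r' h‖ ≤ 8 * δ ^ 2) ∧ ∀ g, ‖(r' g : A) - r g‖ ≤ δ + 2 * δ ^ 2

/-- stability of almost representations. -/
def PKaz : Prop :=
  ∀ {A K Γ : Type v} [CStarAlgebra A] [NormedAddCommGroup K] [InnerProductSpace ℂ K] [CompleteSpace K]
    [Group Γ] (_S : Std A K) (_T : Tower Γ) (r : Γ → unitary A) (δ : ℝ), δ ≤ 1 / 16 →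
    (∀ g h, ‖(r (g * h) : A) - r g * r h‖ ≤ δ) →
    ∃ ρ : Γ →* unitary A, ∀ g, ‖(ρ g : A) - r g‖ ≤ 3 * δ

/-- central vectors are scalar. -/
def PFix : Prop :=
  ∀ {A K Γ : Type v} [CStarAlgebra A] [NormedAddCommGroup K] [InnerProductSpace ℂ K] [CompleteSpace K]
    [Group Γ] (S : Std A K) (T : Tower Γ) (j : Γ →* unitary A), Erg S T j → ∀ z : K,
    (∀ g, S.L (j g) z = S.R (j g) z) → z = ⟪S.ξ, z⟫_ℂ • S.ξ

/-- ergodicity from trivial relative commutant. -/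
def PErgOf : Prop :=
  ∀ {A K Γ : Type v} [CStarAlgebra A] [NormedAddCommGroup K] [InnerProductSpace ℂ K] [CompleteSpace K]
    [Group Γ] (S : Std A K) (T : Tower Γ) (j : Γ →* unitary A),
    (∀ z : A, (∀ g, (j g : A) * z = z * j g) → ∃ c : ℂ, z = c • (1 : A)) → Erg S T j

/-- a common ergodic group. -/
def PCommon : Prop :=
  ∀ {A B K K' H Γ : Type v} [CStarAlgebra A] [CStarAlgebra B] [NormedAddCommGroup K] [InnerProductSpace ℂ K] [CompleteSpace K]
    [NormedAddCommGroup K'] [InnerProductSpace ℂ K'] [CompleteSpace K']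
    [NormedAddCommGroup H] [InnerProductSpace ℂ H] [CompleteSpace H] [Group Γ]
    (S : Std A K) (S' : Std B K') (ι : A →⋆ₐ[ℂ] (H →L[ℂ] H)) (ι' : B →⋆ₐ[ℂ] (H →L[ℂ] H))
    (T : Tower Γ) (j : Γ →* unitary A) (γ : ℝ), (∀ x, ‖ι x‖ = ‖x‖) → (∀ y, ‖ι' y‖ = ‖y‖) → 0 ≤ γ →
    γ ≤ 1 / 200 → Close ι ι' γ → WCont S ι → Erg S T j →
    ∃ ρ : Γ →* unitary B, Erg S' T ρ ∧ ∀ g, ‖ι (j g) - ι' (ρ g)‖ ≤ 30 * γ

/-- perturbation of the potential. -/
def PL2a : Prop :=
  ∀ {A K Γ : Type v} [CStarAlgebra A] [NormedAddCommGroup K] [InnerProductSpace ℂ K] [CompleteSpace K]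
    [Group Γ] (S : Std A K) (T : Tower Γ) (j : Γ →* unitary A)
    {K₂ : Type v} [NormedAddCommGroup K₂] [InnerProductSpace ℂ K₂] [CompleteSpace K₂] (X : K →L[ℂ] K₂), Erg S T j →
    (∀ g h x, ‖X (S.hat ((j g : A) * x * j h))‖ = ‖X (S.hat x)‖) →
    ∀ (s x : A) (r δ : ℝ), 0 < δ → ∃ s' : A,
      ‖X (S.hat s)‖ ^ 2 - ‖S.hat (star s * s)‖ ^ 2 +
        r ^ 2 * (‖X (S.hat x)‖ ^ 2 - 4 * ‖S.hat s‖ ^ 2 * ‖S.hat x‖ ^ 2) -
        r ^ 4 * ‖S.hat (star x * x)‖ ^ 2 - δ ≤ ‖X (S.hat s')‖ ^ 2 - ‖S.hat (star s' * s')‖ ^ 2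

/-- an invariant operator small on bounded vectors is small. -/
def PL2 : Prop :=
  ∀ {A K Γ : Type v} [CStarAlgebra A] [NormedAddCommGroup K] [InnerProductSpace ℂ K] [CompleteSpace K]
    [Group Γ] (S : Std A K) (T : Tower Γ) (j : Γ →* unitary A)
    {K₂ : Type v} [NormedAddCommGroup K₂] [InnerProductSpace ℂ K₂] [CompleteSpace K₂] (X : K →L[ℂ] K₂) (σ : ℝ), Erg S T j →
    (∀ g h x, ‖X (S.hat ((j g : A) * x * j h))‖ = ‖X (S.hat x)‖) → 0 ≤ σ →
    (∀ x, ‖X (S.hat x)‖ ≤ σ * ‖x‖) → ‖X‖ ≤ 16 * σ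

/-- the operator of a bounded form. -/
def PForm : Prop :=
  ∀ {A B K K' : Type v} [CStarAlgebra A] [CStarAlgebra B] [NormedAddCommGroup K] [InnerProductSpace ℂ K] [CompleteSpace K]
    [NormedAddCommGroup K'] [InnerProductSpace ℂ K'] [CompleteSpace K'] (S : Std A K) (S' : Std B K') (b : B → A → ℂ) (c : ℝ), 0 ≤ c →
    (∀ y x x', b y (x + x') = b y x + b y x') → (∀ y (t : ℂ) x, b y (t • x) = t * b y x) →
    (∀ y y' x, b (y + y') x = b y x + b y' x) →
    (∀ (t : ℂ) y x, b (t • y) x = (starRingEnd ℂ) t * b y x) →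
    (∀ y x, ‖b y x‖ ≤ c * ‖S'.hat y‖ * ‖S.hat x‖) →
    ∃ X : K →L[ℂ] K', ‖X‖ ≤ c ∧ ∀ y x, ⟪S'.hat y, X (S.hat x)⟫_ℂ = b y x

/-- the intertwiner. -/
def PS1 : Prop :=
  ∀ {A B K K' H Γ : Type v} [CStarAlgebra A] [CStarAlgebra B] [NormedAddCommGroup K] [InnerProductSpace ℂ K] [CompleteSpace K]
    [NormedAddCommGroup K'] [InnerProductSpace ℂ K'] [CompleteSpace K']
    [NormedAddCommGroup H] [InnerProductSpace ℂ H] [CompleteSpace H] [Group Γ]
    (S : Std A K) (S' : Std B K') (ι : A →⋆ₐ[ℂ] (H →L[ℂ] H)) (ι' : B →⋆ₐ[ℂ] (H →L[ℂ] H))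
    (T : Tower Γ) (j : Γ →* unitary A) (ρ : Γ →* unitary B) (δ : ℝ) (z₀ : H), ‖z₀‖ = 1 →
    (∀ x, ‖ι x‖ = ‖x‖) → (∀ y, ‖ι' y‖ = ‖y‖) → WCont S ι → WCont S' ι' → Erg S T j → Erg S' T ρ →
    (∀ g, ‖ι (j g) - ι' (ρ g)‖ ≤ δ) → ∃ X : K →L[ℂ] K', ‖X‖ ≤ 1 ∧
      (∀ g z, X (S.L (j g) z) = S'.L (ρ g) (X z)) ∧ (∀ g z, X (S.R (j g) z) = S'.R (ρ g) (X z)) ∧
      (∀ a a', ‖X ∘L S.L a - S'.L a' ∘L X‖ ≤ ‖ι a - ι' a'‖ + δ * (‖a‖ + ‖a'‖)) ∧
      ‖⟪S'.ξ, X S.ξ⟫_ℂ - 1‖ ≤ 2 * δ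

/-- the intertwiner is almost unitary and almost intertwines the right actions. -/
def PS2a : Prop :=
  ∀ {A B K K' Γ : Type v} [CStarAlgebra A] [CStarAlgebra B] [NormedAddCommGroup K] [InnerProductSpace ℂ K] [CompleteSpace K]
    [NormedAddCommGroup K'] [InnerProductSpace ℂ K'] [CompleteSpace K'] [Group Γ]
    (S : Std A K) (S' : Std B K') (T : Tower Γ) (j : Γ →* unitary A) (ρ : Γ →* unitary B)
    (X : K →L[ℂ] K') (β : ℝ) (r : A → B → ℝ → Prop), 0 ≤ β → Erg S T j → Erg S' T ρ → ‖X‖ ≤ 1 →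
    (∀ g z, X (S.L (j g) z) = S'.L (ρ g) (X z)) → (∀ g z, X (S.R (j g) z) = S'.R (ρ g) (X z)) →
    ‖⟪S'.ξ, X S.ξ⟫_ℂ - 1‖ ≤ β → (∀ x, ∃ y, r x y ‖x‖) → (∀ y, ∃ x, r x y ‖y‖) →
    (∀ x y c, r x y c → r (star x) (star y) c) →
    (∀ x y c, r x y c → ‖x‖ ≤ c ∧ ‖y‖ ≤ c ∧ ‖X ∘L S.L x - S'.L y ∘L X‖ ≤ β * c) →
    ‖X.adjoint ∘L X - 1‖ ≤ 64 * β ∧ ‖X ∘L X.adjoint - 1‖ ≤ 64 * β ∧
      (∃ c : ℂ, X S.ξ = c • S'.ξ) ∧ ∀ x y c, r x y c → ‖X ∘L S.R x - S'.R y ∘L X‖ ≤ 129 * β * c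

/-- the common space. -/
def PS2b : Prop :=
  ∀ {A B K K' : Type v} [CStarAlgebra A] [CStarAlgebra B] [NormedAddCommGroup K] [InnerProductSpace ℂ K] [CompleteSpace K]
    [NormedAddCommGroup K'] [InnerProductSpace ℂ K'] [CompleteSpace K'] (S : Std A K) (S' : Std B K')
    (X : K →L[ℂ] K') (β : ℝ) (r : A → B → ℝ → Prop), 0 ≤ β → β ≤ 1 / 100 → ‖X‖ ≤ 1 →
    ‖X.adjoint ∘L X - 1‖ ≤ β → ‖X ∘L X.adjoint - 1‖ ≤ β → (∃ c : ℂ, X S.ξ = c • S'.ξ) →
    (∀ x, ∃ y, r x y ‖x‖) → (∀ y, ∃ x, r x y ‖y‖) →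
    (∀ x y c, r x y c → ‖x‖ ≤ c ∧ ‖y‖ ≤ c ∧ ‖X ∘L S.L x - S'.L y ∘L X‖ ≤ β * c ∧
      ‖X ∘L S.R x - S'.R y ∘L X‖ ≤ β * c) →
    ∃ (E : K ≃L[ℂ] K') (D : Pre A S' (3 / 2) (2 * β)), (E : K →L[ℂ] K') = X ∧
      (∀ x z, D.π x (X z) = X (S.L x z)) ∧ ∀ x z, D.π' x (X z) = X (S.R x z)

/-- good partners exist. -/
def PGood : Prop :=
  ∀ {A B K : Type v} [CStarAlgebra A] [CStarAlgebra B] [NormedAddCommGroup K] [InnerProductSpace ℂ K] [CompleteSpace K]
    {S : Std B K} {γ η : ℝ} (C : Core A S γ η) (x : A), ‖x‖ ≤ 1 → ∃ y, C.Good 3 x y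

/-- a bounded function on a group is almost constant after averaging. -/
def PMart : Prop :=
  ∀ {G K : Type v} [Group G] [NormedAddCommGroup K] [InnerProductSpace ℂ K] [CompleteSpace K] (f : G → K) (c : ℝ),
    (∀ g, ‖f g‖ ≤ c) → ∀ (W : Finset G) (ε : ℝ), 0 < ε → ∃ (g : G) (m : ℕ) (h : Fin (m + 1) → G) (z : K),
      ∀ w ∈ W, ‖avg Finset.univ (fun i => f (g * w * h i)) - z‖ ≤ ε

/-- the unitaries used for polarisation. -/
def PUnit : Prop :=
  ∀ {A : Type v} [CStarAlgebra A] (e u v : A) (l m : ℂ), IsStarProjection e → Valid e u v →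
    ‖l‖ = 1 → ‖m‖ = 1 → wun e u v l m ∈ unitary A ∧
      star (wun e u v l m) = wad (1 - e) (star u) (star (u * v)) v l m

/-- polarisation. -/
def PPolz : Prop :=
  ∀ {A B K : Type v} [CStarAlgebra A] [CStarAlgebra B] [NormedAddCommGroup K] [InnerProductSpace ℂ K] [CompleteSpace K]
    (Θ : A →ₗ[ℂ] B →ₗ[ℂ] K) (e u v : A) (f' p q v' : B) (z : K) (δ : ℝ),
    (∀ l m : ℂ, l ^ 4 = 1 → m ^ 4 = 1 → ‖Θ (wun e u v l m) (wad f' p q v' l m) - z‖ ≤ δ) →
    ‖Θ u v' - Θ (u * v) f'‖ ≤ 3 * δ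

/-- the shape of the translated commutator. -/
def PShape : Prop :=
  ∀ {A B K : Type v} [CStarAlgebra A] [CStarAlgebra B] [NormedAddCommGroup K] [InnerProductSpace ℂ K] [CompleteSpace K]
    {S : Std B K} {γ η : ℝ} (C : Core A S γ η) (g h : unitary A) (g₀ g₁ h₁ : B), C.Good 3 (g : A) g₀ →
    C.Good 3 (star (g : A)) g₁ → C.Good 3 (star (h : A)) h₁ →
    ∃ (k : K →L[ℂ] K) (F F' : A → K), ‖k‖ ≤ 50 * γ ∧
      (∀ c Z Y, C.Good c Z Y → ‖k (S.hat Y)‖ ≤ 600 * c * η) ∧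
      ∀ X : A, ‖X‖ ≤ 1 → ∀ c Z Y, C.Good c Z Y →
        ‖C.π' g (C.π (star (g : A)) (C.Φ (g * X * h) (h₁ * Y * g₁))) -
          (C.Φ X Y + C.π X (k (S.hat Y)) + S.R Y (F X) + F' (X * Z))‖ ≤ 2000 * c * γ * η

/-- the three function coboundary relation on a finite set. -/
def PRel : Prop :=
  ∀ {A B K : Type v} [CStarAlgebra A] [CStarAlgebra B] [NormedAddCommGroup K] [InnerProductSpace ℂ K] [CompleteSpace K]
    {S : Std B K} {γ η : ℝ} (C : Core A S γ η) (e : A) (f' : B), IsStarProjection e → C.Com (1 - e) f' → ‖f'‖ ≤ 1 →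
    ∀ W : Finset (A × A), ∃ (k : K →L[ℂ] K) (F F' : A → K), ‖k‖ ≤ 50 * γ ∧
      (∀ c Z Y, C.Good c Z Y → ‖k (S.hat Y)‖ ≤ 600 * c * η) ∧
      ∀ p ∈ W, Valid e p.1 p.2 → ∀ v', C.Good 36 p.2 v' →
        ‖C.Φ p.1 v' + C.π p.1 (k (S.hat v')) + S.R v' (F p.1) - F' (p.1 * p.2)‖ ≤ 200000 * γ * η

/-- elimination and weak limit. -/
def PElim : Prop :=
  ∀ {A B K : Type v} [CStarAlgebra A] [CStarAlgebra B] [NormedAddCommGroup K] [InnerProductSpace ℂ K] [CompleteSpace K]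
    {S : Std B K} {γ η : ℝ} (C : Core A S γ η) (a e : A) (a' e' : B), Flip C.toPre a e a' e' →
    ∃ k : K →L[ℂ] K, ‖k‖ ≤ 50 * γ ∧ (∀ c Z Y, C.Good c Z Y → ‖k (S.hat Y)‖ ≤ 600 * c * η) ∧
      ∀ u v v', Valid e u v → C.Good 3 v v' → e' * v' = v' →
        ‖C.Φ u v' + C.Ψ₀ e a' e' k u v'‖ ≤ 2000000 * γ * η

/-- four unitaries of a corner. -/
def PFour : Prop :=
  ∀ {A : Type v} [CStarAlgebra A] (e x : A), IsStarProjection e → e * x = x → x * e = x →
    ∃ (c : Fin 4 → ℂ) (u : Fin 4 → A), (∀ i, ‖c i‖ ≤ ‖x‖ / 2) ∧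
      (∀ i, star (u i) * u i = e ∧ u i * star (u i) = e) ∧ x = ∑ i, c i • u i

/-- the estimate on the corners. -/
def PCorner : Prop :=
  ∀ {A B K : Type v} [CStarAlgebra A] [CStarAlgebra B] [NormedAddCommGroup K] [InnerProductSpace ℂ K] [CompleteSpace K]
    {S : Std B K} {γ η : ℝ} (C : Core A S γ η) (a e : A) (a' e' : B), Flip C.toPre a e a' e' →
    ∀ (k : K →L[ℂ] K) (δ : ℝ), 0 ≤ δ →
    (∀ u v v', Valid e u v → C.Good 3 v v' → e' * v' = v' → ‖C.Φ u v' + C.Ψ₀ e a' e' k u v'‖ ≤ δ) →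
    ∀ x y, e * x = x → x * e = x → e' * y = y → y * (1 - e') = y →
      ‖C.Φ x y + C.Ψ₀ e a' e' k x y‖ ≤ 8 * δ * ‖x‖ * ‖y‖

/-- a modular bilinear map is controlled by its corner. -/
def PModul : Prop :=
  ∀ {A B K : Type v} [CStarAlgebra A] [CStarAlgebra B] [NormedAddCommGroup K] [InnerProductSpace ℂ K] [CompleteSpace K]
    {S : Std B K} {γ η : ℝ} (C : Core A S γ η) (a e : A) (a' e' : B), Flip C.toPre a e a' e' →
    ∀ (f : A →ₗ[ℂ] B →ₗ[ℂ] K) (δ : ℝ), 0 ≤ δ →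
    (∀ x y, f (a * x) y = S.L a' (f x y)) → (∀ x y, f (x * a) y = f x (a' * y)) →
    (∀ x y, f (x * e) y = f x (e' * y)) → (∀ x y, f x (y * a') = S.R a' (f x y)) →
    (∀ x y, e * x = x → x * e = x → e' * y = y → y * (1 - e') = y → ‖f x y‖ ≤ δ * ‖x‖ * ‖y‖) →
    ∀ x y, ‖f x y‖ ≤ 8 * δ * ‖x‖ * ‖y‖

/-- from the corner to the whole algebra. -/
def PSpread : Prop :=
  ∀ {A B K : Type v} [CStarAlgebra A] [CStarAlgebra B] [NormedAddCommGroup K] [InnerProductSpace ℂ K] [CompleteSpace K]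
    {S : Std B K} {γ η : ℝ} (C : Core A S γ η) (a e : A) (a' e' : B), Flip C.toPre a e a' e' →
    ∀ (k : K →L[ℂ] K) (β δ : ℝ), 0 ≤ β → 0 ≤ δ → (∀ Z Y, C.Good 3 Z Y → ‖k (S.hat Y)‖ ≤ β) →
    (∀ x y, e * x = x → x * e = x → e' * y = y → y * (1 - e') = y →
      ‖C.Φ x y + C.Ψ₀ e a' e' k x y‖ ≤ δ * ‖x‖ * ‖y‖) →
    ∃ k' : K →L[ℂ] K, (∀ y, ‖k' (S.hat y)‖ ≤ 8 * β * ‖y‖) ∧
      ∀ x y, ‖C.Φ x y + C.Ψ k' x y‖ ≤ 8 * δ * ‖x‖ * ‖y‖

/-- conjugation by common unitaries. -/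
def PConj : Prop :=
  ∀ {A B K Γ : Type v} [CStarAlgebra A] [CStarAlgebra B] [NormedAddCommGroup K] [InnerProductSpace ℂ K] [CompleteSpace K]
    [Group Γ] {S : Std B K} {γ η : ℝ} (C : Core A S γ η) (j : Γ →* unitary A)
    (ρ : Γ →* unitary B), (∀ g, C.Com (j g) (ρ g)) → ∀ (k : K →L[ℂ] K) (δ : ℝ), 0 ≤ δ →
    (∀ x y, ‖C.Φ x y + C.Ψ k x y‖ ≤ δ * ‖x‖ * ‖y‖) → ∀ g h x y,
      ‖C.Φ x y + C.Ψ (S.L (ρ g) * S.R (ρ h) * k * S.R (ρ h⁻¹) * S.L (ρ g⁻¹)) x y‖ ≤
        2 * δ * ‖x‖ * ‖y‖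

/-- averaging over the common group. -/
def PAvg : Prop :=
  ∀ {A B K Γ : Type v} [CStarAlgebra A] [CStarAlgebra B] [NormedAddCommGroup K] [InnerProductSpace ℂ K] [CompleteSpace K]
    [Group Γ] {S : Std B K} {γ η : ℝ} (C : Core A S γ η) (T : Tower Γ) (j : Γ →* unitary A)
    (ρ : Γ →* unitary B), Erg S T ρ → (∀ g, C.Com (j g) (ρ g)) → ∀ (k : K →L[ℂ] K) (β δ : ℝ),
    0 ≤ β → 0 ≤ δ → (∀ y, ‖k (S.hat y)‖ ≤ β * ‖y‖) →
    (∀ x y, ‖C.Φ x y + C.Ψ k x y‖ ≤ δ * ‖x‖ * ‖y‖) →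
    ∃ k' : K →L[ℂ] K, ‖k'‖ ≤ 32 * β ∧ k' S.ξ = 0 ∧ (∀ g, k' * S.L (ρ g) = S.L (ρ g) * k') ∧
      (∀ g, k' * S.R (ρ g) = S.R (ρ g) * k') ∧ ∀ x y, ‖C.Φ x y + C.Ψ k' x y‖ ≤ 2 * δ * ‖x‖ * ‖y‖

/-- the Newton step. -/
def PNewton : Prop :=
  ∀ {A B K Γ : Type v} [CStarAlgebra A] [CStarAlgebra B] [NormedAddCommGroup K] [InnerProductSpace ℂ K] [CompleteSpace K]
    [Group Γ] {S : Std B K} {γ η : ℝ} (C : Core A S γ η) (T : Tower Γ) (j : Γ →* unitary A)
    (ρ : Γ →* unitary B), Erg S T ρ → (∀ g, C.Com (j g) (ρ g)) →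
    (∃ a b : Γ, IsPauli (j a : A) (j b : A)) →
    ∃ k : K →L[ℂ] K, ‖k‖ ≤ 10 ^ 6 * η ∧ k S.ξ = 0 ∧ (∀ g, k * S.L (ρ g) = S.L (ρ g) * k) ∧
      (∀ g, k * S.R (ρ g) = S.R (ρ g) * k) ∧
      ∀ x y, ‖C.Φ x y + C.Ψ k x y‖ ≤ 10 ^ 9 * γ * η * ‖x‖ * ‖y‖

/-- the conjugated setting. -/
def PMkCore : Prop :=
  ∀ {A B K : Type v} [CStarAlgebra A] [CStarAlgebra B] [NormedAddCommGroup K] [InnerProductSpace ℂ K] [CompleteSpace K]
    {S : Std B K} {γ₀ : ℝ} (D : Pre A S (3 / 2) γ₀) (P : (K →L[ℂ] K)ˣ) (r : ℝ), r ≤ 1 / 100 →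
    ‖(P : K →L[ℂ] K) - 1‖ ≤ r → (P : K →L[ℂ] K) S.ξ = S.ξ →
    ∃ D' : Pre A S 2 (γ₀ + 4 * r), (∀ x, D'.π x = P * D.π x * ↑P⁻¹) ∧
      ∀ x, D'.π' x = P * D.π' x * ↑P⁻¹

/-- one step of the iteration. -/
def PStep : Prop :=
  ∀ {A B K Γ : Type v} [CStarAlgebra A] [CStarAlgebra B] [NormedAddCommGroup K] [InnerProductSpace ℂ K] [CompleteSpace K]
    [Group Γ] {S : Std B K} {γ₀ : ℝ} (D : Pre A S (3 / 2) γ₀) (T : Tower Γ) (j : Γ →* unitary A)
    (ρ : Γ →* unitary B), 0 < γ₀ → γ₀ ≤ 1 / 10 ^ 18 → Erg S T ρ →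
    (∀ g, D.Com (j g) (ρ g)) → (∃ a b : Γ, IsPauli (j a : A) (j b : A)) →
    ∀ (P : (K →L[ℂ] K)ˣ) (η : ℝ), 0 < η → η ≤ 2 * γ₀ → ‖(P : K →L[ℂ] K) - 1‖ ≤ 10 ^ 7 * γ₀ →
    Adm D ρ P η → ∃ P' : (K →L[ℂ] K)ˣ, ‖(P' : K →L[ℂ] K) - P‖ ≤ 2 * 10 ^ 6 * η ∧ Adm D ρ P' (η / 2)

/-- the limit of the iteration. -/
def PIter : Prop :=
  ∀ {A B K Γ : Type v} [CStarAlgebra A] [CStarAlgebra B] [NormedAddCommGroup K] [InnerProductSpace ℂ K] [CompleteSpace K]
    [Group Γ] {S : Std B K} {γ₀ : ℝ} (D : Pre A S (3 / 2) γ₀) (T : Tower Γ) (j : Γ →* unitary A)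
    (ρ : Γ →* unitary B), 0 < γ₀ → γ₀ ≤ 1 / 10 ^ 18 → Erg S T ρ →
    (∀ g, D.Com (j g) (ρ g)) → (∃ a b : Γ, IsPauli (j a : A) (j b : A)) →
    ∃ P : (K →L[ℂ] K)ˣ, ‖(P : K →L[ℂ] K) - 1‖ ≤ 10 ^ 7 * γ₀ ∧
      (∀ x, ∃ y, P * D.π x * ↑P⁻¹ = S.L y) ∧
      ∀ y, ∃ x, ‖P * D.π x * ↑P⁻¹ - S.L y‖ ≤ 1 / 2 * ‖y‖

/-- an operator near one whose square leaves a subspace invariant. -/
def PSq : Prop :=
  ∀ {X : Type v} [NormedAddCommGroup X] [NormedSpace ℂ X] [CompleteSpace X] (V : Submodule ℂ X)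
    (D : X →L[ℂ] X), IsClosed (V : Set X) → ‖D - 1‖ ≤ 1 / 4 → (∀ x ∈ V, D (D x) ∈ V) →
    ∀ x ∈ V, D x ∈ V

/-- surjectivity. -/
def POnto : Prop :=
  ∀ {A B K K' : Type v} [CStarAlgebra A] [CStarAlgebra B] [NormedAddCommGroup K] [InnerProductSpace ℂ K] [CompleteSpace K]
    [NormedAddCommGroup K'] [InnerProductSpace ℂ K'] [CompleteSpace K'] (S : Std A K) (S' : Std B K') (E : K ≃L[ℂ] K'),
    (∀ x, ∃ y, ∀ z, E (S.L x z) = S'.L y (E z)) →
    (∀ y, ∃ x, ‖(E : K →L[ℂ] K') ∘L S.L x ∘L (E.symm : K' →L[ℂ] K) - S'.L y‖ ≤ 1 / 2 * ‖y‖) →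
    ∀ y, ∃ x, ∀ z, E (S.L x z) = S'.L y (E z)

/-- the square root of a normalising positive operator normalises. -/
def PNorml : Prop :=
  ∀ {A K : Type v} [CStarAlgebra A] [NormedAddCommGroup K] [InnerProductSpace ℂ K] [CompleteSpace K]
    (S : Std A K) (a q q' : K →L[ℂ] K), star q = q → star q' = q' →
    q * q = a → q * q' = 1 → q' * q = 1 → ‖q - 1‖ ≤ 1 / 100 → ‖q' - 1‖ ≤ 1 / 50 →
    (∀ x, ∃ x', S.L x * a = a * S.L x') →
    (∀ x, ∃ x', q' * S.L x * q = S.L x') ∧ ∀ x, ∃ x', q * S.L x * q' = S.L x'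

/-- from a similarity to a unitary equivalence. -/
def PUnitary : Prop :=
  ∀ {A B K K' : Type v} [CStarAlgebra A] [CStarAlgebra B] [NormedAddCommGroup K] [InnerProductSpace ℂ K] [CompleteSpace K]
    [NormedAddCommGroup K'] [InnerProductSpace ℂ K'] [CompleteSpace K'] (S : Std A K) (S' : Std B K') (E : K ≃L[ℂ] K'),
    ‖(E : K →L[ℂ] K').adjoint ∘L (E : K →L[ℂ] K') - 1‖ ≤ 1 / 100 →
    (∀ x, ∃ y, ∀ z, E (S.L x z) = S'.L y (E z)) → (∀ y, ∃ x, ∀ z, E (S.L x z) = S'.L y (E z)) →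
    ∃ (θ : A ≃⋆ₐ[ℂ] B) (U : K ≃ₗᵢ[ℂ] K'), ∀ x z, U (S.L x z) = S'.L (θ x) (U z)

/-- the standard form, without closedness. -/
def PGns0 : Prop :=
  ∀ {H : Type v} [NormedAddCommGroup H] [InnerProductSpace ℂ H] [CompleteSpace H] (M : VonNeumannAlgebra H)
    (τ : (H →L[ℂ] H) → ℂ), IsTraceOn M τ →
    ∃ (A K : Type v) (_ : CStarAlgebra A) (_ : NormedAddCommGroup K) (_ : InnerProductSpace ℂ K)
      (_ : CompleteSpace K) (ι : A →⋆ₐ[ℂ] (H →L[ℂ] H)) (L : A →⋆ₐ[ℂ] (K →L[ℂ] K))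
      (R : A →ₗ[ℂ] (K →L[ℂ] K)) (ξ : K), (∀ x, ‖ι x‖ = ‖x‖) ∧ (∀ x, x ∈ M ↔ ∃ a, ι a = x) ∧
      R 1 = 1 ∧ (∀ a b, R (a * b) = R b * R a) ∧ (∀ a, R (star a) = star (R a)) ∧
      (∀ a b, L a * R b = R b * L a) ∧ (∀ a, L a ξ = R a ξ) ∧ (DenseRange fun a => L a ξ) ∧
      (∀ a, ‖L a‖ = ‖a‖) ∧ (∀ a, ‖R a‖ ≤ ‖a‖) ∧ ∀ a, ⟪ξ, L a ξ⟫_ℂ = τ (ι a)

/-- the standard form. -/
def PGns : Prop :=
  ∀ {H : Type v} [NormedAddCommGroup H] [InnerProductSpace ℂ H] [CompleteSpace H] (M : VonNeumannAlgebra H)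
    (τ : (H →L[ℂ] H) → ℂ), IsTraceOn M τ →
    ∃ (A K : Type v) (_ : CStarAlgebra A) (_ : NormedAddCommGroup K) (_ : InnerProductSpace ℂ K)
      (_ : CompleteSpace K) (ι : A →⋆ₐ[ℂ] (H →L[ℂ] H)) (S : Std A K),
      (∀ x, ‖ι x‖ = ‖x‖) ∧ (∀ x, x ∈ M ↔ ∃ a, ι a = x) ∧ Linked S ι

/-- compressions of operators commuting with a subalgebra. -/
def PSep1 : Prop :=
  ∀ {A K : Type v} [CStarAlgebra A] [NormedAddCommGroup K] [InnerProductSpace ℂ K] [CompleteSpace K]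
    (S : Std A K) (Q : StarSubalgebra ℂ A) (P Y : K →L[ℂ] K),
    IsClosed (Q : Set A) → IsStarProjection P → (∀ z, P z = z ↔ z ∈ closure (S.hat '' (Q : Set A))) →
    (∀ q ∈ Q, Y * S.R q = S.R q * Y) → ∃ c : A, S.L c * P = P * Y * P ∧ P * S.L c = P * Y * P

/-- factorisation of the compressed Gram matrix. -/
def PSepF : Prop :=
  ∀ {A K : Type v} [CStarAlgebra A] [NormedAddCommGroup K] [InnerProductSpace ℂ K] [CompleteSpace K]
    (S : Std A K) (Q : StarSubalgebra ℂ A) (P : K →L[ℂ] K),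
    IsClosed (Q : Set A) → IsStarProjection P → (∀ z, P z = z ↔ z ∈ closure (S.hat '' (Q : Set A))) →
    ∀ (n : ℕ) (a : Fin n → A), ∃ c : Fin n → Fin n → A,
      ∀ i j, P (S.hat (star (a i) * a j)) = ∑ l, S.hat (star (c l i) * c l j)

/-- positivity of the kernel. -/
def PSep2 : Prop :=
  ∀ {A K : Type v} [CStarAlgebra A] [NormedAddCommGroup K] [InnerProductSpace ℂ K] [CompleteSpace K]
    (S : Std A K) (Q : StarSubalgebra ℂ A) (P : K →L[ℂ] K),
    IsClosed (Q : Set A) → IsStarProjection P → (∀ z, P z = z ↔ z ∈ closure (S.hat '' (Q : Set A))) →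
    (Matrix.of fun p q : A × A =>
      ⟪P (S.hat (p.2 * star q.2)), S.hat (star p.1 * q.1)⟫_ℂ).PosSemidef

/-- the bimodule of the kernel. -/
def PSep3 : Prop :=
  ∀ {A K : Type v} [CStarAlgebra A] [NormedAddCommGroup K] [InnerProductSpace ℂ K] [CompleteSpace K]
    (S : Std A K) (P : K →L[ℂ] K), IsStarProjection P →
    (Matrix.of fun p q : A × A =>
      ⟪P (S.hat (p.2 * star q.2)), S.hat (star p.1 * q.1)⟫_ℂ).PosSemidef →
    ∃ (E : Type v) (_ : NormedAddCommGroup E) (_ : InnerProductSpace ℂ E) (_ : CompleteSpace E)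
      (w : A × A → E) (l : A →⋆ₐ[ℂ] (E →L[ℂ] E)) (r : A →ₗ[ℂ] (E →L[ℂ] E)),
      (∀ p q, ⟪w p, w q⟫_ℂ = ⟪P (S.hat (p.2 * star q.2)), S.hat (star p.1 * q.1)⟫_ℂ) ∧
      DenseRange (Finsupp.linearCombination ℂ w) ∧ (∀ x p, l x (w p) = w (x * p.1, p.2)) ∧
      (∀ x p, r x (w p) = w (p.1, p.2 * x)) ∧ (∀ x, r (star x) = star (r x)) ∧ r 1 = 1 ∧
      (∀ x y, r (x * y) = r y * r x) ∧ (∀ x y, l x * r y = r y * l x) ∧
      (∀ x, ‖l x‖ ≤ ‖x‖) ∧ ∀ x, ‖r x‖ ≤ ‖x‖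

/-- a bimodule over the abstract algebra is a bimodule over the von Neumann algebra. -/
def PBimod : Prop :=
  ∀ {H A K : Type v} [NormedAddCommGroup H] [InnerProductSpace ℂ H] [CompleteSpace H] [CStarAlgebra A]
    [NormedAddCommGroup K] [InnerProductSpace ℂ K] [CompleteSpace K] (M : VonNeumannAlgebra H)
    (S : Std A K) (ι : A →⋆ₐ[ℂ] (H →L[ℂ] H)), (∀ x, ‖ι x‖ = ‖x‖) → (∀ x, x ∈ M ↔ ∃ a, ι a = x) →
    Linked S ι → ∀ {E : Type w} [NormedAddCommGroup E] [InnerProductSpace ℂ E] [CompleteSpace E]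
    (l r : A →ₗ[ℂ] (E →L[ℂ] E)), l 1 = 1 → r 1 = 1 → (∀ x, l (star x) = star (l x)) →
    (∀ x, r (star x) = star (r x)) → (∀ x y, l (x * y) = l x * l y) →
    (∀ x y, r (x * y) = r y * r x) → (∀ x y, l x * r y = r y * l x) → Nrm S l → Nrm S r →
    ∃ l' r' : (H →L[ℂ] H) → E →L[ℂ] E, IsBimodule M l' r' ∧ (∀ x, l' (ι x) = l x) ∧
      ∀ x, r' (ι x) = r x

/-- normality of the bimodule of the kernel. -/
def PSep4 : Prop :=
  ∀ {A K : Type v} [CStarAlgebra A] [NormedAddCommGroup K] [InnerProductSpace ℂ K] [CompleteSpace K]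
    (S : Std A K) (P : K →L[ℂ] K), IsStarProjection P →
    ∀ {E : Type v} [NormedAddCommGroup E] [InnerProductSpace ℂ E] [CompleteSpace E]
      (w : A × A → E) (l : A →⋆ₐ[ℂ] (E →L[ℂ] E)) (r : A →ₗ[ℂ] (E →L[ℂ] E)),
      (∀ p q, ⟪w p, w q⟫_ℂ = ⟪P (S.hat (p.2 * star q.2)), S.hat (star p.1 * q.1)⟫_ℂ) →
      DenseRange (Finsupp.linearCombination ℂ w) → (∀ x p, l x (w p) = w (x * p.1, p.2)) →
      (∀ x p, r x (w p) = w (p.1, p.2 * x)) → (∀ x, ‖l x‖ ≤ ‖x‖) → (∀ x, ‖r x‖ ≤ ‖x‖) →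
      Nrm S l ∧ Nrm S r

/-- property (T) gives separability. -/
def PSep : Prop :=
  ∀ {H A K : Type v} [NormedAddCommGroup H] [InnerProductSpace ℂ H] [CompleteSpace H] [CStarAlgebra A]
    [NormedAddCommGroup K] [InnerProductSpace ℂ K] [CompleteSpace K] (M : VonNeumannAlgebra H)
    (S : Std A K) (ι : A →⋆ₐ[ℂ] (H →L[ℂ] H)), (∀ x, ‖ι x‖ = ‖x‖) → (∀ x, x ∈ M ↔ ∃ a, ι a = x) →
    Linked S ι → HasT.{v, v} M → TopologicalSpace.SeparableSpace K

/-- transport of property (T). -/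
def PTransfer : Prop :=
  ∀ {H A B K K' : Type v} [NormedAddCommGroup H] [InnerProductSpace ℂ H] [CompleteSpace H] [CStarAlgebra A]
    [CStarAlgebra B] [NormedAddCommGroup K] [InnerProductSpace ℂ K] [CompleteSpace K]
    [NormedAddCommGroup K'] [InnerProductSpace ℂ K'] [CompleteSpace K'] (M N : VonNeumannAlgebra H)
    (S : Std A K) (S' : Std B K') (ι : A →⋆ₐ[ℂ] (H →L[ℂ] H)) (ι' : B →⋆ₐ[ℂ] (H →L[ℂ] H))
    (θ : A ≃⋆ₐ[ℂ] B) (U : K ≃ₗᵢ[ℂ] K'), (∀ x, ‖ι x‖ = ‖x‖) → (∀ x, x ∈ M ↔ ∃ a, ι a = x) →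
    Linked S ι → (∀ x, ‖ι' x‖ = ‖x‖) → (∀ x, x ∈ N ↔ ∃ a, ι' a = x) → Linked S' ι' →
    (∀ x z, U (S.L x z) = S'.L (θ x) (U z)) → HasT.{v, w} M → HasT.{v, w} N

end Pool.Agent.MP_890ef7_an.KK

end

section

open scoped InnerProductSpace ComplexOrder
open Filter Topology

namespace Pool.Agent.MP_890ef7_an.KK

universe v w

namespace BBJ

variable {A : Type v} [CStarAlgebra A]

theorem star_mul_eq {a b : A} (ha : a * star a * a = a) (hb : b * star b * b = b)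
    (h : a * (star b * b) = b) : star a * b = star b * b := by
  have h1 : a * (star a * b) = b := by
    conv_lhs => rw [← h, ← mul_assoc, ← mul_assoc, ha, h]
  have h2 : b * (star a * b) = b := by
    have h3 : star b * b * star a = star b := by
      simpa only [star_mul, star_star] using congrArg star h
    conv_lhs => rw [← hb]
    calc b * star b * b * (star a * (b * star b * b))
        = b * (star b * b * star a) * (b * star b * b) := by simp only [mul_assoc]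
      _ = b := by rw [h3, hb, hb]
  have h3 : b * (star b * b) = b := by rw [← mul_assoc, hb]
  rw [← sub_eq_zero, ← CStarRing.star_mul_self_eq_zero_iff]
  simp only [star_sub, star_mul, star_star, sub_mul, mul_sub, mul_assoc, h, h1, h2, h3, sub_self]

theorem norm_le {a : A} (ha : a * star a * a = a) : ‖a‖ ≤ 1 := by
  have h1 : star (star a * a) * (star a * a) = star a * a := by
    rw [star_mul, star_star, mul_assoc, ← mul_assoc a, ha]
  have h2 := CStarRing.norm_star_mul_self (x := star a * a)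
  rw [h1, CStarRing.norm_star_mul_self] at h2
  by_contra h
  have h3 : 1 < ‖a‖ * ‖a‖ := one_lt_mul_of_lt_of_le (not_le.1 h) (not_le.1 h).le
  nlinarith

end BBJ

theorem BB_pf :
    PBB.{v} := by
  intro X r φ c x₀ h1 h2 h3 h4 h5
  have key : ∀ (x : X) (n : ℕ), ∃ x', r x x' ∧ ∀ y, r x y → φ y ≤ φ x' + 1 / ((n : ℝ) + 1) := by
    intro x n
    have hb : BddAbove (φ '' {y | r x y}) := ⟨c, by rintro _ ⟨y, -, rfl⟩; exact h4 y⟩
    obtain ⟨_, ⟨x', hx, rfl⟩, h⟩ := exists_lt_of_lt_csSup (s := φ '' {y | r x y})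
      ⟨_, x, h1 x, rfl⟩ (sub_lt_self _ (Nat.one_div_pos_of_nat (α := ℝ) (n := n)))
    exact ⟨x', hx, fun y hy => by linarith [le_csSup hb ⟨y, hy, rfl⟩]⟩
  choose f f1 f2 using key
  obtain ⟨y, hy⟩ := h5 (fun n => Nat.rec x₀ (fun n x => f x n) n) fun n => f1 _ n
  refine ⟨y, hy 0, fun z hz => le_of_forall_pos_le_add fun ε hε => ?_⟩
  obtain ⟨n, hn⟩ := exists_nat_one_div_lt hε
  linarith [f2 _ n z (h2 _ _ _ (hy n) hz), h3 (f _ n) y (hy (n + 1))]

theorem Plim_pf :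
    PPlim.{v} := by
  intro A K _ _ _ _ S s h1 h2
  have h3 : ∀ n m, n ≤ m → s m * (star (s n) * s n) = s n := by
    intro n m h
    induction h with
    | refl => rw [← mul_assoc, h1]
    | @step m _ ih =>
      rw [← BBJ.star_mul_eq (h1 m) (h1 n) ih, ← ih, ← mul_assoc (star (s m)), ← mul_assoc, h2, ih]
  have h4 : ∀ n, ‖s n‖ ≤ 1 := fun n => BBJ.norm_le (h1 n)
  have h5 : ∀ n m, n ≤ m →
      ‖S.hat (s n) - S.hat (s m)‖ ^ 2 = ‖S.hat (s m)‖ ^ 2 - ‖S.hat (s n)‖ ^ 2 := by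
    intro n m h
    have e1 := BBJ.star_mul_eq (h1 m) (h1 n) (h3 n m h)
    have e2 : star (s n) * s m = star (s n) * s n := by
      simpa only [star_mul, star_star] using congrArg star e1
    rw [← map_sub, S.norm_hat_sq, S.norm_hat_sq, S.norm_hat_sq, ← Complex.sub_re, ← map_sub]
    congr 2
    simp only [star_sub, sub_mul, mul_sub, e1, e2]
    abel
  have hm : Monotone fun n => ‖S.hat (s n)‖ ^ 2 := fun n m h => by
    have := h5 n m h
    have := sq_nonneg ‖S.hat (s n) - S.hat (s m)‖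
    dsimp only
    linarith
  have hb : BddAbove (Set.range fun n => ‖S.hat (s n)‖ ^ 2) :=
    ⟨1, by
      rintro _ ⟨n, rfl⟩
      exact pow_le_one₀ (norm_nonneg _) ((S.norm_hat_le _).trans (h4 n))⟩
  have hc : CauchySeq fun n => S.hat (s n) := by
    refine cauchySeq_of_le_tendsto_0' (fun n => √((⨆ k, ‖S.hat (s k)‖ ^ 2) - ‖S.hat (s n)‖ ^ 2))
      (fun n m h => ?_) ?_
    · rw [dist_eq_norm]
      refine Real.le_sqrt_of_sq_le ?_
      rw [h5 n m h]
      exact sub_le_sub_right (le_ciSup hb m) _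
    · exact ((tendsto_atTop_ciSup hm hb).const_sub (⨆ k, ‖S.hat (s k)‖ ^ 2)).sqrt.mono_right
        (congrArg 𝓝 ((congrArg _ (sub_self _)).trans Real.sqrt_zero)).le
  obtain ⟨z, hz⟩ := cauchySeq_tendsto_of_complete hc
  obtain ⟨w, rfl, -⟩ := S.exists_of_tendsto (Eventually.of_forall h4) hz
  refine ⟨w, S.hat_injective ?_, fun n => S.hat_injective ?_, hz⟩
  · have t1 := S.tendsto_hat_mul (c := 1) (Eventually.of_forall fun n =>
      (norm_mul_le_of_le (h4 n) ((norm_star _).trans_le (h4 n))).trans_eq (one_mul 1))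
      (S.tendsto_hat_mul (Eventually.of_forall h4) hz (S.tendsto_hat_star hz)) hz
    simp only [h1] at t1
    exact tendsto_nhds_unique t1 hz
  · have t1 := S.tendsto_hat_mul (b := fun _ => star (s n) * s n) (Eventually.of_forall h4) hz
      tendsto_const_nhds
    exact tendsto_nhds_unique t1 (tendsto_const_nhds.congr'
      ((eventually_ge_atTop n).mono fun m hm => by simp only [h3 n m hm]))

end Pool.Agent.MP_890ef7_an.KK

end

section

open scoped InnerProductSpace ComplexOrder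
open Filter Topology

namespace Pool.Agent.MP_890ef7_an.KK

universe v w

namespace BimodJ

theorem star_lin {H A K : Type v} [NormedAddCommGroup H] [InnerProductSpace ℂ H] [CompleteSpace H]
    [CStarAlgebra A] [NormedAddCommGroup K] [InnerProductSpace ℂ K] [CompleteSpace K]
    (M : VonNeumannAlgebra H) (S : Std A K) (ι : A →⋆ₐ[ℂ] (H →L[ℂ] H)) (h1 : ∀ x, ‖ι x‖ = ‖x‖)
    (h2 : ∀ x, x ∈ M ↔ ∃ a, ι a = x) (h3 : Linked S ι) {E : Type w} [NormedAddCommGroup E]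
    [InnerProductSpace ℂ E] [CompleteSpace E] (l : A →ₗ[ℂ] (E →L[ℂ] E)) (l1 : l 1 = 1)
    (ls : ∀ x, l (star x) = star (l x)) (ln : Nrm S l) (l' : (H →L[ℂ] H) → E →L[ℂ] E)
    (hl : ∀ x, l' (ι x) = l x) : IsStarLinearOn M l' := by
  refine ⟨fun x hx y hy => ?_, fun c x hx => ?_, ?_, fun x hx => ?_, ?_⟩
  · obtain ⟨a, rfl⟩ := (h2 x).1 hx
    obtain ⟨b, rfl⟩ := (h2 y).1 hy
    rw [← map_add, hl, hl, hl, map_add]
  · obtain ⟨a, rfl⟩ := (h2 x).1 hx
    rw [← map_smul, hl, hl, map_smul]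
  · rw [← map_one ι, hl, l1]
  · obtain ⟨a, rfl⟩ := (h2 x).1 hx
    rw [← map_star, hl, hl, ls]
  · intro f y hy hf hw ξ η
    obtain ⟨b, rfl⟩ := (h2 y).1 hy
    have e : map ι (comap ι f) = f :=
      map_comap_of_mem (mem_of_superset hf fun z hz => (h2 z).1 hz.1)
    have n1 : ∀ᶠ x in comap ι f, ‖x‖ ≤ 1 :=
      (tendsto_comap.eventually hf).mono fun x hx => (h1 x) ▸ hx.2
    have n2 := ln (comap ι f) b n1
      ((h3 (comap ι f) b n1).1 fun z w => (hw z w).comp tendsto_comap) η ξ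
    rw [← e, tendsto_map'_iff, hl]
    exact n2.congr fun x => by simp only [Function.comp, hl]

end BimodJ

theorem Bimod_pf :
    PBimod.{v, w} := by
  intro H A K _ _ _ _ _ _ _ M S ι h1 h2 h3 E _ _ _ l r l1 r1 ls rs lm rm lr ln rn
  have hi : Function.Injective ι := fun a b h => by
    rw [← sub_eq_zero, ← norm_eq_zero, ← h1, map_sub, h, sub_self, norm_zero]
  have hl : ∀ x, Function.extend ι l 0 (ι x) = l x := fun x => hi.extend_apply _ _ x
  have hr : ∀ x, Function.extend ι r 0 (ι x) = r x := fun x => hi.extend_apply _ _ x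
  refine ⟨Function.extend ι l 0, Function.extend ι r 0,
    ⟨BimodJ.star_lin M S ι h1 h2 h3 l l1 ls ln _ hl,
      BimodJ.star_lin M S ι h1 h2 h3 r r1 rs rn _ hr, fun x hx y hy => ?_⟩, hl, hr⟩
  obtain ⟨a, rfl⟩ := (h2 x).1 hx
  obtain ⟨b, rfl⟩ := (h2 y).1 hy
  rw [← map_mul, hl, hl, hl, hr, hr, hr]
  exact ⟨lm a b, rm a b, lr a b⟩

end Pool.Agent.MP_890ef7_an.KK

end

section

open scoped InnerProductSpace ComplexOrder
open Filter Topology

namespace Pool.Agent.MP_890ef7_an.KK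

universe v w

namespace ConjJ

variable {A B K : Type v} [CStarAlgebra A] [CStarAlgebra B] [NormedAddCommGroup K]
  [InnerProductSpace ℂ K] [CompleteSpace K] {S : Std B K} {ν γ : ℝ}

theorem key (D : Pre A S ν γ) (k k' U V : K →L[ℂ] K) (x x₁ : A) (y y₁ c : B)
    (hk : ∀ z, k' z = U (k (V z))) (h1 : ∀ z, D.π x (U z) = U (D.π x₁ z))
    (h2 : ∀ z, S.R y (U z) = U (S.R y₁ z)) (h3 : ∀ z, V (U z) = z) (h4 : ∀ z, U (V z) = z)
    (h5 : V S.ξ = S.hat c) (h6 : V (S.hat y) = S.hat (c * y₁)) :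
    D.Φ x y + D.Ψ k' x y =
      U (D.Φ x₁ (c * y₁) + D.Ψ k x₁ (c * y₁) - S.R y₁ (D.Φ x₁ c + D.Ψ k x₁ c)) := by
  have e1 : ∀ z, D.π x z = U (D.π x₁ (V z)) := fun z => by rw [← h1, h4]
  have e2 : ∀ z, S.R y z = U (S.R y₁ (V z)) := fun z => by rw [← h2, h4]
  simp only [Pre.Φ, Pre.Ψ, hk, e1, e2, h3, h5, h6, S.R_mul_apply, map_add, map_sub]
  abel

theorem norm_le (u : unitary B) : ‖(u : B)‖ ≤ 1 := by
  have := CStarRing.norm_coe_unitary_mul u (1 : B)
  rw [mul_one] at this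
  rw [this]
  by_cases h : Nontrivial B
  · exact CStarRing.norm_one.le
  · rw [not_nontrivial_iff_subsingleton] at h
    rw [Subsingleton.elim (1 : B) 0, norm_zero]
    exact zero_le_one

end ConjJ

theorem Conj_pf :
    PConj.{v} := by
  intro A B K Γ _ _ _ _ _ _ S γ η C j ρ hC k δ hδ hk g h x y
  have i1 : ∀ t, (ρ t : B) * ρ t⁻¹ = 1 := fun t => by
    rw [← Submonoid.coe_mul, ← map_mul, mul_inv_cancel, map_one, OneMemClass.coe_one]
  have i2 : ∀ t, (ρ t⁻¹ : B) * ρ t = 1 := fun t => by simpa only [inv_inv] using i1 t⁻¹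
  have l1 : ∀ z, S.L (ρ g) (S.L (ρ g⁻¹) z) = z := fun z => by
    rw [← S.L_mul_apply, i1, map_one]; rfl
  have l2 : ∀ z, S.L (ρ g⁻¹) (S.L (ρ g) z) = z := fun z => by
    rw [← S.L_mul_apply, i2, map_one]; rfl
  have r1 : ∀ z, S.R (ρ h) (S.R (ρ h⁻¹) z) = z := fun z => by
    rw [← S.R_mul_apply, i2, S.R_one]; rfl
  have r2 : ∀ z, S.R (ρ h⁻¹) (S.R (ρ h) z) = z := fun z => by
    rw [← S.R_mul_apply, i1, S.R_one]; rfl
  rw [ConjJ.key C.toPre k _ (S.L (ρ g) * S.R (ρ h)) (S.R (ρ h⁻¹) * S.L (ρ g⁻¹)) x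
    (j g⁻¹ * x * j g) y (ρ h * y * ρ h⁻¹) (ρ g⁻¹ * ρ h⁻¹) (fun _ => rfl)
    (fun z => by
      simp only [mul_apply_eq_comp, C.π_mul_apply, (hC _).1]
      rw [← S.comm_apply, l1, ← (hC h).π_R, S.comm_apply])
    (fun z => by
      simp only [mul_apply_eq_comp, S.R_mul_apply, r1]
      rw [← S.comm_apply])
    (fun z => by simp only [mul_apply_eq_comp, l2, r2])
    (fun z => by simp only [mul_apply_eq_comp, l1, r1])
    (by rw [mul_apply_eq_comp, S.L_ξ, S.R_hat])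
    (by
      rw [mul_apply_eq_comp, S.L_hat, S.R_hat]
      simp only [← mul_assoc]
      rw [mul_assoc _ _ (ρ h : B), i2, mul_one])]
  have n1 : ‖(j g⁻¹ : A) * x * j g‖ = ‖x‖ := by
    rw [CStarRing.norm_mul_coe_unitary, CStarRing.norm_coe_unitary_mul]
  have n2 : ‖(ρ h : B) * y * ρ h⁻¹‖ = ‖y‖ := by
    rw [CStarRing.norm_mul_coe_unitary, CStarRing.norm_coe_unitary_mul]
  have n3 : ‖(ρ g⁻¹ : B) * ρ h⁻¹ * (ρ h * y * ρ h⁻¹)‖ = ‖y‖ := by
    rw [mul_assoc, CStarRing.norm_coe_unitary_mul, CStarRing.norm_coe_unitary_mul, n2]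
  have n4 : ‖(ρ g⁻¹ : B) * ρ h⁻¹‖ ≤ 1 := by
    rw [CStarRing.norm_coe_unitary_mul]
    exact ConjJ.norm_le _
  have u1 : ∀ z, ‖(S.L (ρ g) * S.R (ρ h)) z‖ ≤ ‖z‖ := fun z =>
    (S.norm_L_apply _ _).trans ((mul_le_of_le_one_left (norm_nonneg _) (ConjJ.norm_le _)).trans
      ((S.norm_R_apply _ _).trans (mul_le_of_le_one_left (norm_nonneg _) (ConjJ.norm_le _))))
  have a1 := hk (j g⁻¹ * x * j g) (ρ g⁻¹ * ρ h⁻¹ * (ρ h * y * ρ h⁻¹))
  have a2 := (hk (j g⁻¹ * x * j g) (ρ g⁻¹ * ρ h⁻¹)).trans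
    (mul_le_of_le_one_right (by positivity) n4)
  have a3 := (S.norm_R_apply (ρ h * y * ρ h⁻¹) _).trans
    (mul_le_mul_of_nonneg_left a2 (norm_nonneg _))
  rw [n1, n3] at a1
  rw [n1, n2] at a3
  refine (u1 _).trans ((norm_sub_le _ _).trans ?_)
  linarith

end Pool.Agent.MP_890ef7_an.KK

end

section

open scoped InnerProductSpace ComplexOrder
open Filter Topology

namespace Pool.Agent.MP_890ef7_an.KK

universe v w

theorem Form_pf :
    PForm.{v} := by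
  intro A B K K' _ _ _ _ _ _ _ _ S S' b c hc h1 h2 h3 h4 h5
  have riesz : ∀ x, ∃ z : K', ∀ y, ⟪S'.hat y, z⟫_ℂ = b y x := fun x => by
    let f : B →ₗ[ℂ] ℂ :=
      { toFun := fun y => (starRingEnd ℂ) (b y x)
        map_add' := fun y y' => by rw [h3, map_add]
        map_smul' := fun t y => by simp [h4] }
    have hf : ∀ y, ‖f y‖ ≤ c * ‖S.hat x‖ * ‖S'.hat y‖ := fun y => by
      change ‖(starRingEnd ℂ) (b y x)‖ ≤ _
      rw [RCLike.norm_conj, mul_right_comm]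
      exact h5 y x
    refine ⟨(InnerProductSpace.toDual ℂ K').symm (f.extendOfNorm S'.hat), fun y => ?_⟩
    rw [← inner_conj_symm, InnerProductSpace.toDual_symm_apply,
      LinearMap.extendOfNorm_eq S'.dense_hat ⟨_, hf⟩]
    exact Complex.conj_conj _
  choose s hs using riesz
  let g : A →ₗ[ℂ] K' :=
    { toFun := s
      map_add' := fun x x' => S'.vec_ext fun y => by rw [inner_add_right, hs, hs, hs, h1]
      map_smul' := fun t x => S'.vec_ext fun y => by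
        rw [inner_smul_right, hs, hs, h2, RingHom.id_apply] }
  have hg : ∀ x, ‖g x‖ ≤ c * ‖S.hat x‖ := fun x =>
    S'.norm_le_of_inner (by positivity) fun y => by
      change ‖⟪S'.hat y, s x⟫_ℂ‖ ≤ _
      rw [hs, mul_right_comm]
      exact h5 y x
  refine ⟨g.extendOfNorm S.hat, LinearMap.opNorm_extendOfNorm_le S.dense_hat hc hg, fun y x => ?_⟩
  rw [LinearMap.extendOfNorm_eq S.dense_hat ⟨_, hg⟩]
  exact hs x y

end Pool.Agent.MP_890ef7_an.KK

end

section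

open scoped InnerProductSpace ComplexOrder
open Filter Topology

namespace Pool.Agent.MP_890ef7_an.KK

universe v w

theorem GP_pf (hTrunc : PTrunc.{v}) :
    PGP.{v} := by
  intro A K _ _ _ _ S Q hQ z hz γ η ε hγ hη hε h
  obtain ⟨_, ⟨a, ha, rfl⟩, hza⟩ := Metric.mem_closure_iff.1 hz (ε / 3) (by positivity)
  rw [dist_eq_norm] at hza
  obtain ⟨y, hy, hy1, hay, h3, -⟩ := hTrunc S Q hQ a ha (2 * γ) (by positivity)
  refine ⟨a - a * y, sub_mem ha (mul_mem ha hy), hay, ?_⟩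
  have e1 : S.hat (a * y) = S.R y z - S.R y (z - S.hat a) := by
    rw [map_sub, S.R_hat]; abel
  have h1 : ‖S.R y (z - S.hat a)‖ ≤ ε / 3 := by
    refine (S.norm_R_apply _ _).trans ?_
    calc ‖y‖ * ‖z - S.hat a‖ ≤ 1 * (ε / 3) := by gcongr
      _ = ε / 3 := one_mul _
  have h2 : ‖S.hat (a * y)‖ ≤ ‖S.R y z‖ + ε / 3 := by
    rw [e1]
    exact (norm_sub_le _ _).trans (by linarith)
  have h4 := h y hy
  have h5 : η * ‖y‖ ≤ η := by
    calc η * ‖y‖ ≤ η * 1 := by gcongr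
      _ = η := mul_one _
  have e2 : z - S.hat (a - a * y) = (z - S.hat a) + S.hat (a * y) := by
    rw [map_sub]; abel
  rw [e2]
  refine (norm_add_le _ _).trans ?_
  linarith

theorem Wstar_pf (hGP : PGP.{v}) :
    PWstar.{v} := by
  intro A K _ _ _ _ S X hX
  have hXR : ∀ b z, X (S.R b z) = S.R b (X z) := fun b z =>
    congrArg (fun T : K →L[ℂ] K => T z) (hX b)
  have hcl : X S.ξ ∈ closure (S.hat '' ((⊤ : StarSubalgebra ℂ A) : Set A)) := by
    have h := S.dense_hat (X S.ξ)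
    rwa [StarSubalgebra.coe_top, Set.image_univ]
  obtain ⟨a, ha⟩ := S.closed (X S.ξ) (2 * (‖X‖ + 1)) fun ε hε => by
    obtain ⟨b, -, hb, hzb⟩ := hGP S ⊤ (by simp) (X S.ξ) hcl (‖X‖ + 1) 0 ε (by positivity) le_rfl hε
      fun y _ => by
        rw [← hXR, S.R_ξ]
        have h1 := X.le_opNorm (S.hat y)
        have h2 := norm_nonneg (S.hat y)
        linarith
    exact ⟨b, hb, by rw [S.L_ξ]; linarith⟩
  refine ⟨a, S.clm_ext fun b => ?_⟩
  rw [← S.R_ξ, S.comm_apply, ha, hXR]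

theorem Wlim_pf (hWstar : PWstar.{v}) :
    PWlim.{v} := by
  intro A K _ _ _ _ S a c hc
  have h0 : 0 ≤ c := (norm_nonneg _).trans (hc 0)
  obtain ⟨X, hX⟩ := Pool.Agent.MP_890ef7_an.exists_wot_lim ω (fun n => S.L (a n)) h0
    fun n => (S.norm_L _).trans_le (hc n)
  obtain ⟨b, hb⟩ := hWstar S X fun d => by
    ext z
    refine ext_inner_left ℂ fun y => ?_
    have h1 := hX y (S.R d z)
    have h2 := hX (S.R (star d) y) z
    have e : ∀ t : K, ⟪S.R (star d) y, t⟫_ℂ = ⟪y, S.R d t⟫_ℂ := fun t => by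
      rw [S.inner_R, star_star]
    simp only [e, ← S.comm_apply] at h2
    exact tendsto_nhds_unique h1 h2
  refine ⟨b, ?_, fun z w => by rw [hb]; exact hX z w⟩
  rw [← S.norm_L, hb]
  refine X.opNorm_le_bound h0 fun z => ?_
  refine norm_le_of_weak' (l := (ω : Filter ℕ)) (v := fun n => S.L (a n) z)
    (Eventually.of_forall fun n => ?_) (hX (X z) z)
  exact (S.norm_L_apply _ _).trans (mul_le_mul_of_nonneg_right (hc n) (norm_nonneg _))

end Pool.Agent.MP_890ef7_an.KK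

end

section

open scoped InnerProductSpace ComplexOrder
open Filter Topology

namespace Pool.Agent.MP_890ef7_an.KK

universe v w

namespace KazJ

/-- a sequence built step by step. -/
theorem exists_seq {X : Type*} (p : ℕ → X → Prop) (q : ℕ → X → X → Prop) {x₀ : X} (h₀ : p 0 x₀)
    (h : ∀ n x, p n x → ∃ y, p (n + 1) y ∧ q n x y) :
    ∃ s : ℕ → X, s 0 = x₀ ∧ (∀ n, p n (s n)) ∧ ∀ n, q n (s n) (s (n + 1)) := by
  choose! f h1 h2 using h
  let s : ℕ → X := fun n => Nat.rec x₀ f n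
  have h3 : ∀ n, p n (s n) := fun n => by
    induction n with
    | zero => exact h₀
    | succ n ih => exact h1 n _ ih
  exact ⟨s, rfl, h3, fun n => h2 n _ (h3 n)⟩

end KazJ

theorem Kaz_pf (hKazStep : PKazStep.{v}) :
    PKaz.{v} := by
  intro A K Γ _ _ _ _ _ S T r δ hδ hr
  have h0 : 0 ≤ δ := (norm_nonneg _).trans (hr 1 1)
  obtain ⟨s, s0, s1, s2⟩ := KazJ.exists_seq (X := Γ → unitary A)
    (fun n r => ∀ g h, ‖(r (g * h) : A) - r g * r h‖ ≤ δ * (1 / 2) ^ n)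
    (fun n r r' => ∀ g, ‖(r' g : A) - r g‖ ≤ 3 / 2 * δ * (1 / 2) ^ n) (x₀ := r)
    (by simpa using hr) fun n x hx => by
      have h1 : 0 ≤ δ * (1 / 2) ^ n := by positivity
      have h2 : δ * (1 / 2) ^ n ≤ 1 / 16 :=
        (mul_le_of_le_one_right h0 (pow_le_one₀ (by norm_num) (by norm_num))).trans hδ
      obtain ⟨y, h3, h4⟩ := hKazStep S T x _ h2 hx
      refine ⟨y, fun g h => (h3 g h).trans ?_, fun g => (h4 g).trans ?_⟩
      · rw [pow_succ (1 / 2 : ℝ), ← mul_assoc]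
        nlinarith
      · rw [mul_assoc]
        nlinarith
  have hd : ∀ g n, dist (s n g : A) (s (n + 1) g) ≤ 3 / 2 * δ * (1 / 2) ^ n := fun g n => by
    rw [dist_comm, dist_eq_norm]
    exact s2 n g
  choose u hu using fun g => cauchySeq_tendsto_of_complete
    (cauchySeq_of_le_geometric (1 / 2) _ (by norm_num) (hd g))
  have h1 : ∀ g, u g ∈ unitary A := fun g =>
    ⟨tendsto_nhds_unique ((hu g).star.mul (hu g))
      (tendsto_const_nhds.congr fun n => (s n g).2.1.symm),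
    tendsto_nhds_unique ((hu g).mul (hu g).star)
      (tendsto_const_nhds.congr fun n => (s n g).2.2.symm)⟩
  refine ⟨MonoidHom.mk' (fun g => ⟨u g, h1 g⟩) fun g h => Subtype.ext ?_, fun g => ?_⟩
  · have h2 := (tendsto_pow_atTop_nhds_zero_of_lt_one (r := (1 / 2 : ℝ)) (by norm_num)
      (by norm_num)).const_mul δ
    rw [mul_zero] at h2
    exact sub_eq_zero.1 (norm_le_zero_iff.1 (le_of_tendsto_of_tendsto'
      ((hu (g * h)).sub ((hu g).mul (hu h))).norm h2 fun n => s1 n g h))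
  · have h2 := dist_le_of_le_geometric_of_tendsto₀ (1 / 2) _ (by norm_num) (hd g) (hu g)
    rw [s0, dist_comm, dist_eq_norm] at h2
    exact h2.trans_eq (by ring)

end Pool.Agent.MP_890ef7_an.KK

end

section

open scoped InnerProductSpace ComplexOrder
open Filter Topology

namespace Pool.Agent.MP_890ef7_an.KK

universe v w

namespace LinkJ

theorem comm_of_inv {K : Type v} [NormedAddCommGroup K] [InnerProductSpace ℂ K] [CompleteSpace K]
    (V : Submodule ℂ K) [V.HasOrthogonalProjection] (T : K →L[ℂ] K) (h : ∀ z ∈ V, T z ∈ V)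
    (h' : ∀ z ∈ V, star T z ∈ V) : V.starProjection * T = T * V.starProjection := by
  have key : ∀ T : K →L[ℂ] K, (∀ z ∈ V, T z ∈ V) →
      V.starProjection * (T * V.starProjection) = T * V.starProjection := fun T h => by
    ext z
    exact Submodule.starProjection_eq_self_iff.2 (h _ (V.starProjection_apply_mem z))
  have hs : star V.starProjection = V.starProjection :=
    (isStarProjection_starProjection (U := V)).isSelfAdjoint.star_eq
  have h1 := congrArg star (key _ h')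
  simp only [star_mul, hs, star_star] at h1
  rw [← h1, mul_assoc, key T h]

theorem exists_link (hWstar : PWstar.{v}) {A K : Type v} [CStarAlgebra A] [NormedAddCommGroup K]
    [InnerProductSpace ℂ K] [CompleteSpace K] (S : Std A K) (hF : IsFactor A) {p q : A}
    (hp : p ≠ 0) (hq : q ≠ 0) : ∃ x, q * x * p ≠ 0 := by
  by_contra hn
  push Not at hn
  let V : Submodule ℂ K := ⨅ x : A, (S.L (q * x)).ker
  have mem : ∀ z, z ∈ V ↔ ∀ x, S.L (q * x) z = 0 := fun z => by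
    simp only [V, Submodule.mem_iInf, LinearMap.mem_ker, ContinuousLinearMap.coe_coe]
  have hc : IsClosed (V : Set K) := by
    have : (V : Set K) = ⋂ x : A, {z | S.L (q * x) z = 0} := by
      ext z
      simp only [SetLike.mem_coe, mem, Set.mem_iInter, Set.mem_ofPred_eq]
    rw [this]
    exact isClosed_iInter fun x => isClosed_eq (by fun_prop) continuous_const
  have : CompleteSpace V := hc.completeSpace_coe
  have hL : ∀ a, ∀ z ∈ V, S.L a z ∈ V := fun a z hz => (mem _).2 fun x => by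
    rw [← S.L_mul_apply, mul_assoc]
    exact (mem z).1 hz _
  have hR : ∀ a, ∀ z ∈ V, S.R a z ∈ V := fun a z hz => (mem _).2 fun x => by
    rw [S.comm_apply, (mem z).1 hz x, map_zero]
  obtain ⟨c, hc⟩ := hWstar S V.starProjection fun b =>
    comm_of_inv V _ (hR b) (by rw [← S.R_star]; exact hR _)
  obtain ⟨t, rfl⟩ := hF c fun x => S.L_injective (by
    rw [map_mul, map_mul, hc]
    exact comm_of_inv V _ (hL x) (by rw [← map_star]; exact hL _))
  have h1 : S.hat p ∈ V := (mem _).2 fun x => by rw [S.L_hat, hn, map_zero]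
  have h2 := Submodule.starProjection_eq_self_iff.2 h1
  rw [← hc, S.L_hat, smul_mul_assoc, one_mul] at h2
  have h3 : (t - 1) • p = 0 := by rw [sub_smul, S.hat_injective h2, one_smul, sub_self]
  have h4 : t = 1 := sub_eq_zero.1 ((smul_eq_zero.1 h3).resolve_right hp)
  have h5 : S.ξ ∈ V := by
    have := V.starProjection_apply_mem S.ξ
    rwa [← hc, h4, one_smul, map_one] at this
  have h6 := (mem _).1 h5 1
  rw [mul_one] at h6
  exact hq (S.hat_eq_zero h6)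

theorem cut {A : Type v} [CStarAlgebra A] [Nontrivial A] {z : A} (hz : z ≠ 0) :
    ∃ e u h : A, e ≠ 0 ∧ star u = u ∧ (1 - u * (star z * z) * u) * e = 0 ∧
      e = star z * z * h := by
  set b := star z * z with hb
  have hs : IsSelfAdjoint b := IsSelfAdjoint.star_mul_self z
  have hn : 0 < ‖b‖ := by
    rw [hb, CStarRing.norm_star_mul_self]
    exact mul_pos (norm_pos_iff.2 hz) (norm_pos_iff.2 hz)
  obtain ⟨d, hd⟩ : ∃ d : ℝ, d = ‖b‖ / 2 := ⟨_, rfl⟩
  have d0 : 0 < d := by linarith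
  have m0 : ∀ t : ℝ, 0 < max t d := fun t => lt_max_of_lt_right d0
  have cf : Continuous fun t : ℝ => max (t - d) 0 := by fun_prop
  have cg : Continuous fun t : ℝ => (√(max t d))⁻¹ :=
    Continuous.inv₀ (by fun_prop) fun t => (Real.sqrt_pos.2 (m0 t)).ne'
  have ch : Continuous fun t : ℝ => max (t - d) 0 / max t d :=
    cf.div (by fun_prop) fun t => (m0 t).ne'
  refine ⟨cfc (fun t : ℝ => max (t - d) 0) b, cfc (fun t : ℝ => (√(max t d))⁻¹) b,
    cfc (fun t : ℝ => max (t - d) 0 / max t d) b, fun h0 => ?_, IsSelfAdjoint.star_eq (cfc_predicate _ _), ?_, ?_⟩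
  · rw [← cfc_const_zero ℝ b] at h0
    have h1 := eqOn_of_cfc_eq_cfc h0 cf.continuousOn continuousOn_const hs
    rcases CStarAlgebra.norm_or_neg_norm_mem_spectrum hs with h2 | h2
    · have h3 : max (‖b‖ - d) 0 = 0 := h1 h2
      linarith [le_max_left (‖b‖ - d) 0]
    · linarith [spectrum_star_mul_self_nonneg (b := z) _ h2]
  · have e1 : cfc (fun t : ℝ => (1 - (√(max t d))⁻¹ * t * (√(max t d))⁻¹) * max (t - d) 0) b =
        (1 - cfc (fun t : ℝ => (√(max t d))⁻¹) b * b * cfc (fun t : ℝ => (√(max t d))⁻¹) b) *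
          cfc (fun t : ℝ => max (t - d) 0) b := by
      have c1 : Continuous fun t : ℝ => (√(max t d))⁻¹ * t := cg.mul continuous_id'
      have c2 : Continuous fun t : ℝ => (√(max t d))⁻¹ * t * (√(max t d))⁻¹ := c1.mul cg
      have c3 : Continuous fun t : ℝ => 1 - (√(max t d))⁻¹ * t * (√(max t d))⁻¹ :=
        continuous_const.sub c2
      rw [cfc_mul _ _ b c3.continuousOn cf.continuousOn,
        cfc_sub (fun _ => 1) _ b continuousOn_const c2.continuousOn,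
        cfc_mul _ _ b c1.continuousOn cg.continuousOn,
        cfc_mul _ (fun t => t) b cg.continuousOn continuous_id'.continuousOn, cfc_id' ℝ b hs,
        cfc_const_one ℝ b hs]
    rw [← e1, ← cfc_const_zero ℝ b]
    refine cfc_congr fun t _ => ?_
    rcases le_total t d with h | h
    · simp only [max_eq_right (sub_nonpos.2 h), mul_zero]
    · have t0 : 0 < t := d0.trans_le h
      have : (√t)⁻¹ * t * (√t)⁻¹ = 1 := by
        rw [mul_right_comm, ← mul_inv, Real.mul_self_sqrt t0.le, inv_mul_cancel₀ t0.ne']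
      simp only [max_eq_left h, this, sub_self, zero_mul]
  · have e1 : cfc (fun t : ℝ => t * (max (t - d) 0 / max t d)) b =
        b * cfc (fun t : ℝ => max (t - d) 0 / max t d) b := by
      rw [cfc_mul (fun t => t) _ b continuous_id'.continuousOn ch.continuousOn, cfc_id' ℝ b hs]
    rw [← e1]
    refine cfc_congr fun t _ => ?_
    rcases le_total t d with h | h
    · simp only [max_eq_right (sub_nonpos.2 h), zero_div, mul_zero]
    · have t0 : 0 < t := d0.trans_le h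
      simp only [max_eq_left h]
      rw [mul_div_cancel₀ _ t0.ne']

end LinkJ

theorem Link_pf (hWstar : PWstar.{v}) (hRange : PRange.{v}) :
    PLink.{v} := by
  intro A K _ _ _ _ S hF p q hp hq hp0 hq0
  have := S.nontrivial
  obtain ⟨x, hx⟩ := LinkJ.exists_link hWstar S hF hp0 hq0
  obtain ⟨e, u, h, e0, hu, h1, h2⟩ := LinkJ.cut hx
  obtain ⟨s, hs, s1, s2, -⟩ := hRange S e
  have zp : q * x * p * p = q * x * p := by rw [mul_assoc, hp.isIdempotentElem.eq]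
  have qz : q * (q * x * p) = q * x * p := by
    rw [← mul_assoc, ← mul_assoc, hq.isIdempotentElem.eq]
  generalize q * x * p = z at *
  have pz : p * star z = star z := by
    have := congrArg star zp
    rwa [star_mul, hp.isSelfAdjoint.star_eq] at this
  have a1 : u * (star z * z) * u * s = s := by
    have := s2 _ h1
    rw [sub_mul, one_mul, sub_eq_zero] at this
    exact this.symm
  have a2 : s * p = s := by
    have h3 := s2 (1 - p) (by
      rw [h2, ← mul_assoc, ← mul_assoc, sub_mul, one_mul, pz, sub_self, zero_mul, zero_mul])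
    rw [sub_mul, one_mul, sub_eq_zero] at h3
    have := congrArg star h3
    rw [star_mul, hp.isSelfAdjoint.star_eq, hs.isSelfAdjoint.star_eq] at this
    exact this.symm
  have a3 : star (z * u * s) * (z * u * s) = s := by
    rw [star_mul, star_mul, hu, hs.isSelfAdjoint.star_eq]
    calc s * (u * star z) * (z * u * s) = s * (u * (star z * z) * u * s) := by noncomm_ring
      _ = s := by rw [a1, hs.isIdempotentElem.eq]
  refine ⟨z * u * s, fun h0 => e0 ?_, ?_, ?_, ?_⟩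
  · rw [h0, mul_zero] at a3
    rw [← s1, ← a3, zero_mul]
  · rw [mul_assoc (z * u * s), a3, mul_assoc, hs.isIdempotentElem.eq]
  · rw [mul_assoc, a2]
  · rw [← mul_assoc, ← mul_assoc, qz]

end Pool.Agent.MP_890ef7_an.KK

end

section

open scoped InnerProductSpace ComplexOrder
open Filter Topology

namespace Pool.Agent.MP_890ef7_an.KK

universe v w

namespace MartJ

theorem reindex {G K ι : Type*} [AddCommGroup K] [Module ℂ K] [Fintype ι] [Nonempty ι]
    (h : ι → G) : ∃ (m : ℕ) (h' : Fin (m + 1) → G), ∀ F : G → K,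
      avg Finset.univ (fun i => F (h' i)) = avg Finset.univ fun i => F (h i) := by
  obtain ⟨m, hm⟩ : ∃ m, Fintype.card ι = m + 1 :=
    ⟨Fintype.card ι - 1, (Nat.sub_add_cancel Fintype.card_pos).symm⟩
  refine ⟨m, fun i => h ((Fintype.equivFinOfCardEq hm).symm i), fun F => ?_⟩
  rw [avg, avg, Finset.card_univ, Finset.card_univ, hm, Fintype.card_fin,
    (Fintype.equivFinOfCardEq hm).symm.sum_comp fun i => F (h i)]

theorem avg_prod {G K β : Type*} [AddCommGroup K] [Module ℂ K] [Fintype β] (W : Finset G)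
    (F : G → β → K) :
    avg Finset.univ (fun p : W × β => F p.1 p.2) = avg W fun w => avg Finset.univ (F w) := by
  simp only [avg, Finset.card_univ, Fintype.card_prod, Fintype.card_coe, Fintype.sum_prod_type,
    ← Finset.smul_sum, smul_smul, Nat.cast_mul, mul_inv]
  rw [Finset.sum_coe_sort W fun w => ∑ b, F w b]

theorem var {G K : Type*} [NormedAddCommGroup K] [InnerProductSpace ℂ K] {W : Finset G}
    (hW : W.Nonempty) (F : G → K) :
    ∑ w ∈ W, ‖F w - avg W F‖ ^ 2 = ∑ w ∈ W, ‖F w‖ ^ 2 - W.card * ‖avg W F‖ ^ 2 := by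
  have h0 : (W.card : ℂ) ≠ 0 := by exact_mod_cast hW.card_pos.ne'
  have h1 : ∑ w ∈ W, F w = W.card • avg W F := by
    rw [← Nat.cast_smul_eq_nsmul ℂ, avg, smul_smul, mul_inv_cancel₀ h0, one_smul]
  generalize avg W F = z at h1
  have h2 : ∑ w ∈ W, RCLike.re ⟪F w, z⟫_ℂ = W.card * ‖z‖ ^ 2 := by
    rw [← map_sum, ← sum_inner, h1, ← Finset.sum_const, sum_inner, map_sum, Finset.sum_const,
      inner_self_eq_norm_sq, nsmul_eq_mul]
  simp only [norm_sub_sq (𝕜 := ℂ), Finset.sum_add_distrib, Finset.sum_sub_distrib,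
    ← Finset.mul_sum, h2, Finset.sum_const, nsmul_eq_mul]
  ring

end MartJ

theorem Mart_pf :
    PMart.{v} := by
  intro G K _ _ _ _ f c hc W ε hε
  rcases W.eq_empty_or_nonempty with rfl | hW
  · exact ⟨1, 0, 1, 0, fun _ h => absurd h (Finset.notMem_empty _)⟩
  have hn : (0 : ℝ) < W.card := by exact_mod_cast hW.card_pos
  let S : Set ℝ := {t | ∃ (m : ℕ) (h : Fin (m + 1) → G), ∀ g,
    ‖avg Finset.univ fun i => f (g * h i)‖ ^ 2 ≤ t}
  have hne : S.Nonempty := ⟨c ^ 2, 0, 1, fun g => pow_le_pow_left₀ (norm_nonneg _)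
    (norm_avg_le ((norm_nonneg _).trans (hc 1)) fun _ _ => hc _) 2⟩
  have hbd : BddBelow S := ⟨0, fun t ⟨_, _, ht⟩ => (sq_nonneg _).trans (ht 1)⟩
  obtain ⟨d, hd, hd'⟩ : ∃ d : ℝ, 0 < d ∧ 2 * d * W.card = ε ^ 2 :=
    ⟨ε ^ 2 / (2 * W.card), by positivity, by field_simp⟩
  obtain ⟨t, ⟨m, h, ht⟩, hts⟩ := exists_lt_of_csInf_lt hne (lt_add_of_pos_right (sInf S) hd)
  have : Nonempty W := hW.to_subtype
  obtain ⟨m', h', hh'⟩ := MartJ.reindex (K := K) fun p : W × Fin (m + 1) => (p.1 : G) * h p.2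
  obtain ⟨g, hg⟩ : ∃ g, sInf S - d < ‖avg Finset.univ fun i => f (g * h' i)‖ ^ 2 := by
    by_contra hcon
    have h1 : sInf S - d ∈ S := ⟨m', h', fun g => not_lt.1 fun e => hcon ⟨g, e⟩⟩
    linarith [csInf_le hbd h1]
  rw [hh' fun x => f (g * x), MartJ.avg_prod W fun w i => f (g * (w * h i))] at hg
  simp only [← mul_assoc] at hg
  refine ⟨g, m, h, avg W fun w => avg Finset.univ fun i => f (g * w * h i), fun w hw => ?_⟩
  have h2 := MartJ.var hW fun w => avg Finset.univ fun i => f (g * w * h i)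
  have h3 := Finset.single_le_sum (f := fun w => ‖(avg Finset.univ fun i => f (g * w * h i)) -
    avg W fun w => avg Finset.univ fun i => f (g * w * h i)‖ ^ 2) (fun _ _ => sq_nonneg _) hw
  have h4 := Finset.sum_le_card_nsmul W
    (fun w => ‖avg Finset.univ fun i => f (g * w * h i)‖ ^ 2) t fun w _ => ht (g * w)
  rw [nsmul_eq_mul] at h4
  refine (pow_le_pow_iff_left₀ (norm_nonneg _) hε.le two_ne_zero).1 (h3.trans ?_)
  rw [h2, ← hd']
  nlinarith [mul_le_mul_of_nonneg_left hg.le hn.le, mul_le_mul_of_nonneg_left hts.le hn.le]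

end Pool.Agent.MP_890ef7_an.KK

end

section

open scoped InnerProductSpace ComplexOrder
open Filter Topology

namespace Pool.Agent.MP_890ef7_an.KK

universe v w

namespace MkCoreJ

variable {E : Type*} [NormedRing E] {P : Eˣ} {r c : ℝ} {T : E}

theorem conj_sub (h1 : ‖(1 : E)‖ ≤ 1) (hr : r ≤ 1 / 100) (hP : ‖(P : E) - 1‖ ≤ r)
    (hT : ‖T‖ ≤ 3 / 2 * c) : ‖P * T * ↑P⁻¹ - T‖ ≤ 4 * r * c := by
  have h0 : 0 ≤ r := (norm_nonneg _).trans hP
  have hc : 0 ≤ c := by linarith [norm_nonneg T]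
  have hQ : ‖(↑P⁻¹ : E)‖ ≤ 4 / 3 := by
    have e : (↑P⁻¹ : E) = 1 - (P - 1) * ↑P⁻¹ := by rw [sub_mul, P.mul_inv, one_mul, sub_sub_cancel]
    have h2 := (congrArg norm e).trans_le (norm_sub_le _ _)
    have h3 := norm_mul_le_of_le (hP.trans hr) (le_refl ‖(↑P⁻¹ : E)‖)
    linarith
  have e : P * T * ↑P⁻¹ - T = ((P - 1) * T - T * (P - 1)) * (↑P⁻¹ : E) := by
    rw [show ((P : E) - 1) * T - T * (P - 1) = P * T - T * P by noncomm_ring, sub_mul,
      P.mul_inv_cancel_right]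
  have h2 := (norm_sub_le _ _).trans
    (add_le_add (norm_mul_le_of_le hP hT) (norm_mul_le_of_le hT hP))
  rw [e]
  exact (norm_mul_le_of_le h2 hQ).trans_eq (by ring)

theorem conj_norm (h1 : ‖(1 : E)‖ ≤ 1) (hr : r ≤ 1 / 100) (hP : ‖(P : E) - 1‖ ≤ r)
    (hT : ‖T‖ ≤ 3 / 2 * c) : ‖P * T * ↑P⁻¹‖ ≤ 2 * c := by
  have hc : 0 ≤ c := by linarith [norm_nonneg T]
  have h2 := conj_sub h1 hr hP hT
  have h3 := norm_le_norm_add_norm_sub' (P * T * ↑P⁻¹) T
  nlinarith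

theorem conj_near (h1 : ‖(1 : E)‖ ≤ 1) (hr : r ≤ 1 / 100) (hP : ‖(P : E) - 1‖ ≤ r)
    (hT : ‖T‖ ≤ 3 / 2 * c) {d γ : ℝ} {L : E} (hd : c ≤ d) (hL : ‖T - L‖ ≤ γ * d) :
    ‖P * T * ↑P⁻¹ - L‖ ≤ (γ + 4 * r) * d := by
  have h0 : 0 ≤ r := (norm_nonneg _).trans hP
  have h2 := conj_sub h1 hr hP hT
  have h3 := norm_sub_le_norm_sub_add_norm_sub (P * T * ↑P⁻¹) T L
  nlinarith [mul_le_mul_of_nonneg_left hd h0]

theorem conj_mul (P : Eˣ) (T T' : E) :
    P * (T * T') * ↑P⁻¹ = P * T * ↑P⁻¹ * (P * T' * ↑P⁻¹) := by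
  simp only [mul_assoc, P.inv_mul_cancel_left]

end MkCoreJ

open MkCoreJ in
theorem MkCore_pf :
    PMkCore.{v} := by
  intro A B K _ _ _ _ _ S γ₀ D P r hr hP hξ
  have h1 : ‖(1 : K →L[ℂ] K)‖ ≤ 1 := ContinuousLinearMap.norm_id_le
  have hQ : (↑P⁻¹ : K →L[ℂ] K) S.ξ = S.ξ := by
    conv_lhs => rw [← hξ]
    exact congrArg (fun T : K →L[ℂ] K => T S.ξ) P.inv_mul
  let c : (K →L[ℂ] K) →ₗ[ℂ] (K →L[ℂ] K) :=
    LinearMap.mulRight ℂ (↑P⁻¹ : K →L[ℂ] K) ∘ₗ LinearMap.mulLeft ℂ (P : K →L[ℂ] K)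
  have hc : ∀ T, c T = P * T * ↑P⁻¹ := fun _ => rfl
  have c1 : c 1 = 1 := by rw [hc, mul_one, P.mul_inv]
  have cm : ∀ T T', c (T * T') = c T * c T' := conj_mul P
  refine ⟨⟨(AlgHom.ofLinearMap c c1 cm).comp D.π, c ∘ₗ D.π', ?_, fun a b => ?_, fun a b => ?_,
    fun a => ?_, fun a => conj_norm h1 hr hP (D.norm_π a), fun a => conj_norm h1 hr hP (D.norm_π' a),
    fun x => ?_, fun y => ?_⟩, fun _ => rfl, fun _ => rfl⟩
  · rw [LinearMap.comp_apply, D.π'_one, c1]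
  · rw [LinearMap.comp_apply, D.π'_mul, cm]
    rfl
  · change c (D.π a) * c (D.π' b) = c (D.π' b) * c (D.π a)
    rw [← cm, ← cm, D.comm]
  · change (P : K →L[ℂ] K) (D.π a ((↑P⁻¹ : K →L[ℂ] K) S.ξ)) =
      (P : K →L[ℂ] K) (D.π' a ((↑P⁻¹ : K →L[ℂ] K) S.ξ))
    rw [hQ, D.ξeq]
  · obtain ⟨y, h2, h3, h4⟩ := D.partA x
    exact ⟨y, h2, conj_near h1 hr hP (D.norm_π x) le_rfl h3,
      conj_near h1 hr hP (D.norm_π' x) le_rfl h4⟩
  · obtain ⟨x, h2, h3, h4⟩ := D.partB y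
    exact ⟨x, h2, conj_near h1 hr hP (D.norm_π x) h2 h3, conj_near h1 hr hP (D.norm_π' x) h2 h4⟩

end Pool.Agent.MP_890ef7_an.KK

end

section

open scoped InnerProductSpace ComplexOrder
open Filter Topology

namespace Pool.Agent.MP_890ef7_an.KK

universe v w

theorem Modul_pf :
    PModul.{v} := by
  intro A B K _ _ _ _ _ S γ η C a e a' e' F f δ hδ h1 h2 h3 h4 h5
  have ne : ‖e‖ ≤ 1 := F.proj.norm_le
  have na : ‖a‖ ≤ 1 := by
    have h : ‖a‖ * ‖a‖ ≤ 1 := by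
      rw [← CStarRing.norm_star_mul_self, F.star_a, F.a_sq]
      exact (IsStarProjection.one A).norm_le
    nlinarith [norm_nonneg a]
  have ml : ∀ {u x : A}, ‖u‖ ≤ 1 → ‖u * x‖ ≤ ‖x‖ := fun hu =>
    (norm_mul_le _ _).trans (mul_le_of_le_one_left (norm_nonneg _) hu)
  have mr : ∀ {u x : A}, ‖u‖ ≤ 1 → ‖x * u‖ ≤ ‖x‖ := fun hu =>
    (norm_mul_le _ _).trans (mul_le_of_le_one_right (norm_nonneg _) hu)
  have ml' : ∀ {u x : B}, ‖u‖ ≤ 1 → ‖u * x‖ ≤ ‖x‖ := fun hu =>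
    (norm_mul_le _ _).trans (mul_le_of_le_one_left (norm_nonneg _) hu)
  have mr' : ∀ {u x : B}, ‖u‖ ≤ 1 → ‖x * u‖ ≤ ‖x‖ := fun hu =>
    (norm_mul_le _ _).trans (mul_le_of_le_one_right (norm_nonneg _) hu)
  have ff : (1 - e') * (1 - e') = 1 - e' := by
    rw [mul_sub, mul_one, sub_mul, one_mul, F.e'_sq, sub_self, sub_zero]
  have s1 : ∀ x y, e * x = x → x * e = x → y * (1 - e') = y → ‖f x y‖ ≤ δ * ‖x‖ * ‖y‖ := by
    intro x y a1 a2 a3
    have e1 : f x y = f x (e' * y) := by rw [← h3, a2]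
    rw [e1]
    refine (h5 x (e' * y) a1 a2 (by rw [← mul_assoc, F.e'_sq]) (by rw [mul_assoc, a3])).trans ?_
    exact mul_le_mul_of_nonneg_left (ml' F.norm_e') (by positivity)
  have s2 : ∀ x y, e * x = x → y * (1 - e') = y → ‖f x y‖ ≤ 2 * δ * ‖x‖ * ‖y‖ := by
    intro x y a1 a3
    have e0 : x = x * e + x * a * e * a := by
      rw [mul_assoc (x * a), F.e_a, ← mul_assoc, mul_assoc x a a, F.a_sq, mul_one, mul_sub,
        mul_one, add_sub_cancel]
    have e1 : f x y = f (x * e) y + f (x * a * e) (a' * y) := by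
      rw [← h2, ← LinearMap.add_apply, ← map_add, ← e0]
    have b1 := s1 (x * e) y (by rw [← mul_assoc, a1]) (by rw [mul_assoc, F.e_sq]) a3
    have b2 := s1 (x * a * e) (a' * y) (by rw [← mul_assoc, ← mul_assoc, a1])
      (by rw [mul_assoc, F.e_sq]) (by rw [mul_assoc, a3])
    have c1 : δ * ‖x * e‖ * ‖y‖ ≤ δ * ‖x‖ * ‖y‖ := by gcongr; exact mr ne
    have c2 : δ * ‖x * a * e‖ * ‖a' * y‖ ≤ δ * ‖x‖ * ‖y‖ := by
      gcongr
      · exact (mr ne).trans (mr na)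
      · exact ml' F.norm_a'
    rw [e1]
    refine (norm_add_le _ _).trans ?_
    linarith
  have s3 : ∀ x y, e * x = x → ‖f x y‖ ≤ 4 * δ * ‖x‖ * ‖y‖ := by
    intro x y a1
    have e0 : y = y * (1 - e') + y * a' * (1 - e') * a' := by
      rw [mul_assoc (y * a'), ← F.a'_e', ← mul_assoc, mul_assoc y a' a', F.a'_sq, mul_one,
        mul_sub, mul_one, sub_add_cancel]
    have e1 : f x y = f x (y * (1 - e')) + S.R a' (f x (y * a' * (1 - e'))) := by
      rw [← h4, ← map_add, ← e0]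
    have b1 := s2 x (y * (1 - e')) a1 (by rw [mul_assoc, ff])
    have b2 := s2 x (y * a' * (1 - e')) a1 (by rw [mul_assoc, ff])
    have b3 := (S.norm_R_apply a' (f x (y * a' * (1 - e')))).trans
      (mul_le_of_le_one_left (norm_nonneg _) F.norm_a')
    have c1 : 2 * δ * ‖x‖ * ‖y * (1 - e')‖ ≤ 2 * δ * ‖x‖ * ‖y‖ := by gcongr; exact mr' F.norm_f'
    have c2 : 2 * δ * ‖x‖ * ‖y * a' * (1 - e')‖ ≤ 2 * δ * ‖x‖ * ‖y‖ := by
      gcongr
      exact (mr' F.norm_f').trans (mr' F.norm_a')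
    rw [e1]
    refine (norm_add_le _ _).trans ?_
    linarith
  intro x y
  have e0 : x = e * x + a * (e * (a * x)) := by
    rw [← mul_assoc, ← mul_assoc, F.flip, sub_mul, one_mul, add_sub_cancel]
  have e1 : f x y = f (e * x) y + S.L a' (f (e * (a * x)) y) := by
    rw [← h1, ← LinearMap.add_apply, ← map_add, ← e0]
  have b1 := s3 (e * x) y (by rw [← mul_assoc, F.e_sq])
  have b2 := s3 (e * (a * x)) y (by rw [← mul_assoc, F.e_sq])
  have b3 := (S.norm_L_apply a' (f (e * (a * x)) y)).trans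
    (mul_le_of_le_one_left (norm_nonneg _) F.norm_a')
  have c1 : 4 * δ * ‖e * x‖ * ‖y‖ ≤ 4 * δ * ‖x‖ * ‖y‖ := by gcongr; exact ml ne
  have c2 : 4 * δ * ‖e * (a * x)‖ * ‖y‖ ≤ 4 * δ * ‖x‖ * ‖y‖ := by
    gcongr
    exact (ml ne).trans (ml na)
  rw [e1]
  refine (norm_add_le _ _).trans ?_
  linarith

end Pool.Agent.MP_890ef7_an.KK

end

section

open scoped InnerProductSpace ComplexOrder
open Filter Topology

namespace Pool.Agent.MP_890ef7_an.KK

universe v w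

namespace NiceStepJ

variable {A : Type v} [CStarAlgebra A]

theorem piso {w p : A} (hp : IsStarProjection p) (h : star w * w = p) : w * p = w := by
  have e1 : p * p = p := hp.isIdempotentElem
  have e2 : star p = p := hp.isSelfAdjoint
  have : star (w - w * p) * (w - w * p) = 0 := by
    rw [star_sub, star_mul, e2]
    calc (star w - p * star w) * (w - w * p)
        = star w * w - (star w * w) * p - p * (star w * w) + p * (star w * w) * p := by noncomm_ring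
      _ = 0 := by rw [h, e1, e1]; abel
  exact (sub_eq_zero.1 ((CStarRing.star_mul_self_eq_zero_iff _).1 this)).symm

section
variable {a e : A} (ha : star a = a) (haa : a * a = 1) (hee : e * e = e) (hae : a * e = (1 - e) * a)
include haa hae

theorem ea : e * a = a * (1 - e) := by
  have : e * a = a * (a * e * a) := by rw [← mul_assoc, ← mul_assoc, haa, one_mul]
  rw [this, hae, mul_assoc (1 - e), haa, mul_one]

include hee in
theorem eae : e * a * e = 0 := by rw [ea haa hae, mul_assoc, sub_mul, one_mul, hee, sub_self, mul_zero]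

include hee in
theorem sym_mul {x y : A} (hx : x * e = x) (hy : e * y = y) :
    (x + a * x * a) * (y + a * y * a) = x * y + a * (x * y) * a := by
  have h0 : x * a * y = 0 := by
    calc x * a * y = (x * e) * a * (e * y) := by rw [hx, hy]
      _ = x * (e * a * e) * y := by noncomm_ring
      _ = 0 := by rw [eae haa hee hae, mul_zero, zero_mul]
  calc (x + a * x * a) * (y + a * y * a)
      = x * y + (x * a * y) * a + a * (x * a * y) + a * x * (a * a) * y * a := by noncomm_ring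
    _ = x * y + a * (x * y) * a := by rw [h0, haa]; noncomm_ring

theorem sym_pe {p : A} (hp : a * p = p * a) : p * e + a * (p * e) * a = p := by
  rw [← mul_assoc, hp, mul_assoc p, hae, mul_assoc p, mul_assoc (1 - e), haa]
  noncomm_ring

theorem sym_e {x : A} (hx : x * e = x) (hx' : e * x = x) :
    e * (x + a * x * a) = (x + a * x * a) * e := by
  have h1 : e * (a * x * a) = 0 := by
    calc e * (a * x * a) = (e * a) * x * a := by noncomm_ring
      _ = a * (x - e * x) * a := by rw [ea haa hae]; noncomm_ring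
      _ = 0 := by rw [hx', sub_self, mul_zero, zero_mul]
  have h2 : (a * x * a) * e = 0 := by
    calc (a * x * a) * e = a * x * (a * e) := by noncomm_ring
      _ = a * (x - x * e) * a := by rw [hae]; noncomm_ring
      _ = 0 := by rw [hx, sub_self, mul_zero, zero_mul]
  rw [mul_add, add_mul, h1, h2, hx, hx']

omit hae in
theorem sym_a (x : A) : a * (x + a * x * a) = (x + a * x * a) * a := by
  calc a * (x + a * x * a) = a * x + (a * a) * x * a := by noncomm_ring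
    _ = x * a + a * x * (a * a) := by rw [haa]; noncomm_ring
    _ = _ := by noncomm_ring

omit haa hae in
include ha in
theorem sym_star (x : A) : star (x + a * x * a) = star x + a * star x * a := by
  rw [star_add, star_mul, star_mul, ha, mul_assoc]

end

theorem sym_τ {K : Type v} [NormedAddCommGroup K] [InnerProductSpace ℂ K] [CompleteSpace K]
    (S : Std A K) {a : A} (haa : a * a = 1) (x : A) : S.τ (x + a * x * a) = 2 * S.τ x := by
  rw [map_add, S.τ_comm (a * x) a, ← mul_assoc, haa, one_mul, two_mul]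

end NiceStepJ

open NiceStepJ in
theorem NiceStep_pf :
    PNiceStep.{v} := by
  intro A K _ _ _ _ S G _ hN a haG b hbG hab
  obtain ⟨ha, hb, haa, hbb, hanti⟩ := hab
  obtain ⟨e, he⟩ : ∃ e : A, e = (1 / 2 : ℂ) • (1 + b) := ⟨_, rfl⟩
  have hbe : b = e + e - 1 := by rw [he, ← add_smul]; norm_num
  have hes : star e = e := by rw [he, star_smul, star_add, star_one, hb]; simp
  have hee : e * e = e := by
    have : (1 + b) * (1 + b) = (2 : ℂ) • (1 + b) := by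
      rw [two_smul, add_mul, one_mul, mul_add, mul_one, hbb, add_comm b]
    rw [he, smul_mul_smul_comm, this, smul_smul]; norm_num
  have hae : a * e = (1 - e) * a := by
    have : 1 - e = (1 / 2 : ℂ) • (1 - b) := by
      rw [he, sub_eq_iff_eq_add, ← smul_add]
      rw [show (1 : A) - b + (1 + b) = (2 : ℂ) • (1 : A) by rw [two_smul]; abel, smul_smul]; norm_num
    rw [this, he, mul_smul_comm, smul_mul_assoc, mul_add, sub_mul, hanti, mul_one, one_mul,
      sub_eq_add_neg]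
  have hce : ∀ x : A, b * x = x * b → e * x = x * e := fun x hx => by
    rw [he, smul_mul_assoc, mul_smul_comm, add_mul, mul_add, hx, one_mul, mul_one]
  have heG : e ∈ Set.centralizer G := fun g hg => (hce g (hbG g hg).symm).symm
  have hmem : ∀ x ∈ Set.centralizer G, x * e = x → e * x = x →
      x + a * x * a ∈ Set.centralizer (G ∪ {a, b}) := by
    intro x hx h1 h2 g hg
    rcases hg with hg | rfl | rfl
    · exact Set.add_mem_centralizer hx
        (Set.mul_mem_centralizer (Set.mul_mem_centralizer haG hx) haG) g hg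
    · exact sym_a haa x
    · rw [hbe, sub_mul, mul_sub, add_mul, mul_add _ e, sym_e haa hae h1 h2, one_mul, mul_one]
  have hdown : ∀ p ∈ Set.centralizer (G ∪ {a, b}), IsStarProjection p →
      p * e ∈ Set.centralizer G ∧ IsStarProjection (p * e) ∧ e * p = p * e ∧
        p * e + a * (p * e) * a = p := by
    intro p hp hpp
    have h1 : e * p = p * e := hce p (hp b (Or.inr (Or.inr rfl)))
    refine ⟨Set.mul_mem_centralizer (fun g hg => hp g (Or.inl hg)) heG, ?_, h1,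
      sym_pe haa hae (hp a (Or.inr (Or.inl rfl)))⟩
    exact hpp.mul ⟨hee, hes⟩ h1.symm
  refine ⟨fun p hp q hq hpp hqq ht => ?_, fun p hp hpp t ht0 ht => ?_⟩
  · obtain ⟨p1, p2, p3, p4⟩ := hdown p hp hpp
    obtain ⟨q1, q2, q3, q4⟩ := hdown q hq hqq
    have ht' : S.τ (p * e) = S.τ (q * e) := by
      rw [← p4, ← q4, sym_τ S haa, sym_τ S haa] at ht
      exact mul_left_cancel₀ two_ne_zero ht
    obtain ⟨w, hw, w1, w2⟩ := hN.1 _ p1 _ q1 p2 q2 ht'
    have u1 : w * e = w := by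
      have := piso p2 w1
      rw [← this, mul_assoc, mul_assoc, hee]
    have u2 : star w * e = star w := by
      have := piso (w := star w) q2 (by rw [star_star, w2])
      rw [← this, mul_assoc, mul_assoc, hee]
    have u3 : e * w = w := by
      have := congrArg star u2
      rwa [star_mul, hes, star_star] at this
    have u4 : e * star w = star w := by
      have := congrArg star u1
      rwa [star_mul, hes] at this
    refine ⟨w + a * w * a, hmem w hw u1 u3, ?_, ?_⟩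
    · rw [sym_star ha, sym_mul haa hee hae u2 u3, w1, p4]
    · rw [sym_star ha, sym_mul haa hee hae u1 u4, w2, q4]
  · obtain ⟨p1, p2, p3, p4⟩ := hdown p hp hpp
    have ht' : t / 2 ≤ (S.τ (p * e)).re := by
      rw [← p4, sym_τ S haa] at ht
      simp only [Complex.mul_re, Complex.re_ofNat, Complex.im_ofNat, zero_mul, sub_zero] at ht
      linarith
    obtain ⟨q, hq, q1, q2, q3⟩ := hN.2 _ p1 p2 (t / 2) (by linarith) ht'
    have qs : star q = q := q1.isSelfAdjoint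
    have qq : q * q = q := q1.isIdempotentElem
    have u3 : e * q = q := by rw [← q2, ← mul_assoc, ← mul_assoc, p3, mul_assoc p, hee]
    have u1 : q * e = q := by
      have := congrArg star u3
      rwa [star_mul, hes, qs] at this
    refine ⟨q + a * q * a, hmem q hq u1 u3, ⟨?_, ?_⟩, ?_, ?_⟩
    · change _ * _ = _
      rw [sym_mul haa hee hae u1 u3, qq]
    · change star _ = _
      rw [sym_star ha, qs]
    · have h := sym_mul haa hee hae (x := p * e) (by rw [mul_assoc, hee]) u3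
      rw [p4, q2] at h
      exact h
    · rw [sym_τ S haa, q3]; push_cast; ring

end Pool.Agent.MP_890ef7_an.KK

end

section

open scoped InnerProductSpace ComplexOrder
open Filter Topology

namespace Pool.Agent.MP_890ef7_an.KK

universe v w

theorem Onto_pf :
    POnto.{v} := by
  intro A B K K' _ _ _ _ _ _ _ _ S S' E h1 h2
  have iso : Isometry S.L := AddMonoidHomClass.isometry_of_norm _ S.norm_L
  have iso' : Isometry S'.L := AddMonoidHomClass.isometry_of_norm _ S'.norm_L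
  let V : Submodule ℂ B :=
    { carrier := {y | ∃ x, ∀ z, E (S.L x z) = S'.L y (E z)}
      add_mem' := fun ⟨a, ha⟩ ⟨b, hb⟩ => ⟨a + b, fun z => by simp [ha, hb]⟩
      zero_mem' := ⟨0, fun z => by simp⟩
      smul_mem' := fun c _ ⟨a, ha⟩ => ⟨c • a, fun z => by simp [ha]⟩ }
  have hV : IsClosed (V : Set B) := by
    have hc : Continuous fun y : B => (E.symm : K' →L[ℂ] K) ∘L S'.L y ∘L (E : K →L[ℂ] K') :=
      continuous_const.clm_comp (iso'.continuous.clm_comp continuous_const)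
    convert iso.isClosedEmbedding.isClosed_range.preimage hc using 1
    ext y
    refine exists_congr fun x => ?_
    rw [ContinuousLinearMap.ext_iff]
    exact forall_congr' fun z => E.eq_symm_apply.symm
  intro y
  by_contra h
  obtain ⟨y, h3, h4⟩ := riesz_lemma hV ⟨y, h⟩ (show (3 / 4 : ℝ) < 1 by norm_num)
  obtain ⟨x, hx⟩ := h2 y
  obtain ⟨y', hy⟩ := h1 x
  have e : (E : K →L[ℂ] K') ∘L S.L x ∘L (E.symm : K' →L[ℂ] K) = S'.L y' := by
    ext z
    simp [hy]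
  rw [e, ← map_sub, S'.norm_L, norm_sub_rev] at hx
  have h5 := h4 y' ⟨x, hy⟩
  have h6 : ‖y‖ = 0 := by linarith [norm_nonneg y]
  exact h3 (norm_eq_zero.1 h6 ▸ V.zero_mem)

end Pool.Agent.MP_890ef7_an.KK

end

section

open scoped InnerProductSpace ComplexOrder
open Filter Topology

namespace Pool.Agent.MP_890ef7_an.KK

universe v w

namespace RangeJ

theorem proj_fix {K : Type v} [NormedAddCommGroup K] [InnerProductSpace ℂ K] [CompleteSpace K]
    (X : K →L[ℂ] K) : ∃ P : K →L[ℂ] K, IsStarProjection P ∧ P * X = X ∧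
      ∀ Y Z : K →L[ℂ] K, Y * X = Z * X → Y * P = Z * P := by
  let U : Submodule ℂ K := (LinearMap.range (X : K →ₗ[ℂ] K)).topologicalClosure
  have : CompleteSpace U :=
    (Submodule.isClosed_topologicalClosure _).completeSpace_coe
  refine ⟨U.starProjection, isStarProjection_starProjection, ?_, fun Y Z h => ?_⟩
  · ext z
    exact Submodule.starProjection_eq_self_iff.2
      (Submodule.le_topologicalClosure _ (LinearMap.mem_range_self _ z))
  · ext z
    have h1 : U.starProjection z ∈ closure (Set.range X) := U.starProjection_apply_mem z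
    refine (isClosed_eq Y.continuous Z.continuous).closure_subset_iff.2 ?_ h1
    rintro _ ⟨u, rfl⟩
    exact congrArg (fun T : K →L[ℂ] K => T u) h

theorem comm_of {B : Type*} [Ring B] [StarRing B] {p b : B} (hp : star p = p)
    (h1 : p * b * p = b * p) (h2 : p * star b * p = star b * p) : b * p = p * b := by
  have h3 := congrArg star h2
  simp only [star_mul, star_star, hp] at h3
  rw [← h1, mul_assoc, h3]

end RangeJ

theorem Range_pf (hWstar : PWstar.{v}) :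
    PRange.{v} := by
  intro A K _ _ _ _ S x
  obtain ⟨P, hP, h1, h2⟩ := RangeJ.proj_fix (S.L x)
  have h3 : ∀ b, P * S.R b * P = S.R b * P := fun b =>
    h2 _ _ (by rw [mul_assoc, ← S.comm, ← mul_assoc, h1])
  obtain ⟨p, hp⟩ := hWstar S P fun b =>
    (RangeJ.comm_of hP.isSelfAdjoint (h3 b) (by rw [← S.R_star]; exact h3 _)).symm
  have p1 : star p = p := S.L_injective (by rw [map_star, hp]; exact hP.isSelfAdjoint)
  have p2 : p * p = p := S.L_injective (by rw [map_mul, hp]; exact hP.isIdempotentElem)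
  have p3 : p * x = x := S.L_injective (by rw [map_mul, hp, h1])
  have p4 : ∀ y z, y * x = z * x → y * p = z * p := fun y z h =>
    S.L_injective (by rw [map_mul, map_mul, hp]; exact h2 _ _ (by rw [← map_mul, ← map_mul, h]))
  have p5 : ∀ b, b * x = x * b → p * b * p = b * p := fun b h =>
    p4 _ _ (by rw [mul_assoc, h, ← mul_assoc, p3])
  refine ⟨p, ⟨p2, p1⟩, p3, fun y hy => ?_, fun b hb hb' => RangeJ.comm_of p1 (p5 _ hb) (p5 _ hb')⟩
  rw [p4 y 0 (by rw [hy, zero_mul]), zero_mul]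

end Pool.Agent.MP_890ef7_an.KK

end

section

open scoped InnerProductSpace ComplexOrder
open Filter Topology

namespace Pool.Agent.MP_890ef7_an.KK

universe v w

namespace Sep1J

variable {A K : Type v} [CStarAlgebra A] [NormedAddCommGroup K] [InnerProductSpace ℂ K]
  [CompleteSpace K] {S : Std A K} {Q : StarSubalgebra ℂ A} {P : K →L[ℂ] K}

theorem mem (hP : IsStarProjection P)
    (hr : ∀ z, P z = z ↔ z ∈ closure (S.hat '' (Q : Set A))) (z : K) :
    P z ∈ closure (S.hat '' (Q : Set A)) :=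
  (hr _).1 (congrArg (fun T : K →L[ℂ] K => T z) hP.isIdempotentElem.eq)

theorem ext0 (hP : IsStarProjection P)
    (hr : ∀ z, P z = z ↔ z ∈ closure (S.hat '' (Q : Set A))) {T T' : K →L[ℂ] K}
    (h : ∀ q ∈ Q, T (S.hat q) = T' (S.hat q)) : T * P = T' * P := by
  ext z
  have h1 : closure (S.hat '' (Q : Set A)) ⊆ {w | T w = T' w} :=
    closure_minimal (by rintro _ ⟨q, hq, rfl⟩; exact h q hq)
      (isClosed_eq T.continuous T'.continuous)
  exact h1 (mem hP hr z)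

theorem comm (hP : IsStarProjection P)
    (hr : ∀ z, P z = z ↔ z ∈ closure (S.hat '' (Q : Set A))) {T : K →L[ℂ] K}
    (h : ∀ q ∈ Q, T (S.hat q) ∈ closure (S.hat '' (Q : Set A)))
    (h' : ∀ q ∈ Q, (star T) (S.hat q) ∈ closure (S.hat '' (Q : Set A))) : P * T = T * P := by
  have h1 : P * T * P = T * P := ext0 hP hr fun q hq => (hr _).2 (h q hq)
  have h2 : P * star T * P = star T * P := ext0 hP hr fun q hq => (hr _).2 (h' q hq)
  have h3 := congrArg star h2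
  rw [star_mul, star_mul, star_mul, star_star, hP.isSelfAdjoint.star_eq, ← mul_assoc] at h3
  rw [← h3, h1]

end Sep1J

open Sep1J in
theorem Sep1_pf (hGP : PGP.{v}) :
    PSep1.{v} := by
  intro A K _ _ _ _ S Q P Y hQ hP hr hY
  have hR : ∀ y ∈ Q, ∀ w, P (S.R y w) = S.R y (P w) := fun y hy w =>
    congrArg (fun T : K →L[ℂ] K => T w) (comm hP hr (T := S.R y)
      (fun q hq => subset_closure ⟨q * y, mul_mem hq hy, (S.R_hat q y).symm⟩) fun q hq => by
        rw [← S.R_star]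
        exact subset_closure ⟨q * star y, mul_mem hq (star_mem hy), (S.R_hat q _).symm⟩)
  have hz : ∀ y ∈ Q, S.R y (P (Y S.ξ)) = (P * Y) (S.hat y) := fun y hy => by
    have h1 : Y (S.R y S.ξ) = S.R y (Y S.ξ) := congrArg (fun T : K →L[ℂ] K => T S.ξ) (hY y hy)
    rw [← hR y hy, ← h1, S.R_ξ]
    rfl
  have hb : ∀ n : ℕ, ∃ b ∈ Q, ‖b‖ ≤ 2 * (‖P * Y‖ + 1) ∧
      ‖P (Y S.ξ) - S.hat b‖ ≤ 2 * 0 + 1 / ((n : ℝ) + 1) := fun n =>
    hGP S Q hQ _ (mem hP hr _) _ 0 _ (by positivity) le_rfl (by positivity) fun y hy => by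
      rw [hz y hy, zero_mul, add_zero]
      exact ((P * Y).le_opNorm _).trans
        (mul_le_mul_of_nonneg_right (by linarith) (norm_nonneg _))
  choose b hb1 hb2 hb3 using hb
  have ht : Tendsto (fun n => S.hat (b n)) atTop (𝓝 (P (Y S.ξ))) := by
    rw [tendsto_iff_norm_sub_tendsto_zero]
    refine squeeze_zero (fun _ => norm_nonneg _) (fun n => ?_)
      (tendsto_one_div_add_atTop_nhds_zero_nat (𝕜 := ℝ))
    rw [norm_sub_rev]
    simpa using hb3 n
  obtain ⟨c, hc, -⟩ := S.exists_of_tendsto (Eventually.of_forall hb2) ht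
  have hs : S.hat (star c) ∈ closure (S.hat '' (Q : Set A)) :=
    mem_closure_of_tendsto (S.tendsto_hat_star (hc ▸ ht))
      (Eventually.of_forall fun n => ⟨_, star_mem (hb1 n), rfl⟩)
  have h1 : ∀ q ∈ Q, S.L c (S.hat q) = (P * Y) (S.hat q) := fun q hq => by
    rw [S.L_hat, ← S.R_hat, hc, hz q hq]
  have h2 : S.L c * P = P * Y * P := ext0 hP hr h1
  refine ⟨c, h2, (comm hP hr (fun q hq => ?_) fun q hq => ?_).trans h2⟩
  · rw [h1 q hq]
    exact mem hP hr _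
  · rw [← map_star, S.L_hat, ← S.R_hat, ← (hr _).2 hs, ← hR q hq]
    exact mem hP hr _

end Pool.Agent.MP_890ef7_an.KK

end

section

open scoped InnerProductSpace ComplexOrder
open Filter Topology

namespace Pool.Agent.MP_890ef7_an.KK

universe v w

namespace Sep2J

/-- positivity can be tested on finite families. -/
theorem psd_of_fin {X : Type*} {M : Matrix X X ℂ}
    (h : ∀ (n : ℕ) (e : Fin n → X), (M.submatrix e e).PosSemidef) : M.PosSemidef := by
  refine ⟨Matrix.IsHermitian.ext fun p q => (h 2 ![p, q]).1.apply 0 1, fun f => ?_⟩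
  let e := f.support.equivFin.symm
  have h1 := (h _ fun i => e i).dotProduct_mulVec_nonneg fun i => f (e i)
  refine h1.trans_eq ?_
  simp only [dotProduct, Matrix.mulVec, Matrix.submatrix_apply, Pi.star_apply, Finsupp.sum,
    Finset.mul_sum, mul_assoc]
  rw [← Finset.sum_coe_sort f.support, ← e.sum_comp]
  refine Finset.sum_congr rfl fun i _ => ?_
  rw [← Finset.sum_coe_sort f.support, ← e.sum_comp]

end Sep2J

theorem Sep2_pf (hSepF : PSepF.{v}) :
    PSep2.{v} := by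
  intro A K _ _ _ _ S Q P hQ hP hr
  refine Sep2J.psd_of_fin fun n e => ?_
  obtain ⟨c, hc⟩ := hSepF S Q P hQ hP hr n fun i => (e i).1
  refine psd_congr (Matrix.posSemidef_sum Finset.univ fun l _ =>
    psd_gram fun i => S.hat (c l i * (e i).2)) fun i j => ?_
  rw [Matrix.submatrix_apply, Matrix.of_apply, ← ContinuousLinearMap.adjoint_inner_right,
    ← ContinuousLinearMap.star_eq_adjoint, hP.isSelfAdjoint.star_eq, hc, inner_sum,
    Matrix.sum_apply]
  refine Finset.sum_congr rfl fun l _ => ?_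
  rw [Matrix.of_apply, S.inner_hat, S.inner_hat, star_mul, star_mul, star_star, mul_assoc,
    S.τ_comm]
  simp only [mul_assoc]

end Pool.Agent.MP_890ef7_an.KK

end

section

open scoped InnerProductSpace ComplexOrder
open Filter Topology

namespace Pool.Agent.MP_890ef7_an.KK

universe v w

namespace Sep4J

variable {A I E : Type v} [NormedAddCommGroup E] [InnerProductSpace ℂ E]

/-- pointwise convergence of bounded functionals extends from a total family -/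
theorem ext1 {f : Filter A} {w : I → E} (hw : DenseRange (Finsupp.linearCombination ℂ w))
    {φ : A → E →L[ℂ] ℂ} {ψ : E →L[ℂ] ℂ} {c : ℝ} (hc : ∀ᶠ x in f, ‖φ x‖ ≤ c)
    (h : ∀ p, Tendsto (fun x => φ x (w p)) f (𝓝 (ψ (w p)))) (z : E) :
    Tendsto (fun x => φ x z) f (𝓝 (ψ z)) := by
  have h1 : ∀ u : I →₀ ℂ, Tendsto (fun x => φ x (Finsupp.linearCombination ℂ w u)) f
      (𝓝 (ψ (Finsupp.linearCombination ℂ w u))) := fun u => by
    simp only [Finsupp.linearCombination_apply, Finsupp.sum, map_sum, map_smul]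
    exact tendsto_finsetSum _ fun p _ => (h p).const_smul _
  rw [Metric.tendsto_nhds]
  intro ε hε
  have hp : 0 < |c| + ‖ψ‖ + 1 := by positivity
  obtain ⟨u, hu⟩ := hw.exists_dist_lt z (div_pos hε hp)
  have hq : 0 < ε / (|c| + ‖ψ‖ + 1) := div_pos hε hp
  filter_upwards [hc, Metric.tendsto_nhds.1 (h1 u) _ hq] with x hx hy
  generalize Finsupp.linearCombination ℂ w u = y at hu hy
  rw [dist_eq_norm] at hu hy ⊢
  have e : φ x z - ψ z = φ x (z - y) + (φ x y - ψ y) - ψ (z - y) := by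
    rw [map_sub, map_sub]; ring
  have a1 : ‖φ x (z - y)‖ ≤ |c| * (ε / (|c| + ‖ψ‖ + 1)) := ((φ x).le_opNorm _).trans
    (mul_le_mul (hx.trans (le_abs_self c)) hu.le (norm_nonneg _) (abs_nonneg c))
  have a2 : ‖ψ (z - y)‖ ≤ ‖ψ‖ * (ε / (|c| + ‖ψ‖ + 1)) :=
    (ψ.le_opNorm _).trans (mul_le_mul_of_nonneg_left hu.le (norm_nonneg _))
  have a3 : (|c| + ‖ψ‖ + 1) * (ε / (|c| + ‖ψ‖ + 1)) = ε := mul_div_cancel₀ _ hp.ne'
  have a4 := norm_sub_le (φ x (z - y) + (φ x y - ψ y)) (ψ (z - y))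
  have a5 := norm_add_le (φ x (z - y)) (φ x y - ψ y)
  rw [e]
  linarith

/-- weak convergence of bounded operators extends from a total family -/
theorem ext2 {f : Filter A} {w : I → E} (hw : DenseRange (Finsupp.linearCombination ℂ w))
    {T : A → E →L[ℂ] E} {T₀ : E →L[ℂ] E} (hc : ∀ᶠ x in f, ‖T x‖ ≤ 1)
    (h : ∀ p q, Tendsto (fun x => ⟪w p, T x (w q)⟫_ℂ) f (𝓝 ⟪w p, T₀ (w q)⟫_ℂ)) (z u : E) :
    Tendsto (fun x => ⟪z, T x u⟫_ℂ) f (𝓝 ⟪z, T₀ u⟫_ℂ) := by
  have h1 : ∀ p, Tendsto (fun x => ⟪w p, T x u⟫_ℂ) f (𝓝 ⟪w p, T₀ u⟫_ℂ) := fun p =>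
    ext1 hw (φ := fun x => innerSL ℂ (w p) ∘L T x) (ψ := innerSL ℂ (w p) ∘L T₀) (c := ‖w p‖ * 1)
      (hc.mono fun x hx => (ContinuousLinearMap.opNorm_comp_le _ _).trans (by
        rw [innerSL_apply_norm]
        exact mul_le_mul_of_nonneg_left hx (norm_nonneg _))) (h p) u
  have h2 := ext1 hw (φ := fun x => innerSL ℂ (T x u)) (ψ := innerSL ℂ (T₀ u)) (c := 1 * ‖u‖)
    (hc.mono fun x hx => by
      rw [innerSL_apply_norm]
      exact ((T x).le_opNorm u).trans (mul_le_mul_of_nonneg_right hx (norm_nonneg _)))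
    (fun p => by
      have := (Complex.continuous_conj.tendsto _).comp (h1 p)
      simpa only [Function.comp_def, innerSL_apply_apply, inner_conj_symm] using this) z
  have := (Complex.continuous_conj.tendsto _).comp h2
  simpa only [Function.comp_def, innerSL_apply_apply, inner_conj_symm] using this

end Sep4J

theorem Sep4_pf :
    PSep4.{v} := by
  intro A K _ _ _ _ S P hP E _ _ _ w l r hi hw hl hr nl nr
  have hs : ∀ a b : K, ⟪P a, b⟫_ℂ = ⟪a, P b⟫_ℂ := fun a b => by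
    rw [← ContinuousLinearMap.adjoint_inner_right, ← ContinuousLinearMap.star_eq_adjoint,
      hP.isSelfAdjoint.star_eq]
  have e1 : ∀ x p q, ⟪w p, l x (w q)⟫_ℂ =
      ⟪S.L p.1 (P (S.hat (p.2 * star q.2))), S.L x (S.hat q.1)⟫_ℂ := fun x p q => by
    rw [hl, hi, S.inner_L, S.L_hat, S.L_hat]
  have e2 : ∀ x p q, ⟪w p, r x (w q)⟫_ℂ =
      ⟪S.hat (star q.2), S.L x (S.L (star p.2) (P (S.hat (star p.1 * q.1))))⟫_ℂ := fun x p q => by
    rw [hr, hi, hs, star_mul, ← S.L_hat, ← S.L_hat, S.inner_L, S.inner_L, star_star]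
  refine ⟨fun f y hf h => Sep4J.ext2 hw (hf.mono fun x hx => (nl x).trans hx) fun p q => ?_,
    fun f y hf h => Sep4J.ext2 hw (hf.mono fun x hx => (nr x).trans hx) fun p q => ?_⟩
  · simp only [e1]
    exact h _ _
  · simp only [e2]
    exact h _ _

end Pool.Agent.MP_890ef7_an.KK

end

section

open scoped InnerProductSpace ComplexOrder
open Filter Topology

namespace Pool.Agent.MP_890ef7_an.KK

universe v w

namespace TransferJ

variable {H A B K K' : Type v} [NormedAddCommGroup H] [InnerProductSpace ℂ H] [CompleteSpace H]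
  [CStarAlgebra A] [CStarAlgebra B] [NormedAddCommGroup K] [InnerProductSpace ℂ K]
  [CompleteSpace K] [NormedAddCommGroup K'] [InnerProductSpace ℂ K'] [CompleteSpace K']
  {E : Type w} [NormedAddCommGroup E] [InnerProductSpace ℂ E] [CompleteSpace E]

/-- the pull back of a map that is linear, unital, star preserving and normal -/
theorem pull {N : VonNeumannAlgebra H} (S : Std A K) (S' : Std B K')
    (ι' : B →⋆ₐ[ℂ] (H →L[ℂ] H)) (θ : A ≃⋆ₐ[ℂ] B) (U : K ≃ₗᵢ[ℂ] K') (h1 : ∀ x, ‖ι' x‖ = ‖x‖)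
    (h2 : ∀ x, x ∈ N ↔ ∃ a, ι' a = x) (h3 : Linked S' ι')
    (hU : ∀ x z, U (S.L x z) = S'.L (θ x) (U z)) {φ : (H →L[ℂ] H) → E →L[ℂ] E}
    (hφ : IsStarLinearOn N φ) : ∃ l : A →ₗ[ℂ] (E →L[ℂ] E), (∀ x, l x = φ (ι' (θ x))) ∧ l 1 = 1 ∧
      (∀ x, l (star x) = star (l x)) ∧ Nrm S l := by
  have hN : ∀ x, ι' (θ x) ∈ N := fun x => (h2 _).2 ⟨_, rfl⟩
  obtain ⟨a1, a2, a3, a4, a5⟩ := hφ
  refine ⟨⟨⟨fun x => φ (ι' (θ x)), fun x y => ?_⟩, fun c x => ?_⟩, fun _ => rfl, ?_, fun x => ?_,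
    fun f y hf hw z w => ?_⟩
  · rw [map_add, map_add, a1 _ (hN x) _ (hN y)]
  · change φ (ι' (θ (c • x))) = c • φ (ι' (θ x))
    rw [map_smul, map_smul, a2 _ _ (hN x)]
  · change φ (ι' (θ 1)) = 1
    rw [map_one, map_one, a3]
  · change φ (ι' (θ (star x))) = star (φ (ι' (θ x)))
    rw [map_star, map_star, a4 _ (hN x)]
  · have hθ : ∀ᶠ x in f, ‖θ x‖ ≤ 1 := hf.mono fun x hx => by rwa [StarAlgEquiv.norm_map]
    have e : ∀ x (z w : K'), ⟪z, S'.L (θ x) w⟫_ℂ = ⟪U.symm z, S.L x (U.symm w)⟫_ℂ := fun x z w => by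
      rw [← U.inner_map_map, hU, U.apply_symm_apply, U.apply_symm_apply]
    have h4 := (h3 (f.map θ) (θ y) hθ).2 fun z w => by
      rw [tendsto_map'_iff, e]
      exact (hw _ _).congr fun x => (e x z w).symm
    exact a5 (f.map fun x => ι' (θ x)) _ (hN y)
      (hθ.mono fun x hx => ⟨hN x, (h1 _).trans_le hx⟩) h4 w z

end TransferJ

theorem Transfer_pf (hBimod : PBimod.{v, w}) :
    PTransfer.{v, w} := by
  intro H A B K K' _ _ _ _ _ _ _ _ _ _ _ M N S S' ι ι' θ U h1 h2 h3 h1' h2' h3' hU hT ε hε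
  classical
  obtain ⟨F, δ, hF, hδ, hR⟩ := hT ε hε
  have hN : ∀ x, ι' (θ x) ∈ N := fun x => (h2' _).2 ⟨_, rfl⟩
  have hc : ∀ x : H →L[ℂ] H, ∃ a, x ∈ M → ι a = x := fun x => by
    by_cases hx : x ∈ M
    · exact ((h2 x).1 hx).imp fun a e _ => e
    · exact ⟨0, fun h => absurd h hx⟩
  choose s hs using hc
  refine ⟨F.image fun x => ι' (θ (s x)), δ, fun y hy => ?_, hδ, ?_⟩
  · obtain ⟨x, -, rfl⟩ := Finset.mem_image.1 hy
    exact hN _
  intro E _ _ _ L R ⟨hL, hR', hm⟩ ξ hξ hc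
  obtain ⟨l, l0, l1, l2, l3⟩ := TransferJ.pull S S' ι' θ U h1' h2' h3' hU hL
  obtain ⟨r, r0, r1, r2, r3⟩ := TransferJ.pull S S' ι' θ U h1' h2' h3' hU hR'
  obtain ⟨l', r', hb, e1, e2⟩ := hBimod M S ι h1 h2 h3 l r l1 r1 l2 r2
    (fun x y => by rw [l0, l0, l0, map_mul, map_mul, (hm _ (hN x) _ (hN y)).1])
    (fun x y => by rw [r0, r0, r0, map_mul, map_mul, (hm _ (hN x) _ (hN y)).2.1])
    (fun x y => by rw [l0, r0, (hm _ (hN x) _ (hN y)).2.2]) l3 r3
  obtain ⟨η, c1, c2⟩ := hR E l' r' hb ξ hξ fun x hx => by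
    rw [← hs x (hF x hx), e1, e2, l0, r0]
    exact hc _ (Finset.mem_image_of_mem _ hx)
  refine ⟨η, fun y hy => ?_, c2⟩
  obtain ⟨b, rfl⟩ := (h2' y).1 hy
  have := c1 (ι (θ.symm b)) ((h2 _).2 ⟨_, rfl⟩)
  rwa [e1, e2, l0, r0, θ.apply_symm_apply] at this

end Pool.Agent.MP_890ef7_an.KK

end
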