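import Mathlib
import Pool.Agent.Mg.F890ef7p.Ga4291c

section

open scoped InnerProductSpace ComplexOrder
open Filter Topology

namespace Pool.Agent.MP_890ef7_an.KK

universe v w

namespace AvgJ

variable {A B K Γ : Type v} [CStarAlgebra A] [CStarAlgebra B] [NormedAddCommGroup K]
  [InnerProductSpace ℂ K] [CompleteSpace K] [Group Γ]

/-- the conjugate of `k` by a left and a right unitary. -/
noncomputable def cj (S : Std B K) (ρ : Γ →* unitary B) (k : K →L[ℂ] K) (g h : Γ) : K →L[ℂ] K :=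
  S.L (ρ g) * S.R (ρ h) * k * S.R (ρ h⁻¹) * S.L (ρ g⁻¹)

theorem L_mul (S : Std B K) (ρ : Γ →* unitary B) (g g' : Γ) :
    S.L (ρ (g * g')) = S.L (ρ g) * S.L (ρ g') := by
  rw [map_mul ρ, Submonoid.coe_mul, map_mul]

theorem R_mul (S : Std B K) (ρ : Γ →* unitary B) (g g' : Γ) :
    S.R (ρ (g * g')) = S.R (ρ g') * S.R (ρ g) := by
  rw [map_mul ρ, Submonoid.coe_mul, S.R_mul]

theorem norm_u (S : Std B K) (u : unitary B) : ‖(u : B)‖ = 1 := by
  have := S.nontrivial
  exact CStarRing.norm_coe_unitary u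

theorem norm_L_u (S : Std B K) (u : unitary B) (z : K) : ‖S.L u z‖ ≤ ‖z‖ := by
  simpa [norm_u S u] using S.norm_L_apply u z

theorem norm_R_u (S : Std B K) (u : unitary B) (z : K) : ‖S.R u z‖ ≤ ‖z‖ := by
  simpa [norm_u S u] using S.norm_R_apply u z

theorem L_cj (S : Std B K) (ρ : Γ →* unitary B) (k : K →L[ℂ] K) (g₀ g h : Γ) :
    S.L (ρ g₀) * cj S ρ k g h = cj S ρ k (g₀ * g) h * S.L (ρ g₀) := by
  have e : S.L (ρ (g₀ * g)⁻¹) * S.L (ρ g₀) = S.L (ρ g⁻¹) := by
    rw [← L_mul]; congr 3; group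
  simp only [cj, mul_assoc, e, L_mul S ρ g₀ g]

theorem R_cj (S : Std B K) (ρ : Γ →* unitary B) (k : K →L[ℂ] K) (h₀ g h : Γ) :
    S.R (ρ h₀) * cj S ρ k g h = cj S ρ k g (h * h₀) * S.R (ρ h₀) := by
  have e : S.R (ρ (h * h₀)⁻¹) * S.R (ρ h₀) = S.R (ρ h⁻¹) := by
    rw [← R_mul]; congr 3; group
  have e1 : S.R (ρ (h * h₀)⁻¹) * (S.L (ρ g⁻¹) * S.R (ρ h₀)) = S.R (ρ h⁻¹) * S.L (ρ g⁻¹) := by
    rw [S.comm, ← mul_assoc, e]
  have e2 : ∀ X : K →L[ℂ] K, S.R (ρ h₀) * (S.L (ρ g) * X) = S.L (ρ g) * (S.R (ρ h₀) * X) :=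
    fun X => by rw [← mul_assoc, ← S.comm, mul_assoc]
  simp only [cj, mul_assoc, e1, e2, R_mul S ρ h h₀]

theorem norm_cj_apply (S : Std B K) (ρ : Γ →* unitary B) (k : K →L[ℂ] K) (g h : Γ) (z : K) :
    ‖cj S ρ k g h z‖ ≤ ‖k (S.R (ρ h⁻¹) (S.L (ρ g⁻¹) z))‖ :=
  (norm_L_u S (ρ g) _).trans (norm_R_u S (ρ h) _)

theorem norm_cj (S : Std B K) (ρ : Γ →* unitary B) (k : K →L[ℂ] K) (g h : Γ) :
    ‖cj S ρ k g h‖ ≤ ‖k‖ :=
  ContinuousLinearMap.opNorm_le_bound _ (norm_nonneg _) fun z =>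
    (norm_cj_apply S ρ k g h z).trans ((k.le_opNorm _).trans (mul_le_mul_of_nonneg_left
      ((norm_R_u S _ _).trans (norm_L_u S _ _)) (norm_nonneg _)))

theorem norm_cj_hat (S : Std B K) (ρ : Γ →* unitary B) (k : K →L[ℂ] K) {β : ℝ} (hβ : 0 ≤ β)
    (hk : ∀ y, ‖k (S.hat y)‖ ≤ β * ‖y‖) (g h : Γ) (y : B) :
    ‖cj S ρ k g h (S.hat y)‖ ≤ β * ‖y‖ := by
  refine (norm_cj_apply S ρ k g h _).trans ?_
  rw [S.L_hat, S.R_hat]
  refine (hk _).trans (mul_le_mul_of_nonneg_left ?_ hβ)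
  refine (norm_mul_le _ _).trans ?_
  rw [norm_u S, mul_one]
  refine (norm_mul_le _ _).trans ?_
  rw [norm_u S, one_mul]

/-- `Ψ` as a linear map in the operator. -/
noncomputable def Ψk {S : Std B K} {ν γ : ℝ} (D : Pre A S ν γ) (x : A) (y : B) :
    (K →L[ℂ] K) →ₗ[ℂ] K where
  toFun k := D.Ψ k x y
  map_add' k k' := by simp only [Pre.Ψ, map_add, add_apply]; abel
  map_smul' c k := by
    simp only [Pre.Ψ, map_smul, smul_apply, smul_sub, smul_add, RingHom.id_apply]

theorem Ψ_one {S : Std B K} {ν γ : ℝ} (D : Pre A S ν γ) (x : A) (y : B) : D.Ψ 1 x y = 0 := by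
  simp [Pre.Ψ]

theorem weak_comp {I : Type*} {l : Filter I} {kn : I → K →L[ℂ] K} {kb : K →L[ℂ] K}
    (h : ∀ a b, Tendsto (fun i => ⟪a, kn i b⟫_ℂ) l (𝓝 ⟪a, kb b⟫_ℂ)) (P : K →L[ℂ] K) (a b : K) :
    Tendsto (fun i => ⟪a, P (kn i b)⟫_ℂ) l (𝓝 ⟪a, P (kb b)⟫_ℂ) := by
  simpa only [ContinuousLinearMap.adjoint_inner_left] using h (ContinuousLinearMap.adjoint P a) b

theorem weak_Ψ {S : Std B K} {ν γ : ℝ} (D : Pre A S ν γ) {I : Type*} {l : Filter I}
    {kn : I → K →L[ℂ] K} {kb : K →L[ℂ] K}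
    (h : ∀ a b, Tendsto (fun i => ⟪a, kn i b⟫_ℂ) l (𝓝 ⟪a, kb b⟫_ℂ)) (x : A) (y : B) (a : K) :
    Tendsto (fun i => ⟪a, D.Φ x y + D.Ψ (kn i) x y⟫_ℂ) l (𝓝 ⟪a, D.Φ x y + D.Ψ kb x y⟫_ℂ) := by
  simp only [Pre.Ψ, inner_add_right, inner_sub_right]
  exact tendsto_const_nhds.add ((((weak_comp h (D.π x) a _).sub (h a _)).sub
    (weak_comp h (S.R y * D.π x) a _)).add (weak_comp h (S.R y) a _))

theorem comm_lim {I : Type*} {l : Filter I} [l.NeBot] {kn : I → K →L[ℂ] K} {kb : K →L[ℂ] K}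
    (h : ∀ a b, Tendsto (fun i => ⟪a, kn i b⟫_ℂ) l (𝓝 ⟪a, kb b⟫_ℂ)) (P : K →L[ℂ] K)
    (hP : ∀ᶠ i in l, P * kn i = kn i * P) : kb * P = P * kb := by
  ext b
  refine ext_inner_left ℂ fun a => ?_
  refine tendsto_nhds_unique (h a (P b)) ((weak_comp h P a b).congr' (hP.mono fun i hi => ?_))
  exact congrArg (fun T : K →L[ℂ] K => ⟪a, T b⟫_ℂ) hi

end AvgJ

open AvgJ in
theorem Avg_pf (hConj : PConj.{v}) (hFix : PFix.{v}) (hL2 : PL2.{v}) :
    PAvg.{v} := by
  intro A B K Γ _ _ _ _ _ _ S γ η C T j ρ hE hcom k β δ hβ hδ hk hΨ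
  let kn : ℕ → K →L[ℂ] K := fun n => avg (T.G n) fun g => avg (T.G n) fun h => cj S ρ k g h
  have hkn : ∀ n, ‖kn n‖ ≤ ‖k‖ := fun n =>
    norm_avg_le (norm_nonneg _) fun g _ => norm_avg_le (norm_nonneg _) fun h _ => norm_cj S ρ k g h
  obtain ⟨kb, hkb⟩ := exists_wot_lim ω kn (norm_nonneg k) hkn
  have hL : ∀ g, kb * S.L (ρ g) = S.L (ρ g) * kb := fun g₀ =>
    comm_lim hkb _ ((T.ev g₀).mono fun n hn => by
      simp only [kn, avg_mul_left', avg_mul_right', L_cj]
      exact (T.grp n).avg_left hn fun g => avg (T.G n) fun h => cj S ρ k g h * S.L (ρ g₀))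
  have hR : ∀ g, kb * S.R (ρ g) = S.R (ρ g) * kb := fun h₀ =>
    comm_lim hkb _ ((T.ev h₀).mono fun n hn => by
      simp only [kn, avg_mul_left', avg_mul_right', R_cj]
      exact avg_congr fun g _ =>
        (T.grp n).avg_right hn fun h => cj S ρ k g h * S.R (ρ h₀))
  have hb : ∀ y, ‖kb (S.hat y)‖ ≤ β * ‖y‖ := fun y => by
    refine norm_le_of_weak' (Eventually.of_forall fun n => ?_) (hkb _ _)
    simp only [kn, avg_apply]
    exact norm_avg_le (by positivity) fun g _ => norm_avg_le (by positivity) fun h _ =>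
      norm_cj_hat S ρ k hβ hk g h y
  have hP : ∀ x y, ‖C.Φ x y + C.Ψ kb x y‖ ≤ 2 * δ * ‖x‖ * ‖y‖ := fun x y => by
    refine norm_le_of_weak' (Eventually.of_forall fun n => ?_) (weak_Ψ C.toPre hkb x y _)
    have e : C.Φ x y + C.Ψ (kn n) x y =
        avg (T.G n) fun g => avg (T.G n) fun h => C.Φ x y + C.Ψ (cj S ρ k g h) x y := by
      simp only [avg_add, avg_const (T.grp n).nonempty]
      congr 1
      change Ψk C.toPre x y (kn n) = _
      simp only [kn, map_avg]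
      rfl
    rw [e]
    exact norm_avg_le (by positivity) fun g _ => norm_avg_le (by positivity) fun h _ =>
      hConj C j ρ hcom k δ hδ hΨ g h x y
  have hfix : kb S.ξ = ⟪S.ξ, kb S.ξ⟫_ℂ • S.ξ := hFix S T ρ hE _ fun g => by
    have h1 := congrArg (fun T : K →L[ℂ] K => T S.ξ) (hL g)
    have h2 := congrArg (fun T : K →L[ℂ] K => T S.ξ) (hR g)
    simp only [mul_apply_eq_comp] at h1 h2
    rw [← h1, ← h2, S.LR]
  set c := ⟪S.ξ, kb S.ξ⟫_ℂ with hc
  have hcβ : ‖c‖ ≤ β := by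
    have h1 := hb 1
    rw [S.hat_one, S.norm_one, mul_one] at h1
    have h2 := norm_inner_le_norm (𝕜 := ℂ) S.ξ (kb S.ξ)
    rw [S.norm_ξ, one_mul] at h2
    exact h2.trans h1
  have hL' : ∀ g, (kb - c • 1) * S.L (ρ g) = S.L (ρ g) * (kb - c • 1) := fun g => by
    rw [sub_mul, mul_sub, hL, smul_mul_assoc, mul_smul_comm, one_mul, mul_one]
  have hR' : ∀ g, (kb - c • 1) * S.R (ρ g) = S.R (ρ g) * (kb - c • 1) := fun g => by
    rw [sub_mul, mul_sub, hR, smul_mul_assoc, mul_smul_comm, one_mul, mul_one]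
  refine ⟨kb - c • 1, ?_, ?_, hL', hR', fun x y => ?_⟩
  · have isoL : ∀ g z, ‖S.L (ρ g) z‖ = ‖z‖ := fun g z => le_antisymm (norm_L_u S _ _) (by
      have := norm_L_u S (ρ g⁻¹) (S.L (ρ g) z)
      rwa [← mul_apply_eq_comp, ← AvgJ.L_mul, inv_mul_cancel, map_one, OneMemClass.coe_one,
        map_one, one_apply_eq_self] at this)
    have isoR : ∀ g z, ‖S.R (ρ g) z‖ = ‖z‖ := fun g z => le_antisymm (norm_R_u S _ _) (by
      have := norm_R_u S (ρ g⁻¹) (S.R (ρ g) z)
      rwa [← mul_apply_eq_comp, ← AvgJ.R_mul, mul_inv_cancel, map_one,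
        OneMemClass.coe_one, S.R_one, one_apply_eq_self] at this)
    refine (hL2 S T ρ (kb - c • 1) (2 * β) hE (fun g h x => ?_) (by positivity) fun x => ?_).trans
      (by linarith)
    · rw [← S.R_hat, ← S.L_hat, ← mul_apply_eq_comp, hR',
        mul_apply_eq_comp, isoR, ← mul_apply_eq_comp, hL',
        mul_apply_eq_comp, isoL]
    · rw [sub_apply, smul_apply,
        one_apply_eq_self]
      refine (norm_sub_le _ _).trans ?_
      rw [norm_smul]
      have h1 := hb x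
      have h2 := mul_le_mul hcβ (S.norm_hat_le x) (norm_nonneg _) hβ
      linarith
  · rw [sub_apply, smul_apply,
      one_apply_eq_self, ← hfix, sub_self]
  · have e : C.Ψ (kb - c • 1) x y = C.Ψ kb x y := by
      change Ψk C.toPre x y (kb - c • 1) = Ψk C.toPre x y kb
      rw [map_sub, map_smul]
      change _ - c • C.Ψ 1 x y = _
      rw [Ψ_one, smul_zero, sub_zero]
    rw [e]
    exact hP x y

end Pool.Agent.MP_890ef7_an.KK

end

section

open scoped InnerProductSpace ComplexOrder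
open Filter Topology

namespace Pool.Agent.MP_890ef7_an.KK

universe v w

namespace CornerJ

variable {A B K : Type v} [CStarAlgebra A] [CStarAlgebra B] [NormedAddCommGroup K]
  [InnerProductSpace ℂ K] [CompleteSpace K] {S : Std B K} {γ η : ℝ}

/-- the bilinear map to be estimated. -/
noncomputable def ff (C : Core A S γ η) (e : A) (a' e' : B) (k : K →L[ℂ] K) :
    A →ₗ[ℂ] B →ₗ[ℂ] K :=
  C.Φₗ + LinearMap.mk₂ ℂ (C.Ψ₀ e a' e' k)
    (fun _ _ _ => by simp only [Pre.Ψ₀, map_add, add_apply]; abel)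
    (fun _ _ _ => by simp only [Pre.Ψ₀, map_smul, smul_apply, smul_sub, smul_add])
    (fun _ _ _ => by simp only [Pre.Ψ₀, mul_add, map_add, add_apply]; abel)
    (fun _ _ _ => by simp only [Pre.Ψ₀, mul_smul_comm, map_smul, smul_apply, smul_sub, smul_add])

theorem ff_apply (C : Core A S γ η) (e : A) (a' e' : B) (k : K →L[ℂ] K) (x : A) (y : B) :
    ff C e a' e' k x y = C.Φ x y + C.Ψ₀ e a' e' k x y := rfl

theorem norm_three {X : Type*} [NormedRing X] {p t q : X} {c : ℝ} (hp : ‖p‖ ≤ 1) (ht : ‖t‖ ≤ c)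
    (hq : ‖q‖ ≤ 1) : ‖p * t * q‖ ≤ c := by
  have h := norm_mul_le_of_le (norm_mul_le_of_le hp ht) hq
  simpa using h

theorem ff_bdd (C : Core A S γ η) (e : A) (a' e' : B) (k : K →L[ℂ] K) (x : A) (ha : ‖a'‖ ≤ 1) :
    ∃ c : ℝ, ∀ y, ‖ff C e a' e' k x y‖ ≤ c * ‖y‖ := by
  have h1 : ∀ (T : K →L[ℂ] K) (y : B), ‖T (S.hat y)‖ ≤ ‖T‖ * ‖y‖ := fun T y =>
    (T.le_opNorm _).trans (mul_le_mul_of_nonneg_left (S.norm_hat_le y) (norm_nonneg _))
  have h2 : ∀ (z : K) (y : B), ‖S.R (a' * y) z‖ ≤ ‖z‖ * ‖y‖ := fun z y => by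
    refine (S.norm_R_apply _ z).trans ?_
    rw [mul_comm]
    refine mul_le_mul_of_nonneg_left ?_ (norm_nonneg _)
    simpa using norm_mul_le_of_le ha (le_refl ‖y‖)
  refine ⟨η * ‖x‖ + (‖C.π x * k‖ + ‖C.π e * k * C.π x‖ + ‖C.π x (k (S.hat (e' * a')))‖ +
    ‖C.π e (k (C.π x (S.hat (e' * a'))))‖), fun y => ?_⟩
  rw [ff_apply]
  have a1 := C.Φ_le x y
  have a2 : ‖C.π x (k (S.hat y))‖ ≤ ‖C.π x * k‖ * ‖y‖ := h1 (C.π x * k) y
  have a3 : ‖C.π e (k (C.π x (S.hat y)))‖ ≤ ‖C.π e * k * C.π x‖ * ‖y‖ := h1 (C.π e * k * C.π x) y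
  have a4 := h2 (C.π x (k (S.hat (e' * a')))) y
  have a5 := h2 (C.π e (k (C.π x (S.hat (e' * a'))))) y
  refine (norm_add_le _ _).trans ?_
  have a6 : ‖C.Ψ₀ e a' e' k x y‖ ≤ ‖C.π x (k (S.hat y))‖ + ‖C.π e (k (C.π x (S.hat y)))‖ +
      ‖S.R (a' * y) (C.π x (k (S.hat (e' * a'))))‖ +
      ‖S.R (a' * y) (C.π e (k (C.π x (S.hat (e' * a')))))‖ :=
    (norm_add_le _ _).trans (add_le_add ((norm_sub_le _ _).trans
      (add_le_add (norm_sub_le _ _) le_rfl)) le_rfl)
  nlinarith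

theorem cut_l (C : Core A S γ η) {x p q : A} {y p' q' : B} {c : ℝ} (h : ‖C.π x - S.L y‖ ≤ c)
    (hp : C.Com p p') (hq : C.Com q q') (np : ‖p'‖ ≤ 1) (nq : ‖q'‖ ≤ 1) :
    ‖C.π (p * x * q) - S.L (p' * y * q')‖ ≤ c := by
  have e : C.π (p * x * q) - S.L (p' * y * q') = S.L p' * (C.π x - S.L y) * S.L q' := by
    rw [map_mul, map_mul, map_mul, map_mul, hp.1, hq.1]
    noncomm_ring
  rw [e]
  exact norm_three ((S.norm_L p').trans_le np) h ((S.norm_L q').trans_le nq)

theorem good_cut (C : Core A S γ η) {x p q : A} {y p' q' : B} {c : ℝ} (h : C.Good c x y)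
    (hp : C.Com p p') (hq : C.Com q q') (np : ‖p'‖ ≤ 1) (nq : ‖q'‖ ≤ 1) (hx : p * x * q = x) :
    C.Good c x (p' * y * q') := by
  refine ⟨h.nx, norm_three np h.ny nq, ?_, ?_, ?_⟩
  · have h1 := cut_l C h.l hp hq np nq
    rwa [hx] at h1
  · have e : C.π' (p * x * q) - S.R (p' * y * q') = S.R q' * (C.π' x - S.R y) * S.R p' := by
      rw [C.π'_mul, C.π'_mul, S.R_mul, S.R_mul, hp.2, hq.2]
      noncomm_ring
    rw [hx] at e
    rw [e]
    exact norm_three ((S.norm_R q').trans nq) h.r ((S.norm_R p').trans np)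
  · have e : C.π (p * x * q) S.ξ - S.hat (p' * y * q') =
        S.L p' (S.R q' (C.π x S.ξ - S.hat y)) := by
      rw [C.π_mul_apply, C.π_mul_apply, hp.1, hq.1, S.LR, hq.π_R, map_sub, map_sub, S.R_hat,
        S.L_hat, mul_assoc]
    rw [hx] at e
    rw [e]
    have h1 := S.norm_L_apply p' (S.R q' (C.π x S.ξ - S.hat y))
    have h2 := S.norm_R_apply q' (C.π x S.ξ - S.hat y)
    have h3 := mul_le_of_le_one_left (norm_nonneg (S.R q' (C.π x S.ξ - S.hat y))) np
    have h4 := mul_le_of_le_one_left (norm_nonneg (C.π x S.ξ - S.hat y)) nq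
    linarith [h.v]

theorem mul_proj {e u : A} (he : IsStarProjection e) (h : star u * u = e) : u * e = u := by
  have h1 : star (u - u * e) * (u - u * e) = 0 := by
    have e1 : star (u - u * e) * (u - u * e) =
        star u * u - star u * u * e - e * (star u * u) + e * (star u * u) * e := by
      rw [star_sub, star_mul, he.isSelfAdjoint.star_eq]
      noncomm_ring
    have e2 : e * e = e := he.isIdempotentElem
    rw [e1, h, e2, e2]
    abel
  have h2 := (CStarRing.star_mul_self_eq_zero_iff _).1 h1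
  exact (sub_eq_zero.1 h2).symm

theorem norm_le_one {p v : A} (hp : IsStarProjection p) (h : star v * v = p) : ‖v‖ ≤ 1 := by
  have h1 : ‖v‖ * ‖v‖ ≤ 1 := by
    rw [← CStarRing.norm_star_mul_self, h]
    exact hp.norm_le
  nlinarith [norm_nonneg v]

theorem norm_sum_four {V : Type*} [SeminormedAddCommGroup V] [NormedSpace ℂ V] (c : Fin 4 → ℂ)
    (w : Fin 4 → V) {s t : ℝ} (hc : ∀ i, ‖c i‖ ≤ s) (hw : ∀ i, ‖w i‖ ≤ t) :
    ‖∑ i, c i • w i‖ ≤ 4 * (s * t) := by
  refine (norm_sum_le _ _).trans ?_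
  refine (Finset.sum_le_card_nsmul _ _ (s * t) fun i _ => ?_).trans_eq (by simp)
  rw [norm_smul]
  exact mul_le_mul (hc i) (hw i) (norm_nonneg _) ((norm_nonneg _).trans (hc i))

/-- the corner of `B`. -/
def PP (e' : B) : Submodule ℂ B where
  carrier := {y | e' * y = y ∧ y * (1 - e') = y}
  add_mem' := fun h h' => ⟨by rw [mul_add, h.1, h'.1], by rw [add_mul, h.2, h'.2]⟩
  zero_mem' := ⟨mul_zero _, zero_mul _⟩
  smul_mem' := fun c _ h => ⟨by rw [mul_smul_comm, h.1], by rw [smul_mul_assoc, h.2]⟩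

end CornerJ

open CornerJ in
theorem Corner_pf (hGood : PGood.{v}) (hFour : PFour.{v}) :
    PCorner.{v} := by
  intro A B K _ _ _ _ _ S γ η C a e a' e' F k δ hδ H
  have hγ := C.γ_pos
  have hγ' := C.γ_le
  have hf : (1 - e') * (1 - e') = 1 - e' := by
    rw [mul_sub, sub_mul, sub_mul, F.e'_sq]
    simp
  have hf0 : (1 - e) * (1 - e) = 1 - e := F.proj.one_sub.isIdempotentElem
  have na : ‖a‖ ≤ 1 := norm_le_one (IsStarProjection.one A) (by rw [F.star_a, F.a_sq])
  have step : ∀ u, star u * u = e → u * star u = e → ∀ y ∈ PP e',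
      ‖ff C e a' e' k u y‖ ≤ 2 * (2 * δ) * ‖y‖ := by
    intro u hu1 hu2
    obtain ⟨c₀, hc₀⟩ := ff_bdd C e a' e' k u F.norm_a'
    refine boot (PP e') (ff C e a' e' k u) (fun y _ => hc₀ y) fun y hy ny => ?_
    obtain ⟨x₀, nx, hx, -⟩ := C.partB y
    have hz := cut_l C hx F.com_e F.com_f F.norm_e' F.norm_f'
    rw [hy.1, hy.2] at hz
    set z := e * x₀ * (1 - e) with hzd
    have nz : ‖z * a‖ ≤ 1 := by
      have h1 : ‖z‖ ≤ 1 := norm_three F.proj.norm_le (nx.trans ny) F.proj.one_sub.norm_le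
      simpa using norm_mul_le_of_le h1 na
    obtain ⟨c, w, hc, hw, hs⟩ := hFour e (z * a) F.proj
      (by rw [hzd, ← mul_assoc, ← mul_assoc, ← mul_assoc, F.e_sq])
      (by rw [mul_assoc, F.a_e, ← mul_assoc, hzd, mul_assoc (e * x₀) (1 - e) (1 - e), hf0])
    have hc' : ∀ i, ‖c i‖ ≤ 1 / 2 := fun i => (hc i).trans (by linarith)
    have hz2 : z = ∑ i, c i • (w i * a) := by
      have : z = z * a * a := by rw [mul_assoc, F.a_sq, mul_one]
      rw [this, hs, Finset.sum_mul]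
      simp only [smul_mul_assoc]
    have val : ∀ i, Valid e u (w i * a) := fun i => ⟨hu1, hu2, by
      rw [star_mul, F.star_a, mul_assoc, ← mul_assoc (star (w i)), (hw i).1, ← mul_assoc, F.flip],
      by rw [star_mul, F.star_a, mul_assoc, ← mul_assoc a, F.a_sq, one_mul, (hw i).2]⟩
    have cut : ∀ i, e * (w i * a) * (1 - e) = w i * a := fun i => by
      have h1 := mul_proj F.proj (hw i).1
      have h2 : e * w i = w i := by
        rw [← (hw i).2, mul_assoc, (hw i).1, h1]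
      rw [← mul_assoc, h2, mul_assoc, ← F.e_a, ← mul_assoc, h1]
    choose y' hy' using fun i => hGood C (w i * a) (norm_le_one F.proj.one_sub (val i).2.2.1)
    have gd : ∀ i, C.Good 3 (w i * a) (e' * y' i * (1 - e')) := fun i =>
      good_cut C (hy' i) F.com_e F.com_f F.norm_e' F.norm_f' (cut i)
    have mem : ∀ i, e' * y' i * (1 - e') ∈ PP e' := fun i =>
      ⟨by rw [← mul_assoc, ← mul_assoc, F.e'_sq], by rw [mul_assoc, hf]⟩
    refine ⟨∑ i, c i • (e' * y' i * (1 - e')),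
      Submodule.sum_mem _ fun i _ => Submodule.smul_mem _ _ (mem i), ?_, ?_⟩
    · have h1 : ‖C.π z - S.L (∑ i, c i • (e' * y' i * (1 - e')))‖ ≤ 4 * (1 / 2 * (3 * γ)) := by
        rw [hz2, map_sum, map_sum, ← Finset.sum_sub_distrib]
        simp only [map_smul, ← smul_sub]
        exact norm_sum_four c _ hc' fun i => (gd i).l
      have h2 := Core.norm_sub_le_of_partner hz h1
      have h3 := mul_le_of_le_one_right hγ.le ny
      linarith
    · rw [map_sum]
      simp only [map_smul]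
      have h1 := norm_sum_four c (fun i => ff C e a' e' k u (e' * y' i * (1 - e'))) hc'
        fun i => H u _ _ (val i) (gd i) (mem i).1
      linarith
  intro x y h1 h2 h3 h4
  obtain ⟨c, w, hc, hw, hs⟩ := hFour e x F.proj h1 h2
  have h5 := norm_sum_four c (fun i => ff C e a' e' k (w i) y) hc
    fun i => step (w i) (hw i).1 (hw i).2 y ⟨h3, h4⟩
  have e1 : ff C e a' e' k x y = ∑ i, c i • ff C e a' e' k (w i) y := by
    conv_lhs => rw [hs]
    simp only [map_sum, map_smul, LinearMap.sum_apply, LinearMap.smul_apply]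
  rw [← ff_apply, e1]
  linarith

end Pool.Agent.MP_890ef7_an.KK

end

section

open scoped InnerProductSpace ComplexOrder
open Filter Topology

namespace Pool.Agent.MP_890ef7_an.KK

universe v w

namespace L2aJ

theorem four {K K₂ : Type v} [NormedAddCommGroup K] [InnerProductSpace ℂ K]
    [NormedAddCommGroup K₂] [InnerProductSpace ℂ K₂] (u v : K₂) (p q w : K) :
    ∃ c : ℂ, (starRingEnd ℂ) c * c = 1 ∧ ‖u‖ ^ 2 + ‖v‖ ^ 2 - (‖p‖ ^ 2 + ‖q‖ ^ 2 + ‖w‖ ^ 2) ≤
      ‖u + c • v‖ ^ 2 - ‖p + (c • q + (starRingEnd ℂ) c • w)‖ ^ 2 := by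
  by_contra h
  push Not at h
  have h1 := h 1 (by simp)
  have h2 := h (-1) (by simp)
  have h3 := h Complex.I (by simp)
  have h4 := h (-Complex.I) (by simp)
  rw [map_one, one_smul, one_smul, one_smul] at h1
  rw [map_neg, map_one, ← smul_add, neg_one_smul, neg_one_smul, ← sub_eq_add_neg,
    ← sub_eq_add_neg] at h2
  rw [Complex.conj_I, neg_smul, ← smul_neg, ← smul_add, ← sub_eq_add_neg q] at h3
  rw [map_neg, Complex.conj_I, neg_neg, neg_smul, neg_smul, neg_add_eq_sub,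
    ← neg_sub (Complex.I • q), ← smul_sub, ← sub_eq_add_neg, ← sub_eq_add_neg] at h4
  have p1 := parallelogram_law_with_norm ℂ u v
  have p2 := parallelogram_law_with_norm ℂ u (Complex.I • v)
  have p3 := parallelogram_law_with_norm ℂ p (q + w)
  have p4 := parallelogram_law_with_norm ℂ p (Complex.I • (q - w))
  have p5 := parallelogram_law_with_norm ℂ q w
  rw [norm_smul, Complex.norm_I, one_mul] at p2 p4
  linarith

theorem re_avg {Γ : Type*} {s : Finset Γ} (hs : s.Nonempty) {f : Γ → ℂ} {M : ℝ}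
    (h : ∀ g, M ≤ (f g).re) : M ≤ (avg s f).re := by
  have h0 : (0 : ℝ) < s.card := by exact_mod_cast hs.card_pos
  rw [avg, smul_eq_mul, ← Complex.ofReal_natCast, ← Complex.ofReal_inv, Complex.re_ofReal_mul,
    Complex.re_sum, le_inv_mul_iff₀ h0, ← nsmul_eq_mul]
  exact Finset.card_nsmul_le_sum _ _ _ fun g _ => h g

variable {A K Γ : Type v} [CStarAlgebra A] [NormedAddCommGroup K] [InnerProductSpace ℂ K]
  [CompleteSpace K] [Group Γ] {S : Std A K} {T : Tower Γ} {j : Γ →* unitary A}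

theorem pick (hE : Erg S T j) (a b : A) {d : ℝ} (hd : 0 < d) :
    ∃ g, (⟪S.hat (star a * a), S.hat ((j g : A) * (star b * b) * star (j g : A))⟫_ℂ).re ≤
      ‖S.hat a‖ ^ 2 * ‖S.hat b‖ ^ 2 + d := by
  by_contra h
  push Not at h
  have h1 := (Complex.continuous_re.tendsto _).comp
    ((tendsto_const_nhds (x := S.hat (star a * a))).inner (𝕜 := ℂ) (hE (star b * b)))
  have h2 := ge_of_tendsto' (b := ‖S.hat a‖ ^ 2 * ‖S.hat b‖ ^ 2 + d) h1 fun n => by
    have e := map_avg (innerSL ℂ (S.hat (star a * a))) (T.G n)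
      fun g => S.hat ((j g : A) * (star b * b) * star (j g : A))
    rw [Function.comp_apply, map_avg S.hat]
    exact (re_avg (T.grp n).nonempty fun g => (h g).le).trans_eq (congrArg Complex.re e.symm)
  rw [inner_smul_right, ← S.hat_one, S.inner_hat, mul_one, star_mul, star_star,
    S.τ_star_mul_self, S.τ_star_mul_self, ← Complex.ofReal_mul, Complex.ofReal_re] at h2
  linarith

end L2aJ

theorem L2a_pf :
    PL2a.{v} := by
  intro A K Γ _ _ _ _ _ S T j K₂ _ _ _ X hE hX s x r δ hδ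
  have hd : 0 < δ / (4 * r ^ 2 + 1) := by positivity
  obtain ⟨k, hk⟩ := L2aJ.pick hE s x hd
  obtain ⟨g, hg⟩ := L2aJ.pick hE (star s) (star x) hd
  obtain ⟨y, hy⟩ : ∃ y, y = (j g : A) * x * star (j k : A) := ⟨_, rfl⟩
  have := S.nontrivial
  have h1 : ‖X (S.hat y)‖ = ‖X (S.hat x)‖ := by
    rw [hy, ← hX g k⁻¹ x, map_inv, ← Unitary.star_eq_inv, Unitary.coe_star]
  have h2 : star y * y = (j k : A) * (star x * x) * star (j k : A) := by
    rw [hy]
    simp only [star_mul, star_star, mul_assoc]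
    rw [← mul_assoc (star (j g : A)), Unitary.coe_star_mul_self, one_mul]
  have h3 : y * star y = (j g : A) * (x * star x) * star (j g : A) := by
    rw [hy]
    simp only [star_mul, star_star, mul_assoc]
    rw [← mul_assoc (star (j k : A)), Unitary.coe_star_mul_self, one_mul]
  rw [star_star, star_star, ← h3, S.norm_hat_star, S.norm_hat_star] at hg
  have h4 : ‖S.hat (star y * y)‖ ≤ ‖S.hat (star x * x)‖ := by
    rw [h2]
    refine (S.norm_hat_mul_right _ _).trans ?_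
    rw [norm_star, CStarRing.norm_coe_unitary, one_mul]
    refine (S.norm_hat_mul_left _ _).trans ?_
    rw [CStarRing.norm_coe_unitary, one_mul]
  rw [← h2] at hk
  have h5 : ‖S.hat (star s * y)‖ ^ 2 = (⟪S.hat (s * star s), S.hat (y * star y)⟫_ℂ).re := by
    rw [S.norm_hat_sq, S.inner_hat]
    simp only [star_mul, star_star, mul_assoc]
    rw [S.τ_comm]
    simp only [mul_assoc]
  have h6 : ‖S.hat (star y * s)‖ = ‖S.hat (star s * y)‖ := by
    rw [← S.norm_hat_star, star_mul, star_star]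
  obtain ⟨c, c1, c2⟩ := L2aJ.four (X (S.hat s)) ((r : ℂ) • X (S.hat y))
    (S.hat (star s * s) + ((r ^ 2 : ℝ) : ℂ) • S.hat (star y * y)) ((r : ℂ) • S.hat (star s * y))
    ((r : ℂ) • S.hat (star y * s))
  refine ⟨s + c • (r : ℂ) • y, ?_⟩
  have e1 : star (s + c • (r : ℂ) • y) * (s + c • (r : ℂ) • y) =
      star s * s + ((r ^ 2 : ℝ) : ℂ) • (star y * y) + (c • (r : ℂ) • (star s * y) +
        (starRingEnd ℂ) c • (r : ℂ) • (star y * s)) := by
    simp only [star_add, star_smul, add_mul, mul_add, smul_mul_assoc, mul_smul_comm, smul_smul,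
      RCLike.star_def, Complex.conj_ofReal, Complex.ofReal_pow, smul_add, map_mul]
    match_scalars
    · rfl
    · ring
    · ring
    · linear_combination (r : ℂ) ^ 2 * c1
  rw [e1]
  simp only [map_add, map_smul]
  refine le_trans ?_ c2
  rw [norm_add_sq (𝕜 := ℂ), inner_smul_right]
  simp only [norm_smul, Complex.norm_real, Real.norm_eq_abs, mul_pow, sq_abs, h1, h6, h5,
    RCLike.re_to_complex, Complex.re_ofReal_mul]
  have k1 := mul_le_mul_of_nonneg_left hk (sq_nonneg r)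
  have k2 := mul_le_mul_of_nonneg_left hg (sq_nonneg r)
  have k3 := mul_le_mul_of_nonneg_left (pow_le_pow_left₀ (norm_nonneg _) h4 2) (sq_nonneg (r ^ 2))
  have k4 : (4 * r ^ 2 + 1) * (δ / (4 * r ^ 2 + 1)) = δ := mul_div_cancel₀ _ (by positivity)
  nlinarith

end Pool.Agent.MP_890ef7_an.KK

end

section

open scoped InnerProductSpace ComplexOrder
open Filter Topology

namespace Pool.Agent.MP_890ef7_an.KK

universe v w

namespace MedianJ

variable {A K : Type v} [CStarAlgebra A] [NormedAddCommGroup K] [InnerProductSpace ℂ K]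
  [CompleteSpace K] (S : Std A K)

theorem re_nonneg (x : A) : 0 ≤ (S.τ (star x * x)).re := by
  rw [← S.norm_hat_sq]
  positivity

theorem proj_eq {p : A} (hp : IsStarProjection p) : star p * p = p := by
  rw [hp.isSelfAdjoint.star_eq, hp.isIdempotentElem.eq]

theorem proj_nonneg {p : A} (hp : IsStarProjection p) : 0 ≤ (S.τ p).re := by
  have := re_nonneg S p
  rwa [proj_eq hp] at this

theorem proj_real {p : A} (hp : IsStarProjection p) : S.τ p = ((S.τ p).re : ℂ) := by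
  have := S.τ_star_mul_self p
  rw [proj_eq hp] at this
  rw [this, Complex.ofReal_re]

theorem re_le (x : A) : |(S.τ x).re| ≤ ‖x‖ :=
  (Complex.abs_re_le_norm _).trans ((S.norm_τ_le x).trans (S.norm_hat_le x))

/-- the estimate. -/
theorem est {a u v y : A} {t d : ℝ} (ha : star a = a) (haa : a * a = 1) (hu : star u = u)
    (hv : star v = v) (huu : u * a * u = 0) (hvv : v * a * v = 0) (hy : star y = y)
    (h0 : S.τ y = 0) (hr : ‖y - ((t : ℂ) • (1 : A) + (u * u - v * v))‖ ≤ d) :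
    ‖S.hat (y + a * y * a)‖ ^ 2 ≤ 2 * ‖S.hat y‖ ^ 2 + 4 * d * (‖y‖ + d) := by
  have hna : ‖a‖ ≤ 1 := by
    have h1 : ‖star a * a‖ = ‖a‖ * ‖a‖ := CStarRing.norm_star_mul_self
    rw [ha, haa, S.norm_one] at h1
    nlinarith [norm_nonneg a]
  have hd : 0 ≤ d := (norm_nonneg _).trans hr
  have h1 : ‖S.hat (y + a * y * a)‖ ^ 2 = 2 * ‖S.hat y‖ ^ 2 + 2 * (S.τ (y * a * y * a)).re := by
    rw [S.norm_hat_sq, S.norm_hat_sq, star_add, star_mul, star_mul, ha, hy]
    have e : (y + a * (y * a)) * (y + a * y * a) =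
        y * y + y * a * y * a + a * (y * a * y) + a * (y * (a * a) * y * a) := by noncomm_ring
    have e1 : S.τ (a * (y * (a * a) * y * a)) = S.τ (y * y) := by
      rw [S.τ_comm, haa, mul_one, mul_assoc, haa, mul_one]
    rw [e, map_add, map_add, map_add, e1, S.τ_comm a (y * a * y)]
    simp only [Complex.add_re]
    ring
  obtain ⟨z, hz⟩ : ∃ z, z = u * u - v * v := ⟨_, rfl⟩
  have h2 : (S.τ (z * a * z * a)).re ≤ 0 := by
    have e : z * a * z * a = u * (u * a * u) * u * a - u * (u * a * v * v * a) -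
        v * (v * a * u * u * a) + v * (v * a * v) * v * a := by rw [hz]; noncomm_ring
    have e1 : u * a * v * v * a * u = star (v * a * u) * (v * a * u) := by
      rw [star_mul, star_mul, ha, hu, hv]; noncomm_ring
    have e2 : v * a * u * u * a * v = star (u * a * v) * (u * a * v) := by
      rw [star_mul, star_mul, ha, hu, hv]; noncomm_ring
    rw [e, huu, hvv, mul_zero, zero_mul, zero_mul, mul_zero, zero_mul, zero_mul, add_zero, zero_sub,
      map_sub, map_neg, S.τ_comm u, S.τ_comm v, e1, e2]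
    simp only [Complex.sub_re, Complex.neg_re]
    linarith [re_nonneg S (v * a * u), re_nonneg S (u * a * v)]
  rw [← hz] at hr
  obtain ⟨r, hr'⟩ : ∃ r, r = y - ((t : ℂ) • (1 : A) + z) := ⟨_, rfl⟩
  rw [← hr'] at hr
  obtain ⟨x, hx⟩ : ∃ x, x = (t : ℂ) • (1 : A) + z := ⟨_, rfl⟩
  have hxy : y = x + r := by rw [hr', hx]; abel
  have hnx : ‖x‖ ≤ ‖y‖ + d := by
    rw [show x = y - r by rw [hxy]; abel]
    exact (norm_sub_le _ _).trans (by linarith)
  have h3 : (S.τ z).re = -t - (S.τ r).re := by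
    have := congrArg Complex.re h0
    rw [hxy, hx, map_add, map_add, map_smul, S.τ_one] at this
    simp only [smul_eq_mul, mul_one, Complex.add_re, Complex.ofReal_re, Complex.zero_re] at this
    linarith
  have h4 : (S.τ (x * a * x * a)).re = t ^ 2 + 2 * t * (S.τ z).re + (S.τ (z * a * z * a)).re := by
    have e : x * a * x * a = (t : ℂ) • ((t : ℂ) • (a * a) + a * (z * a) + z * (a * a)) +
        z * a * z * a := by
      rw [hx]
      simp only [add_mul, mul_add, smul_mul_assoc, mul_smul_comm, one_mul, mul_one, smul_add,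
        mul_assoc]
      abel
    rw [e, map_add, map_smul, map_add, map_add, map_smul, S.τ_comm a (z * a), mul_assoc z a a, haa,
      mul_one, S.τ_one]
    simp only [smul_eq_mul, mul_one, Complex.add_re, Complex.re_ofReal_mul, Complex.ofReal_re]
    ring
  have h5 : (S.τ (y * a * y * a)).re = (S.τ (x * a * x * a)).re + (S.τ (r * a * y * a)).re +
      (S.τ (x * a * r * a)).re := by
    have e : y * a * y * a = x * a * x * a + r * a * y * a + x * a * r * a := by
      rw [hxy]; noncomm_ring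
    rw [e, map_add, map_add, Complex.add_re, Complex.add_re]
  have h6 : ∀ b c : A, (S.τ (b * a * c * a)).re ≤ ‖b‖ * ‖c‖ := fun b c => by
    refine (le_abs_self _).trans ((re_le S _).trans ?_)
    have := norm_mul_le_of_le (norm_mul_le_of_le (norm_mul_le_of_le (le_refl ‖b‖) hna)
      (le_refl ‖c‖)) hna
    simpa only [mul_one] using this
  have h7 := abs_le.1 ((re_le S r).trans hr)
  have h8 : ‖r‖ * ‖y‖ ≤ d * ‖y‖ := mul_le_mul_of_nonneg_right hr (norm_nonneg _)
  have h9 : ‖x‖ * ‖r‖ ≤ (‖y‖ + d) * d := mul_le_mul hnx hr (norm_nonneg _) (by positivity)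
  have h10 : (S.τ r).re ^ 2 ≤ d ^ 2 := sq_le_sq' h7.1 h7.2
  rw [h1, h5, h4, h3]
  nlinarith [h6 r y, h6 x r, sq_nonneg (t + (S.τ r).re)]

/-- the symmetry that flips a projection. -/
theorem flip {e w : A} (he : IsStarProjection e) (h1 : star w * w = e) (h2 : w * star w = 1 - e) :
    IsPauli (w + star w) (e - (1 - e)) ∧ e * (w + star w) * e = 0 ∧
      (1 - e) * (w + star w) * (1 - e) = 0 := by
  have ee := he.isIdempotentElem.eq
  have es := he.isSelfAdjoint.star_eq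
  have h3 : w * e = w := by
    rw [← sub_eq_zero, ← CStarRing.star_mul_self_eq_zero_iff, star_sub, star_mul, es]
    have : (e * star w - star w) * (w * e - w) = e * (star w * w) * e - e * (star w * w) -
        star w * w * e + star w * w := by noncomm_ring
    rw [this, h1, ee, ee]
    abel
  have h4 : e * w = 0 := by
    have : (1 - e) * w = w := by rw [← h2, mul_assoc, h1, h3]
    rw [← this, ← mul_assoc, he.mul_one_sub_self, zero_mul]
  have h5 : e * star w = star w := by simpa only [star_mul, es] using congrArg star h3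
  have h6 : star w * e = 0 := by simpa only [star_mul, es, star_zero] using congrArg star h4
  have h7 : w * w = 0 := by
    calc w * w = w * (e * w) := by rw [← mul_assoc, h3]
      _ = 0 := by rw [h4, mul_zero]
  have h8 : star w * star w = 0 := by simpa only [star_mul, star_zero] using congrArg star h7
  refine ⟨⟨?_, ?_, ?_, ?_, ?_⟩, ?_, ?_⟩
  · rw [star_add, star_star, add_comm]
  · rw [star_sub, star_sub, star_one, es]
  · rw [add_mul, mul_add, mul_add, h7, h8, h1, h2]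
    abel
  · have : (e - (1 - e)) * (e - (1 - e)) = 1 + 4 • (e * e - e) := by noncomm_ring
    rw [this, ee, sub_self, smul_zero, add_zero]
  · simp only [add_mul, mul_add, mul_sub, sub_mul, mul_one, one_mul, h3, h4, h5, h6]
    abel
  · rw [mul_add, h4, h5, zero_add, h6]
  · simp only [mul_add, mul_sub, sub_mul, mul_one, one_mul, h3, h4, h5, add_mul, h6, zero_mul]
    abel

/-- the root of the positive part. -/
noncomputable def uu (y : A) (t : ℝ) : A := cfc (fun l : ℝ => √(l - t)) y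

/-- the root of the negative part. -/
noncomputable def vv (y : A) (s : ℝ) : A := cfc (fun l : ℝ => √(s - l)) y

theorem star_uu (y : A) (t : ℝ) : star (uu y t) = uu y t :=
  IsSelfAdjoint.star_eq (cfc_predicate _ _)

theorem star_vv (y : A) (s : ℝ) : star (vv y s) = vv y s :=
  IsSelfAdjoint.star_eq (cfc_predicate _ _)

theorem uu_vv (y : A) {s t : ℝ} (h : s ≤ t) : uu y t * vv y s = 0 := by
  rw [uu, vv, ← cfc_mul .., ← cfc_const_zero ℝ y]
  refine cfc_congr fun l _ => ?_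
  rcases le_total l t with h1 | h1
  · simp only [Real.sqrt_eq_zero'.2 (sub_nonpos.2 h1), zero_mul]
  · simp only [Real.sqrt_eq_zero'.2 (sub_nonpos.2 (h.trans h1)), mul_zero]

theorem uu_zero (y : A) {t : ℝ} (h : ‖y‖ * ‖(1 : A)‖ ≤ t) : uu y t = 0 := by
  rw [uu, ← cfc_const_zero ℝ y]
  refine cfc_congr fun l hl => ?_
  have := (abs_le.1 (spectrum.norm_le_norm_mul_of_mem hl)).2
  exact Real.sqrt_eq_zero'.2 (by linarith)

theorem vv_zero (y : A) {s : ℝ} (h : s ≤ -(‖y‖ * ‖(1 : A)‖)) : vv y s = 0 := by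
  rw [vv, ← cfc_const_zero ℝ y]
  refine cfc_congr fun l hl => ?_
  have := (abs_le.1 (spectrum.norm_le_norm_mul_of_mem hl)).1
  exact Real.sqrt_eq_zero'.2 (by linarith)

theorem rest {y : A} (hy : IsSelfAdjoint y) (t : ℝ) {d : ℝ} (hd : 0 ≤ d) :
    ‖y - ((t : ℂ) • (1 : A) + (uu y t * uu y t - vv y (t - d) * vv y (t - d)))‖ ≤ d := by
  have e : y - ((t : ℂ) • (1 : A) + (uu y t * uu y t - vv y (t - d) * vv y (t - d))) =
      cfc (fun l : ℝ => l - (t + (√(l - t) * √(l - t) - √(t - d - l) * √(t - d - l)))) y := by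
    rw [cfc_sub .., cfc_add .., cfc_sub .., cfc_mul .., cfc_mul .., cfc_id' ℝ y, cfc_const t y,
      Algebra.algebraMap_eq_smul_one, Complex.coe_smul, uu, vv]
  rw [e]
  refine norm_cfc_le hd fun l _ => ?_
  rw [Real.norm_eq_abs, abs_le]
  rcases le_total l t with h1 | h1
  · rw [Real.sqrt_eq_zero'.2 (sub_nonpos.2 h1)]
    rcases le_total l (t - d) with h2 | h2
    · rw [Real.mul_self_sqrt (sub_nonneg.2 h2)]
      constructor <;> linarith
    · rw [Real.sqrt_eq_zero'.2 (sub_nonpos.2 h2)]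
      constructor <;> linarith
  · rw [Real.mul_self_sqrt (sub_nonneg.2 h1),
      Real.sqrt_eq_zero'.2 (show t - d - l ≤ 0 by linarith)]
    constructor <;> linarith

theorem grid (F G : ℝ → Prop) (M d : ℝ) (hd : 0 < d) (h1 : F M) (h2 : ∀ s, F s ∨ G s)
    (h3 : ∀ s, s ≤ -M → G s) : ∃ t, F t ∧ G (t - d) := by
  by_contra h
  push Not at h
  have h4 : ∀ k : ℕ, F (M - k * d) := fun k => by
    induction k with
    | zero => simpa using h1
    | succ k ih =>
      have := (h2 _).resolve_right (h _ ih)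
      rwa [show M - k * d - d = M - ((k + 1 : ℕ) : ℝ) * d by push_cast; ring] at this
  obtain ⟨k, hk⟩ := exists_nat_ge (2 * M / d)
  rw [div_le_iff₀ hd] at hk
  exact h _ (h4 k) (h3 _ (by linarith))

end MedianJ

open MedianJ in
theorem Median_pf (hRange : PRange.{v}) :
    PMedian.{v} := by
  intro A K _ _ _ _ S G hG hN y hyG hy h0 ε hε
  choose R R1 R2 R3 R4 using hRange S
  have sub : ∀ a ∈ Set.centralizer G, ∀ b ∈ Set.centralizer G, a - b ∈ Set.centralizer G :=
    fun a ha b hb => by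
      rw [sub_eq_add_neg]
      exact Set.add_mem_centralizer ha (Set.neg_mem_centralizer hb)
  have cen : ∀ f : ℝ → ℝ, R (cfc f y) ∈ Set.centralizer G := fun f g hg =>
    R4 _ g (Commute.cfc_real (hyG g hg).symm f).symm.eq
      (Commute.cfc_real (hyG _ (hG g hg)).symm f).symm.eq
  have zero : S.τ (R 0) = 0 := by
    have := R3 0 1 (mul_zero _)
    rw [one_mul] at this
    rw [this, map_zero]
  have orth : ∀ s t : ℝ, s ≤ t → R (vv y s) * R (uu y t) = 0 := fun s t h => by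
    refine R3 _ _ ?_
    have := congrArg star (R3 _ _ (uu_vv y h))
    rwa [star_mul, star_zero, star_uu, (R1 _).isSelfAdjoint.star_eq] at this
  obtain ⟨d, hd, hd'⟩ : ∃ d : ℝ, 0 < d ∧ 4 * d * (‖y‖ + d) ≤ ε := by
    have hc : ContinuousAt (fun d : ℝ => 4 * d * (‖y‖ + d)) 0 := by fun_prop
    have h1 : ∀ᶠ d in 𝓝 (0 : ℝ), 4 * d * (‖y‖ + d) < ε :=
      hc.eventually (gt_mem_nhds (by simpa using hε))
    obtain ⟨d, h2, h3⟩ := ((h1.filter_mono nhdsWithin_le_nhds).and
      (self_mem_nhdsWithin (a := (0 : ℝ)) (s := Set.Ioi 0))).exists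
    exact ⟨d, h3, h2.le⟩
  obtain ⟨t, ht, hs⟩ := grid (fun t => (S.τ (R (uu y t))).re ≤ 1 / 2)
    (fun s => (S.τ (R (vv y s))).re ≤ 1 / 2) (‖y‖ * ‖(1 : A)‖) d hd
    (by rw [uu_zero y le_rfl, zero]; norm_num)
    (fun s => by
      have := proj_nonneg S ((R1 _).add (R1 _) (orth s s le_rfl)).one_sub
      rw [map_sub, map_add, S.τ_one] at this
      simp only [Complex.sub_re, Complex.add_re, Complex.one_re] at this
      by_contra h
      push Not at h
      linarith [h.1, h.2])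
    (fun s hs => by rw [vv_zero y hs, zero]; norm_num)
  have hu := star_uu y t
  have hv := star_vv y (t - d)
  have hr := rest (IsSelfAdjoint.star_eq hy) t hd.le
  have hp := R1 (uu y t)
  have hm := R1 (vv y (t - d))
  have hpu := R2 (uu y t)
  have hmv := R2 (vv y (t - d))
  have hpG : R (uu y t) ∈ Set.centralizer G := cen _
  have hmG : R (vv y (t - d)) ∈ Set.centralizer G := cen _
  have hmp := orth (t - d) t (by linarith)
  generalize R (uu y t) = p at *
  generalize R (vv y (t - d)) = m at *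
  generalize uu y t = u at *
  generalize vv y (t - d) = v at *
  have hpm : p * m = 0 := by
    simpa only [star_mul, star_zero, hp.isSelfAdjoint.star_eq, hm.isSelfAdjoint.star_eq] using
      congrArg star hmp
  obtain ⟨q, hqG, hq, hq1, hq2⟩ := hN.2 (1 - (m + p))
    (sub _ Set.one_mem_centralizer _ (Set.add_mem_centralizer hmG hpG)) (hm.add hp hmp).one_sub
    (1 / 2 - (S.τ p).re) (by linarith) (by
      rw [map_sub, map_add, S.τ_one]
      simp only [Complex.sub_re, Complex.add_re, Complex.one_re]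
      linarith)
  have hpq : p * q = 0 := by
    rw [← hq1, ← mul_assoc, mul_sub, mul_add, hpm, mul_one, hp.isIdempotentElem.eq, zero_add,
      sub_self, zero_mul]
  have hmq : m * q = 0 := by
    rw [← hq1, ← mul_assoc, mul_sub, mul_add, hmp, mul_one, hm.isIdempotentElem.eq, add_zero,
      sub_self, zero_mul]
  have hqp : q * p = 0 := by
    simpa only [star_mul, star_zero, hp.isSelfAdjoint.star_eq, hq.isSelfAdjoint.star_eq] using
      congrArg star hpq
  have hqm : q * m = 0 := by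
    simpa only [star_mul, star_zero, hm.isSelfAdjoint.star_eq, hq.isSelfAdjoint.star_eq] using
      congrArg star hmq
  have he := hp.add hq hpq
  have heG := Set.add_mem_centralizer hpG hqG
  have heu : (p + q) * u = u := by
    rw [← hpu, ← mul_assoc, add_mul, hqp, hp.isIdempotentElem.eq, add_zero]
  have hev : (1 - (p + q)) * v = v := by
    rw [sub_mul, one_mul, sub_eq_self, ← hmv, ← mul_assoc, add_mul, hpm, hqm, add_zero, zero_mul]
  have het : S.τ (p + q) = 1 / 2 := by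
    rw [map_add, hq2, proj_real S hp, Complex.ofReal_re]
    push_cast
    ring
  generalize p + q = e at *
  obtain ⟨w, hwG, hw1, hw2⟩ := hN.1 e heG (1 - e) (sub _ Set.one_mem_centralizer _ heG) he
    he.one_sub (by rw [map_sub, S.τ_one, het]; norm_num)
  obtain ⟨hP, f1, f2⟩ := MedianJ.flip he hw1 hw2
  have hue : u * e = u := by
    simpa only [star_mul, hu, he.isSelfAdjoint.star_eq] using congrArg star heu
  have hve : v * (1 - e) = v := by
    simpa only [star_mul, hv, he.one_sub.isSelfAdjoint.star_eq] using congrArg star hev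
  refine ⟨w + star w, Set.add_mem_centralizer hwG (Set.star_mem_centralizer' hG hwG),
    e - (1 - e), sub _ heG _ (sub _ Set.one_mem_centralizer _ heG), hP, ?_⟩
  refine (est S hP.1 hP.2.2.1 hu hv ?_ ?_ hy h0 hr).trans (by linarith)
  · calc u * (w + star w) * u = u * e * (w + star w) * (e * u) := by rw [hue, heu]
      _ = u * (e * (w + star w) * e) * u := by simp only [mul_assoc]
      _ = 0 := by rw [f1, mul_zero, zero_mul]
  · calc v * (w + star w) * v = v * (1 - e) * (w + star w) * ((1 - e) * v) := by rw [hve, hev]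
      _ = v * ((1 - e) * (w + star w) * (1 - e)) * v := by simp only [mul_assoc]
      _ = 0 := by rw [f2, mul_zero, zero_mul]

end Pool.Agent.MP_890ef7_an.KK

end

section

open scoped InnerProductSpace ComplexOrder
open Filter Topology

namespace Pool.Agent.MP_890ef7_an.KK

universe v w

namespace S2aJ

variable {A B K K' Γ : Type v} [CStarAlgebra A] [CStarAlgebra B] [NormedAddCommGroup K]
  [InnerProductSpace ℂ K] [CompleteSpace K] [NormedAddCommGroup K'] [InnerProductSpace ℂ K']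
  [CompleteSpace K'] [Group Γ] (S : Std A K) (S' : Std B K')

theorem inv (j : Γ →* unitary A) (g : Γ) : (j g⁻¹ : A) = star (j g : A) := by
  rw [map_inv]; rfl

theorem nL (u : unitary A) (z : K) : ‖S.L u z‖ = ‖z‖ := by
  rw [norm_eq_sqrt_re_inner (𝕜 := ℂ), S.inner_L, ← S.L_mul_apply, u.2.1, map_one,
    norm_eq_sqrt_re_inner (𝕜 := ℂ) z]
  rfl

theorem nR (u : unitary A) (z : K) : ‖S.R u z‖ = ‖z‖ := by
  rw [norm_eq_sqrt_re_inner (𝕜 := ℂ), S.inner_R, ← S.R_mul_apply, u.2.2, S.R_one,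
    norm_eq_sqrt_re_inner (𝕜 := ℂ) z]
  rfl

theorem small (hL2 : PL2.{v}) {T : Tower Γ} {j : Γ →* unitary A} {ρ : Γ →* unitary B}
    (hE : Erg S T j) (Y : K →L[ℂ] K') {β : ℝ} (hβ : 0 ≤ β)
    (hL : ∀ g z, Y (S.L (j g) z) = S'.L (ρ g) (Y z))
    (hR : ∀ g z, Y (S.R (j g) z) = S'.R (ρ g) (Y z))
    (h : ∀ x, ‖Y (S.hat x)‖ ≤ 4 * β * ‖x‖) : ‖Y‖ ≤ 64 * β :=
  (hL2 S T j Y (4 * β) hE (fun g g' x => by
    rw [← S.R_hat, ← S.L_hat, hR, nR, hL, nL]) (by positivity) h).trans_eq (by ring)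

theorem near {X : K →L[ℂ] K'} {β c : ℝ} {t : ℂ} (h1 : X S.ξ = t • S'.ξ) (h2 : ‖t - 1‖ ≤ β)
    {x : A} {y : B} (hy : ‖y‖ ≤ c) (h : ‖X ∘L S.L x - S'.L y ∘L X‖ ≤ β * c) :
    ‖X (S.hat x) - S'.hat y‖ ≤ 2 * β * c := by
  have e : X (S.hat x) - S'.hat y =
      (X ∘L S.L x - S'.L y ∘L X) S.ξ + (t - 1) • S'.hat y := by
    simp only [sub_apply, ContinuousLinearMap.comp_apply, h1, map_smul,
      Std.L_ξ, sub_smul, one_smul]
    abel
  have h3 := (X ∘L S.L x - S'.L y ∘L X).le_opNorm S.ξ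
  rw [S.norm_ξ, mul_one] at h3
  have h4 : ‖(t - 1) • S'.hat y‖ ≤ β * c := by
    rw [norm_smul]
    exact mul_le_mul h2 ((S'.norm_hat_le y).trans hy) (norm_nonneg _) ((norm_nonneg _).trans h2)
  rw [e]
  exact (norm_add_le _ _).trans (by linarith)

theorem adjL (X : K →L[ℂ] K') (x : A) (y : B) :
    X.adjoint ∘L S'.L y - S.L x ∘L X.adjoint =
      -(X ∘L S.L (star x) - S'.L (star y) ∘L X).adjoint := by
  simp only [map_sub, ContinuousLinearMap.adjoint_comp, map_star,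
    ContinuousLinearMap.star_eq_adjoint, ContinuousLinearMap.adjoint_adjoint, neg_sub]

theorem opn (Y Z : K →L[ℂ] K')
    (h : ∀ y x, ⟪S'.hat y, Y (S.hat x)⟫_ℂ = ⟪Z (S.hat (star x)), S'.hat (star y)⟫_ℂ) :
    ‖Y‖ ≤ ‖Z‖ :=
  S.opNorm_le Y (norm_nonneg _) fun x => S'.norm_le_of_inner (by positivity) fun y => by
    rw [h, ← S.norm_hat_star, ← S'.norm_hat_star]
    exact (norm_inner_le_norm _ _).trans
      (mul_le_mul_of_nonneg_right (Z.le_opNorm _) (norm_nonneg _))

variable {X Y : K →L[ℂ] K'}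
  (h : ∀ y x, ⟪S'.hat y, Y (S.hat x)⟫_ℂ = ⟪X (S.hat (star x)), S'.hat (star y)⟫_ℂ)
include h

theorem RL (x : A) (y : B) :
    ‖Y ∘L S.R x - S'.R y ∘L Y‖ ≤ ‖X ∘L S.L (star x) - S'.L (star y) ∘L X‖ :=
  opn S S' _ _ fun y' z => by
    have e := S'.inner_R (star y) (S'.hat y') (Y (S.hat z))
    rw [star_star] at e
    simp only [sub_apply, ContinuousLinearMap.comp_apply, inner_sub_right,
      inner_sub_left, ← e, Std.R_hat, Std.L_hat, h, Std.inner_L, star_mul, star_star]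

theorem LR (x : A) (y : B) :
    ‖Y ∘L S.L x - S'.L y ∘L Y‖ ≤ ‖X ∘L S.R (star x) - S'.R (star y) ∘L X‖ :=
  opn S S' _ _ fun y' z => by
    have e := S'.inner_L (star y) (S'.hat y') (Y (S.hat z))
    rw [star_star] at e
    simp only [sub_apply, ContinuousLinearMap.comp_apply, inner_sub_right,
      inner_sub_left, ← e, Std.R_hat, Std.L_hat, h, Std.inner_R, star_mul, star_star]

theorem near' {x : A} {y : B} {c : ℝ} (h1 : ‖X (S.hat (star x)) - S'.hat (star y)‖ ≤ c) :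
    ‖Y (S.hat x) - S'.hat y‖ ≤ c :=
  S'.norm_le_of_inner ((norm_nonneg _).trans h1) fun y' => by
    rw [inner_sub_right, h, ← S'.inner_hat_star y y', ← inner_sub_left, ← S'.norm_hat_star]
    exact (norm_inner_le_norm _ _).trans (mul_le_mul_of_nonneg_right h1 (norm_nonneg _))

end S2aJ

open S2aJ in
theorem S2a_pf (hFix : PFix.{v}) (hL2 : PL2.{v}) (hForm : PForm.{v}) :
    PS2a.{v} := by
  intro A B K K' Γ _ _ _ _ _ _ _ _ _ S S' T j ρ X β r hβ hE hE' hX hL hR hξ hx hy hs hr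
  have hX' : ‖X.adjoint‖ ≤ 1 := by rwa [LinearIsometryEquiv.norm_map]
  have hL' : ∀ g z, X.adjoint (S'.L (ρ g) z) = S.L (j g) (X.adjoint z) := fun g z =>
    ext_inner_left ℂ fun u => by
      rw [ContinuousLinearMap.adjoint_inner_right, ← star_star (ρ g : B), ← S'.inner_L,
        ← inv, ← hL, ← ContinuousLinearMap.adjoint_inner_right, S.inner_L, inv, star_star]
  have hR' : ∀ g z, X.adjoint (S'.R (ρ g) z) = S.R (j g) (X.adjoint z) := fun g z =>
    ext_inner_left ℂ fun u => by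
      rw [ContinuousLinearMap.adjoint_inner_right, ← star_star (ρ g : B), ← S'.inner_R,
        ← inv, ← hR, ← ContinuousLinearMap.adjoint_inner_right, S.inner_R, inv, star_star]
  have f1 := hFix S' T ρ hE' (X S.ξ) fun g => by rw [← hL, ← hR, S.LR]
  have f2 := hFix S T j hE (X.adjoint S'.ξ) fun g => by rw [← hL', ← hR', S'.LR]
  have hξ' : ‖⟪S.ξ, X.adjoint S'.ξ⟫_ℂ - 1‖ ≤ β := by
    rwa [ContinuousLinearMap.adjoint_inner_right, ← inner_conj_symm, ← map_one (starRingEnd ℂ),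
      ← map_sub, Complex.norm_conj]
  have n1 : ∀ x y c, r x y c → ‖X (S.hat x) - S'.hat y‖ ≤ 2 * β * c := fun x y c h =>
    near S S' f1 hξ (hr x y c h).2.1 (hr x y c h).2.2
  have n2 : ∀ x y c, r x y c → ‖X.adjoint (S'.hat y) - S.hat x‖ ≤ 2 * β * c := fun x y c h =>
    near S' S f2 hξ' (hr x y c h).1 (by
      rw [adjL, norm_neg, LinearIsometryEquiv.norm_map]
      exact (hr _ _ c (hs x y c h)).2.2)
  obtain ⟨Y, -, hY⟩ := hForm S S' (fun y x => ⟪X (S.hat (star x)), S'.hat (star y)⟫_ℂ) 1 zero_le_one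
    (fun y x x' => by simp only [star_add, map_add, inner_add_left])
    (fun y t x => by
      simp only [star_smul, map_smul, inner_smul_left, RCLike.star_def, Complex.conj_conj])
    (fun y y' x => by simp only [star_add, map_add, inner_add_right])
    (fun t y x => by simp only [star_smul, map_smul, inner_smul_right, RCLike.star_def])
    fun y x => by
      rw [← S.norm_hat_star, ← S'.norm_hat_star, mul_right_comm]
      exact (norm_inner_le_norm _ _).trans (mul_le_mul_of_nonneg_right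
        (X.le_of_opNorm_le hX _) (norm_nonneg _))
  have z0 : ∀ {P Q : K →L[ℂ] K'} {P' Q' : K →L[ℂ] K'}, ‖P - Q‖ ≤ ‖P' - Q'‖ → (∀ z, P' z = Q' z) →
      ∀ z, P z = Q z := fun {P Q P' Q'} h e z => by
    rw [ContinuousLinearMap.ext e, sub_self, norm_zero, norm_le_zero_iff, sub_eq_zero] at h
    rw [h]
  have hd : ‖X - Y‖ ≤ 64 * β := small S S' hL2 (ρ := ρ) hE _ hβ
    (fun g z => by
      rw [sub_apply, sub_apply, map_sub, hL]
      exact congrArg _ (z0 (LR S S' hY (j g) (ρ g)) (fun u => by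
        rw [← inv, ← inv]; exact hR _ u) z))
    (fun g z => by
      rw [sub_apply, sub_apply, map_sub, hR]
      exact congrArg _ (z0 (RL S S' hY (j g) (ρ g)) (fun u => by
        rw [← inv, ← inv]; exact hL _ u) z))
    fun x => by
      obtain ⟨y, h⟩ := hx x
      have h1 := n1 x y _ h
      have h2 := near' S S' hY (n1 _ _ _ (hs x y _ h))
      rw [sub_apply, ← sub_sub_sub_cancel_right _ _ (S'.hat y)]
      exact (norm_sub_le _ _).trans (by linarith)
  refine ⟨small S S hL2 (ρ := j) hE _ hβ (fun g z => ?_) (fun g z => ?_) fun x => ?_,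
    small S' S' hL2 (ρ := ρ) hE' _ hβ (fun g z => ?_) (fun g z => ?_) fun y => ?_, ⟨_, f1⟩,
    fun x y c h => ?_⟩
  · simp only [sub_apply, ContinuousLinearMap.comp_apply,
      one_apply_eq_self, hL, hL', map_sub]
  · simp only [sub_apply, ContinuousLinearMap.comp_apply,
      one_apply_eq_self, hR, hR', map_sub]
  · obtain ⟨y, h⟩ := hx x
    have h1 := X.adjoint.le_of_opNorm_le hX' (X (S.hat x) - S'.hat y)
    have h2 := n1 x y _ h
    have h3 := n2 x y _ h
    rw [sub_apply, ContinuousLinearMap.comp_apply,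
      one_apply_eq_self, ← sub_add_sub_cancel _ (X.adjoint (S'.hat y)), ← map_sub]
    exact (norm_add_le _ _).trans (by linarith)
  · simp only [sub_apply, ContinuousLinearMap.comp_apply,
      one_apply_eq_self, hL, hL', map_sub]
  · simp only [sub_apply, ContinuousLinearMap.comp_apply,
      one_apply_eq_self, hR, hR', map_sub]
  · obtain ⟨x, h⟩ := hy y
    have h1 := X.le_of_opNorm_le hX (X.adjoint (S'.hat y) - S.hat x)
    have h2 := n1 x y _ h
    have h3 := n2 x y _ h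
    rw [sub_apply, ContinuousLinearMap.comp_apply,
      one_apply_eq_self, ← sub_add_sub_cancel _ (X (S.hat x)), ← map_sub]
    exact (norm_add_le _ _).trans (by linarith)
  · have h1 := (RL S S' hY x y).trans (hr _ _ c (hs x y c h)).2.2
    have h2 := ((X - Y).opNorm_comp_le (S.R x)).trans (mul_le_mul hd
      ((S.norm_R x).trans (hr x y c h).1) (norm_nonneg _) (by positivity))
    have h3 := ((S'.R y).opNorm_comp_le (X - Y)).trans (mul_le_mul
      ((S'.norm_R y).trans (hr x y c h).2.1) hd (norm_nonneg _)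
      ((norm_nonneg _).trans (hr x y c h).1))
    have e : X ∘L S.R x - S'.R y ∘L X =
        (X - Y) ∘L S.R x - S'.R y ∘L (X - Y) + (Y ∘L S.R x - S'.R y ∘L Y) := by
      rw [ContinuousLinearMap.sub_comp, ContinuousLinearMap.comp_sub]
      abel
    rw [e]
    exact (norm_add_le _ _).trans ((add_le_add (norm_sub_le _ _) h1).trans (by linarith))

end Pool.Agent.MP_890ef7_an.KK

end

section

open scoped InnerProductSpace ComplexOrder
open Filter Topology

namespace Pool.Agent.MP_890ef7_an.KK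

universe v w

namespace S2bJ

theorem inv {K : Type v} [NormedAddCommGroup K] [NormedSpace ℂ K] [CompleteSpace K]
    (T : K →L[ℂ] K) (h : ‖T - 1‖ < 1) : ∃ U : K →L[ℂ] K, U * T = 1 ∧ T * U = 1 := by
  have h' : ‖1 - T‖ < 1 := by rwa [norm_sub_rev]
  refine ⟨((Units.oneSub (1 - T) h')⁻¹ : (K →L[ℂ] K)ˣ), ?_, ?_⟩
  · simpa using (Units.oneSub (1 - T) h').inv_mul
  · simpa using (Units.oneSub (1 - T) h').mul_inv

end S2bJ

theorem S2b_pf :
    PS2b.{v} := by
  intro A B K K' _ _ _ _ _ _ _ _ S S' X β r h0 hβ hX h1 h2 ⟨c, hc⟩ hA hB hr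
  obtain ⟨U, hU, -⟩ := S2bJ.inv _ (h1.trans_lt (by linarith))
  obtain ⟨V, -, hV⟩ := S2bJ.inv _ (h2.trans_lt (by linarith))
  obtain ⟨Y, hY⟩ : ∃ Y : K' →L[ℂ] K, Y = U ∘L X.adjoint := ⟨_, rfl⟩
  have l : ∀ z, Y (X z) = z := fun z => by
    rw [hY]; exact congrArg (fun T : K →L[ℂ] K => T z) hU
  have l' : ∀ z, X (Y z) = z := fun z => by
    have e : X (X.adjoint (V z)) = z := congrArg (fun T : K' →L[ℂ] K' => T z) hV
    conv_lhs => rw [← e, l]
    exact e
  have nY : ‖Y‖ ≤ 3 / 2 := Y.opNorm_le_bound (by norm_num) fun z => by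
    have e1 := ((X.adjoint ∘L X - 1).le_opNorm (Y z)).trans
      (mul_le_mul_of_nonneg_right (h1.trans hβ) (norm_nonneg _))
    have e2 : (X.adjoint ∘L X - 1) (Y z) = X.adjoint z - Y z := by
      rw [sub_apply, ContinuousLinearMap.comp_apply, l']; rfl
    have e3 : ‖X.adjoint z‖ ≤ 1 * ‖z‖ := (X.adjoint.le_opNorm z).trans
      (mul_le_mul_of_nonneg_right (by rwa [LinearIsometryEquiv.norm_map]) (norm_nonneg _))
    have e4 := norm_sub_norm_le (Y z) (X.adjoint z)
    rw [e2, norm_sub_rev] at e1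
    linarith [norm_nonneg z]
  have hc0 : c ≠ 0 := fun h => by
    have := l S.ξ
    rw [hc, h, zero_smul, map_zero] at this
    have h3 := S.norm_ξ
    rw [← this, norm_zero] at h3
    exact zero_ne_one h3
  have hξ : Y S'.ξ = c⁻¹ • S.ξ := by
    rw [← l S.ξ, hc, map_smul, smul_smul, inv_mul_cancel₀ hc0, one_smul]
  have n1 : ∀ (T : K →L[ℂ] K) (t : ℝ), ‖T‖ ≤ t → ‖X ∘L T ∘L Y‖ ≤ 3 / 2 * t := fun T t ht => by
    have e1 := (T.opNorm_comp_le Y).trans
      (mul_le_mul ht nY (norm_nonneg _) ((norm_nonneg _).trans ht))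
    have e2 := (X.opNorm_comp_le (T ∘L Y)).trans (mul_le_of_le_one_left (norm_nonneg _) hX)
    linarith
  have n2 : ∀ (T : K →L[ℂ] K) (T' : K' →L[ℂ] K') (t : ℝ), ‖X ∘L T - T' ∘L X‖ ≤ β * t →
      ‖X ∘L T ∘L Y - T'‖ ≤ 2 * β * t := fun T T' t ht => by
    have e : X ∘L T ∘L Y - T' = (X ∘L T - T' ∘L X) ∘L Y := by
      ext z
      simp [l']
    have e0 := (norm_nonneg _).trans ht
    have e1 := ((X ∘L T - T' ∘L X).opNorm_comp_le Y).trans (mul_le_mul ht nY (norm_nonneg _) e0)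
    rw [e]
    linarith
  let π : A →ₐ[ℂ] (K' →L[ℂ] K') := AlgHom.ofLinearMap
    { toFun := fun x => X ∘L S.L x ∘L Y
      map_add' := fun a b => by ext z; simp
      map_smul' := fun a b => by ext z; simp }
    (by ext z; simp [l']) fun a b => by ext z; simp [l]
  let π' : A →ₗ[ℂ] (K' →L[ℂ] K') :=
    { toFun := fun x => X ∘L S.R x ∘L Y
      map_add' := fun a b => by ext z; simp
      map_smul' := fun a b => by ext z; simp }
  have p1 : ∀ x, π x = X ∘L S.L x ∘L Y := fun _ => rfl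
  have p2 : ∀ x, π' x = X ∘L S.R x ∘L Y := fun _ => rfl
  refine ⟨ContinuousLinearEquiv.equivOfInverse X Y l l',
    { π := π
      π' := π'
      π'_one := by ext z; simp [p2, S.R_one, l']
      π'_mul := fun a b => by ext z; simp [p2, S.R_mul, l]
      comm := fun a b => by ext z; simp [p1, p2, l, S.comm_apply]
      ξeq := fun a => by simp [p1, p2, hξ, S.LR]
      norm_π := fun a => n1 _ _ (S.norm_L a).le
      norm_π' := fun a => n1 _ _ (S.norm_R a)
      partA := fun x => ?_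
      partB := fun y => ?_ }, rfl, fun x z => ?_, fun x z => ?_⟩
  · obtain ⟨y, hy⟩ := hA x
    obtain ⟨-, e1, e2, e3⟩ := hr x y _ hy
    exact ⟨y, e1, n2 _ _ _ e2, n2 _ _ _ e3⟩
  · obtain ⟨x, hx⟩ := hB y
    obtain ⟨e1, -, e2, e3⟩ := hr x y _ hx
    exact ⟨x, e1, n2 _ _ _ e2, n2 _ _ _ e3⟩
  · exact congrArg (fun t => X (S.L x t)) (l z)
  · exact congrArg (fun t => X (S.R x t)) (l z)

end Pool.Agent.MP_890ef7_an.KK

end

section

open scoped InnerProductSpace ComplexOrder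
open Filter Topology

namespace Pool.Agent.MP_890ef7_an.KK

universe v w

namespace ShapeJ

variable {A B K : Type v} [CStarAlgebra A] [CStarAlgebra B] [NormedAddCommGroup K]
  [InnerProductSpace ℂ K] [CompleteSpace K] {S : Std B K} {γ η : ℝ} (C : Core A S γ η)

theorem nu (g : unitary A) : ‖(g : A)‖ ≤ 1 := by
  rcases subsingleton_or_nontrivial A with h | h
  · rw [Subsingleton.elim (g : A) 0, norm_zero]
    exact zero_le_one
  · exact (CStarRing.norm_coe_unitary g).le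

theorem n1 {x : A} (h : ‖x‖ ≤ 1) : ‖C.π x‖ ≤ 2 := (C.norm_π x).trans (by linarith)

theorem n2 {x : A} (h : ‖x‖ ≤ 1) : ‖C.π' x‖ ≤ 2 := (C.norm_π' x).trans (by linarith)

omit [CompleteSpace K] in
theorem ap {T : K →L[ℂ] K} {z : K} {s t : ℝ} (h : ‖T‖ ≤ s) (h' : ‖z‖ ≤ t) : ‖T z‖ ≤ s * t :=
  (T.le_opNorm z).trans (mul_le_mul h h' (norm_nonneg _) ((norm_nonneg _).trans h))

variable {C} {g h : unitary A} {g₀ g₁ h₁ : B}

theorem b1 (H : C.Good 3 (star (g : A)) g₁) : ‖C.π' g * S.R g₁ - 1‖ ≤ 6 * γ := by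
  have e : C.π' g * S.R g₁ - 1 = -(C.π' g * (C.π' (star (g : A)) - S.R g₁)) := by
    rw [mul_sub, ← C.π'_mul, Unitary.coe_star_mul_self, C.π'_one, neg_sub]
  rw [e, norm_neg]
  exact (norm_mul_le_of_le (n2 C (nu g)) H.r).trans_eq (by ring)

theorem b2 (H : C.Good 3 (star (g : A)) g₁) :
    ‖C.π' g * C.π (star (g : A)) * S.R g₁ - C.π (star (g : A))‖ ≤ 12 * γ := by
  have e : C.π' g * C.π (star (g : A)) * S.R g₁ - C.π (star (g : A)) =
      C.π (star (g : A)) * (C.π' g * S.R g₁ - 1) := by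
    rw [← C.comm, mul_sub, mul_one, mul_assoc]
  rw [e]
  exact (norm_mul_le_of_le (n1 C ((norm_star _).trans_le (nu g))) (b1 H)).trans_eq (by ring)

theorem b3 (H : C.Good 3 (star (g : A)) g₁) {c : ℝ} {Y : B} (hY : ‖Y‖ ≤ c) :
    ‖C.π' g * C.π (star (g : A)) * S.R g₁ * S.R Y -
      S.R Y * (C.π' g * C.π (star (g : A)) * S.R g₁)‖ ≤ 30 * c * γ := by
  have h1 : ‖C.π' g * C.π (star (g : A)) * S.R g₁ - S.L g₁‖ ≤ 15 * γ :=
    (norm_sub_le_norm_sub_add_norm_sub _ _ _).trans ((add_le_add (b2 H) H.l).trans_eq (by ring))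
  have h2 := (S.norm_R Y).trans hY
  generalize C.π' g * C.π (star (g : A)) * S.R g₁ = V at h1 ⊢
  have e : V * S.R Y - S.R Y * V = (V - S.L g₁) * S.R Y - S.R Y * (V - S.L g₁) := by
    rw [sub_mul, mul_sub, S.comm]
    abel
  rw [e]
  exact (norm_sub_le _ _).trans ((add_le_add (norm_mul_le_of_le h1 h2)
    (norm_mul_le_of_le h2 h1)).trans_eq (by ring))

theorem b4 (H₀ : C.Good 3 (g : A) g₀) (H : C.Good 3 (star (g : A)) g₁) :
    ‖C.π' g * C.π (star (g : A)) * S.R g₁ * S.L g₀ - 1‖ ≤ 42 * γ := by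
  have h1 := b2 H
  generalize C.π' g * C.π (star (g : A)) * S.R g₁ = V at h1 ⊢
  have e : V * S.L g₀ - 1 =
      (V - C.π (star (g : A))) * S.L g₀ - C.π (star (g : A)) * (C.π g - S.L g₀) := by
    rw [sub_mul, mul_sub, ← map_mul, Unitary.coe_star_mul_self, map_one]
    abel
  rw [e]
  exact (norm_sub_le _ _).trans ((add_le_add
    (norm_mul_le_of_le h1 ((S.norm_L g₀).trans_le H₀.ny))
    (norm_mul_le_of_le (n1 C ((norm_star _).trans_le (nu g))) H₀.l)).trans_eq (by ring))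

theorem b5 (H₀ : C.Good 3 (g : A) g₀) (H : C.Good 3 (star (h : A)) h₁) {X : A} {X' : B}
    (hX : ‖X‖ ≤ 1) (H' : C.Good 3 X X') :
    ‖S.R h₁ (C.π (g * X * h) S.ξ) - S.L g₀ (S.hat X')‖ ≤ 45 * η := by
  have h0 : ‖g * X * h‖ ≤ 1 :=
    (norm_mul_le_of_le (norm_mul_le_of_le (nu g) hX) (nu h)).trans_eq (by ring)
  have e : S.R h₁ (C.π (g * X * h) S.ξ) - S.L g₀ (S.hat X') = -C.Φ (g * X * h) h₁ +
      -C.π (g * X * h) (C.π (star (h : A)) S.ξ - S.hat h₁) +
      (C.π (g * X) S.ξ - S.hat (g₀ * X')) := by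
    rw [map_sub, ← C.π_mul_apply, mul_assoc _ (h : A), Unitary.mul_star_self_of_mem h.2, mul_one,
      S.L_hat, Pre.Φ]
    abel
  have h1 := (C.Φ_le (g * X * h) h₁).trans (mul_le_mul
    (mul_le_mul_of_nonneg_left h0 C.η_pos.le) H.ny (norm_nonneg _) (by linarith [C.η_pos]))
  have h2 := ap (n1 C h0) H.v
  have h3 := (H₀.mul H').v
  rw [e]
  refine norm_add₃_le.trans ?_
  rw [norm_neg, norm_neg]
  linarith

theorem b6 (H : C.Good 3 (star (g : A)) g₁) (H' : C.Good 3 (star (h : A)) h₁) :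
    ‖C.π h * C.π' g * S.R g₁ * S.L h₁ - 1‖ ≤ 50 * γ := by
  have e : C.π h * C.π' g * S.R g₁ * S.L h₁ - 1 =
      C.π h * (C.π' g * S.R g₁ - 1) * S.L h₁ - C.π h * (C.π (star (h : A)) - S.L h₁) := by
    rw [mul_sub (C.π h) (C.π _), ← map_mul, Unitary.mul_star_self_of_mem h.2, map_one]
    noncomm_ring
  have h1 := norm_mul_le_of_le (norm_mul_le_of_le (n1 C (nu h)) (b1 H))
    ((S.norm_L h₁).trans_le H'.ny)
  have h2 := norm_mul_le_of_le (n1 C (nu h)) H'.l
  rw [e]
  refine (norm_sub_le _ _).trans ?_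
  linarith [C.γ_pos]

theorem hat3 (Y : B) : S.hat (h₁ * Y * g₁) = S.R g₁ (S.L h₁ (S.hat Y)) := by
  rw [S.L_hat, S.R_hat]

theorem b7 (H : C.Good 3 (star (g : A)) g₁) (H' : C.Good 3 (star (h : A)) h₁) {c : ℝ} {Z : A}
    {Y : B} (HY : C.Good c Z Y) :
    ‖(C.π h * C.π' g * S.R g₁ * S.L h₁ - 1 : K →L[ℂ] K) (S.hat Y)‖ ≤ 600 * c * η := by
  have e0 : C.π h (C.π' g (C.π (star (h : A) * Z * star (g : A)) S.ξ)) = C.π Z S.ξ := by
    rw [← C.comm_apply, ← C.ξeq, ← C.π_mul_apply, ← C.π_mul_apply, ← mul_assoc, ← mul_assoc,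
      Unitary.mul_star_self_of_mem h.2, one_mul, mul_assoc, Unitary.coe_star_mul_self, mul_one]
  have e : (C.π h * C.π' g * S.R g₁ * S.L h₁ - 1 : K →L[ℂ] K) (S.hat Y) = (C.π Z S.ξ - S.hat Y) -
      C.π h (C.π' g (C.π (star (h : A) * Z * star (g : A)) S.ξ - S.hat (h₁ * Y * g₁))) := by
    rw [map_sub, map_sub, e0, hat3]
    change C.π h (C.π' g (S.R g₁ (S.L h₁ (S.hat Y)))) - S.hat Y = _
    abel
  have h1 := ap (n1 C (nu h)) (ap (n2 C (nu g)) ((H'.mul HY).mul H).v)
  have h2 := HY.v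
  have h3 := mul_nonneg HY.nonneg C.η_pos.le
  rw [e]
  refine (norm_sub_le _ _).trans ?_
  linarith

theorem ex (X : A) (Y : B) :
    C.π' g (C.π (star (g : A)) (C.Φ (g * X * h) (h₁ * Y * g₁))) =
      C.π X ((C.π h * C.π' g * S.R g₁ * S.L h₁ : K →L[ℂ] K) (S.hat Y)) -
        (C.π' g * C.π (star (g : A)) * S.R g₁ : K →L[ℂ] K)
          (S.R Y (S.R h₁ (C.π (g * X * h) S.ξ))) := by
  rw [Pre.Φ, map_sub, map_sub, S.R_mul_apply, S.R_mul_apply, hat3, ← C.π_mul_apply, ← mul_assoc,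
    ← mul_assoc, Unitary.coe_star_mul_self, one_mul, ← C.comm_apply, C.π_mul_apply X]
  rfl

end ShapeJ

open ShapeJ in
theorem Shape_pf (hGood : PGood.{v}) :
    PShape.{v} := by
  intro A B K _ _ _ _ _ S γ η C g h g₀ g₁ h₁ H₀ H H'
  have hp : ∀ X : A, ∃ X' : B, ‖X‖ ≤ 1 → C.Good 3 X X' := fun X => by
    by_cases hX : ‖X‖ ≤ 1
    · exact (hGood C X hX).imp fun _ e _ => e
    · exact ⟨0, fun e => absurd e hX⟩
  choose p hp using hp
  have h3 := fun c Y => b3 H (c := c) (Y := Y)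
  have h4 := b4 H₀ H
  have he := fun X Y => ex (C := C) (g := g) (h := h) (g₁ := g₁) (h₁ := h₁) X Y
  generalize C.π' g * C.π (star (g : A)) * S.R g₁ = V at h3 h4 he
  refine ⟨C.π h * C.π' g * S.R g₁ * S.L h₁ - 1,
    fun X => C.π X S.ξ - (V (S.R h₁ (C.π (g * X * h) S.ξ) - S.L g₀ (S.hat (p X))) + S.hat (p X)),
    fun z => -(V * S.L g₀ - 1 : K →L[ℂ] K) (C.π z S.ξ), b6 H H', fun c Z Y HY => b7 H H' HY,
    fun X hX c Z Y HY => ?_⟩
  have h5 := ap (h3 c Y HY.ny) (b5 H₀ H' hX (hp X hX))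
  have h6 := ap h4 ((hp X hX).mul HY).v
  have h7 := mul_nonneg (mul_nonneg HY.nonneg C.γ_pos.le) C.η_pos.le
  refine le_trans (le_of_eq (congrArg norm ?_)) ((norm_sub_le_of_le h6 h5).trans (by linarith))
  rw [he, Pre.Φ, ← S.R_hat]
  simp only [sub_apply, mul_apply_eq_comp, one_apply_eq_self, map_sub, map_add, S.comm_apply]
  abel

end Pool.Agent.MP_890ef7_an.KK

end
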