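import Mathlib
import Pool.Agent.Mg.F890ef7p.Ga4291c

section

/-! Assembly of the steps. -/

open scoped InnerProductSpace ComplexOrder
open Filter Topology

namespace Pool.Agent.MP_890ef7_an.KK

universe v w

theorem norm_unitary_le {A : Type*} [CStarAlgebra A] (u : unitary A) : ‖(u : A)‖ ≤ 1 := by
  rcases subsingleton_or_nontrivial A with h | h
  · rw [Subsingleton.elim (u : A) 0, norm_zero]; exact zero_le_one
  · exact (CStarRing.norm_coe_unitary u).le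

theorem Newton_pf (hElim : PElim.{v}) (hCorner : PCorner.{v}) (hSpread : PSpread.{v})
    (hAvg : PAvg.{v}) : PNewton.{v} := by
  intro A B K Γ _ _ _ _ _ _ S γ η C T j ρ hE hc ⟨a, b, ha, hb, haa, hbb, hab⟩
  have hγ := C.γ_pos
  have hη := C.η_pos
  have h1 := S.norm_one
  have hρ := norm_unitary_le (ρ b)
  have F : Flip C.toPre (j a : A) ((1 / 2 : ℂ) • (1 + (j b : A))) (ρ a : B)
      ((1 / 2 : ℂ) • (1 + (ρ b : B))) := by
    refine ⟨ha, haa, ⟨?_, ?_⟩, ?_, hc a, (Pre.Com.one.add (hc b)).smul _, norm_unitary_le _, ?_, ?_⟩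
    · change _ * _ = _
      simp only [smul_mul_assoc, mul_smul_comm, add_mul, mul_add, one_mul, mul_one, hbb]
      module
    · change star _ = _
      simp [hb]
    · have : (j a : A) * j b * j a = -j b := by
        rw [hab, neg_mul, mul_assoc, haa, mul_one]
      simp only [smul_mul_assoc, mul_smul_comm, add_mul, mul_add, mul_one, haa, this]
      module
    · rw [norm_smul]
      have := norm_add_le (1 : B) (ρ b)
      simp only [norm_div, norm_one, Complex.norm_ofNat]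
      linarith
    · rw [show (1 : B) - (1 / 2 : ℂ) • (1 + (ρ b : B)) = (1 / 2 : ℂ) • (1 - (ρ b : B)) by module,
        norm_smul]
      have := norm_sub_le (1 : B) (ρ b)
      simp only [norm_div, norm_one, Complex.norm_ofNat]
      linarith
  obtain ⟨k, -, hk2, hk3⟩ := hElim C _ _ _ _ F
  have h4 := hCorner C _ _ _ _ F k _ (by positivity) hk3
  obtain ⟨k', h5, h6⟩ := hSpread C _ _ _ _ F k _ _ (by positivity) (by positivity) (hk2 3) h4
  obtain ⟨k'', g1, g2, g3, g4, g5⟩ := hAvg C T j ρ hE hc k' _ _ (by positivity) (by positivity) h5 h6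
  refine ⟨k'', g1.trans (by linarith), g2, g3, g4, fun x y => (g5 x y).trans ?_⟩
  have : 0 ≤ γ * η := by positivity
  exact mul_le_mul_of_nonneg_right (mul_le_mul_of_nonneg_right (by nlinarith) (norm_nonneg _))
    (norm_nonneg _)

section
variable {A B K K' H : Type v} [CStarAlgebra A] [CStarAlgebra B] [NormedAddCommGroup K]
  [InnerProductSpace ℂ K] [CompleteSpace K] [NormedAddCommGroup K'] [InnerProductSpace ℂ K']
  [CompleteSpace K'] [NormedAddCommGroup H] [InnerProductSpace ℂ H] [CompleteSpace H]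

theorem Linked.wcont {S : Std A K} {ι : A →⋆ₐ[ℂ] (H →L[ℂ] H)} (h : Linked S ι) : WCont S ι := by
  intro a c hc ha z w
  have hc0 : 0 ≤ c := (norm_nonneg _).trans (hc 0)
  have hd : (0 : ℝ) < c + 1 := by linarith
  set t : ℂ := ((c + 1 : ℝ) : ℂ) with ht
  have ht0 : t ≠ 0 := by rw [ht]; exact_mod_cast hd.ne'
  have hn : ∀ n, ‖t⁻¹ • a n‖ ≤ 1 := fun n => by
    rw [norm_smul, norm_inv, ht, Complex.norm_real, Real.norm_of_nonneg hd.le, inv_mul_le_iff₀ hd]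
    linarith [hc n]
  have key : ∀ u : K, Tendsto (fun n => S.L (a n) u) (ω : Filter ℕ) (𝓝 0) := by
    intro u
    rw [Metric.tendsto_nhds]
    intro ε hε
    obtain ⟨b, hb⟩ := S.dense_hat.exists_dist_lt u (show 0 < ε / (2 * (c + 1)) by positivity)
    have h2 := ((S.R b).continuous.tendsto _).comp ha
    rw [map_zero, Metric.tendsto_nhds] at h2
    filter_upwards [h2 (ε / 2) (by positivity)] with n hn'
    simp only [Function.comp, dist_zero_right, S.R_hat] at hn' ⊢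
    rw [dist_eq_norm] at hb
    have e : S.L (a n) u = S.L (a n) (u - S.hat b) + S.hat (a n * b) := by
      rw [map_sub, S.L_hat]; abel
    have h3 := (S.norm_L_apply (a n) (u - S.hat b)).trans
      (mul_le_mul (show ‖a n‖ ≤ c + 1 by linarith [hc n]) hb.le (norm_nonneg _) hd.le)
    have h4 : (c + 1) * (ε / (2 * (c + 1))) = ε / 2 := by field_simp
    rw [e]
    exact (norm_add_le _ _).trans_lt (by linarith)
  have h1 := (h (map (fun n => t⁻¹ • a n) (ω : Filter ℕ)) 0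
    (eventually_map.2 (Eventually.of_forall hn))).2
    (fun z w => by
      rw [tendsto_map'_iff]
      have := (tendsto_const_nhds (x := z)).inner (𝕜 := ℂ) ((key w).const_smul t⁻¹)
      simpa [Function.comp_def] using this) z w
  rw [tendsto_map'_iff] at h1
  have := h1.const_mul t
  simpa [Function.comp_def, ← mul_assoc, ht0] using this

theorem iso (hComp : PComp.{v}) (hSub : PSub.{v}) (hPopa : PPopa.{v}) (hCommon : PCommon.{v})
    (hS1 : PS1.{v}) (hS2a : PS2a.{v}) (hS2b : PS2b.{v}) (hIter : PIter.{v}) (hOnto : POnto.{v})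
    (hUnitary : PUnitary.{v}) (S : Std A K) (S' : Std B K') (ι : A →⋆ₐ[ℂ] (H →L[ℂ] H))
    (ι' : B →⋆ₐ[ℂ] (H →L[ℂ] H)) {γ : ℝ} (hι : ∀ x, ‖ι x‖ = ‖x‖) (hι' : ∀ x, ‖ι' x‖ = ‖x‖)
    (hγ : 0 < γ) (hγ' : γ ≤ 1 / 10 ^ 23) (hcl : Close ι ι' γ) (hl : Linked S ι) (hl' : Linked S' ι')
    (hF : IsFactor A) (hD : IsDiffuse A) (hsep : TopologicalSpace.SeparableSpace K) :
    ∃ (θ : A ≃⋆ₐ[ℂ] B) (U : K ≃ₗᵢ[ℂ] K'), ∀ x z, U (S.L x z) = S'.L (θ x) (U z) := by
  have hN : Nice S Set.univ := ⟨fun p _ q _ hp hq h => by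
      obtain ⟨w, hw⟩ := hComp S hF p q hp hq h
      exact ⟨w, trivial, hw⟩, fun p _ hp t h0 ht => by
      obtain ⟨q, hq⟩ := hSub S hD p hp t h0 ht
      exact ⟨q, trivial, hq⟩⟩
  obtain ⟨Γ, T, hE, hP⟩ := hPopa S hN hsep
  obtain ⟨ρ, hE', hρ⟩ := hCommon S S' ι ι' T Γ.subtype γ hι hι' hγ.le (hγ'.trans (by norm_num)) hcl
    hl.wcont hE
  obtain ⟨z₀, hz₀⟩ : ∃ z₀ : H, ‖z₀‖ = 1 := by
    have : Nontrivial H := by
      by_contra h
      rw [not_nontrivial_iff_subsingleton] at h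
      have h1 := hι 1
      rw [S.norm_one, Subsingleton.elim (ι 1) 0, norm_zero] at h1
      exact zero_ne_one h1
    exact exists_norm_eq H zero_le_one
  obtain ⟨X, hX, hXL, hXR, hXa, hX1⟩ := hS1 S S' ι ι' T Γ.subtype ρ (30 * γ) z₀ hz₀ hι hι' hl.wcont
    hl'.wcont hE hE' hρ
  let r : A → B → ℝ → Prop := fun x y c => ‖x‖ ≤ c ∧ ‖y‖ ≤ c ∧ ‖ι x - ι' y‖ ≤ γ * c
  have r1 : ∀ x, ∃ y, r x y ‖x‖ := fun x => by
    obtain ⟨y, h1, h2⟩ := hcl.1 x
    exact ⟨y, le_rfl, h1, h2⟩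
  have r2 : ∀ y, ∃ x, r x y ‖y‖ := fun y => by
    obtain ⟨x, h1, h2⟩ := hcl.2 y
    exact ⟨x, h1, le_rfl, h2⟩
  have r3 : ∀ x y c, r x y c → r (star x) (star y) c := fun x y c h =>
    ⟨by rw [norm_star]; exact h.1, by rw [norm_star]; exact h.2.1, by
      rw [map_star, map_star, ← star_sub, norm_star]; exact h.2.2⟩
  have r4 : ∀ x y c, r x y c → ‖X ∘L S.L x - S'.L y ∘L X‖ ≤ 61 * γ * c := fun x y c h => by
    refine (hXa x y).trans ?_
    have := h.1
    have := h.2.1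
    have := h.2.2
    nlinarith
  obtain ⟨b1, b2, b3, b4⟩ := hS2a S S' T Γ.subtype ρ X (61 * γ) r (by positivity) hE hE' hX hXL hXR
    (hX1.trans (by linarith)) r1 r2 r3 fun x y c h => ⟨h.1, h.2.1, r4 x y c h⟩
  obtain ⟨E, D, hEX, hπ, hπ'⟩ := hS2b S S' X (129 * (61 * γ)) r (by positivity)
    (by nlinarith) hX (b1.trans (by linarith)) (b2.trans (by linarith)) b3 r1 r2
    fun x y c h => ⟨h.1, h.2.1, (r4 x y c h).trans (by
      have : 0 ≤ c := (norm_nonneg _).trans h.1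
      nlinarith [mul_nonneg hγ.le this]), b4 x y c h⟩
  have hXE : ∀ z, X z = E z := fun z => by rw [← hEX]; rfl
  have hcom : ∀ g : Γ, D.Com (Γ.subtype g) (ρ g) := fun g => by
    constructor
    · ext z
      obtain ⟨u, rfl⟩ := E.surjective z
      rw [← hXE, hπ, hXL]
    · ext z
      obtain ⟨u, rfl⟩ := E.surjective z
      rw [← hXE, hπ', hXR]
  obtain ⟨P, p1, p2, p3⟩ := hIter D T Γ.subtype ρ (by positivity) (by nlinarith) hE' hcom hP
  let E' : K ≃L[ℂ] K' := E.trans (ContinuousLinearEquiv.unitsEquiv ℂ K' P)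
  have hE'a : ∀ z, E' z = (P : K' →L[ℂ] K') (X z) := fun z => by rw [hXE]; rfl
  have hconj : ∀ x z, E' (S.L x z) = (P * D.π x * ↑P⁻¹ : K' →L[ℂ] K') (E' z) := fun x z => by
    have : (↑P⁻¹ : K' →L[ℂ] K') ((P : K' →L[ℂ] K') (X z)) = X z :=
      congrArg (fun Y : K' →L[ℂ] K' => Y (X z)) P.inv_mul
    rw [hE'a, hE'a, ← hπ]
    change _ = (P : K' →L[ℂ] K') (D.π x ((↑P⁻¹ : K' →L[ℂ] K') ((P : K' →L[ℂ] K') (X z))))
    rw [this]
  have q1 : ∀ x, ∃ y, ∀ z, E' (S.L x z) = S'.L y (E' z) := fun x => by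
    obtain ⟨y, hy⟩ := p2 x
    exact ⟨y, fun z => by rw [hconj, hy]⟩
  have q2 := hOnto S S' E' q1 fun y => by
    obtain ⟨x, hx⟩ := p3 y
    refine ⟨x, le_of_eq_of_le ?_ hx⟩
    congr 2
    ext z
    simp only [ContinuousLinearMap.comp_apply, ContinuousLinearEquiv.coe_coe]
    rw [hconj, E'.apply_symm_apply]
  refine hUnitary S S' E' ?_ q1 q2
  have e0 : (E' : K →L[ℂ] K') = (P : K' →L[ℂ] K') ∘L X := by ext z; exact hE'a z
  set Q : K' →L[ℂ] K' := ↑P with hQ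
  have e : (E' : K →L[ℂ] K').adjoint ∘L (E' : K →L[ℂ] K') - 1 =
      X.adjoint ∘L (star Q * Q - 1) ∘L X + (X.adjoint ∘L X - 1) := by
    rw [e0, ContinuousLinearMap.adjoint_comp]
    ext z
    simp [ContinuousLinearMap.star_eq_adjoint]
  have n1 : ‖Q - 1‖ ≤ 1 / 1000 := p1.trans (by nlinarith)
  have n2 : ‖star Q * Q - 1‖ ≤ 3 / 1000 := by
    have : star Q * Q - 1 = star (Q - 1) * (Q - 1) + star (Q - 1) + (Q - 1) := by
      rw [star_sub, star_one]; noncomm_ring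
    rw [this]
    have h2 : ‖star (Q - 1)‖ ≤ 1 / 1000 := by rwa [norm_star]
    have := norm_mul_le_of_le h2 n1
    exact norm_add₃_le.trans (by linarith)
  have n3 : ‖X.adjoint ∘L (star Q * Q - 1) ∘L X‖ ≤ 3 / 1000 := by
    refine (ContinuousLinearMap.opNorm_comp_le _ _).trans ?_
    have h3 := (ContinuousLinearMap.opNorm_comp_le (star Q * Q - 1) X).trans
      (mul_le_mul n2 hX (norm_nonneg _) (by norm_num))
    have h4 : ‖X.adjoint‖ ≤ 1 := by rwa [LinearIsometryEquiv.norm_map]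
    exact (mul_le_mul h4 h3 (norm_nonneg _) zero_le_one).trans (by norm_num)
  rw [e]
  refine (norm_add_le _ _).trans ?_
  nlinarith

theorem close_of_kk {M N : VonNeumannAlgebra H} {ι : A →⋆ₐ[ℂ] (H →L[ℂ] H)}
    {ι' : B →⋆ₐ[ℂ] (H →L[ℂ] H)} (hι : ∀ x, ‖ι x‖ = ‖x‖) (hι' : ∀ x, ‖ι' x‖ = ‖x‖)
    (hM : ∀ x, x ∈ M ↔ ∃ a, ι a = x) (hN : ∀ x, x ∈ N ↔ ∃ a, ι' a = x) {ε : ℝ}
    (h : kkDist M N < ε) : ∃ γ, 0 < γ ∧ γ ≤ ε ∧ Close ι ι' γ := by
  obtain ⟨γ, ⟨h0, h1, h2⟩, h3⟩ := exists_lt_of_csInf_lt (by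
    exact ⟨2, by norm_num, fun x _ hx => ⟨0, zero_mem _, by simp, by rw [sub_zero]; linarith⟩,
      fun x _ hx => ⟨0, zero_mem _, by simp, by rw [sub_zero]; linarith⟩⟩) h
  have key : ∀ {A B : Type v} [CStarAlgebra A] [CStarAlgebra B] {M N : VonNeumannAlgebra H}
      {ι : A →⋆ₐ[ℂ] (H →L[ℂ] H)} {ι' : B →⋆ₐ[ℂ] (H →L[ℂ] H)}, (∀ x, ‖ι x‖ = ‖x‖) →
      (∀ x, ‖ι' x‖ = ‖x‖) → (∀ x, x ∈ M ↔ ∃ a, ι a = x) → (∀ x, x ∈ N ↔ ∃ a, ι' a = x) →
      (∀ x ∈ M, ‖x‖ ≤ 1 → ∃ y ∈ N, ‖y‖ ≤ 1 ∧ ‖x - y‖ < γ) →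
      ∀ x, ∃ y, ‖y‖ ≤ ‖x‖ ∧ ‖ι x - ι' y‖ ≤ γ * ‖x‖ := by
    intro A B _ _ M N ι ι' hι hι' hM hN h1 x
    rcases eq_or_ne x 0 with rfl | hx
    · exact ⟨0, by simp, by simp⟩
    have hn : 0 < ‖x‖ := norm_pos_iff.2 hx
    have hn' : ((‖x‖ : ℝ) : ℂ) ≠ 0 := by exact_mod_cast hn.ne'
    obtain ⟨y, hy, g1, g2⟩ := h1 (ι (((‖x‖ : ℝ) : ℂ)⁻¹ • x)) ((hM _).2 ⟨_, rfl⟩) (by
      rw [hι, norm_smul, norm_inv, Complex.norm_real, norm_norm, inv_mul_cancel₀ hn.ne'])
    obtain ⟨b, rfl⟩ := (hN y).1 hy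
    rw [hι'] at g1
    refine ⟨((‖x‖ : ℝ) : ℂ) • b, ?_, ?_⟩
    · rw [norm_smul, Complex.norm_real, norm_norm]
      nlinarith
    · have : ι x - ι' (((‖x‖ : ℝ) : ℂ) • b) =
          ((‖x‖ : ℝ) : ℂ) • (ι (((‖x‖ : ℝ) : ℂ)⁻¹ • x) - ι' b) := by
        rw [map_smul, map_smul, smul_sub, smul_smul, mul_inv_cancel₀ hn', one_smul]
      rw [this, norm_smul, Complex.norm_real, norm_norm]
      nlinarith
  refine ⟨γ, h0, h3.le, key hι hι' hM hN h1, fun y => ?_⟩
  obtain ⟨x, g1, g2⟩ := key hι' hι hN hM h2 y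
  exact ⟨x, g1, by rwa [norm_sub_rev]⟩

theorem main_of (hComp : PComp.{v}) (hSub : PSub.{v}) (hPopa : PPopa.{v}) (hCommon : PCommon.{v})
    (hS1 : PS1.{v}) (hS2a : PS2a.{v}) (hS2b : PS2b.{v}) (hIter : PIter.{v}) (hOnto : POnto.{v})
    (hUnitary : PUnitary.{v}) (hGns : PGns.{v}) (hSep : PSep.{v}) (hTransfer : PTransfer.{v, v})
    (M N : VonNeumannAlgebra H) (hM : IsII1 M) (hN : IsII1 N) (hT : HasT.{v, v} M)
    (hd : kkDist M N < 1 / 10 ^ 23) : HasT.{v, v} N := by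
  obtain ⟨hf, hp, τ, hτ⟩ := hM
  obtain ⟨-, -, τ', hτ'⟩ := hN
  obtain ⟨A, K, _, _, _, _, ι, S, hι, hr, hl⟩ := hGns M τ hτ
  obtain ⟨B, K', _, _, _, _, ι', S', hι', hr', hl'⟩ := hGns N τ' hτ'
  obtain ⟨γ, h0, h1, hcl⟩ := close_of_kk hι hι' hr hr' hd
  have hinj : Function.Injective ι := fun a b h => by
    rw [← sub_eq_zero, ← norm_eq_zero, ← hι, map_sub, h, sub_self, norm_zero]
  have hF : IsFactor A := fun z hz => by
    obtain ⟨c, hc⟩ := hf (ι z) ((hr _).2 ⟨z, rfl⟩) fun x hx => by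
      obtain ⟨a, rfl⟩ := (hr x).1 hx
      rw [← map_mul, hz, map_mul]
    exact ⟨c, hinj (by rw [hc, map_smul, map_one])⟩
  have hD : IsDiffuse A := fun p hp' h0 => by
    obtain ⟨q, hq, q1, q2, q3, q4, q5⟩ := hp (ι p) ((hr _).2 ⟨p, rfl⟩)
      (by rw [← map_star, hp'.isSelfAdjoint.star_eq])
      (by rw [← map_mul, hp'.isIdempotentElem.eq]) fun h => h0 (hinj (by rw [h, map_zero]))
    obtain ⟨b, rfl⟩ := (hr q).1 hq
    exact ⟨b, ⟨hinj (by rw [map_mul, q2]), hinj (by rw [map_star, q1])⟩,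
      hinj (by rw [map_mul, q3]), fun h => q4 (by rw [h, map_zero]), fun h => q5 (by rw [h])⟩
  obtain ⟨θ, U, hU⟩ := iso hComp hSub hPopa hCommon hS1 hS2a hS2b hIter hOnto hUnitary S S' ι ι'
    hι hι' h0 h1 hcl hl hl' hF hD (hSep M S ι hι hr hl hT)
  exact hTransfer M N S S' ι ι' θ U hι hr hl hι' hr' hl' hU hT

end

end Pool.Agent.MP_890ef7_an.KK

end

section

open scoped InnerProductSpace ComplexOrder
open Filter Topology

namespace Pool.Agent.MP_890ef7_an.KK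

universe v w

namespace L2J

theorem hat_sq_le {A K : Type v} [CStarAlgebra A] [NormedAddCommGroup K] [InnerProductSpace ℂ K]
    [CompleteSpace K] (S : Std A K) (s : A) : ‖S.hat s‖ ^ 2 ≤ ‖S.hat (star s * s)‖ := by
  rw [S.norm_hat_sq]
  exact (Complex.re_le_norm _).trans (S.norm_τ_le _)

/-- near maximisers of a bounded above function. -/
theorem near_max {A : Type v} (F : A → ℝ) (a₀ : A) (M : ℝ) (hM : ∀ a, F a ≤ M) (d : ℝ)
    (hd : 0 < d) : ∃ s, ∀ a, F a ≤ F s + d := by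
  have hb : BddAbove (Set.range F) := ⟨M, by rintro _ ⟨a, rfl⟩; exact hM a⟩
  have : Nonempty A := ⟨a₀⟩
  obtain ⟨s, hs⟩ := exists_lt_of_lt_ciSup (f := F) (show iSup F - d < iSup F by linarith)
  exact ⟨s, fun a => by linarith [le_ciSup hb a]⟩

theorem le_of_sq {a b c : ℝ} (h : ∀ r : ℝ, 0 < r → a ≤ b + r ^ 2 * c) : a ≤ b := by
  have ht : Tendsto (fun r : ℝ => b + r ^ 2 * c) (𝓝[>] 0) (𝓝 (b + 0 ^ 2 * c)) :=
    tendsto_nhdsWithin_of_tendsto_nhds (by
      have : Continuous fun r : ℝ => b + r ^ 2 * c := by fun_prop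
      exact this.tendsto 0)
  have := ge_of_tendsto ht (eventually_nhdsWithin_of_forall fun r hr => h r hr)
  simpa using this

end L2J

theorem L2_pf (hTrunc : PTrunc.{v}) (hL2a : PL2a.{v}) :
    PL2.{v} := by
  intro A K Γ _ _ _ _ _ S T j K₂ _ _ _ X σ hE hinv hσ hX
  rcases (norm_nonneg X).eq_or_lt with hN | hN
  · rw [← hN]; positivity
  set N := ‖X‖ with hNdef
  let F : A → ℝ := fun s => ‖X (S.hat s)‖ ^ 2 - ‖S.hat (star s * s)‖ ^ 2
  have hXle : ∀ z, ‖X z‖ ≤ N * ‖z‖ := fun z => X.le_opNorm z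
  have hF : ∀ s, F s ≤ N ^ 4 / 4 := by
    intro s
    have h1 := L2J.hat_sq_le S s
    have h2 : ‖X (S.hat s)‖ ^ 2 ≤ N ^ 2 * ‖S.hat (star s * s)‖ := by
      calc ‖X (S.hat s)‖ ^ 2 ≤ (N * ‖S.hat s‖) ^ 2 := by gcongr; exact hXle _
        _ = N ^ 2 * ‖S.hat s‖ ^ 2 := by ring
        _ ≤ _ := by gcongr
    change ‖X (S.hat s)‖ ^ 2 - ‖S.hat (star s * s)‖ ^ 2 ≤ _
    nlinarith [sq_nonneg (N ^ 2 / 2 - ‖S.hat (star s * s)‖)]
  have key : ∀ x, ‖X (S.hat x)‖ ^ 2 ≤ 16 * σ * N * ‖S.hat x‖ ^ 2 := by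
    intro x
    refine L2J.le_of_sq (c := 4 * ‖S.hat x‖ ^ 2 + ‖S.hat (star x * x)‖ ^ 2 + 1) fun r hr => ?_
    have hd : 0 < r ^ 4 / 2 := by positivity
    obtain ⟨s, hs⟩ := L2J.near_max F 0 _ hF _ hd
    have h0 : 0 ≤ F s + r ^ 4 / 2 := by simpa [F] using hs 0
    obtain ⟨y, -, -, hy1, -, hy2⟩ := hTrunc S ⊤ (by simp) s (by simp) (2 * N) (by positivity)
    set p := ‖S.hat (star s * s)‖ with hp
    have hp0 : 0 ≤ p := norm_nonneg _
    have h1 : ‖X (S.hat s)‖ ≤ 2 * σ * N + p / 2 := by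
      have e : X (S.hat s) = X (S.hat (s - s * y)) + X (S.hat (s * y)) := by
        rw [← map_add, ← map_add, sub_add_cancel]
      have h2 := (hX (s - s * y)).trans (mul_le_mul_of_nonneg_left hy1 hσ)
      have h3 := hXle (S.hat (s * y))
      rw [e]
      refine (norm_add_le _ _).trans ?_
      linarith
    have h2 : p ^ 2 ≤ 16 * σ ^ 2 * N ^ 2 + r ^ 4 := by
      have h3 : ‖X (S.hat s)‖ ^ 2 ≤ (2 * σ * N + p / 2) ^ 2 := by gcongr
      change 0 ≤ ‖X (S.hat s)‖ ^ 2 - p ^ 2 + r ^ 4 / 2 at h0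
      nlinarith [sq_nonneg (2 * σ * N - p / 2)]
    have h3 : p ≤ 4 * σ * N + r ^ 2 := by
      refine (pow_le_pow_iff_left₀ hp0 (by positivity) two_ne_zero).1 ?_
      nlinarith [mul_nonneg (mul_nonneg hσ hN.le) (sq_nonneg r)]
    obtain ⟨s', hs'⟩ := hL2a S T j X hE hinv s x r _ hd
    have h4 := hs s'
    change ‖X (S.hat s')‖ ^ 2 - ‖S.hat (star s' * s')‖ ^ 2 ≤ ‖X (S.hat s)‖ ^ 2 - p ^ 2 + _ at h4
    have h5 : ‖S.hat s‖ ^ 2 ≤ 4 * σ * N + r ^ 2 := (L2J.hat_sq_le S s).trans h3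
    have h6 : r ^ 2 * (‖X (S.hat x)‖ ^ 2 - 4 * ‖S.hat s‖ ^ 2 * ‖S.hat x‖ ^ 2) ≤
        r ^ 2 * (r ^ 2 * (‖S.hat (star x * x)‖ ^ 2 + 1)) := by linarith
    have h7 := le_of_mul_le_mul_left h6 (by positivity)
    have h8 := mul_le_mul_of_nonneg_right h5 (sq_nonneg ‖S.hat x‖)
    linarith
  have hc : 0 ≤ 16 * σ * N := by positivity
  have h9 : N ≤ √(16 * σ * N) := by
    refine S.opNorm_le X (Real.sqrt_nonneg _) fun a => ?_
    refine (pow_le_pow_iff_left₀ (norm_nonneg _) (by positivity) two_ne_zero).1 ?_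
    rw [mul_pow, Real.sq_sqrt hc]
    exact key a
  have h10 : N ^ 2 ≤ 16 * σ * N := (Real.le_sqrt hN.le hc).1 h9
  nlinarith

end Pool.Agent.MP_890ef7_an.KK

end

section

open scoped InnerProductSpace ComplexOrder
open Filter Topology

namespace Pool.Agent.MP_890ef7_an.KK

universe v w

namespace S1J

set_option linter.unusedSectionVars false

variable {A B K K' H Γ : Type v} [CStarAlgebra A] [CStarAlgebra B] [NormedAddCommGroup K]
  [InnerProductSpace ℂ K] [CompleteSpace K] [NormedAddCommGroup K'] [InnerProductSpace ℂ K']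
  [CompleteSpace K'] [NormedAddCommGroup H] [InnerProductSpace ℂ H] [CompleteSpace H] [Group Γ]

theorem inner_ι (ι : A →⋆ₐ[ℂ] (H →L[ℂ] H)) (a : A) (z w : H) :
    ⟪ι a z, w⟫_ℂ = ⟪z, ι (star a) w⟫_ℂ := by
  rw [map_star, ContinuousLinearMap.star_eq_adjoint, ContinuousLinearMap.adjoint_inner_right]

theorem mul_ι (ι : A →⋆ₐ[ℂ] (H →L[ℂ] H)) (a b : A) (z : H) : ι (a * b) z = ι a (ι b z) := by
  rw [map_mul]; rfl

theorem norm_u (S : Std A K) (u : unitary A) : ‖(u : A)‖ = 1 := by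
  have := S.nontrivial
  exact CStarRing.norm_coe_unitary u

/-- the mean square norm. -/
noncomputable def ms (s : Finset Γ) (f : Γ → H) : ℝ := (s.card : ℝ)⁻¹ * ∑ g ∈ s, ‖f g‖ ^ 2

theorem ms_eq (s : Finset Γ) (f : Γ → H) : (ms s f : ℂ) = avg s fun g => ⟪f g, f g⟫_ℂ := by
  simp [ms, avg, inner_self_eq_norm_sq_to_K]

theorem cs (s : Finset Γ) (f f' : Γ → H) (V : H →L[ℂ] H) {c : ℝ} (hV : ‖V‖ ≤ c) :
    ‖avg s fun g => ⟪f g, V (f' g)⟫_ℂ‖ ^ 2 ≤ c ^ 2 * (ms s f * ms s f') := by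
  have hc : 0 ≤ c := (norm_nonneg _).trans hV
  have h1 : ‖avg s fun g => ⟪f g, V (f' g)⟫_ℂ‖ ≤
      (s.card : ℝ)⁻¹ * (c * ∑ g ∈ s, ‖f g‖ * ‖f' g‖) := by
    rw [avg, norm_smul, norm_inv, Complex.norm_natCast, Finset.mul_sum]
    refine mul_le_mul_of_nonneg_left ((norm_sum_le _ _).trans (Finset.sum_le_sum fun g _ => ?_))
      (by positivity)
    refine (norm_inner_le_norm _ _).trans ?_
    have := (V.le_opNorm (f' g)).trans (mul_le_mul_of_nonneg_right hV (norm_nonneg _))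
    nlinarith [mul_le_mul_of_nonneg_left this (norm_nonneg (f g))]
  have h2 := Finset.sum_mul_sq_le_sq_mul_sq s (fun g => ‖f g‖) fun g => ‖f' g‖
  refine (pow_le_pow_left₀ (norm_nonneg _) h1 2).trans ?_
  have h3 := mul_le_mul_of_nonneg_left h2 (show 0 ≤ ((s.card : ℝ)⁻¹ * c) ^ 2 by positivity)
  unfold ms
  nlinarith

theorem ms_lim (S : Std A K) (ι : A →⋆ₐ[ℂ] (H →L[ℂ] H)) (T : Tower Γ) (j : Γ →* unitary A)
    {z₀ : H} (hz : ‖z₀‖ = 1) (hw : WCont S ι) (he : Erg S T j) (x : A) :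
    Tendsto (fun n => ms (T.G n) fun g => ι (x * j g) z₀) (ω : Filter ℕ) (𝓝 (‖S.hat x‖ ^ 2)) := by
  set y := star x * x with hy
  let a : ℕ → A := fun n => avg (T.G n) fun g => (j g : A) * y * star (j g : A)
  have ha : ∀ n, ‖a n‖ ≤ ‖y‖ := fun n => norm_avg_le (norm_nonneg _) fun g _ => by
    refine (norm_mul₃_le).trans ?_
    rw [norm_star, norm_u S]
    simp
  have h1 : ∀ n, ‖a n - S.τ y • (1 : A)‖ ≤ ‖y‖ + ‖S.τ y • (1 : A)‖ := fun n =>
    (norm_sub_le _ _).trans (by linarith [ha n])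
  have h2 : Tendsto (fun n => S.hat (a n - S.τ y • (1 : A))) (ω : Filter ℕ) (𝓝 0) := by
    have := (he y).sub_const (S.τ y • S.ξ)
    rw [sub_self] at this
    refine this.congr fun n => ?_
    rw [map_sub, map_smul, S.hat_one]
  have h3 := (hw _ _ h1 h2 z₀ z₀).add_const (S.τ y)
  rw [zero_add] at h3
  have hzz : ⟪z₀, z₀⟫_ℂ = 1 := by rw [inner_self_eq_norm_sq_to_K, hz]; simp
  have h4 : ∀ n, ⟪z₀, ι (a n - S.τ y • (1 : A)) z₀⟫_ℂ + S.τ y =
      (ms (T.G n) (fun g => ι (x * j g) z₀) : ℂ) := fun n => by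
    have e1 : ⟪z₀, ι (a n) z₀⟫_ℂ =
        avg (T.G n) fun g => ⟪z₀, ι ((j g : A) * y * star (j g : A)) z₀⟫_ℂ := by
      simp only [a]
      rw [map_avg, avg_apply]
      exact map_avg (innerSL ℂ z₀) _ _
    rw [map_sub, map_smul, map_one, sub_apply, inner_sub_right,
      smul_apply, one_apply_eq_self, inner_smul_right, hzz, mul_one,
      sub_add_cancel, e1, ← (T.grp n).avg_inv, ms_eq]
    refine avg_congr fun g _ => ?_
    rw [inner_ι, ← mul_ι, map_inv, ← Unitary.star_eq_inv, Unitary.coe_star, star_star, star_mul, hy]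
    simp only [mul_assoc]
  have h5 := (Complex.continuous_re.tendsto _).comp (h3.congr h4)
  rw [← S.norm_hat_sq] at h5
  exact h5

/-- the averaged forms. -/
noncomputable def F (ι : A →⋆ₐ[ℂ] (H →L[ℂ] H)) (ι' : B →⋆ₐ[ℂ] (H →L[ℂ] H)) (j : Γ →* unitary A)
    (ρ : Γ →* unitary B) (z₀ : H) (s : Finset Γ) (V : H →L[ℂ] H) (y : B) (x : A) : ℂ :=
  avg s fun g => ⟪ι' (y * ρ g) z₀, V (ι (x * j g) z₀)⟫_ℂ

/-- the averaged operators. -/
noncomputable def U (ι : A →⋆ₐ[ℂ] (H →L[ℂ] H)) (ι' : B →⋆ₐ[ℂ] (H →L[ℂ] H)) (j : Γ →* unitary A)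
    (ρ : Γ →* unitary B) (s : Finset Γ) : H →L[ℂ] H :=
  avg s fun h => ι' (star (ρ h : B)) * ι (j h)

variable {ι : A →⋆ₐ[ℂ] (H →L[ℂ] H)} {ι' : B →⋆ₐ[ℂ] (H →L[ℂ] H)} {j : Γ →* unitary A}
  {ρ : Γ →* unitary B} {z₀ : H}

theorem F_lim {S : Std A K} {S' : Std B K'} {T : Tower Γ} (hz : ‖z₀‖ = 1) (hw : WCont S ι)
    (hw' : WCont S' ι') (he : Erg S T j) (he' : Erg S' T ρ) {V : ℕ → H →L[ℂ] H} {c : ℝ}
    (hV : ∀ n, ‖V n‖ ≤ c) {y : B} {x : A} {L : ℂ}
    (h : Tendsto (fun n => F ι ι' j ρ z₀ (T.G n) (V n) y x) (ω : Filter ℕ) (𝓝 L)) :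
    ‖L‖ ≤ c * ‖S'.hat y‖ * ‖S.hat x‖ := by
  have hc : 0 ≤ c := (norm_nonneg _).trans (hV 0)
  have h1 := ((ms_lim S' ι' T ρ hz hw' he' y).mul (ms_lim S ι T j hz hw he x)).const_mul (c ^ 2)
  have h2 := le_of_tendsto_of_tendsto' (h.norm.pow 2) h1 fun n => cs _ _ _ _ (hV n)
  refine (pow_le_pow_iff_left₀ (norm_nonneg _) (by positivity) two_ne_zero).1 (h2.trans_eq ?_)
  ring

theorem F_mul_right (s : Finset Γ) (V : H →L[ℂ] H) (y : B) (a x : A) :
    F ι ι' j ρ z₀ s V y (a * x) = F ι ι' j ρ z₀ s (V * ι a) y x := by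
  refine avg_congr fun g _ => ?_
  rw [mul_assoc, mul_ι ι a]
  rfl

theorem F_mul_left (s : Finset Γ) (V : H →L[ℂ] H) (a y : B) (x : A) :
    F ι ι' j ρ z₀ s V (star a * y) x = F ι ι' j ρ z₀ s (ι' a * V) y x := by
  refine avg_congr fun g _ => ?_
  rw [mul_assoc, mul_ι ι' (star a), inner_ι, star_star]
  rfl

theorem F_sub (s : Finset Γ) (V V' : H →L[ℂ] H) (y : B) (x : A) :
    F ι ι' j ρ z₀ s V y x - F ι ι' j ρ z₀ s V' y x = F ι ι' j ρ z₀ s (V - V') y x := by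
  rw [F, F, ← avg_sub]
  refine avg_congr fun g _ => ?_
  rw [sub_apply, inner_sub_right]

theorem F_right {s : Finset Γ} (hs : IsGrp s) {g₀ : Γ} (h : g₀ ∈ s) (V : H →L[ℂ] H) (y : B)
    (x : A) : F ι ι' j ρ z₀ s V y (x * j g₀) = F ι ι' j ρ z₀ s V (y * star (ρ g₀ : B)) x := by
  rw [F, F, ← hs.avg_left h fun g => ⟪ι' (y * star (ρ g₀ : B) * ρ g) z₀, V (ι (x * j g) z₀)⟫_ℂ]
  refine avg_congr fun g _ => ?_
  rw [map_mul ρ, map_mul j, Submonoid.coe_mul, Submonoid.coe_mul, mul_assoc x, mul_assoc y,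
    ← mul_assoc (star _), Unitary.coe_star_mul_self, one_mul]

theorem U_left {s : Finset Γ} (hs : IsGrp s) {g₀ : Γ} (h : g₀ ∈ s) :
    U ι ι' j ρ s * ι (j g₀) = ι' (ρ g₀) * U ι ι' j ρ s := by
  rw [U, avg_mul_left', avg_mul_right',
    ← hs.avg_right h fun g => ι' (ρ g₀) * (ι' (star (ρ g : B)) * ι (j g))]
  refine avg_congr fun g _ => ?_
  rw [map_mul ρ, map_mul j, Submonoid.coe_mul, Submonoid.coe_mul, star_mul, ← mul_assoc,
    ← map_mul ι', ← mul_assoc, Unitary.mul_star_self_of_mem (ρ g₀).2, one_mul, map_mul ι, mul_assoc]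

end S1J

open S1J in
theorem S1_pf (hForm : PForm.{v}) :
    PS1.{v} := by
  intro A B K K' H Γ _ _ _ _ _ _ _ _ _ _ _ _ S S' ι ι' T j ρ δ z₀ hz hι hι' hw hw' he he' hδ
  have hδ0 : 0 ≤ δ := (norm_nonneg _).trans (hδ 1)
  have n1 : ∀ g, ‖ι (j g)‖ = 1 := fun g => by rw [hι, norm_u S]
  have n2 : ∀ g, ‖ι' (ρ g)‖ = 1 := fun g => by rw [hι', norm_u S']
  have n3 : ∀ g, ‖ι' (star (ρ g : B))‖ = 1 := fun g => by rw [hι', norm_star, norm_u S']
  let V : ℕ → H →L[ℂ] H := fun n => U ι ι' j ρ (T.G n)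
  have hV : ∀ n, ‖V n‖ ≤ 1 := fun n => norm_avg_le zero_le_one fun g _ =>
    (norm_mul_le _ _).trans (by rw [n1, n3, mul_one])
  have hV1 : ∀ n, ‖V n - 1‖ ≤ δ := fun n => by
    have e : V n - 1 = avg (T.G n) fun g => ι' (star (ρ g : B)) * (ι (j g) - ι' (ρ g)) := by
      rw [← avg_const (T.grp n).nonempty (1 : H →L[ℂ] H)]
      simp only [V, U]
      rw [← avg_sub]
      refine avg_congr fun g _ => ?_
      rw [mul_sub, ← map_mul ι', Unitary.coe_star_mul_self, map_one]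
    rw [e]
    exact norm_avg_le hδ0 fun g _ => (norm_mul_le _ _).trans (by rw [n3, one_mul]; exact hδ g)
  have hex : ∀ y x, ∃ L, Tendsto (fun n => F ι ι' j ρ z₀ (T.G n) (V n) y x) (ω : Filter ℕ) (𝓝 L) :=
    fun y x => exists_ulim ω _ (C := ‖y‖ * ‖x‖) (Eventually.of_forall fun n =>
      norm_avg_le (by positivity) fun g _ => by
        refine (norm_inner_le_norm _ _).trans (mul_le_mul ?_ ?_ (norm_nonneg _) (norm_nonneg _))
        · refine ((ι' _).le_opNorm _).trans ?_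
          rw [hz, mul_one, hι']
          exact (norm_mul_le _ _).trans (by rw [norm_u S', mul_one])
        · refine ((V n).le_opNorm _).trans ((mul_le_of_le_one_left (norm_nonneg _) (hV n)).trans ?_)
          refine ((ι _).le_opNorm _).trans ?_
          rw [hz, mul_one, hι]
          exact (norm_mul_le _ _).trans (by rw [norm_u S, mul_one]))
  choose b hb using hex
  obtain ⟨X, hX, hXb⟩ := hForm S S' b 1 zero_le_one
    (fun y x x' => tendsto_nhds_unique (hb _ _) (((hb y x).add (hb y x')).congr fun n => by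
      rw [F, F, F, ← avg_add]
      refine avg_congr fun g _ => ?_
      rw [add_mul, map_add, add_apply, map_add, inner_add_right]))
    (fun y t x => tendsto_nhds_unique (hb _ _) (((hb y x).const_mul t).congr fun n => by
      rw [F, F, ← smul_eq_mul, ← avg_smul]
      refine avg_congr fun g _ => ?_
      rw [smul_mul_assoc, map_smul, smul_apply, map_smul, inner_smul_right,
        smul_eq_mul]))
    (fun y y' x => tendsto_nhds_unique (hb _ _) (((hb y x).add (hb y' x)).congr fun n => by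
      rw [F, F, F, ← avg_add]
      refine avg_congr fun g _ => ?_
      rw [add_mul, map_add, add_apply, inner_add_left]))
    (fun t y x => tendsto_nhds_unique (hb _ _) (((hb y x).const_mul ((starRingEnd ℂ) t)).congr
      fun n => by
        rw [F, F, ← smul_eq_mul, ← avg_smul]
        refine avg_congr fun g _ => ?_
        rw [smul_mul_assoc, map_smul, smul_apply, inner_smul_left,
          smul_eq_mul]))
    (fun y x => F_lim hz hw hw' he he' hV (hb y x))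
  refine ⟨X, hX, fun g z => ?_, fun g z => ?_, fun a a' => ?_, ?_⟩
  · have e : X ∘L S.L (j g) = S'.L (ρ g) ∘L X := by
      refine S.clm_ext fun x => S'.vec_ext fun y => ?_
      change ⟪_, X (S.L (j g) (S.hat x))⟫_ℂ = ⟪_, S'.L (ρ g) (X (S.hat x))⟫_ℂ
      rw [← star_star (ρ g : B), ← S'.inner_L, S.L_hat, S'.L_hat, hXb, hXb]
      refine tendsto_nhds_unique (hb _ _) ((hb _ _).congr' ((T.ev g).mono fun n hn => ?_))
      simp only [V]
      rw [F_mul_left, F_mul_right, U_left (T.grp n) hn]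
    exact congrArg (fun Y : K →L[ℂ] K' => Y z) e
  · have e : X ∘L S.R (j g) = S'.R (ρ g) ∘L X := by
      refine S.clm_ext fun x => S'.vec_ext fun y => ?_
      change ⟪_, X (S.R (j g) (S.hat x))⟫_ℂ = ⟪_, S'.R (ρ g) (X (S.hat x))⟫_ℂ
      rw [← star_star (ρ g : B), ← S'.inner_R, S.R_hat, S'.R_hat, hXb, hXb]
      refine tendsto_nhds_unique (hb _ _) ((hb _ _).congr' ((T.ev g).mono fun n hn => ?_))
      exact (F_right (T.grp n) hn _ _ _).symm
    exact congrArg (fun Y : K →L[ℂ] K' => Y z) e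
  · have hc : 0 ≤ ‖ι a - ι' a'‖ + δ * (‖a‖ + ‖a'‖) := by positivity
    refine S.opNorm_le _ hc fun x => S'.norm_le_of_inner (by positivity) fun y => ?_
    have e : ⟪S'.hat y, (X ∘L S.L a - S'.L a' ∘L X) (S.hat x)⟫_ℂ = b y (a * x) - b (star a' * y) x := by
      change ⟪_, X (S.L a (S.hat x)) - S'.L a' (X (S.hat x))⟫_ℂ = _
      rw [inner_sub_right, ← hXb, ← hXb, ← S'.L_hat, S'.inner_L, star_star, S.L_hat]
    have h1 := ((hb y (a * x)).sub (hb (star a' * y) x)).congr fun n => by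
      rw [F_mul_left, F_mul_right, F_sub]
    have h2 : ∀ n, ‖V n * ι a - ι' a' * V n‖ ≤ ‖ι a - ι' a'‖ + δ * (‖a‖ + ‖a'‖) := fun n => by
      have e1 : V n * ι a - ι' a' * V n =
          (ι a - ι' a') + (V n - 1) * ι a - ι' a' * (V n - 1) := by noncomm_ring
      have h3 := norm_mul_le_of_le (hV1 n) (hι a).le
      have h4 := norm_mul_le_of_le (hι' a').le (hV1 n)
      rw [e1]
      refine (norm_sub_le _ _).trans ?_
      have := norm_add_le (ι a - ι' a') ((V n - 1) * ι a)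
      nlinarith
    rw [e]
    exact (F_lim hz hw hw' he he' h2 h1).trans_eq (by ring)
  · rw [← S.hat_one, ← S'.hat_one, hXb]
    refine le_of_tendsto' ((hb 1 1).sub_const 1).norm fun n => ?_
    rw [← avg_const (T.grp n).nonempty (1 : ℂ), F, ← avg_sub]
    refine norm_avg_le (by positivity) fun g _ => ?_
    have e1 : ⟪ι' (ρ g) z₀, ι' (ρ g) z₀⟫_ℂ = 1 := by
      rw [inner_ι, ← mul_ι, Unitary.coe_star_mul_self, map_one, one_apply_eq_self,
        inner_self_eq_norm_sq_to_K, hz]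
      simp
    have e2 : V n (ι (j g) z₀) - ι' (ρ g) z₀ =
        ((V n - 1) * ι (j g) + (ι (j g) - ι' (ρ g))) z₀ := by
      simp
    have h3 : ‖(V n - 1) * ι (j g) + (ι (j g) - ι' (ρ g))‖ ≤ 2 * δ := by
      have := norm_mul_le_of_le (hV1 n) (n1 g).le
      refine (norm_add_le _ _).trans ?_
      linarith [hδ g]
    rw [one_mul, one_mul, ← e1, ← inner_sub_right, e2]
    refine (norm_inner_le_norm _ _).trans ?_
    have h4 : ‖ι' (ρ g) z₀‖ ≤ 1 := ((ι' _).le_opNorm _).trans (by rw [n2, hz, mul_one])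
    have h5 := ((V n - 1) * ι (j g) + (ι (j g) - ι' (ρ g))).le_opNorm z₀
    rw [hz, mul_one] at h5
    replace h5 := h5.trans h3
    nlinarith [mul_le_mul h4 h5 (norm_nonneg _) zero_le_one]

end Pool.Agent.MP_890ef7_an.KK

end

section

open scoped InnerProductSpace ComplexOrder
open Filter Topology

namespace Pool.Agent.MP_890ef7_an.KK

universe v w

namespace SepFJ

/-- a square root of a Gram operator. -/
theorem root {H K : Type*} [NormedAddCommGroup H] [InnerProductSpace ℂ H] [CompleteSpace H]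
    [NormedAddCommGroup K] [InnerProductSpace ℂ K] [CompleteSpace K] (V : H →L[ℂ] K) :
    ∃ Y : H →L[ℂ] H, (∀ z w, ⟪Y z, Y w⟫_ℂ = ⟪V z, V w⟫_ℂ) ∧
      ∀ T T' : H →L[ℂ] H, (∀ z w, ⟪T z, w⟫_ℂ = ⟪z, T' w⟫_ℂ) →
        (∀ z w, ⟪V (T z), V w⟫_ℂ = ⟪V z, V (T' w)⟫_ℂ) → ∀ z, Y (T' z) = T' (Y z) := by
  obtain ⟨X, hX⟩ : ∃ X : H →L[ℂ] H, X = ContinuousLinearMap.adjoint V ∘L V := ⟨_, rfl⟩
  have h0 : 0 ≤ X := hX ▸ (ContinuousLinearMap.nonneg_iff_isPositive _).2
    (ContinuousLinearMap.isPositive_adjoint_comp_self V)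
  have h1 : ∀ z w, ⟪z, X w⟫_ℂ = ⟪V z, V w⟫_ℂ := fun z w => by
    rw [hX, ContinuousLinearMap.comp_apply, ContinuousLinearMap.adjoint_inner_right]
  refine ⟨CFC.sqrt X, fun z w => ?_, fun T T' hT hV z => ?_⟩
  · have h2 : IsSelfAdjoint (CFC.sqrt X) := (CFC.sqrt_nonneg X).isSelfAdjoint
    rw [← h1, ← ContinuousLinearMap.adjoint_inner_right, h2.adjoint_eq]
    exact congrArg (fun A : H →L[ℂ] H => ⟪z, A w⟫_ℂ) (CFC.sqrt_mul_sqrt_self X h0)
  · have h3 : Commute X T' := by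
      ext u
      refine ext_inner_left ℂ fun y => ?_
      change ⟪y, X (T' u)⟫_ℂ = ⟪y, T' (X u)⟫_ℂ
      rw [h1, ← hT, h1, hV]
    exact congrArg (fun A : H →L[ℂ] H => A z) (h3.cfcₙ_nnreal NNReal.sqrt).eq

end SepFJ

theorem SepF_pf (hSep1 : PSep1.{v}) :
    PSepF.{v} := by
  intro A K _ _ _ _ S Q P hQ hP hz n a
  have pp : ∀ z, P (P z) = P z := fun z =>
    congrArg (fun T : K →L[ℂ] K => T z) hP.isIdempotentElem.eq
  have ps : ∀ z w, ⟪P z, w⟫_ℂ = ⟪z, P w⟫_ℂ := fun z w => by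
    rw [← ContinuousLinearMap.adjoint_inner_right, hP.isSelfAdjoint.adjoint_eq]
  have pξ : P S.ξ = S.ξ := (hz _).2 (subset_closure ⟨1, Q.one_mem, S.hat_one⟩)
  have r1 : ∀ q ∈ Q, ∀ z, P (S.R q (P z)) = S.R q (P z) := fun q hq z => by
    have h : Set.MapsTo (S.R q) (S.hat '' (Q : Set A)) (S.hat '' (Q : Set A)) := by
      rintro _ ⟨b, hb, rfl⟩
      exact ⟨b * q, Q.mul_mem hb hq, (S.R_hat b q).symm⟩
    exact (hz _).2 (h.closure (S.R q).continuous ((hz _).1 (pp z)))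
  have r2 : ∀ q ∈ Q, ∀ z, P (S.R q z) = S.R q (P z) := fun q hq z => by
    refine ext_inner_left ℂ fun y => ?_
    have e : ∀ u w, ⟪u, S.R q w⟫_ℂ = ⟪S.R (star q) u, w⟫_ℂ := fun u w => by
      rw [S.inner_R, star_star]
    rw [← r1 q hq z, ← ps, ← ps, e, e, ← ps, r1 _ (star_mem hq)]
  let sg : Fin n → K →L[ℂ] PiLp 2 (fun _ : Fin n => K) := fun j =>
    (PiLp.continuousLinearEquiv 2 ℂ (fun _ : Fin n => K)).symm.toContinuousLinearMap ∘L
      ContinuousLinearMap.single ℂ (fun _ : Fin n => K) j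
  have hsg : ∀ b j v, dia (Fin n) b (sg j v) = sg j (b v) := fun b j v => by
    ext i
    by_cases h : i = j
    · subst h; simp [sg]
    · simp [sg, h]
  let V : PiLp 2 (fun _ : Fin n => K) →L[ℂ] K :=
    ∑ j, S.L (a j) ∘L P ∘L PiLp.proj 2 (fun _ : Fin n => K) j
  have hV : ∀ z, V z = ∑ j, S.L (a j) (P (z j)) := fun z => by simp [V]
  have hVs : ∀ j v, V (sg j v) = S.L (a j) (P v) := fun j v => by
    rw [hV, Finset.sum_eq_single j (fun i _ h => by simp [sg, h]) (by simp)]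
    simp [sg]
  have hVP : ∀ z, V (dia (Fin n) P z) = V z := fun z => by simp only [hV, dia_apply, pp]
  have hVR : ∀ q ∈ Q, ∀ z, V (dia (Fin n) (S.R q) z) = S.R q (V z) := fun q hq z => by
    simp only [hV, dia_apply, r2 q hq, S.comm_apply, map_sum]
  obtain ⟨Y, y1, y2⟩ := SepFJ.root V
  have yP := y2 (dia (Fin n) P) (dia (Fin n) P)
    (fun z w => by rw [dia_adj, hP.isSelfAdjoint.star_eq]) fun z w => by rw [hVP, hVP]
  have yR : ∀ q ∈ Q, ∀ z, Y (dia (Fin n) (S.R q) z) = dia (Fin n) (S.R q) (Y z) := fun q hq =>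
    y2 (dia (Fin n) (S.R (star q))) (dia (Fin n) (S.R q))
      (fun z w => by rw [dia_adj, ← S.R_star, star_star]) fun z w => by
        rw [hVR _ (star_mem hq), hVR q hq, S.inner_R, star_star]
  have hc : ∀ l j, ∃ c : A, (∀ u, S.L c (P u) = Y (sg j (P u)) l) ∧
      ∀ u, P (S.L c u) = Y (sg j (P u)) l := fun l j => by
    obtain ⟨c, c1, c2⟩ := hSep1 S Q P (PiLp.proj 2 (fun _ : Fin n => K) l ∘L Y ∘L sg j) hQ hP hz
      fun q hq => by
        ext u
        change Y (sg j (S.R q u)) l = S.R q (Y (sg j u) l)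
        rw [← hsg, yR q hq, dia_apply]
    have e : ∀ u, P (Y (sg j (P u)) l) = Y (sg j (P u)) l := fun u => by
      rw [← dia_apply, ← yP, hsg, pp]
    exact ⟨c, fun u => (congrArg (fun T : K →L[ℂ] K => T u) c1).trans (e u),
      fun u => (congrArg (fun T : K →L[ℂ] K => T u) c2).trans (e u)⟩
  choose c c1 c2 using hc
  refine ⟨c, fun i j => ext_inner_left ℂ fun u => ?_⟩
  have e : ∀ l, ⟪u, S.hat (star (c l i) * c l j)⟫_ℂ = ⟪Y (sg i (P u)) l, Y (sg j S.ξ) l⟫_ℂ :=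
    fun l => by
      have h1 : S.hat (c l j) = Y (sg j S.ξ) l := by
        have := c1 l j S.ξ
        rwa [pξ] at this
      have h2 : P (S.hat (c l j)) = S.hat (c l j) := by
        have := c2 l j S.ξ
        rw [pξ] at this
        exact this.trans h1.symm
      rw [← S.L_hat, ← S.inner_L, ← h2, ← ps, c2, h1]
  rw [inner_sum, Finset.sum_congr rfl fun l _ => e l, ← PiLp.inner_apply, y1, hVs, hVs, pp, pξ,
    S.inner_L, S.L_ξ, S.L_hat, ps]

end Pool.Agent.MP_890ef7_an.KK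

end

section

open scoped InnerProductSpace ComplexOrder
open Filter Topology

namespace Pool.Agent.MP_890ef7_an.KK

universe v w

namespace SpreadJ

section ring
variable {M : Type*} [Ring M] {u p k c : M}

theorem step_u (hu : u * u = 1) : (k + u * k * u) * u = u * (k + u * k * u) := by
  rw [add_mul, mul_add, mul_assoc, hu, mul_one, ← mul_assoc, ← mul_assoc, hu, one_mul, add_comm]

theorem step_r (h : u * p = (1 - p) * u) (hr : k * p = k) : (k + u * k * u) * p = k := by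
  rw [add_mul, hr, mul_assoc, h, ← mul_assoc, mul_assoc u k, mul_sub, mul_one, hr, sub_self,
    mul_zero, zero_mul, add_zero]

theorem step_l (h : p * u = u * (1 - p)) (hl : p * k = k) : p * (k + u * k * u) = k := by
  rw [mul_add, hl, ← mul_assoc, ← mul_assoc, h, mul_assoc u, sub_mul, one_mul, hl, sub_self,
    mul_zero, zero_mul, add_zero]

theorem step_c (h : u * c = c * u) (hk : k * c = c * k) :
    (k + u * k * u) * c = c * (k + u * k * u) := by
  rw [add_mul, mul_add, hk, mul_assoc, h, ← mul_assoc, mul_assoc u k, hk, ← mul_assoc, h,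
    mul_assoc, mul_assoc, mul_assoc]

theorem step_f (h : u * c = c * u) (hk : k * c = k) : (k + u * k * u) * c = k + u * k * u := by
  rw [add_mul, hk, mul_assoc, h, ← mul_assoc, mul_assoc u k, hk]

end ring

variable {A B K : Type v} [CStarAlgebra A] [CStarAlgebra B] [NormedAddCommGroup K]
  [InnerProductSpace ℂ K] [CompleteSpace K] {S : Std B K} {γ η : ℝ}

theorem bound (hGood : PGood.{v}) (C : Core A S γ η) (k : K →L[ℂ] K) {β : ℝ}
    (hk : ∀ Z Y, C.Good 3 Z Y → ‖k (S.hat Y)‖ ≤ β) (y : B) : ‖k (S.hat y)‖ ≤ 2 * β * ‖y‖ := by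
  refine boot ⊤ ((k : K →ₗ[ℂ] K) ∘ₗ S.hat) (c := ‖k‖) (fun y _ => (k.le_opNorm _).trans
    (mul_le_mul_of_nonneg_left (S.norm_hat_le y) (norm_nonneg _))) (fun y _ hy => ?_) y trivial
  obtain ⟨x, h1, h2, -⟩ := C.partB y
  obtain ⟨y₀, h0⟩ := hGood C x (h1.trans hy)
  refine ⟨y₀, trivial, (Core.norm_sub_le_of_partner h2 h0.l).trans ?_, hk x y₀ h0⟩
  have := C.γ_le
  have := mul_le_of_le_one_right C.γ_pos.le hy
  linarith

theorem bound_L {k : K →L[ℂ] K} {c : ℝ} (hc : 0 ≤ c) (hk : ∀ y, ‖k (S.hat y)‖ ≤ c * ‖y‖) {s t : B}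
    (hs : ‖s‖ ≤ 1) (ht : ‖t‖ ≤ 1) (y : B) : ‖(S.L s * k * S.L t) (S.hat y)‖ ≤ c * ‖y‖ := by
  change ‖S.L s (k (S.L t (S.hat y)))‖ ≤ _
  rw [S.L_hat]
  refine (S.norm_L_apply _ _).trans ((mul_le_of_le_one_left (norm_nonneg _) hs).trans
    ((hk _).trans (mul_le_mul_of_nonneg_left ((norm_mul_le _ _).trans ?_) hc)))
  exact mul_le_of_le_one_left (norm_nonneg _) ht

theorem bound_R {k : K →L[ℂ] K} {c : ℝ} (hc : 0 ≤ c) (hk : ∀ y, ‖k (S.hat y)‖ ≤ c * ‖y‖) {s t : B}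
    (hs : ‖s‖ ≤ 1) (ht : ‖t‖ ≤ 1) (y : B) : ‖(S.R s * k * S.R t) (S.hat y)‖ ≤ c * ‖y‖ := by
  change ‖S.R s (k (S.R t (S.hat y)))‖ ≤ _
  rw [S.R_hat]
  refine (S.norm_R_apply _ _).trans ((mul_le_of_le_one_left (norm_nonneg _) hs).trans
    ((hk _).trans (mul_le_mul_of_nonneg_left ((norm_mul_le _ _).trans ?_) hc)))
  exact mul_le_of_le_one_right (norm_nonneg _) ht

theorem bound_add {k k' : K →L[ℂ] K} {c : ℝ} (hk : ∀ y, ‖k (S.hat y)‖ ≤ c * ‖y‖)
    (hk' : ∀ y, ‖k' (S.hat y)‖ ≤ c * ‖y‖) (y : B) : ‖(k + k') (S.hat y)‖ ≤ 2 * c * ‖y‖ := by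
  have := (norm_add_le _ _).trans (add_le_add (hk y) (hk' y))
  rw [add_apply]
  linarith

/-- the spread operator. -/
theorem ex_k {ν : ℝ} {D : Pre A S ν γ} {a e : A} {a' e' : B} (F : Flip D a e a' e')
    (k : K →L[ℂ] K) {c : ℝ} (hc : 0 ≤ c) (hk : ∀ y, ‖k (S.hat y)‖ ≤ c * ‖y‖) :
    ∃ k' : K →L[ℂ] K, (∀ y, ‖k' (S.hat y)‖ ≤ 2 * (2 * c) * ‖y‖) ∧
      (∀ z, k' (S.L a' z) = S.L a' (k' z)) ∧ (∀ z, k' (S.L e' z) = S.L e' (k' z)) ∧
      (∀ z, k' (S.R a' z) = S.R a' (k' z)) ∧ (∀ z, k' (S.R e' z) = S.R e' (k' z)) ∧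
      ∀ z, S.L e' z = z → S.R (1 - e') z = z → k' z = S.R (1 - e') (S.L e' (k z)) := by
  have ff : (1 - e') * (1 - e') = 1 - e' := by
    rw [sub_mul, one_mul, mul_sub, mul_one, F.e'_sq, sub_self, sub_zero]
  have uu : S.L a' * S.L a' = 1 := by rw [← map_mul, F.a'_sq, map_one]
  have pp : S.L e' * S.L e' = S.L e' := by rw [← map_mul, F.e'_sq]
  have up : S.L a' * S.L e' = (1 - S.L e') * S.L a' := by
    rw [← map_mul, F.a'_e', map_mul, map_sub, map_one]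
  have pu : S.L e' * S.L a' = S.L a' * (1 - S.L e') := by
    rw [← map_mul, F.e'_a', map_mul, map_sub, map_one]
  have q1 : 1 - S.R (1 - e') = S.R e' := by rw [map_sub, S.R_one, sub_sub_cancel]
  have vv : S.R a' * S.R a' = 1 := by rw [← S.R_mul, F.a'_sq, S.R_one]
  have qq : S.R (1 - e') * S.R (1 - e') = S.R (1 - e') := by rw [← S.R_mul, ff]
  have vq : S.R a' * S.R (1 - e') = (1 - S.R (1 - e')) * S.R a' := by
    rw [q1, ← S.R_mul, ← S.R_mul, F.a'_e']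
  have qv : S.R (1 - e') * S.R a' = S.R a' * (1 - S.R (1 - e')) := by
    rw [q1, ← S.R_mul, ← S.R_mul, F.e'_a']
  obtain ⟨k₀, hk₀⟩ : ∃ k₀, k₀ = S.R (1 - e') * (S.L e' * k * S.L e') * S.R (1 - e') := ⟨_, rfl⟩
  have n0 : ∀ y, ‖k₀ (S.hat y)‖ ≤ c * ‖y‖ :=
    hk₀ ▸ bound_R hc (bound_L hc hk F.norm_e' F.norm_e') F.norm_f' F.norm_f'
  have pk : S.L e' * k₀ = k₀ := by
    rw [hk₀, ← mul_assoc, ← mul_assoc, S.comm, mul_assoc (S.R _), ← mul_assoc (S.L e'),
      ← mul_assoc (S.L e'), pp]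
  have kp : k₀ * S.L e' = k₀ := by
    rw [hk₀, mul_assoc, ← S.comm, ← mul_assoc, mul_assoc (S.R _), mul_assoc _ (S.L e'), pp]
  have qk : S.R (1 - e') * k₀ = k₀ := by rw [hk₀, ← mul_assoc, ← mul_assoc, qq]
  have kq : k₀ * S.R (1 - e') = k₀ := by rw [hk₀, mul_assoc, qq]
  obtain ⟨k₁, hk₁⟩ : ∃ k₁, k₁ = k₀ + S.L a' * k₀ * S.L a' := ⟨_, rfl⟩
  have n1 : ∀ y, ‖k₁ (S.hat y)‖ ≤ 2 * c * ‖y‖ :=
    hk₁ ▸ bound_add n0 (bound_L hc n0 F.norm_a' F.norm_a')
  have a1 : k₁ * S.L a' = S.L a' * k₁ := hk₁ ▸ step_u uu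
  have a2 : k₁ * S.L e' = k₀ := hk₁ ▸ step_r up kp
  have a3 : S.L e' * k₁ = k₀ := hk₁ ▸ step_l pu pk
  have a4 : k₁ * S.R (1 - e') = k₁ := hk₁ ▸ step_f (S.comm _ _) kq
  have a5 : S.R (1 - e') * k₁ = k₁ := by
    rw [← a4, ← mul_assoc, hk₁, ← step_c (S.comm _ _) (kq.trans qk.symm), mul_assoc, qq]
  have b1 := step_r vq a4
  have b2 := step_l qv a5
  refine ⟨k₁ + S.R a' * k₁ * S.R a', bound_add n1 (bound_R (by positivity) n1 F.norm_a' F.norm_a'),
    fun z => ?_, fun z => ?_, fun z => ?_, fun z => ?_, fun z h1 h2 => ?_⟩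
  · exact congrArg (fun T : K →L[ℂ] K => T z) (step_c (S.comm _ _).symm a1)
  · exact congrArg (fun T : K →L[ℂ] K => T z) (step_c (S.comm _ _).symm (a2.trans a3.symm))
  · exact congrArg (fun T : K →L[ℂ] K => T z) (step_u vv)
  · have : (k₁ + S.R a' * k₁ * S.R a') * S.R e' = S.R e' * (k₁ + S.R a' * k₁ * S.R a') := by
      rw [← q1, mul_sub, sub_mul, b1, b2, mul_one, one_mul]
    exact congrArg (fun T : K →L[ℂ] K => T z) this
  · have c1 : (k₁ + S.R a' * k₁ * S.R a') (S.R (1 - e') z) = k₁ z :=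
      congrArg (fun T : K →L[ℂ] K => T z) b1
    have c2 : k₁ (S.L e' z) = k₀ z := congrArg (fun T : K →L[ℂ] K => T z) a2
    rw [h2] at c1
    rw [h1] at c2
    rw [c1, c2, hk₀]
    change S.R (1 - e') (S.L e' (k (S.L e' (S.R (1 - e') z)))) = _
    rw [h2, h1]

end SpreadJ

open SpreadJ in
theorem Spread_pf (hGood : PGood.{v}) (hModul : PModul.{v}) :
    PSpread.{v} := by
  intro A B K _ _ _ _ _ S γ η C a e a' e' F k β δ hβ hδ hk hco
  obtain ⟨k', n, ca, ce, ra, re, hz⟩ := ex_k F k (by positivity) (bound hGood C k hk)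
  refine ⟨k', fun y => (n y).trans_eq (by ring), ?_⟩
  have mid : ∀ (t : A) (t' : B), C.Com t t' → (∀ z, k' (S.L t' z) = S.L t' (k' z)) →
      (∀ z, k' (S.R t' z) = S.R t' (k' z)) → ∀ x y,
      C.Φ (x * t) y + C.Ψ k' (x * t) y = C.Φ x (t' * y) + C.Ψ k' x (t' * y) := by
    intro t t' h h1 h2 x y
    simp only [Pre.Φ, Pre.Ψ, C.π_mul_apply, h.1, ← h1, S.LR, ← S.L_hat, S.R_mul_apply, h2, h.π_R]
  refine hModul C a e a' e' F (C.Φₗ + C.Ψₗ k') δ hδ (fun x y => ?_)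
    (mid a a' F.com_a ca ra) (mid e e' F.com_e ce re) (fun x y => ?_) fun x y h1 h2 h3 h4 => ?_
  · change C.Φ (a * x) y + C.Ψ k' (a * x) y = S.L a' (C.Φ x y + C.Ψ k' x y)
    simp only [Pre.Φ, Pre.Ψ, C.π_mul_apply, F.com_a.1, ca, map_add, map_sub, S.comm_apply]
  · change C.Φ x (y * a') + C.Ψ k' x (y * a') = S.R a' (C.Φ x y + C.Ψ k' x y)
    simp only [Pre.Φ, Pre.Ψ, ← S.R_hat, S.R_mul_apply, ra, F.com_a.π_R, map_add, map_sub]
  · change ‖C.Φ x y + C.Ψ k' x y‖ ≤ _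
    have px : ∀ z, C.π x (S.L e' z) = C.π x z := fun z => by
      rw [← F.com_e.1, ← C.π_mul_apply, h2]
    have xp : ∀ z, S.L e' (C.π x z) = C.π x z := fun z => by
      rw [← F.com_e.1, ← C.π_mul_apply, h1]
    have pf := F.com_f.π_R x
    have y1 : S.L e' (S.hat y) = S.hat y := by rw [S.L_hat, h3]
    have y2 : S.R (1 - e') (S.hat y) = S.hat y := by rw [S.R_hat, h4]
    have w1 : S.L e' (S.hat (e' * a')) = S.hat (e' * a') := by
      rw [S.L_hat, ← mul_assoc, F.e'_sq]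
    have w2 : S.R (1 - e') (S.hat (e' * a')) = S.hat (e' * a') := by
      rw [S.R_hat, mul_assoc, ← F.e'_a', ← mul_assoc, F.e'_sq]
    have r1 : ∀ z, S.R (1 - e') (S.R y z) = S.R y z := fun z => by rw [← S.R_mul_apply, h4]
    have r2 : ∀ z, S.R (1 - e') (S.R (a' * y) z) = S.R (a' * y) z := fun z => by
      rw [← S.R_mul_apply, mul_assoc, h4]
    have r3 : ∀ z, S.R (a' * y) (S.R (1 - e') z) = S.R (a' * y) z := fun z => by
      rw [← S.R_mul_apply, ← mul_assoc, ← F.a'_e', mul_assoc, h3]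
    have r4 : ∀ z, S.R y z = S.R (a' * y) (S.R a' (S.R e' z)) := fun z => by
      rw [← S.R_mul_apply, ← S.R_mul_apply, ← mul_assoc a', F.a'_sq, one_mul, h3]
    have w3 : S.R a' (S.R e' S.ξ) = S.hat (e' * a') := by rw [S.R_ξ, S.R_hat]
    have t3 : S.R y (C.π x (k' S.ξ)) = S.R (a' * y) (C.π x (k (S.hat (e' * a')))) := by
      rw [r4, ← F.com_e.π_R, ← F.com_a.π_R, ← re, ← ra, w3, hz _ w1 w2, pf, px, r3]
    have t4 : S.R y (k' (C.π x S.ξ)) =
        S.R (a' * y) (C.π e (k (C.π x (S.hat (e' * a'))))) := by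
      rw [r4, ← re, ← ra, ← F.com_e.π_R, ← F.com_a.π_R, w3, hz _ (xp _) (by rw [← pf, w2]), r3,
        F.com_e.1]
    have key : C.Φ x y + C.Ψ k' x y = S.R (1 - e') (C.Φ x y + C.Ψ₀ e a' e' k x y) := by
      rw [Pre.Φ, Pre.Ψ, Pre.Ψ₀, t3, t4, hz _ y1 y2, hz _ (xp _) (by rw [← pf, y2]), pf, px,
        map_add, map_sub (S.R (1 - e')), map_add, map_sub (S.R (1 - e')), map_sub (S.R (1 - e')),
        r1, r2, r2, ← pf (S.hat y), y2, F.com_e.1]
    rw [key]
    exact (S.norm_R_apply _ _).trans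
      ((mul_le_of_le_one_left (norm_nonneg _) F.norm_f').trans (hco x y h1 h2 h3 h4))

end Pool.Agent.MP_890ef7_an.KK

end

section

open scoped InnerProductSpace ComplexOrder
open Filter Topology

namespace Pool.Agent.MP_890ef7_an.KK

universe v w

namespace SqJ

theorem step {R : Type*} [NormedRing R] [NormedAlgebra ℂ R] {E F : R} {c : ℝ} (hE : ‖E‖ ≤ 1 / 4)
    (hc : c ≤ 1 / 4) (hF : ‖F - E‖ ≤ c) :
    ‖(1 / 2 : ℂ) • ((E + 1) * (E + 1) - 1 - F * F) - E‖ ≤ c * (1 / 2) := by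
  have e : (1 / 2 : ℂ) • ((E + 1) * (E + 1) - 1 - F * F) - E =
      (1 / 2 : ℂ) • -(E * (F - E) + (F - E) * F) := by
    have e1 : (E + 1) * (E + 1) - 1 - F * F = -(E * (F - E) + (F - E) * F) + (E + E) := by
      noncomm_ring
    rw [e1, smul_add, ← two_smul ℂ E, smul_smul]
    norm_num
  have h0 : 0 ≤ c := (norm_nonneg _).trans hF
  have h1 : ‖F‖ ≤ 1 / 2 := by
    have := norm_add_le (F - E) E
    rw [sub_add_cancel] at this
    linarith
  have h2 := norm_mul_le_of_le hE hF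
  have h3 := norm_mul_le_of_le hF h1
  have h4 := norm_add_le (E * (F - E)) ((F - E) * F)
  rw [e, norm_smul, norm_neg, show ‖(1 / 2 : ℂ)‖ = 1 / 2 by simp]
  linarith

end SqJ

theorem Sq_pf :
    PSq.{v} := by
  intro X _ _ _ V D hV hD h x hx
  obtain ⟨E, rfl⟩ : ∃ E, D = E + 1 := ⟨D - 1, (sub_add_cancel _ _).symm⟩
  rw [add_sub_cancel_right] at hD
  have key : ∀ n : ℕ, ∃ F : X →L[ℂ] X, (∀ y ∈ V, F y ∈ V) ∧ ‖F - E‖ ≤ 1 / 4 * (1 / 2) ^ n := by
    intro n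
    induction n with
    | zero => exact ⟨0, fun _ _ => V.zero_mem, by rwa [zero_sub, norm_neg, pow_zero, mul_one]⟩
    | succ n ih =>
      obtain ⟨F, h1, h2⟩ := ih
      have h3 : (1 / 2 : ℝ) ^ n ≤ 1 := pow_le_one₀ (by norm_num) (by norm_num)
      refine ⟨_, fun y hy => ?_, (SqJ.step hD (by linarith) h2).trans_eq (by ring)⟩
      exact V.smul_mem _ (V.sub_mem (V.sub_mem (h y hy) hy) (h1 _ (h1 y hy)))
  choose F h1 h2 using key
  have h3 : Tendsto F atTop (𝓝 E) := by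
    rw [tendsto_iff_norm_sub_tendsto_zero]
    refine squeeze_zero (fun _ => norm_nonneg _) h2 ?_
    simpa using (tendsto_pow_atTop_nhds_zero_of_lt_one (r := (1 / 2 : ℝ)) (by norm_num)
      (by norm_num)).const_mul (1 / 4 : ℝ)
  have h4 : Tendsto (fun n => F n x) atTop (𝓝 (E x)) :=
    ((ContinuousLinearMap.apply ℂ X x).continuous.tendsto E).comp h3
  exact V.add_mem (hV.mem_of_tendsto h4 (Eventually.of_forall fun n => h1 n x hx)) hx

theorem Norml_pf (hSq : PSq.{v}) :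
    PNorml.{v} := by
  intro A K _ _ _ _ S a q q' s1 s2 h1 h2 h3 n1 n2 h
  let L : A →ₗᵢ[ℂ] (K →L[ℂ] K) := ⟨S.L.toAlgHom.toLinearMap, S.norm_L⟩
  have hc : IsClosed (LinearMap.range L.toLinearMap : Set (K →L[ℂ] K)) :=
    L.isometry.isClosedEmbedding.isClosed_range
  have hq : ‖q‖ ≤ 2 := by
    have e1 := norm_add_le (q - 1) 1
    have e2 : ‖(1 : K →L[ℂ] K)‖ ≤ 1 := ContinuousLinearMap.norm_id_le
    rw [sub_add_cancel] at e1
    linarith
  have hD : ‖ContinuousLinearMap.mulLeftRight ℂ (K →L[ℂ] K) q' q - 1‖ ≤ 1 / 4 := by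
    refine ContinuousLinearMap.opNorm_le_bound _ (by norm_num) fun T => ?_
    have e : (ContinuousLinearMap.mulLeftRight ℂ (K →L[ℂ] K) q' q - 1) T =
        (q' - 1) * T * q + T * (q - 1) := by
      change q' * T * q - T = _
      noncomm_ring
    have e1 := norm_mul_le_of_le (norm_mul_le_of_le n2 (le_refl ‖T‖)) hq
    have e2 := norm_mul_le_of_le (le_refl ‖T‖) n1
    have e3 := norm_add_le ((q' - 1) * T * q) (T * (q - 1))
    have e4 := norm_nonneg T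
    rw [e]
    linarith
  have key : ∀ x, ∃ x', q' * S.L x * q = S.L x' := fun x => by
    obtain ⟨x', hx'⟩ := hSq _ _ hc hD (by
      rintro _ ⟨y, rfl⟩
      obtain ⟨y', hy'⟩ := h y
      refine ⟨y', ?_⟩
      change S.L y' = q' * (q' * S.L y * q) * q
      calc S.L y' = q' * (q' * q) * q * S.L y' := by rw [h3, mul_one, h3, one_mul]
        _ = q' * q' * (q * q * S.L y') := by noncomm_ring
        _ = q' * q' * (S.L y * (q * q)) := by rw [h1, hy']
        _ = _ := by noncomm_ring) (L x) ⟨x, rfl⟩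
    exact ⟨x', hx'.symm⟩
  refine ⟨key, fun x => ?_⟩
  obtain ⟨x', hx'⟩ := key (star x)
  refine ⟨star x', ?_⟩
  rw [map_star, ← hx', star_mul, star_mul, s1, s2, map_star, star_star, mul_assoc]

end Pool.Agent.MP_890ef7_an.KK

end

section

open scoped InnerProductSpace ComplexOrder
open Filter Topology

namespace Pool.Agent.MP_890ef7_an.KK

universe v w

namespace UnitJ

variable {A : Type v} [CStarAlgebra A]

theorem mul_proj {x p : A} (hp : IsStarProjection p) (h : star x * x = p) : x * p = x := by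
  have h1 : p * p = p := hp.isIdempotentElem
  rw [← sub_eq_zero, ← CStarRing.star_mul_self_eq_zero_iff, star_sub, star_mul,
    hp.isSelfAdjoint.star_eq,
    show (p * star x - star x) * (x * p - x) = p * (star x * x) * p - p * (star x * x) -
      star x * x * p + star x * x by noncomm_ring, h, h1, h1]
  abel

theorem proj_mul {x p : A} (hp : IsStarProjection p) (h : x * star x = p) : p * x = x := by
  have h1 := congrArg star (mul_proj (x := star x) hp (by rwa [star_star]))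
  rwa [star_mul, star_star, hp.isSelfAdjoint.star_eq] at h1

theorem mem_one {e u : A} {l : ℂ} (he : IsStarProjection e) (h1 : star u * u = e)
    (h2 : u * star u = e) (hl : (starRingEnd ℂ) l * l = 1) : u + l • (1 - e) ∈ unitary A := by
  have a1 : u * (1 - e) = 0 := by rw [mul_sub, mul_one, mul_proj he h1, sub_self]
  have a2 : (1 - e) * u = 0 := by rw [sub_mul, one_mul, proj_mul he h2, sub_self]
  have a3 : star (1 - e) = 1 - e := he.one_sub.isSelfAdjoint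
  have a4 : (1 - e) * (1 - e) = 1 - e := he.one_sub.isIdempotentElem
  have a5 := congrArg star a1
  have a6 := congrArg star a2
  rw [star_mul, a3, star_zero] at a5 a6
  rw [Unitary.mem_iff, star_add, star_smul, a3, RCLike.star_def]
  simp only [add_mul, mul_add, smul_mul_assoc, mul_smul_comm, a1, a2, a4, a5, a6, h1, h2,
    smul_zero, add_zero, zero_add, smul_smul, hl, mul_comm l, one_smul, add_sub_cancel, and_self]

theorem mem_two {s : A} (h1 : star s = -s) (h2 : s * s = -1) :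
    (3 / 5 : ℂ) • (1 : A) + (4 / 5 : ℂ) • s ∈ unitary A := by
  have a1 : star (3 / 5 : ℂ) = 3 / 5 := by simp
  have a2 : star (4 / 5 : ℂ) = 4 / 5 := by simp
  rw [Unitary.mem_iff, star_add, star_smul, star_smul, star_one, h1, a1, a2]
  simp only [add_mul, mul_add, smul_mul_assoc, mul_smul_comm, one_mul, mul_one, neg_mul, mul_neg,
    h2]
  constructor <;> module

end UnitJ

open UnitJ in
theorem Unit_pf :
    PUnit.{v} := by
  intro A _ e u v l m he ⟨h1, h2, h3, h4⟩ hl hm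
  have hl' : (starRingEnd ℂ) l * l = 1 := by rw [Complex.conj_mul', hl]; simp
  have hm' : (starRingEnd ℂ) m * m = 1 := by rw [Complex.conj_mul', hm]; simp
  have a3 : star (1 - e) = 1 - e := he.one_sub.isSelfAdjoint
  have b1 : v * (1 - e) = v := mul_proj he.one_sub h3
  have b2 : (1 - e) * v = 0 := by rw [sub_mul, one_mul, proj_mul he h4, sub_self]
  have b3 : v * v = 0 := by rw [← b1, mul_assoc, ← mul_assoc (1 - e), b2, zero_mul, mul_zero]
  have b4 := congrArg star b1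
  have b5 := congrArg star b3
  rw [star_mul, a3] at b4
  rw [star_mul, star_zero] at b5
  have b6 : u * star v = 0 := by
    rw [← b4, ← mul_assoc, mul_sub, mul_one, mul_proj he h1, sub_self, zero_mul]
  constructor
  · have e1 : wun e u v l m = (u + l • (1 - e)) *
        ((3 / 5 : ℂ) • (1 : A) + (4 / 5 : ℂ) • (m • v - (starRingEnd ℂ) m • star v)) := by
      unfold wun
      generalize 1 - e = f at b2 b4 ⊢
      simp only [add_mul, mul_add, mul_sub, smul_mul_assoc, mul_smul_comm, mul_one, b2, b4, b6]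
      module
    rw [e1]
    refine mul_mem (mem_one he h1 h2 hl') (mem_two ?_ ?_)
    · simp [star_smul]
    · simp only [sub_mul, mul_sub, smul_mul_assoc, mul_smul_comm, b3, b5, h3, h4, smul_zero,
        smul_sub, smul_smul, hm', mul_comm m, one_smul]
      abel
  · simp only [wun, wad, star_sub (_ + _), star_add, star_smul, a3, star_star, star_mul', star_div₀,
      star_ofNat, RCLike.star_def, Complex.conj_conj]

theorem Polz_pf :
    PPolz.{v} := by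
  intro A B K _ _ _ _ _ Θ e u v f' p q v' z δ h
  obtain ⟨X, hX⟩ : ∃ X : ℂ → ℂ → K,
    ∀ l m, X l m = (l * m) • (Θ (wun e u v l m) (wad f' p q v' l m) - z) := ⟨_, fun _ _ => rfl⟩
  have h1 : ∀ l m : ℂ, l ^ 4 = 1 → m ^ 4 = 1 → ‖X l m‖ ≤ δ := fun l m hl hm => by
    rw [hX, norm_smul, Complex.norm_eq_one_of_pow_eq_one (n := 4)
      (by rw [mul_pow, hl, hm, one_mul]) (by norm_num), one_mul]
    exact h l m hl hm
  have h2 : ∀ l : ℂ, l ^ 4 = 1 → ‖X l 1 + X l (-1)‖ ≤ δ + δ := fun l hl =>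
    norm_add_le_of_le (h1 l 1 hl (by norm_num)) (h1 l (-1) hl (by norm_num))
  have h3 := norm_add_le_of_le (norm_add_le_of_le (h2 1 (by norm_num)) (h2 (-1) (by norm_num)))
    (norm_add_le_of_le (h2 Complex.I Complex.I_pow_four)
      (h2 (-Complex.I) (by rw [Even.neg_pow (by decide), Complex.I_pow_four])))
  have h4 : X 1 1 + X 1 (-1) + (X (-1) 1 + X (-1) (-1)) + (X Complex.I 1 + X Complex.I (-1) +
      (X (-Complex.I) 1 + X (-Complex.I) (-1))) = (-96 / 25 : ℂ) • (Θ u v' - Θ (u * v) f') := by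
    simp only [hX, wun, wad]
    generalize 1 - e = f
    simp only [map_add, map_sub, map_smul, LinearMap.add_apply, LinearMap.sub_apply,
      LinearMap.smul_apply, map_one, map_neg, Complex.conj_I]
    match_scalars <;> (ring_nf; try (simp only [Complex.I_sq]; ring))
  rw [h4, norm_smul, show ‖(-96 / 25 : ℂ)‖ = 96 / 25 by simp] at h3
  linarith [norm_nonneg (Θ u v' - Θ (u * v) f')]

end Pool.Agent.MP_890ef7_an.KK

end
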