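import Mathlib
import Pool.Agent.Mg.F890ef7p.Ga4291c
import Pool.Agent.Mg.F890ef7p.G7e54e1
import Pool.Agent.Mg.F890ef7p.Ged2dec
import Pool.Agent.Mg.F890ef7p.G14f242

section

open scoped InnerProductSpace ComplexOrder
open Filter Topology

namespace Pool.Agent.MP_890ef7_an.KK

universe v w

namespace CommonJ

theorem mul_close {E : Type*} [NormedRing E] {a a' b b' : E} {s t : ℝ} (ha : ‖a‖ ≤ 1)
    (hb : ‖b'‖ ≤ 1) (h1 : ‖a - a'‖ ≤ s) (h2 : ‖b - b'‖ ≤ t) : ‖a * b - a' * b'‖ ≤ s + t := by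
  rw [show a * b - a' * b' = (a - a') * b' + a * (b - b') by noncomm_ring]
  have e1 := norm_mul_le_of_le h1 hb
  have e2 := norm_mul_le_of_le ha h2
  exact (norm_add_le _ _).trans (by linarith)

variable {A B K K' H Γ : Type v} [CStarAlgebra A] [CStarAlgebra B] [NormedAddCommGroup K]
  [InnerProductSpace ℂ K] [CompleteSpace K] [NormedAddCommGroup K'] [InnerProductSpace ℂ K']
  [CompleteSpace K'] [NormedAddCommGroup H] [InnerProductSpace ℂ H] [CompleteSpace H] [Group Γ]

theorem norm_unit (S : Std A K) (u : unitary A) : ‖(u : A)‖ = 1 := by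
  have := S.nontrivial
  exact CStarRing.norm_coe_unitary u

theorem star_close (ι : A →⋆ₐ[ℂ] (H →L[ℂ] H)) (ι' : B →⋆ₐ[ℂ] (H →L[ℂ] H)) {x : A} {y : B} {s : ℝ}
    (h : ‖ι x - ι' y‖ ≤ s) : ‖ι (star x) - ι' (star y)‖ ≤ s := by
  rwa [map_star, map_star, ← star_sub, norm_star]

theorem partner (hPolar : PPolar.{v}) (S : Std A K) (ι : A →⋆ₐ[ℂ] (H →L[ℂ] H))
    (ι' : B →⋆ₐ[ℂ] (H →L[ℂ] H)) {γ : ℝ} (hι : ∀ x, ‖ι x‖ = ‖x‖) (hι' : ∀ y, ‖ι' y‖ = ‖y‖)
    (hγ : γ ≤ 1 / 200) (hC : Close ι ι' γ) (u : unitary A) :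
    ∃ r : unitary B, ‖ι u - ι' r‖ ≤ 3 * γ := by
  obtain ⟨y, hy, h⟩ := hC.1 u
  rw [norm_unit S] at hy h
  rw [mul_one] at h
  have hu : ‖ι u‖ ≤ 1 := by rw [hι, norm_unit S]
  have hu' : ‖ι (star (u : A))‖ ≤ 1 := by rw [hι, norm_star, norm_unit S]
  have hy1 : ‖ι' y‖ ≤ 1 := by rwa [hι']
  have hy2 : ‖ι' (star y)‖ ≤ 1 := by rwa [hι', norm_star]
  have hs := star_close ι ι' h
  have h1 := mul_close hu' hy1 hs h
  have h2 := mul_close hu hy2 h hs
  rw [← map_mul, ← map_mul, Unitary.coe_star_mul_self, map_one, ← map_one ι', ← map_sub, hι',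
    norm_sub_rev] at h1
  rw [← map_mul, ← map_mul, Unitary.mul_star_self_of_mem u.2, map_one, ← map_one ι', ← map_sub, hι',
    norm_sub_rev] at h2
  obtain ⟨r, hr⟩ := hPolar y (γ + γ) h1 h2 (by linarith)
  refine ⟨r, ?_⟩
  rw [← hι', map_sub, norm_sub_rev] at hr
  rw [← sub_add_sub_cancel _ (ι' y)]
  exact (norm_add_le _ _).trans (by linarith)

theorem near_scalar (S : Std A K) (S' : Std B K') (ι : A →⋆ₐ[ℂ] (H →L[ℂ] H))
    (ι' : B →⋆ₐ[ℂ] (H →L[ℂ] H)) (T : Tower Γ) (j : Γ →* unitary A) (ρ : Γ →* unitary B) {γ : ℝ}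
    (hι : ∀ x, ‖ι x‖ = ‖x‖) (hι' : ∀ y, ‖ι' y‖ = ‖y‖) (h0 : 0 ≤ γ) (hC : Close ι ι' γ)
    (hW : WCont S ι) (hE : Erg S T j) (hρ : ∀ g, ‖ι (j g) - ι' (ρ g)‖ ≤ 30 * γ) (z : B)
    (hz : ∀ g, (ρ g : B) * z = z * ρ g) (hn : ‖z‖ ≤ 1) :
    ∃ c : ℂ, ‖z - c • (1 : B)‖ ≤ 61 * γ := by
  obtain ⟨x, hx, h⟩ := hC.2 z
  have hx1 : ‖x‖ ≤ 1 := hx.trans hn
  have h1 : ‖ι x - ι' z‖ ≤ γ := h.trans (mul_le_of_le_one_right h0 hn)
  have hj : ∀ g, ‖(j g : A) * x‖ ≤ 1 := fun g =>
    (norm_mul_le_of_le (norm_unit S (j g)).le hx1).trans_eq (mul_one _)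
  have hg : ∀ g, ‖ι ((j g : A) * x * star (j g : A)) - ι' z‖ ≤ 61 * γ := by
    intro g
    have e : z = (ρ g : B) * z * star (ρ g : B) := by
      rw [hz, mul_assoc, Unitary.mul_star_self_of_mem (ρ g).2, mul_one]
    have a1 := mul_close (a := ι (j g)) (by rw [hι, norm_unit S]) (b' := ι' z) (by rwa [hι'])
      (hρ g) h1
    rw [← map_mul, ← map_mul] at a1
    have a2 := mul_close (a := ι ((j g : A) * x)) (by rw [hι]; exact hj g)
      (b' := ι' (star (ρ g : B))) (by rw [hι', norm_star, norm_unit S']) a1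
      (star_close ι ι' (hρ g))
    rw [← map_mul, ← map_mul, ← e] at a2
    linarith
  set a : ℕ → A := fun n => avg (T.G n) fun g => (j g : A) * x * star (j g : A) with ha
  have ha1 : ∀ n, ‖ι' z - ι (a n)‖ ≤ 61 * γ := by
    intro n
    rw [norm_sub_rev, ha]
    simp only
    rw [map_avg, ← avg_const (T.grp n).nonempty (ι' z), ← avg_sub]
    exact norm_avg_le (by positivity) fun g _ => hg g
  have ha2 : ∀ n, ‖a n - S.τ x • (1 : A)‖ ≤ 1 + ‖S.τ x • (1 : A)‖ := by
    intro n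
    refine (norm_sub_le _ _).trans (add_le_add ?_ le_rfl)
    refine norm_avg_le zero_le_one fun g _ => ?_
    exact (norm_mul_le_of_le (hj g) ((norm_star _).trans (norm_unit S (j g))).le).trans_eq
      (mul_one _)
  have ha3 : Tendsto (fun n => S.hat (a n - S.τ x • (1 : A))) (ω : Filter ℕ) (𝓝 0) := by
    have := (hE x).sub_const (S.τ x • S.ξ)
    rw [sub_self] at this
    refine this.congr fun n => ?_
    rw [map_sub, map_smul, S.hat_one]
  refine ⟨S.τ x, ?_⟩
  rw [← hι']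
  refine ContinuousLinearMap.opNorm_le_bound _ (by positivity) fun w => ?_
  refine norm_le_of_weak' (l := (ω : Filter ℕ)) (v := fun n => (ι' z - ι (a n)) w)
    (Eventually.of_forall fun n => ((ι' z - ι (a n)).le_opNorm w).trans
      (mul_le_mul_of_nonneg_right (ha1 n) (norm_nonneg w))) ?_
  have h2 := (hW _ _ ha2 ha3 (ι' (z - S.τ x • (1 : B)) w) w).const_sub
    ⟪ι' (z - S.τ x • (1 : B)) w, ι' (z - S.τ x • (1 : B)) w⟫_ℂ
  rw [sub_zero] at h2
  refine h2.congr fun n => ?_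
  rw [← inner_sub_right, ← sub_apply]
  congr 2
  simp only [map_sub, map_smul, map_one]
  abel

theorem scalar (S' : Std B K') (ρ : Γ →* unitary B)
    (h : ∀ z : B, (∀ g, (ρ g : B) * z = z * ρ g) → ‖z‖ ≤ 1 → ∃ c : ℂ, ‖z - c • (1 : B)‖ ≤ 1 / 2)
    (z : B) (hz : ∀ g, (ρ g : B) * z = z * ρ g) : ∃ c : ℂ, z = c • (1 : B) := by
  let P : Submodule ℂ B :=
    { carrier := {z | ∀ g, (ρ g : B) * z = z * ρ g}
      add_mem' := fun {a b} ha hb g => by rw [mul_add, add_mul, ha g, hb g]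
      zero_mem' := fun g => by rw [mul_zero, zero_mul]
      smul_mem' := fun c a ha g => by rw [mul_smul_comm, smul_mul_assoc, ha g] }
  let f : B →ₗ[ℂ] B := LinearMap.id - S'.τ.smulRight 1
  have hf : ∀ y, f y = y - S'.τ y • (1 : B) := fun y => rfl
  have := boot P f (c := 2) (δ := 0) (fun y _ => ?_) (fun y hy hn => ?_) z hz
  · rw [mul_zero, zero_mul, norm_le_zero_iff, hf, sub_eq_zero] at this
    exact ⟨_, this⟩
  · rw [hf]
    refine (norm_sub_le _ _).trans ?_
    rw [norm_smul, S'.norm_one, mul_one]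
    linarith [(S'.norm_τ_le y).trans (S'.norm_hat_le y)]
  · obtain ⟨c, hc⟩ := h y hy hn
    refine ⟨c • 1, fun g => by rw [mul_smul_comm, smul_mul_assoc, mul_one, one_mul], hc, ?_⟩
    rw [hf, map_smul, S'.τ_one, smul_eq_mul, mul_one, sub_self, norm_zero]

end CommonJ

theorem Common_pf (hPolar : PPolar.{v}) (hKaz : PKaz.{v}) (hErgOf : PErgOf.{v}) :
    PCommon.{v} := by
  intro A B K K' H Γ _ _ _ _ _ _ _ _ _ _ _ _ S S' ι ι' T j γ hι hι' h0 hγ hC hW hE
  choose r hr using fun g => CommonJ.partner hPolar S ι ι' hι hι' hγ hC (j g)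
  obtain ⟨ρ, hρ⟩ := hKaz S' T r (9 * γ) (by linarith) fun g h => by
    have a1 := CommonJ.mul_close (a := ι (j g)) (by rw [hι, CommonJ.norm_unit S])
      (b' := ι' (r h)) (by rw [hι', CommonJ.norm_unit S']) (hr g) (hr h)
    have a2 := hr (g * h)
    rw [map_mul, Submonoid.coe_mul, map_mul, norm_sub_rev] at a2
    rw [← hι', map_sub, map_mul, ← sub_add_sub_cancel _ (ι (j g) * ι (j h))]
    exact (norm_add_le _ _).trans (by linarith)
  have h30 : ∀ g, ‖ι (j g) - ι' (ρ g)‖ ≤ 30 * γ := by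
    intro g
    have a1 := hρ g
    rw [← hι', map_sub, norm_sub_rev] at a1
    rw [← sub_add_sub_cancel _ (ι' (r g))]
    exact (norm_add_le _ _).trans (by linarith [hr g])
  refine ⟨ρ, hErgOf S' T ρ (CommonJ.scalar S' ρ fun z hz hn => ?_), h30⟩
  obtain ⟨c, hc⟩ := CommonJ.near_scalar S S' ι ι' T j ρ hι hι' h0 hC hW hE h30 z hz hn
  exact ⟨c, hc.trans (by linarith)⟩

end Pool.Agent.MP_890ef7_an.KK

end

section

open scoped InnerProductSpace ComplexOrder
open Filter Topology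

namespace Pool.Agent.MP_890ef7_an.KK

universe v w

namespace CompJ

variable {A K : Type v} [CStarAlgebra A] [NormedAddCommGroup K] [InnerProductSpace ℂ K]
  [CompleteSpace K]

theorem st {w : A} (h : w * star w * w = w) : star w * w * star w = star w := by
  simpa [mul_assoc] using congrArg star h

theorem pr {w : A} (h : w * star w * w = w) : IsStarProjection (star w * w) :=
  ⟨by rw [IsIdempotentElem, ← mul_assoc, st h], .star_mul_self w⟩

theorem pr' {w : A} (h : w * star w * w = w) : IsStarProjection (w * star w) :=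
  ⟨by rw [IsIdempotentElem, ← mul_assoc, h], .mul_star_self w⟩

theorem le {x y : A} (hx : x * star x * x = x) (hy : y * star y * y = y)
    (h : y * (star x * x) = x) : star y * y * (star x * x) = star x * x := by
  have he := pr hx
  have hf := pr hy
  have h1 : star x * x * (star y * y) * (star x * x) = star x * x := by
    have h2 : star x * x * star y = star x := by simpa [mul_assoc] using congrArg star h
    rw [← mul_assoc _ (star y), h2, mul_assoc, h]
  generalize star x * x = e at he h1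
  generalize star y * y = f at hf h1
  rw [eq_comm, ← sub_eq_zero, ← CStarRing.star_mul_self_eq_zero_iff, star_sub, star_mul,
    he.2.star_eq, hf.2.star_eq]
  have h3 : e * f * (f * e) = e * f * e := by rw [mul_assoc, ← mul_assoc f, hf.1.eq, mul_assoc]
  rw [sub_mul, mul_sub, mul_sub, h3, ← mul_assoc, h1, he.1.eq]
  simp

theorem zero (S : Std A K) {p : A} (hp : IsStarProjection p) (h : S.τ p = 0) : p = 0 := by
  have := S.norm_hat_sq p
  rw [hp.2.star_eq, hp.1.eq, h, Complex.zero_re, sq_eq_zero_iff, norm_eq_zero] at this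
  exact S.hat_eq_zero this

end CompJ

open CompJ in
theorem Comp_pf (hBB : PBB.{v}) (hPlim : PPlim.{v}) (hLink : PLink.{v}) :
    PComp.{v} := by
  intro A K _ _ _ _ S hF p q hp hq hτ
  obtain ⟨⟨w, h1, h2, h3⟩, -, hm⟩ := hBB
    (X := {w : A // w * star w * w = w ∧ w * p = w ∧ q * w = w})
    (fun x y => y.1 * (star x.1 * x.1) = x.1) (fun x => ‖S.hat x.1‖) 1 ⟨0, by simp⟩
    (fun x => by rw [← mul_assoc, x.2.1])
    (fun x y z a b => by rw [← le x.2.1 y.2.1 a, ← mul_assoc, b, a])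
    (fun x y a => by
      rw [← a]
      exact (S.norm_hat_mul_right _ _).trans
        (mul_le_of_le_one_left (norm_nonneg _) (IsStarProjection.norm_le _ (pr x.2.1))))
    (fun x => (S.norm_hat_le _).trans (by
      have := IsStarProjection.norm_le _ (pr x.2.1)
      rw [CStarRing.norm_star_mul_self] at this
      nlinarith [norm_nonneg x.1]))
    (fun s hs => by
      obtain ⟨w, a, b, c⟩ := hPlim S (fun n => (s n).1) (fun n => (s n).2.1) hs
      refine ⟨⟨w, a, S.hat_injective (tendsto_nhds_unique ?_ c),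
        S.hat_injective (tendsto_nhds_unique ?_ c)⟩, b⟩
      · rw [← S.R_hat]
        exact (((S.R p).continuous.tendsto _).comp c).congr fun n => by
          rw [Function.comp, S.R_hat, (s n).2.2.1]
      · rw [← S.L_hat]
        exact (((S.L q).continuous.tendsto _).comp c).congr fun n => by
          rw [Function.comp, S.L_hat, (s n).2.2.2])
  have a2 : p * star w = star w := by simpa [hp.2.star_eq] using congrArg star h2
  have a3 : star w * q = star w := by simpa [hq.2.star_eq] using congrArg star h3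
  have b1 := (pr h1).sub_of_mul_eq_right hp (by rw [← mul_assoc, a2])
  have b2 := (pr' h1).sub_of_mul_eq_right hq (by rw [← mul_assoc, h3])
  have ht : S.τ (p - star w * w) = S.τ (q - w * star w) := by
    rw [map_sub, map_sub, hτ, S.τ_comm]
  have key : p - star w * w = 0 ∨ q - w * star w = 0 := by
    by_contra hn
    obtain ⟨u, c0, c1, c2, c3⟩ := hLink S hF _ _ b1 b2 (not_or.1 hn).1 (not_or.1 hn).2
    have d1 : star w * u = 0 := by
      rw [← c3, ← mul_assoc, mul_sub, a3, ← mul_assoc, st h1, sub_self, zero_mul]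
    have d2 : u * star w = 0 := by
      rw [← c2, mul_assoc, sub_mul, a2, st h1, sub_self, mul_zero]
    have d3 : star u * w = 0 := by simpa using congrArg star d1
    have d4 : w * star u = 0 := by simpa using congrArg star d2
    have d5 := hm ⟨w + u, by
      rw [star_add, add_mul w, mul_add w, mul_add u, d2, d4, add_zero, zero_add, add_mul, mul_add,
        mul_add, h1, c1, mul_assoc, mul_assoc, d1, d3]
      simp, by
      rw [add_mul, h2, ← c2, mul_assoc, sub_mul, hp.1.eq, mul_assoc, h2], by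
      rw [mul_add, h3, ← c3, ← mul_assoc, mul_sub, hq.1.eq, ← mul_assoc, h3]⟩ (by
      simp only [add_mul, ← mul_assoc, h1, d2, zero_mul, add_zero])
    have d6 := norm_add_sq_eq_norm_sq_add_norm_sq_of_inner_eq_zero (𝕜 := ℂ) (S.hat w) (S.hat u)
      (by rw [S.inner_hat, d1, map_zero])
    simp only [map_add] at d5
    refine c0 (S.hat_eq_zero (norm_eq_zero.1 (mul_self_eq_zero.1 (le_antisymm ?_ (by positivity)))))
    nlinarith [mul_self_le_mul_self (norm_nonneg _) d5]
  refine ⟨w, (sub_eq_zero.1 ?_).symm, (sub_eq_zero.1 ?_).symm⟩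
  · exact key.elim id fun h => zero S b1 (by rw [ht, h, map_zero])
  · exact key.elim (fun h => zero S b2 (by rw [← ht, h, map_zero])) id

end Pool.Agent.MP_890ef7_an.KK

end

section

open scoped InnerProductSpace ComplexOrder
open Filter Topology

namespace Pool.Agent.MP_890ef7_an.KK

universe v w

namespace ElimJ

variable {A B K : Type v} [CStarAlgebra A] [CStarAlgebra B] [NormedAddCommGroup K]
  [InnerProductSpace ℂ K] [CompleteSpace K] {S : Std B K} {γ η : ℝ}

theorem norm_le_one {x p : A} (hp : IsStarProjection p) (h : star x * x = p) : ‖x‖ ≤ 1 := by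
  have h1 := CStarRing.norm_star_mul_self (x := x)
  have h2 := hp.norm_le
  rw [h] at h1
  nlinarith [norm_nonneg x]

theorem valid_mul {e u v : A} (he : IsStarProjection e) (h : Valid e u v) : Valid e e (u * v) := by
  obtain ⟨h1, h2, h3, h4⟩ := h
  have e1 : e * e = e := he.isIdempotentElem
  have e2 : star e = e := he.isSelfAdjoint
  refine ⟨by rw [e2, e1], by rw [e2, e1], ?_, ?_⟩
  · calc star (u * v) * (u * v) = star v * (star u * u) * v := by rw [star_mul]; noncomm_ring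
      _ = (star v * v) * (star v * v) := by rw [h1, ← h4]; noncomm_ring
      _ = 1 - e := by rw [h3]; exact he.one_sub.isIdempotentElem
  · calc u * v * star (u * v) = u * (v * star v) * star u := by rw [star_mul]; noncomm_ring
      _ = (u * star u) * (u * star u) := by rw [h4, ← h1]; noncomm_ring
      _ = e := by rw [h2, e1]

theorem e_mul {e u v : A} (he : IsStarProjection e) (h : Valid e u v) : e * u = u := by
  obtain ⟨h1, h2, -, -⟩ := h
  have e1 : e * e = e := he.isIdempotentElem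
  have e2 : star e = e := he.isSelfAdjoint
  have e3 : star u * e * u = e := by
    calc star u * e * u = (star u * u) * (star u * u) := by rw [← h2]; noncomm_ring
      _ = e := by rw [h1, e1]
  have e4 : star (e * u - u) * (e * u - u) = 0 := by
    calc star (e * u - u) * (e * u - u) =
        star u * (e * e) * u - star u * e * u - star u * e * u + star u * u := by
          rw [star_sub, star_mul, e2]; noncomm_ring
      _ = 0 := by rw [e1, e3, h1]; abel
  exact sub_eq_zero.1 ((CStarRing.star_mul_self_eq_zero_iff _).1 e4)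

theorem near (C : Core A S γ η) {u : A} {u' : B} (hu : ‖u‖ ≤ 1) (h : C.Good 3 u u') (y : B) :
    ‖C.π u (S.hat y) - S.hat (u' * y)‖ ≤ 4 * η * ‖y‖ := by
  have e : C.π u (S.hat y) - S.hat (u' * y) = C.Φ u y + S.R y (C.π u S.ξ - S.hat u') := by
    rw [Pre.Φ, map_sub, S.R_hat]; abel
  have h1 := C.Φ_le u y
  have h2 := (S.norm_R_apply y (C.π u S.ξ - S.hat u')).trans
    (mul_le_mul_of_nonneg_left h.v (norm_nonneg y))
  have h3 : η * ‖u‖ * ‖y‖ ≤ η * 1 * ‖y‖ :=
    mul_le_mul_of_nonneg_right (mul_le_mul_of_nonneg_left hu C.η_pos.le) (norm_nonneg y)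
  rw [e]
  refine (norm_add_le _ _).trans ?_
  linarith

theorem weak {I : Type*} {l : Filter I} {y : I → K →L[ℂ] K} {z : K →L[ℂ] K}
    (h : ∀ a b, Tendsto (fun i => ⟪a, y i b⟫_ℂ) l (𝓝 ⟪a, z b⟫_ℂ)) (T : K →L[ℂ] K) (a b : K) :
    Tendsto (fun i => ⟪a, T (y i b)⟫_ℂ) l (𝓝 ⟪a, T (z b)⟫_ℂ) := by
  simpa only [ContinuousLinearMap.adjoint_inner_left] using h (T.adjoint a) b

theorem elim (C : Core A S γ η) {a e : A} {a' e' : B} (Fl : Flip C.toPre a e a' e')
    {k : K →L[ℂ] K} {F F' : A → K} (hk : ‖k‖ ≤ 50 * γ) {u v : A} {u' v' : B} (hv : Valid e u v)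
    (gu : C.Good 3 u u') (gv : C.Good 3 v v') (he : e' * v' = v') {δ : ℝ}
    (h1 : ‖C.Φ u v' + C.π u (k (S.hat v')) + S.R v' (F u) - F' (u * v)‖ ≤ δ)
    (h2 : ‖C.Φ u (e' * a') + C.π u (k (S.hat (e' * a'))) + S.R (e' * a') (F u) -
      F' (u * (e * a))‖ ≤ δ)
    (h3 : ‖C.Φ e (u' * v') + C.π e (k (S.hat (u' * v'))) + S.R (u' * v') (F e) -
      F' (e * (u * v))‖ ≤ δ)
    (h4 : ‖C.Φ e (u' * (e' * a')) + C.π e (k (S.hat (u' * (e' * a')))) +
      S.R (u' * (e' * a')) (F e) - F' (e * (u * (e * a)))‖ ≤ δ) :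
    ‖C.Φ u v' + C.Ψ₀ e a' e' k u v'‖ ≤ 8 * δ + 2400 * γ * η := by
  have hγ := C.γ_pos
  have hη := C.η_pos
  have nu : ‖u‖ ≤ 1 := norm_le_one Fl.proj hv.1
  have ne : ‖e‖ ≤ 1 := Fl.proj.norm_le
  have no : ‖e' * a'‖ ≤ 1 := by simpa using norm_mul_le_of_le Fl.norm_e' Fl.norm_a'
  have nv : ‖a' * v'‖ ≤ 3 := by simpa using norm_mul_le_of_le Fl.norm_a' gv.ny
  have eu := e_mul Fl.proj hv
  rw [← mul_assoc e u, eu, Fl.com_e.Φ_left, zero_add] at h3 h4
  rw [(Fl.com_e.mul Fl.com_a).Φ_right, zero_add] at h2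
  have m1 : e' * a' * (a' * v') = v' := by
    rw [mul_assoc, ← mul_assoc a', Fl.a'_sq, one_mul, he]
  have r1 : ∀ z, S.R (a' * v') (S.R (e' * a') z) = S.R v' z := fun z => by
    rw [← S.R_mul_apply, m1]
  have r2 : ∀ z, S.R (a' * v') (S.R (u' * (e' * a')) z) = S.R (u' * v') z := fun z => by
    rw [← S.R_mul_apply, mul_assoc, m1]
  have bd : ∀ y : B, ‖C.π e (k (C.π u (S.hat y) - S.hat (u' * y)))‖ ≤ 400 * γ * η * ‖y‖ :=
    fun y => by
      have t1 := (k.le_opNorm _).trans (mul_le_mul hk (near C nu gu y) (norm_nonneg _)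
        (by positivity))
      have t2 := (C.norm_π_apply e (k (C.π u (S.hat y) - S.hat (u' * y)))).trans
        (mul_le_mul (by linarith : 2 * ‖e‖ ≤ 2) t1 (norm_nonneg _) two_pos.le)
      linarith
  have key : C.Φ u v' + C.Ψ₀ e a' e' k u v' =
      ((C.Φ u v' + C.π u (k (S.hat v')) + S.R v' (F u) - F' (u * v)) -
        (C.π e (k (S.hat (u' * v'))) + S.R (u' * v') (F e) - F' (u * v)) -
        C.π e (k (C.π u (S.hat v') - S.hat (u' * v')))) -
      S.R (a' * v') ((C.π u (k (S.hat (e' * a'))) + S.R (e' * a') (F u) - F' (u * (e * a))) -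
        (C.π e (k (S.hat (u' * (e' * a')))) + S.R (u' * (e' * a')) (F e) - F' (u * (e * a))) -
        C.π e (k (C.π u (S.hat (e' * a')) - S.hat (u' * (e' * a'))))) := by
    simp only [Pre.Ψ₀, map_sub, map_add, r1, r2]
    abel
  have tri : ∀ {x y z : K} {p q r : ℝ}, ‖x‖ ≤ p → ‖y‖ ≤ q → ‖z‖ ≤ r → ‖x - y - z‖ ≤ p + q + r :=
    fun hx hy hz => (norm_sub_le _ _).trans
      (add_le_add ((norm_sub_le _ _).trans (add_le_add hx hy)) hz)
  have hγη : 0 ≤ 400 * γ * η := by positivity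
  have b1 := tri h1 h3 ((bd v').trans (mul_le_mul_of_nonneg_left gv.ny hγη))
  have b2 := tri h2 h4 ((bd (e' * a')).trans (mul_le_mul_of_nonneg_left no hγη))
  have b3 := (S.norm_R_apply (a' * v') _).trans (mul_le_mul nv b2 (norm_nonneg _) three_pos.le)
  rw [key]
  refine (norm_sub_le _ _).trans ?_
  linarith

end ElimJ

open ElimJ in
theorem Elim_pf (hGood : PGood.{v}) (hRel : PRel.{v}) :
    PElim.{v} := by
  intro A B K _ _ _ _ _ S γ η C a e a' e' Fl
  classical
  have hγ := C.γ_pos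
  have hη := C.η_pos
  choose k F F' hk hk' hr using hRel C e (1 - e') Fl.proj Fl.com_f Fl.norm_f'
  let U := Ultrafilter.of (atTop : Filter (Finset (A × A)))
  have hU : (U : Filter (Finset (A × A))) ≤ atTop := Ultrafilter.of_le _
  obtain ⟨z, hz⟩ := exists_wot_lim U k (by positivity) hk
  refine ⟨z, z.opNorm_le_bound (by positivity) fun b => norm_le_of_weak' (l := U)
    (v := fun W => k W b) (Eventually.of_forall fun W => ((k W).le_opNorm b).trans
      (mul_le_mul_of_nonneg_right (hk W) (norm_nonneg b))) (hz _ b),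
    fun c Z Y h => norm_le_of_weak' (l := U) (v := fun W => k W (S.hat Y))
      (Eventually.of_forall fun W => hk' W c Z Y h) (hz _ _), fun u v v' hv gv he => ?_⟩
  have vo : Valid e u (e * a) := by
    refine ⟨hv.1, hv.2.1, ?_, ?_⟩
    · rw [star_mul, Fl.star_a, Fl.star_e, mul_assoc, ← mul_assoc e, Fl.e_sq, ← mul_assoc, Fl.flip]
    · rw [star_mul, Fl.star_a, Fl.star_e, mul_assoc, ← mul_assoc a, Fl.a_sq, one_mul, Fl.e_sq]
  have go : C.Good 1 (e * a) (e' * a') := Core.good_of_com (Fl.com_e.mul Fl.com_a)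
    (norm_le_one Fl.proj.one_sub vo.2.2.1)
    (by simpa using norm_mul_le_of_le Fl.norm_e' Fl.norm_a')
  obtain ⟨u', gu⟩ := hGood C u (norm_le_one Fl.proj hv.1)
  refine norm_le_of_weak' (l := U) (v := fun W => C.Φ u v' + C.Ψ₀ e a' e' (k W) u v') ?_ ?_
  · refine hU ((eventually_ge_atTop
      ({(u, v), (u, e * a), (e, u * v), (e, u * (e * a))} : Finset (A × A))).mono fun W hW => ?_)
    have := elim C Fl (hk W) hv gu gv he
      (hr W (u, v) (hW (by simp)) hv v' (gv.mono (by norm_num)))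
      (hr W (u, e * a) (hW (by simp)) vo _ (go.mono (by norm_num)))
      (hr W (e, u * v) (hW (by simp)) (valid_mul Fl.proj hv) _ ((gu.mul gv).mono (by norm_num)))
      (hr W (e, u * (e * a)) (hW (by simp)) (valid_mul Fl.proj vo) _
        ((gu.mul go).mono (by norm_num)))
    have h0 : 0 ≤ γ * η := by positivity
    change _ ≤ _
    linarith
  · refine (?_ : ∀ w : K, Tendsto (fun W => ⟪w, C.Φ u v' + C.Ψ₀ e a' e' (k W) u v'⟫_ℂ) U
      (𝓝 ⟪w, C.Φ u v' + C.Ψ₀ e a' e' z u v'⟫_ℂ)) _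
    intro w
    simp only [Pre.Ψ₀, inner_add_right, inner_sub_right]
    exact tendsto_const_nhds.add ((((weak hz _ _ _).sub (weak hz _ _ _)).sub
      (weak hz (S.R (a' * v') ∘L C.π u) _ _)).add (weak hz (S.R (a' * v') ∘L C.π e) _ _))

end Pool.Agent.MP_890ef7_an.KK

end

section

open scoped InnerProductSpace ComplexOrder
open Filter Topology

namespace Pool.Agent.MP_890ef7_an.KK

universe v w

namespace ExtJ

section grp
variable {Γ : Type*} [Group Γ]

open Classical in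
/-- a finite set together with its translate. -/
noncomputable def dbl (s : Finset Γ) (a : Γ) : Finset Γ := s ∪ s.image (· * a)

theorem mem_dbl {s : Finset Γ} {a g : Γ} : g ∈ dbl s a ↔ g ∈ s ∨ ∃ h ∈ s, h * a = g := by
  simp only [dbl, Finset.mem_union, Finset.mem_image]

theorem sub_dbl (s : Finset Γ) (a : Γ) : s ⊆ dbl s a := fun _ h => mem_dbl.2 (Or.inl h)

theorem self_dbl {s : Finset Γ} (hs : IsGrp s) (a : Γ) : a ∈ dbl s a :=
  mem_dbl.2 (Or.inr ⟨1, hs.one_mem, one_mul a⟩)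

theorem grp_dbl {s : Finset Γ} (hs : IsGrp s) {a : Γ} (h1 : ∀ g ∈ s, a * g * a ∈ s)
    (h2 : a * a = 1) : IsGrp (dbl s a) := by
  refine ⟨sub_dbl s a hs.one_mem, fun g hg h hh => mem_dbl.2 ?_, fun g hg => mem_dbl.2 ?_⟩
  · replace hg := mem_dbl.1 hg
    replace hh := mem_dbl.1 hh
    rcases hg with hg | ⟨g, hg, rfl⟩ <;> rcases hh with hh | ⟨h, hh, rfl⟩
    · exact Or.inl (hs.mul_mem _ hg _ hh)
    · exact Or.inr ⟨_, hs.mul_mem _ hg _ hh, mul_assoc _ _ _⟩
    · refine Or.inr ⟨_, hs.mul_mem _ hg _ (h1 _ hh), ?_⟩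
      rw [mul_assoc, mul_assoc, h2, mul_one, mul_assoc]
    · refine Or.inl ?_
      have := hs.mul_mem _ hg _ (h1 _ hh)
      rwa [mul_assoc a, ← mul_assoc] at this
  · replace hg := mem_dbl.1 hg
    rcases hg with hg | ⟨g, hg, rfl⟩
    · exact Or.inl (hs.inv_mem _ hg)
    · refine Or.inr ⟨_, h1 _ (hs.inv_mem _ hg), ?_⟩
      rw [mul_assoc, h2, mul_one, mul_inv_rev, inv_eq_of_mul_eq_one_right h2]

end grp

variable {A K : Type v} [CStarAlgebra A] [NormedAddCommGroup K] [InnerProductSpace ℂ K]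
  [CompleteSpace K]

theorem cen_dbl {s : Finset (unitary A)} (hs : IsGrp s) (a : unitary A) (z : A) :
    (∀ g ∈ dbl s a, (g : A) * z = z * g) ↔ (∀ g ∈ s, (g : A) * z = z * g) ∧ (a : A) * z = z * a := by
  refine ⟨fun h => ⟨fun g hg => h g (sub_dbl s a hg), h a (self_dbl hs a)⟩, fun h g hg => ?_⟩
  replace hg := mem_dbl.1 hg
  rcases hg with hg | ⟨g, hg, rfl⟩
  · exact h.1 g hg
  · rw [Submonoid.coe_mul, mul_assoc, h.2, ← mul_assoc, h.1 g hg, mul_assoc]

theorem mem_cen (s : Finset (unitary A)) (z : A) :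
    z ∈ Set.centralizer (Subtype.val '' (s : Set (unitary A))) ↔ ∀ g ∈ s, (g : A) * z = z * g := by
  simp only [Set.mem_centralizer_iff, Set.forall_mem_image, Finset.mem_coe]

/-- the average of the conjugates. -/
noncomputable def E (s : Finset (unitary A)) : A →ₗ[ℂ] A where
  toFun z := avg s fun g => (g : A) * z * star (g : A)
  map_add' x y := by simp only [mul_add, add_mul, avg_add]
  map_smul' c x := by simp only [mul_smul_comm, smul_mul_assoc, avg_smul, RingHom.id_apply]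

theorem E_def (s : Finset (unitary A)) (z : A) :
    E s z = avg s fun g => (g : A) * z * star (g : A) := rfl

theorem E_conj {s : Finset (unitary A)} (hs : IsGrp s) {h : unitary A} (hh : h ∈ s) (z : A) :
    E s ((h : A) * z * star (h : A)) = E s z := by
  rw [E_def, E_def, ← hs.avg_right hh fun g => (g : A) * z * star (g : A)]
  refine avg_congr fun g _ => ?_
  simp only [Submonoid.coe_mul, star_mul, mul_assoc]

theorem E_comm {s : Finset (unitary A)} (hs : IsGrp s) {h : unitary A} (hh : h ∈ s) (z : A) :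
    (h : A) * E s z = E s z * h := by
  have h1 : (h : A) * E s z * star (h : A) = E s z := by
    rw [E_def, avg_mul_left', avg_mul_right', ← hs.avg_left hh fun g => (g : A) * z * star (g : A)]
    refine avg_congr fun g _ => ?_
    simp only [Submonoid.coe_mul, star_mul, mul_assoc]
  conv_rhs => rw [← h1, mul_assoc, Unitary.star_mul_self_of_mem h.2, mul_one]

theorem E_one {s : Finset (unitary A)} (hs : IsGrp s) : E s 1 = 1 := by
  rw [E_def, ← avg_const hs.nonempty (1 : A)]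
  exact avg_congr fun g _ => by
    rw [avg_const hs.nonempty, mul_one, Unitary.mul_star_self_of_mem g.2]

theorem E_E {s t : Finset (unitary A)} (hs : IsGrp s) (ht : IsGrp t) (h : s ⊆ t) (z : A) :
    E t (E s z) = E t z := by
  rw [E_def s, map_avg, avg_congr fun g hg => E_conj ht (h hg) z, avg_const hs.nonempty]

theorem star_E (s : Finset (unitary A)) (z : A) : star (E s z) = E s (star z) := by
  rw [E_def, E_def, star_avg]
  exact avg_congr fun g _ => by simp only [star_mul, star_star, mul_assoc]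

theorem tau_E (S : Std A K) {s : Finset (unitary A)} (hs : IsGrp s) (z : A) :
    S.τ (E s z) = S.τ z := by
  rw [E_def, map_avg, avg_congr (f' := fun _ => S.τ z) fun g _ => by
    rw [S.τ_comm, ← mul_assoc, Unitary.star_mul_self_of_mem g.2, one_mul], avg_const hs.nonempty]

theorem norm_E (S : Std A K) (s : Finset (unitary A)) (z : A) : ‖S.hat (E s z)‖ ≤ ‖S.hat z‖ := by
  have := S.nontrivial
  rw [E_def, map_avg]
  refine norm_avg_le (norm_nonneg _) fun g _ => (S.norm_hat_mul_right _ _).trans ?_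
  rw [norm_star, CStarRing.norm_coe_unitary, one_mul]
  refine (S.norm_hat_mul_left _ _).trans ?_
  rw [CStarRing.norm_coe_unitary, one_mul]

end ExtJ

open ExtJ in
theorem Ext_pf (hMedian : PMedian.{v}) (hNiceStep : PNiceStep.{v}) :
    PExt.{v} := by
  intro A K _ _ _ _ S G hG hneg hN y hy ε hε
  have hst : ∀ g ∈ Subtype.val '' (G : Set (unitary A)),
      star g ∈ Subtype.val '' (G : Set (unitary A)) := by
    rintro _ ⟨g, hg, rfl⟩
    exact ⟨g⁻¹, hG.inv_mem g hg, rfl⟩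
  obtain ⟨y', hy'⟩ : ∃ y', y' = E G y - S.τ y • (1 : A) := ⟨_, rfl⟩
  obtain ⟨a, ha, b, hb, hP, hle⟩ := hMedian S _ hst hN y' ((mem_cen G y').2 fun g hg => by
      rw [hy', mul_sub, sub_mul, E_comm hG hg, mul_smul_comm, smul_mul_assoc, mul_one, one_mul])
    (by rw [hy', star_sub, star_E, star_smul, star_one, hy, Complex.star_def, ← S.τ_star, hy])
    (by rw [hy', map_sub, map_smul, tau_E S hG, S.τ_one, smul_eq_mul, mul_one, sub_self])
    (4 * ε) (by positivity)
  obtain ⟨p1, p2, p3, p4, p5⟩ := id hP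
  let a' : unitary A := ⟨a, by rw [Unitary.mem_iff, p1]; exact ⟨p3, p3⟩⟩
  let b' : unitary A := ⟨b, by rw [Unitary.mem_iff, p2]; exact ⟨p4, p4⟩⟩
  have qa : a' * a' = 1 := Subtype.ext p3
  have qb : b' * b' = 1 := Subtype.ext p4
  have qab : a' * b' = -(b' * a') := Subtype.ext p5
  have ca : ∀ g ∈ G, g * a' = a' * g := fun g hg => Subtype.ext ((mem_cen G a).1 ha g hg)
  have cb : ∀ g ∈ G, g * b' = b' * g := fun g hg => Subtype.ext ((mem_cen G b).1 hb g hg)
  have h1 : IsGrp (dbl G a') := grp_dbl hG (fun g hg => by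
    rwa [← ca g hg, mul_assoc, qa, mul_one]) qa
  have h2 : IsGrp (dbl (dbl G a') b') := grp_dbl h1 (fun g hg => by
    replace hg := mem_dbl.1 hg
    rcases hg with hg | ⟨g, hg, rfl⟩
    · rw [← cb g hg, mul_assoc, qb, mul_one]
      exact sub_dbl _ _ hg
    · refine mem_dbl.2 (Or.inr ⟨_, hG.mul_mem _ hg _ hneg, ?_⟩)
      rw [mul_assoc b', mul_assoc g a', qab, ← mul_assoc b', ← cb g hg, mul_assoc g b',
        mul_neg b', ← mul_assoc b', qb, one_mul, mul_assoc, neg_one_mul]) qb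
  have hsub : G ⊆ dbl (dbl G a') b' := (sub_dbl _ _).trans (sub_dbl _ _)
  have ha2 : a' ∈ dbl (dbl G a') b' := sub_dbl _ _ (self_dbl hG a')
  refine ⟨_, h2, hsub, ?_, ⟨a', ha2, b', self_dbl h1 b', hP⟩, ?_⟩
  · have e : Set.centralizer (Subtype.val '' (dbl (dbl G a') b' : Set (unitary A))) =
        Set.centralizer (Subtype.val '' (G : Set (unitary A)) ∪ {a, b}) := by
      ext z
      rw [mem_cen, cen_dbl h1, cen_dbl hG, Set.centralizer_union, Set.mem_inter_iff, mem_cen,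
        Set.mem_centralizer_iff, and_assoc]
      simp only [Set.mem_insert_iff, Set.mem_singleton_iff, forall_eq_or_imp, forall_eq]
      rfl
    rw [e]
    exact hNiceStep S _ hst hN a ha b hb hP
  · have e1 : ∀ t : Finset (unitary A), S.hat (E t y) - S.τ y • S.ξ =
        S.hat (E t y - S.τ y • (1 : A)) := fun t => by rw [map_sub, map_smul, S.hat_one]
    have e2 : E (dbl (dbl G a') b') y - S.τ y • (1 : A) = E (dbl (dbl G a') b') y' := by
      rw [hy', map_sub, map_smul, E_one h2, E_E hG h2 hsub]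
    have e3 : E (dbl (dbl G a') b') (y' + a * y' * a) = (2 : ℂ) • E (dbl (dbl G a') b') y' := by
      have := E_conj h2 ha2 y'
      rw [show star (a' : A) = a from p1] at this
      rw [map_add, this, two_smul]
    have e4 := norm_E S (dbl (dbl G a') b') (y' + a * y' * a)
    rw [e3, map_smul, norm_smul, Complex.norm_two] at e4
    have e5 := pow_le_pow_left₀ (by positivity) e4 2
    rw [← E_def, ← E_def, e1, e1, e2, ← hy']
    rw [mul_pow] at e5
    linarith

end Pool.Agent.MP_890ef7_an.KK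

end

section

open scoped InnerProductSpace ComplexOrder
open Filter Topology

namespace Pool.Agent.MP_890ef7_an.KK

universe v w

namespace FixJ

variable {A K Γ : Type v} [CStarAlgebra A] [NormedAddCommGroup K] [InnerProductSpace ℂ K]
  [CompleteSpace K] [Group Γ]

theorem inner_conj (S : Std A K) (u : unitary A) (x : A) (z : K) (h : S.L u z = S.R u z) :
    ⟪z, S.hat ((u : A) * x * star (u : A))⟫_ℂ = ⟪z, S.hat x⟫_ℂ := by
  rw [← S.R_hat, ← S.inner_R, ← h, ← S.L_hat, S.inner_L, S.L_hat, S.L_hat, ← mul_assoc,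
    Unitary.coe_star_mul_self, one_mul]

theorem inner_avg (S : Std A K) (j : Γ →* unitary A) {s : Finset Γ} (hs : s.Nonempty) (x : A)
    (z : K) (h : ∀ g ∈ s, S.L (j g) z = S.R (j g) z) :
    ⟪z, S.hat (avg s fun g => (j g : A) * x * star (j g : A))⟫_ℂ = ⟪z, S.hat x⟫_ℂ := by
  have e := map_avg (innerSL ℂ z) s fun g => S.hat ((j g : A) * x * star (j g : A))
  simp only [innerSL_apply_apply] at e
  rw [map_avg, e, avg_congr fun g hg => inner_conj S (j g) x z (h g hg), avg_const hs]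

theorem avg_commute (j : Γ →* unitary A) {s : Finset Γ} (hs : IsGrp s) (x : A) {g : Γ}
    (hg : g ∈ s) :
    (j g : A) * (avg s fun h => (j h : A) * x * star (j h : A)) =
      (avg s fun h => (j h : A) * x * star (j h : A)) * j g := by
  conv_rhs => rw [← hs.avg_left hg]
  rw [avg_mul_left', avg_mul_right']
  refine avg_congr fun h _ => ?_
  rw [map_mul, Submonoid.coe_mul, star_mul, mul_assoc _ _ (j g : A), mul_assoc _ _ (j g : A),
    Unitary.coe_star_mul_self, mul_one]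
  simp only [mul_assoc]

theorem norm_avg_conj (j : Γ →* unitary A) (s : Finset Γ) (x : A) :
    ‖avg s fun h => (j h : A) * x * star (j h : A)‖ ≤ ‖x‖ :=
  norm_avg_le (norm_nonneg _) fun g _ => by
    rw [← Unitary.coe_star, CStarRing.norm_mul_coe_unitary, CStarRing.norm_coe_unitary_mul]

end FixJ

open FixJ in
theorem Fix_pf :
    PFix.{v} := by
  intro A K Γ _ _ _ _ _ S T j hE z hz
  refine S.vec_ext fun x => ?_
  have h1 : Tendsto (fun n => ⟪z, S.hat (avg (T.G n) fun g => (j g : A) * x * star (j g : A))⟫_ℂ)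
      (ω : Filter ℕ) (𝓝 ⟪z, S.τ x • S.ξ⟫_ℂ) := tendsto_const_nhds.inner (hE x)
  have h2 : ⟪z, S.hat x⟫_ℂ = ⟪z, S.τ x • S.ξ⟫_ℂ :=
    tendsto_nhds_unique tendsto_const_nhds
      (h1.congr fun n => inner_avg S j (T.grp n).nonempty x z fun g _ => hz g)
  rw [← inner_conj_symm, h2, inner_conj_symm, inner_smul_left, inner_smul_right, S.τ_def,
    inner_conj_symm, mul_comm]

open FixJ in
theorem ErgOf_pf (hWlim : PWlim.{v}) :
    PErgOf.{v} := by
  intro A K Γ _ _ _ _ _ S T j hc x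
  set a : ℕ → A := fun n => avg (T.G n) fun g => (j g : A) * x * star (j g : A) with ha
  obtain ⟨b, -, hb⟩ := hWlim S a ‖x‖ fun n => norm_avg_conj j _ x
  have hcomm : ∀ g, (j g : A) * b = b * j g := fun g => by
    refine S.hat_injective (ext_inner_left ℂ fun z => ?_)
    have h1 := hb (S.L (star (j g : A)) z) S.ξ
    have h2 := hb z (S.hat (j g))
    simp only [S.inner_L, star_star, S.L_ξ, S.L_hat] at h1 h2
    exact tendsto_nhds_unique h1 (h2.congr' ((T.ev g).mono fun n hn => by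
      simp only [ha, avg_commute j (T.grp n) x hn]))
  obtain ⟨c, rfl⟩ := hc b hcomm
  have hL : ∀ g : Γ, S.L (j g) S.ξ = S.R (j g) S.ξ := fun g => S.LR _
  have hτ : c = S.τ x := by
    have h1 := hb S.ξ S.ξ
    simp only [S.L_ξ] at h1
    rw [← S.τ_def, map_smul, S.τ_one, smul_eq_mul, mul_one] at h1
    exact tendsto_nhds_unique h1 (tendsto_const_nhds.congr fun n =>
      (inner_avg S j (T.grp n).nonempty x S.ξ fun g _ => hL g).symm)
  subst hτ
  have h3 : Tendsto (fun n => ⟪S.hat x - S.τ x • S.ξ, S.hat (a n) - S.τ x • S.ξ⟫_ℂ)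
      (ω : Filter ℕ) (𝓝 0) := by
    have h1 := (hb (S.hat x - S.τ x • S.ξ) S.ξ).sub_const ⟪S.hat x - S.τ x • S.ξ, S.τ x • S.ξ⟫_ℂ
    simp only [S.L_ξ] at h1
    rw [map_smul, S.hat_one, sub_self] at h1
    exact h1.congr fun n => (inner_sub_right _ _ _).symm
  have h4 : ∀ n, ‖S.hat (a n) - S.τ x • S.ξ‖ ^ 2 =
      ‖⟪S.hat x - S.τ x • S.ξ, S.hat (a n) - S.τ x • S.ξ⟫_ℂ‖ := fun n => by
    have h5 := inner_avg S j (T.grp n).nonempty x (S.hat (a n) - S.τ x • S.ξ) fun g hg => by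
      rw [map_sub, map_sub, map_smul, map_smul, hL, S.L_hat, S.R_hat,
        avg_commute j (T.grp n) x hg]
    rw [norm_inner_symm, inner_sub_right, ← h5, ← inner_sub_right, inner_self_eq_norm_sq_to_K]
    simp
  have h6 := h3.norm
  rw [norm_zero] at h6
  have h7 := (h6.congr fun n => (h4 n).symm).sqrt
  rw [Real.sqrt_zero] at h7
  rw [tendsto_iff_norm_sub_tendsto_zero]
  exact h7.congr fun n => Real.sqrt_sq (norm_nonneg _)

end Pool.Agent.MP_890ef7_an.KK

end

section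

open scoped InnerProductSpace ComplexOrder
open Filter Topology

namespace Pool.Agent.MP_890ef7_an.KK

universe v w

namespace GnsJ

variable {A K H : Type v} [CStarAlgebra A] [NormedAddCommGroup K] [InnerProductSpace ℂ K]
  [CompleteSpace K] [NormedAddCommGroup H] [InnerProductSpace ℂ H] [CompleteSpace H] {I : Type*}

omit [CStarAlgebra A] [CompleteSpace K] in
theorem weak_dense {f : A → K} (hf : DenseRange f) {l : Filter I} {v : I → K} {v₀ : K} {C : ℝ}
    (hC : ∀ᶠ i in l, ‖v i‖ ≤ C) (h : ∀ a, Tendsto (fun i => ⟪f a, v i⟫_ℂ) l (𝓝 ⟪f a, v₀⟫_ℂ))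
    (z : K) : Tendsto (fun i => ⟪z, v i⟫_ℂ) l (𝓝 ⟪z, v₀⟫_ℂ) := by
  rw [Metric.tendsto_nhds]
  intro ε hε
  have hD : 0 < |C| + ‖v₀‖ + 1 := by positivity
  obtain ⟨a, ha⟩ := hf.exists_dist_lt z (div_pos (half_pos hε) hD)
  filter_upwards [hC, Metric.tendsto_nhds.1 (h a) _ (half_pos hε)] with i h1 h2
  rw [dist_eq_norm] at ha h2 ⊢
  have e : ⟪z, v i⟫_ℂ - ⟪z, v₀⟫_ℂ = ⟪z - f a, v i - v₀⟫_ℂ + (⟪f a, v i⟫_ℂ - ⟪f a, v₀⟫_ℂ) := by
    simp only [inner_sub_left, inner_sub_right]
    ring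
  have h3 : ‖v i - v₀‖ ≤ |C| + ‖v₀‖ + 1 :=
    (norm_sub_le _ _).trans (by linarith [le_abs_self C])
  have h4 : ‖⟪z - f a, v i - v₀⟫_ℂ‖ ≤ ε / 2 := by
    refine (norm_inner_le_norm _ _).trans ((mul_le_mul ha.le h3 (norm_nonneg _)
      (div_pos (half_pos hε) hD).le).trans (le_of_eq ?_))
    exact div_mul_cancel₀ _ hD.ne'
  rw [e]
  exact (norm_add_le _ _).trans_lt (by linarith)

omit [CStarAlgebra A] in
theorem wot_dense {f : A → K} (hf : DenseRange f) {l : Filter I} {T : I → K →L[ℂ] K}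
    {T₀ : K →L[ℂ] K} {C : ℝ} (hC : ∀ᶠ i in l, ‖T i‖ ≤ C)
    (h : ∀ a b, Tendsto (fun i => ⟪f a, T i (f b)⟫_ℂ) l (𝓝 ⟪f a, T₀ (f b)⟫_ℂ)) (z w : K) :
    Tendsto (fun i => ⟪z, T i w⟫_ℂ) l (𝓝 ⟪z, T₀ w⟫_ℂ) := by
  have h1 : ∀ b, Tendsto (fun i => ⟪z, T i (f b)⟫_ℂ) l (𝓝 ⟪z, T₀ (f b)⟫_ℂ) := fun b =>
    weak_dense hf (C := C * ‖f b‖) (hC.mono fun i hi => ((T i).le_opNorm _).trans
      (mul_le_mul_of_nonneg_right hi (norm_nonneg _))) (fun a => h a b) z
  have e : ∀ (X : K →L[ℂ] K) (y : K),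
      ⟪y, ContinuousLinearMap.adjoint X z⟫_ℂ = star ⟪z, X y⟫_ℂ := fun X y => by
    rw [ContinuousLinearMap.adjoint_inner_right, ← inner_conj_symm]
    rfl
  have h2 := weak_dense hf (l := l) (v := fun i => ContinuousLinearMap.adjoint (T i) z)
    (v₀ := ContinuousLinearMap.adjoint T₀ z) (C := C * ‖z‖)
    (hC.mono fun i hi => (ContinuousLinearMap.le_opNorm _ _).trans
      (mul_le_mul_of_nonneg_right (by rwa [LinearIsometryEquiv.norm_map]) (norm_nonneg _)))
    (fun b => by simp only [e]; exact (h1 b).star) w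
  simp only [e] at h2
  simpa only [star_star] using h2.star

theorem inner_mul (π : A →⋆ₐ[ℂ] (H →L[ℂ] H)) (a x b : A) (z w : H) :
    ⟪z, π (star a * x * b) w⟫_ℂ = ⟪π a z, π x (π b w)⟫_ℂ := by
  rw [map_mul, map_mul, map_star, ContinuousLinearMap.star_eq_adjoint,
    ← ContinuousLinearMap.adjoint_inner_right]
  rfl

variable {M : VonNeumannAlgebra H} {τ : (H →L[ℂ] H) → ℂ} {ι : A →⋆ₐ[ℂ] (H →L[ℂ] H)}
  {L : A →⋆ₐ[ℂ] (K →L[ℂ] K)} {ξ : K}

theorem tr (hτ : IsTraceOn M τ) (hι : ∀ x, ‖ι x‖ = ‖x‖) (hM : ∀ x, x ∈ M ↔ ∃ a, ι a = x)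
    (ht : ∀ a, ⟪ξ, L a ξ⟫_ℂ = τ (ι a)) {l : Filter I} {x : I → A} {y : A} {c : ℝ}
    (hc : ∀ᶠ i in l, ‖x i‖ ≤ c)
    (hw : ∀ z w, Tendsto (fun i => ⟪z, ι (x i) w⟫_ℂ) l (𝓝 ⟪z, ι y w⟫_ℂ)) :
    Tendsto (fun i => ⟪ξ, L (x i) ξ⟫_ℂ) l (𝓝 ⟪ξ, L y ξ⟫_ℂ) := by
  have hD : 0 < |c| + 1 := by positivity
  set t : ℂ := ((|c| + 1 : ℝ) : ℂ) with htd
  have ht0 : t ≠ 0 := Complex.ofReal_ne_zero.2 hD.ne'
  have hn : ‖t‖ = |c| + 1 := by rw [htd, Complex.norm_real, Real.norm_of_nonneg hD.le]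
  have h1 := hτ.2.2.2.2.2 (l.map fun i => ι (t⁻¹ • x i)) (ι (t⁻¹ • y)) ((hM _).2 ⟨_, rfl⟩)
    (eventually_map.2 (hc.mono fun i hi => ⟨(hM _).2 ⟨_, rfl⟩, by
      rw [hι, norm_smul, norm_inv, hn, inv_mul_le_iff₀ hD]
      linarith [le_abs_self c]⟩))
    (fun a b => by
      rw [tendsto_map'_iff]
      simpa only [Function.comp_def, map_smul, smul_apply, inner_smul_right]
        using (hw a b).const_mul t⁻¹)
  rw [tendsto_map'_iff] at h1
  have h2 := h1.const_mul t
  simpa only [Function.comp_def, ← ht, map_smul L, smul_apply, inner_smul_right,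
    mul_inv_cancel_left₀ ht0] using h2

theorem fwd (hτ : IsTraceOn M τ) (hι : ∀ x, ‖ι x‖ = ‖x‖) (hM : ∀ x, x ∈ M ↔ ∃ a, ι a = x)
    (ht : ∀ a, ⟪ξ, L a ξ⟫_ℂ = τ (ι a)) (hd : DenseRange fun a => L a ξ) (hL : ∀ a, ‖L a‖ = ‖a‖)
    {l : Filter I} {x : I → A} {y : A} {c : ℝ} (hc : ∀ᶠ i in l, ‖x i‖ ≤ c)
    (hw : ∀ z w, Tendsto (fun i => ⟪z, ι (x i) w⟫_ℂ) l (𝓝 ⟪z, ι y w⟫_ℂ)) (z w : K) :
    Tendsto (fun i => ⟪z, L (x i) w⟫_ℂ) l (𝓝 ⟪z, L y w⟫_ℂ) := by
  refine wot_dense hd (C := c) (hc.mono fun i hi => (hL _).trans_le hi) (fun a b => ?_) z w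
  simp only [← inner_mul]
  refine tr hτ hι hM ht (c := ‖star a‖ * c * ‖b‖) (hc.mono fun i hi => ?_) fun z w => ?_
  · exact norm_mul_le_of_le (norm_mul_le_of_le le_rfl hi) le_rfl
  · simp only [inner_mul]
    exact hw _ _

theorem cpt (hι : ∀ x, ‖ι x‖ = ‖x‖) (hM : ∀ x, x ∈ M ↔ ∃ a, ι a = x) (U : Ultrafilter I)
    {x : I → A} {c : ℝ} (hc : ∀ᶠ i in (U : Filter I), ‖x i‖ ≤ c) :
    ∃ y, ∀ z w, Tendsto (fun i => ⟪z, ι (x i) w⟫_ℂ) U (𝓝 ⟪z, ι y w⟫_ℂ) := by
  classical
  obtain ⟨Z, hZ⟩ := exists_wot_lim U (fun i => if ‖x i‖ ≤ c then ι (x i) else 0) (abs_nonneg c)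
    fun i => by
      by_cases h : ‖x i‖ ≤ c
      · rw [if_pos h, hι]
        exact h.trans (le_abs_self c)
      · rw [if_neg h, norm_zero]
        exact abs_nonneg c
  have hZ' : ∀ z w, Tendsto (fun i => ⟪z, ι (x i) w⟫_ℂ) U (𝓝 ⟪z, Z w⟫_ℂ) := fun z w =>
    (hZ z w).congr' (hc.mono fun i hi => by simp only [if_pos hi])
  have hm : Z ∈ M := by
    rw [← SetLike.mem_coe, ← M.centralizer_centralizer]
    intro T hT
    ext w
    refine ext_inner_left ℂ fun a => ?_
    have h1 := hZ' (ContinuousLinearMap.adjoint T a) w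
    simp only [ContinuousLinearMap.adjoint_inner_left] at h1
    refine tendsto_nhds_unique h1 ((hZ' a (T w)).congr fun i => ?_)
    exact congrArg (fun X : H →L[ℂ] H => ⟪a, X w⟫_ℂ) (hT (ι (x i)) ((hM _).2 ⟨_, rfl⟩))
  obtain ⟨y, rfl⟩ := (hM Z).1 hm
  exact ⟨y, hZ'⟩

end GnsJ

theorem Gns_pf (hGns0 : PGns0.{v}) :
    PGns.{v} := by
  intro H _ _ _ M τ hτ
  obtain ⟨A, K, iA, iK, iK', iK'', ι, L, R, ξ, hι, hM, h1, h2, h3, h4, h5, hd, hL, hR, ht⟩ :=
    hGns0 M τ hτ
  have hξ : ‖ξ‖ = 1 := by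
    have h := ht 1
    rw [map_one, map_one, hτ.2.2.1, one_apply_eq_self, inner_self_eq_norm_sq_to_K] at h
    have h' : ‖ξ‖ ^ 2 = 1 := by simpa using congrArg norm h
    exact (pow_eq_one_iff_of_nonneg (norm_nonneg _) two_ne_zero).1 h'
  have hcl : ∀ (z : K) (c : ℝ), (∀ ε : ℝ, 0 < ε → ∃ n : A, ‖n‖ ≤ c ∧ ‖z - L n ξ‖ ≤ ε) →
      ∃ a, L a ξ = z := by
    intro z c h
    choose n hn hn' using fun k : ℕ => h (1 / ((k : ℝ) + 1)) Nat.one_div_pos_of_nat
    obtain ⟨y, hy⟩ := GnsJ.cpt hι hM ω (x := n) (Eventually.of_forall hn)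
    refine ⟨y, ext_inner_left ℂ fun w => ?_⟩
    have h6 : Tendsto (fun k => L (n k) ξ) atTop (𝓝 z) := by
      rw [tendsto_iff_norm_sub_tendsto_zero]
      refine squeeze_zero (fun _ => norm_nonneg _) (fun k => ?_)
        tendsto_one_div_add_atTop_nhds_zero_nat
      rw [norm_sub_rev]
      exact hn' k
    exact tendsto_nhds_unique (GnsJ.fwd hτ hι hM ht hd hL (Eventually.of_forall hn) hy w ξ)
      (Tendsto.inner (𝕜 := ℂ) tendsto_const_nhds (h6.mono_left ω_le))
  let S : Std A K := ⟨L, R, ξ, h1, h2, h3, h4, h5, hξ, hd, hL, hR, hcl⟩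
  refine ⟨A, K, iA, iK, iK', iK'', ι, S, hι, hM, fun l y hl => ⟨fun h => ?_, fun h z w => ?_⟩⟩
  · exact GnsJ.fwd hτ hι hM ht hd hL (x := fun x => x) hl h
  · rw [tendsto_iff_ultrafilter]
    intro U hU
    obtain ⟨y', hy⟩ := GnsJ.cpt hι hM U (x := fun x => x) (hU hl)
    have e : y' = y := by
      refine S.L_injective ?_
      ext b
      exact ext_inner_left ℂ fun a => tendsto_nhds_unique
        (GnsJ.fwd hτ hι hM ht hd hL (x := fun x => x) (hU hl) hy a b) ((h a b).mono_left hU)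
    exact e ▸ hy z w

end Pool.Agent.MP_890ef7_an.KK

end

section

open scoped InnerProductSpace ComplexOrder
open Filter Topology

namespace Pool.Agent.MP_890ef7_an.KK

universe v w

namespace Gns0J

theorem gns {A : Type v} [CStarAlgebra A] [PartialOrder A] [StarOrderedRing A] (f : A →ₚ[ℂ] ℂ) :
    ∃ u : A →ₗ[ℂ] f.GNS, DenseRange u ∧ (∀ a b, ⟪u a, u b⟫_ℂ = f (star a * b)) ∧
      ∀ a b, f.gnsStarAlgHom a (u b) = u (a * b) := by
  let e : f.PreGNS →L[ℂ] f.GNS := UniformSpace.Completion.toComplL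
  refine ⟨e.toLinearMap ∘ₗ f.toPreGNS.toLinearMap,
    UniformSpace.Completion.denseRange_coe (α := f.PreGNS), fun a b => ?_, fun a b => ?_⟩
  · exact UniformSpace.Completion.inner_coe (f.toPreGNS a) (f.toPreGNS b)
  · exact f.gnsNonUnitalStarAlgHom_apply_coe (a := a) (b := f.toPreGNS b)

theorem left {A : Type v} [CStarAlgebra A] (t : A →ₗ[ℂ] ℂ) (hp : ∀ a, 0 ≤ t (star a * a)) :
    ∃ (K : Type v) (_ : NormedAddCommGroup K) (_ : InnerProductSpace ℂ K) (_ : CompleteSpace K)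
      (L : A →⋆ₐ[ℂ] (K →L[ℂ] K)) (u : A →ₗ[ℂ] K), DenseRange u ∧
      (∀ a b, ⟪u a, u b⟫_ℂ = t (star a * b)) ∧ ∀ a b, L a (u b) = u (a * b) := by
  let := CStarAlgebra.spectralOrder A
  have := CStarAlgebra.spectralOrderedRing A
  have h : ∀ a, 0 ≤ a → 0 ≤ t a := fun a ha => by
    rw [StarOrderedRing.nonneg_iff] at ha
    induction ha using AddSubmonoid.closure_induction with
    | mem x hx =>
      obtain ⟨s, rfl⟩ := hx
      exact hp s
    | zero => rw [map_zero]
    | add x y _ _ hx hy => rw [map_add]; exact add_nonneg hx hy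
  exact ⟨_, inferInstance, inferInstance, inferInstance, _, gns (PositiveLinearMap.mk₀ t h)⟩

theorem both {A : Type v} [CStarAlgebra A] (t : A →ₗ[ℂ] ℂ) (hp : ∀ a, 0 ≤ t (star a * a))
    (hc : ∀ a b, t (a * b) = t (b * a)) (hf : ∀ a, t (star a * a) = 0 → a = 0) :
    ∃ (K : Type v) (_ : NormedAddCommGroup K) (_ : InnerProductSpace ℂ K) (_ : CompleteSpace K)
      (L : A →⋆ₐ[ℂ] (K →L[ℂ] K)) (R : A →ₗ[ℂ] (K →L[ℂ] K)) (ξ : K),
      R 1 = 1 ∧ (∀ a b, R (a * b) = R b * R a) ∧ (∀ a, R (star a) = star (R a)) ∧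
      (∀ a b, L a * R b = R b * L a) ∧ (∀ a, L a ξ = R a ξ) ∧ (DenseRange fun a => L a ξ) ∧
      (∀ a, ‖L a‖ = ‖a‖) ∧ (∀ a, ‖R a‖ ≤ ‖a‖) ∧ ∀ a, ⟪ξ, L a ξ⟫_ℂ = t a := by
  obtain ⟨K, _, _, _, L, u, hd, hi, hL⟩ := left t hp
  have hext : ∀ T T' : K →L[ℂ] K, (∀ b, T (u b) = T' (u b)) → T = T' := fun T T' h => by
    ext z
    exact hd.induction_on (p := fun z => T z = T' z) z
      (isClosed_eq T.continuous T'.continuous) h
  have hs : ∀ a, ‖u (star a)‖ = ‖u a‖ := fun a => by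
    rw [norm_eq_sqrt_re_inner (𝕜 := ℂ), norm_eq_sqrt_re_inner (𝕜 := ℂ), hi, hi, star_star, hc]
  have hb : ∀ a b, ‖(u ∘ₗ LinearMap.mulRight ℂ a) b‖ ≤ ‖a‖ * ‖u b‖ := fun a b => by
    change ‖u (b * a)‖ ≤ _
    rw [← hs, star_mul, ← hL, ← hs b, ← norm_star a]
    exact ((L (star a)).le_opNorm _).trans (mul_le_mul_of_nonneg_right
      (NonUnitalStarAlgHom.norm_apply_le L _) (norm_nonneg _))
  have hT : ∀ a, ∃ T : K →L[ℂ] K, ‖T‖ ≤ ‖a‖ ∧ ∀ b, T (u b) = u (b * a) := fun a =>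
    ⟨(u ∘ₗ LinearMap.mulRight ℂ a).extendOfNorm u,
      LinearMap.opNorm_extendOfNorm_le hd (norm_nonneg a) (hb a),
      LinearMap.extendOfNorm_eq hd ⟨_, hb a⟩⟩
  choose T hT1 hT using hT
  let R : A →ₗ[ℂ] (K →L[ℂ] K) :=
    { toFun := T
      map_add' := fun a b => hext _ _ fun c => by simp [hT, mul_add]
      map_smul' := fun c a => hext _ _ fun d => by simp [hT] }
  have hR : ∀ a b, R a (u b) = u (b * a) := hT
  have hinj : Function.Injective L := (injective_iff_map_eq_zero L).2 fun a ha => hf a (by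
    have h1 := hL a 1
    rw [ha, mul_one] at h1
    rw [← hi, ← h1]
    simp)
  refine ⟨K, inferInstance, inferInstance, inferInstance, L, R, u 1,
    hext _ _ fun b => by simp [hR], fun a b => hext _ _ fun c => by simp [hR, mul_assoc],
    fun a => ?_, fun a b => hext _ _ fun c => by simp [hR, hL, mul_assoc],
    fun a => by rw [hL, hR, mul_one, one_mul], by simpa only [hL, mul_one] using hd,
    NonUnitalStarAlgHom.norm_map L hinj, hT1, fun a => by rw [hL, hi, star_one, one_mul, mul_one]⟩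
  rw [ContinuousLinearMap.star_eq_adjoint, ContinuousLinearMap.eq_adjoint_iff]
  intro x y
  refine hd.induction_on₂ (p := fun x y => ⟪R (star a) x, y⟫_ℂ = ⟪x, R a y⟫_ℂ)
    (isClosed_eq (by fun_prop) (by fun_prop)) (fun b c => ?_) x y
  rw [hR, hR, hi, hi, star_mul, star_star, mul_assoc, hc, mul_assoc]

end Gns0J

theorem Gns0_pf :
    PGns0.{v} := by
  intro H _ _ _ M τ ⟨h1, h2, _, h4, h5, _⟩
  have hcl : IsClosed (M.toStarSubalgebra : Set (H →L[ℂ] H)) := by
    rw [VonNeumannAlgebra.coe_toStarSubalgebra, ← M.centralizer_centralizer]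
    exact Set.isClosed_centralizer _
  let t : M.toStarSubalgebra →ₗ[ℂ] ℂ :=
    { toFun := fun a => τ a
      map_add' := fun a b => (h1 a a.2 b b.2).1
      map_smul' := fun c a => h2 c a a.2 }
  obtain ⟨K, _, _, _, L, R, ξ, h⟩ := Gns0J.both t
    (fun a => Complex.nonneg_iff.2 ⟨(h4 a a.2).1, (h4 a a.2).2.symm⟩)
    (fun a b => (h1 a a.2 b b.2).2) fun a ha => Subtype.ext (h5 a a.2 ha)
  exact ⟨M.toStarSubalgebra, K, inferInstance, inferInstance, inferInstance, inferInstance,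
    M.toStarSubalgebra.subtype, L, R, ξ, fun _ => rfl,
    fun x => ⟨fun hx => ⟨⟨x, hx⟩, rfl⟩, fun ⟨a, ha⟩ => ha ▸ a.2⟩, h⟩

end Pool.Agent.MP_890ef7_an.KK

end

section

open scoped InnerProductSpace ComplexOrder
open Filter Topology

namespace Pool.Agent.MP_890ef7_an.KK

universe v w

theorem Good_pf (hGP : PGP.{v}) :
    PGood.{v} := by
  intro A B K _ _ _ _ _ S γ η C x hx
  obtain ⟨y₀, h1, h2, h3⟩ := C.partA x
  have hγ := C.γ_pos
  have hγ' := C.γ_le
  have hη := C.η_pos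
  have h2' : ‖C.π x - S.L y₀‖ ≤ γ := h2.trans (mul_le_of_le_one_right hγ.le hx)
  have h3' : ‖C.π' x - S.R y₀‖ ≤ γ := h3.trans (mul_le_of_le_one_right hγ.le hx)
  obtain ⟨b, -, hb1, hb2⟩ := hGP S ⊤ isClosed_univ (C.π x S.ξ - S.hat y₀)
    (by
      rw [StarSubalgebra.coe_top, Set.image_univ]
      exact S.dense_hat _) γ η η hγ hη.le hη fun y _ => by
      have e : S.R y (C.π x S.ξ - S.hat y₀) = (C.π x - S.L y₀) (S.hat y) - C.Φ x y := by
        rw [Pre.Φ, map_sub, S.R_hat, sub_apply, S.L_hat]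
        abel
      rw [e]
      refine (norm_sub_le _ _).trans (add_le_add (((C.π x - S.L y₀).le_opNorm _).trans
        (mul_le_mul_of_nonneg_right h2' (norm_nonneg _))) ((C.Φ_le x y).trans ?_))
      exact mul_le_mul_of_nonneg_right (mul_le_of_le_one_right hη.le hx) (norm_nonneg _)
  refine ⟨y₀ + b, hx.trans (by norm_num), (norm_add_le _ _).trans (by linarith), ?_, ?_, ?_⟩
  · rw [map_add, ← sub_sub]
    refine (norm_sub_le _ _).trans ?_
    rw [S.norm_L]
    linarith
  · rw [map_add, ← sub_sub]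
    refine (norm_sub_le _ _).trans ?_
    linarith [S.norm_R b]
  · rw [map_add, ← sub_sub]
    linarith

theorem Four_pf :
    PFour.{v} := by
  intro A _ e x he h1 h2
  have hs : star e = e := he.isSelfAdjoint.star_eq
  have hi : e * e = e := he.isIdempotentElem.eq
  have hm : ∀ a : A, a ∈ StarSubalgebra.centralizer ℂ ({e} : Set A) ↔ e * a = a * e := fun a => by
    rw [StarSubalgebra.mem_centralizer_iff]
    simp [hs]
  have : IsClosed (StarSubalgebra.centralizer ℂ ({e} : Set A) : Set A) := by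
    rw [StarSubalgebra.coe_centralizer]
    exact Set.isClosed_centralizer _
  obtain ⟨u, c, h3, h4⟩ := CStarAlgebra.exists_sum_four_unitary
    (⟨x, (hm x).2 (h1.trans h2.symm)⟩ : StarSubalgebra.centralizer ℂ ({e} : Set A))
  refine ⟨c, fun i => e * ((u i : StarSubalgebra.centralizer ℂ ({e} : Set A)) : A), h4,
    fun i => ?_, ?_⟩
  · have a1 := (hm _).1 (u i).1.2
    have a2 : star ((u i).1 : A) * (u i).1 = 1 := congrArg Subtype.val (u i).2.1
    have a3 : ((u i).1 : A) * star ((u i).1 : A) = 1 := congrArg Subtype.val (u i).2.2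
    constructor
    · rw [star_mul, hs, mul_assoc, ← mul_assoc e, hi, a1, ← mul_assoc, a2, one_mul]
    · rw [star_mul, hs, mul_assoc, ← mul_assoc ((u i).1 : A), a3, one_mul, hi]
  · have h5 := congrArg (fun a : StarSubalgebra.centralizer ℂ ({e} : Set A) => e * (a : A)) h3
    simp only [h1, AddSubmonoidClass.coe_finsetSum, SetLike.val_smul, Finset.mul_sum,
      mul_smul_comm] at h5
    exact h5

end Pool.Agent.MP_890ef7_an.KK

end

section

open scoped InnerProductSpace ComplexOrder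
open Filter Topology

namespace Pool.Agent.MP_890ef7_an.KK

universe v w

namespace IterJ

/-- the limit of a geometrically converging iteration of units -/
theorem lim {R : Type*} [NormedRing R] [CompleteSpace R] (I : Rˣ → ℝ → Prop) {c η₀ : ℝ}
    (hc : 0 ≤ c) (h0 : 0 < η₀) (h1 : 2 * c * η₀ < 1) (hI : I 1 η₀)
    (hs : ∀ (P : Rˣ) (η : ℝ), 0 < η → η ≤ η₀ → ‖(P : R) - 1‖ ≤ 2 * c * η₀ → I P η →
      ∃ P' : Rˣ, ‖(P' : R) - P‖ ≤ c * η ∧ I P' (η / 2)) :
    ∃ (P : ℕ → Rˣ) (U : Rˣ), (∀ n, I (P n) (η₀ * (1 / 2) ^ n)) ∧ ‖(U : R) - 1‖ ≤ 2 * c * η₀ ∧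
      Tendsto (fun n => (P n : R)) atTop (𝓝 U) ∧
      Tendsto (fun n => (↑(P n)⁻¹ : R)) atTop (𝓝 ↑U⁻¹) := by
  have hp : ∀ n : ℕ, (0 : ℝ) < (1 / 2) ^ n ∧ ((1 : ℝ) / 2) ^ n ≤ 1 := fun n =>
    ⟨by positivity, pow_le_one₀ (by norm_num) (by norm_num)⟩
  have hcη : 0 ≤ c * η₀ := mul_nonneg hc h0.le
  have step : ∀ (n : ℕ) (P : Rˣ),
      ‖(P : R) - 1‖ ≤ 2 * c * η₀ * (1 - (1 / 2) ^ n) ∧ I P (η₀ * (1 / 2) ^ n) → ∃ P' : Rˣ,
      (‖(P' : R) - 1‖ ≤ 2 * c * η₀ * (1 - (1 / 2) ^ (n + 1)) ∧ I P' (η₀ * (1 / 2) ^ (n + 1))) ∧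
        ‖(P' : R) - P‖ ≤ c * η₀ * (1 / 2) ^ n := by
    rintro n P ⟨a1, a2⟩
    obtain ⟨P', b1, b2⟩ := hs P _ (mul_pos h0 (hp n).1)
      (mul_le_of_le_one_right h0.le (hp n).2) (by nlinarith [mul_nonneg hcη (hp n).1.le]) a2
    refine ⟨P', ⟨?_, ?_⟩, by rwa [mul_assoc]⟩
    · have := norm_sub_le_norm_sub_add_norm_sub (P' : R) P 1
      rw [pow_succ]
      linarith
    · rwa [pow_succ, ← mul_assoc, mul_one_div]
  choose! f hf using step
  obtain ⟨P, P0, P1⟩ : ∃ P : ℕ → Rˣ, P 0 = 1 ∧ ∀ n, P (n + 1) = f n (P n) :=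
    ⟨fun n => Nat.rec 1 f n, rfl, fun _ => rfl⟩
  have inv : ∀ n, ‖(P n : R) - 1‖ ≤ 2 * c * η₀ * (1 - (1 / 2) ^ n) ∧
      I (P n) (η₀ * (1 / 2) ^ n) := fun n => by
    induction n with
    | zero => simp [P0, hI]
    | succ n ih => exact P1 n ▸ (hf n _ ih).1
  obtain ⟨X, hX⟩ := cauchySeq_tendsto_of_complete (cauchySeq_of_le_geometric (1 / 2) (c * η₀)
    (by norm_num) (f := fun n => (P n : R)) fun n => by
      rw [dist_comm, dist_eq_norm, P1]
      exact (hf n _ (inv n)).2)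
  have hn : ‖X - 1‖ ≤ 2 * c * η₀ := le_of_tendsto' (hX.sub_const 1).norm fun n =>
    (inv n).1.trans (by nlinarith [mul_nonneg hcη (hp n).1.le])
  obtain ⟨U, rfl⟩ : ∃ U : Rˣ, (U : R) = X :=
    ⟨Units.oneSub (1 - X) (by rw [norm_sub_rev]; linarith), by simp⟩
  refine ⟨P, U, fun n => (inv n).2, hn, hX, ?_⟩
  have := (NormedRing.inverse_continuousAt U).tendsto.comp hX
  simpa only [Function.comp_def, Ring.inverse_unit] using this

end IterJ

theorem Iter_pf (hStep : PStep.{v}) (hMkCore : PMkCore.{v}) (hWstar : PWstar.{v}) :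
    PIter.{v} := by
  intro A B K Γ _ _ _ _ _ _ S γ₀ D T j ρ h0 h1 hE hC hP
  obtain ⟨P, U, a1, a2, a3, a4⟩ := IterJ.lim (Adm D ρ) (c := 2 * 10 ^ 6) (η₀ := 2 * γ₀)
    (by positivity) (by positivity) (by linarith)
    ⟨rfl, fun g => by simp, fun g => by simp, fun x y => by
      have := D.norm_comm_le x y S.ξ
      rw [S.norm_ξ, mul_one, S.R_ξ] at this
      simpa using this⟩
    fun P η b1 b2 b3 b4 => hStep D T j ρ h0 h1 hE hC hP P η b1 b2 (by linarith) b4
  have hU : ‖(U : K →L[ℂ] K) - 1‖ ≤ 10 ^ 7 * γ₀ := by linarith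
  have hξ : (U : K →L[ℂ] K) S.ξ = S.ξ :=
    tendsto_nhds_unique (a3.eval_const S.ξ) (tendsto_const_nhds.congr fun n => (a1 n).1.symm)
  refine ⟨U, hU, fun x => ?_, fun y => ?_⟩
  · have h2 := (a3.mul_const (D.π x)).mul a4
    obtain ⟨p, hp⟩ : ∃ p : K →L[ℂ] K, p = U * D.π x * ↑U⁻¹ := ⟨_, rfl⟩
    rw [← hp] at h2 ⊢
    have h3 : ∀ y, p (S.hat y) = S.R y (p S.ξ) := fun y => by
      have h4 := ((h2.eval_const (S.hat y)).sub
        (((S.R y).continuous.tendsto _).comp (h2.eval_const S.ξ))).norm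
      have h5 := (((tendsto_pow_atTop_nhds_zero_of_lt_one (r := (1 / 2 : ℝ)) (by norm_num)
        (by norm_num)).const_mul (2 * γ₀)).mul_const ‖x‖).mul_const ‖y‖
      rw [mul_zero, zero_mul, zero_mul] at h5
      exact sub_eq_zero.1 (norm_le_zero_iff.1
        (le_of_tendsto_of_tendsto' h4 h5 fun n => (a1 n).2.2.2 x y))
    obtain ⟨a, ha⟩ := hWstar S p fun b => S.clm_ext fun a => by
      change p (S.R b (S.hat a)) = S.R b (p (S.hat a))
      rw [S.R_hat, h3, h3, S.R_mul_apply]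
    exact ⟨a, ha.symm⟩
  · obtain ⟨D', d1, -⟩ := hMkCore D U _ (by linarith) hU hξ
    obtain ⟨x, -, d2, -⟩ := D'.partB y
    rw [d1] at d2
    exact ⟨x, d2.trans (mul_le_mul_of_nonneg_right (by linarith) (norm_nonneg _))⟩

end Pool.Agent.MP_890ef7_an.KK

end

section

open scoped InnerProductSpace ComplexOrder
open Filter Topology

namespace Pool.Agent.MP_890ef7_an.KK

universe v w

namespace KazStepJ

variable {A K : Type v} [CStarAlgebra A] [NormedAddCommGroup K] [InnerProductSpace ℂ K]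
  [CompleteSpace K] {S : Std A K} {a a' : ℕ → A} {b b' : A}

variable (S) in
/-- weak operator limits along the ultrafilter. -/
def WL (a : ℕ → A) (b : A) : Prop :=
  ∀ z w : K, Tendsto (fun n => ⟪z, S.L (a n) w⟫_ℂ) (ω : Filter ℕ) (𝓝 ⟪z, S.L b w⟫_ℂ)

theorem WL.const (c : A) : WL S (fun _ => c) c := fun _ _ => tendsto_const_nhds

theorem WL.add (h : WL S a b) (h' : WL S a' b') : WL S (fun n => a n + a' n) (b + b') :=
  fun z w => by simpa only [map_add, add_apply, inner_add_right] using (h z w).add (h' z w)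

theorem WL.sub (h : WL S a b) (h' : WL S a' b') : WL S (fun n => a n - a' n) (b - b') :=
  fun z w => by simpa only [map_sub, sub_apply, inner_sub_right] using (h z w).sub (h' z w)

theorem WL.mul_right (h : WL S a b) (c : A) : WL S (fun n => a n * c) (b * c) :=
  fun z w => by simpa only [S.L_mul_apply] using h z (S.L c w)

theorem WL.mul_left (h : WL S a b) (c : A) : WL S (fun n => c * a n) (c * b) := fun z w => by
  simpa only [S.L_mul_apply, S.inner_L, star_star] using h (S.L (star c) z) w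

theorem WL.star (h : WL S a b) : WL S (fun n => star (a n)) (star b) := fun z w => by
  have := (Complex.continuous_conj.tendsto _).comp (h w z)
  simpa only [Function.comp_def, inner_conj_symm, S.inner_L] using this

theorem WL.norm_le (h : WL S a b) {c : ℝ} (hc : ∀ᶠ n in (ω : Filter ℕ), ‖a n‖ ≤ c) : ‖b‖ ≤ c := by
  have h0 : 0 ≤ c := by
    obtain ⟨i, hi⟩ := hc.exists
    exact (norm_nonneg _).trans hi
  rw [← S.norm_L]
  exact (S.L b).opNorm_le_bound h0 fun w => norm_le_of_weak' (hc.mono fun n hn =>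
    (S.norm_L_apply _ w).trans (mul_le_mul_of_nonneg_right hn (norm_nonneg w))) (h _ w)

theorem nl (u : unitary A) (x : A) : ‖star (u : A) * x‖ = ‖x‖ :=
  CStarRing.norm_coe_unitary_mul (star u) x

theorem nr (u : unitary A) (x : A) : ‖x * star (u : A)‖ = ‖x‖ :=
  CStarRing.norm_mul_coe_unitary x (star u)

end KazStepJ

open KazStepJ in
theorem KazStep_pf (hWlim : PWlim.{v}) (hPolar : PPolar.{v}) :
    PKazStep.{v} := by
  intro A K Γ _ _ _ _ _ S T r δ hδ hr
  have := S.nontrivial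
  have h0 : 0 ≤ δ := (norm_nonneg _).trans (hr 1 1)
  have l1 : ∀ g, star (r g : A) * r g = 1 := fun g => (r g).2.1
  have l2 : ∀ g, (r g : A) * star (r g : A) = 1 := fun g => (r g).2.2
  have l3 : ∀ g (x : A), star (r g : A) * (r g * x) = x := fun g x => by
    rw [← mul_assoc, l1, one_mul]
  have l4 : ∀ g (x : A), (r g : A) * (star (r g : A) * x) = x := fun g x => by
    rw [← mul_assoc, l2, one_mul]
  obtain ⟨a, ha⟩ : ∃ a : Γ → ℕ → A, ∀ g n,
      a g n = avg (T.G n) fun h => (r (g * h) : A) * star (r h : A) := ⟨_, fun _ _ => rfl⟩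
  have a1 : ∀ g n, ‖a g n‖ ≤ 1 := fun g n => by
    rw [ha]
    exact norm_avg_le zero_le_one fun h _ => by rw [nr, CStarRing.norm_coe_unitary]
  choose s s1 s2 using fun g => hWlim S (a g) 1 (a1 g)
  replace s2 : ∀ g, WL S (a g) (s g) := s2
  have u1 : ∀ g h, ‖star (r g : A) * (r (g * h) * star (r h : A)) - 1‖ ≤ δ := fun g h => by
    have e : star (r g : A) * (r (g * h) * star (r h : A)) - 1 =
        star (r g : A) * ((r (g * h) - r g * r h) * star (r h : A)) := by
      simp only [sub_mul, mul_sub, mul_assoc, l2, mul_one, l1]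
    rw [e, nl, nr]
    exact hr g h
  have d0 : ∀ g n, star (r g : A) * a g n - 1 =
      avg (T.G n) fun h => star (r g : A) * (r (g * h) * star (r h : A)) - 1 := fun g n => by
    rw [avg_sub, avg_const (T.grp n).nonempty, ha, avg_mul_left']
  have dW : ∀ g, WL S (fun n => star (r g : A) * a g n - 1) (star (r g : A) * s g - 1) :=
    fun g => ((s2 g).mul_left _).sub (WL.const 1)
  have d1 : ∀ g, ‖star (r g : A) * s g - 1‖ ≤ δ := fun g =>
    (dW g).norm_le (Eventually.of_forall fun n => by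
      rw [d0]; exact norm_avg_le h0 fun h _ => u1 g h)
  have d2 : ∀ g, ‖star (r g : A) * s g - 1 + star (star (r g : A) * s g - 1)‖ ≤ δ ^ 2 := fun g =>
    ((dW g).add (dW g).star).norm_le (Eventually.of_forall fun n => by
      rw [d0, star_avg, ← avg_add]
      refine norm_avg_le (by positivity) fun h _ => ?_
      have hu := u1 g h
      have e1 : star (star (r g : A) * (r (g * h) * star (r h : A))) *
          (star (r g : A) * (r (g * h) * star (r h : A))) = 1 := by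
        simp only [star_mul, star_star, mul_assoc, l3, l4, l2]
      generalize star (r g : A) * (r (g * h) * star (r h : A)) = u at hu e1
      have e2 : u - 1 + star (u - 1) = -(star (u - 1) * (u - 1)) := by
        rw [star_sub, star_one, sub_mul, mul_sub, e1]; noncomm_ring
      rw [e2, norm_neg, CStarRing.norm_star_mul_self, sq]
      exact mul_le_mul hu hu (norm_nonneg _) h0)
  have d3 : ∀ g, ‖s g - r g‖ ≤ δ := fun g => by
    rw [← nl (r g), mul_sub, l1]; exact d1 g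
  have hp : ∀ g, ∃ u : unitary A, ‖(u : A) - s g‖ ≤ 2 * δ ^ 2 := fun g => by
    have h1 := d1 g
    have h2 := d2 g
    obtain ⟨d, hd⟩ : ∃ d, d = star (r g : A) * s g - 1 := ⟨_, rfl⟩
    have e : s g = r g * (d + 1) := by rw [hd, sub_add_cancel, l4]
    rw [← hd] at h1 h2
    have h3 : ‖d‖ * ‖d‖ ≤ δ ^ 2 := by rw [sq]; exact mul_le_mul h1 h1 (norm_nonneg _) h0
    refine hPolar (s g) _ ?_ ?_ (by nlinarith)
    · have e1 : star (s g) * s g - 1 = d + star d + star d * d := by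
        rw [e, star_mul, mul_assoc, l3, star_add, star_one]; noncomm_ring
      rw [e1]
      refine (norm_add_le _ _).trans ?_
      rw [CStarRing.norm_star_mul_self]
      linarith
    · have e1 : s g * star (s g) - 1 = r g * ((d + star d + d * star d) * star (r g : A)) := by
        rw [e, star_mul, star_add, star_one, sub_eq_iff_eq_add]
        conv_rhs => rw [← l2 g]
        noncomm_ring
      rw [e1, CStarRing.norm_coe_unitary_mul, nr]
      refine (norm_add_le _ _).trans ?_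
      rw [CStarRing.norm_self_mul_star]
      linarith
  have hE : ∀ x y, ‖s (x * y) - s x * r y - r x * s y + r x * r y‖ ≤ δ ^ 2 := fun x y =>
    ((((s2 (x * y)).sub ((s2 x).mul_right _)).sub ((s2 y).mul_left _)).add
      (WL.const _)).norm_le ((T.ev y).mono fun n hn => by
        rw [ha, ha, ha, ← (T.grp n).avg_left hn fun h => (r (x * h) : A) * star (r h : A),
          avg_mul_right', avg_mul_left', ← avg_const (T.grp n).nonempty ((r x : A) * r y),
          ← avg_sub, ← avg_sub, ← avg_add]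
        refine norm_avg_le (by positivity) fun z _ => ?_
        have e : (r (x * y * z) : A) * star (r z : A) -
            r (x * (y * z)) * star (r (y * z) : A) * r y -
            r x * (r (y * z) * star (r z : A)) + r x * r y = (r (x * (y * z)) - r x * r (y * z)) *
              (star (r (y * z) : A) * ((r (y * z) - r y * r z) * star (r z : A))) := by
          simp only [sub_mul, mul_sub, mul_assoc, l3, l4, l2, mul_one]
          abel
        rw [e, sq]
        refine norm_mul_le_of_le (hr _ _) ?_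
        rw [nl, nr]
        exact hr _ _)
  choose u hu using hp
  refine ⟨u, fun g h => ?_, fun g => ?_⟩
  · have e : (u (g * h) : A) - u g * u h = (u (g * h) - s (g * h)) +
        (s (g * h) - s g * r h - r g * s h + r g * r h) - (s g - r g) * (s h - r h) -
        s g * (u h - s h) - (u g - s g) * u h := by noncomm_ring
    have n1 := norm_mul_le_of_le (d3 g) (d3 h)
    have n2 := norm_mul_le_of_le (s1 g) (hu h)
    have n3 : ‖((u g : A) - s g) * u h‖ ≤ 2 * δ ^ 2 := by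
      rw [CStarRing.norm_mul_coe_unitary]; exact hu g
    rw [e]
    refine (norm_sub_le_of_le (norm_sub_le_of_le (norm_sub_le_of_le
      (norm_add_le_of_le (hu _) (hE g h)) n1) n2) n3).trans (le_of_eq (by ring))
  · rw [← sub_add_sub_cancel _ (s g), add_comm δ]
    exact norm_add_le_of_le (hu g) (d3 g)

end Pool.Agent.MP_890ef7_an.KK

end

section

open scoped InnerProductSpace ComplexOrder
open Filter Topology

namespace Pool.Agent.MP_890ef7_an.KK

universe v w

namespace PopaJ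

variable {A K : Type v} [CStarAlgebra A] [NormedAddCommGroup K] [InnerProductSpace ℂ K]
  [CompleteSpace K] (S : Std A K)

/-- the deviation of the average from the trace. -/
noncomputable def dv (G : Finset (unitary A)) : A →ₗ[ℂ] K where
  toFun x := S.hat (avg G fun g => (g : A) * x * star (g : A)) - S.τ x • S.ξ
  map_add' x y := by
    simp only [mul_add, add_mul, avg_add, map_add, add_smul]
    abel
  map_smul' c x := by
    simp only [mul_smul_comm, smul_mul_assoc, avg_smul, map_smul, RingHom.id_apply, smul_sub,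
      smul_eq_mul, mul_smul]

theorem dv_def (G : Finset (unitary A)) (x : A) :
    dv S G x = S.hat (avg G fun g => (g : A) * x * star (g : A)) - S.τ x • S.ξ := rfl

theorem hat_conj (g : unitary A) (x : A) : ‖S.hat ((g : A) * x * star (g : A))‖ ≤ ‖S.hat x‖ := by
  have := S.nontrivial
  have h1 := S.norm_hat_mul_right ((g : A) * x) (star (g : A))
  have h2 := S.norm_hat_mul_left (g : A) x
  rw [norm_star] at h1
  rw [CStarRing.norm_coe_unitary, one_mul] at h1 h2
  exact h1.trans h2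

theorem hat_avg_le (G : Finset (unitary A)) (x : A) :
    ‖S.hat (avg G fun g => (g : A) * x * star (g : A))‖ ≤ ‖S.hat x‖ := by
  rw [map_avg]
  exact norm_avg_le (norm_nonneg _) fun g _ => hat_conj S g x

theorem dv_le (G : Finset (unitary A)) (x : A) : ‖dv S G x‖ ≤ 2 * ‖S.hat x‖ := by
  rw [dv_def]
  refine (norm_sub_le _ _).trans ?_
  rw [norm_smul, S.norm_ξ, mul_one]
  linarith [hat_avg_le S G x, S.norm_τ_le x]

theorem dv_anti {G G' : Finset (unitary A)} (hG : IsGrp G) (hG' : IsGrp G') (h : G ⊆ G') (x : A) :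
    ‖dv S G' x‖ ≤ ‖dv S G x‖ := by
  set y := avg G fun g => (g : A) * x * star (g : A) with hy
  have e1 : (avg G' fun g => (g : A) * y * star (g : A)) =
      avg G' fun g => (g : A) * x * star (g : A) := by
    have e2 : ∀ g' : unitary A, (g' : A) * y * star (g' : A) =
        avg G fun g => ((g' * g : unitary A) : A) * x * star ((g' * g : unitary A) : A) := by
      intro g'
      rw [hy, avg_mul_left', avg_mul_right']
      refine avg_congr fun g _ => ?_
      simp only [Submonoid.coe_mul, star_mul, mul_assoc]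
    simp only [e2]
    rw [avg_comm, avg_congr (f' := fun _ => avg G' fun g => (g : A) * x * star (g : A)),
      avg_const hG.nonempty]
    intro g hg
    exact hG'.avg_right (h hg) fun g => (g : A) * x * star (g : A)
  have e3 : dv S G' x =
      S.hat (avg G' fun g => (g : A) * (y - S.τ x • (1 : A)) * star (g : A)) := by
    have e4 : ∀ g : unitary A, (g : A) * (y - S.τ x • (1 : A)) * star (g : A) =
        (g : A) * y * star (g : A) - S.τ x • (1 : A) := by
      intro g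
      rw [mul_sub, sub_mul, mul_smul_comm, smul_mul_assoc, mul_one, g.2.2]
    simp only [e4]
    rw [avg_sub, e1, avg_const hG'.nonempty, map_sub, map_smul, S.hat_one, dv_def]
  rw [e3]
  refine (hat_avg_le S G' _).trans_eq ?_
  rw [map_sub, map_smul, S.hat_one, dv_def]

/-- admissible groups. -/
def Ok (G : Finset (unitary A)) : Prop :=
  IsGrp G ∧ -1 ∈ G ∧ Nice S (Set.centralizer (Subtype.val '' (G : Set (unitary A))))

theorem ok_zero (h : Nice S Set.univ) : ∃ G, Ok S G := by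
  classical
  refine ⟨{1, -1}, ⟨by simp, ?_, ?_⟩, by simp, ?_⟩
  · intro g hg g' hg'
    simp only [Finset.mem_insert, Finset.mem_singleton] at hg hg' ⊢
    rcases hg with rfl | rfl <;> rcases hg' with rfl | rfl <;> simp
  · intro g hg
    simp only [Finset.mem_insert, Finset.mem_singleton] at hg ⊢
    rcases hg with rfl | rfl
    · simp
    · right
      exact inv_eq_of_mul_eq_one_right (by simp)
  · have : Set.centralizer (Subtype.val '' (({1, -1} : Finset (unitary A)) : Set (unitary A))) =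
        (Set.univ : Set A) := by
      refine Set.eq_univ_of_forall fun x => ?_
      rintro _ ⟨g, hg, rfl⟩
      simp only [Finset.coe_insert, Finset.coe_singleton, Set.mem_insert_iff,
        Set.mem_singleton_iff] at hg
      rcases hg with rfl | rfl
      · simp
      · change (-1 : A) * x = x * -1
        simp
    rwa [this]

theorem chain (hExt : PExt.{v}) (h : Nice S Set.univ) (y : ℕ → A) (hy : ∀ n, star (y n) = y n) :
    ∃ G : ℕ → Finset (unitary A), (∀ n, IsGrp (G n)) ∧ (∀ n, G n ⊆ G (n + 1)) ∧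
      (∃ a ∈ G 1, ∃ b ∈ G 1, IsPauli (a : A) (b : A)) ∧
      ∀ n, ‖dv S (G (n + 1)) (y n)‖ ^ 2 ≤ ‖dv S (G n) (y n)‖ ^ 2 / 2 + 1 / ((n : ℝ) + 1) := by
  obtain ⟨G₀, hG₀⟩ := ok_zero S h
  have st : ∀ (n : ℕ) (G : {G // Ok S G}), ∃ G' : {G // Ok S G}, G.1 ⊆ G'.1 ∧
      (∃ a ∈ G'.1, ∃ b ∈ G'.1, IsPauli (a : A) (b : A)) ∧
      ‖dv S G'.1 (y n)‖ ^ 2 ≤ ‖dv S G.1 (y n)‖ ^ 2 / 2 + 1 / ((n : ℝ) + 1) := by
    intro n G
    obtain ⟨G', h1, h2, h3, h4, h5⟩ := hExt S G.1 G.2.1 G.2.2.1 G.2.2.2 (y n) (hy n)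
      (1 / ((n : ℝ) + 1)) (by positivity)
    exact ⟨⟨G', h1, h2 G.2.2.1, h3⟩, h2, h4, h5⟩
  choose f hf using st
  let G : ℕ → {G // Ok S G} := fun n => Nat.rec ⟨G₀, hG₀⟩ (fun n G => f n G) n
  exact ⟨fun n => (G n).1, fun n => (G n).2.1, fun n => (hf n (G n)).1, (hf 0 (G 0)).2.1,
    fun n => (hf n (G n)).2.2⟩

theorem tend_zero {d : ℕ → ℝ} (h0 : ∀ n, 0 ≤ d n) (ha : Antitone d)
    (hi : ∀ N, ∃ n, N ≤ n ∧ d (n + 1) ^ 2 ≤ d n ^ 2 / 2 + 1 / ((n : ℝ) + 1)) :
    Tendsto d atTop (𝓝 0) := by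
  have hb : BddBelow (Set.range d) := ⟨0, by rintro _ ⟨n, rfl⟩; exact h0 n⟩
  have hl := tendsto_atTop_ciInf ha hb
  set l := ⨅ n, d n
  choose m hm hm' using hi
  have hmt : Tendsto m atTop atTop := tendsto_atTop_mono hm tendsto_id
  have h1 : Tendsto (fun N => d (m N + 1) ^ 2) atTop (𝓝 (l ^ 2)) :=
    (hl.comp ((tendsto_add_atTop_nat 1).comp hmt)).pow 2
  have h2 : Tendsto (fun N => d (m N) ^ 2 / 2 + 1 / ((m N : ℝ) + 1)) atTop (𝓝 (l ^ 2 / 2 + 0)) :=
    (((hl.comp hmt).pow 2).div_const 2).add (tendsto_one_div_add_atTop_nhds_zero_nat.comp hmt)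
  have h3 := le_of_tendsto_of_tendsto' h1 h2 hm'
  have h4 : l = 0 := by nlinarith [sq_nonneg l]
  rwa [h4] at hl

end PopaJ

open PopaJ in
theorem Popa_pf (hExt : PExt.{v}) :
    PPopa.{v} := by
  classical
  intro A K _ _ _ _ S hN hsep
  obtain ⟨t, htc, htd⟩ := TopologicalSpace.exists_countable_dense K
  have hne : t.Nonempty := htd.nonempty
  obtain ⟨z, hz⟩ := htc.exists_eq_range hne
  have hx : ∀ i k : ℕ, ∃ x : A, ‖z i - S.hat x‖ < 1 / ((k : ℝ) + 1) := fun i k => by
    obtain ⟨x, hx⟩ := S.dense_hat.exists_dist_lt (z i) (ε := 1 / ((k : ℝ) + 1)) (by positivity)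
    exact ⟨x, by rwa [← dist_eq_norm]⟩
  choose x hx using hx
  let u : ℕ × ℕ × Bool → A := fun p =>
    if p.2.2 then x p.1 p.2.1 + star (x p.1 p.2.1)
    else Complex.I • (x p.1 p.2.1 - star (x p.1 p.2.1))
  have hu : ∀ p, star (u p) = u p := by
    rintro ⟨i, k, _ | _⟩
    · simp only [u, Bool.false_eq_true, if_false, star_smul, star_sub, star_star]
      rw [RCLike.star_def, Complex.conj_I, neg_smul, ← smul_neg, neg_sub]
    · simp only [u, if_true, star_add, star_star, add_comm]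
  obtain ⟨e, he⟩ := exists_surjective_nat (ℕ × ℕ × Bool)
  obtain ⟨G, hG, hsub, hP, hd⟩ := chain S hExt hN (fun n => u (e n.unpair.1)) fun n => hu _
  have hmono : Monotone G := monotone_nat_of_le_succ hsub
  have hanti : ∀ a, Antitone fun n => ‖dv S (G n) a‖ := fun a m n hmn =>
    dv_anti S (hG m) (hG n) (hmono hmn) a
  have h1 : ∀ p, Tendsto (fun n => dv S (G n) (u p)) atTop (𝓝 0) := by
    intro p
    rw [tendsto_zero_iff_norm_tendsto_zero]
    refine tend_zero (fun _ => norm_nonneg _) (hanti _) fun N => ?_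
    obtain ⟨j, rfl⟩ := he p
    refine ⟨Nat.pair j N, Nat.right_le_pair j N, ?_⟩
    have := hd (Nat.pair j N)
    rwa [Nat.unpair_pair] at this
  have h2 : ∀ i k, Tendsto (fun n => dv S (G n) (x i k)) atTop (𝓝 0) := by
    intro i k
    have e1 : x i k = (2⁻¹ : ℂ) • u (i, k, true) - (2⁻¹ * Complex.I) • u (i, k, false) := by
      simp only [u, Bool.false_eq_true, if_false, if_true, smul_smul, mul_assoc, Complex.I_mul_I]
      module
    have := ((h1 (i, k, true)).const_smul (2⁻¹ : ℂ)).sub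
      ((h1 (i, k, false)).const_smul (2⁻¹ * Complex.I))
    simp only [smul_zero, sub_zero] at this
    refine this.congr fun n => ?_
    rw [← map_smul, ← map_smul, ← map_sub, ← e1]
  have h3 : ∀ a, Tendsto (fun n => dv S (G n) a) atTop (𝓝 0) := by
    intro a
    rw [NormedAddGroup.tendsto_nhds_zero]
    intro ε hε
    obtain ⟨_, ⟨i, rfl⟩, hi⟩ : ∃ y ∈ Set.range z, dist (S.hat a) y < ε / 8 := by
      rw [← hz]
      exact Metric.mem_closure_iff.1 (htd (S.hat a)) _ (by positivity)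
    obtain ⟨k, hk⟩ := exists_nat_one_div_lt (K := ℝ) (ε := ε / 8) (by positivity)
    have h4 : ‖S.hat (a - x i k)‖ < ε / 4 := by
      rw [map_sub]
      have := norm_sub_le_norm_sub_add_norm_sub (S.hat a) (z i) (S.hat (x i k))
      rw [dist_eq_norm] at hi
      linarith [hx i k]
    filter_upwards [(NormedAddGroup.tendsto_nhds_zero.1 (h2 i k)) (ε / 2) (by positivity)]
      with n hn
    have e2 : dv S (G n) a = dv S (G n) (a - x i k) + dv S (G n) (x i k) := by
      rw [← map_add, sub_add_cancel]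
    rw [e2]
    linarith [norm_add_le (dv S (G n) (a - x i k)) (dv S (G n) (x i k)), dv_le S (G n) (a - x i k)]
  let Γ : Subgroup (unitary A) :=
    { carrier := {g | ∃ n, g ∈ G n}
      one_mem' := ⟨0, (hG 0).one_mem⟩
      mul_mem' := by
        rintro g g' ⟨m, hm⟩ ⟨n, hn⟩
        exact ⟨max m n, (hG _).mul_mem _ (hmono (le_max_left m n) hm) _
          (hmono (le_max_right m n) hn)⟩
      inv_mem' := by
        rintro g ⟨m, hm⟩
        exact ⟨m, (hG m).inv_mem _ hm⟩ }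
  let T : Tower Γ :=
    { G := fun n => (G n).subtype (· ∈ Γ)
      grp := fun n =>
        ⟨Finset.mem_subtype.2 (hG n).one_mem,
          fun g hg g' hg' => Finset.mem_subtype.2
            ((hG n).mul_mem _ (Finset.mem_subtype.1 hg) _ (Finset.mem_subtype.1 hg')),
          fun g hg => Finset.mem_subtype.2 ((hG n).inv_mem _ (Finset.mem_subtype.1 hg))⟩
      mono := fun m n hmn => Finset.subtype_mono (hmono hmn)
      exhaust := fun g => by
        obtain ⟨n, hn⟩ := g.2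
        exact ⟨n, Finset.mem_subtype.2 hn⟩ }
  obtain ⟨a, ha, b, hb, hab⟩ := hP
  refine ⟨Γ, T, fun y => ?_, ⟨a, 1, ha⟩, ⟨b, 1, hb⟩, hab⟩
  have e3 : ∀ n, (avg (T.G n) fun g => (Γ.subtype g : A) * y * star (Γ.subtype g : A)) =
      avg (G n) fun g => (g : A) * y * star (g : A) := by
    intro n
    have hall : ∀ g ∈ G n, g ∈ Γ := fun g hg => ⟨n, hg⟩
    unfold avg
    have c1 : (T.G n).card = (G n).card := by
      change ((G n).subtype (· ∈ Γ)).card = _
      rw [Finset.card_subtype, Finset.filter_true_of_mem hall]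
    rw [c1]
    congr 1
    exact Finset.sum_subtype_of_mem (fun g : unitary A => (g : A) * y * star (g : A)) hall
  simp only [e3]
  have := (h3 y).add_const (S.τ y • S.ξ)
  simp only [dv_def, sub_add_cancel, zero_add] at this
  exact this.mono_left ω_le

end Pool.Agent.MP_890ef7_an.KK

end

section

open scoped InnerProductSpace ComplexOrder
open Filter Topology

namespace Pool.Agent.MP_890ef7_an.KK

universe v w

namespace RelJ

section
variable {A : Type v} [CStarAlgebra A]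

theorem norm_le_of_proj {x e : A} (he : IsStarProjection e) (h : star x * x = e) : ‖x‖ ≤ 1 := by
  have h1 : ‖x‖ * ‖x‖ ≤ 1 := by
    rw [← CStarRing.norm_star_mul_self, h]
    exact he.norm_le
  nlinarith [norm_nonneg x]

theorem norm_uni (g : unitary A) : ‖(g : A)‖ ≤ 1 :=
  norm_le_of_proj (IsStarProjection.one A) (Unitary.star_mul_self_of_mem g.2)

theorem norm_star_uni (g : unitary A) : ‖star (g : A)‖ ≤ 1 := by
  rw [norm_star]; exact norm_uni g

theorem norm_four {l : ℂ} (h : l ^ 4 = 1) : ‖l‖ = 1 := by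
  have : ‖l‖ ^ 4 = 1 := by rw [← norm_pow, h, norm_one]
  exact (pow_eq_one_iff_of_nonneg (norm_nonneg _) (by norm_num)).1 this

end

variable {A B K : Type v} [CStarAlgebra A] [CStarAlgebra B] [NormedAddCommGroup K]
  [InnerProductSpace ℂ K] [CompleteSpace K] {S : Std B K} {γ η : ℝ}

theorem good_wad {C : Core A S γ η} {f p q v : A} {f' p' q' v' : B} {l m : ℂ} (hl : ‖l‖ = 1)
    (hm : ‖m‖ = 1) (hf : C.Good 1 f f') (hp : C.Good 3 p p') (hq : C.Good 3 q q')
    (hv : C.Good 36 v v') : C.Good 34 (wad f p q v l m) (wad f' p' q' v' l m) := by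
  have h := (((hp.smul (3 / 5 : ℂ)).add (hq.smul (4 / 5 * (starRingEnd ℂ) m))).add
    (hf.smul (3 / 5 * (starRingEnd ℂ) l))).add (hv.smul (-(4 / 5 * (starRingEnd ℂ) l * m)))
  rw [neg_smul, neg_smul, ← sub_eq_add_neg, ← sub_eq_add_neg] at h
  refine h.mono ?_
  simp only [norm_neg, norm_mul, norm_div, Complex.norm_conj, hl, hm, Complex.norm_ofNat]
  norm_num

/-- the averaged form -/
noncomputable def Th (C : Core A S γ η) {n : ℕ} (g : A) (h : Fin n → A) (g₁ : B) (h₁ : Fin n → B) :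
    A →ₗ[ℂ] B →ₗ[ℂ] K :=
  LinearMap.mk₂ ℂ (fun X Y => avg Finset.univ fun i => C.Φ (g * X * h i) (h₁ i * Y * g₁))
    (fun X X' Y => by simp only [mul_add, add_mul, Pre.Φ_add_left, avg_add])
    (fun c X Y => by simp only [mul_smul_comm, smul_mul_assoc, Pre.Φ_smul_left, avg_smul])
    (fun X Y Y' => by simp only [mul_add, add_mul, Pre.Φ_add_right, avg_add])
    (fun c X Y => by simp only [mul_smul_comm, smul_mul_assoc, Pre.Φ_smul_right, avg_smul])

theorem Th_apply (C : Core A S γ η) {n : ℕ} (g : A) (h : Fin n → A) (g₁ : B) (h₁ : Fin n → B)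
    (X : A) (Y : B) :
    Th C g h g₁ h₁ X Y = avg Finset.univ fun i => C.Φ (g * X * h i) (h₁ i * Y * g₁) := rfl

theorem near {C : Core A S γ η} (g w h : unitary A) {g₁ w₁ h₁ t : B}
    (hg : C.Good 3 (star (g : A)) g₁) (hw : C.Good 34 (star (w : A)) w₁)
    (hh : C.Good 3 (star (h : A)) h₁) (ht : C.Good 3 (star ((g * w * h : unitary A) : A)) t) :
    ‖C.Φ (g * w * h) (h₁ * w₁ * g₁) - C.Φ ((g * w * h : unitary A) : A) t‖ ≤ 4899 * γ * η := by
  have h1 := (hh.mul hw).mul hg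
  have e : star ((g * w * h : unitary A) : A) = star (h : A) * star (w : A) * star (g : A) := by
    simp only [Submonoid.coe_mul, star_mul, mul_assoc]
  rw [e] at ht
  have h2 := Core.norm_sub_le_of_partner h1.l ht.l
  have h3 := norm_uni (g * w * h)
  have e2 : ((g * w * h : unitary A) : A) = (g : A) * w * h := by simp only [Submonoid.coe_mul]
  rw [e2] at h3 ⊢
  rw [← C.Φ_sub_right]
  have hη := C.η_pos
  have hγ := C.γ_pos
  refine (C.Φ_le _ _).trans ((mul_le_mul (mul_le_mul_of_nonneg_left h3 hη.le) h2 (norm_nonneg _)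
    (by positivity)).trans_eq ?_)
  ring

end RelJ

open RelJ in
theorem Rel_pf (hGood : PGood.{v}) (hMart : PMart.{v}) (hUnit : PUnit.{v}) (hPolz : PPolz.{v}) (hShape : PShape.{v}) :
    PRel.{v} := by
  intro A B K _ _ _ _ _ S γ η C e f' he hcom hf' W
  classical
  have hη := C.η_pos
  have hγ := C.γ_pos
  choose dag hdag using fun g : unitary A => hGood C (star (g : A)) (norm_star_uni g)
  let wu : (A × A) × ℂ × ℂ → unitary A := fun t =>
    if h : wun e t.1.1 t.1.2 t.2.1 t.2.2 ∈ unitary A then ⟨_, h⟩ else 1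
  let R4 : Finset ℂ := Polynomial.nthRootsFinset 4 (1 : ℂ)
  obtain ⟨g, m, h, z, hz⟩ := hMart (fun g : unitary A => C.Φ (g : A) (dag g)) (3 * η)
    (fun g => (C.Φ_le _ _).trans ((mul_le_mul (mul_le_mul_of_nonneg_left (norm_uni g) hη.le)
      (hdag g).ny (norm_nonneg _) (by positivity)).trans_eq (by ring)))
    ((W ×ˢ R4 ×ˢ R4).image wu) (γ * η) (by positivity)
  obtain ⟨g₀, hg₀⟩ := hGood C (g : A) (norm_uni g)
  choose k F F' hk hkY hsh using fun i => hShape C g (h i) g₀ (dag g) (dag (h i)) hg₀ (hdag g)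
    (hdag (h i))
  set Θ := Th C (g : A) (fun i => (h i : A)) (dag g) (fun i => dag (h i)) with hΘ
  let U : K →L[ℂ] K := C.π' g ∘L C.π (star (g : A))
  have hU : ∀ x, ‖U x‖ ≤ 4 * ‖x‖ := fun x => by
    have h1 := C.norm_π'_apply g (C.π (star (g : A)) x)
    have h2 := C.norm_π_apply (star (g : A)) x
    have h3 := norm_uni g
    have h4 := norm_star_uni g
    have h5 : ‖C.π (star (g : A)) x‖ ≤ 2 * ‖x‖ := h2.trans (by nlinarith [norm_nonneg x])
    refine h1.trans ?_
    nlinarith [norm_nonneg x, norm_nonneg (C.π (star (g : A)) x), norm_nonneg (g : A)]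
  refine ⟨avg Finset.univ k, fun X => avg Finset.univ fun i => F i X,
    fun X => U (Θ X f') - avg Finset.univ fun i => F' i X,
    norm_avg_le (by positivity) fun i _ => hk i, fun c Z Y hc => ?_, fun p hp hv v' hv' => ?_⟩
  · rw [avg_apply]
    have := hc.nonneg
    exact norm_avg_le (by positivity) fun i _ => hkY i c Z Y hc
  obtain ⟨u, v⟩ := p
  simp only at hv hv' ⊢
  have nu : ‖u‖ ≤ 1 := norm_le_of_proj he hv.1
  have nv : ‖v‖ ≤ 1 := norm_le_of_proj he.one_sub hv.2.2.1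
  have nuv : ‖u * v‖ ≤ 1 := (norm_mul_le_of_le nu nv).trans_eq (mul_one _)
  obtain ⟨p, hp'⟩ := hGood C (star u) (by rwa [norm_star])
  obtain ⟨q, hq'⟩ := hGood C (star (u * v)) (by rwa [norm_star])
  have hf : C.Good 1 (1 - e) f' := Core.good_of_com hcom he.one_sub.norm_le hf'
  have hP : ‖Θ u v' - Θ (u * v) f'‖ ≤ 3 * (4900 * γ * η) := by
    refine hPolz Θ e u v f' p q v' z _ fun l m' hl hm => ?_
    obtain ⟨hw, hs⟩ := hUnit e u v l m' he hv (norm_four hl) (norm_four hm)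
    have hmem : (⟨_, hw⟩ : unitary A) ∈ (W ×ˢ R4 ×ˢ R4).image wu := by
      refine Finset.mem_image.2 ⟨((u, v), l, m'), ?_, dif_pos hw⟩
      simp only [Finset.mem_product, R4]
      exact ⟨hp, (Polynomial.mem_nthRootsFinset (by norm_num) _).2 hl,
        (Polynomial.mem_nthRootsFinset (by norm_num) _).2 hm⟩
    have h1 := hz _ hmem
    have hg : C.Good 34 (star ((⟨_, hw⟩ : unitary A) : A)) (wad f' p q v' l m') := by
      change C.Good 34 (star (wun e u v l m')) _
      rw [hs]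
      exact good_wad (norm_four hl) (norm_four hm) hf hp' hq' hv'
    have h2 : ‖Θ (wun e u v l m') (wad f' p q v' l m') - avg Finset.univ (fun i =>
        C.Φ ((g * ⟨_, hw⟩ * h i : unitary A) : A) (dag (g * ⟨_, hw⟩ * h i)))‖ ≤ 4899 * γ * η := by
      rw [hΘ, Th_apply, ← avg_sub]
      exact norm_avg_le (by positivity) fun i _ =>
        near g ⟨_, hw⟩ (h i) (hdag g) hg (hdag (h i)) (hdag _)
    refine (norm_sub_le_norm_sub_add_norm_sub _ _ _).trans ((add_le_add h2 h1).trans_eq ?_)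
    ring
  have hS : ‖U (Θ u v') - (C.Φ u v' + C.π u (avg Finset.univ k (S.hat v')) +
      S.R v' (avg Finset.univ fun i => F i u) + avg Finset.univ fun i => F' i (u * v))‖ ≤
      2000 * 36 * γ * η := by
    rw [hΘ, Th_apply, map_avg, avg_apply, map_avg, map_avg,
      ← avg_const (s := (Finset.univ : Finset (Fin (m + 1)))) Finset.univ_nonempty (C.Φ u v'),
      ← avg_add, ← avg_add, ← avg_add, ← avg_sub]
    exact norm_avg_le (by positivity) fun i _ => hsh i u nu 36 v v' hv'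
  have hT := hU (Θ u v' - Θ (u * v) f')
  rw [map_sub] at hT
  generalize U (Θ u v') = a at hS hT ⊢
  generalize U (Θ (u * v) f') = b at hT ⊢
  generalize C.Φ u v' + C.π u (avg Finset.univ k (S.hat v')) +
      S.R v' (avg Finset.univ fun i => F i u) = c at hS ⊢
  generalize (avg Finset.univ fun i => F' i (u * v)) = d at hS ⊢
  have e1 : c - (b - d) = (a - b) - (a - (c + d)) := by abel
  rw [e1]
  refine (norm_sub_le _ _).trans ?_
  nlinarith [mul_pos hγ hη]

end Pool.Agent.MP_890ef7_an.KK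

end

section

open scoped InnerProductSpace ComplexOrder
open Filter Topology

namespace Pool.Agent.MP_890ef7_an.KK

universe v w

namespace SepJ

theorem sep_alg {A : Type v} [CStarAlgebra A] {F : Set A} (hF : F.Countable) :
    ∃ Q : StarSubalgebra ℂ A, IsClosed (Q : Set A) ∧ F ⊆ Q ∧
      TopologicalSpace.IsSeparable (Q : Set A) := by
  refine ⟨(StarAlgebra.adjoin ℂ F).topologicalClosure,
    StarSubalgebra.isClosed_topologicalClosure _, fun x hx =>
      StarSubalgebra.le_topologicalClosure _ (StarAlgebra.subset_adjoin ℂ F hx), ?_⟩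
  have h1 : (F ∪ star F).Countable := hF.union (by
    rw [← Set.image_star]; exact hF.image _)
  have h2 : (Submonoid.closure (F ∪ star F) : Set A).Countable := by
    have := h1.to_subtype
    refine (Set.countable_range fun l : List (F ∪ star F : Set A) =>
      (l.map Subtype.val).prod).mono fun x hx => ?_
    obtain ⟨l, hl, rfl⟩ := Submonoid.exists_list_of_mem_closure hx
    refine ⟨l.pmap (fun a ha => ⟨a, ha⟩) hl, ?_⟩
    simp only [List.map_pmap, List.pmap_eq_map, List.map_id']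
  have h3 : ((StarAlgebra.adjoin ℂ F : StarSubalgebra ℂ A) : Set A) =
      (Submodule.span ℂ (Submonoid.closure (F ∪ star F) : Set A) : Set A) := by
    rw [← Algebra.adjoin_eq_span, ← StarAlgebra.adjoin_toSubalgebra]
    rfl
  rw [StarSubalgebra.topologicalClosure_coe, h3]
  exact h2.isSeparable.span.closure

variable {A K : Type v} [CStarAlgebra A] [NormedAddCommGroup K] [InnerProductSpace ℂ K]
  [CompleteSpace K] (S : Std A K)

theorem exists_proj (Q : StarSubalgebra ℂ A) : ∃ P : K →L[ℂ] K, IsStarProjection P ∧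
    ∀ z, P z = z ↔ z ∈ closure (S.hat '' (Q : Set A)) := by
  let U : Submodule ℂ K := (Q.toSubalgebra.toSubmodule.map S.hat).topologicalClosure
  refine ⟨U.starProjection, isStarProjection_starProjection, fun z => ?_⟩
  rw [Submodule.starProjection_eq_self_iff]
  change z ∈ ((Q.toSubalgebra.toSubmodule.map S.hat).topologicalClosure : Set K) ↔ _
  rw [Submodule.topologicalClosure_coe, Submodule.map_coe]
  rfl

theorem proj_inner {P : K →L[ℂ] K} (hP : IsStarProjection P) (z y : K) :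
    ⟪P z, y⟫_ℂ = ⟪z, P y⟫_ℂ := by
  have h : P.adjoint = P := hP.isSelfAdjoint
  rw [← ContinuousLinearMap.adjoint_inner_right, h]

theorem proj_sq {P : K →L[ℂ] K} (hP : IsStarProjection P) (z : K) :
    ‖z - P z‖ ^ 2 = ‖z‖ ^ 2 - (⟪P z, z⟫_ℂ).re := by
  have h1 : P (P z) = P z := congrArg (fun T : K →L[ℂ] K => T z) hP.isIdempotentElem
  have h2 : ‖P z‖ ^ 2 = (⟪P z, z⟫_ℂ).re := by
    rw [@norm_sq_eq_re_inner ℂ, proj_inner hP, h1, ← proj_inner hP]; rfl
  have h3 : RCLike.re ⟪z, P z⟫_ℂ = (⟪P z, z⟫_ℂ).re := by rw [← proj_inner hP]; rfl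
  rw [@norm_sub_sq ℂ, h3, h2]
  ring

theorem diff_sq {P : K →L[ℂ] K} (hP : IsStarProjection P) (h1 : P S.ξ = S.ξ) {E : Type v}
    [NormedAddCommGroup E] [InnerProductSpace ℂ E] (w : A × A → E)
    (hw : ∀ p q, ⟪w p, w q⟫_ℂ = ⟪P (S.hat (p.2 * star q.2)), S.hat (star p.1 * q.1)⟫_ℂ) (x : A) :
    ‖w (x, 1) - w (1, x)‖ ^ 2 =
      ‖S.hat x - P (S.hat x)‖ ^ 2 + ‖S.hat (star x) - P (S.hat (star x))‖ ^ 2 := by
  have e1 : ‖w (x, 1)‖ ^ 2 = ‖S.hat x‖ ^ 2 := by
    rw [@norm_sq_eq_re_inner ℂ, hw, S.norm_hat_sq]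
    simp only [star_one, mul_one, S.hat_one, h1]
    rfl
  have e2 : ‖w (1, x)‖ ^ 2 = ‖S.hat (star x)‖ ^ 2 := by
    rw [@norm_sq_eq_re_inner ℂ, hw, S.norm_hat_sq]
    simp only [star_one, mul_one, S.hat_one, star_star]
    rw [proj_inner hP, h1, inner_re_symm]
    rfl
  have e3 : RCLike.re ⟪w (x, 1), w (1, x)⟫_ℂ = (⟪P (S.hat (star x)), S.hat (star x)⟫_ℂ).re := by
    rw [hw]
    simp only [mul_one, one_mul]
    rfl
  have e4 : RCLike.re ⟪w (x, 1), w (1, x)⟫_ℂ = (⟪P (S.hat x), S.hat x⟫_ℂ).re := by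
    rw [inner_re_symm, hw]
    simp only [star_one, mul_one, one_mul]
    rfl
  rw [@norm_sub_sq ℂ, proj_sq hP, proj_sq hP, e1, e2]
  linarith

end SepJ

open SepJ in
theorem Sep_pf (hSep2 : PSep2.{v}) (hSep3 : PSep3.{v}) (hSep4 : PSep4.{v}) (hBimod : PBimod.{v, v}) :
    PSep.{v} := by
  intro H A K _ _ _ _ _ _ _ M S ι hι hM hL hT
  choose F δ hF hδ hR using fun n : ℕ => hT (1 / ((n : ℝ) + 1)) (by positivity)
  have hinj : Function.Injective ι := fun a b h => by
    rw [← sub_eq_zero, ← norm_eq_zero, ← hι, map_sub, h, sub_self, norm_zero]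
  have hc : (ι ⁻¹' ⋃ n, (F n : Set (H →L[ℂ] H))).Countable :=
    (Set.countable_iUnion fun n => (F n).countable_toSet).preimage hinj
  obtain ⟨Q, hQ, hFQ, hQs⟩ := sep_alg hc
  obtain ⟨P, hP, hPz⟩ := exists_proj S Q
  obtain ⟨E, _, _, _, w, l, r, hw, hd, hl, hr, hrs, hr1, hrm, hlr, hln, hrn⟩ :=
    hSep3 S P hP (hSep2 S Q P hQ hP hPz)
  obtain ⟨hl4, hr4⟩ := hSep4 S P hP w l r hw hd hl hr hln hrn
  obtain ⟨l', r', hb, hl', hr'⟩ := hBimod M S ι hι hM hL l.toAlgHom.toLinearMap r (map_one l) hr1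
    (fun x => map_star l x) hrs (fun x y => map_mul l x y) hrm hlr hl4 hr4
  have hl'' : ∀ x, l' (ι x) = l x := hl'
  have hPq : ∀ q ∈ Q, P (S.hat q) = S.hat q := fun q hq =>
    (hPz _).2 (subset_closure ⟨q, hq, rfl⟩)
  have h1 : P S.ξ = S.ξ := by rw [← S.hat_one]; exact hPq 1 Q.one_mem
  have hdiff : ∀ x, ‖l x (w (1, 1)) - r x (w (1, 1))‖ ^ 2 =
      ‖S.hat x - P (S.hat x)‖ ^ 2 + ‖S.hat (star x) - P (S.hat (star x))‖ ^ 2 := fun x => by
    rw [hl, hr, mul_one, one_mul]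
    exact diff_sq S hP h1 w hw x
  have hn : ‖w (1, 1)‖ = 1 := by
    have : ‖w (1, 1)‖ ^ 2 = 1 ^ 2 := by
      rw [@norm_sq_eq_re_inner ℂ, hw]
      simp only [star_one, mul_one, S.hat_one, h1]
      rw [← @norm_sq_eq_re_inner ℂ, S.norm_ξ]
    exact (pow_left_inj₀ (norm_nonneg _) zero_le_one two_ne_zero).1 this
  have hall : ∀ x, P (S.hat x) = S.hat x := by
    intro x
    have hb2 : ∀ n : ℕ, ‖S.hat x - P (S.hat x)‖ ≤ 2 * ‖x‖ * (1 / ((n : ℝ) + 1)) := by
      intro n
      obtain ⟨η, hη, hη'⟩ := hR n E l' r' hb (w (1, 1)) hn fun y hy => by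
        obtain ⟨a, rfl⟩ := (hM y).1 (hF n y hy)
        have ha : a ∈ Q := hFQ (Set.mem_iUnion.2 ⟨n, hy⟩)
        have := hdiff a
        rw [hPq a ha, hPq _ (star_mem ha), sub_self, sub_self, norm_zero] at this
        have h0 : ‖l a (w (1, 1)) - r a (w (1, 1))‖ = 0 :=
          (pow_eq_zero_iff two_ne_zero).1 (by rw [this]; norm_num)
        rw [hl'', hr', h0]
        exact hδ n
      have h2 := hη (ι x) ((hM _).2 ⟨x, rfl⟩)
      rw [hl'', hr'] at h2
      have h3 : l x (w (1, 1)) - r x (w (1, 1)) = r x (η - w (1, 1)) - l x (η - w (1, 1)) := by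
        rw [map_sub, map_sub, h2]; abel
      have h4 : ‖l x (w (1, 1)) - r x (w (1, 1))‖ ≤ 2 * ‖x‖ * (1 / ((n : ℝ) + 1)) := by
        rw [h3]
        have a1 := ((r x).le_opNorm (η - w (1, 1))).trans
          (mul_le_mul (hrn x) hη'.le (norm_nonneg _) (norm_nonneg _))
        have a2 := ((l x).le_opNorm (η - w (1, 1))).trans
          (mul_le_mul (hln x) hη'.le (norm_nonneg _) (norm_nonneg _))
        linarith [norm_sub_le (r x (η - w (1, 1))) (l x (η - w (1, 1)))]
      refine le_trans ?_ h4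
      refine (pow_le_pow_iff_left₀ (norm_nonneg _) (norm_nonneg _) two_ne_zero).1 ?_
      rw [hdiff]
      exact le_add_of_nonneg_right (sq_nonneg _)
    have h5 := (tendsto_one_div_add_atTop_nhds_zero_nat (𝕜 := ℝ)).const_mul (2 * ‖x‖)
    rw [mul_zero] at h5
    have h6 := ge_of_tendsto' h5 hb2
    exact (sub_eq_zero.1 (norm_le_zero_iff.1 h6)).symm
  have hcont : Continuous S.hat :=
    (S.hat.mkContinuous 1 fun a => by simpa using S.norm_hat_le a).continuous
  rw [← TopologicalSpace.isSeparable_univ_iff]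
  refine (hQs.image hcont).closure.mono fun z _ => ?_
  exact S.dense_hat.induction_on (p := fun z => z ∈ closure (S.hat '' (Q : Set A))) z
    isClosed_closure fun x => (hPz _).1 (hall x)

end Pool.Agent.MP_890ef7_an.KK

end

section

open scoped InnerProductSpace ComplexOrder
open Filter Topology

namespace Pool.Agent.MP_890ef7_an.KK

universe v w

namespace Sep3J

theorem bnd {X E : Type*} [NormedAddCommGroup E] [InnerProductSpace ℂ E] [CompleteSpace E]
    {v : X → E} (hv : DenseRange (Finsupp.linearCombination ℂ v)) (φ ψ : X → X) {c : ℝ}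
    (hc : 0 ≤ c)
    (h : ∀ p q, ⟪v (ψ p), v (ψ q)⟫_ℂ + ⟪v (φ p), v (φ q)⟫_ℂ = ((c ^ 2 : ℝ) : ℂ) * ⟪v p, v q⟫_ℂ) :
    ∃ T : E →L[ℂ] E, ‖T‖ ≤ c ∧ ∀ x, T (v x) = v (φ x) := by
  refine exists_clm_of_bound v hv (fun x => v (φ x)) hc fun f => ?_
  have h1 : ⟪Finsupp.linearCombination ℂ (fun x => v (ψ x)) f,
      Finsupp.linearCombination ℂ (fun x => v (ψ x)) f⟫_ℂ +
      ⟪Finsupp.linearCombination ℂ (fun x => v (φ x)) f,
      Finsupp.linearCombination ℂ (fun x => v (φ x)) f⟫_ℂ = ((c ^ 2 : ℝ) : ℂ) *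
      ⟪Finsupp.linearCombination ℂ v f, Finsupp.linearCombination ℂ v f⟫_ℂ := by
    simp only [inner_lc, Finsupp.sum, ← Finset.sum_add_distrib, Finset.mul_sum]
    refine Finset.sum_congr rfl fun p _ => Finset.sum_congr rfl fun q _ => ?_
    linear_combination (starRingEnd ℂ) (f p) * f q * h p q
  simp only [inner_self_eq_norm_sq_to_K, Complex.coe_algebraMap] at h1
  have h2 : ‖Finsupp.linearCombination ℂ (fun x => v (ψ x)) f‖ ^ 2 +
      ‖Finsupp.linearCombination ℂ (fun x => v (φ x)) f‖ ^ 2 =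
      c ^ 2 * ‖Finsupp.linearCombination ℂ v f‖ ^ 2 := by exact_mod_cast h1
  refine (pow_le_pow_iff_left₀ (norm_nonneg _) (by positivity) two_ne_zero).1 ?_
  rw [mul_pow, ← h2]
  exact le_add_of_nonneg_left (sq_nonneg _)

theorem root {A : Type*} [CStarAlgebra A] (x : A) :
    ∃ s : A, star s * s + star x * x = ((‖x‖ ^ 2 : ℝ) : ℂ) • (1 : A) := by
  letI := CStarAlgebra.spectralOrder A
  haveI := CStarAlgebra.spectralOrderedRing A
  have h := sub_nonneg.2 (CStarAlgebra.star_mul_le_algebraMap_norm_sq (a := x))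
  refine ⟨CFC.sqrt (algebraMap ℝ A (‖x‖ ^ 2) - star x * x), ?_⟩
  rw [(IsSelfAdjoint.of_nonneg (CFC.sqrt_nonneg _)).star_eq, CFC.sqrt_mul_sqrt_self _ h,
    sub_add_cancel, Algebra.algebraMap_eq_smul_one, Complex.coe_smul]

end Sep3J

theorem Sep3_pf :
    PSep3.{v} := by
  intro A K _ _ _ _ S P _ hk
  obtain ⟨E, i1, i2, i3, w, hw, hd⟩ := exists_kolm _ hk
  have a1 : ∀ a a' b, w (a + a', b) = w (a, b) + w (a', b) := fun a a' b =>
    inner_ext_of_dense w hd fun p => by
      simp only [inner_add_right, hw, mul_add, map_add]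
  have a2 : ∀ (c : ℂ) a b, w (c • a, b) = c • w (a, b) := fun c a b =>
    inner_ext_of_dense w hd fun p => by
      simp only [inner_smul_right, hw, mul_smul_comm, map_smul]
  have a3 : ∀ a b b', w (a, b + b') = w (a, b) + w (a, b') := fun a b b' =>
    inner_ext_of_dense w hd fun p => by
      simp only [inner_add_right, inner_add_left, hw, star_add, mul_add, map_add]
  have a4 : ∀ (c : ℂ) a b, w (a, c • b) = c • w (a, b) := fun c a b =>
    inner_ext_of_dense w hd fun p => by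
      simp only [inner_smul_right, inner_smul_left, hw, star_smul, mul_smul_comm, map_smul,
        RCLike.star_def, Complex.conj_conj]
  have b1 : ∀ x : A, ∃ T : E →L[ℂ] E, ‖T‖ ≤ ‖x‖ ∧ ∀ p, T (w p) = w (x * p.1, p.2) := fun x => by
    obtain ⟨s, hs⟩ := Sep3J.root x
    refine Sep3J.bnd hd (fun p => (x * p.1, p.2)) (fun p => (s * p.1, p.2)) (norm_nonneg _)
      fun p q => ?_
    rw [hw, hw, hw, ← inner_add_right, ← map_add, ← inner_smul_right, ← map_smul]
    congr 2
    rw [← smul_mul_assoc, ← mul_one (star p.1), ← mul_smul_comm, ← hs]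
    simp only [star_mul]
    noncomm_ring
  have b2 : ∀ x : A, ∃ T : E →L[ℂ] E, ‖T‖ ≤ ‖x‖ ∧ ∀ p, T (w p) = w (p.1, p.2 * x) := fun x => by
    obtain ⟨s, hs⟩ := Sep3J.root (star x)
    rw [norm_star, star_star] at hs
    refine Sep3J.bnd hd (fun p => (p.1, p.2 * x)) (fun p => (p.1, p.2 * star s)) (norm_nonneg _)
      fun p q => ?_
    rw [hw, hw, hw, ← inner_add_left, ← map_add, ← map_add, ← Complex.conj_ofReal,
      ← inner_smul_left, ← map_smul, ← map_smul]
    congr 3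
    rw [← smul_mul_assoc, ← mul_one p.2, ← mul_smul_comm, ← hs]
    simp only [star_mul, star_star]
    noncomm_ring
  choose l hl hl' using b1
  choose r hr hr' using b2
  let l₁ : A →ₗ[ℂ] (E →L[ℂ] E) :=
    { toFun := l
      map_add' := fun x y => clm_ext_of_dense w hd fun p => by
        rw [ContinuousLinearMap.add_apply, hl', hl', hl', add_mul, a1]
      map_smul' := fun c x => clm_ext_of_dense w hd fun p => by
        rw [RingHom.id_apply, ContinuousLinearMap.smul_apply, hl', hl', smul_mul_assoc, a2] }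
  let r₁ : A →ₗ[ℂ] (E →L[ℂ] E) :=
    { toFun := r
      map_add' := fun x y => clm_ext_of_dense w hd fun p => by
        rw [ContinuousLinearMap.add_apply, hr', hr', hr', mul_add, a3]
      map_smul' := fun c x => clm_ext_of_dense w hd fun p => by
        rw [RingHom.id_apply, ContinuousLinearMap.smul_apply, hr', hr', mul_smul_comm, a4] }
  let l₂ : A →⋆ₐ[ℂ] (E →L[ℂ] E) :=
    { toAlgHom := AlgHom.ofLinearMap l₁
        (clm_ext_of_dense w hd fun p => (hl' 1 p).trans (by rw [one_mul]; rfl))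
        fun x y => clm_ext_of_dense w hd fun p => by
          change l (x * y) (w p) = l x (l y (w p))
          rw [hl', hl', hl', mul_assoc]
      map_star' := fun x => adj_of_dense w hd w hd (T := l x) (T' := l (star x)) fun p q => by
        rw [hl', hl', hw, hw, star_mul, star_star, mul_assoc] }
  refine ⟨E, i1, i2, i3, w, l₂, r₁, hw, hd, hl', hr', fun x => ?_, ?_, fun x y => ?_,
    fun x y => ?_, hl, hr⟩
  · refine adj_of_dense w hd w hd (T := r x) (T' := r (star x)) fun p q => ?_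
    rw [hr', hr', hw, hw, star_mul, mul_assoc]
  · exact clm_ext_of_dense w hd fun p => (hr' 1 p).trans (by rw [mul_one]; rfl)
  · refine clm_ext_of_dense w hd fun p => ?_
    change r (x * y) (w p) = r y (r x (w p))
    rw [hr', hr', hr', mul_assoc]
  · refine clm_ext_of_dense w hd fun p => ?_
    change l x (r y (w p)) = r y (l x (w p))
    rw [hr', hl', hl', hr']

end Pool.Agent.MP_890ef7_an.KK

end

section

open scoped InnerProductSpace ComplexOrder
open Filter Topology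

namespace Pool.Agent.MP_890ef7_an.KK

universe v w

namespace SqrtJ

theorem sub_one {A : Type v} [CStarAlgebra A] {a : A} (ha : IsSelfAdjoint a) {f : ℝ → ℝ}
    (hf : ContinuousOn f (spectrum ℝ a)) : cfc f a - 1 = cfc (fun t => f t - 1) a := by
  rw [cfc_sub f (fun _ => 1) a, cfc_const_one ℝ a]

theorem est {t δ : ℝ} (h : |t - 1| ≤ δ) (hδ : δ ≤ 1 / 2) :
    0 < √t ∧ |√t - 1| ≤ δ ∧ |(√t)⁻¹ - 1| ≤ 2 * δ := by
  obtain ⟨h1, h2⟩ := abs_le.1 h
  have h3 : 1 / 2 ≤ √t := Real.le_sqrt_of_sq_le (by linarith)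
  have h4 : √t * √t = t := Real.mul_self_sqrt (by linarith)
  have h5 : |√t - 1| ≤ δ := by
    refine le_trans ?_ h
    rw [show t - 1 = (√t - 1) * (√t + 1) by linarith, abs_mul]
    exact le_mul_of_one_le_right (abs_nonneg _) (le_abs.2 (Or.inl (by linarith)))
  have h0 : 0 < √t := by linarith
  refine ⟨h0, h5, ?_⟩
  rw [show (√t)⁻¹ - 1 = (√t)⁻¹ * (1 - √t) by field_simp, abs_mul, abs_sub_comm,
    abs_of_pos (inv_pos.2 h0)]
  exact mul_le_mul ((inv_le_comm₀ h0 two_pos).2 (by linarith)) h5 (abs_nonneg _) zero_le_two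

end SqrtJ

theorem Sqrt_pf :
    PSqrt.{v} := by
  intro A _ a δ hs h hδ
  have ha : IsSelfAdjoint a := hs
  have h0 : 0 ≤ δ := (norm_nonneg _).trans h
  have h1 : ∀ t ∈ spectrum ℝ a, |t - 1| ≤ δ := fun t ht => by
    have := norm_apply_le_norm_cfc (fun t : ℝ => t - 1) a ht
    rw [← SqrtJ.sub_one ha (f := fun t => t) continuousOn_id, cfc_id' ℝ a] at this
    exact this.trans h
  have h2 := fun t ht => SqrtJ.est (h1 t ht) hδ
  have c1 : ContinuousOn (fun t : ℝ => √t) (spectrum ℝ a) := Real.continuous_sqrt.continuousOn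
  have c2 : ContinuousOn (fun t : ℝ => (√t)⁻¹) (spectrum ℝ a) :=
    c1.inv₀ fun t ht => (h2 t ht).1.ne'
  refine ⟨cfc (fun t : ℝ => √t) a, cfc (fun t : ℝ => (√t)⁻¹) a, IsSelfAdjoint.cfc.star_eq,
    IsSelfAdjoint.cfc.star_eq, ?_, ?_, ?_, ?_, ?_⟩
  · rw [← cfc_mul _ _ a c1 c1]
    refine (cfc_congr fun t ht => ?_).trans (cfc_id' ℝ a)
    exact Real.mul_self_sqrt (by linarith [(abs_le.1 (h1 t ht)).1])
  · rw [← cfc_mul _ _ a c1 c2]
    exact (cfc_congr fun t ht => mul_inv_cancel₀ (h2 t ht).1.ne').trans (cfc_const_one ℝ a)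
  · rw [← cfc_mul _ _ a c2 c1]
    exact (cfc_congr fun t ht => inv_mul_cancel₀ (h2 t ht).1.ne').trans (cfc_const_one ℝ a)
  · rw [SqrtJ.sub_one ha c1]
    exact norm_cfc_le h0 fun t ht => (h2 t ht).2.1
  · rw [SqrtJ.sub_one ha c2]
    exact norm_cfc_le (by linarith) fun t ht => (h2 t ht).2.2

theorem Polar_pf :
    PPolar.{v} := by
  intro A _ x δ h1 h2 hδ
  obtain ⟨q, q', -, s2, e1, e2, e3, n1, -⟩ := Sqrt_pf (star x * x) δ (by simp) h1 hδ
  obtain ⟨p, p', -, -, f1, f2, -, -, -⟩ := Sqrt_pf (x * star x) δ (by simp) h2 hδ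
  have u1 : star (x * q') * (x * q') = 1 := by
    rw [star_mul, s2, mul_assoc, ← mul_assoc (star x), ← e1, mul_assoc q, e2, mul_one, e3]
  have u2 : x * q' * (q * star x * p' * p') = 1 := by
    rw [show x * q' * (q * star x * p' * p') = x * (q' * q) * star x * p' * p' by
      simp only [mul_assoc], e3, mul_one, ← f1, mul_assoc p, f2, mul_one, f2]
  have u3 : x * q' * star (x * q') = 1 := by rw [left_inv_eq_right_inv u1 u2, u2]
  refine ⟨⟨x * q', u1, u3⟩, ?_⟩
  have e : x * q' - x = x * q' * (1 - q) := by rw [mul_sub, mul_one, mul_assoc, e3, mul_one]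
  have n2 := CStarRing.norm_coe_unitary_mul (⟨x * q', u1, u3⟩ : unitary A) (1 - q)
  change ‖x * q' - x‖ ≤ δ
  rw [e]
  exact n2.trans_le (by rwa [norm_sub_rev])

end Pool.Agent.MP_890ef7_an.KK

end

section

open scoped InnerProductSpace ComplexOrder
open Filter Topology

namespace Pool.Agent.MP_890ef7_an.KK

universe v w

namespace StepJ

theorem conj_le {E : Type v} [NormedRing E] (h1 : ‖(1 : E)‖ ≤ 1) {k u p : E} (hk : ‖k‖ ≤ 1 / 2)
    (hu : (1 - k) * u = 1) :
    ‖(1 - k) * p * u - (p + (p * k - k * p))‖ ≤ 4 * ‖p‖ * ‖k‖ ^ 2 := by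
  have e1 : u - 1 = k * u := by
    rw [sub_mul, one_mul] at hu
    rw [← hu, sub_sub_cancel]
  have n0 := norm_nonneg u
  have n1 : ‖u - 1‖ ≤ ‖k‖ * ‖u‖ := by
    rw [e1]
    exact norm_mul_le _ _
  have n2 : ‖u‖ ≤ 2 := by
    have := norm_sub_norm_le u 1
    nlinarith
  have n3 : ‖u - 1‖ ≤ ‖k‖ * 2 := n1.trans (mul_le_mul_of_nonneg_left n2 (norm_nonneg _))
  have n4 : ‖p * k - k * p‖ ≤ 2 * ‖p‖ * ‖k‖ := by
    have := norm_sub_le (p * k) (k * p)
    have := norm_mul_le p k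
    have := norm_mul_le k p
    linarith
  have e2 : (1 - k) * p * u - (p + (p * k - k * p)) =
      (p * k - k * p) * (u - 1) + p * ((1 - k) * u - 1) := by noncomm_ring
  rw [e2, hu, sub_self, mul_zero, add_zero]
  exact (norm_mul_le_of_le n4 n3).trans_eq (by ring)

end StepJ

open StepJ in
theorem Step_pf (hMkCore : PMkCore.{v}) (hNewton : PNewton.{v}) :
    PStep.{v} := by
  intro A B K Γ _ _ _ _ _ _ S γ₀ D T j ρ h0 h1 hE hC hp P η e0 e1 hP hA
  obtain ⟨a1, a2, a3, a4⟩ := hA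
  obtain ⟨D', d1, d2⟩ := hMkCore D P (10 ^ 7 * γ₀) (by linarith) hP a1
  have hΦ : ∀ x y, ‖D'.Φ x y‖ ≤ η * ‖x‖ * ‖y‖ := fun x y => by
    rw [Pre.Φ, d1]
    exact a4 x y
  obtain ⟨k, k1, k2, k3, k4, k5⟩ := hNewton ⟨D', by positivity, by linarith, e0, hΦ⟩ T j ρ hE
    (fun g => ⟨by
      show D'.π _ = _
      rw [d1, (hC g).1, a2, Units.mul_inv_cancel_right], by
      show D'.π' _ = _
      rw [d2, (hC g).2, a3, Units.mul_inv_cancel_right]⟩) hp
  have n1 : ‖(1 : K →L[ℂ] K)‖ ≤ 1 := ContinuousLinearMap.norm_id_le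
  have n2 : ‖(P : K →L[ℂ] K)‖ ≤ 2 := by linarith [norm_sub_norm_le (P : K →L[ℂ] K) 1]
  have hk : ‖k‖ < 1 := by linarith
  have hv : ((Units.oneSub k hk * P : (K →L[ℂ] K)ˣ) : K →L[ℂ] K) = (1 - k) * P := rfl
  refine ⟨Units.oneSub k hk * P, ?_, ?_, fun g => ?_, fun g => ?_, fun x y => ?_⟩
  · rw [hv, sub_mul, one_mul, sub_sub_cancel_left, norm_neg]
    exact (norm_mul_le_of_le k1 n2).trans_eq (by ring)
  · rw [hv, mul_apply_eq_comp, a1, sub_apply, k2, sub_zero]
    rfl
  · rw [hv, mul_assoc, a2, ← mul_assoc, ← mul_assoc, sub_mul, mul_sub, k3, one_mul, mul_one]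
  · rw [hv, mul_assoc, a3, ← mul_assoc, ← mul_assoc, sub_mul, mul_sub, k4, one_mul, mul_one]
  · have hq : ((Units.oneSub k hk * P : (K →L[ℂ] K)ˣ) : K →L[ℂ] K) * D.π x *
        ↑(Units.oneSub k hk * P)⁻¹ = (1 - k) * D'.π x * ↑(Units.oneSub k hk)⁻¹ := by
      rw [hv, mul_inv_rev, Units.val_mul, d1]
      simp only [mul_assoc]
    have c1 := conj_le n1 (k := k) (p := D'.π x) (by linarith) (Units.oneSub k hk).mul_inv
    rw [hq]
    generalize (1 - k) * D'.π x * ↑(Units.oneSub k hk)⁻¹ = q at c1 ⊢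
    have c2 : ‖q - (D'.π x + (D'.π x * k - k * D'.π x))‖ ≤ η / 8 * ‖x‖ := by
      have b1 : ‖k‖ ^ 2 ≤ η / 64 := by nlinarith [norm_nonneg k]
      have b2 := mul_le_mul (D'.norm_π x) b1 (by positivity) (by positivity)
      linarith
    have c3 : q (S.hat y) - S.R y (q S.ξ) = D'.Φ x y + D'.Ψ k x y +
        ((q - (D'.π x + (D'.π x * k - k * D'.π x))) (S.hat y) -
          S.R y ((q - (D'.π x + (D'.π x * k - k * D'.π x))) S.ξ)) := by
      simp only [Pre.Φ, Pre.Ψ, sub_apply, add_apply,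
        mul_apply_eq_comp, map_sub, map_add]
      abel
    have c4 : ‖D'.Φ x y + D'.Ψ k x y‖ ≤ 10 ^ 9 * (γ₀ + 4 * (10 ^ 7 * γ₀)) * η * ‖x‖ * ‖y‖ := k5 x y
    rw [c3]
    generalize q - (D'.π x + (D'.π x * k - k * D'.π x)) = r at c2
    have c5 := (r.le_opNorm (S.hat y)).trans
      (mul_le_mul c2 (S.norm_hat_le y) (norm_nonneg _) (by positivity))
    have c6 : ‖r S.ξ‖ ≤ η / 8 * ‖x‖ := by
      have := r.le_opNorm S.ξ
      rw [S.norm_ξ, mul_one] at this
      exact this.trans c2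
    have c7 := (S.norm_R_apply y (r S.ξ)).trans (mul_le_mul_of_nonneg_left c6 (norm_nonneg _))
    have c8 : 10 ^ 9 * (γ₀ + 4 * (10 ^ 7 * γ₀)) * (η * ‖x‖ * ‖y‖) ≤ 1 / 4 * (η * ‖x‖ * ‖y‖) :=
      mul_le_mul_of_nonneg_right (by linarith) (by positivity)
    have c9 := norm_sub_le (r (S.hat y)) (S.R y (r S.ξ))
    refine (norm_add_le _ _).trans ?_
    linarith

end Pool.Agent.MP_890ef7_an.KK

end

section

open scoped InnerProductSpace ComplexOrder
open Filter Topology

namespace Pool.Agent.MP_890ef7_an.KK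

universe v w

namespace SubJ

variable {A K : Type v} [CStarAlgebra A] [NormedAddCommGroup K] [InnerProductSpace ℂ K]
  [CompleteSpace K] (S : Std A K)

theorem tr {p : A} (hp : IsStarProjection p) : S.τ p = ((‖S.hat p‖ ^ 2 : ℝ) : ℂ) := by
  rw [← S.τ_star_mul_self, hp.2.star_eq, hp.1.eq]

theorem nn {p : A} (hp : IsStarProjection p) : 0 ≤ (S.τ p).re := by
  rw [tr S hp, Complex.ofReal_re]
  positivity

theorem pos {p : A} (hp : IsStarProjection p) (h : p ≠ 0) : 0 < (S.τ p).re := by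
  rw [tr S hp, Complex.ofReal_re]
  exact pow_pos (norm_pos_iff.2 fun e => h (S.hat_eq_zero e)) 2

theorem small (hD : IsDiffuse A) {p : A} (hp : IsStarProjection p) (h : p ≠ 0) (n : ℕ) :
    ∃ q, IsStarProjection q ∧ p * q = q ∧ q ≠ 0 ∧ (S.τ q).re ≤ (S.τ p).re * (1 / 2) ^ n := by
  induction n with
  | zero => exact ⟨p, hp, hp.1.eq, h, by simp⟩
  | succ n ih =>
    obtain ⟨q, h1, h2, h3, h4⟩ := ih
    obtain ⟨r, a1, a2, a3, a4⟩ := hD q h1 h3
    have a5 : p * r = r := by rw [← a2, ← mul_assoc, h2]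
    rcases le_total (2 * (S.τ r).re) (S.τ q).re with h5 | h5
    · exact ⟨r, a1, a5, a3, by rw [pow_succ]; linarith⟩
    · refine ⟨q - r, a1.sub_of_mul_eq_right h1 a2, by rw [mul_sub, h2, a5],
        sub_ne_zero.2 a4.symm, ?_⟩
      rw [map_sub, Complex.sub_re, pow_succ]
      linarith

end SubJ

open SubJ in
theorem Sub_pf (hBB : PBB.{v}) (hPlim : PPlim.{v}) :
    PSub.{v} := by
  intro A K _ _ _ _ S hD p hp t h0 ht
  obtain ⟨⟨q, h1, h2, h3⟩, -, hm⟩ := hBB
    (X := {q : A // IsStarProjection q ∧ p * q = q ∧ (S.τ q).re ≤ t})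
    (fun x y => y.1 * x.1 = x.1) (fun x => (S.τ x.1).re) t ⟨0, .zero A, by simp, by simpa⟩
    (fun x => x.2.1.1.eq) (fun x y z a b => by rw [← a, ← mul_assoc, b])
    (fun x y a => by
      have := nn S (x.2.1.sub_of_mul_eq_right y.2.1 a)
      rw [map_sub, Complex.sub_re] at this
      linarith)
    (fun x => x.2.2.2)
    (fun s hs => by
      have e : ∀ n, star (s n).1 = (s n).1 := fun n => (s n).2.1.2.star_eq
      have e' : ∀ n, (s n).1 * (s n).1 = (s n).1 := fun n => (s n).2.1.1.eq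
      obtain ⟨w, -, b, c⟩ := hPlim S (fun n => (s n).1) (fun n => by simp only [e, e'])
        fun n => by simp only [e, e', hs n]
      simp only [e, e'] at b
      refine ⟨⟨w, ⟨S.hat_injective (tendsto_nhds_unique ?_ c),
        S.hat_injective (tendsto_nhds_unique ?_ c)⟩, S.hat_injective (tendsto_nhds_unique ?_ c),
        ?_⟩, b⟩
      · simpa only [e'] using S.tendsto_hat_mul
          (.of_forall fun n => IsStarProjection.norm_le _ (s n).2.1) c c
      · simpa only [e] using S.tendsto_hat_star c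
      · rw [← S.L_hat]
        exact (((S.L p).continuous.tendsto _).comp c).congr fun n => by
          rw [Function.comp, S.L_hat, (s n).2.2.1]
      · exact le_of_tendsto' ((Complex.continuous_re.tendsto _).comp
          (tendsto_const_nhds.inner (𝕜 := ℂ) c)) fun n => (s n).2.2.2)
  refine ⟨q, h1, h2, ?_⟩
  have h4 : (S.τ q).re = t := by
    refine h3.eq_or_lt.resolve_right fun h => ?_
    have b1 := h1.sub_of_mul_eq_right hp h2
    have b2 : p - q ≠ 0 := fun e => by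
      rw [sub_eq_zero.1 e] at ht
      linarith
    have b3 := pos S b1 b2
    obtain ⟨n, hn⟩ := exists_pow_lt_of_lt_one (div_pos (sub_pos.2 h) b3) (one_half_lt_one (α := ℝ))
    rw [lt_div_iff₀' b3] at hn
    obtain ⟨r, a1, a2, a3, a4⟩ := small S hD b1 b2 n
    have a5 : q * p = q := by simpa [h1.2.star_eq, hp.2.star_eq] using congrArg star h2
    have a6 : q * r = 0 := by rw [← a2, ← mul_assoc, mul_sub, a5, h1.1.eq, sub_self, zero_mul]
    have a7 : r * q = 0 := by simpa [h1.2.star_eq, a1.2.star_eq] using congrArg star a6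
    have a8 : p * r = r := by rwa [sub_mul, a6, sub_zero] at a2
    have a9 := hm ⟨q + r, h1.add a1 a6, by rw [mul_add, h2, a8], by
      rw [map_add, Complex.add_re]
      linarith⟩ (by simp only [add_mul, h1.1.eq, a7, add_zero])
    simp only [map_add, Complex.add_re] at a9
    linarith [pos S a1 a3]
  rw [← h4, tr S h1, Complex.ofReal_re]

end Pool.Agent.MP_890ef7_an.KK

end

section

open scoped InnerProductSpace ComplexOrder
open Filter Topology

namespace Pool.Agent.MP_890ef7_an.KK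

universe v w

namespace TruncJ

variable {A K : Type v} [CStarAlgebra A] [NormedAddCommGroup K] [InnerProductSpace ℂ K]
  [CompleteSpace K] (S : Std A K)

theorem sq_cfc {b : A} (f : ℝ → ℝ) (hf : Continuous f) :
    star (cfc f b) * cfc f b = cfc (fun l => f l * f l) b := by
  rw [(cfc_predicate f b).star_eq, cfc_mul f f b]

theorem sq_mul {a : A} (f : ℝ → ℝ) (hf : Continuous f) :
    star (a * cfc f (star a * a)) * (a * cfc f (star a * a)) =
      cfc (fun l => f l * l * f l) (star a * a) := by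
  have hb : IsSelfAdjoint (star a * a) := IsSelfAdjoint.star_mul_self a
  rw [star_mul, (cfc_predicate f (star a * a)).star_eq, cfc_mul (fun l => f l * l) f _,
    cfc_mul f (fun l => l) _, cfc_id' ℝ (star a * a)]
  noncomm_ring

theorem cmp {b z w : A} {g₁ g₂ : ℝ → ℝ} {t : ℝ} (h₁ : Continuous g₁)
    (h₂ : Continuous g₂) (hz : star z * z = cfc g₁ b) (hw : star w * w = cfc g₂ b)
    (h : ∀ l ∈ spectrum ℝ b, t ^ 2 * g₁ l ≤ g₂ l) : t * ‖S.hat z‖ ≤ ‖S.hat w‖ := by
  have e1 := sq_cfc (b := b) (fun l => √(g₂ l - t ^ 2 * g₁ l)) (by fun_prop)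
  have e2 : cfc (fun l => √(g₂ l - t ^ 2 * g₁ l) * √(g₂ l - t ^ 2 * g₁ l)) b =
      star w * w - ((t ^ 2 : ℝ) : ℂ) • (star z * z) := by
    rw [cfc_congr (g := fun l => g₂ l - t ^ 2 * g₁ l)
      fun l hl => Real.mul_self_sqrt (sub_nonneg.2 (h l hl)), cfc_sub g₂ (fun l => t ^ 2 * g₁ l) b,
      cfc_const_mul (t ^ 2) g₁ b, hz, hw, Complex.coe_smul]
  have e3 := S.norm_hat_sq (cfc (fun l => √(g₂ l - t ^ 2 * g₁ l)) b)
  rw [e1, e2, map_sub, map_smul, Complex.sub_re, smul_eq_mul, Complex.re_ofReal_mul,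
    ← S.norm_hat_sq, ← S.norm_hat_sq] at e3
  refine le_trans (le_abs_self _) (abs_le_of_sq_le_sq' ?_ (norm_nonneg _) |> fun h => abs_le.2 h)
  rw [mul_pow]
  linarith [sq_nonneg ‖S.hat (cfc (fun l => √(g₂ l - t ^ 2 * g₁ l)) b)‖]

end TruncJ

open TruncJ in
theorem Trunc_pf :
    PTrunc.{v} := by
  intro A K _ _ _ _ S Q hQ a ha t ht
  have hb : IsSelfAdjoint (star a * a) := IsSelfAdjoint.star_mul_self a
  have hm : ∀ l : ℝ, t ≤ √(max l (t ^ 2)) := fun l => Real.le_sqrt_of_sq_le (le_max_right _ _)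
  have hm0 : ∀ l : ℝ, 0 < √(max l (t ^ 2)) := fun l => ht.trans_le (hm l)
  obtain ⟨g, hg⟩ : ∃ g : ℝ → ℝ, g = fun l => t / √(max l (t ^ 2)) := ⟨_, rfl⟩
  have gc : Continuous g := by
    rw [hg]
    exact continuous_const.div (by fun_prop) fun l => (hm0 l).ne'
  have g0 : ∀ l, 0 ≤ g l := fun l => by
    rw [hg]
    exact div_nonneg ht.le (hm0 l).le
  have g1 : ∀ l, g l ≤ 1 := fun l => by
    rw [hg]
    exact (div_le_one (hm0 l)).2 (hm l)
  have g2 : ∀ l, l ≤ t ^ 2 → g l = 1 := fun l hl => by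
    rw [hg]
    beta_reduce
    rw [max_eq_right hl, Real.sqrt_sq ht.le, div_self ht.ne']
  have g3 : ∀ l, g l * l * g l ≤ t ^ 2 := fun l => by
    rcases le_total l (t ^ 2) with hl | hl
    · rwa [g2 l hl, one_mul, mul_one]
    · have h0 : 0 < l := lt_of_lt_of_le (by positivity) hl
      have h1 := Real.mul_self_sqrt h0.le
      have h2 := Real.sqrt_pos.2 h0
      rw [hg]
      beta_reduce
      rw [max_eq_left hl]
      refine le_of_eq ?_
      field_simp
      rw [sq, h1]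
  have fc : Continuous fun l => 1 - g l := by fun_prop
  refine ⟨cfc (fun l => 1 - g l) (star a * a), cfc_mem (𝕜' := ℂ) _ (mul_mem (star_mem ha) ha),
    norm_cfc_le zero_le_one fun l _ => ?_, ?_, ?_, ?_⟩
  · rw [Real.norm_eq_abs, abs_le]
    constructor <;> linarith [g0 l, g1 l]
  · have e : a - a * cfc (fun l => 1 - g l) (star a * a) = a * cfc g (star a * a) := by
      rw [cfc_sub (fun _ => 1) g _, cfc_const_one ℝ (star a * a), mul_sub, mul_one, sub_sub_cancel]
    rw [e]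
    refine abs_le_of_sq_le_sq' ?_ ht.le |>.2
    rw [sq, ← CStarRing.norm_star_mul_self, sq_mul g gc]
    refine norm_cfc_le (by positivity) fun l hl => ?_
    have h0 := spectrum_star_mul_self_nonneg l hl
    rw [Real.norm_eq_abs, abs_of_nonneg (mul_nonneg (mul_nonneg (g0 l) h0) (g0 l))]
    exact g3 l
  · refine cmp S (by fun_prop) (by fun_prop) (sq_cfc _ fc) (sq_mul _ fc) fun l _ => ?_
    rcases le_total l (t ^ 2) with hl | hl
    · simp [g2 l hl]
    · nlinarith [mul_self_nonneg (1 - g l)]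
  · have e := sq_cfc (b := star a * a) (fun l => l) continuous_id
    rw [cfc_id' ℝ (star a * a)] at e
    refine cmp S (by fun_prop) (by fun_prop) (sq_mul _ fc) e fun l _ => ?_
    rcases le_total l (t ^ 2) with hl | hl
    · rw [g2 l hl, sub_self, mul_zero, mul_zero]
      exact mul_self_nonneg l
    · have h0 : 0 ≤ l := le_trans (by positivity) hl
      have h1 : (1 - g l) * (1 - g l) ≤ 1 :=
        mul_le_one₀ (by linarith [g0 l]) (by linarith [g1 l]) (by linarith [g0 l])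
      calc t ^ 2 * ((1 - g l) * l * (1 - g l)) = t ^ 2 * l * ((1 - g l) * (1 - g l)) := by ring
        _ ≤ t ^ 2 * l := mul_le_of_le_one_right (by positivity) h1
        _ ≤ l * l := mul_le_mul_of_nonneg_right hl h0

end Pool.Agent.MP_890ef7_an.KK

end

section

open scoped InnerProductSpace ComplexOrder
open Filter Topology

namespace Pool.Agent.MP_890ef7_an.KK

universe v w

namespace UnitaryJ

variable {A B K K' : Type v} [CStarAlgebra A] [CStarAlgebra B] [NormedAddCommGroup K]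
  [InnerProductSpace ℂ K] [CompleteSpace K] [NormedAddCommGroup K'] [InnerProductSpace ℂ K']
  [CompleteSpace K'] (S : Std A K) (S' : Std B K')

theorem equiv (U : K ≃ₗᵢ[ℂ] K') (h1 : ∀ x, ∃ y, ∀ z, U (S.L x z) = S'.L y (U z))
    (h2 : ∀ y, ∃ x, ∀ z, U (S.L x z) = S'.L y (U z)) :
    ∃ θ : A ≃⋆ₐ[ℂ] B, ∀ x z, U (S.L x z) = S'.L (θ x) (U z) := by
  choose θ hθ using h1
  have u : ∀ x y, (∀ z, U (S.L x z) = S'.L y (U z)) → θ x = y := fun x y h =>
    S'.L_injective (ContinuousLinearMap.ext fun w => by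
      obtain ⟨z, rfl⟩ := U.surjective w
      rw [← hθ, h])
  let f : A →⋆ₐ[ℂ] B :=
    { toFun := θ
      map_one' := u _ _ fun z => by simp
      map_mul' := fun a b => u _ _ fun z => by rw [S.L_mul_apply, S'.L_mul_apply, hθ, hθ]
      map_zero' := u _ _ fun z => by simp
      map_add' := fun a b => u _ _ fun z => by simp [hθ]
      commutes' := fun c => u _ _ fun z => by simp [Algebra.algebraMap_eq_smul_one]
      map_star' := fun a => u _ _ fun z => ext_inner_left ℂ fun w => by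
        obtain ⟨w, rfl⟩ := U.surjective w
        rw [U.inner_map_map, ← S.inner_L, ← S'.inner_L, ← hθ, U.inner_map_map] }
  refine ⟨StarAlgEquiv.ofBijective f ⟨fun a b e => ?_, fun y => ?_⟩, hθ⟩
  · have e' : θ a = θ b := e
    exact S.L_injective (ContinuousLinearMap.ext fun z => U.injective (by rw [hθ, hθ, e']))
  · obtain ⟨x, hx⟩ := h2 y
    exact ⟨x, u x y hx⟩

end UnitaryJ

theorem Unitary_pf (hSqrt : PSqrt.{v}) (hNorml : PNorml.{v}) :
    PUnitary.{v} := by
  intro A B K K' _ _ _ _ _ _ _ _ S S' E hE h1 h2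
  obtain ⟨a, ha⟩ : ∃ a : K →L[ℂ] K, a = (E : K →L[ℂ] K').adjoint ∘L (E : K →L[ℂ] K') := ⟨_, rfl⟩
  have ia : ∀ w z, ⟪w, a z⟫_ℂ = ⟪E w, E z⟫_ℂ := fun w z => by
    rw [ha, ContinuousLinearMap.comp_apply, ContinuousLinearMap.adjoint_inner_right]
    rfl
  have sa : star a = a := by
    rw [ha, ContinuousLinearMap.star_eq_adjoint, ContinuousLinearMap.adjoint_comp,
      ContinuousLinearMap.adjoint_adjoint]
  rw [← ha] at hE
  obtain ⟨q, q', s1, s2, e1, e2, e3, n1, n2⟩ := hSqrt a (1 / 100) sa hE (by norm_num)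
  obtain ⟨N1, N2⟩ := hNorml S a q q' s1 s2 e1 e2 e3 n1 (by linarith) fun x => by
    obtain ⟨y, hy⟩ := h1 (star x)
    obtain ⟨x', hx'⟩ := h2 (star y)
    refine ⟨x', ContinuousLinearMap.ext fun z => ext_inner_left ℂ fun w => ?_⟩
    have := S.inner_L (star x) w (a z)
    rw [star_star] at this
    rw [ContinuousLinearMap.mul_apply, ContinuousLinearMap.mul_apply, ← this, ia, ia, hy, hx',
      S'.inner_L]
  have p2 : ∀ z, q (q' z) = z := fun z => congrArg (fun T : K →L[ℂ] K => T z) e2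
  have p3 : ∀ z, q' (q z) = z := fun z => congrArg (fun T : K →L[ℂ] K => T z) e3
  have hi : ∀ z w, ⟪E (q' z), E (q' w)⟫_ℂ = ⟪z, w⟫_ℂ := fun z w => by
    rw [← ia, ← e1, ContinuousLinearMap.mul_apply, p2, ← ContinuousLinearMap.adjoint_inner_right,
      ← ContinuousLinearMap.star_eq_adjoint, s2, p3]
  let U₀ : K →ₗᵢ[ℂ] K' := LinearMap.isometryOfInner
    ((E : K →L[ℂ] K') ∘L q' : K →L[ℂ] K').toLinearMap hi
  let U : K ≃ₗᵢ[ℂ] K' := LinearIsometryEquiv.ofSurjective U₀ fun w =>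
    ⟨q (E.symm w), by
      show E (q' (q (E.symm w))) = w
      rw [p3, E.apply_symm_apply]⟩
  have hU : ∀ z, U z = E (q' z) := fun _ => rfl
  obtain ⟨θ, hθ⟩ := UnitaryJ.equiv S S' U (fun x => by
    obtain ⟨x', hx'⟩ := N1 x
    obtain ⟨y, hy⟩ := h1 x'
    refine ⟨y, fun z => ?_⟩
    rw [hU, hU, ← hy, ← hx', ContinuousLinearMap.mul_apply, ContinuousLinearMap.mul_apply, p2])
    fun y => by
      obtain ⟨x, hx⟩ := h2 y
      obtain ⟨x', hx'⟩ := N2 x
      refine ⟨x', fun z => ?_⟩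
      rw [hU, hU, ← hx, ← hx', ContinuousLinearMap.mul_apply, ContinuousLinearMap.mul_apply, p3]
  exact ⟨θ, U, hθ⟩

end Pool.Agent.MP_890ef7_an.KK

end

section

/-! The main theorem. -/

namespace Pool.Agent.MP_890ef7_an.KK

universe v

theorem main {H : Type v} [NormedAddCommGroup H] [InnerProductSpace ℂ H] [CompleteSpace H]
    (M N : VonNeumannAlgebra H) (hM : IsII1 M) (hN : IsII1 N) (hT : HasT.{v, v} M)
    (hd : kkDist M N < 1 / 10 ^ 23) : HasT.{v, v} N := by
  have gp : PGP.{v} := GP_pf Trunc_pf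
  have ws : PWstar.{v} := Wstar_pf gp
  have wl : PWlim.{v} := Wlim_pf ws
  have rg : PRange.{v} := Range_pf ws
  have lk : PLink.{v} := Link_pf ws rg
  have l2 : PL2.{v} := L2_pf Trunc_pf L2a_pf
  have gd : PGood.{v} := Good_pf gp
  have nw : PNewton.{v} := Newton_pf
    (Elim_pf gd (Rel_pf gd Mart_pf Unit_pf Polz_pf (Shape_pf gd))) (Corner_pf gd Four_pf)
    (Spread_pf gd Modul_pf) (Avg_pf Conj_pf Fix_pf l2)
  exact main_of (Comp_pf BB_pf Plim_pf lk) (Sub_pf BB_pf Plim_pf)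
    (Popa_pf (Ext_pf (Median_pf rg) NiceStep_pf))
    (Common_pf Polar_pf (Kaz_pf (KazStep_pf wl Polar_pf)) (ErgOf_pf wl)) (S1_pf Form_pf)
    (S2a_pf Fix_pf l2 Form_pf) S2b_pf (Iter_pf (Step_pf MkCore_pf nw) MkCore_pf ws) Onto_pf
    (Unitary_pf Sqrt_pf (Norml_pf Sq_pf)) (Gns_pf Gns0_pf)
    (Sep_pf (Sep2_pf (SepF_pf (Sep1_pf gp))) Sep3_pf Sep4_pf Bimod_pf) (Transfer_pf Bimod_pf)
    M N hM hN hT hd

end Pool.Agent.MP_890ef7_an.KK

end
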