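import Mathlib
import Pool.Agent.Mg.F890ef7p.G7e54e1
import Pool.Agent.MP_890ef7_an.H1Stmt
import Pool.Agent.MP_890ef7_an.Amp

section

/-! Ultralimits of families of vectors and operators; the exact gap for bounded cocycles. -/

open scoped InnerProductSpace ComplexOrder ComplexConjugate
open Filter Topology

namespace Pool.Agent.MP_890ef7_an

universe u w

section lim
variable {X : Type u} {K : ℕ → Type w} [∀ n, NormedAddCommGroup (K n)]
  [∀ n, InnerProductSpace ℂ (K n)] {E : Type u} [NormedAddCommGroup E] [InnerProductSpace ℂ E]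

/-- `v` is the limit of the families `ξ n` along `U`. -/
structure IsLim (U : Ultrafilter ℕ) (ξ : ∀ n, X → K n) (v : X → E) : Prop where
  bdd : ∀ x, ∃ C : ℝ, ∀ᶠ n in (U : Filter ℕ), ‖ξ n x‖ ≤ C
  inn : ∀ x y, Tendsto (fun n => ⟪ξ n x, ξ n y⟫_ℂ) U (𝓝 ⟪v x, v y⟫_ℂ)
  dense : DenseRange (Finsupp.linearCombination ℂ v)

theorem exists_isLim (U : Ultrafilter ℕ) (ξ : ∀ n, X → K n)
    (hb : ∀ x, ∃ C : ℝ, ∀ᶠ n in (U : Filter ℕ), ‖ξ n x‖ ≤ C) :
    ∃ (E : Type u) (_ : NormedAddCommGroup E) (_ : InnerProductSpace ℂ E) (_ : CompleteSpace E)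
      (v : X → E), IsLim U ξ v := by
  have hlim : ∀ p q, ∃ z, Tendsto (fun n => ⟪ξ n p, ξ n q⟫_ℂ) U (𝓝 z) := fun p q => by
    obtain ⟨B, hB⟩ := hb p
    obtain ⟨B', hB'⟩ := hb q
    refine exists_ulim U _ (C := B * B') ?_
    filter_upwards [hB, hB'] with n h1 h2
    exact (norm_inner_le_norm _ _).trans
      (mul_le_mul h1 h2 (norm_nonneg _) ((norm_nonneg _).trans h1))
  choose k hk using hlim
  obtain ⟨F, _, _, _, v, hv, hd⟩ := exists_kolm k
    (posSemidef_of_tendsto (l := U) _ k (Eventually.of_forall fun n => psd_gram (ξ n)) hk)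
  exact ⟨F, _, _, inferInstance, v, hb, fun x y => by rw [hv]; exact hk x y, hd⟩

variable {U : Ultrafilter ℕ} {ξ : ∀ n, X → K n} {v : X → E}

theorem IsLim.norm_sum (h : IsLim U ξ v) {ι : Type*} (s : Finset ι) (c : ι → ℂ) (p : ι → X) :
    Tendsto (fun n => ‖∑ i ∈ s, c i • ξ n (p i)‖) U (𝓝 ‖∑ i ∈ s, c i • v (p i)‖) := by
  simp only [norm_eq_sqrt_re_inner (𝕜 := ℂ), sum_inner, inner_sum, inner_smul_left,
    inner_smul_right]
  refine (Real.continuous_sqrt.tendsto _).comp ((RCLike.continuous_re.tendsto _).comp ?_)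
  exact tendsto_finsetSum _ fun x _ => (tendsto_finsetSum _ fun y _ =>
    (h.inn _ _).const_mul _).const_mul _

theorem IsLim.eq_of (h : IsLim U ξ v) {p q r : X} {a b : ℂ}
    (h0 : Tendsto (fun n => ‖ξ n p - (a • ξ n q + b • ξ n r)‖) U (𝓝 0)) :
    v p = a • v q + b • v r := by
  have h1 := h.norm_sum Finset.univ ![1, -a, -b] ![p, q, r]
  simp only [Fin.sum_univ_three, Matrix.cons_val_zero, Matrix.cons_val_one, Matrix.cons_val,
    one_smul, neg_smul] at h1
  have h2 : ‖v p + -(a • v q) + -(b • v r)‖ = 0 :=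
    tendsto_nhds_unique h1 (h0.congr fun n => by congr 1; abel)
  rw [norm_eq_zero] at h2
  rw [← sub_eq_zero, ← h2]
  abel

theorem IsLim.op [CompleteSpace E] (h : IsLim U ξ v) (T : ∀ n, K n →L[ℂ] K n) {C : ℝ}
    (hC : 0 ≤ C) (hT : ∀ n η, ‖T n η‖ ≤ C * ‖η‖) (φ : X → X)
    (hφ : ∀ p, Tendsto (fun n => ‖ξ n (φ p) - T n (ξ n p)‖) U (𝓝 0)) :
    ∃ S : E →L[ℂ] E, ∀ p, S (v p) = v (φ p) := by
  obtain ⟨S, -, hS⟩ := exists_clm_of_bound v h.dense (fun p => v (φ p)) hC fun f => by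
    simp only [Finsupp.linearCombination_apply, Finsupp.sum]
    have h1 := h.norm_sum f.support f φ
    have h2 := (h.norm_sum f.support f id).const_mul C
    have h3 : Tendsto (fun n => ∑ p ∈ f.support, ‖f p‖ * ‖ξ n (φ p) - T n (ξ n p)‖) U (𝓝 0) := by
      have := tendsto_finsetSum f.support fun p _ => (hφ p).const_mul ‖f p‖
      simpa using this
    have h4 := h2.add h3
    rw [add_zero] at h4
    refine le_of_tendsto_of_tendsto' h1 h4 fun n => ?_
    have e : ∑ p ∈ f.support, f p • ξ n (φ p) = T n (∑ p ∈ f.support, f p • ξ n (id p)) +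
        ∑ p ∈ f.support, f p • (ξ n (φ p) - T n (ξ n p)) := by
      simp only [map_sum, map_smul, id, smul_sub, Finset.sum_sub_distrib]
      abel
    rw [e]
    refine (norm_add_le _ _).trans (add_le_add (hT n _) ((norm_sum_le _ _).trans_eq ?_))
    simp only [norm_smul]
  exact ⟨S, hS⟩

theorem IsLim.adj (h : IsLim U ξ v) (T T' : ∀ n, K n →L[ℂ] K n)
    (hT : ∀ n η θ, ⟪T' n η, θ⟫_ℂ = ⟪η, T n θ⟫_ℂ) (φ φ' : X → X)
    (hφ : ∀ p, Tendsto (fun n => ‖ξ n (φ p) - T n (ξ n p)‖) U (𝓝 0))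
    (hφ' : ∀ p, Tendsto (fun n => ‖ξ n (φ' p) - T' n (ξ n p)‖) U (𝓝 0)) (p q : X) :
    ⟪v q, v (φ p)⟫_ℂ = ⟪v (φ' q), v p⟫_ℂ := by
  obtain ⟨Cp, hp⟩ := h.bdd p
  obtain ⟨Cq, hq⟩ := h.bdd q
  have h1 := (h.inn q (φ p)).sub (h.inn (φ' q) p)
  have h2 := ((hφ p).const_mul Cq).add ((hφ' q).mul_const Cp)
  rw [mul_zero, zero_mul, add_zero] at h2
  refine sub_eq_zero.1 (tendsto_nhds_unique h1 (squeeze_zero_norm' ?_ h2))
  filter_upwards [hp, hq] with n h3 h4
  have e : ⟪ξ n q, ξ n (φ p)⟫_ℂ - ⟪ξ n (φ' q), ξ n p⟫_ℂ =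
      ⟪ξ n q, ξ n (φ p) - T n (ξ n p)⟫_ℂ - ⟪ξ n (φ' q) - T' n (ξ n q), ξ n p⟫_ℂ := by
    rw [inner_sub_right, inner_sub_left, hT]; ring
  rw [e]
  refine (norm_sub_le _ _).trans (add_le_add ((norm_inner_le_norm _ _).trans ?_)
    ((norm_inner_le_norm _ _).trans ?_)) <;> gcongr

end lim

variable {Γ : Type*} [Group Γ] {ι : Type*} [Fintype ι] [Nonempty ι]

theorem exact_gap' (s : ι → Γ) (σ : ι ≃ ι)
    (hσ : ∀ i, s (σ i) = (s i)⁻¹) {E : Type*} [NormedAddCommGroup E] [InnerProductSpace ℂ E]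
    (β : Γ → E) (h1 : β 1 = 0) (hinv : ∀ p q, ‖β (p * q) - β p‖ = ‖β q‖)
    (hbd : ∃ C, ∀ g, ‖β g‖ ^ 2 ≤ C)
    (hle : en s β ≤ en s (step s β)) : en s (step s β) ≤ 0 := by
  have hN : (0 : ℝ) < Fintype.card ι := by exact_mod_cast Fintype.card_pos
  set N : ℝ := (Fintype.card ι : ℝ) with hNdef
  have hd : ∀ g p q, ‖β (g * p) - β (g * q)‖ = ‖β p - β q‖ := fun g p q => by
    have e1 := hinv (g * q) (q⁻¹ * p)
    have e2 := hinv q (q⁻¹ * p)
    rw [show g * q * (q⁻¹ * p) = g * p by group] at e1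
    rw [show q * (q⁻¹ * p) = p by group] at e2
    rw [e1, e2]
  have hre : ∀ g p q r t, (⟪β (g * p) - β (g * q), β (g * r) - β (g * t)⟫_ℂ).re =
      (⟪β p - β q, β r - β t⟫_ℂ).re := fun g p q r t => by
    simp only [re_inner_sub_sub, hd]
  let c : ℝ := (2 * N)⁻¹
  have hc : (2 * (Fintype.card ι : ℂ))⁻¹ = (c : ℂ) := by simp [c, N]
  let m : Γ → E := fun g => (c : ℂ) • ∑ i, (β (g * s i) - β g)
  have hm : ∀ g, step s β g = β g + m g := fun g => by
    have := step_sub s β g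
    rw [hc] at this
    simp only [m, ← this]; abel
  have hrem : ∀ (x : E) g, (⟪x, m g⟫_ℂ).re = c * ∑ i, (⟪x, β (g * s i) - β g⟫_ℂ).re :=
    fun x g => by
      simp only [m, inner_smul_right, inner_sum, Complex.re_ofReal_mul, Complex.re_sum]
  have hsym : ∀ x y : E, (⟪x, y⟫_ℂ).re = (⟪y, x⟫_ℂ).re := fun x y => by
    rw [← inner_conj_symm, Complex.conj_re]
  have hshift : ∀ g p q, (⟪β (g * p) - β (g * q), m g⟫_ℂ).re = (⟪β p - β q, m 1⟫_ℂ).re :=
    fun g p q => by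
      rw [hrem, hrem]
      congr 1
      refine Finset.sum_congr rfl fun i _ => ?_
      have := hre g p q (s i) 1
      simpa using this
  have hsq : ∀ x : E, ‖x‖ ^ 2 = (⟪x, x⟫_ℂ).re := fun x => by
    rw [← inner_self_eq_norm_sq (𝕜 := ℂ)]; rfl
  have hmn : ∀ g, ‖m g‖ ^ 2 = ‖m 1‖ ^ 2 := fun g => by
    rw [hsq, hsq, hrem, hrem]
    congr 1
    refine Finset.sum_congr rfl fun i _ => ?_
    rw [hsym, hsym (m 1)]
    have := hshift g (s i) 1
    simpa using this
  have hsum : ∑ i, (⟪β (s i), m 1⟫_ℂ).re = 2 * N * ‖m 1‖ ^ 2 := by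
    rw [hsq, hrem (m 1)]
    simp only [one_mul, h1, sub_zero]
    rw [← mul_assoc, show 2 * N * c = 1 by simp only [c]; field_simp, one_mul]
    exact Finset.sum_congr rfl fun i _ => hsym _ _
  have hsum' : ∑ i, (⟪β (s i), m (s i)⟫_ℂ).re = -(2 * N * ‖m 1‖ ^ 2) := by
    rw [← hsum, ← Equiv.sum_comp σ (fun i => (⟪β (s i), m 1⟫_ℂ).re), ← Finset.sum_neg_distrib]
    refine Finset.sum_congr rfl fun i _ => ?_
    have := hshift (s i) 1 (s i)⁻¹
    simpa [h1, hσ] using this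
  have hkey : en s (step s β) ≤ en s β - 4 * ‖m 1‖ ^ 2 := by
    have hi : ∀ i, ‖step s β (s i) - step s β 1‖ ^ 2 ≤ ‖β (s i) - β 1‖ ^ 2 +
        2 * (⟪β (s i), m (s i)⟫_ℂ).re - 2 * (⟪β (s i), m 1⟫_ℂ).re + 4 * ‖m 1‖ ^ 2 := fun i => by
      rw [hm, hm, h1, show β (s i) + m (s i) - (0 + m 1) = β (s i) + (m (s i) - m 1) by abel,
        @norm_add_sq ℂ, sub_zero, inner_sub_right]
      have h2 : ‖m (s i) - m 1‖ ≤ ‖m (s i)‖ + ‖m 1‖ := norm_sub_le _ _
      have h3 : ‖m (s i)‖ = ‖m 1‖ := by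
        have := hmn (s i)
        exact (pow_left_inj₀ (norm_nonneg _) (norm_nonneg _) two_ne_zero).1 this
      have h4 : ‖m (s i) - m 1‖ ^ 2 ≤ (2 * ‖m 1‖) ^ 2 := by
        gcongr; linarith
      simp only [map_sub, RCLike.re_to_complex]
      nlinarith
    have hs := Finset.sum_le_sum fun i (_ : i ∈ Finset.univ) => hi i
    simp only [Finset.sum_add_distrib, Finset.sum_sub_distrib, ← Finset.mul_sum, hsum, hsum',
      Finset.sum_const, Finset.card_univ, nsmul_eq_mul] at hs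
    unfold en
    rw [← hNdef] at hs ⊢
    calc N⁻¹ * ∑ i, ‖step s β (s i) - step s β 1‖ ^ 2
        ≤ N⁻¹ * (∑ i, ‖β (s i) - β 1‖ ^ 2 + 2 * -(2 * N * ‖m 1‖ ^ 2) - 2 * (2 * N * ‖m 1‖ ^ 2) +
          4 * (N * ‖m 1‖ ^ 2)) := by gcongr
      _ = _ := by field_simp; ring
  have hm0 : m 1 = 0 := by
    have : ‖m 1‖ ^ 2 ≤ 0 := by linarith
    exact norm_eq_zero.1 (pow_eq_zero_iff two_ne_zero |>.1 (le_antisymm this (by positivity)))
  have hharm : ∀ g, ∑ i, ‖β (g * s i)‖ ^ 2 = N * ‖β g‖ ^ 2 + ∑ i, ‖β (s i)‖ ^ 2 := fun g => by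
    have e : ∀ i, ‖β (g * s i)‖ ^ 2 =
        ‖β g‖ ^ 2 + ‖β (s i)‖ ^ 2 - 2 * (⟪β g⁻¹, β (s i)⟫_ℂ).re := fun i => by
      have e1 := hd g⁻¹ (g * s i) 1
      have e2 := hd g 1 g⁻¹
      simp only [inv_mul_cancel_left, mul_one, h1, sub_zero, mul_inv_cancel, zero_sub,
        norm_neg] at e1 e2
      rw [← e1, e2, norm_sub_rev, @norm_sub_sq ℂ]
      simp only [RCLike.re_to_complex]
      ring
    have e3 := hrem (β g⁻¹) 1
    simp only [hm0, inner_zero_right, Complex.zero_re, one_mul, h1, sub_zero] at e3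
    have hc0 : c ≠ 0 := by simp only [c]; positivity
    have e4 : ∑ i, (⟪β g⁻¹, β (s i)⟫_ℂ).re = 0 := by
      rcases mul_eq_zero.1 e3.symm with h | h
      · exact absurd h hc0
      · exact h
    simp only [e, Finset.sum_sub_distrib, Finset.sum_add_distrib, ← Finset.mul_sum, e4,
      Finset.sum_const, Finset.card_univ, nsmul_eq_mul]
    ring
  obtain ⟨C, hC⟩ := hbd
  have hbdd : BddAbove (Set.range fun g => ‖β g‖ ^ 2) := ⟨C, by rintro _ ⟨g, rfl⟩; exact hC g⟩
  set Z := ⨆ g, ‖β g‖ ^ 2 with hZ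
  have hZle : Z ≤ Z - N⁻¹ * ∑ i, ‖β (s i)‖ ^ 2 := by
    refine ciSup_le fun g => ?_
    have e1 : ∑ i, ‖β (g * s i)‖ ^ 2 ≤ N * Z := by
      calc ∑ i, ‖β (g * s i)‖ ^ 2 ≤ ∑ _i : ι, Z :=
            Finset.sum_le_sum fun i _ => le_ciSup hbdd (g * s i)
        _ = N * Z := by simp [N]
    rw [hharm] at e1
    have e2 : N⁻¹ * (N * ‖β g‖ ^ 2 + ∑ i, ‖β (s i)‖ ^ 2) ≤ N⁻¹ * (N * Z) := by gcongr
    rw [mul_add, ← mul_assoc, ← mul_assoc, inv_mul_cancel₀ hN.ne', one_mul, one_mul] at e2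
    linarith
  have : en s β ≤ 0 := by
    unfold en
    simp only [h1, sub_zero]
    linarith
  have := sq_nonneg ‖m 1‖
  linarith

end Pool.Agent.MP_890ef7_an

end

section

/-! Bundled form of the definitions and the comparison with the unbundled form. -/

namespace Pool.Agent.MP_890ef7_an

universe v

/-- Every derivation from `A` into a Hilbert space carrying commuting left and right unital star
actions of `B` is inner. -/
def DerInner {B : Type v} [Ring B] [StarRing B] [Algebra ℂ B] [StarModule ℂ B]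
    (A : StarSubalgebra ℂ B) : Prop :=
  ∀ (K : Type v) [NormedAddCommGroup K] [InnerProductSpace ℂ K] [CompleteSpace K]
    (L : B →⋆ₐ[ℂ] (K →L[ℂ] K)) (R : Bᵐᵒᵖ →⋆ₐ[ℂ] (K →L[ℂ] K)),
    (∀ x y, L x * R y = R y * L x) → ∀ δ : A →ₗ[ℂ] K,
    (∀ x y : A, δ (x * y) = L x (δ y) + R (MulOpposite.op y) (δ x)) →
    ∃ ξ : K, ∀ x : A, δ x = L x ξ - R (MulOpposite.op x) ξ

variable {H : Type v} [NormedAddCommGroup H] [InnerProductSpace ℂ H] [CompleteSpace H]

/-- Bundled form of `RigidlyGenerated`. -/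
def RigidlyGenerated' (P : VonNeumannAlgebra H) : Prop :=
  ∃ F : Finset P.toStarSubalgebra,
    (P : Set (H →L[ℂ] H)) = Set.centralizer (Set.centralizer
      (Subtype.val '' (StarAlgebra.adjoin ℂ (F : Set P.toStarSubalgebra) :
        Set P.toStarSubalgebra))) ∧
    DerInner (StarAlgebra.adjoin ℂ (F : Set P.toStarSubalgebra))

theorem genAlg_eq {P : VonNeumannAlgebra H} (F' : Finset P.toStarSubalgebra)
    (F : Finset (H →L[ℂ] H)) (h : Subtype.val '' (F' : Set P.toStarSubalgebra) = F) :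
    genAlg F = Subtype.val '' (StarAlgebra.adjoin ℂ (F' : Set P.toStarSubalgebra) :
        Set P.toStarSubalgebra) := by
  have h1 := StarAlgHom.map_adjoin P.toStarSubalgebra.subtype (F' : Set P.toStarSubalgebra)
  rw [genAlg, ← h]
  exact (congrArg (fun S : StarSubalgebra ℂ (H →L[ℂ] H) => (S : Set (H →L[ℂ] H))) h1).symm

theorem RigidlyGenerated.bundled {P : VonNeumannAlgebra H} (h : RigidlyGenerated P) :
    RigidlyGenerated' P := by
  classical
  obtain ⟨F, h1, h2⟩ := h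
  have hF : ∀ x ∈ F, x ∈ P.toStarSubalgebra := fun x hx => by
    change x ∈ (P : Set (H →L[ℂ] H))
    rw [h1]
    exact Set.subset_centralizer_centralizer (StarAlgebra.subset_adjoin ℂ _ hx)
  let F' : Finset P.toStarSubalgebra := F.subtype (· ∈ P.toStarSubalgebra)
  have hg := genAlg_eq F' F (by
    ext x
    constructor
    · rintro ⟨y, hy, rfl⟩
      exact Finset.mem_subtype.1 hy
    · intro hx
      exact ⟨⟨x, hF x hx⟩, Finset.mem_subtype.2 hx, rfl⟩)
  refine ⟨F', hg ▸ h1, fun K _ _ _ L R hc δ hδ => ?_⟩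
  let A := StarAlgebra.adjoin ℂ (F' : Set P.toStarSubalgebra)
  let L' : (H →L[ℂ] H) → K →L[ℂ] K :=
    Function.extend (Subtype.val : P.toStarSubalgebra → _) (fun x => L x) 0
  let R' : (H →L[ℂ] H) → K →L[ℂ] K :=
    Function.extend (Subtype.val : P.toStarSubalgebra → _) (fun x => R (MulOpposite.op x)) 0
  let δ' : (H →L[ℂ] H) → K :=
    Function.extend (fun y : A => ((y : P.toStarSubalgebra) : H →L[ℂ] H)) (fun x => δ x) 0
  have hL : ∀ x : P.toStarSubalgebra, L' x = L x := fun x =>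
    Subtype.val_injective.extend_apply _ _ x
  have hR : ∀ x : P.toStarSubalgebra, R' x = R (MulOpposite.op x) := fun x =>
    Subtype.val_injective.extend_apply _ _ x
  have hd : ∀ x : A, δ' ((x : P.toStarSubalgebra) : H →L[ℂ] H) = δ x := fun x =>
    (Subtype.val_injective.comp Subtype.val_injective).extend_apply _ _ x
  have hb : IsAlgBimodule P L' R' := by
    refine ⟨⟨fun x hx y hy => ?_, fun c x hx => ?_, ?_, fun x hx => ?_⟩,
      ⟨fun x hx y hy => ?_, fun c x hx => ?_, ?_, fun x hx => ?_⟩,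
      fun x hx y hy => ⟨?_, ?_, ?_⟩⟩
    · exact (hL (⟨x, hx⟩ + ⟨y, hy⟩)).trans (by rw [map_add, ← hL, ← hL])
    · exact (hL (c • ⟨x, hx⟩)).trans (by rw [map_smul, ← hL])
    · exact (hL 1).trans (map_one L)
    · exact (hL (star ⟨x, hx⟩)).trans (by rw [map_star, ← hL])
    · exact (hR (⟨x, hx⟩ + ⟨y, hy⟩)).trans (by rw [MulOpposite.op_add, map_add, ← hR, ← hR])
    · exact (hR (c • ⟨x, hx⟩)).trans (by rw [MulOpposite.op_smul, map_smul, ← hR])
    · exact (hR 1).trans (map_one R)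
    · exact (hR (star ⟨x, hx⟩)).trans (by rw [MulOpposite.op_star, map_star, ← hR])
    · exact (hL (⟨x, hx⟩ * ⟨y, hy⟩)).trans (by rw [map_mul, ← hL, ← hL])
    · exact (hR (⟨x, hx⟩ * ⟨y, hy⟩)).trans (by rw [MulOpposite.op_mul, map_mul, ← hR, ← hR])
    · rw [hL ⟨x, hx⟩, hR ⟨y, hy⟩]
      exact hc _ _
  obtain ⟨ξ, hξ⟩ := h2 K L' R' δ' hb (by
    rw [hg]
    rintro _ ⟨x, hx, rfl⟩ _ ⟨y, hy, rfl⟩
    refine ⟨?_, fun c => ?_, ?_⟩
    · exact (hd (⟨x, hx⟩ + ⟨y, hy⟩)).trans (by rw [map_add, ← hd, ← hd])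
    · exact (hd (c • ⟨x, hx⟩)).trans (by rw [map_smul, ← hd])
    · exact (hd (⟨x, hx⟩ * ⟨y, hy⟩)).trans (by rw [hδ, ← hd, ← hd, ← hL, ← hR]))
  refine ⟨ξ, fun x => ?_⟩
  rw [← hd, ← hL, ← hR]
  exact hξ _ (hg ▸ ⟨x, x.2, rfl⟩)

theorem RigidlyGenerated'.unbundled {P : VonNeumannAlgebra H} (h : RigidlyGenerated' P) :
    RigidlyGenerated P := by
  classical
  obtain ⟨F', h1, h2⟩ := h
  have hg := genAlg_eq F' (F'.image Subtype.val) (Finset.coe_image).symm
  refine ⟨F'.image Subtype.val, hg ▸ h1,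
    fun K _ _ _ L R δ ⟨⟨l1, l2, l3, l4⟩, ⟨r1, r2, r3, r4⟩, hm⟩ hδ => ?_⟩
  rw [hg] at hδ ⊢
  have l0 : L 0 = 0 := by simpa using l2 0 0 (zero_mem _)
  have r0 : R 0 = 0 := by simpa using r2 0 0 (zero_mem _)
  let L' : P.toStarSubalgebra →⋆ₐ[ℂ] (K →L[ℂ] K) :=
    { toFun := fun x => L x
      map_one' := l3
      map_mul' := fun x y => (hm x x.2 y y.2).1
      map_zero' := l0
      map_add' := fun x y => l1 x x.2 y y.2
      commutes' := fun c => by
        have := l2 c 1 (one_mem _)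
        rw [l3] at this
        rw [Algebra.algebraMap_eq_smul_one, Algebra.algebraMap_eq_smul_one]
        exact this
      map_star' := fun x => l4 x x.2 }
  let R' : (P.toStarSubalgebra)ᵐᵒᵖ →⋆ₐ[ℂ] (K →L[ℂ] K) :=
    { toFun := fun x => R x.unop
      map_one' := r3
      map_mul' := fun x y => (hm y.unop y.unop.2 x.unop x.unop.2).2.1
      map_zero' := r0
      map_add' := fun x y => r1 x.unop x.unop.2 y.unop y.unop.2
      commutes' := fun c => by
        have := r2 c 1 (one_mem _)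
        rw [r3] at this
        rw [Algebra.algebraMap_eq_smul_one, Algebra.algebraMap_eq_smul_one]
        exact this
      map_star' := fun x => r4 x.unop x.unop.2 }
  let δ' : StarAlgebra.adjoin ℂ (F' : Set P.toStarSubalgebra) →ₗ[ℂ] K :=
    { toFun := fun x => δ ((x : P.toStarSubalgebra) : H →L[ℂ] H)
      map_add' := fun x y => (hδ _ ⟨x, x.2, rfl⟩ _ ⟨y, y.2, rfl⟩).1
      map_smul' := fun c x => (hδ _ ⟨x, x.2, rfl⟩ _ ⟨x, x.2, rfl⟩).2.1 c }
  obtain ⟨ξ, hξ⟩ := h2 K L' R' (fun x y => (hm x x.2 y.unop y.unop.2).2.2) δ'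
    fun x y => (hδ _ ⟨x, x.2, rfl⟩ _ ⟨y, y.2, rfl⟩).2.2
  refine ⟨ξ, ?_⟩
  rintro _ ⟨x, hx, rfl⟩
  exact hξ ⟨x, hx⟩

end Pool.Agent.MP_890ef7_an

end

section

/-! The limit of a sequence of approximate derivations is a derivation. -/

open scoped InnerProductSpace
open Filter Topology

namespace Pool.Agent.MP_890ef7_an

universe v w

variable {B : Type v} [NormedRing B] [StarRing B] [NormedAlgebra ℂ B] [StarModule ℂ B]
  {κ : Type*} {u : κ → unitary B}

/-- the group of words. -/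
def Gw (u : κ → unitary B) (σ : κ → κ) (hσ : ∀ i, u (σ i) = (u i)⁻¹) : Subgroup (unitary B) where
  carrier := {g | ∃ n, IsW u n g}
  one_mem' := ⟨0, IsW.one 0⟩
  mul_mem' := fun ⟨n, hn⟩ ⟨m, hm⟩ => ⟨n + m, hn.mul hm⟩
  inv_mem' := fun ⟨n, hn⟩ => ⟨n, hn.inv σ hσ⟩

/-- an approximate derivation into an approximate bimodule. -/
structure ApDer (u : κ → unitary B) {K : Type w} [NormedAddCommGroup K] [InnerProductSpace ℂ K]
    (L R : B →ₗ[ℂ] K →L[ℂ] K) (d : B →ₗ[ℂ] K) (n : ℕ) (θ : ℝ) : Prop where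
  rep : IsRep L
  anti : IsAnti R
  nL : ∀ x η, ‖L x η‖ ≤ 8 * ‖x‖ * ‖η‖
  nR : ∀ x η, ‖R x η‖ ≤ 8 * ‖x‖ * ‖η‖
  comm : ∀ x y η, ‖L x (R y η) - R y (L x η)‖ ≤ θ * ‖x‖ * ‖y‖ * ‖η‖
  one : ∀ y, L 1 (d y) = d y
  d1 : d 1 = 0
  leib : ∀ x y, IsW u n x → IsW u n y →
    ‖d ((x : B) * y) - (L x (d y) + R y (d x))‖ ≤ θ * (1 + ‖d x‖)

theorem limit_der {A : StarSubalgebra ℂ B}
    (hA1 : ∀ (w : unitary B) n, IsW u n w → (w : B) ∈ A)
    (hA2 : ∀ x ∈ A, x ∈ Submodule.span ℂ {v : B | ∃ (w : unitary B) (n : ℕ), IsW u n w ∧ v = w})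
    {K : ℕ → Type w} [∀ n, NormedAddCommGroup (K n)] [∀ n, InnerProductSpace ℂ (K n)]
    {L R : ∀ n, B →ₗ[ℂ] K n →L[ℂ] K n} {d : ∀ n, B →ₗ[ℂ] K n} {θ : ℕ → ℝ}
    (h : ∀ n, ApDer u (L n) (R n) (d n) n (θ n)) (hθ0 : ∀ n, 0 ≤ θ n) (hθ1 : ∀ n, θ n ≤ 1)
    (hθ : Tendsto θ atTop (𝓝 0)) {c : ℝ} (hc : ∀ n i, ‖d n (u i)‖ ≤ c) :
    ∃ (E : Type v) (_ : NormedAddCommGroup E) (_ : InnerProductSpace ℂ E) (_ : CompleteSpace E)
      (L' : B →⋆ₐ[ℂ] (E →L[ℂ] E)) (R' : Bᵐᵒᵖ →⋆ₐ[ℂ] (E →L[ℂ] E)) (δ : A →ₗ[ℂ] E),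
      (∀ x y, L' x * R' y = R' y * L' x) ∧
      (∀ x y : A, δ (x * y) = L' x (δ y) + R' (MulOpposite.op y) (δ x)) ∧
      ∀ {ι : Type v} (s : Finset ι) (a : ι → ℂ) (x : ι → B) (y : ι → A),
        (∀ i, ∃ (w : unitary B) (n : ℕ), IsW u n w ∧ (y i : B) = w) →
        Tendsto (fun n => ‖∑ i ∈ s, a i • L n (x i) (d n (y i))‖) (hyperfilter ℕ)
          (𝓝 ‖∑ i ∈ s, a i • L' (x i) (δ (y i))‖) := by
  let U := hyperfilter ℕ
  have hU : (U : Filter ℕ) ≤ atTop := Nat.hyperfilter_le_atTop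
  have hθU : Tendsto θ U (𝓝 0) := hθ.mono_left hU
  have hbd : ∀ k : ℕ, ∃ C : ℝ, ∀ n, k + 1 ≤ n → ∀ p, IsW u k p → ‖d n p‖ ≤ C := by
    intro k
    induction k with
    | zero => exact ⟨0, fun n _ p hp => by obtain rfl : p = 1 := hp; simp [(h n).d1]⟩
    | succ k ih =>
      obtain ⟨C, hC⟩ := ih
      refine ⟨max C (c + 2 * C + 1), fun n hn p hp => ?_⟩
      rcases hp with hp | ⟨p', i, hp', rfl⟩
      · exact (hC n (by omega) p hp).trans (le_max_left _ _)
      · refine le_trans ?_ (le_max_right _ _)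
        have h2 := hC n (by omega) p' hp'
        have h3 := (h n).leib p' (u i) (hp'.mono (by omega)) ((IsW.gen i).mono (by omega))
        have h4 := hc n i
        have h5 : θ n * (1 + ‖d n p'‖) ≤ 1 * (1 + ‖d n p'‖) := by gcongr; exact hθ1 n
        have h6 := (h n).rep.norm_le p'.2.1 (d n (u i))
        have h7 := (h n).anti.norm_le (u i).2.2 (d n p')
        have h8 := norm_le_norm_sub_add (d n ((p' : B) * u i)) (L n p' (d n (u i)) +
          R n (u i) (d n p'))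
        have h9 := norm_add_le (L n p' (d n (u i))) (R n (u i) (d n p'))
        rw [Submonoid.coe_mul]
        linarith
  have hbdA : ∀ y ∈ A, ∃ C : ℝ, ∀ᶠ n in (U : Filter ℕ), ‖d n y‖ ≤ C := fun y hy => by
    replace hy := hA2 y hy
    induction hy using Submodule.span_induction with
    | mem y hy =>
      obtain ⟨w, k, hw, rfl⟩ := hy
      obtain ⟨C, hC⟩ := hbd k
      exact ⟨C, hU ((eventually_ge_atTop (k + 1)).mono fun n hn => hC n hn w hw)⟩
    | zero => exact ⟨0, Eventually.of_forall fun n => by simp⟩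
    | add x y _ _ hx hy =>
      obtain ⟨C, hC⟩ := hx
      obtain ⟨D, hD⟩ := hy
      refine ⟨C + D, ?_⟩
      filter_upwards [hC, hD] with n h1 h2
      rw [map_add]
      exact (norm_add_le _ _).trans (add_le_add h1 h2)
    | smul a x _ hx =>
      obtain ⟨C, hC⟩ := hx
      refine ⟨‖a‖ * C, ?_⟩
      filter_upwards [hC] with n h1
      rw [map_smul, norm_smul]
      gcongr
  have hz : ∀ (y : A) (f : ℕ → ℝ) (D : ℝ), 0 ≤ D →
      (∀ᶠ n in (U : Filter ℕ), ‖f n‖ ≤ θ n * (D * (1 + ‖d n y‖))) → Tendsto f U (𝓝 0) :=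
    fun y f D hD hf => by
      obtain ⟨C, hC⟩ := hbdA y y.2
      have h1 := hθU.mul_const (D * (1 + C))
      rw [zero_mul] at h1
      refine squeeze_zero_norm' ?_ h1
      filter_upwards [hC, hf] with n h2 h3
      refine h3.trans ?_
      have := hθ0 n
      gcongr
  let ξ : ∀ n, B × A × B → K n := fun n p => L n p.1 (R n p.2.2 (d n p.2.1))
  obtain ⟨E, _, _, _, v, hv⟩ := exists_isLim U ξ fun p => by
    obtain ⟨C, hC⟩ := hbdA p.2.1 p.2.1.2
    refine ⟨8 * ‖p.1‖ * (8 * ‖p.2.2‖ * C), hC.mono fun n hn => ((h n).nL _ _).trans ?_⟩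
    gcongr
    exact ((h n).nR _ _).trans (by gcongr)
  have hφL : ∀ (x : B) (p : B × A × B), Tendsto
      (fun n => ‖ξ n (x * p.1, p.2) - L n x (ξ n p)‖) U (𝓝 0) := fun x p => by
    simp only [ξ, (h _).rep.mul, sub_self, norm_zero, tendsto_const_nhds]
  have hφR : ∀ (z : B) (p : B × A × B), Tendsto
      (fun n => ‖ξ n (p.1, p.2.1, p.2.2 * z) - R n z (ξ n p)‖) U (𝓝 0) := fun z p => by
    refine hz p.2.1 _ (‖p.1‖ * ‖z‖ * (8 * ‖p.2.2‖)) (by positivity)
      (Eventually.of_forall fun n => ?_)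
    simp only [ξ, (h n).anti.mul, norm_norm]
    refine ((h n).comm _ _ _).trans ?_
    have h1 := (h n).nR p.2.2 (d n p.2.1)
    have h2 := hθ0 n
    calc _ ≤ θ n * ‖p.1‖ * ‖z‖ * (8 * ‖p.2.2‖ * (1 + ‖d n p.2.1‖)) := by
          gcongr
          refine h1.trans ?_
          gcongr
          linarith
      _ = _ := by ring
  choose Lo hLo using fun x : B => hv.op (fun n => L n x) (C := 8 * ‖x‖) (by positivity)
    (fun n => (h n).nL x) (fun p => (x * p.1, p.2)) (hφL x)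
  choose Ro hRo using fun z : B => hv.op (fun n => R n z) (C := 8 * ‖z‖) (by positivity)
    (fun n => (h n).nR z) (fun p => (p.1, p.2.1, p.2.2 * z)) (hφR z)
  have lin1 : ∀ (a b : ℂ) x x' y z, v (a • x + b • x', y, z) = a • v (x, y, z) + b • v (x', y, z) :=
    fun a b x x' y z => hv.eq_of (by simp [ξ])
  have lin2 : ∀ (a b : ℂ) x y y' z, v (x, a • y + b • y', z) = a • v (x, y, z) + b • v (x, y', z) :=
    fun a b x y y' z => hv.eq_of (by simp [ξ])
  have lin3 : ∀ (a b : ℂ) x y z z', v (x, y, a • z + b • z') = a • v (x, y, z) + b • v (x, y, z') :=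
    fun a b x y z z' => hv.eq_of (by simp [ξ])
  have hLl : ∀ (a b : ℂ) x x', Lo (a • x + b • x') = a • Lo x + b • Lo x' := fun a b x x' =>
    clm_ext_of_dense v hv.dense fun p => by
      simp only [hLo, add_apply, smul_apply, add_mul,
        smul_mul_assoc, lin1]
  have hRl : ∀ (a b : ℂ) x x', Ro (a • x + b • x') = a • Ro x + b • Ro x' := fun a b x x' =>
    clm_ext_of_dense v hv.dense fun p => by
      simp only [hRo, add_apply, smul_apply, mul_add,
        mul_smul_comm, lin3]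
  have hL1 : Lo 1 = 1 := clm_ext_of_dense v hv.dense fun p => by simp [hLo]
  have hR1 : Ro 1 = 1 := clm_ext_of_dense v hv.dense fun p => by simp [hRo]
  let L' : B →⋆ₐ[ℂ] (E →L[ℂ] E) :=
    { toFun := Lo
      map_one' := hL1
      map_mul' := fun x y => clm_ext_of_dense v hv.dense fun p => by simp [hLo, mul_assoc]
      map_zero' := by simpa using hLl 0 0 0 0
      map_add' := fun x y => by simpa using hLl 1 1 x y
      commutes' := fun a => by
        have := hLl a 0 1 0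
        simp only [zero_smul, add_zero, hL1] at this
        rw [Algebra.algebraMap_eq_smul_one, Algebra.algebraMap_eq_smul_one, this]
      map_star' := fun x => adj_of_dense v hv.dense v hv.dense fun p q => by
        rw [hLo, hLo]
        exact hv.adj (fun n => L n x) (fun n => L n (star x))
          (fun n η ζ => by rw [(h n).rep.adj, star_star]) _ _ (hφL x) (hφL (star x)) p q }
  let R' : Bᵐᵒᵖ →⋆ₐ[ℂ] (E →L[ℂ] E) :=
    { toFun := fun x => Ro x.unop
      map_one' := hR1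
      map_mul' := fun x y => clm_ext_of_dense v hv.dense fun p => by simp [hRo, mul_assoc]
      map_zero' := by simpa using hRl 0 0 0 0
      map_add' := fun x y => by simpa using hRl 1 1 x.unop y.unop
      commutes' := fun a => by
        have := hRl a 0 1 0
        simp only [zero_smul, add_zero, hR1] at this
        rw [Algebra.algebraMap_eq_smul_one, Algebra.algebraMap_eq_smul_one]
        exact this
      map_star' := fun x => adj_of_dense v hv.dense v hv.dense fun p q => by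
        rw [hRo, hRo]
        exact hv.adj (fun n => R n x.unop) (fun n => R n (star x.unop))
          (fun n η ζ => by rw [(h n).anti.adj, star_star]) _ _ (hφR _) (hφR _) p q }
  let δ : A →ₗ[ℂ] E :=
    { toFun := fun y => v (1, y, 1)
      map_add' := fun x y => by simpa using lin2 1 1 1 x y 1
      map_smul' := fun a x => by simpa using lin2 a 0 1 x 0 1 }
  have hδ : ∀ x (y : A) z, L' x (R' (MulOpposite.op z) (δ y)) = v (x, y, z) := fun x y z => by
    change Lo x (Ro z (v (1, y, 1))) = _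
    simp [hLo, hRo]
  have hLδ : ∀ x (y : A), L' x (δ y) = v (x, y, 1) := fun x y => by
    rw [← hδ, MulOpposite.op_one, map_one]; rfl
  have hRδ : ∀ z (y : A), R' (MulOpposite.op z) (δ y) = v (1, y, z) := fun z y => by
    rw [← hδ, map_one]; rfl
  have hw1 : ∀ (x : B) (y : A), (∃ (w : unitary B) (n : ℕ), IsW u n w ∧ (y : B) = w) →
      Tendsto (fun n => ‖ξ n (x, y, 1) - L n x (d n y)‖) U (𝓝 0) := by
    rintro x y ⟨w, k, hw, hy⟩
    refine hz y _ (8 * ‖x‖) (by positivity) (hU ((eventually_ge_atTop k).mono fun n hn => ?_))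
    have h1 := (h n).leib w 1 (hw.mono hn) (IsW.one n)
    simp only [OneMemClass.coe_one, mul_one, (h n).d1, map_zero, zero_add, ← hy] at h1
    simp only [ξ, norm_norm]
    rw [← map_sub, norm_sub_rev] at *
    refine ((h n).nL _ _).trans ?_
    calc _ ≤ 8 * ‖x‖ * (θ n * (1 + ‖d n y‖)) := by gcongr
      _ = _ := by ring
  have hw2 : ∀ (z : B) (y : A),
      Tendsto (fun n => ‖ξ n (1, y, z) - R n z (d n y)‖) U (𝓝 0) := fun z y => by
    refine hz y _ (‖(1 : B)‖ * ‖z‖) (by positivity) (Eventually.of_forall fun n => ?_)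
    have h1 := (h n).comm 1 z (d n y)
    rw [(h n).one] at h1
    simp only [ξ, norm_norm]
    refine h1.trans ?_
    have h2 := hθ0 n
    calc _ ≤ θ n * ‖(1 : B)‖ * ‖z‖ * (1 + ‖d n y‖) := by gcongr; linarith
      _ = _ := by ring
  have hleibw : ∀ (x y : unitary B) (k l : ℕ) (hx : IsW u k x) (hy : IsW u l y),
      δ (⟨x, hA1 x k hx⟩ * ⟨y, hA1 y l hy⟩) = L' x (δ ⟨y, hA1 y l hy⟩) +
        R' (MulOpposite.op y) (δ ⟨x, hA1 x k hx⟩) := fun x y k l hx hy => by
    rw [hLδ, hRδ, ← one_smul ℂ (v (_, _, 1)), ← one_smul ℂ (v (1, _, (y : B)))]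
    refine hv.eq_of ?_
    have t1 := hw2 1 (⟨x, hA1 x k hx⟩ * ⟨y, hA1 y l hy⟩)
    have t1' := hw1 1 (⟨x, hA1 x k hx⟩ * ⟨y, hA1 y l hy⟩) ⟨x * y, k + l, hx.mul hy, rfl⟩
    have t2 := hw1 x ⟨y, hA1 y l hy⟩ ⟨y, l, hy, rfl⟩
    have t3 := hw2 y ⟨x, hA1 x k hx⟩
    have t4 : Tendsto (fun n => ‖d n ((x : B) * y) - (L n x (d n y) + R n y (d n x))‖) U (𝓝 0) := by
      refine hz ⟨x, hA1 x k hx⟩ _ 1 zero_le_one
        (hU ((eventually_ge_atTop (k + l)).mono fun n hn => ?_))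
      rw [norm_norm, one_mul]
      exact (h n).leib x y (hx.mono (by omega)) (hy.mono (by omega))
    have t5 := ((t1'.add t2).add t3).add t4
    simp only [add_zero] at t5
    refine squeeze_zero (fun n => norm_nonneg _) (fun n => ?_) t5
    simp only [one_smul, (h n).one]
    set P := ξ n (1, ⟨x, hA1 x k hx⟩ * ⟨y, hA1 y l hy⟩, 1)
    set Q := ξ n (x, ⟨y, hA1 y l hy⟩, 1)
    set S := ξ n (1, ⟨x, hA1 x k hx⟩, y)
    change _ ≤ ‖P - d n ((x : B) * y)‖ + ‖Q - L n x (d n y)‖ + ‖S - R n y (d n x)‖ + _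
    have e : P - (Q + S) = (P - d n ((x : B) * y)) - (Q - L n x (d n y)) - (S - R n y (d n x)) +
        (d n ((x : B) * y) - (L n x (d n y) + R n y (d n x))) := by abel
    rw [e]
    exact (norm_add_le _ _).trans (add_le_add_left ((norm_sub_le _ _).trans
      (add_le_add_left (norm_sub_le _ _) _)) _)
  refine ⟨E, inferInstance, inferInstance, inferInstance, L', R', δ, fun x y => ?_,
    fun x y => ?_, fun s a x y hy => ?_⟩
  · refine clm_ext_of_dense v hv.dense fun p => ?_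
    change Lo x (Ro y.unop (v p)) = Ro y.unop (Lo x (v p))
    simp only [hLo, hRo]
  · let S : Set A := {v | ∃ (w : unitary B) (n : ℕ), IsW u n w ∧ (v : B) = w}
    have hS : ∀ x : A, x ∈ Submodule.span ℂ S := fun x => by
      obtain ⟨x, hx⟩ := x
      have hx' := hA2 x hx
      have hsub : ∀ z ∈ Submodule.span ℂ
          {v : B | ∃ (w : unitary B) (n : ℕ), IsW u n w ∧ v = w}, z ∈ A := fun z hz =>
        (Submodule.span_le (p := A.toSubalgebra.toSubmodule)).2
          (by rintro _ ⟨w, n, hw, rfl⟩; exact hA1 w n hw) hz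
      induction hx' using Submodule.span_induction with
      | mem z hz => exact Submodule.subset_span hz
      | zero => exact zero_mem _
      | add z z' hz hz' h1 h2 => exact add_mem (h1 (hsub z hz)) (h2 (hsub z' hz'))
      | smul a z hz h1 => exact Submodule.smul_mem _ a (h1 (hsub z hz))
    have hx := hS x
    have hy := hS y
    induction hx, hy using Submodule.span_induction₂ with
    | mem_mem x y hx hy =>
      obtain ⟨x', k, hk, hx⟩ := hx
      obtain ⟨y', l, hl, hy⟩ := hy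
      obtain rfl : x = ⟨x', hA1 x' k hk⟩ := Subtype.ext hx
      obtain rfl : y = ⟨y', hA1 y' l hl⟩ := Subtype.ext hy
      exact hleibw x' y' k l hk hl
    | zero_left => simp
    | zero_right => simp
    | add_left x y z _ _ _ h1 h2 =>
      simp only [add_mul, map_add, h1, h2, AddMemClass.coe_add, add_apply]
      abel
    | add_right x y z _ _ _ h1 h2 =>
      simp only [mul_add, map_add, h1, h2, AddMemClass.coe_add, MulOpposite.op_add,
        add_apply]
      abel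
    | smul_left r x y _ _ h1 =>
      simp only [smul_mul_assoc, map_smul, h1, SetLike.val_smul, smul_add,
        smul_apply]
    | smul_right r x y _ _ h1 =>
      simp only [mul_smul_comm, map_smul, h1, SetLike.val_smul, smul_add, MulOpposite.op_smul,
        smul_apply]
  · simp only [hLδ]
    have h1 := hv.norm_sum s a fun i => (x i, y i, 1)
    have h2 : Tendsto (fun n => ∑ i ∈ s, ‖a i‖ * ‖ξ n (x i, y i, 1) - L n (x i) (d n (y i))‖) U
        (𝓝 0) := by
      simpa using tendsto_finsetSum s fun i _ => (hw1 (x i) (y i) (hy i)).const_mul ‖a i‖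
    have h3 : Tendsto (fun n => ‖∑ i ∈ s, a i • L n (x i) (d n (y i))‖ -
        ‖∑ i ∈ s, a i • ξ n (x i, y i, 1)‖) U (𝓝 0) := by
      refine squeeze_zero_norm (fun n => ?_) h2
      refine (abs_norm_sub_norm_le _ _).trans ?_
      rw [norm_sub_rev, ← Finset.sum_sub_distrib]
      refine (norm_sum_le _ _).trans_eq ?_
      simp only [← smul_sub, norm_smul]
    simpa using h3.add h1

end Pool.Agent.MP_890ef7_an

end

section

/-! Reduction to unitary generators. -/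

open scoped InnerProductSpace

namespace Pool.Agent.MP_890ef7_an

universe v

section alg
variable {B : Type v} [Ring B] [StarRing B] [Algebra ℂ B] [StarModule ℂ B]
  {K : Type*} [NormedAddCommGroup K] [InnerProductSpace ℂ K] [CompleteSpace K]
  {L : B →⋆ₐ[ℂ] (K →L[ℂ] K)} {R : Bᵐᵒᵖ →⋆ₐ[ℂ] (K →L[ℂ] K)}

theorem der_eq_zero {S : Set B} (D : StarAlgebra.adjoin ℂ S →ₗ[ℂ] K)
    (hD : ∀ x y, D (x * y) = L x (D y) + R (MulOpposite.op y) (D x))
    (hS : ∀ x : StarAlgebra.adjoin ℂ S, (x : B) ∈ S → D x = 0 ∧ D (star x) = 0)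
    (x : StarAlgebra.adjoin ℂ S) : D x = 0 := by
  have h1 : D 1 = 0 := by
    have := hD 1 1
    simpa using this
  have key : ∀ x (hx : x ∈ StarAlgebra.adjoin ℂ S), D ⟨x, hx⟩ = 0 ∧ D (star ⟨x, hx⟩) = 0 := by
    intro x hx
    induction hx using StarAlgebra.adjoin_induction with
    | mem x hx => exact hS _ hx
    | algebraMap r =>
      change D (algebraMap ℂ _ r) = 0 ∧ D (star (algebraMap ℂ _ r)) = 0
      simp [Algebra.algebraMap_eq_smul_one, h1]
    | add x y hx hy h1 h2 =>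
      change D (⟨x, hx⟩ + ⟨y, hy⟩) = 0 ∧ D (star (⟨x, hx⟩ + ⟨y, hy⟩)) = 0
      rw [star_add, map_add, map_add, h1.1, h1.2, h2.1, h2.2, add_zero]
      exact ⟨rfl, rfl⟩
    | mul x y hx hy h1 h2 =>
      change D (⟨x, hx⟩ * ⟨y, hy⟩) = 0 ∧ D (star (⟨x, hx⟩ * ⟨y, hy⟩)) = 0
      rw [star_mul, hD, hD, h1.1, h1.2, h2.1, h2.2]
      simp
    | star x hx h1 =>
      refine ⟨h1.2, ?_⟩
      change D (star (star ⟨x, hx⟩)) = 0
      rw [star_star]
      exact h1.1
  exact (key x x.2).1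

theorem DerInner.extend {A : StarSubalgebra ℂ B} (hA : DerInner A) {S : Set B}
    (hle : A ≤ StarAlgebra.adjoin ℂ S)
    (hS : ∀ x ∈ S, ∃ h ∈ A, ∃ y, star h = h ∧ star y = y ∧ x = h + Complex.I • y ∧ y * y ∈ A ∧
      ∀ (K : Type v) [NormedAddCommGroup K] [InnerProductSpace ℂ K] [CompleteSpace K]
        (L : B →⋆ₐ[ℂ] (K →L[ℂ] K)) (R : Bᵐᵒᵖ →⋆ₐ[ℂ] (K →L[ℂ] K)) (η : K),
        L y η + R (MulOpposite.op y) η = 0 → η = 0) : DerInner (StarAlgebra.adjoin ℂ S) := by
  intro K _ _ _ L R hc δ hδ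
  obtain ⟨ξ, hξ⟩ := hA K L R hc (δ ∘ₗ (StarSubalgebra.inclusion hle).toAlgHom.toLinearMap)
    fun x y => hδ (StarSubalgebra.inclusion hle x) (StarSubalgebra.inclusion hle y)
  have hcm : ∀ x y η, L x (R y η) = R y (L x η) := fun x y η =>
    congrArg (fun S : K →L[ℂ] K => S η) (hc x y)
  let D : StarAlgebra.adjoin ℂ S →ₗ[ℂ] K :=
    { toFun := fun x => δ x - (L x ξ - R (MulOpposite.op x) ξ)
      map_add' := fun x y => by
        simp only [map_add, AddMemClass.coe_add, MulOpposite.op_add, add_apply]; abel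
      map_smul' := fun a x => by
        simp only [map_smul, SetLike.val_smul, MulOpposite.op_smul, smul_apply, smul_sub,
          RingHom.id_apply] }
  have hD : ∀ x, D x = δ x - (L x ξ - R (MulOpposite.op x) ξ) := fun x => rfl
  have hDm : ∀ x y, D (x * y) = L x (D y) + R (MulOpposite.op y) (D x) := fun x y => by
    simp only [hD, hδ, MulMemClass.coe_mul, MulOpposite.op_mul, map_mul, map_sub,
      ContinuousLinearMap.mul_apply, hcm]
    abel
  have hDA : ∀ x : StarAlgebra.adjoin ℂ S, (x : B) ∈ A → D x = 0 := fun x hx =>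
    sub_eq_zero.2 (hξ ⟨x, hx⟩)
  refine ⟨ξ, fun x => sub_eq_zero.1 (der_eq_zero D hDm (fun x hx => ?_) x)⟩
  obtain ⟨h, hh, y, h1, h2, h3, h4, h5⟩ := hS x hx
  let h' : StarAlgebra.adjoin ℂ S := ⟨h, hle hh⟩
  let y' : StarAlgebra.adjoin ℂ S := (-Complex.I) • (x - h')
  have e1 : (y' : B) = y := by
    change (-Complex.I) • ((x : B) - h) = y
    rw [h3, add_sub_cancel_left, smul_smul, neg_mul, Complex.I_mul_I, neg_neg, one_smul]
  have e2 : D y' = 0 := h5 K L R _ (by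
    rw [← e1, ← hDm]
    exact hDA _ (by rwa [MulMemClass.coe_mul, e1]))
  have e3 : D h' = 0 := hDA _ hh
  have e4 : x = h' + Complex.I • y' := Subtype.ext (by
    rw [AddMemClass.coe_add, SetLike.val_smul, e1]; exact h3)
  have e5 : star x = h' - Complex.I • y' := Subtype.ext (by
    rw [AddSubgroupClass.coe_sub, SetLike.val_smul, e1, StarMemClass.coe_star, h3, star_add,
      star_smul, h1, h2, Complex.star_def, Complex.conj_I, neg_smul, ← sub_eq_add_neg])
  rw [e5]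
  rw [e4]
  simp [e2, e3]

theorem re_im_eq (a : B) {c : ℂ} (hc : c ≠ 0) :
    a = (2 * c)⁻¹ • (c • ((1 : ℂ) • a + star ((1 : ℂ) • a)) -
      Complex.I • c • (Complex.I • a + star (Complex.I • a))) := by
  have hI := Complex.I_mul_I
  simp only [one_smul, star_smul, Complex.star_def, Complex.conj_I]
  match_scalars
  · field_simp
    linear_combination hI
  · field_simp
    linear_combination -hI

end alg

variable {B : Type v} [CStarAlgebra B]

theorem exists_root {h : B} (hh : IsSelfAdjoint h) (hn : ‖h‖ ≤ 1) :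
    ∃ z : B, star z = z ∧ z * z * (z * z) = 1 - h * h ∧ h + Complex.I • (z * z) ∈ unitary B := by
  let := CStarAlgebra.spectralOrder B
  have := CStarAlgebra.spectralOrderedRing B
  have h0 : 0 ≤ 1 - h ^ 2 := by
    rwa [sub_nonneg, ← CStarAlgebra.norm_le_one_iff_of_nonneg (h ^ 2) hh.sq_nonneg, sq,
      hh.norm_mul_self, sq_le_one_iff₀ (norm_nonneg _)]
  have h1 := CFC.sqrt_mul_sqrt_self _ (CFC.sqrt_nonneg (1 - h ^ 2))
  refine ⟨CFC.sqrt (CFC.sqrt (1 - h ^ 2)), (CFC.sqrt_nonneg _).isSelfAdjoint.star_eq, ?_, ?_⟩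
  · rw [h1, CFC.sqrt_mul_sqrt_self _ h0, sq]
  · rw [h1]
    exact hh.self_add_I_smul_cfcSqrt_sub_sq_mem_unitary _ hn

theorem eq_zero_of_anti {K : Type*} [NormedAddCommGroup K] [InnerProductSpace ℂ K]
    [CompleteSpace K] (L : B →⋆ₐ[ℂ] (K →L[ℂ] K)) (R : Bᵐᵒᵖ →⋆ₐ[ℂ] (K →L[ℂ] K)) {h z : B}
    (hn : ‖h‖ ≤ 1 / 2) (hz : star z = z) (hzz : z * z * (z * z) = 1 - h * h) {η : K}
    (h0 : L (z * z) η + R (MulOpposite.op (z * z)) η = 0) : η = 0 := by
  have sq : ∀ T : K →L[ℂ] K, star T = T → ⟪η, (T * T) η⟫_ℂ = ((‖T η‖ ^ 2 : ℝ) : ℂ) := fun T hT => by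
    rw [ContinuousLinearMap.mul_apply, ← ContinuousLinearMap.adjoint_inner_left,
      ← ContinuousLinearMap.star_eq_adjoint, hT, inner_self_eq_norm_sq_to_K]
    simp
  have h1 := congrArg (fun x => ⟪η, x⟫_ℂ) h0
  simp only [inner_add_right, inner_zero_right, MulOpposite.op_mul, map_mul] at h1
  rw [sq _ (by rw [← map_star, hz]), sq _ (by rw [← map_star, ← MulOpposite.op_star, hz]),
    ← Complex.ofReal_add, Complex.ofReal_eq_zero] at h1
  have h2 : L z η = 0 := by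
    rw [← norm_eq_zero, ← sq_eq_zero_iff]
    nlinarith [sq_nonneg ‖L z η‖, sq_nonneg ‖R (MulOpposite.op z) η‖]
  have h3 : η = L h (L h η) := by
    have h4 := congrArg (fun x => L x η) hzz
    simp only [map_mul, ContinuousLinearMap.mul_apply, h2, map_zero, map_sub, map_one, sub_apply,
      ContinuousLinearMap.one_apply] at h4
    exact sub_eq_zero.1 h4.symm
  have h5 : ∀ x, ‖L h x‖ ≤ 1 / 2 * ‖x‖ := fun x => ((L h).le_opNorm x).trans (by
    gcongr
    exact (NonUnitalStarAlgHom.norm_apply_le L h).trans hn)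
  have h6 := h5 (L h η)
  have h7 := h5 η
  rw [← h3] at h6
  rw [← norm_le_zero_iff]
  linarith [norm_nonneg η]

theorem exists_unitary_gen (F : Finset B) (hF : DerInner (StarAlgebra.adjoin ℂ (F : Set B))) :
    ∃ F' : Finset B, (∀ a ∈ F', a ∈ unitary B) ∧
      StarAlgebra.adjoin ℂ (F : Set B) ≤ StarAlgebra.adjoin ℂ (F' : Set B) ∧
      DerInner (StarAlgebra.adjoin ℂ (F' : Set B)) := by
  classical
  let c : B → ℝ := fun a => (4 * (‖a‖ + 1))⁻¹
  have hc : ∀ a, 0 < c a := fun a => by positivity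
  let w : Bool → ℂ := fun b => if b then 1 else Complex.I
  obtain ⟨h, hdef⟩ : ∃ h : B × Bool → B,
      ∀ p, h p = (c p.1 : ℂ) • (w p.2 • p.1 + star (w p.2 • p.1)) := ⟨_, fun _ => rfl⟩
  have hsa : ∀ p, IsSelfAdjoint (h p) := fun p => by
    rw [hdef, IsSelfAdjoint, star_smul, star_add, star_star, Complex.star_def,
      Complex.conj_ofReal, add_comm]
  have hn : ∀ p, ‖h p‖ ≤ 1 / 2 := fun p => by
    have h1 : ‖w p.2 • p.1‖ = ‖p.1‖ := by
      rw [norm_smul]; rcases p with ⟨a, _ | _⟩ <;> simp [w]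
    have h2 := norm_add_le (w p.2 • p.1) (star (w p.2 • p.1))
    rw [norm_star, h1] at h2
    rw [hdef, norm_smul, Complex.norm_real, Real.norm_of_nonneg (hc _).le,
      inv_mul_le_iff₀ (by positivity)]
    linarith [norm_nonneg p.1]
  choose z hz1 hz2 hz3 using fun p => exists_root (hsa p) ((hn p).trans (by norm_num))
  let F' : Finset B := (F ×ˢ Finset.univ).image fun p => h p + Complex.I • (z p * z p)
  have hh : ∀ p : B × Bool, p.1 ∈ F → h p ∈ StarAlgebra.adjoin ℂ (F' : Set B) := fun p hp => by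
    have hu : h p + Complex.I • (z p * z p) ∈ StarAlgebra.adjoin ℂ (F' : Set B) :=
      StarAlgebra.subset_adjoin ℂ _ (Finset.mem_coe.2
        (Finset.mem_image_of_mem _ (Finset.mem_product.2 ⟨hp, Finset.mem_univ _⟩)))
    have e : h p = (2⁻¹ : ℂ) • (h p + Complex.I • (z p * z p) +
        star (h p + Complex.I • (z p * z p))) := by
      rw [star_add, star_smul, star_mul, hz1, (hsa p).star_eq, Complex.star_def, Complex.conj_I,
        neg_smul, add_add_add_comm, add_neg_cancel, add_zero, ← two_smul ℂ, smul_smul,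
        inv_mul_cancel₀ two_ne_zero, one_smul]
    rw [e]
    exact StarSubalgebra.smul_mem _ (add_mem hu (star_mem hu)) _
  have hle : StarAlgebra.adjoin ℂ (F : Set B) ≤ StarAlgebra.adjoin ℂ (F' : Set B) :=
    StarAlgebra.adjoin_le fun a ha => by
      have h1 := hh (a, true) ha
      have h2 := hh (a, false) ha
      rw [hdef] at h1 h2
      rw [re_im_eq a (c := c a) (by exact_mod_cast (hc a).ne')]
      exact StarSubalgebra.smul_mem _ (sub_mem h1 (StarSubalgebra.smul_mem _ h2 _)) _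
  refine ⟨F', fun a ha => ?_, hle, hF.extend hle fun a ha => ?_⟩
  · obtain ⟨p, -, rfl⟩ := Finset.mem_image.1 ha
    exact hz3 p
  · obtain ⟨p, hp, rfl⟩ := Finset.mem_image.1 ha
    have h1 : w p.2 • p.1 ∈ StarAlgebra.adjoin ℂ (F : Set B) := StarSubalgebra.smul_mem _
      (StarAlgebra.subset_adjoin ℂ _ (Finset.mem_product.1 hp).1) _
    have h2 : h p ∈ StarAlgebra.adjoin ℂ (F : Set B) := by
      rw [hdef]; exact StarSubalgebra.smul_mem _ (add_mem h1 (star_mem h1)) _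
    exact ⟨_, h2, _, (hsa p).star_eq, by rw [star_mul, hz1], rfl,
      by rw [hz2]; exact sub_mem (one_mem _) (mul_mem h2 h2),
      fun K _ _ _ L R η h0 => eq_zero_of_anti L R (hn p) (hz1 p) (hz2 p) h0⟩

end Pool.Agent.MP_890ef7_an

end
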