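import Mathlib
import Pool.Agent.Mg.F890ef7p.G00306b

/-! Transfer of robust rigidity along a strongly dense bounded set. -/

open scoped InnerProductSpace
open Filter Topology

namespace Pool.Agent.MP_890ef7_an

universe v w

variable {H : Type v} [NormedAddCommGroup H] [InnerProductSpace ℂ H] [CompleteSpace H]

theorem kaplansky' (A : StarSubalgebra ℂ (H →L[ℂ] H)) {x : H →L[ℂ] H}
    (hx : x ∈ Set.centralizer (Set.centralizer (A : Set (H →L[ℂ] H)))) {c : ℝ} (hc : 0 < c)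
    (hn : ‖x‖ ≤ c) (T : Finset H) {ε : ℝ} (hε : 0 < ε) :
    ∃ b ∈ A, ‖b‖ ≤ 3 * c ∧ ∀ v ∈ T, ‖b v - x v‖ < ε := by
  have hsc : ∀ (r : ℝ) (y : H), 0 ≤ r → ‖(r : ℂ) • y‖ = r * ‖y‖ := fun r y hr => by
    rw [norm_smul, Complex.norm_real, Real.norm_of_nonneg hr]
  obtain ⟨b, hb, h1, h2⟩ := kaplansky A (x := ((c⁻¹ : ℝ) : ℂ) • x)
    (fun y hy => by rw [mul_smul_comm, smul_mul_assoc, hx y hy])
    (by rw [norm_smul, Complex.norm_real, Real.norm_of_nonneg (by positivity),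
      inv_mul_le_iff₀ hc, mul_one]; exact hn) T (ε := ε / 2 / c) (by positivity)
  set s : ℝ := 1 + ∑ v ∈ T, ‖v‖ with hs
  have hs0 : 0 < s := by positivity
  obtain ⟨b', hb', h3⟩ := Metric.mem_closure_iff.1 hb (min 1 (ε / 2 / c / s)) (by positivity)
  rw [dist_eq_norm, norm_sub_rev] at h3
  refine ⟨(c : ℂ) • b', A.smul_mem hb' _, ?_, fun v hv => ?_⟩
  · rw [norm_smul, Complex.norm_real, Real.norm_of_nonneg hc.le, mul_comm]
    have := norm_le_norm_sub_add b' b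
    have := min_le_left 1 (ε / 2 / c / s)
    gcongr
    linarith
  · have e : ((c : ℂ) • b') v - x v =
        (c : ℂ) • ((b' - b) v + (b v - (((c⁻¹ : ℝ) : ℂ) • x) v)) := by
      simp only [smul_apply, sub_apply, sub_add_sub_cancel, smul_sub, smul_smul]
      rw [← Complex.ofReal_mul, mul_inv_cancel₀ hc.ne']
      simp
    have k1 : ‖v‖ ≤ s := by
      have := Finset.single_le_sum (f := fun v : H => ‖v‖) (fun _ _ => norm_nonneg _) hv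
      linarith
    have k2 : ‖(b' - b) v‖ ≤ ε / 2 / c / s * s := ((b' - b).le_opNorm v).trans (by
      gcongr
      exact h3.le.trans (min_le_right _ _))
    rw [div_mul_cancel₀ _ hs0.ne'] at k2
    have k3 := h2 v hv
    have k4 := norm_add_le ((b' - b) v) (b v - (((c⁻¹ : ℝ) : ℂ) • x) v)
    rw [e, hsc _ _ hc.le, ← lt_div_iff₀' hc]
    have : ε / c = ε / 2 / c + ε / 2 / c := by ring
    linarith

theorem exists_net' (M N : VonNeumannAlgebra H) (S : Set M.toStarSubalgebra) {c γ : ℝ}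
    (hc : 0 < c) (hγ0 : 0 ≤ γ) (hMN : ∀ x ∈ M, ‖x‖ ≤ 1 → ∃ y ∈ N, ‖y‖ ≤ 1 ∧ ‖x - y‖ ≤ γ)
    {x : H →L[ℂ] H} (hS : ∀ (T : Finset H) (ε : ℝ), 0 < ε → ∃ b ∈ S,
      ‖(b : H →L[ℂ] H)‖ ≤ c ∧ ∀ v ∈ T, ‖(b : H →L[ℂ] H) v - x v‖ < ε) :
    ∃ (U : Ultrafilter (Finset H × ℕ)) (y : Finset H × ℕ → N.toStarSubalgebra)
      (y₀ : N.toStarSubalgebra), (∀ p, ‖(y p : H →L[ℂ] H)‖ ≤ 1) ∧
      (∀ p, ∃ b ∈ S, ‖((c⁻¹ : ℝ) : ℂ) • (b : H →L[ℂ] H) - y p‖ ≤ γ) ∧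
      (∀ a b, Tendsto (fun p => ⟪a, (y p : H →L[ℂ] H) b⟫_ℂ) U (𝓝 ⟪a, (y₀ : H →L[ℂ] H) b⟫_ℂ)) ∧
      ‖(y₀ : H →L[ℂ] H) - ((c⁻¹ : ℝ) : ℂ) • x‖ ≤ γ := by
  classical
  choose b hb1 hb2 hb3 using fun p : Finset H × ℕ =>
    hS p.1 _ (Nat.one_div_pos_of_nat (α := ℝ) (n := p.2))
  have hb4 : ∀ p, ‖((c⁻¹ : ℝ) : ℂ) • (b p : H →L[ℂ] H)‖ ≤ 1 := fun p => by
    rw [norm_smul, Complex.norm_real, Real.norm_of_nonneg (by positivity), inv_mul_le_iff₀ hc,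
      mul_one]
    exact hb2 p
  choose y hy1 hy2 hy3 using fun p => hMN (((c⁻¹ : ℝ) : ℂ) • (b p : H →L[ℂ] H))
    (M.toStarSubalgebra.smul_mem (b p).2 _) (hb4 p)
  let U := Ultrafilter.of (atTop : Filter (Finset H × ℕ))
  have hU : (U : Filter (Finset H × ℕ)) ≤ atTop := Ultrafilter.of_le _
  obtain ⟨y₀, hy₀⟩ := exists_wot_lim U y zero_le_one hy2
  have hy₀N : y₀ ∈ N := by
    rw [← SetLike.mem_coe, ← N.centralizer_centralizer]
    intro s hs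
    ext v
    refine ext_inner_left ℂ fun a => ?_
    have h1 := hy₀ (s.adjoint a) v
    simp only [ContinuousLinearMap.adjoint_inner_left] at h1
    refine tendsto_nhds_unique h1 ((hy₀ a (s v)).congr fun p => ?_)
    exact congrArg (fun T : H →L[ℂ] H => ⟪a, T v⟫_ℂ) (hs _ (hy1 p))
  have hbx : ∀ v, Tendsto (fun p => (b p : H →L[ℂ] H) v) U (𝓝 (x v)) := fun v => by
    refine Tendsto.mono_left ?_ hU
    rw [tendsto_iff_norm_sub_tendsto_zero]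
    refine squeeze_zero' (Eventually.of_forall fun p => norm_nonneg _)
      (g := fun p => 1 / ((p.2 : ℝ) + 1)) ?_
      (tendsto_one_div_add_atTop_nhds_zero_nat.comp (by
        rw [← prod_atTop_atTop_eq]; exact tendsto_snd))
    filter_upwards [eventually_ge_atTop (({v}, 0) : Finset H × ℕ)] with p hp
    exact (hb3 p v (hp.1 (Finset.mem_singleton_self v))).le
  refine ⟨U, fun p => ⟨y p, hy1 p⟩, ⟨y₀, hy₀N⟩, hy2, fun p => ⟨_, hb1 p, hy3 p⟩, hy₀, ?_⟩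
  refine ContinuousLinearMap.opNorm_le_bound _ hγ0 fun v => ?_
  refine norm_le_of_weak (l := U)
    (v := fun p => (y p - ((c⁻¹ : ℝ) : ℂ) • (b p : H →L[ℂ] H)) v) (by positivity)
    (fun p => (ContinuousLinearMap.le_opNorm _ _).trans (by
      rw [norm_sub_rev]; gcongr; exact hy3 p)) ?_
  simp only [sub_apply, smul_apply, inner_sub_right]
  exact (hy₀ _ v).sub (Tendsto.inner tendsto_const_nhds ((hbx v).const_smul _))

theorem exists_defect' (M N : VonNeumannAlgebra H) {t γ : ℝ} (hγ0 : 0 ≤ γ) (hγ : 4 * γ ≤ t)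
    (hMN : ∀ x ∈ M, ‖x‖ ≤ 1 → ∃ y ∈ N, ‖y‖ ≤ 1 ∧ ‖x - y‖ ≤ γ)
    {K : Type w} [NormedAddCommGroup K] [InnerProductSpace ℂ K] [CompleteSpace K]
    (L : N.toStarSubalgebra →⋆ₐ[ℂ] (K →L[ℂ] K))
    (R : (N.toStarSubalgebra)ᵐᵒᵖ →⋆ₐ[ℂ] (K →L[ℂ] K))
    (hLR : ∀ x y, L x * R (MulOpposite.op y) = R (MulOpposite.op y) * L x) {ξ : K} (hξ : ‖ξ‖ = 1) :
    ∃ (E : Type (max v w)) (_ : NormedAddCommGroup E) (_ : InnerProductSpace ℂ E)
      (D : (H →L[ℂ] H) →L[ℂ] E) (L' R' : M.toStarSubalgebra →ₗ[ℂ] E →L[ℂ] E) (ζ : E),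
      (∀ x, ‖D x‖ ≤ 2 * ‖x‖) ∧
      (∀ y : N.toStarSubalgebra, ‖D y‖ = ‖L y ξ - R (MulOpposite.op y) ξ‖) ∧
      Setup L' R' t ∧ ‖ζ‖ = 1 ∧ ∀ x : M.toStarSubalgebra, L' x ζ - R' x ζ = D x := by
  have hLn : ∀ y : N.toStarSubalgebra, ‖L y‖ ≤ ‖(y : H →L[ℂ] H)‖ := fun y =>
    NonUnitalStarAlgHom.norm_apply_le L y
  have hRn : ∀ y : N.toStarSubalgebra, ‖R (MulOpposite.op y)‖ ≤ ‖(y : H →L[ℂ] H)‖ := fun y =>
    NonUnitalStarAlgHom.norm_apply_le R (MulOpposite.op y)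
  obtain ⟨E, _, _, J, L', R', hL1, hR1, hL2, hR2, hJ, hL3, hR3, hc⟩ :=
    dilate N.toStarSubalgebra L R hLn hRn hLR
  let D : (H →L[ℂ] H) →L[ℂ] E := LinearMap.mkContinuous
    { toFun := fun x => L' x (J ξ) - R' x (J ξ)
      map_add' := fun x y => by simp only [map_add, add_apply]; abel
      map_smul' := fun c x => by
        simp only [map_smul, smul_apply, smul_sub, RingHom.id_apply] }
      2 fun x => by
        have h1 := hL2 x (J ξ)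
        have h2 := hR2 x (J ξ)
        rw [hJ, hξ] at h1 h2
        have := norm_sub_le (L' x (J ξ)) (R' x (J ξ))
        simp only [LinearMap.coe_mk, AddHom.coe_mk]
        linarith
  have hD : ∀ x, D x = L' x (J ξ) - R' x (J ξ) := fun x => rfl
  exact ⟨E, inferInstance, inferInstance, D, _, _, J ξ, fun x =>
    (D.le_opNorm x).trans (by gcongr; exact LinearMap.mkContinuous_norm_le _ zero_le_two _),
    fun y => by rw [hD, hL3, hR3, ← map_sub, hJ],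
    setup_restrict M N L' R' hL1 hR1 hL2 hR2 hc hγ0 hγ hMN, by rw [hJ, hξ], fun x => rfl⟩

theorem transfer' (M N : VonNeumannAlgebra H) (S : Set M.toStarSubalgebra) {c : ℝ} (hc : 1 ≤ c)
    (hS : ∀ x ∈ M, ‖x‖ ≤ 1 → ∀ (T : Finset H) (ε : ℝ), 0 < ε → ∃ b ∈ S,
      ‖(b : H →L[ℂ] H)‖ ≤ c ∧ ∀ v ∈ T, ‖(b : H →L[ℂ] H) v - x v‖ < ε)
    (F : Finset M.toStarSubalgebra) (hF : ∀ a ∈ F, ‖(a : H →L[ℂ] H)‖ ≤ 1) {t γ : ℝ} (hγ0 : 0 < γ)
    (hγ : 4 * γ ≤ t) (hγ1 : c * γ ≤ 1 / 40)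
    (hrob : ∀ (K : Type (max v w)) [NormedAddCommGroup K] [InnerProductSpace ℂ K]
      (L R : M.toStarSubalgebra →ₗ[ℂ] K →L[ℂ] K), Setup L R t → ∀ ζ : K, ‖ζ‖ = 1 →
      (∀ a ∈ F, ‖L a ζ - R a ζ‖ ≤ t) → ∀ x ∈ S, ‖L x ζ - R x ζ‖ ≤ 1 / 4)
    (hkk : kkDist M N < γ) : HasT.{v, w} N := by
  classical
  obtain ⟨hMN, hNM⟩ := kk_approx hkk
  choose ap hap1 hap2 hap3 using fun x : M.toStarSubalgebra => approx_scale hMN x.2
  have hc0 : 0 < c := by linarith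
  refine hasT_of_uniform N (F.image fun a => ⟨ap a, hap1 a⟩) (δ := 2 * γ) (c := 3 / 4)
    (by positivity) (by norm_num) fun K _ _ _ L R hLR hL hR ξ hξ hξF z hz => ?_
  obtain ⟨E, _, _, D, L', R', ζ, hD2, hDN, hSt, hζ, hD⟩ :=
    exists_defect' M N hγ0.le hγ hMN L R hLR hξ
  have hA0 := hrob E L' R' hSt ζ hζ fun a ha => by
    have h1 := hξF _ (Finset.mem_image_of_mem _ ha)
    rw [← hDN] at h1
    have h2 := hD2 (a - ap a)
    have h3 := hap3 a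
    have h4 : γ * ‖(a : H →L[ℂ] H)‖ ≤ γ * 1 := by gcongr; exact hF a ha
    have h5 := norm_le_norm_add_norm_sub' (D a) (D (ap a))
    rw [map_sub] at h2
    simp only at h1
    rw [hD]
    linarith
  simp only [hD] at hA0
  clear hrob
  obtain ⟨x, hxM, hx1, hx2⟩ := hNM z z.2 hz
  obtain ⟨U, y, y₀, hy2, hy3, hy₀, hy₀x⟩ := exists_net' M N S hc0 hγ0.le hMN (hS x hxM hx1)
  have hnorm : ∀ φ : N.toStarSubalgebra → K →L[ℂ] K, IsNormalMap N φ → ∀ θ,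
      Tendsto (fun p => ⟪θ, φ (y p) ξ⟫_ℂ) U (𝓝 ⟪θ, φ y₀ ξ⟫_ℂ) := fun φ hφ θ =>
    hφ (map y U) y₀ (eventually_map.2 (Eventually.of_forall hy2)) hy₀ ξ θ
  have hci : 0 < c⁻¹ := inv_pos.2 hc0
  have hDy₀ : ‖D y₀‖ ≤ c⁻¹ * (1 / 4) + 2 * γ := by
    rw [hDN]
    refine norm_le_of_weak (l := U) (v := fun p => L (y p) ξ - R (MulOpposite.op (y p)) ξ)
      (by linarith [mul_pos hci (show (0 : ℝ) < 1 / 4 by norm_num)]) (fun p => ?_) ?_
    · rw [← hDN]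
      obtain ⟨b, hb, h3⟩ := hy3 p
      have h1 := mul_le_mul_of_nonneg_left (hA0 b hb) hci.le
      have h2 := hD2 (((c⁻¹ : ℝ) : ℂ) • (b : H →L[ℂ] H) - y p)
      have h5 := norm_le_norm_add_norm_sub (D (((c⁻¹ : ℝ) : ℂ) • (b : H →L[ℂ] H))) (D (y p))
      rw [map_sub] at h2
      rw [map_smul, norm_smul, Complex.norm_real, Real.norm_of_nonneg hci.le, ← map_smul] at h5
      linarith
    · simp only [inner_sub_right]
      exact (hnorm _ hL _).sub (hnorm _ hR _)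
  rw [← hDN]
  have e : (z : H →L[ℂ] H) = (c : ℂ) • (y₀ : H →L[ℂ] H) -
      (c : ℂ) • ((y₀ : H →L[ℂ] H) - ((c⁻¹ : ℝ) : ℂ) • x) + (z - x) := by
    rw [smul_sub, smul_smul, ← Complex.ofReal_mul, mul_inv_cancel₀ hc0.ne']; simp
  have h1 := hD2 ((c : ℂ) • ((y₀ : H →L[ℂ] H) - ((c⁻¹ : ℝ) : ℂ) • x))
  have h2 := hD2 (z - x)
  have h3 : ‖D z‖ ≤ ‖D ((c : ℂ) • (y₀ : H →L[ℂ] H))‖ +
      ‖D ((c : ℂ) • ((y₀ : H →L[ℂ] H) - ((c⁻¹ : ℝ) : ℂ) • x))‖ + ‖D (z - x)‖ := by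
    conv_lhs => rw [e, map_add, map_sub]
    exact (norm_add_le _ _).trans (add_le_add_left (norm_sub_le _ _) _)
  rw [map_smul, norm_smul, Complex.norm_real, Real.norm_of_nonneg hc0.le] at h3
  rw [norm_smul, Complex.norm_real, Real.norm_of_nonneg hc0.le] at h1
  have h4 := mul_le_mul_of_nonneg_left hDy₀ hc0.le
  rw [mul_add, ← mul_assoc, mul_inv_cancel₀ hc0.ne'] at h4
  have h5 := mul_le_mul_of_nonneg_left hy₀x hc0.le
  have h6 : γ ≤ c * γ := le_mul_of_one_le_left hγ0.le hc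
  linarith

section cstar
variable {B : Type*} [CStarAlgebra B] {K : Type*} [NormedAddCommGroup K] [InnerProductSpace ℂ K]

theorem exists_sq_compl (x : B) : ∃ b : B, star x * x + star b * b = ((‖x‖ ^ 2 : ℝ) : ℂ) • 1 := by
  let := CStarAlgebra.spectralOrder B
  have := CStarAlgebra.spectralOrderedRing B
  have h : 0 ≤ algebraMap ℝ B (‖x‖ ^ 2) - star x * x := by
    rw [sub_nonneg, sq, ← CStarRing.norm_star_mul_self]
    exact (IsSelfAdjoint.star_mul_self x).le_algebraMap_norm_self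
  refine ⟨CFC.sqrt (algebraMap ℝ B (‖x‖ ^ 2) - star x * x), ?_⟩
  rw [(IsSelfAdjoint.of_nonneg
    (CFC.sqrt_nonneg (algebraMap ℝ B (‖x‖ ^ 2) - star x * x))).star_eq, CFC.sqrt_mul_sqrt_self _ h,
    add_sub_cancel, Algebra.algebraMap_eq_smul_one, Complex.coe_smul]

theorem IsRep.norm_le_cstar {L : B →ₗ[ℂ] K →L[ℂ] K} (h : IsRep L) (x : B) (η : K) :
    ‖L x η‖ ≤ ‖x‖ * ‖η‖ := by
  obtain ⟨b, hb⟩ := exists_sq_compl x
  have hsq : ∀ y : B, ‖L y η‖ ^ 2 = (⟪η, L (star y * y) η⟫_ℂ).re := fun y => by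
    rw [h.mul, ← h.adj]; exact (inner_self_eq_norm_sq (𝕜 := ℂ) _).symm
  have h1 : ‖L x η‖ ^ 2 + ‖L b η‖ ^ 2 = ‖x‖ ^ 2 * ‖L 1 η‖ ^ 2 := by
    rw [hsq, hsq, hsq, ← Complex.add_re, ← inner_add_right, ← add_apply, ← map_add, hb, map_smul,
      smul_apply, inner_smul_right, Complex.re_ofReal_mul, star_one, one_mul]
  have h2 := h.norm_le (u := 1) (by simp) η
  have h3 : ‖x‖ ^ 2 * ‖L 1 η‖ ^ 2 ≤ ‖x‖ ^ 2 * ‖η‖ ^ 2 := by gcongr
  refine le_of_sq_le_sq ?_ (by positivity)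
  nlinarith [sq_nonneg ‖L b η‖]

theorem IsAnti.norm_le_cstar {R : B →ₗ[ℂ] K →L[ℂ] K} (h : IsAnti R) (x : B) (η : K) :
    ‖R x η‖ ≤ ‖x‖ * ‖η‖ := by
  obtain ⟨b, hb⟩ := exists_sq_compl (star x)
  rw [norm_star] at hb
  have hsq : ∀ y : B, ‖R (star y) η‖ ^ 2 = (⟪η, R (star y * y) η⟫_ℂ).re := fun y => by
    rw [h.mul, ← star_star y, ← h.adj, star_star]
    exact (inner_self_eq_norm_sq (𝕜 := ℂ) _).symm
  have h1 : ‖R (star (star x)) η‖ ^ 2 + ‖R (star b) η‖ ^ 2 = ‖x‖ ^ 2 * ‖R (star 1) η‖ ^ 2 := by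
    rw [hsq, hsq, hsq, ← Complex.add_re, ← inner_add_right, ← add_apply, ← map_add, hb, map_smul,
      smul_apply, inner_smul_right, Complex.re_ofReal_mul, star_one, one_mul]
  rw [star_star, star_one] at h1
  have h2 := h.norm_le (u := 1) (by simp) η
  have h3 : ‖x‖ ^ 2 * ‖R 1 η‖ ^ 2 ≤ ‖x‖ ^ 2 * ‖η‖ ^ 2 := by gcongr
  refine le_of_sq_le_sq ?_ (by positivity)
  nlinarith [sq_nonneg ‖R (star b) η‖]

end cstar

end Pool.Agent.MP_890ef7_an
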