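import Mathlib
import Pool.Agent.Mg.F890ef7p.G5be8a0
import Pool.Agent.Mg.F890ef7p.Gb4b1e0
import Pool.Agent.Mg.F890ef7p.Gd322a8

section

/-! The robust gap for algebras all of whose derivations are inner. -/

open scoped InnerProductSpace
open Filter Topology

namespace Pool.Agent.MP_890ef7_an

universe v w

section amp
variable {B : Type*} [NormedRing B] [StarRing B] [NormedAlgebra ℂ B] [StarModule ℂ B]
  {K : Type*} [NormedAddCommGroup K] [InnerProductSpace ℂ K]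
  {n : Type*} [Fintype n] [DecidableEq n]

/-- amplified left action as a linear map. -/
noncomputable def LmL (L : B →ₗ[ℂ] K →L[ℂ] K) : Matrix n n B →ₗ[ℂ] KM n K →L[ℂ] KM n K where
  toFun := Lm L
  map_add' X Y := by ext η ik; simp [Finset.sum_add_distrib]
  map_smul' c X := by ext η ik; simp [Finset.smul_sum]

/-- amplified right action as a linear map. -/
noncomputable def RmL (R : B →ₗ[ℂ] K →L[ℂ] K) : Matrix n n B →ₗ[ℂ] KM n K →L[ℂ] KM n K where
  toFun := Rm R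
  map_add' X Y := by ext η ik; simp [Finset.sum_add_distrib]
  map_smul' c X := by ext η ik; simp [Finset.smul_sum]

theorem norm_Lm_le {L : B →ₗ[ℂ] K →L[ℂ] K} (h : ∀ x η, ‖L x η‖ ≤ ‖x‖ * ‖η‖) {X : Matrix n n B}
    {c : ℝ} (hc : 0 ≤ c) (hX : ∀ i j, ‖X i j‖ ≤ c) (η : KM n K) :
    ‖Lm L X η‖ ≤ Fintype.card n * (Fintype.card n * (c * ‖η‖)) := by
  refine norm_KM_le _ (by positivity) fun ik => ?_
  rw [Lm_apply]
  refine (norm_sum_le _ _).trans ((Finset.sum_le_sum (g := fun _ => c * ‖η‖)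
    fun p _ => (h _ _).trans ?_).trans_eq (by simp))
  have h1 := hX ik.1 p
  have h2 := PiLp.norm_apply_le η (p, ik.2)
  gcongr

theorem norm_Rm_le {R : B →ₗ[ℂ] K →L[ℂ] K} (h : ∀ x η, ‖R x η‖ ≤ ‖x‖ * ‖η‖) {X : Matrix n n B}
    {c : ℝ} (hc : 0 ≤ c) (hX : ∀ i j, ‖X i j‖ ≤ c) (η : KM n K) :
    ‖Rm R X η‖ ≤ Fintype.card n * (Fintype.card n * (c * ‖η‖)) := by
  refine norm_KM_le _ (by positivity) fun ik => ?_
  rw [Rm_apply]
  refine (norm_sum_le _ _).trans ((Finset.sum_le_sum (g := fun _ => c * ‖η‖)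
    fun p _ => (h _ _).trans ?_).trans_eq (by simp))
  have h1 := hX p ik.2
  have h2 := PiLp.norm_apply_le η (ik.1, p)
  gcongr

theorem norm_comm_le' {L R : B →ₗ[ℂ] K →L[ℂ] K} {γ : ℝ} (hγ : 0 ≤ γ)
    (h : ∀ x y η, ‖L x (R y η) - R y (L x η)‖ ≤ γ * ‖x‖ * ‖y‖ * ‖η‖)
    {X Y : Matrix n n B} {c d : ℝ} (hc : 0 ≤ c) (hd : 0 ≤ d) (hX : ∀ i j, ‖X i j‖ ≤ c)
    (hY : ∀ i j, ‖Y i j‖ ≤ d) (η : KM n K) :
    ‖Lm L X (Rm R Y η) - Rm R Y (Lm L X η)‖ ≤ (Fintype.card n) ^ 3 * γ * c * d * ‖η‖ := by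
  refine (norm_KM_le _ (c := (Fintype.card n) ^ 2 * (γ * c * d * ‖η‖)) (by positivity)
    fun ik => ?_).trans_eq (by ring)
  have : (Lm L X (Rm R Y η) - Rm R Y (Lm L X η)) ik = ∑ p, ∑ q,
      (L (X ik.1 p) (R (Y q ik.2) (η (p, q))) - R (Y q ik.2) (L (X ik.1 p) (η (p, q)))) := by
    simp only [PiLp.sub_apply, Lm_apply, Rm_apply, map_sum, Finset.sum_sub_distrib]
    congr 1
    exact Finset.sum_comm
  rw [this]
  calc _ ≤ ∑ p, ∑ q, ‖(L (X ik.1 p) (R (Y q ik.2) (η (p, q))) -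
        R (Y q ik.2) (L (X ik.1 p) (η (p, q))))‖ :=
        (norm_sum_le _ _).trans (Finset.sum_le_sum fun p _ => norm_sum_le _ _)
    _ ≤ ∑ _p : n, ∑ _q : n, γ * c * d * ‖η‖ :=
        Finset.sum_le_sum fun p _ => Finset.sum_le_sum fun q _ => (h _ _ _).trans (by
          have h1 := hX ik.1 p
          have h2 := hY q ik.2
          have h3 := PiLp.norm_apply_le η (p, q)
          gcongr)
    _ = _ := by simp; ring

/-- conjugated scalar matrices. -/
noncomputable def cj (g : unitary (M2 B)) : B →ₗ[ℂ] M2 B where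
  toFun x := (g : M2 B) * scal x * star (g : M2 B)
  map_add' x y := by rw [scal_add, mul_add, add_mul]
  map_smul' c x := by rw [scal_smul, mul_smul_comm, smul_mul_assoc]; rfl

theorem cj_apply (g : unitary (M2 B)) (x : B) :
    cj g x = (g : M2 B) * scal x * star (g : M2 B) := rfl

theorem cj_mul (g : unitary (M2 B)) (x y : B) : cj g (x * y) = cj g x * cj g y := by
  simp only [cj_apply, scal_mul]
  calc _ = (g : M2 B) * scal x * (star (g : M2 B) * (g : M2 B)) * scal y * star (g : M2 B) := by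
        rw [g.2.1, mul_one]; simp only [mul_assoc]
    _ = _ := by simp only [mul_assoc]

theorem cj_star (g : unitary (M2 B)) (x : B) : cj g (star x) = star (cj g x) := by
  simp only [cj_apply, star_mul, star_star, star_scal, mul_assoc]

theorem cj_one (g : unitary (M2 B)) : cj g 1 = 1 := by
  rw [cj_apply, scal_one, mul_one, g.2.2]

/-- the approximate derivation. -/
noncomputable def dd (a : Bil B K) (g : unitary (M2 B)) : B →ₗ[ℂ] KM (Fin 2) K where
  toFun y := hat (tw a y 1) (g : M2 B) (star (g : M2 B))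
  map_add' x y := by
    ext ik; simp [mul_add, add_mul, Finset.sum_add_distrib]; abel
  map_smul' c x := by
    ext ik; simp [smul_sub]

theorem dd_apply (a : Bil B K) (g : unitary (M2 B)) (y : B) :
    dd a g y = hat (tw a y 1) (g : M2 B) (star (g : M2 B)) := rfl

variable {L R : B →ₗ[ℂ] K →L[ℂ] K} {γ : ℝ}

theorem Setup.cj_le (hS : Setup L R γ) (g : unitary (M2 B)) (x : B) (i j : Fin 2) :
    ‖cj g x i j‖ ≤ 2 * ‖x‖ := by
  have h1 := hS.entry_le g.2
  have h2 := hS.entry_le (Unitary.star_mem g.2)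
  have h3 : ∀ p, ‖(g : M2 B) i p * x * (star (g : M2 B)) p j‖ ≤ ‖x‖ := fun p => by
    have k1 := h1 i p
    have k2 := h2 p j
    calc _ ≤ ‖(g : M2 B) i p‖ * ‖x‖ * ‖(star (g : M2 B)) p j‖ :=
          (norm_mul_le _ _).trans (by gcongr; exact norm_mul_le _ _)
      _ ≤ 1 * ‖x‖ * 1 := by gcongr
      _ = _ := by ring
  have e : cj g x i j = ∑ p, (g : M2 B) i p * x * (star (g : M2 B)) p j := by
    rw [cj_apply, Matrix.mul_apply]
    simp [scal]
  rw [e, Fin.sum_univ_two]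
  have := (norm_add_le _ _).trans (add_le_add (h3 0) (h3 1))
  linarith

theorem Lm_cj_hat {a : Bil B K} (ha : LMod L a) (g : unitary (M2 B)) (x : B) (Y : M2 B) :
    Lm L (cj g x) (hat a (g : M2 B) Y) = hat a ((g : M2 B) * scal x) Y := by
  rw [← hat_left ha, cj_apply, mul_assoc, g.2.1, mul_one]

theorem Rm_cj_hat {b : Bil B K} (hb : RMod R b) (g : unitary (M2 B)) (y : B) (X : M2 B) :
    Rm R (cj g y) (hat b X (star (g : M2 B))) = hat b X (scal y * star (g : M2 B)) := by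
  rw [← hat_right hb, cj_apply, ← mul_assoc, ← mul_assoc, g.2.1, one_mul]

theorem ph_tu_sub {a : Bil B K} (ha : LMod L a) (g : unitary (M2 B)) (x : unitary B) :
    ph (tu a x) g - ph a g = -Lm L (cj g x) (dd a g (star (x : B))) := by
  rw [dd_apply, Lm_cj_hat (ha.tw _ _)]
  ext ik
  simp [ph, scal, mul_assoc, Finset.sum_sub_distrib]

theorem Setup.apDer (hS : Setup L R γ) (hγ : γ ≤ 1 / 48) {κ : Type*} {u : κ → unitary B} {i₁ : κ}
    {σ : κ → κ} (h1 : u i₁ = 1) (hσ : ∀ i, u (σ i) = (u i)⁻¹) {m : ℕ} {a b : Bil B K}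
    (ha : LMod L a) (hb : RMod R b) (g : unitary (M2 B)) {e θ : ℝ}
    (ho : ∀ h, IsW (UW u) (3 * m + 3) h → ‖ph (a - b) (g * h) - ph (a - b) g‖ ≤ e)
    (h2 : 108 * e ≤ θ) (h3 : 96 * γ ≤ θ) :
    ApDer u (LmL L ∘ₗ cj g) (RmL R ∘ₗ cj g) (dd a g) m θ where
  rep := ⟨fun x y η => by
      change Lm L (cj g (x * y)) η = Lm L (cj g x) (Lm L (cj g y) η)
      rw [cj_mul, (isRep_Lm hS.rep).mul], fun x η ζ => by
      change ⟪Lm L (cj g x) η, ζ⟫_ℂ = ⟪η, Lm L (cj g (star x)) ζ⟫_ℂ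
      rw [cj_star, (isRep_Lm hS.rep).adj]⟩
  anti := ⟨fun x y η => by
      change Rm R (cj g (x * y)) η = Rm R (cj g y) (Rm R (cj g x) η)
      rw [cj_mul, (isAnti_Rm hS.anti).mul], fun x η ζ => by
      change ⟪Rm R (cj g x) η, ζ⟫_ℂ = ⟪η, Rm R (cj g (star x)) ζ⟫_ℂ
      rw [cj_star, (isAnti_Rm hS.anti).adj]⟩
  nL x η := (norm_Lm_le hS.nL (by positivity) (hS.cj_le g x) η).trans_eq (by simp; ring)
  nR x η := (norm_Rm_le hS.nR (by positivity) (hS.cj_le g x) η).trans_eq (by simp; ring)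
  comm x y η := by
    refine (norm_comm_le' hS.γ0 hS.comm (by positivity) (by positivity) (hS.cj_le g x)
      (hS.cj_le g y) η).trans ?_
    have := hS.γ0
    calc _ = 32 * γ * ‖x‖ * ‖y‖ * ‖η‖ := by simp only [Fintype.card_fin]; push_cast; ring
      _ ≤ _ := by gcongr; linarith
  one y := by
    change Lm L (cj g 1) (dd a g y) = _
    rw [cj_one, dd_apply, ← hat_left (ha.tw _ _), one_mul]
  d1 := by
    rw [dd_apply]; ext ik; simp
  leib x y hx hy := by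
    have he : 0 ≤ e := (norm_nonneg _).trans (ho 1 (IsW.one _))
    have r1 := hS.rel h1 hσ hx hy ha hb g ho
    have r2 := hS.rel h1 hσ hx (IsW.one m) ha hb g ho
    rw [OneMemClass.coe_one, ← dd_apply, ← dd_apply] at r2
    have e1 : dd a g ((x : B) * y) - Lm L (cj g x) (dd a g y) =
        hat (tw a x y) (g : M2 B) (star (g : M2 B)) := by
      rw [dd_apply, dd_apply, Lm_cj_hat (ha.tw _ _)]
      ext ik
      simp [scal, mul_assoc, Finset.sum_sub_distrib]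
    have e2 : Rm R (cj g y) (dd b g x) = hat (tw b x y) (g : M2 B) (star (g : M2 B)) := by
      rw [dd_apply, Rm_cj_hat (hb.tw _ _)]
      ext ik
      simp [scal, mul_assoc]
    have hu : cj g y * star (cj g (y : B)) = 1 := by rw [← cj_star, ← cj_mul, y.2.2, cj_one]
    have k1 := (isAnti_Rm hS.anti).norm_le hu (dd b g x)
    have k2 := (isAnti_Rm hS.anti).norm_le hu (dd a g x - dd b g x)
    rw [← e1, ← e2] at r1
    change ‖dd a g ((x : B) * y) - (Lm L (cj g x) (dd a g y) + Rm R (cj g y) (dd a g x))‖ ≤ _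
    have e3 : dd a g ((x : B) * y) - (Lm L (cj g x) (dd a g y) + Rm R (cj g y) (dd a g x)) =
        (dd a g ((x : B) * y) - Lm L (cj g x) (dd a g y) - Rm R (cj g y) (dd b g x)) -
          Rm R (cj g y) (dd a g x - dd b g x) := by rw [map_sub]; abel
    rw [e3]
    refine (norm_sub_le _ _).trans ?_
    have k3 := norm_sub_norm_le (dd b g x) (dd a g x)
    rw [norm_sub_rev] at k3
    have hγ0 := hS.γ0
    set N := ‖dd b g x‖
    set A := ‖dd a g x‖
    have hN : 0 ≤ N := norm_nonneg _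
    have hA : 0 ≤ A := norm_nonneg _
    have k4 : γ * N ≤ 1 / 48 * N := by gcongr
    have k5 : N ≤ 2 * A + 54 * e := by linarith
    have k6 : γ * N ≤ γ * (2 * A + 54 * e) := by gcongr
    have k7 : γ * e ≤ 1 / 48 * e := by gcongr
    have k8 : γ * ‖Rm R (cj g y) (dd b g x)‖ ≤ γ * N := by gcongr
    have k9 : 96 * γ * A ≤ θ * A := by gcongr
    nlinarith

end amp

theorem Setup.mono {B : Type*} [NormedRing B] [StarRing B] [NormedAlgebra ℂ B] [StarModule ℂ B]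
    {K : Type*} [NormedAddCommGroup K] [InnerProductSpace ℂ K] {L R : B →ₗ[ℂ] K →L[ℂ] K}
    {γ γ' : ℝ} (hS : Setup L R γ) (h : γ ≤ γ') : Setup L R γ' :=
  { hS with
    γ0 := hS.γ0.trans h
    comm := fun x y η => (hS.comm x y η).trans (by gcongr) }

variable {B : Type v} [NormedRing B] [StarRing B] [NormedAlgebra ℂ B] [StarModule ℂ B]
  {κ : Type*} [Fintype κ] [Nonempty κ] {u : κ → unitary B}

theorem en_sub {G ι V : Type*} [Monoid G] [Fintype ι] [Nonempty ι] [NormedAddCommGroup V]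
    [NormedSpace ℂ V] (s : ι → G) (Φ : G → V) (c : V) :
    en s (fun p => Φ p - c) = en s Φ ∧ en s (step s fun p => Φ p - c) = en s (step s Φ) := by
  have h : ∀ g, step s (fun p => Φ p - c) g = step s Φ g - c := fun g => by
    have e1 := step_sub s (fun p => Φ p - c) g
    have e2 := step_sub s Φ g
    simp only [sub_sub_sub_cancel_right] at e1
    rw [← e2, sub_eq_iff_eq_add] at e1
    rw [e1]; abel
  simp only [en, h, sub_sub_sub_cancel_right, and_self]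

theorem inner_cocycle {E : Type*} [NormedAddCommGroup E] [InnerProductSpace ℂ E]
    [CompleteSpace E] (L' : B →⋆ₐ[ℂ] (E →L[ℂ] E)) (R' : Bᵐᵒᵖ →⋆ₐ[ℂ] (E →L[ℂ] E))
    (hc : ∀ x y, L' x * R' y = R' y * L' x) (ξ : E) (c : unitary B → E)
    (hv : ∀ p, c p = -L' p (L' (star (p : B)) ξ - R' (MulOpposite.op (star (p : B))) ξ)) :
    c 1 = 0 ∧ (∀ p q, ‖c (p * q) - c p‖ = ‖c q‖) ∧ ∀ p, ‖c p‖ ^ 2 ≤ (2 * ‖ξ‖) ^ 2 := by
  have hLi : ∀ (p : unitary B) x, ‖L' p x‖ = ‖x‖ := fun p x =>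
    ContinuousLinearMap.norm_map_of_mem_unitary (Unitary.map_mem L' p.2) x
  have hRi : ∀ (p : unitary B) x, ‖R' (MulOpposite.op (star (p : B))) x‖ = ‖x‖ := fun p x =>
    ContinuousLinearMap.norm_map_of_mem_unitary (Unitary.map_mem R' (by
      rw [Unitary.mem_iff, ← MulOpposite.op_star, star_star, ← MulOpposite.op_mul,
        ← MulOpposite.op_mul, p.2.1, p.2.2]
      exact ⟨rfl, rfl⟩)) x
  have hcm : ∀ x y η, L' x (R' y η) = R' y (L' x η) := fun x y η =>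
    congrArg (fun S : E →L[ℂ] E => S η) (hc x y)
  have hv' : ∀ p, c p = L' p (R' (MulOpposite.op (star (p : B))) ξ) - ξ := fun p => by
    have e : L' p (L' (star (p : B)) ξ) = ξ := by
      rw [← ContinuousLinearMap.mul_apply (L' _) (L' _), ← map_mul, p.2.2, map_one]; rfl
    rw [hv, map_sub, e, neg_sub]
  refine ⟨by simp [hv'], fun p q => ?_, fun p => ?_⟩
  · rw [← hRi p (c q), ← hLi p (R' _ (c q))]
    congr 1
    simp only [hv', Submonoid.coe_mul, star_mul, MulOpposite.op_mul, map_mul,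
      ContinuousLinearMap.mul_apply, map_sub, hcm]
    abel
  · have h2 := norm_sub_le (L' p (R' (MulOpposite.op (star (p : B))) ξ)) ξ
    rw [hLi, hRi, ← hv'] at h2
    gcongr
    linarith

theorem no_seq {A : StarSubalgebra ℂ B} (hA1 : ∀ (w : unitary B) n, IsW u n w → (w : B) ∈ A)
    (hA2 : ∀ x ∈ A, x ∈ Submodule.span ℂ {v : B | ∃ (w : unitary B) (n : ℕ), IsW u n w ∧ v = w})
    (hA : DerInner A) (σ : κ ≃ κ) (hσ : ∀ i, u (σ i) = (u i)⁻¹) (s : κ → Gw u σ hσ)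
    (hs : ∀ i, (s i : unitary B) = u i)
    (hcon2 : ∀ n : ℕ, ∃ (K : Type w) (_ : NormedAddCommGroup K) (_ : InnerProductSpace ℂ K)
      (L R : B →ₗ[ℂ] K →L[ℂ] K) (d : B →ₗ[ℂ] K), ApDer u L R d n (1 / ((n : ℝ) + 1)) ∧
      (1 - 1 / ((n : ℝ) + 2)) * en s (fun p => -L (p : unitary B) (d (star (p : unitary B)))) ≤ 1 ∧
      en s (step s fun p => -L (p : unitary B) (d (star (p : unitary B)))) = 1) : False := by
  have hN : (0 : ℝ) < Fintype.card κ := by exact_mod_cast Fintype.card_pos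
  have hone : ∀ n : ℕ, 1 / ((n : ℝ) + 1) ≤ 1 := fun n => by
    rw [div_le_one (by positivity)]
    have : (0 : ℝ) ≤ n := n.cast_nonneg
    linarith
  have hσs : ∀ i, s (σ i) = (s i)⁻¹ := fun i => Subtype.ext (by
    rw [Subgroup.coe_inv, hs, hs, hσ])
  choose K i1 i2 L R d hap hen hst using hcon2
  set β : ∀ n, Gw u σ hσ → K n := fun n p => -L n (p : unitary B) (d n (star (p : unitary B)))
    with hβ
  have hen2 : ∀ n, en s (β n) ≤ 2 := fun n => by
    have h2 : 1 / ((n : ℝ) + 2) ≤ 1 / 2 := by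
      gcongr
      have : (0 : ℝ) ≤ n := n.cast_nonneg
      linarith
    have := hen n
    have h3 := en_nonneg s (β n)
    nlinarith
  have hβ1 : ∀ n, β n 1 = 0 := fun n => by simp [hβ, (hap n).d1]
  have hgenb : ∀ n i, ‖d n (u i)‖ ≤ 1 + 2 * Fintype.card κ := fun n i => by
    have h2 : ‖β n (s (σ i)) - β n 1‖ ^ 2 ≤ ∑ j, ‖β n (s j) - β n 1‖ ^ 2 :=
      Finset.single_le_sum (f := fun j => ‖β n (s j) - β n 1‖ ^ 2) (fun _ _ => by positivity)
        (Finset.mem_univ _)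
    have h3 := hen2 n
    rw [en, inv_mul_le_iff₀ hN] at h3
    have h4 := h2.trans h3
    have h5 : ‖β n (s (σ i))‖ = ‖d n (u i)‖ := by
      simp only [hβ, norm_neg, hs]
      rw [(hap n).rep.norm_eq (u (σ i)).2.1, (hap n).one, hσ, ← Unitary.star_eq_inv,
        Unitary.coe_star, star_star]
    rw [hβ1, sub_zero, h5] at h4
    nlinarith [norm_nonneg (d n (u i)), sq_nonneg (‖d n (u i)‖ - 1)]
  obtain ⟨E, _, _, _, L', R', δ, hc, hδ, hlim⟩ := limit_der hA1 hA2 hap (fun n => by positivity)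
    hone tendsto_one_div_add_atTop_nhds_zero_nat hgenb
  obtain ⟨ξ, hξ⟩ := hA E L' R' hc δ hδ
  have hmem : ∀ p : Gw u σ hσ, star ((p : unitary B) : B) ∈ A := fun p => by
    obtain ⟨n, hn⟩ := p.2
    exact star_mem (hA1 _ n hn)
  let v : Gw u σ hσ → E := fun p => -L' (p : unitary B) (δ ⟨_, hmem p⟩)
  let U := hyperfilter ℕ
  have hlc : ∀ f : Gw u σ hσ →₀ ℂ, Tendsto (fun n => ‖Finsupp.linearCombination ℂ (β n) f‖) U
      (𝓝 ‖Finsupp.linearCombination ℂ v f‖) := fun f => by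
    have := hlim f.support f (fun p => (p : unitary B)) (fun p => ⟨_, hmem p⟩) fun p => by
      obtain ⟨n, hn⟩ := p.2
      exact ⟨_, n, hn.inv σ hσ, by rw [← Unitary.star_eq_inv]; rfl⟩
    simpa only [Finsupp.linearCombination_apply, Finsupp.sum, hβ, v, smul_neg,
      Finset.sum_neg_distrib, norm_neg] using this
  have hl2 : ∀ p q, Tendsto (fun n => ‖β n p - β n q‖) U (𝓝 ‖v p - v q‖) := fun p q => by
    simpa only [map_sub, Finsupp.linearCombination_single, one_smul] using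
      hlc (Finsupp.single p (1 : ℂ) - Finsupp.single q (1 : ℂ))
  have hl3 : ∀ p q, Tendsto (fun n => ‖step s (β n) p - step s (β n) q‖) U
      (𝓝 ‖step s v p - step s v q‖) := fun p q => by
    have := hlc (step s (fun g => Finsupp.single g (1 : ℂ)) p -
      step s (fun g => Finsupp.single g (1 : ℂ)) q)
    simpa only [map_sub, ← step_map, Finsupp.linearCombination_single, one_smul] using this
  obtain ⟨c1, c2, c3⟩ := inner_cocycle L' R' hc ξ _ fun p => rfl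
  have hv : ∀ p : Gw u σ hσ, v p = -L' (p : unitary B) (L' (star ((p : unitary B) : B)) ξ -
      R' (MulOpposite.op (star ((p : unitary B) : B))) ξ) := fun p => by simp only [v, hξ]
  have hz2 : Tendsto (fun n : ℕ => 1 / ((n : ℝ) + 2)) U (𝓝 0) := by
    refine squeeze_zero (fun n => by positivity) (fun n => ?_)
      (tendsto_one_div_add_atTop_nhds_zero_nat.mono_left Nat.hyperfilter_le_atTop)
    gcongr; norm_num
  have he1 : Tendsto (fun n => en s (β n)) U (𝓝 (en s v)) := by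
    unfold en
    exact (tendsto_finsetSum _ fun i _ => (hl2 _ _).pow 2).const_mul _
  have he2 : Tendsto (fun n => en s (step s (β n))) U (𝓝 (en s (step s v))) := by
    unfold en
    exact (tendsto_finsetSum _ fun i _ => (hl3 _ _).pow 2).const_mul _
  have he3 : en s (step s v) = 1 :=
    tendsto_nhds_unique he2 (tendsto_const_nhds.congr fun n => (hst n).symm)
  have he4 : en s v ≤ 1 := by
    have h2 := (hz2.const_sub 1).mul he1
    rw [sub_zero, one_mul] at h2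
    exact le_of_tendsto h2 (Eventually.of_forall hen)
  have := exact_gap' s σ hσs v (by rw [hv]; exact c1) (fun p q => by
    rw [hv, hv, hv]; exact c2 p q) ⟨_, fun p => by rw [hv]; exact c3 p⟩ (by rw [he3]; exact he4)
  linarith

theorem exists_scale {Q E e ρ c : ℝ} (hρ : 0 ≤ ρ) (hE : 0 ≤ E) (hc : 0 < c)
    (hlt : ρ * E + (108 * c) ^ 2 * e ^ 2 < Q) :
    ∃ r : ℝ, 0 < r ∧ r ^ 2 * Q = 1 ∧ 108 * (r * e) ≤ 1 / c ∧ ρ * (r ^ 2 * E) ≤ 1 := by
  have hQ0 : 0 < Q := lt_of_le_of_lt (by positivity) hlt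
  have hr2 : (√Q)⁻¹ ^ 2 * Q = 1 := by
    rw [inv_pow, Real.sq_sqrt hQ0.le, inv_mul_cancel₀ hQ0.ne']
  refine ⟨(√Q)⁻¹, by positivity, hr2, ?_, ?_⟩
  · rw [le_div_iff₀ hc]
    refine le_of_sq_le_sq ?_ zero_le_one |>.trans_eq rfl
    calc (108 * ((√Q)⁻¹ * e) * c) ^ 2 = (√Q)⁻¹ ^ 2 * ((108 * c) ^ 2 * e ^ 2) := by ring
      _ ≤ (√Q)⁻¹ ^ 2 * Q := by
        gcongr
        have := mul_nonneg hρ hE
        linarith
      _ = 1 ^ 2 := by rw [hr2]; ring
  · have h3 : ρ * E ≤ Q := by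
      have : 0 ≤ (108 * c) ^ 2 * e ^ 2 := by positivity
      linarith
    calc _ = (√Q)⁻¹ ^ 2 * (ρ * E) := by ring
      _ ≤ (√Q)⁻¹ ^ 2 * Q := by gcongr
      _ = 1 := hr2

theorem nat_facts (n : ℕ) : 0 < (n : ℝ) + 1 ∧ 0 < 1 / ((n : ℝ) + 1) / 96 ∧
    1 / ((n : ℝ) + 1) / 96 ≤ 1 / 48 ∧ 0 ≤ 1 - 1 / ((n : ℝ) + 2) ∧ 1 - 1 / ((n : ℝ) + 2) < 1 := by
  have h0 : (0 : ℝ) ≤ n := n.cast_nonneg
  have h1 : 1 / ((n : ℝ) + 1) ≤ 1 := by rw [div_le_one (by positivity)]; linarith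
  have h2 : 1 / ((n : ℝ) + 2) ≤ 1 := by rw [div_le_one (by positivity)]; linarith
  have h3 : 0 < 1 / ((n : ℝ) + 2) := by positivity
  exact ⟨by positivity, by positivity, by linarith, by linarith, by linarith⟩

theorem h1_gap {A : StarSubalgebra ℂ B} (hA1 : ∀ (w : unitary B) n, IsW u n w → (w : B) ∈ A)
    (hA2 : ∀ x ∈ A, x ∈ Submodule.span ℂ {v : B | ∃ (w : unitary B) (n : ℕ), IsW u n w ∧ v = w})
    (hA : DerInner A) {i₁ : κ} (h1 : u i₁ = 1) (σ : κ ≃ κ) (hσ : ∀ i, u (σ i) = (u i)⁻¹) :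
    ∃ (m : ℕ) (t ρ C : ℝ), 0 < t ∧ ρ < 1 ∧ 0 ≤ C ∧
      ∀ (K : Type w) [NormedAddCommGroup K] [InnerProductSpace ℂ K]
        (L R : B →ₗ[ℂ] K →L[ℂ] K), Setup L R t →
        ∀ (a b : Bil B K) (g : unitary (M2 B)) (e : ℝ), LMod L a → RMod R b → 0 ≤ e →
        (∀ h, IsW (UW u) m h → ‖ph (a - b) (g * h) - ph (a - b) g‖ ≤ e) →
        EN u (Tm u a) g ≤ ρ * EN u a g + C * e ^ 2 := by
  by_contra hcon
  let s : κ → Gw u σ hσ := fun i => ⟨u i, 1, IsW.gen i⟩
  refine no_seq.{v, w} hA1 hA2 hA σ hσ s (fun _ => rfl) fun n => ?_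
  · by_contra hn
    apply hcon
    obtain ⟨n1, n2, n3, n4, n5⟩ := nat_facts n
    refine ⟨3 * n + 3, 1 / ((n : ℝ) + 1) / 96, 1 - 1 / ((n : ℝ) + 2), (108 * ((n : ℝ) + 1)) ^ 2,
      n2, n5, sq_nonneg _, fun K _ _ L R hS a b g e ha hb he ho => ?_⟩
    by_contra hlt
    obtain ⟨r, hr0, hr2, h2, h3⟩ := exists_scale n4 (EN_nonneg (u := u) a g) n1 (not_le.1 hlt)
    have hsc : ∀ x : KM (Fin 2) K, ‖(r : ℂ) • x‖ = r * ‖x‖ := fun x => by
      rw [norm_smul, Complex.norm_real, Real.norm_of_nonneg hr0.le]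
    have hph : ∀ (c : Bil B K) g, ph ((r : ℂ) • c) g = (r : ℂ) • ph c g := fun c g =>
      hat_smul _ _ _ _
    have hEN : ∀ c : Bil B K, EN u ((r : ℂ) • c) g = r ^ 2 * EN u c g := fun c => by
      have : ∀ x, tu ((r : ℂ) • c) x = (r : ℂ) • tu c x := fun x => map_smul (tuL x) _ _
      simp only [EN, this, hph, ← smul_sub, hsc, mul_pow, ← Finset.mul_sum]
      ring
    have hTm : Tm u ((r : ℂ) • a) = (r : ℂ) • Tm u a := by
      ext p q
      simp only [Tm_apply, LinearMap.smul_apply, smul_add, ← Finset.smul_sum,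
        smul_comm (r : ℂ)]
    have ha' : LMod L ((r : ℂ) • a) := fun z x y => by simp [ha z]
    have hb' : RMod R ((r : ℂ) • b) := fun x y z => by simp [hb _ _ z]
    have hap := hS.apDer n3 h1 hσ (m := n) ha' hb' g (e := r * e)
      (fun h hh => by
        have e0 : (r : ℂ) • a - (r : ℂ) • b = (r : ℂ) • (a - b) := by ext; simp [smul_sub]
        rw [e0, hph, hph, ← smul_sub, hsc]
        exact mul_le_mul_of_nonneg_left (ho h hh) hr0.le) h2 (le_of_eq (by ring))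
    have hen : ∀ c : Bil B K, en s (fun p => ph (tu c (p : unitary B)) g) = EN u c g := fun c => by
      simp only [en, EN, OneMemClass.coe_one, tu_one, s]
    have hstep : ∀ c : Bil B K, step s (fun p => ph (tu c (p : unitary B)) g) =
        fun p : Gw u σ hσ => ph (tu (Tm u c) (p : unitary B)) g := fun c => by
      funext p
      rw [tu_Tm]
      simp only [ph_eq]
      rw [← step_map]
      simp only [step, s, Subgroup.coe_mul]
    obtain ⟨k1, k2⟩ := en_sub s (fun p => ph (tu ((r : ℂ) • a) (p : unitary B)) g)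
      (ph ((r : ℂ) • a) g)
    simp only [ph_tu_sub ha'] at k1 k2
    rw [hen, hEN] at k1
    rw [hstep, hen, hTm, hEN, hr2] at k2
    refine hn ⟨_, inferInstance, inferInstance, _, _, _, hap, ?_, k2⟩
    exact le_of_eq_of_le (congrArg _ k1) h3

end Pool.Agent.MP_890ef7_an

end

section

/-! The core estimate for algebras all of whose derivations are inner. -/

open scoped InnerProductSpace
open Filter Topology

namespace Pool.Agent.MP_890ef7_an

universe v w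

section rot
variable {K : Type*} [NormedAddCommGroup K] [InnerProductSpace ℂ K]

/-- reflection in the line spanned by a unit vector. -/
noncomputable def rf (a : K) : K →L[ℂ] K := (2 : ℂ) • (innerSL ℂ a).smulRight a - 1

theorem rf_apply (a x : K) : rf a x = (2 * ⟪a, x⟫_ℂ) • a - x := by
  simp [rf, smul_smul]

theorem rf_adj (a x y : K) : ⟪rf a x, y⟫_ℂ = ⟪x, rf a y⟫_ℂ := by
  simp only [rf_apply, inner_sub_left, inner_sub_right, inner_smul_left, inner_smul_right, map_mul,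
    inner_conj_symm, map_ofNat]
  ring

theorem rf_rf {a : K} (ha : ‖a‖ = 1) (x : K) : rf a (rf a x) = x := by
  have h : ⟪a, a⟫_ℂ = 1 := by rw [inner_self_eq_norm_sq_to_K, ha]; simp
  simp only [rf_apply, inner_sub_right, inner_smul_right, h]
  module

theorem norm_rf {a : K} (ha : ‖a‖ = 1) (x : K) : ‖rf a x‖ = ‖x‖ := by
  rw [norm_eq_sqrt_re_inner (𝕜 := ℂ), rf_adj, rf_rf ha, ← norm_eq_sqrt_re_inner]

theorem norm_rf_sub {a b : K} (ha : ‖a‖ = 1) (hb : ‖b‖ = 1) (x : K) :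
    ‖rf a x - rf b x‖ ≤ 4 * ‖a - b‖ * ‖x‖ := by
  have e : rf a x - rf b x = (2 : ℂ) • (⟪a - b, x⟫_ℂ • a + ⟪b, x⟫_ℂ • (a - b)) := by
    simp only [rf_apply, inner_sub_left]
    module
  have h1 := norm_inner_le_norm (𝕜 := ℂ) (a - b) x
  have h2 := norm_inner_le_norm (𝕜 := ℂ) b x
  have h3 := norm_add_le (⟪a - b, x⟫_ℂ • a) (⟪b, x⟫_ℂ • (a - b))
  rw [norm_smul, norm_smul, ha] at h3
  rw [hb] at h2
  have h4 : ‖⟪b, x⟫_ℂ‖ * ‖a - b‖ ≤ 1 * ‖x‖ * ‖a - b‖ := by gcongr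
  rw [e, norm_smul, Complex.norm_ofNat]
  nlinarith

theorem norm_normalize_sub {a b : K} (ha : ‖a‖ = 1) (hb : b ≠ 0) :
    ‖((‖b‖⁻¹ : ℝ) : ℂ) • b‖ = 1 ∧ ‖((‖b‖⁻¹ : ℝ) : ℂ) • b - a‖ ≤ 2 * ‖b - a‖ := by
  have h0 : 0 < ‖b‖ := norm_pos_iff.2 hb
  refine ⟨by rw [norm_smul]; simp [h0.ne'], ?_⟩
  have e : ((‖b‖⁻¹ : ℝ) : ℂ) • b - b = ((‖b‖⁻¹ * (1 - ‖b‖) : ℝ) : ℂ) • b := by
    rw [mul_sub, inv_mul_cancel₀ h0.ne', mul_one]
    push_cast
    module
  have h1 : ‖((‖b‖⁻¹ : ℝ) : ℂ) • b - b‖ = |‖a‖ - ‖b‖| := by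
    rw [e, norm_smul, Complex.norm_real, Real.norm_eq_abs, abs_mul, abs_inv, abs_norm, ha]
    field_simp
  have h2 := abs_norm_sub_norm_le a b
  have h3 := norm_sub_le_norm_sub_add_norm_sub (((‖b‖⁻¹ : ℝ) : ℂ) • b) b a
  rw [norm_sub_rev a] at h2
  linarith

/-- a rotation carrying `a` to `b`. -/
theorem exists_rot {a b : K} (ha : ‖a‖ = 1) (hb : ‖b‖ = 1) (hab : ⟪a, b⟫_ℂ = ⟪b, a⟫_ℂ)
    (h1 : ‖a - b‖ ≤ 1) : ∃ U V : K →L[ℂ] K, U a = b ∧ (∀ x, V (U x) = x) ∧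
      (∀ x y, ⟪U x, y⟫_ℂ = ⟪x, V y⟫_ℂ) ∧ (∀ x, ‖U x‖ = ‖x‖) ∧ (∀ x, ‖V x‖ = ‖x‖) ∧
      (∀ x, ‖U x - x‖ ≤ 4 * ‖a - b‖ * ‖x‖) ∧ ∀ x, ‖V x - x‖ ≤ 4 * ‖a - b‖ * ‖x‖ := by
  set m : K := (2⁻¹ : ℂ) • (a + b) with hm
  have hma : ‖m - a‖ = ‖a - b‖ / 2 := by
    have : m - a = (-2⁻¹ : ℂ) • (a - b) := by rw [hm]; module
    rw [this, norm_smul]; simp; ring
  have hm0 : m ≠ 0 := by
    rintro h
    rw [h, zero_sub, norm_neg] at hma
    linarith
  obtain ⟨hc1, hc2⟩ := norm_normalize_sub ha hm0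
  set c : K := ((‖m‖⁻¹ : ℝ) : ℂ) • m with hc
  have hca : ‖c - a‖ ≤ ‖a - b‖ := by linarith
  have haa : ⟪a, a⟫_ℂ = 1 := by rw [inner_self_eq_norm_sq_to_K, ha]; simp
  have hbb : ⟪b, b⟫_ℂ = 1 := by rw [inner_self_eq_norm_sq_to_K, hb]; simp
  have hmn : (‖m‖ : ℂ) ≠ 0 := by exact_mod_cast norm_ne_zero_iff.2 hm0
  have hmm : ⟪m, a⟫_ℂ = (‖m‖ : ℂ) ^ 2 := by
    have : ⟪m, m⟫_ℂ = (‖m‖ : ℂ) ^ 2 := inner_self_eq_norm_sq_to_K (𝕜 := ℂ) m
    rw [← this, hm]
    simp only [inner_smul_left, inner_smul_right, inner_add_left, inner_add_right, haa, hbb, hab,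
      map_inv₀, map_ofNat]
    ring
  refine ⟨rf c ∘L rf a, rf a ∘L rf c, ?_, fun x => ?_, fun x y => ?_, fun x => ?_, fun x => ?_,
    fun x => ?_, fun x => ?_⟩ <;> simp only [ContinuousLinearMap.comp_apply]
  · have e1 : rf a a = a := by rw [rf_apply, haa]; module
    rw [e1, rf_apply, hc, inner_smul_left, hmm, smul_smul, Complex.conj_ofReal]
    have : 2 * (((‖m‖⁻¹ : ℝ) : ℂ) * (‖m‖ : ℂ) ^ 2) * ((‖m‖⁻¹ : ℝ) : ℂ) = 2 := by
      push_cast; field_simp
    rw [this, hm]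
    module
  · rw [rf_rf hc1, rf_rf ha]
  · rw [rf_adj, rf_adj]
  · rw [norm_rf hc1, norm_rf ha]
  · rw [norm_rf ha, norm_rf hc1]
  · rw [← norm_rf hc1, map_sub, rf_rf hc1, norm_sub_rev]
    exact (norm_rf_sub hc1 ha x).trans (by gcongr)
  · rw [← norm_rf ha, map_sub, rf_rf ha]
    exact (norm_rf_sub hc1 ha x).trans (by gcongr)

variable {B : Type*} [NormedRing B] [StarRing B] [NormedAlgebra ℂ B] [StarModule ℂ B]

theorem Setup.fix {L R : B →ₗ[ℂ] K →L[ℂ] K} {t s : ℝ} (hS : Setup L R t) {ζ : K} (hζ : ‖ζ‖ = 1)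
    (hs : s ≤ 1 / 2) (h : ‖R 1 ζ - ζ‖ ≤ s) : ∃ R' : B →ₗ[ℂ] K →L[ℂ] K,
      Setup L R' (t + 32 * s) ∧ R' 1 ζ = ζ ∧ ∀ x η, ‖R' x η - R x η‖ ≤ 16 * s * ‖x‖ * ‖η‖ := by
  have hs0 : 0 ≤ s := (norm_nonneg _).trans h
  have h0 : R 1 ζ ≠ 0 := by
    rintro h0
    rw [h0, zero_sub, norm_neg] at h
    linarith
  obtain ⟨ha1, ha2⟩ := norm_normalize_sub hζ h0
  set a : K := ((‖R 1 ζ‖⁻¹ : ℝ) : ℂ) • R 1 ζ with ha
  have hRa : R 1 a = a := by rw [ha, map_smul, ← hS.anti.mul, one_mul]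
  obtain ⟨U, V, h1, h2, h3, h4, h5, h6, h7⟩ := exists_rot ha1 hζ (by
    rw [ha, inner_smul_left, inner_smul_right, hS.anti.adj, star_one, Complex.conj_ofReal])
    (by linarith)
  have h3' : ∀ x y, ⟪V x, y⟫_ℂ = ⟪x, U y⟫_ℂ := fun x y => by
    rw [← inner_conj_symm, ← h3, inner_conj_symm]
  have h8 : ∀ x η, ‖U (R x (V η)) - R x η‖ ≤ 16 * s * ‖x‖ * ‖η‖ := fun x η => by
    have k1 := h6 (R x (V η))
    have k2 := hS.nR x (V η - η)
    have k3 := h7 η
    have k4 := hS.nR x (V η)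
    rw [h5] at k4
    rw [map_sub] at k2
    calc _ ≤ ‖U (R x (V η)) - R x (V η)‖ + ‖R x (V η) - R x η‖ :=
          norm_sub_le_norm_sub_add_norm_sub _ _ _
      _ ≤ 4 * (2 * s) * (‖x‖ * ‖η‖) + ‖x‖ * (4 * (2 * s) * ‖η‖) := by
          refine add_le_add (k1.trans ?_) (k2.trans ?_)
          · gcongr; linarith
          · gcongr
            refine k3.trans ?_
            gcongr; linarith
      _ = _ := by ring
  refine ⟨{ toFun := fun x => U ∘L R x ∘L V
            map_add' := fun x y => by ext; simp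
            map_smul' := fun c x => by ext; simp }, ⟨hS.hB, hS.rep, ⟨fun x y η => ?_,
    fun x η θ => ?_⟩, hS.nL, fun x η => ?_, by linarith [hS.γ0], fun x y η => ?_⟩, ?_, h8⟩
  · change U (R (x * y) (V η)) = U (R y (V (U (R x (V η)))))
    rw [h2, hS.anti.mul]
  · change ⟪U (R x (V η)), θ⟫_ℂ = ⟪η, U (R (star x) (V θ))⟫_ℂ
    rw [h3, hS.anti.adj, h3']
  · change ‖U (R x (V η))‖ ≤ _
    rw [h4, ← h5 η]
    exact hS.nR _ _
  · change ‖L x (U (R y (V η))) - U (R y (V (L x η)))‖ ≤ _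
    have e : L x (U (R y (V η))) - U (R y (V (L x η))) = L x (U (R y (V η)) - R y η) +
        (L x (R y η) - R y (L x η)) - (U (R y (V (L x η))) - R y (L x η)) := by
      rw [map_sub]; abel
    have k1 := hS.nL x (U (R y (V η)) - R y η)
    have k2 := h8 y η
    have k3 := hS.comm x y η
    have k4 := h8 y (L x η)
    have k5 := hS.nL x η
    rw [e]
    calc _ ≤ ‖x‖ * (16 * s * ‖y‖ * ‖η‖) + t * ‖x‖ * ‖y‖ * ‖η‖ + 16 * s * ‖y‖ * (‖x‖ * ‖η‖) :=
          (norm_sub_le _ _).trans (add_le_add ((norm_add_le _ _).trans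
            (add_le_add (k1.trans (by gcongr)) k3)) (k4.trans (by gcongr)))
      _ = _ := by ring
  · change U (R 1 (V ζ)) = ζ
    conv_lhs => rw [← h1, h2, hRa, h1]

end rot

variable {B : Type v} [NormedRing B] [StarRing B] [NormedAlgebra ℂ B] [StarModule ℂ B]

theorem core_h1 (F : Finset B) (hF : ∀ a ∈ F, a ∈ unitary B)
    (hA : DerInner (StarAlgebra.adjoin ℂ (F : Set B))) {η : ℝ} (hη : 0 < η) :
    ∃ t : ℝ, 0 < t ∧ ∀ (K : Type w) [NormedAddCommGroup K] [InnerProductSpace ℂ K]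
        (L R : B →ₗ[ℂ] K →L[ℂ] K), Setup L R t →
        ∀ ζ : K, ‖ζ‖ = 1 → L 1 ζ = ζ → R 1 ζ = ζ → (∀ a ∈ F, ‖L a ζ - R a ζ‖ ≤ t) →
        ∀ x ∈ StarAlgebra.adjoin ℂ (F : Set B), ‖L x ζ - R x ζ‖ ≤ η * ‖x‖ := by
  classical
  let π : F → unitary B := fun a => ⟨a, hF a a.2⟩
  let u : Option (F ⊕ F) → unitary B := fun i => match i with
    | none => 1
    | some (.inl a) => π a
    | some (.inr a) => (π a)⁻¹
  let σ : Option (F ⊕ F) ≃ Option (F ⊕ F) := Equiv.optionCongr (Equiv.sumComm F F)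
  have hσu : ∀ i, u (σ i) = (u i)⁻¹ := by rintro (_ | a | a) <;> simp [u, σ]
  have hA1 : ∀ (w : unitary B) n, IsW u n w → (w : B) ∈ StarAlgebra.adjoin ℂ (F : Set B) := by
    intro w n hw
    induction n generalizing w with
    | zero => obtain rfl : w = 1 := hw; exact one_mem _
    | succ n ih =>
      rcases hw with hw | ⟨h, i, hh, rfl⟩
      · exact ih w hw
      · refine mul_mem (ih h hh) ?_
        rcases i with _ | a | a
        · exact one_mem _
        · exact StarAlgebra.subset_adjoin ℂ _ a.2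
        · exact star_mem (StarAlgebra.subset_adjoin ℂ _ a.2)
  have hA2 : ∀ x ∈ StarAlgebra.adjoin ℂ (F : Set B),
      x ∈ Submodule.span ℂ {v : B | ∃ (w : unitary B) (n : ℕ), IsW u n w ∧ v = w} := by
    intro x hx
    induction hx using StarAlgebra.adjoin_induction with
    | mem x hx => exact Submodule.subset_span ⟨_, 1, IsW.gen (some (.inl ⟨x, hx⟩)), rfl⟩
    | algebraMap r =>
      rw [Algebra.algebraMap_eq_smul_one]
      exact Submodule.smul_mem _ _ (Submodule.subset_span ⟨1, 0, IsW.one 0, rfl⟩)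
    | add x y _ _ h1 h2 => exact add_mem h1 h2
    | mul x y _ _ h1 h2 =>
      clear * - h1 h2
      induction h1, h2 using Submodule.span_induction₂ with
      | mem_mem x y hx hy =>
        obtain ⟨g, n, hg, rfl⟩ := hx
        obtain ⟨h, m, hh, rfl⟩ := hy
        exact Submodule.subset_span ⟨g * h, n + m, hg.mul hh, rfl⟩
      | zero_left => simp
      | zero_right => simp
      | add_left x y z _ _ _ h1 h2 => rw [add_mul]; exact add_mem h1 h2
      | add_right x y z _ _ _ h1 h2 => rw [mul_add]; exact add_mem h1 h2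
      | smul_left r x y _ _ h => rw [smul_mul_assoc]; exact Submodule.smul_mem _ _ h
      | smul_right r x y _ _ h => rw [mul_smul_comm]; exact Submodule.smul_mem _ _ h
    | star x _ h1 =>
      clear * - h1 hσu
      induction h1 using Submodule.span_induction with
      | mem x hx =>
        obtain ⟨g, n, hg, rfl⟩ := hx
        exact Submodule.subset_span ⟨g⁻¹, n, hg.inv σ hσu, rfl⟩
      | zero => simp
      | add x y _ _ h1 h2 => rw [star_add]; exact add_mem h1 h2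
      | smul r x _ h => rw [star_smul]; exact Submodule.smul_mem _ _ h
  obtain ⟨m, θ, ρ, C, hθ, hρ, hC, hgap⟩ := h1_gap.{v, w} hA1 hA2 hA (i₁ := none) rfl σ hσu
  set N : ℝ := (Fintype.card (Option (F ⊕ F)) : ℝ) with hN
  set K₁ : ℝ := (12 * N + 1) ^ m * Cw (12 * N) m with hK₁
  let f : ℝ → ℝ := fun t => 74 * t + (16 * (t + 2 * t) ^ 2 + C * K₁ * (16 * t ^ 2)) / (1 - ρ)
  have hf : Tendsto f (𝓝[>] 0) (𝓝 0) := by
    have : Continuous f := by fun_prop
    have h := this.tendsto 0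
    simp only [f] at h
    norm_num at h
    exact (h.congr fun t => by simp only [f]).mono_left nhdsWithin_le_nhds
  have hid : Tendsto (fun t : ℝ => t) (𝓝[>] 0) (𝓝 0) := tendsto_id.mono_left nhdsWithin_le_nhds
  have p1 : 0 < (η / 16) ^ 2 := pow_pos (by linarith) 2
  obtain ⟨t, ht1, ht2, ht3, ht4, ht0⟩ : ∃ t : ℝ, f t < (η / 16) ^ 2 ∧ t < 1 / 48 ∧ t < θ ∧
      t < η / 108 ∧ 0 < t :=
    ((hf.eventually (gt_mem_nhds p1)).and
      ((hid.eventually (gt_mem_nhds (by norm_num))).and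
      ((hid.eventually (gt_mem_nhds hθ)).and
      ((hid.eventually (gt_mem_nhds (by linarith))).and self_mem_nhdsWithin)))).exists
  refine ⟨t, ht0, fun K _ _ L R hSt ζ hζ hL1 hR1 hδ x hx => ?_⟩
  have hmain := hSt.main_est (u := u) ht2.le (i₁ := none) rfl σ hσu (m := m) hρ hC
    (hgap K L R (hSt.mono ht3.le)) hζ hL1 hR1 (δ := 2 * t) (fun i => ?_) (μ := η / 16)
    (by linarith) ht1.le (hA2 x hx)
  · refine hmain.trans (mul_le_mul_of_nonneg_right ?_ (norm_nonneg _))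
    linarith
  · clear hgap
    rcases i with _ | a | a
    · simp [u, hL1, hR1, ht0.le]
    · have e : L (π a) (R (star (π a : B)) ζ) - ζ =
          (L (π a) (R (star (π a : B)) ζ) - R (star (π a : B)) (L (π a) ζ)) +
            R (star (π a : B)) (L (π a) ζ - R (π a) ζ) := by
        rw [map_sub, ← hSt.anti.mul, (π a).2.2, hR1]; abel
      change ‖L (π a) (R (star (π a : B)) ζ) - ζ‖ ≤ _
      rw [e]
      have k1 := hSt.comm (π a) (star (π a : B)) ζ
      have k2 := hSt.anti.norm_le (u := star (π a : B)) (by rw [star_star]; exact (π a).2.1)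
        (L (π a) ζ - R (π a) ζ)
      have k3 : ‖L (π a) ζ - R (π a) ζ‖ ≤ t := hδ a a.2
      have k4 := hSt.unit_le (π a).2
      have k5 := hSt.unit_le (Unitary.star_mem (π a).2)
      have k6 : t * ‖(π a : B)‖ * ‖star (π a : B)‖ * ‖ζ‖ ≤ t * 1 * 1 * 1 := by
        rw [hζ]; gcongr
      have := norm_add_le (L (π a) (R (star (π a : B)) ζ) - R (star (π a : B)) (L (π a) ζ))
        (R (star (π a : B)) (L (π a) ζ - R (π a) ζ))
      linarith
    · have e : L (star (π a : B)) (R (π a) ζ) - ζ =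
          - L (star (π a : B)) (L (π a) ζ - R (π a) ζ) := by
        rw [map_sub, ← hSt.rep.mul, (π a).2.1, hL1]; abel
      change ‖L (star (π a : B)) (R (star (star (π a : B))) ζ) - ζ‖ ≤ _
      rw [star_star, e, norm_neg]
      have k2 := hSt.rep.norm_le (u := star (π a : B)) (by rw [star_star]; exact (π a).2.2)
        (L (π a) ζ - R (π a) ζ)
      have k3 : ‖L (π a) ζ - R (π a) ζ‖ ≤ t := hδ a a.2
      linarith

/-- robust rigidity without normalisation of the vector. -/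
def RobustB (A : Set B) (F : Finset B) (t η : ℝ) : Prop :=
  ∀ (K : Type w) [NormedAddCommGroup K] [InnerProductSpace ℂ K] (L R : B →ₗ[ℂ] K →L[ℂ] K),
    Setup L R t → ∀ ζ : K, ‖ζ‖ ≤ 1 → ‖L 1 ζ - R 1 ζ‖ ≤ t → (∀ a ∈ F, ‖L a ζ - R a ζ‖ ≤ t) →
    ∀ x ∈ A, ‖L x ζ - R x ζ‖ ≤ η * ‖x‖

theorem robustB_of {A : Set B} {F : Finset B} (hF : ∀ a ∈ F, a ∈ unitary B) {η t₀ : ℝ}
    (hη : 0 < η) (hη1 : η ≤ 1) (ht₀ : 0 < t₀)
    (h : ∀ (K : Type w) [NormedAddCommGroup K] [InnerProductSpace ℂ K]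
        (L R : B →ₗ[ℂ] K →L[ℂ] K), Setup L R t₀ →
        ∀ ζ : K, ‖ζ‖ = 1 → L 1 ζ = ζ → R 1 ζ = ζ → (∀ a ∈ F, ‖L a ζ - R a ζ‖ ≤ t₀) →
        ∀ x ∈ A, ‖L x ζ - R x ζ‖ ≤ η / 2 * ‖x‖) :
    ∃ t : ℝ, 0 < t ∧ RobustB.{v, w} A F t η := by
  obtain ⟨s, hs0, hs1, hs2⟩ : ∃ s : ℝ, 0 < s ∧ s ≤ t₀ / 33 ∧ s ≤ η / 64 :=
    ⟨min (t₀ / 33) (η / 64), by positivity, min_le_left _ _, min_le_right _ _⟩
  have hts : η * s / 8 ≤ s / 8 := by nlinarith
  refine ⟨η * s / 8, by positivity, fun K _ _ L R hS ζ hζ h1 hδ x hx => ?_⟩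
  set t := η * s / 8 with ht
  have ht0 := hS.γ0
  set ζ₀ := L 1 ζ with hζ₀
  have hR : ∀ y, ‖R y ζ₀ - R y ζ‖ ≤ t * ‖y‖ := fun y => by
    have e : R y ζ = R y (R 1 ζ) := by rw [← hS.anti.mul, one_mul]
    rw [e, ← map_sub, mul_comm]
    exact (hS.nR _ _).trans (by gcongr)
  have hL : ∀ y, L y ζ₀ = L y ζ := fun y => by rw [hζ₀, ← hS.rep.mul, mul_one]
  have hn : ‖ζ₀‖ ≤ 1 := (hS.rep.norm_le (u := 1) (by simp) ζ).trans hζ
  have hx0 := norm_nonneg x
  have key : ‖L x ζ₀ - R x ζ₀‖ ≤ 3 * η / 4 * ‖x‖ := by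
    rcases le_or_gt ‖ζ₀‖ (η / 4) with h2 | h2
    · have k1 := (norm_sub_le _ _).trans (add_le_add (hS.nL x ζ₀) (hS.nR x ζ₀))
      have k2 : ‖x‖ * ‖ζ₀‖ ≤ ‖x‖ * (η / 4) := by gcongr
      nlinarith
    · have h0 : 0 < ‖ζ₀‖ := by linarith
      set r : ℝ := ‖ζ₀‖⁻¹ with hr
      have hr0 : 0 < r := inv_pos.2 h0
      have hr1 : r * (2 * t) ≤ s := by
        rw [hr, inv_mul_le_iff₀ h0, ht]
        nlinarith
      have hsc : ∀ y : K, ‖(r : ℂ) • y‖ = r * ‖y‖ := fun y => by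
        rw [norm_smul, Complex.norm_real, Real.norm_of_nonneg hr0.le]
      have hd : ∀ y, ‖y‖ ≤ 1 → ‖L y ζ - R y ζ‖ ≤ t →
          ‖L y ((r : ℂ) • ζ₀) - R y ((r : ℂ) • ζ₀)‖ ≤ s := fun y hy h3 => by
        rw [map_smul, map_smul, ← smul_sub, hsc, hL]
        refine le_trans ?_ hr1
        have k1 := hR y
        have k2 := norm_sub_le_norm_sub_add_norm_sub (L y ζ) (R y ζ) (R y ζ₀)
        rw [norm_sub_rev (R y ζ)] at k2
        have k3 : t * ‖y‖ ≤ t * 1 := by gcongr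
        gcongr
        linarith
      have hL1 : L 1 ((r : ℂ) • ζ₀) = (r : ℂ) • ζ₀ := by rw [map_smul, hL]
      have hn1 : ‖(r : ℂ) • ζ₀‖ = 1 := by rw [hsc, hr, inv_mul_cancel₀ h0.ne']
      obtain ⟨R', hS', hR1, hR'⟩ := hS.fix hn1 (s := s) (by linarith) (by
        have := hd 1 hS.one_le h1
        rwa [hL1, norm_sub_rev] at this)
      have k1 := h K L R' (hS'.mono (by linarith)) _ hn1 hL1 hR1 (fun a ha => by
        have k1 := hd a (hS.unit_le (hF a ha)) (hδ a ha)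
        have k2 := hR' a ((r : ℂ) • ζ₀)
        have k3 := norm_sub_le_norm_sub_add_norm_sub (L a ((r : ℂ) • ζ₀)) (R a ((r : ℂ) • ζ₀))
          (R' a ((r : ℂ) • ζ₀))
        have k4 : 16 * s * ‖a‖ ≤ 16 * s * 1 := by gcongr; exact hS.unit_le (hF a ha)
        rw [hn1] at k2
        rw [norm_sub_rev (R a _)] at k3
        linarith) x hx
      have k2 := hR' x ((r : ℂ) • ζ₀)
      have k3 := norm_sub_le_norm_sub_add_norm_sub (L x ((r : ℂ) • ζ₀)) (R' x ((r : ℂ) • ζ₀))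
        (R x ((r : ℂ) • ζ₀))
      rw [hn1] at k2
      have k4 : ‖L x ((r : ℂ) • ζ₀) - R x ((r : ℂ) • ζ₀)‖ ≤ 3 * η / 4 * ‖x‖ := by nlinarith
      rw [map_smul, map_smul, ← smul_sub, hsc, hr, inv_mul_le_iff₀ h0] at k4
      refine k4.trans (mul_le_of_le_one_left (by positivity) hn)
  have k1 := hR x
  have k2 := norm_sub_le_norm_sub_add_norm_sub (L x ζ₀) (R x ζ₀) (R x ζ)
  rw [hL] at k2
  rw [hL] at key
  nlinarith

theorem robustB_h1 (F : Finset B) (hF : ∀ a ∈ F, a ∈ unitary B)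
    (hA : DerInner (StarAlgebra.adjoin ℂ (F : Set B))) {η : ℝ} (hη : 0 < η) (hη1 : η ≤ 1) :
    ∃ t : ℝ, 0 < t ∧ RobustB.{v, w} (StarAlgebra.adjoin ℂ (F : Set B) : Set B) F t η := by
  obtain ⟨t, ht, h⟩ := core_h1.{v, w} F hF hA (half_pos hη)
  exact robustB_of hF hη hη1 ht h

end Pool.Agent.MP_890ef7_an

end

section

/-! Property (T) for algebras close to one commensurable with a rigidly generated algebra. -/

open scoped InnerProductSpace

namespace Pool.Agent.MP_890ef7_an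

universe v w

variable {H H' : Type v} [NormedAddCommGroup H] [InnerProductSpace ℂ H] [CompleteSpace H]
  [NormedAddCommGroup H'] [InnerProductSpace ℂ H'] [CompleteSpace H']
  {P : VonNeumannAlgebra H'} {M : VonNeumannAlgebra H} {k : ℕ} {V : Fin k → H →L[ℂ] H'}

theorem frame_norm_le (hV : ∑ i, V i ∘L (V i).adjoint = 1) (i : Fin k) (v : H') :
    ‖(V i).adjoint v‖ ≤ ‖v‖ := by
  have h1 := congrArg (fun T : H' →L[ℂ] H' => (⟪v, T v⟫_ℂ).re) hV
  have h0 : ∀ j, ⟪v, V j ((V j).adjoint v)⟫_ℂ = ⟪(V j).adjoint v, (V j).adjoint v⟫_ℂ := fun j =>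
    (ContinuousLinearMap.adjoint_inner_left _ _ _).symm
  simp only [ContinuousLinearMap.sum_apply, ContinuousLinearMap.comp_apply, inner_sum,
    h0, ContinuousLinearMap.one_apply, Complex.re_sum] at h1
  simp only [← RCLike.re_to_complex, inner_self_eq_norm_sq] at h1
  refine le_of_sq_le_sq ?_ (norm_nonneg _)
  rw [← h1]
  exact Finset.single_le_sum (f := fun j => ‖(V j).adjoint v‖ ^ 2) (fun _ _ => sq_nonneg _)
    (Finset.mem_univ i)

theorem frame_entry_le (hV : ∑ i, V i ∘L (V i).adjoint = 1) (a : H' →L[ℂ] H') (i j : Fin k) :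
    ‖(V i).adjoint ∘L a ∘L V j‖ ≤ ‖a‖ := by
  have h1 : ‖V j‖ ≤ 1 := by
    rw [← LinearIsometryEquiv.norm_map ContinuousLinearMap.adjoint]
    exact ContinuousLinearMap.opNorm_le_bound _ zero_le_one fun v => by
      rw [one_mul]; exact frame_norm_le hV j v
  refine ContinuousLinearMap.opNorm_le_bound _ (norm_nonneg _) fun v => ?_
  refine (frame_norm_le hV i _).trans ((a.le_opNorm _).trans ?_)
  gcongr
  exact ((V j).le_opNorm v).trans (mul_le_of_le_one_left (norm_nonneg _) h1)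

/-- the matrix of an operator in a frame. -/
noncomputable def frameMat (hM : ∀ a ∈ P, ∀ i j, (V i).adjoint ∘L a ∘L V j ∈ M) :
    P.toStarSubalgebra →ₗ[ℂ] Matrix (Fin k) (Fin k) M.toStarSubalgebra where
  toFun a := Matrix.of fun i j => ⟨(V i).adjoint ∘L (a : H' →L[ℂ] H') ∘L V j, hM a a.2 i j⟩
  map_add' a b := by ext i j v; simp
  map_smul' c a := by ext i j v; simp

variable (hM : ∀ a ∈ P, ∀ i j, (V i).adjoint ∘L a ∘L V j ∈ M)

theorem frameMat_coe (a : P.toStarSubalgebra) (i j : Fin k) :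
    (frameMat hM a i j : H →L[ℂ] H) = (V i).adjoint ∘L (a : H' →L[ℂ] H') ∘L V j := rfl

theorem frameMat_mul (hV : ∑ i, V i ∘L (V i).adjoint = 1) (a b : P.toStarSubalgebra) :
    frameMat hM (a * b) = frameMat hM a * frameMat hM b := by
  ext i j v
  have h1 := congrArg (fun T : H' →L[ℂ] H' => T ((b : H' →L[ℂ] H') (V j v))) hV
  simp only [ContinuousLinearMap.sum_apply, ContinuousLinearMap.comp_apply,
    ContinuousLinearMap.one_apply] at h1
  simp only [Matrix.mul_apply, AddSubmonoidClass.coe_finset_sum, MulMemClass.coe_mul, frameMat_coe,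
    ContinuousLinearMap.sum_apply, ContinuousLinearMap.mul_apply, ContinuousLinearMap.comp_apply,
    ← map_sum, h1]

theorem frameMat_star (a : P.toStarSubalgebra) :
    frameMat hM (star a) = star (frameMat hM a) := by
  refine Matrix.ext fun i j => Subtype.ext ?_
  simp only [Matrix.star_apply, StarMemClass.coe_star, frameMat_coe,
    ContinuousLinearMap.star_eq_adjoint, ContinuousLinearMap.adjoint_comp,
    ContinuousLinearMap.adjoint_adjoint, ContinuousLinearMap.comp_assoc]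

theorem frame_setup (hV : ∑ i, V i ∘L (V i).adjoint = 1) {K : Type*} [NormedAddCommGroup K]
    [InnerProductSpace ℂ K] {L R : M.toStarSubalgebra →ₗ[ℂ] K →L[ℂ] K} {t : ℝ}
    (hS : Setup L R t) : Setup (LmL L ∘ₗ frameMat hM) (RmL R ∘ₗ frameMat hM) (k ^ 3 * t) := by
  have h1 : IsRep (LmL L ∘ₗ frameMat hM) := ⟨fun x y η => by
      change Lm L (frameMat hM (x * y)) η = Lm L (frameMat hM x) (Lm L (frameMat hM y) η)
      rw [frameMat_mul hM hV, (isRep_Lm hS.rep).mul], fun x η ζ => by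
      change ⟪Lm L (frameMat hM x) η, ζ⟫_ℂ = ⟪η, Lm L (frameMat hM (star x)) ζ⟫_ℂ
      rw [frameMat_star, (isRep_Lm hS.rep).adj]⟩
  have h2 : IsAnti (RmL R ∘ₗ frameMat hM) := ⟨fun x y η => by
      change Rm R (frameMat hM (x * y)) η = Rm R (frameMat hM y) (Rm R (frameMat hM x) η)
      rw [frameMat_mul hM hV, (isAnti_Rm hS.anti).mul], fun x η ζ => by
      change ⟪Rm R (frameMat hM x) η, ζ⟫_ℂ = ⟪η, Rm R (frameMat hM (star x)) ζ⟫_ℂ
      rw [frameMat_star, (isAnti_Rm hS.anti).adj]⟩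
  refine ⟨fun a b h => norm_le_one_of_sum (a := (a : H' →L[ℂ] H')) (b := (b : H' →L[ℂ] H'))
    (congrArg Subtype.val h), h1, h2, h1.norm_le_cstar, h2.norm_le_cstar,
    mul_nonneg (by positivity) hS.γ0, fun x y η => ?_⟩
  have := norm_comm_le' hS.γ0 hS.comm (norm_nonneg x) (norm_nonneg y)
    (X := frameMat hM x) (Y := frameMat hM y) (frame_entry_le hV x) (frame_entry_le hV y) η
  rwa [Fintype.card_fin] at this

theorem Lm_sub_Rm_dv {B K n : Type*} [Ring B] [StarRing B] [Algebra ℂ B] [StarModule ℂ B]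
    [NormedAddCommGroup K]
    [InnerProductSpace ℂ K] [Fintype n] [DecidableEq n] (L R : B →ₗ[ℂ] K →L[ℂ] K)
    (X : Matrix n n B) (ζ : K) (ik : n × n) :
    (Lm L X (dv n ζ) - Rm R X (dv n ζ)) ik = L (X ik.1 ik.2) ζ - R (X ik.1 ik.2) ζ := by
  rw [PiLp.sub_apply, Lm_apply, Rm_apply, Finset.sum_eq_single ik.2, Finset.sum_eq_single ik.1]
  · simp
  · intro b _ hb; simp [hb.symm]
  · simp
  · intro b _ hb; simp [hb]
  · simp

include hM in
theorem frame_bound (hV : ∑ i, V i ∘L (V i).adjoint = 1)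
    (hs : ∀ m ∈ M, ∃ a : Fin k → Fin k → H' →L[ℂ] H', (∀ i j, a i j ∈ P) ∧
      m = ∑ i, ∑ j, (V i).adjoint ∘L a i j ∘L V j) :
    ∃ C : ℝ, 1 ≤ C ∧ ∀ m ∈ M, ‖m‖ ≤ 1 → ∃ a : Fin k → Fin k → H' →L[ℂ] H',
      (∀ i j, a i j ∈ P ∧ ‖a i j‖ ≤ C) ∧ m = ∑ i, ∑ j, (V i).adjoint ∘L a i j ∘L V j := by
  let φ : Fin k × Fin k → P.toStarSubalgebra →L[ℂ] M.toStarSubalgebra := fun p =>
    LinearMap.mkContinuous
      { toFun := fun a => frameMat hM a p.1 p.2
        map_add' := fun a b => by rw [map_add]; rfl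
        map_smul' := fun c a => by rw [map_smul]; rfl } 1
      fun a => by rw [one_mul]; exact frame_entry_le hV a p.1 p.2
  let Ψ : (Fin k × Fin k → P.toStarSubalgebra) →L[ℂ] M.toStarSubalgebra :=
    ∑ p, φ p ∘L ContinuousLinearMap.proj p
  have hΨ : ∀ a, (Ψ a : H →L[ℂ] H) =
      ∑ i, ∑ j, (V i).adjoint ∘L (a (i, j) : H' →L[ℂ] H') ∘L V j := fun a => by
    simp only [Ψ, ContinuousLinearMap.sum_apply, AddSubmonoidClass.coe_finset_sum,
      Fintype.sum_prod_type]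
    rfl
  obtain ⟨C, hC, h⟩ := Ψ.exists_preimage_norm_le fun m => by
    obtain ⟨a, h1, h2⟩ := hs m m.2
    exact ⟨fun p => ⟨a p.1 p.2, h1 _ _⟩, Subtype.ext (by rw [hΨ, h2])⟩
  refine ⟨C + 1, by linarith, fun m hm hn => ?_⟩
  obtain ⟨a, h1, h2⟩ := h ⟨m, hm⟩
  refine ⟨fun i j => a (i, j), fun i j => ⟨(a (i, j)).2, ?_⟩, by rw [← hΨ, h1]⟩
  have h3 : ‖a (i, j)‖ ≤ ‖a‖ := norm_le_pi_norm a (i, j)
  have h4 : C * ‖(⟨m, hm⟩ : M.toStarSubalgebra)‖ ≤ C * 1 := by gcongr; exact hn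
  exact h3.trans (by linarith)

theorem main_frame (A : StarSubalgebra ℂ P.toStarSubalgebra) (F : Finset P.toStarSubalgebra)
    (hF : ∀ a ∈ F, a ∈ unitary P.toStarSubalgebra)
    (hP : (P : Set (H' →L[ℂ] H')) = Set.centralizer (Set.centralizer
      (Subtype.val '' (A : Set P.toStarSubalgebra))))
    (hrob : ∀ η : ℝ, 0 < η → η ≤ 1 → ∃ t : ℝ, 0 < t ∧
      RobustB.{v, max v w} (A : Set P.toStarSubalgebra) F t η) (hPM : Commensurable P M) :
    ∃ ε : ℝ, 0 < ε ∧ ∀ N : VonNeumannAlgebra H, kkDist M N < ε → HasT.{v, w} N := by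
  classical
  obtain ⟨k, V, hV, hs⟩ := hPM
  have hM : ∀ a ∈ P, ∀ i j, (V i).adjoint ∘L a ∘L V j ∈ M := fun a ha i j => by
    refine (hs _).2 ⟨fun p q => if p = i ∧ q = j then a else 0, fun p q => ?_, ?_⟩
    · dsimp only
      split_ifs
      · exact ha
      · exact zero_mem _
    · rw [Finset.sum_eq_single i, Finset.sum_eq_single j] <;> simp +contextual
  obtain ⟨C, hC, hb⟩ := frame_bound hM hV fun m hm => (hs m).1 hm
  obtain ⟨κ, hκ, hk⟩ : ∃ κ : ℝ, 1 ≤ κ ∧ (k : ℝ) < κ := ⟨k + 1, by simp, by simp⟩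
  have hk0 : (0 : ℝ) ≤ k := k.cast_nonneg
  have hκ0 : 0 < κ := by linarith
  have hκ2 : 1 ≤ κ ^ 2 := one_le_pow₀ hκ
  have hκ3 : 1 ≤ κ ^ 3 := one_le_pow₀ hκ
  obtain ⟨t, ht, hrob⟩ := hrob (12 * C * κ ^ 3)⁻¹ (by positivity)
    (inv_le_one_of_one_le₀ (by nlinarith))
  have hent : ∀ (a : P.toStarSubalgebra) i j, ‖(frameMat hM a i j : H →L[ℂ] H)‖ ≤ ‖a‖ :=
    fun a i j => frame_entry_le hV a i j
  have hsum : ∀ (f : Fin k → Fin k → ℝ) (c : ℝ), (∀ i j, f i j ≤ c) →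
      ∑ i, ∑ j, f i j ≤ k ^ 2 * c := fun f c h =>
    (Finset.sum_le_sum fun i _ => Finset.sum_le_sum fun j _ => h i j).trans_eq (by simp; ring)
  refine ⟨min (t / κ ^ 3 / 4) (1 / 40 / (3 * C * κ ^ 2)), by positivity, fun N hkk => ?_⟩
  refine transfer' M N {m | ∃ b : Fin k → Fin k → P.toStarSubalgebra,
      (∀ i j, b i j ∈ A ∧ ‖b i j‖ ≤ 3 * C) ∧ m = ∑ i, ∑ j, frameMat hM (b i j) i j}
    (c := 3 * C * κ ^ 2) (by nlinarith) (fun x hx hx1 T ε hε => ?_)
    (Finset.image₂ (fun a (p : Fin k × Fin k) => frameMat hM a p.1 p.2) (insert 1 F) Finset.univ)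
    (fun a ha => ?_) (t := t / κ ^ 3) (by positivity) 
    (by linarith [min_le_left (t / κ ^ 3 / 4) (1 / 40 / (3 * C * κ ^ 2))])
    ?_ (fun K _ _ L R hS ζ hζ hδ x hx => ?_) hkk
  · obtain ⟨a, ha, rfl⟩ := hb x hx hx1
    have hk2 : ∀ i j, ∃ b ∈ A, ‖b‖ ≤ 3 * C ∧ ∀ v ∈ T,
        ‖(b : H' →L[ℂ] H') (V j v) - a i j (V j v)‖ ≤ ε / κ ^ 2 := fun i j => by
      obtain ⟨_, ⟨b, hb1, rfl⟩, hb2, hb3⟩ := kaplansky' (A.map P.toStarSubalgebra.subtype)
        (x := a i j) (by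
          have := (ha i j).1
          rwa [← SetLike.mem_coe, hP] at this) (by linarith) (ha i j).2 (T.image (V j))
        (ε := ε / κ ^ 2) (by positivity)
      exact ⟨b, hb1, hb2, fun v hv => (hb3 _ (Finset.mem_image_of_mem _ hv)).le⟩
    choose b hb1 hb2 hb3 using hk2
    refine ⟨_, ⟨b, fun i j => ⟨hb1 i j, hb2 i j⟩, rfl⟩, ?_, fun v hv => ?_⟩
    · simp only [AddSubmonoidClass.coe_finset_sum]
      refine ((norm_sum_le _ _).trans (Finset.sum_le_sum fun i _ => norm_sum_le _ _)).trans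
        ((hsum _ _ fun i j => (hent _ i j).trans (hb2 i j)).trans ?_)
      rw [mul_comm]
      gcongr
    · simp only [AddSubmonoidClass.coe_finset_sum, ContinuousLinearMap.sum_apply, frameMat_coe,
        ContinuousLinearMap.comp_apply, ← Finset.sum_sub_distrib, ← map_sub]
      refine ((norm_sum_le _ _).trans (Finset.sum_le_sum fun i _ => norm_sum_le _ _)).trans_lt
        ((hsum _ _ fun i j => (frame_norm_le hV i _).trans (hb3 i j v hv)).trans_lt ?_)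
      rw [← mul_div_assoc, div_lt_iff₀ (by positivity), mul_comm]
      gcongr
  · obtain ⟨b, hb1, p, -, rfl⟩ := Finset.mem_image₂.1 ha
    refine (hent b _ _).trans ?_
    rcases Finset.mem_insert.1 hb1 with rfl | hb1
    · exact norm_one_le_one
    · exact norm_le_one_of_sum (a := (b : H' →L[ℂ] H')) (b := 0) (by
        simpa using congrArg Subtype.val (hF b hb1).1)
  · rw [← le_div_iff₀' (by positivity)]
    exact min_le_right _ _
  · obtain ⟨b, hb1, rfl⟩ := hx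
    have hκi : 0 < κ⁻¹ := inv_pos.2 hκ0
    have hsc : ∀ y : KM (Fin k) K, ‖((κ⁻¹ : ℝ) : ℂ) • y‖ = κ⁻¹ * ‖y‖ := fun y => by
      rw [norm_smul, Complex.norm_real, Real.norm_of_nonneg hκi.le]
    have hD : ∀ a, (LmL L ∘ₗ frameMat hM) a (((κ⁻¹ : ℝ) : ℂ) • dv (Fin k) ζ) -
        (RmL R ∘ₗ frameMat hM) a (((κ⁻¹ : ℝ) : ℂ) • dv (Fin k) ζ) = ((κ⁻¹ : ℝ) : ℂ) •
        (Lm L (frameMat hM a) (dv (Fin k) ζ) - Rm R (frameMat hM a) (dv (Fin k) ζ)) := fun a => by
      rw [map_smul, map_smul, smul_sub]; rfl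
    have htt : t / κ ^ 3 ≤ t := div_le_self ht.le hκ3
    have hsm : ∀ a ∈ insert 1 F, ‖(LmL L ∘ₗ frameMat hM) a (((κ⁻¹ : ℝ) : ℂ) • dv (Fin k) ζ) -
        (RmL R ∘ₗ frameMat hM) a (((κ⁻¹ : ℝ) : ℂ) • dv (Fin k) ζ)‖ ≤ t := fun a ha => by
      rw [hD, hsc, inv_mul_le_iff₀ hκ0]
      refine (norm_KM_le _ ht.le fun p => ?_).trans ?_
      · rw [Lm_sub_Rm_dv]
        exact (hδ _ (Finset.mem_image₂_of_mem ha (Finset.mem_univ p))).trans htt
      · rw [Fintype.card_fin]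
        gcongr
    have h1 := hrob _ _ _ ((frame_setup hM hV hS).mono (by
        rw [← mul_div_assoc, div_le_iff₀ (by positivity), mul_comm]
        gcongr)) (((κ⁻¹ : ℝ) : ℂ) • dv (Fin k) ζ) (by
        rw [hsc, inv_mul_le_iff₀ hκ0, mul_one]
        refine le_of_sq_le_sq ?_ hκ0.le
        rw [norm_dv_sq, hζ, Fintype.card_fin]
        nlinarith) (hsm 1 (Finset.mem_insert_self _ _))
      (fun a ha => hsm a (Finset.mem_insert_of_mem ha))
    have h2 : ∀ i j, ‖L (frameMat hM (b i j) i j) ζ - R (frameMat hM (b i j) i j) ζ‖ ≤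
        (4 * κ ^ 2)⁻¹ := fun i j => by
      have h3 := h1 (b i j) (hb1 i j).1
      rw [hD, hsc, inv_mul_le_iff₀ hκ0] at h3
      have h4 := PiLp.norm_apply_le (Lm L (frameMat hM (b i j)) (dv (Fin k) ζ) -
        Rm R (frameMat hM (b i j)) (dv (Fin k) ζ)) (i, j)
      rw [Lm_sub_Rm_dv] at h4
      refine (h4.trans h3).trans ?_
      calc κ * ((12 * C * κ ^ 3)⁻¹ * ‖b i j‖) ≤ κ * ((12 * C * κ ^ 3)⁻¹ * (3 * C)) := by
            gcongr; exact (hb1 i j).2
        _ = _ := by field_simp; ring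
    simp only [map_sum, ContinuousLinearMap.sum_apply, ← Finset.sum_sub_distrib]
    refine ((norm_sum_le _ _).trans (Finset.sum_le_sum fun i _ => norm_sum_le _ _)).trans
      ((hsum _ _ h2).trans ?_)
    rw [← div_eq_mul_inv, div_le_iff₀ (by positivity)]
    nlinarith

theorem main_h1 (hP : RigidlyGenerated P) (hPM : Commensurable P M) :
    ∃ ε : ℝ, 0 < ε ∧ ∀ N : VonNeumannAlgebra H, kkDist M N < ε → HasT.{v, w} N := by
  obtain ⟨F, h1, h2⟩ := hP.bundled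
  obtain ⟨F', hF, hle, h3⟩ := exists_unitary_gen F h2
  refine main_frame _ F' hF ?_ (fun η h4 h5 => robustB_h1 F' hF h3 h4 h5) hPM
  refine Set.Subset.antisymm ?_ ?_
  · rw [h1]
    exact Set.centralizer_subset (Set.centralizer_subset (Set.image_mono hle))
  · conv_rhs => rw [← P.centralizer_centralizer]
    exact Set.centralizer_subset (Set.centralizer_subset (by rintro _ ⟨x, -, rfl⟩; exact x.2))

end Pool.Agent.MP_890ef7_an

end
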