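import Mathlib
import Pool.Agent.Mg.F890ef7p.G6c7535

section

open Filter Topology FreeGroup

namespace Pool.Agent.MP_a3b3aa_an

lemma reduce_append_singleton {α : Type} [DecidableEq α] (w : α × Bool) :
    ∀ (L : List (α × Bool)) (v : α × Bool), IsReduced (v :: L) →
      reduce (v :: L ++ [w]) = [] ∨ ∃ tl, reduce (v :: L ++ [w]) = v :: tl := by
  intro L
  induction L with
  | nil =>
    intro v _
    simp only [List.cons_append, List.nil_append, reduce.cons, reduce_nil]
    split_ifs <;> simp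
  | cons v' L ih =>
    intro v h
    have h1 := isReduced_cons_cons.mp h
    rw [List.cons_append, reduce.cons]
    rcases ih v' h1.2 with h2 | ⟨tl, h2⟩
    · rw [h2]; simp
    · rw [h2]
      right
      have : ¬ (v.1 = v'.1 ∧ v.2 = !v'.2) := by
        rintro ⟨a, b⟩
        have := h1.1 a
        simp_all
      simp [this]

lemma mul_mk_startsWith {α : Type} [DecidableEq α] {g : FreeGroup α} {v : α × Bool}
    (hg : g ∈ startsWith v) (w : α × Bool) : g * mk [w] = 1 ∨ g * mk [w] ∈ startsWith v := by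
  have hw : (g * mk [w]).toWord = reduce (g.toWord ++ [w]) := by
    rw [toWord_mul, toWord_mk]
    simp
  obtain ⟨L, hL⟩ : ∃ L, g.toWord = v :: L := by
    simp only [startsWith, Set.mem_ofPred_eq] at hg
    cases h : g.toWord with
    | nil => simp [h] at hg
    | cons a L => exact ⟨L, by simpa [h] using hg⟩
  have hred : IsReduced (v :: L) := hL ▸ isReduced_toWord
  rw [hL] at hw
  rcases reduce_append_singleton w L v hred with h | ⟨tl, h⟩
  · left
    rw [← toWord_eq_nil_iff, hw, h]
  · right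
    rw [h] at hw
    simp [startsWith, hw]

/-- Conjugating a word that starts with another generator. -/
lemma conj_startsWith {α : Type} [DecidableEq α] {g : FreeGroup α} {v : α × Bool}
    (hg : g ∈ startsWith v) (w w' : α × Bool) (hw : v.1 ≠ w.1) :
    mk [w] * g * mk [w'] ∈ startsWith w := by
  rw [mul_assoc]
  apply startsWith_mk_mul
  rcases mul_mk_startsWith hg w' with h | h
  · rw [h]
    exact fun h' => startsWith.ne_one _ h' rfl
  · refine (startsWith.disjoint_iff_ne.2 ?_).notMem_of_mem_left h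
    intro h'
    exact hw (by rw [h'])

lemma exists_startsWith {α : Type} [DecidableEq α] {g : FreeGroup α} (hg : g ≠ 1) :
    ∃ v, g ∈ startsWith v := by
  cases h : g.toWord with
  | nil => exact (hg (toWord_eq_nil_iff.1 h)).elim
  | cons a L => exact ⟨a, by simp [startsWith, h]⟩

/-- The free group on two generators. -/
abbrev F2 : Type := FreeGroup Bool

/-- Conjugation `h ↦ g⁻¹ h g`. -/
def cj {G : Type} [Group G] (g : G) : G ≃ G := (Equiv.mulLeft g⁻¹).trans (Equiv.mulRight g)

@[simp] lemma cj_apply {G : Type} [Group G] (g h : G) : cj g h = g⁻¹ * h * g := rfl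

lemma of_eq (x : Bool) : (of x : F2) = mk [(x, true)] := rfl

lemma of_inv_eq (x : Bool) : (of x : F2)⁻¹ = mk [(x, false)] := rfl

/-- The spectral gap of the conjugation action of `F₂` on `ℓ²(F₂ \ {1})`. -/
theorem gap (ξ : L2 F2) (c d : F2 → ℂ) (hc : ∀ g, ‖c g‖ ≤ 1) (hc' : ∀ g, ‖c g‖ = 1)
    (hd : ∀ g, ‖d g‖ ≤ 1) (hd' : ∀ g, ‖d g‖ = 1) {ε : ℝ}
    (h₁ : ‖ξ - W (cj (of true)) c hc ξ‖ ≤ ε) (h₂ : ‖ξ - W (cj (of false)) d hd ξ‖ ≤ ε) :
    ‖P {1}ᶜ ξ‖ ≤ 10 * ε := by
  classical
  set T : Set F2 := startsWith (true, true) ∪ startsWith (true, false) with hT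
  have hTv : ∀ g ∈ T, ∃ v : Bool × Bool, v.1 = true ∧ g ∈ startsWith v := by
    rintro g (h | h)
    · exact ⟨_, rfl, h⟩
    · exact ⟨_, rfl, h⟩
  set T' : Set F2 := cj (of true) ⁻¹' T with hT'
  set T₁ : Set F2 := cj (of false) '' T with hT₁
  set T₂ : Set F2 := cj (of false) ⁻¹' T with hT₂
  have f1 : ∀ g : F2, g ≠ 1 → g ∉ T → g ∈ T' := by
    intro g hg hgT
    obtain ⟨⟨x, s⟩, hv⟩ := exists_startsWith hg
    have hx : x = false := by
      cases x
      · rfl
      · cases s
        · exact (hgT (Or.inr hv)).elim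
        · exact (hgT (Or.inl hv)).elim
    subst hx
    exact Or.inr (conj_startsWith hv (true, false) (true, true) (by simp))
  have f2 : ∀ g ∈ T₁, g ∈ startsWith (false, false) := by
    rintro _ ⟨g, hg, rfl⟩
    obtain ⟨v, hv, hg⟩ := hTv g hg
    exact conj_startsWith hg (false, false) (false, true) (by simp [hv])
  have f3 : ∀ g ∈ T₂, g ∈ startsWith (false, true) := by
    intro g hg
    obtain ⟨v, hv, hg⟩ := hTv _ hg
    have := conj_startsWith hg (false, true) (false, false) (by simp [hv])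
    rw [← of_eq, ← of_inv_eq, cj_apply] at this
    simpa [mul_assoc] using this
  have e1 := norm_P_image_sub (cj (of true)) c hc hc' T' ξ
  rw [hT', Set.image_preimage_eq _ (Equiv.surjective _), ← hT'] at e1
  have e2 := norm_P_image_sub (cj (of false)) d hd hd' T ξ
  rw [← hT₁] at e2
  have e3 := norm_P_image_sub (cj (of false)) d hd hd' T₂ ξ
  rw [hT₂, Set.image_preimage_eq _ (Equiv.surjective _), ← hT₂] at e3
  have i1 : ‖P {1}ᶜ ξ‖ ^ 2 ≤ ‖P T ξ‖ ^ 2 + ‖P T' ξ‖ ^ 2 := by
    refine hasSum_le (fun g => ?_) (hasSum_P _ ξ) ((hasSum_P T ξ).add (hasSum_P T' ξ))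
    have hg : 0 ≤ ‖ξ g‖ ^ 2 := by positivity
    by_cases h1 : g = 1
    · subst h1
      rw [if_neg (by simp)]
      split_ifs <;> linarith
    · rw [if_pos (by simpa using h1)]
      by_cases h2 : g ∈ T
      · rw [if_pos h2]
        split_ifs <;> linarith
      · rw [if_neg h2, if_pos (f1 g h1 h2)]
        linarith
  have i2 : ‖P T ξ‖ ^ 2 + ‖P T₁ ξ‖ ^ 2 + ‖P T₂ ξ‖ ^ 2 ≤ ‖P {1}ᶜ ξ‖ ^ 2 := by
    refine hasSum_le (fun g => ?_)
      (((hasSum_P T ξ).add (hasSum_P T₁ ξ)).add (hasSum_P T₂ ξ)) (hasSum_P _ ξ)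
    have hg : 0 ≤ ‖ξ g‖ ^ 2 := by positivity
    have hne : ∀ {v}, g ∈ startsWith v → g ∈ ({1}ᶜ : Set F2) := fun h =>
      startsWith.ne_one _ h
    have hd : ∀ {v w}, g ∈ startsWith v → g ∈ startsWith w → v = w := fun h h' => by
      by_contra hne
      exact (startsWith.disjoint_iff_ne.2 hne).notMem_of_mem_left h h'
    by_cases h1 : g ∈ T
    · obtain ⟨v, hv, hg'⟩ := hTv g h1
      rw [if_pos h1, if_neg, if_neg, if_pos (hne hg')]
      · linarith
      · intro h
        have := hd hg' (f3 g h)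
        simp [this] at hv
      · intro h
        have := hd hg' (f2 g h)
        simp [this] at hv
    · rw [if_neg h1]
      by_cases h2 : g ∈ T₁
      · rw [if_pos h2, if_neg, if_pos (hne (f2 g h2))]
        · linarith
        · intro h
          simpa using hd (f2 g h2) (f3 g h)
      · rw [if_neg h2]
        by_cases h3 : g ∈ T₂
        · rw [if_pos h3, if_pos (hne (f3 g h3))]
          linarith
        · rw [if_neg h3]
          split_ifs <;> linarith
  have hε : 0 ≤ ε := (norm_nonneg _).trans h₁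
  obtain ⟨e1a, e1b⟩ := abs_le.1 (e1.trans h₁)
  obtain ⟨e2a, e2b⟩ := abs_le.1 (e2.trans h₂)
  obtain ⟨e3a, e3b⟩ := abs_le.1 (e3.trans h₂)
  have n0 := norm_nonneg (P {1}ᶜ ξ)
  have n1 := norm_nonneg (P T ξ)
  have n2 := norm_nonneg (P T' ξ)
  have n3 := norm_nonneg (P T₁ ξ)
  have n4 := norm_nonneg (P T₂ ξ)
  set M := ‖P {1}ᶜ ξ‖
  set t := ‖P T ξ‖
  set t' := ‖P T' ξ‖
  set t₁ := ‖P T₁ ξ‖
  set t₂ := ‖P T₂ ξ‖
  have ht : t ≤ 6 * ε := by
    by_contra hcon
    push Not at hcon
    have a1 : (t - ε) ^ 2 ≤ t₁ ^ 2 := by gcongr <;> linarith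
    have a2 : (t - ε) ^ 2 ≤ t₂ ^ 2 := by gcongr <;> linarith
    have a3 : t' ^ 2 ≤ (t + ε) ^ 2 := by gcongr; linarith
    nlinarith
  have a3 : t' ≤ 7 * ε := by linarith
  have a4 : M ^ 2 ≤ (10 * ε) ^ 2 := by nlinarith
  exact (pow_le_pow_iff_left₀ n0 (by linarith) two_ne_zero).1 a4

end Pool.Agent.MP_a3b3aa_an

end

section

open Filter Topology
open scoped ComplexOrder InnerProductSpace ComplexConjugate BoundedContinuousFunction

namespace Pool.Agent.MP_a3b3aa_an

section General

variable {A : Type} [CStarAlgebra A] [PartialOrder A] [StarOrderedRing A]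
variable {H : Type} [NormedAddCommGroup H] [InnerProductSpace ℂ H] [CompleteSpace H]
variable (τ : TracialState A) (U : Ultrafilter ℕ)

/-- The tracial ultrapower. -/
abbrev Ultrapower : Type := (nullCon τ U).Quotient

/-- The class of a bounded sequence. -/
noncomputable abbrev cls (x : ℕ →ᵇ A) : Ultrapower τ U := (nullCon τ U).toQuotient x

lemma cls_surj (z : Ultrapower τ U) : ∃ x, cls τ U x = z := by
  obtain ⟨x⟩ := z
  exact ⟨x, rfl⟩

lemma cls_mul (x y : ℕ →ᵇ A) : cls τ U (x * y) = cls τ U x * cls τ U y := rfl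

lemma cls_star (x : ℕ →ᵇ A) : cls τ U (star x) = ultraStar τ U (cls τ U x) := rfl

lemma cls_one : cls τ U 1 = 1 := rfl

lemma cls_eq_iff {x y : ℕ →ᵇ A} :
    cls τ U x = cls τ U y ↔ Tendsto (fun n => τ.q (x n - y n)) U (𝓝 0) := by
  rw [← τ.tendsto_iff]
  exact (nullCon τ U).eq

lemma ultraTrace_cls (x : ℕ →ᵇ A) :
    ultraTrace τ U (cls τ U x) = limUnder (U : Filter ℕ) fun n => τ.toFun (x n) := rfl

/-- The diagonal embedding `N → N^U`. -/
noncomputable def diag : A →ₐ[ℂ] Ultrapower τ U where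
  toFun x := cls τ U (BoundedContinuousFunction.const ℕ x)
  map_one' := rfl
  map_mul' _ _ := rfl
  map_zero' := rfl
  map_add' _ _ := rfl
  commutes' c := congrArg (cls τ U) (by
    ext n
    simp [Algebra.algebraMap_eq_smul_one])

lemma diag_apply (x : A) : diag τ U x = cls τ U (BoundedContinuousFunction.const ℕ x) := rfl

lemma ultraTrace_diag (x : A) : ultraTrace τ U (diag τ U x) = τ.toFun x := by
  rw [diag_apply, ultraTrace_cls]
  exact (tendsto_const_nhds (x := τ.toFun x)).limUnder_eq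

lemma diag_injective : Function.Injective (diag τ U) := by
  rw [injective_iff_map_eq_zero]
  intro x hx
  apply τ.faithful
  rw [← ultraTrace_diag τ U, map_mul, hx, mul_zero, ← map_zero (diag τ U), ultraTrace_diag,
    map_zero]

lemma exists_weak_limit (ζ : ℕ → H) (C : ℝ) (hC : ∀ n, ‖ζ n‖ ≤ C) :
    ∃ z : H, ∀ v, Tendsto (fun n => ⟪ζ n, v⟫_ℂ) U (𝓝 ⟪z, v⟫_ℂ) := by
  have hc := WeakDual.isCompact_closedBall (0 : StrongDual ℂ H) C
  obtain ⟨f, -, hf⟩ := hc.ultrafilter_le_nhds
    (U.map fun n => StrongDual.toWeakDual (innerSL ℂ (ζ n))) (by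
      rw [le_principal_iff]
      refine mem_map.2 (Eventually.of_forall fun n => ?_)
      simpa using hC n)
  refine ⟨(InnerProductSpace.toDual ℂ H).symm (WeakDual.toStrongDual f), fun v => ?_⟩
  rw [InnerProductSpace.toDual_symm_apply]
  exact ((WeakDual.eval_continuous v).tendsto f).comp hf

end General

section Group

variable {G : Type} [Group G] [DecidableEq G] (U : Ultrafilter ℕ)

lemma isEmbedding_diag : IsEmbedding (rep G) (trG G) (trG G) U (diag (trG G) U) where
  map_star _ := rfl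
  injective := diag_injective _ U
  trace_preserving := ultraTrace_diag _ U
  normal y l a _ h := by
    obtain ⟨y, rfl⟩ := cls_surj _ U y
    obtain ⟨z, hz⟩ := exists_weak_limit U
      (fun n => rep G (star (y n)) (δ 1)) ‖y‖ (fun n => by
        refine (ContinuousLinearMap.le_opNorm _ _).trans ?_
        rw [norm_δ, mul_one]
        rw [norm_rep, norm_star]
        exact y.norm_coe_le_norm n)
    have key : ∀ x : AG G, ultraTrace (trG G) U (cls _ U y * diag (trG G) U x) =
        ⟪z, rep G x (δ 1)⟫_ℂ := by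
      intro x
      rw [diag_apply, ← cls_mul, ultraTrace_cls]
      refine Tendsto.limUnder_eq ?_
      refine (hz _).congr fun n => ?_
      rw [← inner_star_mul, star_star]
      rfl
    simp only [key]
    exact h z (δ 1)

variable (χ : G →* ℂ) (hχ : ∀ g, χ g = 1 ∨ χ g = -1)

lemma isEmbedding_twist :
    IsEmbedding (rep G) (trG G) (trG G) U ((diag (trG G) U).comp (twist χ hχ).toAlgHom) where
  map_star x := by
    change diag (trG G) U (twist χ hχ (star x)) = _
    rw [map_star]
    rfl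
  injective := (diag_injective _ U).comp
    (Function.LeftInverse.injective (twist_twist χ hχ))
  trace_preserving x := by
    change ultraTrace _ U (diag (trG G) U (twist χ hχ x)) = _
    rw [ultraTrace_diag, tr_twist]
  normal y := ((isEmbedding_diag U).normal y).comp_twist χ hχ

/-- The termwise twist of a bounded sequence. -/
noncomputable def twistSeq (x : ℕ →ᵇ AG G) : ℕ →ᵇ AG G :=
  BoundedContinuousFunction.ofNormedAddCommGroupDiscrete (fun n => twist χ hχ (x n)) ‖x‖
    fun n => (norm_twist_le χ hχ _).trans (x.norm_coe_le_norm n)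

lemma q_twist (x : AG G) : (trG G).q (twist χ hχ x) = (trG G).q x := by
  simp only [TracialState.q, ← map_star, ← map_mul, tr_twist]

/-- The ultraproduct of the constant sequence of twists. -/
noncomputable def twistU : Ultrapower (trG G) U → Ultrapower (trG G) U :=
  Quotient.map' (twistSeq χ hχ) fun x y h => by
    have h' : cls (trG G) U x = cls (trG G) U y := (nullCon (trG G) U).eq.2 h
    refine (nullCon (trG G) U).eq.1 ?_
    change cls (trG G) U _ = cls (trG G) U _
    rw [cls_eq_iff] at h' ⊢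
    refine h'.congr fun n => ?_
    rw [← q_twist χ hχ, map_sub]
    rfl

lemma twistU_cls (x : ℕ →ᵇ AG G) :
    twistU U χ hχ (cls _ U x) = cls _ U (twistSeq χ hχ x) := rfl

/-- The basic norm identity turning commutators into conjugation displacement. -/
lemma norm_commutator (x : AG G) (g : G) (c : ℂ) (hc : ‖c‖ ≤ 1) :
    ‖rep G x (δ 1) -
        W (cj g) (fun _ => c) (fun _ => hc) (rep G x (δ 1))‖ ≤
      ‖rep G (x * lamN g - c • lamN g * x) (δ 1)‖ := by
  refine norm_le_of_sq (Equiv.mulRight g) fun h => le_of_eq ?_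
  congr 1
  change _ = rep G x (lam g (δ 1)) (h * g) -
    c * lam g (rep G x (δ 1)) (h * g)
  rw [lam_δ, apply_δ x g]
  simp [mul_assoc]

lemma norm_le_P (ξ : L2 G) : ‖ξ‖ ≤ ‖ξ 1‖ + ‖P {1}ᶜ ξ‖ := by
  have : ξ = ξ 1 • δ 1 + P {1}ᶜ ξ := by
    refine lp.ext (funext fun h => ?_)
    change ξ h = ξ 1 * δ 1 h + P {1}ᶜ ξ h
    by_cases hh : h = 1
    · simp [P, δ_apply, hh]
    · simp [P, δ_apply, hh]
  conv_lhs => rw [this]
  refine (norm_add_le _ _).trans ?_
  rw [norm_smul, norm_δ, mul_one]

end Group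

lemma isFactor_F2 : IsSeparableIIOneFactor (rep F2) (trG F2) where
  injective := rep_injective
  vonNeumann := ⟨LG F2, range_rep⟩
  separable := separable_L2
  normal := isNormal_trG
  infinite_dim := not_finiteDimensional
  factor z hz := by
    have h : ∀ g : F2, ‖rep F2 z (δ 1) -
        W (cj g) (fun _ => 1) (fun _ => by simp) (rep F2 z (δ 1))‖ ≤ 0 := by
      intro g
      have := norm_commutator z g 1 (by simp)
      rw [one_smul, hz, sub_self] at this
      simpa using this
    have h2 := gap _ _ _ _ (fun _ => by simp) _ (fun _ => by simp) (h _) (h _)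
    rw [mul_zero, norm_le_zero_iff] at h2
    refine ⟨rep F2 z (δ 1) 1, ?_⟩
    rw [← sub_eq_zero]
    apply eq_zero_of_apply_δ
    refine lp.ext (funext fun g => ?_)
    have h3 := congrArg (fun ξ : L2 F2 => ξ g) h2
    change rep F2 z (δ 1) g - rep F2 z (δ 1) 1 * δ 1 g = 0
    by_cases hg : g = 1
    · simp [δ_apply, hg]
    · simpa [P, δ_apply, hg] using h3

/-- The character of `F₂` sending both generators to `-1`. -/
noncomputable def chi : F2 →* ℂ :=
  (Units.coeHom ℂ).comp (FreeGroup.lift fun _ => (-1 : ℂˣ))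

lemma chi_of (x : Bool) : chi (FreeGroup.of x) = -1 := by simp [chi]

lemma chi_spec (g : F2) : chi g = 1 ∨ chi g = -1 := by
  induction g using FreeGroup.induction_on with
  | C1 => simp
  | of x => simp [chi]
  | inv_of x _ => simp [chi]
  | mul x y hx hy => rcases hx with h | h <;> rcases hy with h' | h' <;> simp [h, h']

theorem not_conj (U : Ultrafilter ℕ) (u : Ultrapower (trG F2) U)
    (hu : ultraStar _ U u * u = 1) :
    ¬ ∀ x, u * diag (trG F2) U x * ultraStar _ U u =
      diag (trG F2) U (twist chi chi_spec x) := by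
  intro h
  obtain ⟨u, rfl⟩ := cls_surj _ U u
  set ξ : ℕ → L2 F2 := fun n => rep F2 (u n) (δ 1) with hξ
  have h1 : ultraStar _ U (cls _ U u) * cls _ U u = 1 := hu
  have hnorm : Tendsto (fun n => ‖ξ n‖ ^ 2) U (𝓝 1) := by
    obtain ⟨c, hc⟩ := (trG F2).exists_tendsto U (star u * u)
    have h2 := congrArg (ultraTrace _ U) h1
    rw [← cls_star, ← cls_mul, ultraTrace_cls, hc.limUnder_eq, ← map_one (diag (trG F2) U),
      ultraTrace_diag, (trG F2).map_one] at h2
    subst h2
    have h3 := (Complex.continuous_re.tendsto _).comp hc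
    refine h3.congr fun n => ?_
    rw [← q_trG]
    rfl
  let ε : Bool → ℕ → ℝ := fun x n => 
    ‖rep F2 (u n * lamN (FreeGroup.of x) - (-1 : ℂ) • lamN (FreeGroup.of x) * u n) (δ 1)‖
  have hε : ∀ x, Tendsto (ε x) U (𝓝 0) := by
    intro x
    have h2 : cls _ U u * diag (trG F2) U (lamN (FreeGroup.of x)) =
        diag (trG F2) U ((-1 : ℂ) • lamN (FreeGroup.of x)) * cls _ U u := by
      rw [← chi_of x, ← twist_lamN chi chi_spec, ← h, mul_assoc _ (ultraStar _ U _), h1, mul_one]
    rw [diag_apply, diag_apply, ← cls_mul, ← cls_mul, cls_eq_iff] at h2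
    have h3 := h2.sqrt
    rw [Real.sqrt_zero] at h3
    refine h3.congr fun n => ?_
    rw [q_trG, Real.sqrt_sq (norm_nonneg _)]
    rfl
  have hbound : ∀ n, ‖ξ n‖ ≤ 11 * (ε true n + ε false n) := by
    intro n
    have a1 := norm_commutator (u n) (FreeGroup.of true) (-1) (by simp)
    have a2 := norm_commutator (u n) (FreeGroup.of false) (-1) (by simp)
    have p1 : 0 ≤ ε true n := norm_nonneg _
    have p2 : 0 ≤ ε false n := norm_nonneg _
    have a3 := gap (ε := ε true n + ε false n) (ξ n) _ _ _ (fun _ => by simp) _ (fun _ => by simp)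
      (a1.trans (le_add_of_nonneg_right p2)) (a2.trans (le_add_of_nonneg_left p1))
    have a4 := (lp.norm_apply_le_norm (by simp) _ (1 : F2)).trans a1
    have a5 : ‖ξ n 1‖ ≤ ε true n := by
      refine le_trans ?_ a4
      simp only [lp.coeFn_sub, Pi.sub_apply, W_apply, cj_apply, mul_one, inv_mul_cancel]
      have : ξ n 1 - -1 * ξ n 1 = 2 * ξ n 1 := by ring
      change _ ≤ ‖ξ n 1 - -1 * ξ n 1‖
      rw [this, norm_mul]
      have := norm_nonneg (ξ n 1)
      simp only [Complex.norm_ofNat]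
      linarith
    have a6 := norm_le_P (ξ n)
    linarith
  have hz : Tendsto (fun n => ‖ξ n‖) U (𝓝 0) := by
    refine squeeze_zero (fun _ => norm_nonneg _) hbound ?_
    simpa using ((hε true).add (hε false)).const_mul 11
  have := tendsto_nhds_unique hnorm (hz.pow 2)
  norm_num at this

theorem main (U : Ultrafilter ℕ) :
    ∃ (N : Type) (_ : CStarAlgebra N) (_ : PartialOrder N) (_ : StarOrderedRing N)
      (H : Type) (_ : NormedAddCommGroup H) (_ : InnerProductSpace ℂ H) (_ : CompleteSpace H)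
      (ρ : N →⋆ₐ[ℂ] (H →L[ℂ] H)) (τ : TracialState N), IsSeparableIIOneFactor ρ τ ∧
      ∃ π₁ π₂ : N →ₐ[ℂ] (nullCon τ U).Quotient, IsEmbedding ρ τ τ U π₁ ∧ IsEmbedding ρ τ τ U π₂ ∧
        ∃ φ : ℕ → CompletelyPositiveMap N N, (∀ n, φ n 1 = 1) ∧
          (∀ n x, τ.toFun (φ n x) = τ.toFun x) ∧
          ∃ Φ : (nullCon τ U).Quotient → (nullCon τ U).Quotient,
            IsUltraproductMap τ U (fun n => φ n) Φ ∧
            (∀ x, Φ (π₁ x) = π₂ x) ∧ (∀ x, Φ (π₂ x) = π₁ x) ∧
            ¬ ∃ u : (nullCon τ U).Quotient, ultraStar τ U u * u = 1 ∧ u * ultraStar τ U u = 1 ∧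
              ∀ x, u * π₁ x * ultraStar τ U u = π₂ x := by
  refine ⟨AG F2, inferInstance, inferInstance, inferInstance,
    L2 F2, inferInstance, inferInstance, inferInstance, rep F2, trG F2, isFactor_F2,
    diag _ U, (diag _ U).comp (twist chi chi_spec).toAlgHom, isEmbedding_diag U,
    isEmbedding_twist U chi chi_spec,
    fun _ => CompletelyPositiveMapClass.toCompletelyPositiveLinearMap (twist chi chi_spec),
    fun _ => map_one (twist chi chi_spec), fun _ => tr_twist chi chi_spec, twistU U chi chi_spec,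
    fun x => ⟨twistSeq chi chi_spec x, fun _ => rfl, rfl⟩, fun x => rfl, fun x => ?_, ?_⟩
  · change twistU U chi chi_spec (diag _ U (twist chi chi_spec x)) = _
    rw [diag_apply, diag_apply, twistU_cls]
    congr 1
    ext1 n
    exact twist_twist chi chi_spec x
  · rintro ⟨u, hu, -, h⟩
    exact not_conj U u hu h

end Pool.Agent.MP_a3b3aa_an

end
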